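import Pool.Agent.Lib.MP_f399a8_ntG.Oa1

/-!
# Slopes

`Slope χ h`: `‖cb χ b‖ = ∏ i, ‖b i i‖ ^ h (wt i)` for `b ∈ Bg`, where `h : X →+ ℝ`.

PROOF.
* `slope_v`: for fixed `y` the function `x ↦ ‖χ (cc y x)‖` is a continuous homomorphism `ℚ_[p]ˣ → ℝ_{>0}`, trivial on the compact group of units
  `{‖x‖ = 1}` (a bounded subgroup of `ℝ_{>0}` is trivial; `x ↦ cc y x` is continuous: entries `x ^ m`), so it is `‖x‖ ^ v y` with
  `v y = - log ‖χ (cc y p)‖ / log p` (write `x = p ^ m * u`); additive in `y` by `cc_add`.  (Compare `slope_exists` in `MP_f399a8_ntS.CbB`.)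
* `form_nd`: let `b_k` be a finite `ℤ`-basis of `Y` and `x_k : X` the dual elements (see `tg_gen` in `Gd1`: `y = ∑ ⟨x_k, y⟩ b_k`,
  `x = ∑ ⟨x, b_k⟩ x_k`).  The real matrix `A i k = ⟨wt i, b_k⟩` has injective `mulVec`: if `∑_k A i k z_k = 0` for all `i` then
  `x ↦ ∑_k ⟨x, b_k⟩ z_k` is an additive function `X →+ ℝ` vanishing on the weights, so zero (`wt_ext`), so `z_l = ∑_k ⟨x_l, b_k⟩ z_k = 0`.  So
  `Aᵀ A` is injective (`z ⬝ AᵀA z = ‖A z‖²`), hence invertible; choose `z` with `(Aᵀ A z)_l = v b_l` and `h x = ∑_k ⟨x, b_k⟩ z_k`: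
  `∑_i h (wt i) ⟨wt i, b_l⟩ = v b_l`, and both sides are additive in `y`.
* `slope_exists`: `v` from `slope_v`, `h` from `form_nd`.  For `b ∈ Bg`: `cb χ b = χ t`, `t = tp b` (diagonal entries of `b`); `t = cc y p * t0` with
  `t0 ∈ Tg ∩ K` (`tg_split`).  `‖χ t0‖ = 1` (`t0 ^ m ∈ Tg ∩ K` for `m : ℤ`, the group `Tg ∩ K` is compact, so `‖χ t0 ^ m‖` is bounded), and the diagonal
  entries of `t0` have norm `1` (`tg_K`).  `‖χ (cc y p)‖ = ‖p‖ ^ v y = ∏ i ‖p ^ ⟨wt i, y⟩‖ ^ h (wt i)`.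
* `slope_co`: `cc (co α) x` has the diagonal entries `x ^ ⟨wt i, α^∨⟩`, so the norm is `‖x‖ ^ (∑ h (wt i) ⟨wt i, α^∨⟩)`, `form_eq`.
* `slope_cc`: similarly for general `y`.
-/

namespace Pool.Agent.Lib.MP_f399a8_nt.G

open Matrix Filter Topology

noncomputable section

namespace Ctx

variable {ι X Y : Type*} [Finite ι] [AddCommGroup X] [AddCommGroup Y] {N : ℕ} (D : Ctx ι X Y N)
  {p : ℕ} [Fact p.Prime] {C : Type*} [NormedField C]

/-- dual bases of the lattices -/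
private theorem Oa2_basis : ∃ (n : ℕ) (b : Fin n → Y) (x : Fin n → X),
    (∀ z : X, z = ∑ k, D.pa z (b k) • x k) ∧ (∀ y : Y, y = ∑ k, D.pa (x k) y • b k) ∧
    ∀ l k, D.pa (x l) (b k) = if l = k then 1 else 0 := by
  have hfin : Module.Finite ℤ Y := by
    refine Module.Finite.iff_addGroup_fg.2 ?_
    refine ⟨(Set.finite_range D.P.coroot).toFinset, ?_⟩
    rw [Set.Finite.coe_toFinset]
    exact D.cospan
  have htf : Module.IsTorsionFree ℤ Y := by
    refine Module.isTorsionFree_iff_smul_eq_zero.2 fun n y h => ?_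
    by_contra hcon
    push Not at hcon
    exact hcon.2 (D.tors_y hcon.1 h)
  let b := Module.finBasis ℤ Y
  have hx : ∀ k, ∃ x : X, ∀ y, (b.coord k).toAddMonoidHom y = D.pa x y := fun k =>
    D.dual_x (b.coord k).toAddMonoidHom
  choose x hx using hx
  have hx' : ∀ k y, D.pa (x k) y = b.repr y k := fun k y => (hx k y).symm
  refine ⟨_, b, x, fun z => ?_, fun y => ?_, fun l k => ?_⟩
  · apply D.pa_ext_x
    intro y
    have h1 : D.pa z y = ∑ k, b.repr y k * D.pa z (b k) := by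
      conv_lhs => rw [← b.sum_repr y]
      show D.P.toLinearMap z _ = _
      rw [map_sum]
      refine Finset.sum_congr rfl fun k _ => ?_
      rw [map_smul, smul_eq_mul]
      rfl
    have h2 : D.pa (∑ k, D.pa z (b k) • x k) y = ∑ k, D.pa z (b k) * b.repr y k := by
      show D.P.toLinearMap _ y = _
      rw [map_sum, LinearMap.sum_apply]
      refine Finset.sum_congr rfl fun k _ => ?_
      rw [map_smul, LinearMap.smul_apply, smul_eq_mul]
      congr 1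
      exact (hx k y).symm
    rw [h1, h2]
    exact Finset.sum_congr rfl fun k _ => mul_comm _ _
  · conv_lhs => rw [← b.sum_repr y]
    exact Finset.sum_congr rfl fun k _ => by rw [hx']
  · rw [hx', b.repr_self, Finsupp.single_apply]
    simp only [eq_comm]

private theorem Oa2_cc_cont (y : Y) : Continuous fun x : ℚ_[p]ˣ => D.cc p y x := by
  have h1 : Continuous fun x : ℚ_[p]ˣ => (D.cc p y x).1.1 := by
    have e : (fun x : ℚ_[p]ˣ => (D.cc p y x).1.1) = fun x => D.cd p y x := by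
      funext x
      exact D.cc_val p y x
    rw [e]
    refine continuous_matrix fun i j => ?_
    unfold cd
    by_cases hij : i = j
    · subst hij
      simp only [Matrix.diagonal_apply_eq]
      exact Units.continuous_val.comp (continuous_zpow _)
    · simp only [Matrix.diagonal_apply_ne _ hij]
      exact continuous_const
  have h2 : Continuous fun x : ℚ_[p]ˣ => (D.cc p y x).1 := continuous_induced_rng.2 h1
  exact continuous_induced_rng.2 h2

private theorem Oa2_norm_lt (p : ℕ) [Fact p.Prime] : 0 < ‖((pp p : ℚ_[p]ˣ) : ℚ_[p])‖ ∧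
    ‖((pp p : ℚ_[p]ˣ) : ℚ_[p])‖ ≠ 1 := by
  have h3 : ‖((pp p : ℚ_[p]ˣ) : ℚ_[p])‖ = (p : ℝ)⁻¹ := Padic.norm_p
  have hp1 : (1 : ℝ) < p := by exact_mod_cast (Fact.out : p.Prime).one_lt
  rw [h3]
  exact ⟨by positivity, (inv_lt_one_of_one_lt₀ hp1).ne⟩

theorem slope_v {χ : ↥(D.Tg p) →* Cˣ} (hχ : Continuous χ) : ∃ v : Y →+ ℝ,
    ∀ (y : Y) (x : ℚ_[p]ˣ), ‖(χ ⟨D.cc p y x, D.cc_torus p y x⟩ : C)‖ = ‖(x : ℚ_[p])‖ ^ (v y) := by
  let φ : Y → ℚ_[p]ˣ →* Cˣ := fun y =>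
    { toFun := fun x => χ ⟨D.cc p y x, D.cc_torus p y x⟩
      map_one' := by
        have e : (⟨D.cc p y 1, D.cc_torus p y 1⟩ : ↥(D.Tg p)) = 1 := Subtype.ext (D.cc_one p y)
        rw [e, map_one]
      map_mul' := fun x x' => by
        have e : (⟨D.cc p y (x * x'), D.cc_torus p y (x * x')⟩ : ↥(D.Tg p)) =
            ⟨D.cc p y x, D.cc_torus p y x⟩ * ⟨D.cc p y x', D.cc_torus p y x'⟩ :=
          Subtype.ext (D.cc_mul p y x x')
        rw [e, map_mul] }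
  have hφ : ∀ y, Continuous (φ y) := fun y =>
    hχ.comp (continuous_induced_rng.2 (D.Oa2_cc_cont y))
  choose w hw using fun y => S.CbB_slope (hφ y)
  have hadd : ∀ y y', w (y + y') = w y + w y' := by
    intro y y'
    obtain ⟨ha0, ha1⟩ := Oa2_norm_lt p
    have e : (⟨D.cc p (y + y') (pp p), D.cc_torus p (y + y') (pp p)⟩ : ↥(D.Tg p)) =
        ⟨D.cc p y (pp p), D.cc_torus p y (pp p)⟩ * ⟨D.cc p y' (pp p), D.cc_torus p y' (pp p)⟩ :=
      Subtype.ext (D.cc_add p y y' (pp p))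
    have h1 : φ (y + y') (pp p) = φ y (pp p) * φ y' (pp p) := by
      show χ _ = χ _ * χ _
      rw [e, map_mul]
    have h2 := hw (y + y') (pp p)
    rw [h1, Units.val_mul, norm_mul, hw, hw, ← Real.rpow_add ha0] at h2
    exact ((Real.rpow_right_inj ha0 ha1).1 h2).symm
  exact ⟨AddMonoidHom.mk' w hadd, fun y x => hw y x⟩

theorem form_nd (v : Y →+ ℝ) : ∃ h : X →+ ℝ, ∀ y, v y = ∑ i, h (D.wt i) * (D.wp i y : ℝ) := by
  classical
  obtain ⟨n, b, x, hb1, hb2, hb3⟩ := D.Oa2_basis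
  let F : (Fin n → ℝ) → X →+ ℝ := fun z =>
    { toFun := fun u => ∑ k, (D.pa u (b k) : ℝ) * z k
      map_zero' := by
        refine Finset.sum_eq_zero fun k _ => ?_
        rw [D.pa_zero_left, Int.cast_zero, zero_mul]
      map_add' := fun u u' => by
        rw [← Finset.sum_add_distrib]
        refine Finset.sum_congr rfl fun k _ => ?_
        rw [D.pa_add_left, Int.cast_add, add_mul] }
  have hF : ∀ z u, F z u = ∑ k, (D.pa u (b k) : ℝ) * z k := fun _ _ => rfl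
  let A : Matrix (Fin N) (Fin n) ℝ := Matrix.of fun i k => (D.wp i (b k) : ℝ)
  have hA : ∀ z i, (A *ᵥ z) i = F z (D.wt i) := fun z i => rfl
  have hinj : ∀ z, A *ᵥ z = 0 → z = 0 := by
    intro z hz
    have h1 : F z = 0 := D.wt_ext fun i => by
      rw [← hA, hz]
      rfl
    funext l
    have h2 := hF z (x l)
    rw [h1, Finset.sum_eq_single l] at h2
    · rw [hb3, if_pos rfl, Int.cast_one, one_mul] at h2
      exact h2.symm
    · intro k _ hk
      rw [hb3, if_neg (Ne.symm hk), Int.cast_zero, zero_mul]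
    · intro h
      exact absurd (Finset.mem_univ l) h
  have hM : Function.Injective (Aᵀ * A).mulVecLin := by
    rw [← LinearMap.ker_eq_bot, LinearMap.ker_eq_bot']
    intro z hz
    apply hinj
    rw [Matrix.mulVecLin_apply, ← Matrix.mulVec_mulVec] at hz
    have h1 : (A *ᵥ z) ⬝ᵥ (A *ᵥ z) = 0 := by
      have h2 : z ⬝ᵥ (Aᵀ *ᵥ (A *ᵥ z)) = 0 := by rw [hz, dotProduct_zero]
      rwa [Matrix.dotProduct_mulVec, Matrix.vecMul_transpose] at h2
    exact dotProduct_self_eq_zero.1 h1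
  obtain ⟨z, hz⟩ := (LinearMap.injective_iff_surjective.1 hM) fun l => v (b l)
  rw [Matrix.mulVecLin_apply, ← Matrix.mulVec_mulVec] at hz
  have hz' : ∀ l, v (b l) = ∑ i, F z (D.wt i) * (D.wp i (b l) : ℝ) := by
    intro l
    have h1 := congrFun hz l
    rw [← h1]
    show ∑ i, A i l * (A *ᵥ z) i = _
    refine Finset.sum_congr rfl fun i _ => ?_
    rw [hA, mul_comm]
    rfl
  refine ⟨F z, fun y => ?_⟩
  have h3 : v y = ∑ k, (D.pa (x k) y : ℝ) * v (b k) := by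
    conv_lhs => rw [hb2 y]
    rw [map_sum]
    refine Finset.sum_congr rfl fun k _ => ?_
    rw [map_zsmul, zsmul_eq_mul]
  have h4 : ∀ i, (D.wp i y : ℝ) = ∑ k, (D.pa (x k) y : ℝ) * (D.wp i (b k) : ℝ) := by
    intro i
    have h5 : D.wp i y = ∑ k, D.pa (x k) y * D.wp i (b k) := by
      conv_lhs => rw [hb2 y]
      show D.P.toLinearMap _ _ = _
      rw [map_sum]
      refine Finset.sum_congr rfl fun k _ => ?_
      rw [map_smul, smul_eq_mul]
      rfl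
    rw [h5, Int.cast_sum]
    refine Finset.sum_congr rfl fun k _ => ?_
    rw [Int.cast_mul]
  rw [h3]
  simp only [hz', h4, Finset.mul_sum]
  rw [Finset.sum_comm]
  refine Finset.sum_congr rfl fun i _ => Finset.sum_congr rfl fun k _ => ?_
  ring

/-- `h` describes the absolute value of `χ` -/
def Slope (χ : ↥(D.Tg p) →* Cˣ) (h : X →+ ℝ) : Prop :=
  ∀ b ∈ D.Bg p, ‖D.cb χ b‖ = ∏ i, ‖b.1.1 i i‖ ^ (h (D.wt i))

private theorem Oa2_compact : IsCompact {t : ↥(D.Tg p) | t.1 ∈ D.Kg p} := by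
  have hcl : IsClosed ((D.Tg p : Subgroup (D.Gt p)) : Set (D.Gt p)) := by
    have h1 : ((D.Tg p : Subgroup (D.Gt p)) : Set (D.Gt p)) =
        (fun x : D.Gt p => x.1) ⁻¹' {g : SLp p N | ∃ t ∈ D.Tg p, t.1 = g} := by
      ext t
      constructor
      · intro ht
        exact ⟨t, ht, rfl⟩
      · rintro ⟨t', ht', h⟩
        have : t' = t := Subtype.ext h
        rw [← this]
        exact ht'
    rw [h1]
    exact D.tg_closed_sl.preimage continuous_subtype_val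
  exact hcl.isClosedEmbedding_subtypeVal.isCompact_preimage (D.kg_compact p)

private theorem Oa2_unit {χ : ↥(D.Tg p) →* Cˣ} (hχ : Continuous χ) {t : ↥(D.Tg p)}
    (ht : t.1 ∈ D.Kg p) : ‖((χ t : Cˣ) : C)‖ = 1 := by
  obtain ⟨B, hB⟩ := D.Oa2_compact.exists_bound_of_continuousOn
    (f := fun t : ↥(D.Tg p) => ((χ t : Cˣ) : C)) (Units.continuous_val.comp hχ).continuousOn
  have key : ∀ y : ↥(D.Tg p), y.1 ∈ D.Kg p → ‖((χ y : Cˣ) : C)‖ ≤ 1 := by
    intro y hy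
    by_contra hcon
    push Not at hcon
    obtain ⟨m, hm⟩ := pow_unbounded_of_one_lt B hcon
    have h1 : ‖((χ (y ^ m) : Cˣ) : C)‖ ≤ B := by
      apply hB
      show (y ^ m).1 ∈ D.Kg p
      rw [SubmonoidClass.coe_pow]
      exact pow_mem hy m
    rw [map_pow, Units.val_pow_eq_pow_val, norm_pow] at h1
    linarith
  apply le_antisymm (key t ht)
  have h2 := key t⁻¹ (inv_mem ht)
  rw [map_inv, Units.val_inv_eq_inv_val, norm_inv] at h2
  have h3 : 0 < ‖((χ t : Cˣ) : C)‖ := norm_pos_iff.2 (Units.ne_zero _)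
  rwa [inv_le_one₀ h3] at h2

private theorem Oa2_prod {a : ℝ} (ha : 0 < a) (h : X →+ ℝ) (y : Y) :
    ∏ i, (a ^ (D.wp i y)) ^ (h (D.wt i)) = a ^ (∑ i, h (D.wt i) * (D.wp i y : ℝ)) := by
  rw [Real.rpow_sum_of_pos ha]
  refine Finset.prod_congr rfl fun i _ => ?_
  rw [← Real.rpow_intCast, ← Real.rpow_mul ha.le, mul_comm]

private theorem Oa2_cc_entry (y : Y) (x : ℚ_[p]ˣ) (i : Fin N) :
    ‖(D.cc p y x).1.1 i i‖ = ‖(x : ℚ_[p])‖ ^ (D.wp i y) := by
  rw [D.cc_val]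
  unfold cd
  rw [Matrix.diagonal_apply_eq, Units.val_zpow_eq_zpow_val, norm_zpow]

theorem slope_exists {χ : ↥(D.Tg p) →* Cˣ} (hχ : Continuous χ) : ∃ h : X →+ ℝ, D.Slope χ h := by
  obtain ⟨v, hv⟩ := D.slope_v hχ
  obtain ⟨h, hh⟩ := D.form_nd v
  refine ⟨h, fun b hb => ?_⟩
  obtain ⟨y, t0, ht0, hk0, he⟩ := D.tg_split (D.tp b).2
  have hx0 : 0 < ‖((pp p : ℚ_[p]ˣ) : ℚ_[p])‖ := (Oa2_norm_lt p).1
  have e1 : D.tp b = ⟨D.cc p y (pp p), D.cc_torus p y (pp p)⟩ * ⟨t0, ht0⟩ := Subtype.ext he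
  have h1 : ‖D.cb χ b‖ = ‖((pp p : ℚ_[p]ˣ) : ℚ_[p])‖ ^ (v y) := by
    show ‖((χ (D.tp b) : Cˣ) : C)‖ = _
    rw [e1, map_mul, Units.val_mul, norm_mul, hv, D.Oa2_unit hχ (t := ⟨t0, ht0⟩) hk0, mul_one]
  have h2 : ∀ i, ‖b.1.1 i i‖ = ‖((pp p : ℚ_[p]ˣ) : ℚ_[p])‖ ^ (D.wp i y) := by
    intro i
    rw [← D.tp_val hb i, he]
    have h3 : (D.cc p y (pp p) * t0).1.1 i i = (D.cc p y (pp p)).1.1 i i * t0.1.1 i i := by
      rw [D.val_mul, Matrix.mul_apply, Finset.sum_eq_single i]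
      · intro k _ hk
        rw [D.tg_off ht0 hk, mul_zero]
      · intro h
        exact absurd (Finset.mem_univ i) h
    rw [h3, norm_mul, (D.tg_K ht0).1 hk0 i, mul_one, D.Oa2_cc_entry]
  rw [h1, hh y, ← D.Oa2_prod hx0]
  exact Finset.prod_congr rfl fun i _ => by rw [h2]

theorem slope_cc {χ : ↥(D.Tg p) →* Cˣ} {h : X →+ ℝ} (hs : D.Slope χ h) (y : Y) (x : ℚ_[p]ˣ) :
    ‖D.cb χ (D.cc p y x)‖ = ‖(x : ℚ_[p])‖ ^ (∑ i, h (D.wt i) * (D.wp i y : ℝ)) := by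
  have hx0 : 0 < ‖(x : ℚ_[p])‖ := norm_pos_iff.2 x.ne_zero
  rw [hs _ (D.tg_bg (D.cc_torus p y x)), ← D.Oa2_prod hx0]
  exact Finset.prod_congr rfl fun i _ => by rw [D.Oa2_cc_entry]

theorem slope_co (α : ι) : ∃ κ : ℝ, 0 < κ ∧ ∀ {χ : ↥(D.Tg p) →* Cˣ} {h : X →+ ℝ},
    D.Slope χ h → ∀ x : ℚ_[p]ˣ,
      ‖D.cb χ (D.cc p (D.co α) x)‖ = ‖(x : ℚ_[p])‖ ^ (κ * h (D.rt α)) := by
  obtain ⟨κ, hκ, hf⟩ := D.form_eq α
  refine ⟨κ, hκ, fun {χ h} hs x => ?_⟩
  rw [D.slope_cc hs, hf]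

end Ctx

end

end Pool.Agent.Lib.MP_f399a8_nt.G
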