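import Pool.Agent.Lib.MP_f399a8_ntG.Pa1
import Pool.Agent.Lib.MP_f399a8_ntG.Oa2

/-!
# The character of a coroot

`chr χ γ x = (cb χ (cc (co γ) x))⁻¹`, extended by `0`.  (The same for `SL_n`: `MP_f399a8_ntS.ChA`; copy the proofs.)

PROOF.
* `cc_cont`: the entries of `cc y x` are `x ^ ⟨wt i, y⟩` on the diagonal and `0` elsewhere (`cc_val`), continuous on `ℚ_[p]ˣ`; `Gt` and `SLp` have the
  subspace topologies.
* `chr_fun_mul`: `cc_mul`, `cb_mul` (`cc_torus`, `tg_bg`).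
* `chr_norm`: `slope_co` (the constant of `slope_co γ`).
* `chr_cont`: continuous at `x ≠ 0` because `χ` and `cc` are continuous (`cb_tg`: `cb χ (cc (co γ) x) = χ ⟨cc (co γ) x, _⟩`; the map
  `x ↦ ⟨cc (co γ) x, _⟩` to `↥(Tg p)` is continuous) and `ℚ_[p]ˣ` is open in `ℚ_[p]` (`Units.isOpenEmbedding_val`); at `0`:
  `‖chr x‖ = ‖x‖ ^ (-(κ h (rt γ)))` with positive exponent tends to `0`.
* `up_bg`, `up_cb`: `up2_eq`: `io γ (up2 a c) = cc (co γ) (a)⁻¹ * xr γ (a c)` (`io_dg`, `io_ux`), `tg_bg`, `po_bg`, `cb_mul`, `cb_ug`, `cc_inv`, `cb_inv`.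
-/

namespace Pool.Agent.Lib.MP_f399a8_nt.G

open Matrix Filter Topology

noncomputable section

namespace Ctx

variable {ι X Y : Type*} [Finite ι] [AddCommGroup X] [AddCommGroup Y] {N : ℕ} (D : Ctx ι X Y N)
  {p : ℕ} [Fact p.Prime] {C : Type*} [NormedField C]

theorem cc_cont (y : Y) : Continuous (fun x : ℚ_[p]ˣ => D.cc p y x) := by
  have h1 : Continuous fun x : ℚ_[p]ˣ => (D.cc p y x).1.1 := by
    have e : (fun x : ℚ_[p]ˣ => (D.cc p y x).1.1) = fun x => D.cd p y x := by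
      funext x
      exact D.cc_val p y x
    rw [e]
    refine continuous_matrix fun i j => ?_
    unfold cd
    by_cases hij : i = j
    · subst hij
      simp only [Matrix.diagonal_apply_eq]
      exact Units.continuous_val.comp (continuous_zpow _)
    · simp only [Matrix.diagonal_apply_ne _ hij]
      exact continuous_const
  have h2 : Continuous fun x : ℚ_[p]ˣ => (D.cc p y x).1 := continuous_induced_rng.2 h1
  exact continuous_induced_rng.2 h2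

open Classical in
/-- the inverse of the character on a coroot, extended by zero -/
def chrFun (χ : ↥(D.Tg p) →* Cˣ) (γ : ι) (x : ℚ_[p]) : C :=
  if h : x = 0 then 0 else (D.cb χ (D.cc p (D.co γ) (Units.mk0 x h)))⁻¹

theorem Ca1_ne (χ : ↥(D.Tg p) →* Cˣ) (γ : ι) {x : ℚ_[p]} (h : x ≠ 0) :
    D.chrFun χ γ x = (D.cb χ (D.cc p (D.co γ) (Units.mk0 x h)))⁻¹ := by
  unfold chrFun
  rw [dif_neg h]

theorem Ca1_bg (γ : ι) (x : ℚ_[p]ˣ) : D.cc p (D.co γ) x ∈ D.Bg p :=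
  D.tg_bg (D.cc_torus p _ _)

theorem chr_zero (χ : ↥(D.Tg p) →* Cˣ) (γ : ι) : D.chrFun χ γ (0 : ℚ_[p]) = 0 := by
  unfold chrFun
  rw [dif_pos rfl]

theorem chr_one (χ : ↥(D.Tg p) →* Cˣ) (γ : ι) : D.chrFun χ γ (1 : ℚ_[p]) = 1 := by
  have h1 : Units.mk0 (1 : ℚ_[p]) one_ne_zero = 1 := Units.ext rfl
  rw [D.Ca1_ne χ γ one_ne_zero, h1, D.cc_one, D.Oa1_one, inv_one]

theorem chr_mul (χ : ↥(D.Tg p) →* Cˣ) (γ : ι) (x y : ℚ_[p]) :
    D.chrFun χ γ (x * y) = D.chrFun χ γ x * D.chrFun χ γ y := by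
  by_cases hx : x = 0
  · rw [hx, zero_mul, chr_zero, zero_mul]
  by_cases hy : y = 0
  · rw [hy, mul_zero, chr_zero, mul_zero]
  have hxy : x * y ≠ 0 := mul_ne_zero hx hy
  have h1 : Units.mk0 (x * y) hxy = Units.mk0 x hx * Units.mk0 y hy := Units.ext rfl
  rw [D.Ca1_ne χ γ hx, D.Ca1_ne χ γ hy, D.Ca1_ne χ γ hxy, h1, D.cc_mul,
    D.cb_mul χ (D.Ca1_bg γ _) (D.Ca1_bg γ _), mul_inv]

/-- the inverse of the character on a coroot, extended by zero, as a homomorphism -/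
def chr (χ : ↥(D.Tg p) →* Cˣ) (γ : ι) : ℚ_[p] →*₀ C where
  toFun := D.chrFun χ γ
  map_zero' := D.chr_zero χ γ
  map_one' := D.chr_one χ γ
  map_mul' := D.chr_mul χ γ

theorem chr_apply (χ : ↥(D.Tg p) →* Cˣ) (γ : ι) (x : ℚ_[p]ˣ) :
    D.chr χ γ (x : ℚ_[p]) = (D.cb χ (D.cc p (D.co γ) x))⁻¹ := by
  show D.chrFun χ γ (x : ℚ_[p]) = _
  have h1 : Units.mk0 (x : ℚ_[p]) x.ne_zero = x := Units.ext rfl
  rw [D.Ca1_ne χ γ x.ne_zero, h1]

theorem chr_norm (p : ℕ) [Fact p.Prime] (C : Type*) [NormedField C] (γ : ι) :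
    ∃ κ : ℝ, 0 < κ ∧ ∀ {χ : ↥(D.Tg p) →* Cˣ} {h : X →+ ℝ},
      D.Slope χ h → ∀ x : ℚ_[p], x ≠ 0 → ‖D.chr χ γ x‖ = ‖x‖ ^ (-(κ * h (D.rt γ))) := by
  obtain ⟨κ, hκ, hf⟩ := D.slope_co (p := p) (C := C) γ
  refine ⟨κ, hκ, fun {χ h} hs x hx => ?_⟩
  have h1 := D.chr_apply χ γ (Units.mk0 x hx)
  rw [Units.val_mk0] at h1
  have h2 := hf hs (Units.mk0 x hx)
  rw [Units.val_mk0] at h2
  rw [h1, norm_inv, h2, Real.rpow_neg (norm_nonneg _)]

theorem chr_cont {χ : ↥(D.Tg p) →* Cˣ} (hχ : Continuous χ) {h : X →+ ℝ} (hs : D.Slope χ h)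
    {γ : ι} (hγ : h (D.rt γ) < 0) : Continuous (D.chr χ γ) := by
  obtain ⟨κ, hκ, hf⟩ := D.chr_norm p C γ
  rw [continuous_iff_continuousAt]
  intro x
  by_cases hx : x = 0
  · subst hx
    have h0 : D.chr χ γ (0 : ℚ_[p]) = 0 := map_zero _
    rw [ContinuousAt, h0, tendsto_zero_iff_norm_tendsto_zero]
    have hpos : 0 < -(κ * h (D.rt γ)) := by nlinarith
    have h1 : ∀ y : ℚ_[p], ‖D.chr χ γ y‖ = ‖y‖ ^ (-(κ * h (D.rt γ))) := by
      intro y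
      by_cases hy : y = 0
      · rw [hy, h0, norm_zero, norm_zero, Real.zero_rpow hpos.ne']
      · exact hf hs y hy
    have h2 : Continuous fun y : ℚ_[p] => ‖y‖ ^ (-(κ * h (D.rt γ))) :=
      continuous_norm.rpow_const fun y => Or.inr hpos.le
    have h3 := h2.tendsto (0 : ℚ_[p])
    rw [norm_zero, Real.zero_rpow hpos.ne'] at h3
    simp only [h1]
    exact h3
  · have h1 : Continuous fun u : ℚ_[p]ˣ => D.chr χ γ (u : ℚ_[p]) := by
      have e : (fun u : ℚ_[p]ˣ => D.chr χ γ (u : ℚ_[p])) = fun u : ℚ_[p]ˣ =>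
          (((χ ⟨D.cc p (D.co γ) u, D.cc_torus p _ _⟩)⁻¹ : Cˣ) : C) := by
        funext u
        rw [D.chr_apply, D.cb_tg χ (D.cc_torus p _ _), Units.val_inv_eq_inv_val]
      rw [e]
      exact Units.continuous_val.comp (continuous_inv.comp (hχ.comp
        (continuous_induced_rng.2 (D.cc_cont (D.co γ)))))
    have h2 : Topology.IsOpenEmbedding (Units.val : ℚ_[p]ˣ → ℚ_[p]) := Units.isOpenEmbedding_val
    have h3 := (h2.continuousAt_iff (g := D.chr χ γ) (x := Units.mk0 x hx)).mp h1.continuousAt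
    rw [Units.val_mk0] at h3
    exact h3

variable {γ : ι}

theorem Ca1_ug (h0 : 0 < D.pr γ D.y0) (s : ℚ_[p]) :
    D.xr p γ s ∈ D.Ug p (D.Po D.y0) :=
  D.xr_mem (show γ ∈ D.Po D.y0 from h0) s

theorem up_bg (h0 : 0 < D.pr γ D.y0) {a : ℚ_[p]} (ha : a ≠ 0) (c : ℚ_[p]) :
    D.io p γ (S.up2 a ha c) ∈ D.Bg p := by
  rw [up2_eq, map_mul, D.io_dg, D.io_ux]
  exact mul_mem (D.Ca1_bg γ _) (D.po_bg (fun α hα => hα) (D.Ca1_ug h0 _))

theorem up_cb (χ : ↥(D.Tg p) →* Cˣ) (h0 : 0 < D.pr γ D.y0) {a : ℚ_[p]} (ha : a ≠ 0) (c : ℚ_[p]) :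
    D.cb χ (D.io p γ (S.up2 a ha c)) = D.chr χ γ a := by
  rw [up2_eq, map_mul, D.io_dg, D.io_ux,
    D.cb_mul χ (D.Ca1_bg γ _) (D.po_bg (fun α hα => hα) (D.Ca1_ug h0 _)),
    D.cb_ug χ (fun α hα => hα) (D.Ca1_ug h0 _), mul_one, D.cc_inv, D.cb_inv χ (D.Ca1_bg γ _)]
  have h1 := D.chr_apply χ γ (Units.mk0 a ha)
  rw [Units.val_mk0] at h1
  exact h1.symm

end Ctx

end

end Pool.Agent.Lib.MP_f399a8_nt.G
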