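import Pool.Agent.Lib.MP_f399a8_ntG.Fa1

/-!
# The functions `Gf` are in the principal series

(The same for `SL_n`: file `MP_f399a8_ntS.GfB`.)

PROOF of `gf_norm`: if `Gf χ y ψ k ≠ 0` then `k = b * f * d` (`gf_ne`) with `ψ d ≠ 0`, so `d ∈ Kg`, and
`1 = Om h k = ‖cb χ b‖ * Om h (f * d) = ‖cb χ b‖ * Om h f` (`om_kg`, `om_cb`, `om_right`, mind the association), `1 ≤ Om h f` (`good_ge`), so
`‖cb χ b‖ ≤ 1` and `‖Gf χ y ψ k‖ ≤ ‖ψ d‖ ≤ A`.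

PROOF of `gf_ps`.  By `gf_left` only the continuity is needed.  It suffices: for every `x` and `ε > 0` there is `m` with
`‖G (x * z) - G x‖ ≤ ε` for all `z ∈ Kmg m` (`G = Gf χ y ψ`; `kmg_nhds_mul`).
Case 1: `x = b * f * d` is in the cell.  Let `z ∈ Kmg m`, `m` large.  `z₁ := (f * d) * z * (f * d)⁻¹ ∈ Kmg m₁` (`conj_small`), `z₁ = b₁ * u₁`
(`cellG`, `m₁ ≥ 1`), `u₂ := f⁻¹ * u₁ * f ∈ Ug (Ne y0) ∩ Kmg m₂` (`conj_small`, `f ∈ Ug (Fr y) ⊆ Ug (Ne y0)`), `u₂ = f₃ * d₃` with `f₃ ∈ Ug (Fr y)`,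
`d₃ ∈ Ug (Dr y) ∩ Kmg m₂` (`fd_fac`).  Then `x * z = b * z₁ * f * d = b * b₁ * f * u₂ * d = (b * b₁) * (f * f₃) * (d₃ * d)`, so
`G (x * z) = cb χ b * cb χ b₁ * ψ (d₃ * d)` while `G x = cb χ b * ψ d`.  `cb χ b₁` is close to `1` (`cb_near`, for `m₁` large) and
`ψ (d₃ * d) = ψ (d * (d⁻¹ * d₃ * d))` is close to `ψ d`: `ψ` is continuous on `Ug (Dr y)` at `d` and `d⁻¹ * d₃ * d ∈ Kmg m₃` (`conj_small`; use
`kmg_nhds`-type statements: `ContinuousOn` at `d` gives a neighbourhood, which contains `d * z'` for `z' ∈ Kmg m₃`, by `kmg_nhds` applied to the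
preimage under left multiplication by `d`).  `‖a * b - c‖ ≤ ‖a - 1‖ ‖b‖ + ‖b - c‖`.
Case 2: `x` is not in the cell, `G x = 0`.  Suppose for every `m` there is `z_m ∈ Kmg m` with `ε < ‖G (x * z_m)‖`.  Write
`x * z_m = b_m * f_m * d_m` (`gf_ne`), `ψ d_m ≠ 0`, so `d_m ∈ Kg`.  `ψ` is bounded by `A` on the compact set `Ug (Dr y) ∩ Kg`
(`ug_closed`, `kg_compact`).  `ε < ‖cb χ b_m‖ * A`.  `Om h x = Om h (x * z_m) = ‖cb χ b_m‖ * Om h f_m`, so `Om h f_m ≤ Om h x * A / ε` is bounded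
and the entries of `f_m` are bounded (`good_proper`).  By compactness (`ug_bdd`, first countable) a subsequence `f_m → f ∈ Ug (Fr y)`,
`d_m → d ∈ Ug (Dr y)`, and `b_m = x * z_m * d_m⁻¹ * f_m⁻¹ → b := x * d⁻¹ * f⁻¹ ∈ Bg` (`bg_closed`).  So `x = b * f * d` is in the cell.
Contradiction.  (`Fr y` is positive on `-y`, `Dr y` on `y`; `cl_Fr`, `cl_Dr`.)
-/

namespace Pool.Agent.Lib.MP_f399a8_nt.G

open Matrix Filter Topology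

noncomputable section

namespace Ctx

variable {ι X Y : Type*} [Finite ι] [AddCommGroup X] [AddCommGroup Y] {N : ℕ} (D : Ctx ι X Y N)
  {p : ℕ} [Fact p.Prime] {C : Type*} [NormedField C] {χ : ↥(D.Tg p) →* Cˣ} {h : X →+ ℝ} {y : Y}

/-- `conj_small` for one element -/
theorem Fa2_conj (g : D.Gt p) (m : ℕ) : ∃ m' : ℕ, ∀ x ∈ D.Kmg p m',
    g * x * g⁻¹ ∈ D.Kmg p m ∧ g⁻¹ * x * g ∈ D.Kmg p m := by
  obtain ⟨m', h⟩ := D.conj_small p (∑ i, ∑ j, ‖g.1.1 i j‖) m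
  refine ⟨m', fun x hx => h g (fun i j => ?_) x hx⟩
  have h1 : ‖g.1.1 i j‖ ≤ ∑ j, ‖g.1.1 i j‖ :=
    Finset.single_le_sum (f := fun j => ‖g.1.1 i j‖) (fun _ _ => norm_nonneg _) (Finset.mem_univ j)
  have h2 : ∑ j, ‖g.1.1 i j‖ ≤ ∑ i, ∑ j, ‖g.1.1 i j‖ :=
    Finset.single_le_sum (f := fun i => ∑ j, ‖g.1.1 i j‖)
      (fun _ _ => Finset.sum_nonneg fun _ _ => norm_nonneg _) (Finset.mem_univ i)
  exact h1.trans h2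

theorem Fa2_Fr_Lo {f : D.Gt p} (hf : f ∈ D.Ug p (D.Fr y)) : f ∈ D.Ug p (D.Ne D.y0) :=
  D.ug_mono (fun _ h => h.2) hf

theorem Fa2_cmp (p : ℕ) [Fact p.Prime] (y : Y) :
    IsCompact {d : D.Gt p | d ∈ D.Ug p (D.Dr y) ∧ ∀ i j, ‖d.1.1 i j‖ ≤ 1} :=
  D.ug_bdd p (y := y) (D.cl_Dr y) (fun _ h => h.1) 1

open scoped Pointwise in
/-- the set of products `b * f * d` with bounded `f` and integral `d` is closed -/
theorem Fa2_closed (p : ℕ) [Fact p.Prime] (y : Y) (B : ℝ) :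
    IsClosed ((((D.Bg p : Set (D.Gt p)) *
      {f : D.Gt p | f ∈ D.Ug p (D.Fr y) ∧ ∀ i j, ‖f.1.1 i j‖ ≤ B}) *
      {d : D.Gt p | d ∈ D.Ug p (D.Dr y) ∧ ∀ i j, ‖d.1.1 i j‖ ≤ 1} : Set (D.Gt p))) := by
  have h1 : IsClosed (D.Bg p : Set (D.Gt p)) := D.bg_closed p
  have h2 : IsCompact {f : D.Gt p | f ∈ D.Ug p (D.Fr y) ∧ ∀ i j, ‖f.1.1 i j‖ ≤ B} := by
    refine D.ug_bdd p (y := -y) (D.cl_Fr y) (fun α h => ?_) B
    rw [D.pr_neg]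
    exact neg_pos.2 h.1
  exact (h1.mul_right_of_isCompact h2).mul_right_of_isCompact (D.Fa2_cmp p y)

theorem Fa2_cont {ψ : D.Gt p → C} (hψ : ContinuousOn ψ (D.Ug p (D.Dr y) : Set (D.Gt p)))
    {d : D.Gt p} (hd : d ∈ D.Ug p (D.Dr y)) {ε : ℝ} (hε : 0 < ε) :
    ∃ m : ℕ, ∀ z ∈ D.Kmg p m, d * z ∈ D.Ug p (D.Dr y) → ‖ψ (d * z) - ψ d‖ ≤ ε := by
  have h1 : {x : D.Gt p | ‖ψ x - ψ d‖ < ε} ∈ 𝓝[(D.Ug p (D.Dr y) : Set (D.Gt p))] d := by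
    have h := (hψ d hd).eventually (Metric.ball_mem_nhds (ψ d) hε)
    filter_upwards [h] with x hx
    rw [dist_eq_norm] at hx
    exact hx
  obtain ⟨u, hu, hsub⟩ := mem_nhdsWithin_iff_exists_mem_nhds_inter.1 h1
  have hc : Continuous fun z : D.Gt p => d * z := continuous_const.mul continuous_id
  have h2 : (fun z : D.Gt p => d * z) ⁻¹' u ∈ 𝓝 (1 : D.Gt p) := by
    refine hc.continuousAt.preimage_mem_nhds ?_
    show u ∈ 𝓝 (d * 1)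
    rw [mul_one]
    exact hu
  obtain ⟨m, hm⟩ := D.kmg_nhds h2
  exact ⟨m, fun z hz hzd => (hsub ⟨hm z hz, hzd⟩ : ‖ψ (d * z) - ψ d‖ < ε).le⟩

theorem gf_norm (hs : D.Slope χ h) (hg : D.Good h y) {ψ : D.Gt p → C}
    (hsupp : ∀ d ∈ D.Ug p (D.Dr y), d ∉ D.Kg p → ψ d = 0) {A : ℝ} (hA0 : 0 ≤ A)
    (hA : ∀ d ∈ D.Ug p (D.Dr y), ‖ψ d‖ ≤ A) {k : D.Gt p} (hk : k ∈ D.Kg p) :
    ‖D.Gf χ y ψ k‖ ≤ A := by
  by_cases h0 : D.Gf χ y ψ k = 0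
  · rw [h0, norm_zero]
    exact hA0
  obtain ⟨b, hb, f, hf, d, hd, hkk, hψ, hG⟩ := D.gf_ne h0
  have hdK : d ∈ D.Kg p := by
    by_contra hnot
    exact hψ (hsupp d hd hnot)
  have h1 : D.Om h k = 1 := D.om_kg h hk
  rw [hkk, D.om_right h hdK, D.om_cb hs hb] at h1
  have h2 : 1 ≤ D.Om h f := D.good_ge hg hf
  have h3 : ‖D.cb χ b‖ ≤ 1 := by
    have h4 : 0 ≤ ‖D.cb χ b‖ := norm_nonneg _
    nlinarith
  rw [hG, norm_mul]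
  calc ‖D.cb χ b‖ * ‖ψ d‖ ≤ 1 * A := mul_le_mul h3 (hA d hd) (norm_nonneg _) zero_le_one
    _ = A := one_mul A

/-- continuity at the points of the cell -/
theorem Fa2_case1 (hχ : Continuous χ) (hy : D.Reg y) {ψ : D.Gt p → C}
    (hψ : ContinuousOn ψ (D.Ug p (D.Dr y) : Set (D.Gt p))) {b f d : D.Gt p} (hb : b ∈ D.Bg p)
    (hf : f ∈ D.Ug p (D.Fr y)) (hd : d ∈ D.Ug p (D.Dr y)) {ε : ℝ} (hε : 0 < ε) :
    ∃ m : ℕ, ∀ z ∈ D.Kmg p m,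
      ‖D.Gf χ y ψ (b * f * d * z) - D.Gf χ y ψ (b * f * d)‖ ≤ ε := by
  have hB : 0 < ‖D.cb χ b‖ + 1 := by positivity
  have hP : 0 < ‖ψ d‖ + 1 := by positivity
  have hδ : 0 < min 1 (ε / (2 * (‖D.cb χ b‖ + 1))) := lt_min one_pos (by positivity)
  have hη : 0 < ε / (2 * (‖D.cb χ b‖ + 1) * (‖ψ d‖ + 1)) := by positivity
  obtain ⟨ma, hma⟩ := D.Fa2_cont hψ hd hδ
  obtain ⟨mb, hmb⟩ := D.Fa2_conj d ma
  obtain ⟨mc, hmc1, hmc⟩ := D.cb_near (C := C) hχ hη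
  obtain ⟨mf, hmf⟩ := D.Fa2_conj f mb
  obtain ⟨m, hm⟩ := D.Fa2_conj (f * d) (max mf mc)
  refine ⟨m, fun z hz => ?_⟩
  have hM1 : 1 ≤ max mf mc := hmc1.trans (le_max_right _ _)
  obtain ⟨b₁, hb₁, u₁, hu₁, hy₁, hb₁M, hu₁M⟩ := D.cellG hM1 (hm z hz).1
  have hu₂ : f⁻¹ * u₁ * f ∈ D.Kmg p mb := (hmf u₁ (D.kmg_anti (le_max_left _ _) hu₁M)).2
  have hfLo : f ∈ D.Ug p (D.Ne D.y0) := D.Fa2_Fr_Lo hf
  have hu₂Lo : f⁻¹ * u₁ * f ∈ D.Ug p (D.Ne D.y0) :=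
    mul_mem (mul_mem (inv_mem hfLo) hu₁) hfLo
  obtain ⟨f₃, hf₃, d₃, hd₃, hu₂e, _, hu₂m⟩ := D.fd_fac hy hu₂Lo
  have hd₃m : d₃ ∈ D.Kmg p mb := (hu₂m mb hu₂).2
  have hxy : b * f * d * z = (b * b₁) * (f * f₃) * (d₃ * d) := by
    have e1 : b * f * d * z = b * ((f * d) * z * (f * d)⁻¹) * (f * d) := by group
    have e2 : (b * b₁) * (f * f₃) * (d₃ * d) = b * b₁ * f * (f₃ * d₃) * d := by group
    rw [e1, hy₁, e2, ← hu₂e]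
    group
  have hG1 : D.Gf χ y ψ (b * f * d * z) = D.cb χ b * D.cb χ b₁ * ψ (d₃ * d) := by
    rw [hxy, D.gf_eq ψ (mul_mem hb hb₁) (mul_mem hf hf₃) (mul_mem hd₃ hd),
      D.cb_mul χ hb hb₁]
  have hG0 : D.Gf χ y ψ (b * f * d) = D.cb χ b * ψ d := D.gf_eq ψ hb hf hd
  have hψ1 : ‖ψ (d₃ * d) - ψ d‖ ≤ min 1 (ε / (2 * (‖D.cb χ b‖ + 1))) := by
    have e : d * (d⁻¹ * d₃ * d) = d₃ * d := by group
    have h := hma (d⁻¹ * d₃ * d) (hmb d₃ hd₃m).2 (by rw [e]; exact mul_mem hd₃ hd)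
    rwa [e] at h
  have hψ2 : ‖ψ (d₃ * d)‖ ≤ ‖ψ d‖ + 1 := by
    have h := norm_add_le (ψ d) (ψ (d₃ * d) - ψ d)
    rw [add_sub_cancel] at h
    exact h.trans (add_le_add le_rfl (hψ1.trans (min_le_left _ _)))
  have hcb : ‖D.cb χ b₁ - 1‖ ≤ ε / (2 * (‖D.cb χ b‖ + 1) * (‖ψ d‖ + 1)) :=
    hmc b₁ hb₁ (D.kmg_anti (le_max_right _ _) hb₁M)
  have hsplit : D.Gf χ y ψ (b * f * d * z) - D.Gf χ y ψ (b * f * d) =
      D.cb χ b * ((D.cb χ b₁ - 1) * ψ (d₃ * d) + (ψ (d₃ * d) - ψ d)) := by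
    rw [hG1, hG0]
    ring
  rw [hsplit, norm_mul]
  have h1 : ‖(D.cb χ b₁ - 1) * ψ (d₃ * d)‖ ≤ ε / (2 * (‖D.cb χ b‖ + 1)) := by
    rw [norm_mul]
    calc ‖D.cb χ b₁ - 1‖ * ‖ψ (d₃ * d)‖
        ≤ ε / (2 * (‖D.cb χ b‖ + 1) * (‖ψ d‖ + 1)) * (‖ψ d‖ + 1) :=
          mul_le_mul hcb hψ2 (norm_nonneg _) hη.le
      _ = ε / (2 * (‖D.cb χ b‖ + 1)) := by
          field_simp
  have h2 : ‖(D.cb χ b₁ - 1) * ψ (d₃ * d) + (ψ (d₃ * d) - ψ d)‖ ≤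
      ε / (2 * (‖D.cb χ b‖ + 1)) + ε / (2 * (‖D.cb χ b‖ + 1)) :=
    (norm_add_le _ _).trans (add_le_add h1 (hψ1.trans (min_le_right _ _)))
  have h3 : ε / (2 * (‖D.cb χ b‖ + 1)) + ε / (2 * (‖D.cb χ b‖ + 1)) = ε / (‖D.cb χ b‖ + 1) := by
    field_simp
    ring
  rw [h3] at h2
  calc ‖D.cb χ b‖ * ‖(D.cb χ b₁ - 1) * ψ (d₃ * d) + (ψ (d₃ * d) - ψ d)‖
      ≤ (‖D.cb χ b‖ + 1) * (ε / (‖D.cb χ b‖ + 1)) :=
        mul_le_mul (by linarith) h2 (norm_nonneg _) hB.le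
    _ = ε := by field_simp

open scoped Pointwise in
/-- continuity at the points outside of the cell -/
theorem Fa2_case2 (hs : D.Slope χ h) (hg : D.Good h y) {ψ : D.Gt p → C}
    (hψ : ContinuousOn ψ (D.Ug p (D.Dr y) : Set (D.Gt p)))
    (hsupp : ∀ d ∈ D.Ug p (D.Dr y), d ∉ D.Kg p → ψ d = 0) {x : D.Gt p}
    (hx : ∀ b ∈ D.Bg p, ∀ f ∈ D.Ug p (D.Fr y), ∀ d ∈ D.Ug p (D.Dr y), x ≠ b * f * d)
    {ε : ℝ} (hε : 0 < ε) :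
    ∃ m : ℕ, ∀ z ∈ D.Kmg p m, ‖D.Gf χ y ψ (x * z)‖ ≤ ε := by
  obtain ⟨A, hA⟩ := (D.Fa2_cmp p y).exists_bound_of_continuousOn
    (hψ.mono (fun d hd => hd.1))
  obtain ⟨B, hB⟩ := D.good_proper p hg (D.Om h x * A / ε)
  have hT := D.Fa2_closed p y B
  set T : Set (D.Gt p) := ((D.Bg p : Set (D.Gt p)) *
      {f : D.Gt p | f ∈ D.Ug p (D.Fr y) ∧ ∀ i j, ‖f.1.1 i j‖ ≤ B}) *
      {d : D.Gt p | d ∈ D.Ug p (D.Dr y) ∧ ∀ i j, ‖d.1.1 i j‖ ≤ 1} with hTdef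
  have hxT : x ∉ T := by
    intro hmem
    obtain ⟨z, hz, d, hd, hzd⟩ := Set.mem_mul.mp hmem
    obtain ⟨b, hb, f, hf, hbf⟩ := Set.mem_mul.mp hz
    refine hx b hb f hf.1 d hd.1 ?_
    rw [← hzd, ← hbf]
  have hc : Continuous fun z : D.Gt p => x * z := continuous_const.mul continuous_id
  have hnhds : (fun z : D.Gt p => x * z) ⁻¹' Tᶜ ∈ 𝓝 (1 : D.Gt p) := by
    refine (hT.isOpen_compl.preimage hc).mem_nhds ?_
    show x * 1 ∈ Tᶜ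
    rw [mul_one]
    exact hxT
  obtain ⟨m, hm⟩ := D.kmg_nhds hnhds
  refine ⟨m, fun z hz => ?_⟩
  by_contra hlt
  have hlt' : ε < ‖D.Gf χ y ψ (x * z)‖ := not_le.mp hlt
  have h0 : D.Gf χ y ψ (x * z) ≠ 0 := by
    intro h
    rw [h, norm_zero] at hlt'
    exact absurd hlt' (not_lt.mpr hε.le)
  obtain ⟨b, hb, f, hf, d, hd, hxy, hψd, hG⟩ := D.gf_ne h0
  have hdK : d ∈ D.Kg p := by
    by_contra hnot
    exact hψd (hsupp d hd hnot)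
  have hom : D.Om h x = ‖D.cb χ b‖ * D.Om h f := by
    have e1 : D.Om h (x * z) = D.Om h x := D.om_right h (D.kmg_le hz) x
    rw [← e1, hxy, D.om_right h hdK, D.om_cb hs hb]
  have hcb : ε < ‖D.cb χ b‖ * A := by
    rw [hG, norm_mul] at hlt'
    exact lt_of_lt_of_le hlt' (mul_le_mul_of_nonneg_left (hA d ⟨hd, hdK⟩) (norm_nonneg _))
  have homf : D.Om h f ≤ D.Om h x * A / ε := by
    rw [le_div_iff₀ hε, hom]
    have h1 : 0 < D.Om h f := D.om_pos h f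
    nlinarith
  refine hm z hz ?_
  show x * z ∈ T
  rw [hxy]
  exact Set.mul_mem_mul (Set.mul_mem_mul hb ⟨hf, hB f hf homf⟩) ⟨hd, hdK⟩

theorem gf_ps (hχ : Continuous χ) (hs : D.Slope χ h) (hy : D.Reg y) (hg : D.Good h y)
    {ψ : D.Gt p → C} (hψ : ContinuousOn ψ (D.Ug p (D.Dr y) : Set (D.Gt p)))
    (hsupp : ∀ d ∈ D.Ug p (D.Dr y), d ∉ D.Kg p → ψ d = 0) : D.PS χ (D.Gf χ y ψ) := by
  refine ⟨?_, fun b hb g => D.gf_left ψ hb g⟩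
  rw [continuous_iff_continuousAt]
  intro x
  have key : ∀ ε : ℝ, 0 < ε → ∃ m : ℕ, ∀ z ∈ D.Kmg p m,
      ‖D.Gf χ y ψ (x * z) - D.Gf χ y ψ x‖ ≤ ε := by
    intro ε hε
    by_cases hx : ∃ b ∈ D.Bg p, ∃ f ∈ D.Ug p (D.Fr y), ∃ d ∈ D.Ug p (D.Dr y), x = b * f * d
    · obtain ⟨b, hb, f, hf, d, hd, rfl⟩ := hx
      exact D.Fa2_case1 hχ hy hψ hb hf hd hε
    · have hx' : ∀ b ∈ D.Bg p, ∀ f ∈ D.Ug p (D.Fr y), ∀ d ∈ D.Ug p (D.Dr y), x ≠ b * f * d :=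
        fun b hb f hf d hd h => hx ⟨b, hb, f, hf, d, hd, h⟩
      have hGx : D.Gf χ y ψ x = 0 := by
        by_contra h0
        obtain ⟨b, hb, f, hf, d, hd, hxx, _⟩ := D.gf_ne h0
        exact hx' b hb f hf d hd hxx
      obtain ⟨m, hm⟩ := D.Fa2_case2 hs hg hψ hsupp hx' hε
      refine ⟨m, fun z hz => ?_⟩
      rw [hGx, sub_zero]
      exact hm z hz
  rw [Metric.continuousAt_iff']
  intro ε hε
  obtain ⟨m, hm⟩ := key (ε / 2) (half_pos hε)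
  filter_upwards [D.kmg_nhds_mul x m] with z hz
  have h := hm (x⁻¹ * z) hz
  rw [mul_inv_cancel_left] at h
  rw [dist_eq_norm]
  exact lt_of_le_of_lt h (half_lt_self hε)

theorem ps_sub {f g : D.Gt p → C} (hf : D.PS χ f) (hg : D.PS χ g) :
    D.PS χ (fun x => f x - g x) := by
  refine ⟨hf.1.sub hg.1, fun b hb x => ?_⟩
  show f (b * x) - g (b * x) = D.cb χ b * (f x - g x)
  rw [hf.2 b hb x, hg.2 b hb x, mul_sub]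

theorem ps_trans {f : D.Gt p → C} (hf : D.PS χ f) (g : D.Gt p) : D.PS χ (fun x => f (x * g)) := by
  refine ⟨hf.1.comp (continuous_id.mul continuous_const), fun b hb x => ?_⟩
  show f (b * x * g) = D.cb χ b * f (x * g)
  rw [mul_assoc, hf.2 b hb (x * g)]

end Ctx

end

end Pool.Agent.Lib.MP_f399a8_nt.G
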