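import Pool.Agent.Lib.MP_f399a8_ntG.Ca1
import Pool.Agent.Lib.MP_f399a8_ntG.Fa2

/-!
# The functions `Gf` on the `SL_2` of a root which is simple for `y` and `y0`

(The same for `SL_n`: `MP_f399a8_ntS.GiA`; copy the proofs, `iota i j _ = io γ`, `sw π i j = ry γ y`.)

PROOF of `fr_norm2`, `dr_norm2`: `io_norm` with `S' = Fr (ry γ y)` (positive on `-(ry γ y)`, `cl_Fr`, `abs_fr_sim`, `abs_fr`; `γ ∉ Fr _` since `γ` is positive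
for `y0`; `ng γ ∉ Fr (ry γ y)` since `⟨-γ, s_γ y⟩ = ⟨γ, y⟩ > 0`) resp. `S' = Dr y` (`cl_Dr`, `abs_dr_sim`, `abs_dr`).
PROOF of `gi_w0`: `b * f * io γ (up2 a c * w2) * d = b * B₁ * f₁ * io γ w2 * d`, `B₁ = io γ (up2 a c) ∈ Bg` (`up_bg`), `f₁ = B₁⁻¹ * f * B₁ ∈ Ug (Fr (ry γ y))`,
`= (b * B₁) * io γ w2 * (f₂ * d)`, `f₂ = (io γ w2)⁻¹ * f₁ * io γ w2 ∈ Ug (Fr (ry γ y)) ⊆ Ug (Ne y0)`.  If `Gf χ y'` were not `0` there, it would be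
`b' * f' * d'` (`gf_ne`), and `1 * io γ w2 = ((b * B₁)⁻¹ * b') * (f' * d' * (f₂ * d)⁻¹)` contradicts `dw_notin` with `d = 1` (for `y`, `γ`).
PROOF of `gi1`: if `l 1 1 ≠ 0`: `l = up2 a c * lo2 z` (`S.sl2_case1`), `a = l 1 1`.  With `B₁ = io γ (up2 a c) ∈ Bg`:
`b * f * io γ l * d = (b * B₁) * ((B₁⁻¹ * f * B₁) * xr (ng γ) z) * d` (`io_lo`), where `B₁⁻¹ * f * B₁ ∈ Ug (Fr (ry γ y))`, its product with `xr (ng γ) z` is in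
`Ug (Fr y)` (`fr_mul`).  `gf_eq`, and `cb χ B₁ = chr χ γ a` (`up_cb`).  If `l 1 1 = 0` the right side is `0`, `l = up2 a c * w2` (`S.sl2_case2`), `gi_w0`.
PROOF of `gi2`: for `l 1 1 ≠ 0`, `b * f * io γ l * d = (b * B₁) * (B₁⁻¹ f B₁) * (xr (ng γ) z * d)` with `xr (ng γ) z * d ∈ Ug (Dr (ry γ y))` (`xr_mem`, `ug_mono`,
`dr_ry`), `z = l 1 0 / l 1 1`, and it is integral iff `‖z‖ ≤ 1` and `d` is integral (`dr_mul_K`).  For `l 1 1 = 0`: both sides are `0` (`gi_w0`).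
PROOF of `gi_cover1`: `Gf χ y ψ x ≠ 0`: `x = b * f * d`, `f = f' * xr (ng γ) z` (`fr_peel`).  `gi_cover2`: `Gf χ (ry γ y) ψ x ≠ 0`:
`x = b * f' * u`, `u = d * xr (ng γ) z = xr (ng γ) z * (..)` (`dr_peel`, `dr_norm2`).
PROOF of `gi_norm`: `l = up2 a c * k` with `k ∈ SL_2(ℤ_p)` (see the proof in `GiA`), so `b * f * io γ l = (b * B₁) * f₁ * io γ k`.
-/

namespace Pool.Agent.Lib.MP_f399a8_nt.G

open Matrix Filter Topology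

noncomputable section

namespace Ctx

variable {ι X Y : Type*} [Finite ι] [AddCommGroup X] [AddCommGroup Y] {N : ℕ} (D : Ctx ι X Y N)
  {p : ℕ} [Fact p.Prime] {C : Type*} [NormedField C] {χ : ↥(D.Tg p) →* Cˣ} {y : Y} {γ : ι}

theorem Ca2_neg_y {S' : Set ι} {y' : Y} (h : ∀ α ∈ S', D.pr α y' < 0) :
    ∀ α ∈ S', 0 < D.pr α (-y') := by
  intro α hα
  rw [D.pr_neg]
  have := h α hα
  omega

theorem Ca2_lo {S' : Set ι} (hS : ∀ α ∈ S', D.pr α D.y0 < 0) {x : D.Gt p}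
    (hx : x ∈ D.Ug p S') : x ∈ D.Ug p (D.Ne D.y0) := D.ug_mono (fun α hα => hS α hα) hx

theorem fr_norm2 (hy : D.Reg y) (hγ : D.Sim y γ) (h0 : D.Sim D.y0 γ) (l : SLp p 2) {f : D.Gt p}
    (hf : f ∈ D.Ug p (D.Fr (D.ry γ y))) :
    D.io p γ l * f * (D.io p γ l)⁻¹ ∈ D.Ug p (D.Fr (D.ry γ y)) ∧
      (D.io p γ l)⁻¹ * f * D.io p γ l ∈ D.Ug p (D.Fr (D.ry γ y)) := by
  have hg1 : γ ∉ D.Fr (D.ry γ y) := fun h => absurd h.2 (not_lt.mpr h0.1.le)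
  have hg2 : D.ng γ ∉ D.Fr (D.ry γ y) := by
    intro h
    have h1 : D.pr (D.ng γ) (D.ry γ y) < 0 := h.1
    have h2 := D.pr_rf γ γ y
    rw [D.rf_self, D.pr_ng] at h2
    rw [D.pr_ng] at h1
    have h3 := hγ.1
    omega
  exact D.io_norm (D.cl_Fr _) (y := -(D.ry γ y)) (D.Ca2_neg_y (fun α hα => hα.1))
    (D.abs_fr_sim hy hγ h0) (D.abs_fr hy hγ h0.1) hg1 hg2 l hf

theorem dr_norm2 (hy : D.Reg y) (hγ : D.Sim y γ) (h0 : D.Sim D.y0 γ) (l : SLp p 2) {d : D.Gt p}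
    (hd : d ∈ D.Ug p (D.Dr y)) :
    D.io p γ l * d * (D.io p γ l)⁻¹ ∈ D.Ug p (D.Dr y) ∧
      (D.io p γ l)⁻¹ * d * D.io p γ l ∈ D.Ug p (D.Dr y) := by
  have hg1 : γ ∉ D.Dr y := fun h => absurd h.2 (not_lt.mpr h0.1.le)
  have hg2 : D.ng γ ∉ D.Dr y := by
    intro h
    have h1 : 0 < D.pr (D.ng γ) y := h.1
    rw [D.pr_ng] at h1
    have h3 := hγ.1
    omega
  exact D.io_norm (D.cl_Dr _) (y := y) (fun α hα => hα.1)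
    (D.abs_dr_sim hy hγ h0) (D.abs_dr hy hγ h0.1) hg1 hg2 l hd

theorem gi_w0 (hy : D.Reg y) (hγ : D.Sim y γ) (h0 : D.Sim D.y0 γ) (y' : Y) (ψ : D.Gt p → C)
    {b f d : D.Gt p} (hb : b ∈ D.Bg p) (hf : f ∈ D.Ug p (D.Fr (D.ry γ y))) {a : ℚ_[p]}
    (ha : a ≠ 0) (c : ℚ_[p]) (hd : d ∈ D.Ug p (D.Dr y)) :
    D.Gf χ y' ψ (b * f * D.io p γ (S.up2 a ha c * S.w2 p) * d) = 0 := by
  by_contra hne
  obtain ⟨b', hb', f', hf', d', hd', hx, -, -⟩ := D.gf_ne hne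
  have hf1 := (D.fr_norm2 hy hγ h0 (S.up2 a ha c) hf).2
  have hf2 := (D.fr_norm2 hy hγ h0 (S.w2 p) hf1).2
  have hB : b * D.io p γ (S.up2 a ha c) ∈ D.Bg p := mul_mem hb (D.up_bg h0.1 ha c)
  rw [map_mul] at hx
  generalize hBB : D.io p γ (S.up2 a ha c) = B at *
  generalize hWW : D.io p γ (S.w2 p) = w at *
  have hL1 : f' ∈ D.Ug p (D.Ne D.y0) := D.Ca2_lo (fun α hα => hα.2) hf'
  have hL2 : d' ∈ D.Ug p (D.Ne D.y0) := D.Ca2_lo (fun α hα => hα.2) hd'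
  have hL3 : w⁻¹ * (B⁻¹ * f * B) * w ∈ D.Ug p (D.Ne D.y0) := D.Ca2_lo (fun α hα => hα.2) hf2
  have hL4 : d ∈ D.Ug p (D.Ne D.y0) := D.Ca2_lo (fun α hα => hα.2) hd
  have key := D.dw_notin hy hγ h0.1 (one_mem (D.Ug p (D.Dr y))) (b := (b * B)⁻¹ * b')
    (u := f' * d' * (w⁻¹ * (B⁻¹ * f * B) * w * d)⁻¹) (mul_mem (inv_mem hB) hb')
    (mul_mem (mul_mem hL1 hL2) (inv_mem (mul_mem hL3 hL4)))
  apply key
  rw [hWW]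
  have h2 : (b * B)⁻¹ * b' * (f' * d' * (w⁻¹ * (B⁻¹ * f * B) * w * d)⁻¹) =
      (b * B)⁻¹ * (b' * f' * d') * (w⁻¹ * (B⁻¹ * f * B) * w * d)⁻¹ := by group
  rw [h2, ← hx]
  group

theorem Ca2_move {G : Type*} [Group G] (b f B l d : G) :
    b * f * (B * l) * d = b * B * (B⁻¹ * f * B) * l * d := by group

theorem gi1 (hy : D.Reg y) (hγ : D.Sim y γ) (h0 : D.Sim D.y0 γ) (ψ : D.Gt p → C)
    {b f d : D.Gt p} (hb : b ∈ D.Bg p) (hf : f ∈ D.Ug p (D.Fr (D.ry γ y))) (l : SLp p 2)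
    (hd : d ∈ D.Ug p (D.Dr y)) :
    D.Gf χ y ψ (b * f * D.io p γ l * d) = D.cb χ b * D.chr χ γ (l.1 1 1) * ψ d := by
  by_cases hl : l.1 1 1 = 0
  · obtain ⟨a, ha, c, hl2⟩ := S.sl2_case2 l hl
    rw [hl, map_zero, mul_zero, zero_mul, hl2]
    exact D.gi_w0 hy hγ h0 y ψ hb hf ha c hd
  · have hl2 := S.sl2_case1 l hl
    have hf1 := (D.fr_norm2 hy hγ h0 (S.up2 (l.1 1 1) hl (l.1 0 1)) hf).2
    have h3 : D.chr χ γ (l.1 1 1) = D.cb χ (D.io p γ (S.up2 (l.1 1 1) hl (l.1 0 1))) :=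
      (D.up_cb χ h0.1 hl _).symm
    rw [h3]
    conv_lhs => rw [hl2, map_mul, Ca2_move, D.io_lo, mul_assoc (b * _)]
    rw [D.gf_eq ψ (mul_mem hb (D.up_bg h0.1 hl _)) (D.fr_mul hy hγ h0.1 hf1 _) hd,
      D.cb_mul χ hb (D.up_bg h0.1 hl _)]

open Classical in
theorem gi2 (hy : D.Reg y) (hγ : D.Sim y γ) (h0 : D.Sim D.y0 γ)
    {b f d : D.Gt p} (hb : b ∈ D.Bg p) (hf : f ∈ D.Ug p (D.Fr (D.ry γ y))) (l : SLp p 2)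
    (hd : d ∈ D.Ug p (D.Dr y)) :
    D.Gf χ (D.ry γ y) (D.iK C) (b * f * D.io p γ l * d) =
      D.cb χ b * (if ‖l.1 1 0‖ ≤ ‖l.1 1 1‖ then D.chr χ γ (l.1 1 1) else 0) * D.iK C d := by
  by_cases hl : l.1 1 1 = 0
  · obtain ⟨a, ha, c, hl2⟩ := S.sl2_case2 l hl
    rw [hl, map_zero, ite_self, mul_zero, zero_mul, hl2]
    exact D.gi_w0 hy hγ h0 (D.ry γ y) (D.iK C) hb hf ha c hd
  · have hl2 := S.sl2_case1 l hl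
    have hf1 := (D.fr_norm2 hy hγ h0 (S.up2 (l.1 1 1) hl (l.1 0 1)) hf).2
    have h3 : D.chr χ γ (l.1 1 1) = D.cb χ (D.io p γ (S.up2 (l.1 1 1) hl (l.1 0 1))) :=
      (D.up_cb χ h0.1 hl _).symm
    rw [h3]
    have hd' : d ∈ D.Ug p (D.Dr (D.ry γ y)) :=
      D.ug_mono (fun α hα => (D.dr_ry hy hγ h0.1 α).mpr (Or.inl hα)) hd
    have hgd : D.xr p (D.ng γ) (l.1 1 0 / l.1 1 1) * d ∈ D.Ug p (D.Dr (D.ry γ y)) :=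
      mul_mem (D.xr_mem ((D.dr_ry hy hγ h0.1 _).mpr (Or.inr rfl)) _) hd'
    have h4 : D.Gf χ (D.ry γ y) (D.iK C) (b * f * D.io p γ l * d) =
        D.cb χ b * D.cb χ (D.io p γ (S.up2 (l.1 1 1) hl (l.1 0 1))) *
        D.iK C (D.xr p (D.ng γ) (l.1 1 0 / l.1 1 1) * d) := by
      conv_lhs => rw [hl2, map_mul, Ca2_move, D.io_lo, mul_assoc (b * _ * _)]
      rw [D.gf_eq _ (mul_mem hb (D.up_bg h0.1 hl _)) hf1 hgd, D.cb_mul χ hb (D.up_bg h0.1 hl _)]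
    rw [h4]
    have h5 := (D.dr_mul_K hy hγ h0.1 hd (l.1 1 0 / l.1 1 1)).2
    have h6 : ‖l.1 1 0 / l.1 1 1‖ ≤ 1 ↔ ‖l.1 1 0‖ ≤ ‖l.1 1 1‖ := by
      rw [norm_div, div_le_one (norm_pos_iff.mpr hl)]
    unfold iK
    by_cases hK : d ∈ D.Kg p
    · by_cases hz : ‖l.1 1 0‖ ≤ ‖l.1 1 1‖
      · rw [if_pos (h5.mpr ⟨hK, h6.mpr hz⟩), if_pos hz, if_pos hK]
      · rw [if_neg (fun h7 => hz (h6.mp (h5.mp h7).2)), if_neg hz]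
        simp
    · rw [if_neg (fun h7 => hK (h5.mp h7).1), if_neg hK]
      simp

theorem gi_cover1 (hy : D.Reg y) (hγ : D.Sim y γ) (h0 : 0 < D.pr γ D.y0) {ψ : D.Gt p → C}
    {x : D.Gt p} (hx : D.Gf χ y ψ x ≠ 0) :
    ∃ b ∈ D.Bg p, ∃ f ∈ D.Ug p (D.Fr (D.ry γ y)), ∃ l : SLp p 2, ∃ d ∈ D.Ug p (D.Dr y),
      x = b * f * D.io p γ l * d := by
  obtain ⟨b, hb, f, hf, d, hd, rfl, -, -⟩ := D.gf_ne hx
  obtain ⟨f', hf', z, rfl⟩ := D.fr_peel hy hγ h0 hf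
  refine ⟨b, hb, f', hf', S.lo2 z, d, hd, ?_⟩
  rw [D.io_lo]
  group

theorem gi_cover2 (hy : D.Reg y) (hγ : D.Sim y γ) (h0 : D.Sim D.y0 γ) {ψ : D.Gt p → C}
    {x : D.Gt p} (hx : D.Gf χ (D.ry γ y) ψ x ≠ 0) :
    ∃ b ∈ D.Bg p, ∃ f ∈ D.Ug p (D.Fr (D.ry γ y)), ∃ l : SLp p 2, ∃ d ∈ D.Ug p (D.Dr y),
      x = b * f * D.io p γ l * d := by
  obtain ⟨b, hb, f, hf, u, hu, rfl, -, -⟩ := D.gf_ne hx
  obtain ⟨d, hd, z, rfl, -⟩ := D.dr_peel hy hγ h0.1 hu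
  refine ⟨b, hb, f, hf, S.lo2 z, _, (D.dr_norm2 hy hγ h0 (S.lo2 z) hd).2, ?_⟩
  rw [D.io_lo]
  group

theorem gi_norm (hy : D.Reg y) (hγ : D.Sim y γ) (h0 : D.Sim D.y0 γ) {b f : D.Gt p}
    (hb : b ∈ D.Bg p) (hf : f ∈ D.Ug p (D.Fr (D.ry γ y))) (l : SLp p 2) :
    ∃ b' ∈ D.Bg p, ∃ f' ∈ D.Ug p (D.Fr (D.ry γ y)), ∃ k ∈ S.Kp p 2,
      b * f * D.io p γ l = b' * f' * D.io p γ k := by
  have key : ∀ l1 k : SLp p 2, l = l1 * k → D.io p γ l1 ∈ D.Bg p → k ∈ S.Kp p 2 →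
      ∃ b' ∈ D.Bg p, ∃ f' ∈ D.Ug p (D.Fr (D.ry γ y)), ∃ k ∈ S.Kp p 2,
      b * f * D.io p γ l = b' * f' * D.io p γ k := by
    intro l1 k hl hl1 hk
    refine ⟨b * D.io p γ l1, mul_mem hb hl1, _, (D.fr_norm2 hy hγ h0 l1 hf).2, k, hk, ?_⟩
    rw [hl, map_mul]
    group
  by_cases hl : l.1 1 1 = 0
  · obtain ⟨a, ha, c, hl2⟩ := S.sl2_case2 l hl
    refine key _ _ hl2 (D.up_bg h0.1 ha c) ?_
    intro x y
    fin_cases x <;> fin_cases y <;> simp [S.w2]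
  · obtain ⟨a, ha, c, k, hk, hlo⟩ := S.lo2_iwa (l.1 1 0 / l.1 1 1)
    have hl2 := S.sl2_case1 l hl
    rw [hlo, ← mul_assoc] at hl2
    refine key _ _ hl2 ?_ hk
    rw [map_mul]
    exact mul_mem (D.up_bg h0.1 hl _) (D.up_bg h0.1 ha c)

end Ctx

end

end Pool.Agent.Lib.MP_f399a8_nt.G
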