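import Pool.Agent.Lib.MP_f399a8_ntG.Oc1

/-!
# Limits under the contraction

Throughout `t = cc e (pp p)` with `Con h e`, and `y` sorts the roots (`Srt h y`).

PROOF.
* `stab_e`: `w` permutes the weights (`isN_wt`): `w (wt j) = wt i`, `h (wt i) = h (w (wt j)) = h (wt j)`, so `⟨wt i, e⟩ = ⟨wt j, e⟩` (`Con.eq`), i.e.
  `⟨w x, e⟩ = ⟨x, e⟩` for `x = wt j`, hence for all `x` (`wt_ext`), so `w⁻¹ e = e` and `w e = e`.
* `stab_h`: suppose `w e = e`.  `w⁻¹ (wt j) = wt i` for some `i`; `⟨wt i, e⟩ = ⟨w⁻¹ (wt j), e⟩ = ⟨wt j, w e⟩ = ⟨wt j, e⟩`, so `h (wt i) = h (wt j)`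
  (otherwise `Con.lt` gives `<`).  So `h ∘ w⁻¹ = h` (`wt_ext`).
* `ug_split`: factor `u ∈ Ug (Po y)` by `ug_fac` with `z` of `sep_exists`: `Po y ∩ Po z` = ties (`h = 0`, negative for `y0`), `Po y ∩ Ne z` =
  `{h < 0}`.
* `ug_contract`: `u ∈ Ug S'`, `h < 0` on `S'`: entries of `t^M u (t^M)⁻¹` are `p ^ (M (⟨wt i, e⟩ - ⟨wt j, e⟩)) * u i j`, and for a nonidentity entry
  `h (wt i) < h (wt j)` (`ug_supp_f` with `-h`), so the exponent is `≥ M`; they are within `p ^ (-m)` of those of `1` for `M` large.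
* `ug_fix`: `u ∈ Ug S'` with `h = 0` on `S'`: `t` commutes with the generators (`cc_xr`, `Con.req`).
* `om_lim`: `t^M n (t^M)⁻¹ = n` (`isN_cc`, `stab_e`).  `u = u₀ u₁` (`ug_split`), `t^M (n u) (t^M)⁻¹ = n u₀ (t^M u₁ (t^M)⁻¹)` and
  `t^M u₁ (t^M)⁻¹ ∈ K` for `M ≥ M0`.  So `Om = Om (n u₀) = Om (n u₀ n⁻¹)` (`isN_K`, `om_right`).  `n u₀ n⁻¹ ∈ Ug S''` with `S'' = wr w '' {ties}`, where
  `h = 0` (`w_rt`); `S''` is closed and positive on `wy w y`.  By `ug_fac` with `y0`: `n u₀ n⁻¹ = a b`, `a ∈ Ug (S'' ∩ Po y0)`, `b ∈ Ug (S'' ∩ Ne y0)`;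
  `om_ug` and `om_tie`.
-/

namespace Pool.Agent.Lib.MP_f399a8_nt.G

open Matrix Filter Topology

noncomputable section

namespace Ctx

variable {ι X Y : Type*} [Finite ι] [AddCommGroup X] [AddCommGroup Y] {N : ℕ} (D : Ctx ι X Y N)
  {p : ℕ} [Fact p.Prime] {h : X →+ ℝ} {e y : Y}

/-- `w` preserves `h` -/
def Stb (h : X →+ ℝ) (w : D.W) : Prop := ∀ x, h (D.wx w x) = h x

theorem stb_one : D.Stb h 1 := fun _ => rfl

theorem stb_mul {w w' : D.W} (hw : D.Stb h w) (hw' : D.Stb h w') : D.Stb h (w * w') := by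
  intro x
  rw [D.wx_mul, hw, hw']

theorem stb_inv {w : D.W} (hw : D.Stb h w) : D.Stb h w⁻¹ := by
  intro x
  have h1 := hw (D.wx w⁻¹ x)
  rw [(D.wx_inv w x).1] at h1
  exact h1.symm

theorem stb_sg {γ : ι} (hγ : h (D.rt γ) = 0) : D.Stb h (D.sg γ) := by
  intro x
  rw [D.wx_sg, D.rx_apply, map_sub, map_zsmul, hγ, smul_zero, sub_zero]

theorem stab_e (hc : D.Con h e) {w : D.W} (hw : D.Stb h w) : D.wy w e = e := by
  have key : ∀ x, D.pa (D.wx w x) e = D.pa x e := by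
    let f : X →+ ℤ := AddMonoidHom.mk' (fun x => D.pa (D.wx w x) e) (fun x x' => by
      show D.pa (D.wx w (x + x')) e = D.pa (D.wx w x) e + D.pa (D.wx w x') e
      rw [D.wx_add, D.pa_add_left])
    let g : X →+ ℤ := AddMonoidHom.mk' (fun x => D.pa x e) (fun x x' => D.pa_add_left x x' e)
    have hfg : f = g := D.wt_ext fun j => by
      show D.pa (D.wx w (D.wt j)) e = D.pa (D.wt j) e
      obtain ⟨i, hi⟩ := D.isN_wt w j
      have h1 : h (D.wt i) = h (D.wt j) := by rw [hi, hw]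
      have h2 := hc.eq i j h1
      rw [D.wp_def, D.wp_def] at h2
      rw [← hi, h2]
    intro x
    exact DFunLike.congr_fun hfg x
  have h1 : D.wy w⁻¹ e = e := D.pa_ext_y fun x => by
    rw [← D.w_pa', key]
  calc D.wy w e = D.wy w (D.wy w⁻¹ e) := by rw [h1]
    _ = e := (D.wy_inv w e).1

theorem stab_h (hc : D.Con h e) {w : D.W} (hw : D.wy w e = e) : D.Stb h w := by
  have key : D.Stb h w⁻¹ := by
    let f : X →+ ℝ := AddMonoidHom.mk' (fun x => h (D.wx w⁻¹ x)) (fun x x' => by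
      show h (D.wx w⁻¹ (x + x')) = h (D.wx w⁻¹ x) + h (D.wx w⁻¹ x')
      rw [D.wx_add, map_add])
    have hfg : f = h := D.wt_ext fun j => by
      show h (D.wx w⁻¹ (D.wt j)) = h (D.wt j)
      obtain ⟨i, hi⟩ := D.isN_wt w⁻¹ j
      have h1 : D.wp i e = D.wp j e := by
        rw [D.wp_def, D.wp_def, hi, D.w_pa', inv_inv, hw]
      rw [← hi]
      rcases lt_trichotomy (h (D.wt i)) (h (D.wt j)) with h2 | h2 | h2
      · have h3 := hc.lt i j h2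
        omega
      · exact h2
      · have h3 := hc.lt j i h2
        omega
    intro x
    exact DFunLike.congr_fun hfg x
  have h1 := D.stb_inv key
  rwa [inv_inv] at h1

theorem ug_split (hy : D.Srt h y) {u : D.Gt p} (hu : u ∈ D.Ug p (D.Po y)) :
    ∃ u₀ ∈ D.Ug p {α | h (D.rt α) = 0 ∧ D.pr α D.y0 < 0}, ∃ u₁ ∈ D.Ug p {α | h (D.rt α) < 0},
      u = u₀ * u₁ ∧ (u ∈ D.Kg p → u₀ ∈ D.Kg p ∧ u₁ ∈ D.Kg p) := by
  obtain ⟨z, hz⟩ := D.sep_exists h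
  have hz0 : ∀ α ∈ D.Po y, D.pr α z ≠ 0 := by
    intro α hα
    rcases (hy α).1 hα with h1 | h1
    · have h2 : 0 < D.pr (D.ng α) z := by
        rw [hz]
        left
        rw [D.rt_ng, map_neg]
        linarith
      rw [D.pr_ng] at h2
      omega
    · have h2 : 0 < D.pr α z := (hz α).2 (Or.inr h1)
      omega
  obtain ⟨a, ha, b, hb, hab, hK, -⟩ := D.ug_fac (D.cl_po y) (fun α hα => hα) hz0 hu
  refine ⟨a, D.ug_mono ?_ ha, b, D.ug_mono ?_ hb, hab, hK⟩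
  · rintro α ⟨h1, h2⟩
    have h1' := (hy α).1 h1
    have h2' := (hz α).1 h2
    show h (D.rt α) = 0 ∧ D.pr α D.y0 < 0
    rcases h1' with h3 | h3
    · rcases h2' with h4 | h4
      · exact absurd h3 (not_lt.2 h4.le)
      · exact h4
    · exact h3
  · rintro α ⟨h1, h2⟩
    have h1' := (hy α).1 h1
    have h2' : D.pr α z < 0 := h2
    show h (D.rt α) < 0
    rcases h1' with h3 | h3
    · exact h3
    · have h4 : 0 < D.pr α z := (hz α).2 (Or.inr h3)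
      omega

theorem Od1_wp_smul (M : ℕ) (i : Fin N) (y : Y) : D.wp i ((M : ℤ) • y) = (M : ℤ) * D.wp i y := by
  rw [D.wp_def, D.wp_def, D.pa_smul_right]

theorem Od1_pow (M : ℕ) (y : Y) : (D.cc p y (pp p)) ^ M = D.cc p ((M : ℤ) • y) (pp p) := by
  rw [D.cc_smul, zpow_natCast]

theorem Od1_entry (M : ℕ) (y : Y) (u : D.Gt p) (i j : Fin N) :
    ((D.cc p y (pp p)) ^ M * u * ((D.cc p y (pp p)) ^ M)⁻¹).1.1 i j =
      (((pp p) ^ ((M : ℤ) * (D.wp i y - D.wp j y)) : ℚ_[p]ˣ) : ℚ_[p]) * u.1.1 i j := by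
  rw [D.Od1_pow, ← D.cc_neg, D.val_mul, D.val_mul, D.cc_val, D.cc_val, cd, cd,
    Matrix.mul_diagonal, Matrix.diagonal_mul]
  have h1 : D.wp j (-((M : ℤ) • y)) = -((M : ℤ) * D.wp j y) := by
    rw [D.wp_def, D.pa_neg_right, D.pa_smul_right, ← D.wp_def]
  rw [h1, D.Od1_wp_smul]
  have h2 : ((pp p) ^ ((M : ℤ) * (D.wp i y - D.wp j y)) : ℚ_[p]ˣ) =
      (pp p) ^ ((M : ℤ) * D.wp i y) * (pp p) ^ (-((M : ℤ) * D.wp j y)) := by
    rw [← _root_.zpow_add]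
    congr 1
    ring
  rw [h2, Units.val_mul]
  ring

theorem Od1_norm (a : ℤ) : ‖(((pp p) ^ a : ℚ_[p]ˣ) : ℚ_[p])‖ = (p : ℝ) ^ (-a) := by
  rw [Units.val_zpow_eq_zpow_val, norm_zpow]
  have h1 : ‖((pp p : ℚ_[p]ˣ) : ℚ_[p])‖ = (p : ℝ)⁻¹ := Padic.norm_p
  rw [h1, _root_.inv_zpow, _root_.zpow_neg]

theorem ug_contract (hc : D.Con h e) {S' : Set ι} (hS : ∀ α ∈ S', h (D.rt α) < 0) {u : D.Gt p}
    (hu : u ∈ D.Ug p S') (m : ℕ) :
    ∃ M0 : ℕ, ∀ M ≥ M0, (D.cc p e (pp p)) ^ M * u * ((D.cc p e (pp p)) ^ M)⁻¹ ∈ D.Kmg p m := by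
  have hp1 : (1 : ℝ) < (p : ℝ) := by exact_mod_cast (Fact.out : p.Prime).one_lt
  have hp0 : (0 : ℝ) < (p : ℝ) := by linarith
  obtain ⟨k, hk⟩ : ∃ k : ℕ, ∀ i j, ‖u.1.1 i j‖ ≤ (p : ℝ) ^ k := by
    obtain ⟨k, hk⟩ := pow_unbounded_of_one_lt (∑ i, ∑ j, ‖u.1.1 i j‖) hp1
    refine ⟨k, fun i j => ?_⟩
    have h1 : ‖u.1.1 i j‖ ≤ ∑ j, ‖u.1.1 i j‖ :=
      Finset.single_le_sum (f := fun j => ‖u.1.1 i j‖) (fun _ _ => norm_nonneg _)
        (Finset.mem_univ j)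
    have h2 : ∑ j, ‖u.1.1 i j‖ ≤ ∑ i, ∑ j, ‖u.1.1 i j‖ :=
      Finset.single_le_sum (f := fun i => ∑ j, ‖u.1.1 i j‖)
        (fun _ _ => Finset.sum_nonneg fun _ _ => norm_nonneg _) (Finset.mem_univ i)
    linarith
  refine ⟨m + k, fun M hM => ?_⟩
  rw [D.mem_Kmg]
  intro i j
  rw [D.Od1_entry]
  by_cases h0 : u.1.1 i j = (1 : Matrix (Fin N) (Fin N) ℚ_[p]) i j
  · have h1 : (((pp p) ^ ((M : ℤ) * (D.wp i e - D.wp j e)) : ℚ_[p]ˣ) : ℚ_[p]) * u.1.1 i j -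
        (1 : Matrix (Fin N) (Fin N) ℚ_[p]) i j = 0 := by
      rw [h0]
      by_cases hij : i = j
      · subst hij
        simp
      · rw [Matrix.one_apply_ne hij, mul_zero, sub_zero]
    rw [h1, norm_zero]
    positivity
  · have h1 : h (D.wt i) < h (D.wt j) := by
      have h2 := D.ug_supp_f (-h) (fun α hα => by
        show 0 < - h (D.rt α)
        have := hS α hα
        linarith) hu h0
      have h3 : - h (D.wt j) < - h (D.wt i) := h2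
      linarith
    have hij : i ≠ j := by
      rintro rfl
      exact lt_irrefl _ h1
    have h2 := hc.lt i j h1
    rw [Matrix.one_apply_ne hij, sub_zero, norm_mul, Od1_norm]
    have h3 : (p : ℝ) ^ (-((M : ℤ) * (D.wp i e - D.wp j e))) ≤ (p : ℝ) ^ (-(M : ℤ)) := by
      apply zpow_le_zpow_right₀ hp1.le
      have h4 : (M : ℤ) * 1 ≤ (M : ℤ) * (D.wp i e - D.wp j e) :=
        mul_le_mul_of_nonneg_left (by omega) (by positivity)
      omega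
    have h5 : (p : ℝ) ^ (-(M : ℤ)) ≤ (p : ℝ) ^ (-((m + k : ℕ) : ℤ)) := by
      apply zpow_le_zpow_right₀ hp1.le
      have : ((m + k : ℕ) : ℤ) ≤ (M : ℤ) := by exact_mod_cast hM
      omega
    calc (p : ℝ) ^ (-((M : ℤ) * (D.wp i e - D.wp j e))) * ‖u.1.1 i j‖
        ≤ (p : ℝ) ^ (-((m + k : ℕ) : ℤ)) * (p : ℝ) ^ k :=
          mul_le_mul (h3.trans h5) (hk i j) (norm_nonneg _) (by positivity)
      _ = (p : ℝ) ^ (-(m : ℤ)) := by
          rw [← zpow_natCast (p : ℝ) k, ← zpow_add₀ hp0.ne']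
          congr 1
          push_cast
          ring

theorem ug_fix (hc : D.Con h e) {S' : Set ι} (hS : ∀ α ∈ S', h (D.rt α) = 0) {u : D.Gt p}
    (hu : u ∈ D.Ug p S') (M : ℕ) :
    (D.cc p e (pp p)) ^ M * u * ((D.cc p e (pp p)) ^ M)⁻¹ = u := by
  rw [D.Od1_pow]
  refine D.ug_ind (q := fun x => D.cc p ((M : ℤ) • e) (pp p) * x *
    (D.cc p ((M : ℤ) • e) (pp p))⁻¹ = x) ?_ ?_ hu
  · rw [mul_one, mul_inv_cancel]
  · intro α hα s x _ hx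
    have h1 : D.pr α ((M : ℤ) • e) = 0 := by
      rw [D.pr_def, D.pa_smul_right, ← D.pr_def, hc.req α (hS α hα), mul_zero]
    have h2 := D.cc_xr p ((M : ℤ) • e) (pp p) α s
    rw [h1, zpow_zero, Units.val_one, one_mul] at h2
    calc D.cc p ((M : ℤ) • e) (pp p) * (D.xr p α s * x) * (D.cc p ((M : ℤ) • e) (pp p))⁻¹
        = (D.cc p ((M : ℤ) • e) (pp p) * D.xr p α s * (D.cc p ((M : ℤ) • e) (pp p))⁻¹) *
          (D.cc p ((M : ℤ) • e) (pp p) * x * (D.cc p ((M : ℤ) • e) (pp p))⁻¹) := by group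
      _ = D.xr p α s * x := by rw [h2, hx]

theorem om_lim (hc : D.Con h e) (hy : D.Srt h y) {w : D.W} {n : D.Gt p} (hw : D.IsN w n)
    (hst : D.Stb h w) {u : D.Gt p} (hu : u ∈ D.Ug p (D.Po y)) : ∃ M0 : ℕ, ∀ M ≥ M0,
      D.Om h ((D.cc p e (pp p)) ^ M * (n * u) * ((D.cc p e (pp p)) ^ M)⁻¹) = 1 := by
  obtain ⟨u₀, hu₀, u₁, hu₁, rfl, -⟩ := D.ug_split hy hu
  obtain ⟨M0, hM0⟩ := D.ug_contract hc (S' := {α | h (D.rt α) < 0}) (fun α hα => hα) hu₁ 0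
  refine ⟨M0, fun M hM => ?_⟩
  have hk : (D.cc p e (pp p)) ^ M * u₁ * ((D.cc p e (pp p)) ^ M)⁻¹ ∈ D.Kg p :=
    D.kmg_le (hM0 M hM)
  have hf : (D.cc p e (pp p)) ^ M * u₀ * ((D.cc p e (pp p)) ^ M)⁻¹ = u₀ :=
    D.ug_fix hc (S' := {α | h (D.rt α) = 0 ∧ D.pr α D.y0 < 0}) (fun α hα => hα.1) hu₀ M
  have hn : (D.cc p e (pp p)) ^ M * n = n * (D.cc p e (pp p)) ^ M := by
    have h1 := D.isN_cc hw e (pp p)
    rw [D.stab_e hc hst] at h1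
    have h2 : Commute (D.cc p e (pp p)) n := by
      show D.cc p e (pp p) * n = n * D.cc p e (pp p)
      calc D.cc p e (pp p) * n = n * D.cc p e (pp p) * n⁻¹ * n := by rw [h1]
        _ = n * D.cc p e (pp p) := by group
    exact (h2.pow_left M).eq
  have h1 : (D.cc p e (pp p)) ^ M * (n * (u₀ * u₁)) * ((D.cc p e (pp p)) ^ M)⁻¹ =
      (n * u₀ * n⁻¹) * n * ((D.cc p e (pp p)) ^ M * u₁ * ((D.cc p e (pp p)) ^ M)⁻¹) := by
    calc (D.cc p e (pp p)) ^ M * (n * (u₀ * u₁)) * ((D.cc p e (pp p)) ^ M)⁻¹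
        = ((D.cc p e (pp p)) ^ M * n) * (u₀ * u₁) * ((D.cc p e (pp p)) ^ M)⁻¹ := by group
      _ = (n * (D.cc p e (pp p)) ^ M) * (u₀ * u₁) * ((D.cc p e (pp p)) ^ M)⁻¹ := by rw [hn]
      _ = n * ((D.cc p e (pp p)) ^ M * u₀ * ((D.cc p e (pp p)) ^ M)⁻¹) *
          ((D.cc p e (pp p)) ^ M * u₁ * ((D.cc p e (pp p)) ^ M)⁻¹) := by group
      _ = n * u₀ * ((D.cc p e (pp p)) ^ M * u₁ * ((D.cc p e (pp p)) ^ M)⁻¹) := by rw [hf]
      _ = _ := by group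
  rw [h1, D.om_right h hk, D.om_right h (D.isN_K hw)]
  have hv := D.isN_ug hw hu₀
  have hS0 : ∀ α ∈ D.wr w '' {α | h (D.rt α) = 0 ∧ D.pr α D.y0 < 0}, h (D.rt α) = 0 := by
    rintro _ ⟨α, hα, rfl⟩
    rw [D.w_rt, hst]
    exact hα.1
  have hSc : D.Cl (D.wr w '' {α | h (D.rt α) = 0 ∧ D.pr α D.y0 < 0}) := by
    rintro _ ⟨α, hα, rfl⟩ _ ⟨β, hβ, rfl⟩ γ hγ
    refine ⟨D.wr w⁻¹ γ, ?_, (D.wr_inv w γ).1⟩
    have h2 : D.rt (D.wr w⁻¹ γ) = D.rt α + D.rt β := by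
      rw [D.w_rt, hγ, D.wx_add, ← D.w_rt, ← D.w_rt, (D.wr_inv w α).2, (D.wr_inv w β).2]
    have hα1 : h (D.rt α) = 0 := hα.1
    have hβ1 : h (D.rt β) = 0 := hβ.1
    have hα2 : D.pr α D.y0 < 0 := hα.2
    have hβ2 : D.pr β D.y0 < 0 := hβ.2
    constructor
    · rw [h2, map_add, hα1, hβ1, add_zero]
    · rw [D.pr_add h2]
      omega
  have hSp : ∀ α ∈ D.wr w '' {α | h (D.rt α) = 0 ∧ D.pr α D.y0 < 0},
      0 < D.pr α (D.wy w y) := by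
    rintro _ ⟨α, hα, rfl⟩
    rw [D.w_pr]
    exact (hy α).2 (Or.inr hα)
  obtain ⟨a, ha, b, hb, hab, -, -⟩ := D.ug_fac hSc hSp (z := D.y0)
    (fun α _ => D.reg_y0 α) hv
  rw [hab, D.om_ug h (S' := (D.wr w '' {α | h (D.rt α) = 0 ∧ D.pr α D.y0 < 0}) ∩ D.Po D.y0)
    (fun α hα => hα.2) ha]
  exact D.om_tie (S' := (D.wr w '' {α | h (D.rt α) = 0 ∧ D.pr α D.y0 < 0}) ∩ D.Ne D.y0)
    (fun α hα => hα.2) (fun α hα => hS0 α hα.1) hb

end Ctx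

end

end Pool.Agent.Lib.MP_f399a8_nt.G
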