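import Pool.Agent.Lib.MP_f399a8_ntG.Fa2
import Pool.Agent.Lib.MP_f399a8_ntG.Od1

/-!
# Exactness: from contracted box functions to the box function

(The same for `SL_n`: file `MP_f399a8_ntS.ExA`.)  Here `e : Y` is any element with `0 ≤ ⟨α, e⟩` for `α ∈ Dr y`, `t = cc e (pp p)`.

PROOF of `tg_entry`: `(t^M * x * (t^M)⁻¹) i j = p ^ (M (⟨wt i, e⟩ - ⟨wt j, e⟩)) * x i j`.
PROOF of `supp_ge`: if `x ∈ Ug S'` and `0 ≤ ⟨α, e⟩` for `α ∈ S'`, then `x i j ≠ 1 i j` implies `⟨wt j, e⟩ ≤ ⟨wt i, e⟩` (`ug_supp`).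
PROOF of `exact_box`.  Let `G = Gf χ y iK`; it is in the principal series (`gf_ps`, `iK_cont`), so by `hW.closed` it suffices to find for
`ε > 0` an element of `W` within `ε` of `G` on `Kg`.  Take `M`, `w ∈ W` for `ε`.  Let `L = Ug (Dr y) ∩ Kg` and
`H = {d ∈ Ug (Dr y) | (t^M)⁻¹ * d * t^M ∈ Kg}` (subgroups of `Gt`).  `H ≤ L`: `d = t^M * d' * (t^M)⁻¹` with `d' = (t^M)⁻¹ * d * t^M ∈ Ug (Dr y) ∩ Kg`
(`tg_ug`), and its nonidentity entries are those of `d'` times `p ^ (M (⟨wt i, e⟩ - ⟨wt j, e⟩))` with nonnegative exponent (`supp_ge`).  `H` contains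
`L ∩ Kmg m` for `m` large (the entries of the conjugate are multiplied by at most `p ^ (M max (⟨wt i, e⟩ - ⟨wt j, e⟩))`, or `conj_small`).
`coset_reps`: a finite set `S ⊆ L` such that every `d ∈ L` has exactly one `s ∈ S` with `d * s⁻¹ ∈ H`.  Claim:
`G x = ∑ s ∈ S, G ((t^M)⁻¹ * (x * s⁻¹) * t^M)` for all `x`.  By `gf_conj` the right side is
`∑ s, Gf χ y (fun z => iK ((t^M)⁻¹ * z * t^M)) (x * s⁻¹)`, which by `gf_right` (`s⁻¹ ∈ Ug (Dr y)`) and `gf_sum` is `Gf χ y Ψ x`,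
`Ψ z = ∑ s, iK ((t^M)⁻¹ * (z * s⁻¹) * t^M)`.  For `d ∈ Ug (Dr y)`: if `d ∈ L` exactly one term is `1`; if `d ∉ Kg` then no term is `1`, since
`d * s⁻¹ ∈ H ≤ L` would give `d ∈ L`.  So `Ψ d = iK d` and `gf_congr` applies.
For `k ∈ Kg`, `k * s⁻¹ ∈ Kg`, so `‖G ((t^M)⁻¹ * (k * s⁻¹) * t^M) - w (k * s⁻¹)‖ ≤ ε`, and `∑ s, w (· * s⁻¹) ∈ W` (`sub_sum_mem`).  The
ultrametric inequality gives the claim.
-/

namespace Pool.Agent.Lib.MP_f399a8_nt.G

open Matrix Filter Topology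

noncomputable section

namespace Ctx

variable {ι X Y : Type*} [Finite ι] [AddCommGroup X] [AddCommGroup Y] {N : ℕ} (D : Ctx ι X Y N)
  {p : ℕ} [Fact p.Prime] {C : Type*} [NormedField C] {χ : ↥(D.Tg p) →* Cˣ} {h : X →+ ℝ} {y e : Y}

theorem tg_entry (e : Y) (M : ℕ) (x : D.Gt p) (i j : Fin N) :
    ((D.cc p e (pp p)) ^ M * x * ((D.cc p e (pp p)) ^ M)⁻¹).1.1 i j =
      (p : ℚ_[p]) ^ ((M : ℤ) * (D.wp i e - D.wp j e)) * x.1.1 i j := by
  rw [D.Od1_entry, Units.val_zpow_eq_zpow_val]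
  rfl

theorem tg_entry' (e : Y) (M : ℕ) (x : D.Gt p) (i j : Fin N) :
    (((D.cc p e (pp p)) ^ M)⁻¹ * x * (D.cc p e (pp p)) ^ M).1.1 i j =
      (p : ℚ_[p]) ^ ((M : ℤ) * (D.wp j e - D.wp i e)) * x.1.1 i j := by
  have h1 : ((D.cc p e (pp p)) ^ M)⁻¹ = (D.cc p (-e) (pp p)) ^ M := by
    rw [D.cc_neg, _root_.inv_pow]
  have h2 := D.tg_entry (-e) M x i j
  rw [← h1, inv_inv] at h2
  rw [h2]
  congr 2
  rw [D.wp_def, D.wp_def, D.wp_def, D.wp_def, D.pa_neg_right, D.pa_neg_right]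
  ring

theorem supp_ge {S' : Set ι} (hS : ∀ α ∈ S', 0 ≤ D.pr α e) {x : D.Gt p} (hx : x ∈ D.Ug p S')
    {i j : Fin N} (hij : x.1.1 i j ≠ (1 : Matrix (Fin N) (Fin N) ℚ_[p]) i j) :
    D.wp j e ≤ D.wp i e := by
  obtain ⟨β, hβ, z, hz, hw⟩ := D.ug_supp hx hij
  have h1 : ∀ z ∈ AddSubmonoid.closure (D.rt '' S'), 0 ≤ D.pa z e := by
    intro z hz
    refine AddSubmonoid.closure_induction (motive := fun z _ => 0 ≤ D.pa z e) ?_ ?_ ?_ hz
    · rintro _ ⟨α, hα, rfl⟩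
      rw [← D.pr_def]
      exact hS α hα
    · rw [D.pa_zero_left]
    · intro a b _ _ ha hb
      rw [D.pa_add_left]
      exact add_nonneg ha hb
  have h2 := h1 z hz
  have h3 := hS β hβ
  rw [D.wp_def, D.wp_def, hw, D.pa_add_left, D.pa_add_left, ← D.pr_def]
  omega

theorem tg_in {S' : Set ι} (hS : ∀ α ∈ S', 0 ≤ D.pr α e) {x : D.Gt p} (hx : x ∈ D.Ug p S')
    (hxK : x ∈ D.Kg p) (M : ℕ) :
    (D.cc p e (pp p)) ^ M * x * ((D.cc p e (pp p)) ^ M)⁻¹ ∈ D.Kg p := by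
  rw [D.mem_Kg]
  intro i j
  have hp1 : (1 : ℝ) ≤ p := by exact_mod_cast (Fact.out : p.Prime).one_lt.le
  rw [D.tg_entry]
  by_cases h0 : x.1.1 i j = (1 : Matrix (Fin N) (Fin N) ℚ_[p]) i j
  · rw [h0]
    by_cases hij : i = j
    · subst hij
      rw [sub_self, mul_zero, zpow_zero, one_mul, Matrix.one_apply_eq, norm_one]
    · rw [Matrix.one_apply_ne hij, mul_zero, norm_zero]
      exact zero_le_one
  · have h1 := D.supp_ge hS hx h0
    rw [norm_mul, Padic.norm_p_zpow]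
    have h2 : (p : ℝ) ^ (-((M : ℤ) * (D.wp i e - D.wp j e))) ≤ 1 := by
      apply zpow_le_one_of_nonpos₀ hp1
      have : 0 ≤ (M : ℤ) * (D.wp i e - D.wp j e) :=
        mul_nonneg (Int.natCast_nonneg M) (sub_nonneg.2 h1)
      omega
    exact mul_le_one₀ h2 (norm_nonneg _) ((D.mem_Kg p).1 hxK i j)

theorem sub_sum_mem {W : Set (D.Gt p → C)} (hW : D.CS χ W)
    {κ : Type*} (s : Finset κ) (f : κ → D.Gt p → C) (hf : ∀ i ∈ s, f i ∈ W) :
    (fun x => ∑ i ∈ s, f i x) ∈ W := by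
  classical
  induction s using Finset.induction_on with
  | empty =>
    simp only [Finset.sum_empty]
    exact hW.zero
  | insert a s ha ih =>
    simp only [Finset.sum_insert ha]
    exact hW.add _ (hf a (Finset.mem_insert_self _ _)) _
      (ih fun i hi => hf i (Finset.mem_insert_of_mem hi))

private theorem Fa3_bound {n : ℕ} (e : Fin n → ℤ) (M : ℕ) :
    ∃ m : ℕ, ∀ i j, (M : ℤ) * (e i - e j) ≤ m := by
  refine ⟨∑ i, ∑ j, ((M : ℤ) * (e i - e j)).toNat, fun i j => ?_⟩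
  refine (Int.self_le_toNat _).trans ?_
  have h1 : ((M : ℤ) * (e i - e j)).toNat ≤ ∑ j, ((M : ℤ) * (e i - e j)).toNat :=
    Finset.single_le_sum (f := fun j => ((M : ℤ) * (e i - e j)).toNat) (fun _ _ => Nat.zero_le _)
      (Finset.mem_univ j)
  have h2 : ∑ j, ((M : ℤ) * (e i - e j)).toNat ≤ ∑ i, ∑ j, ((M : ℤ) * (e i - e j)).toNat :=
    Finset.single_le_sum (f := fun i => ∑ j, ((M : ℤ) * (e i - e j)).toNat)
      (fun _ _ => Nat.zero_le _) (Finset.mem_univ i)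
  exact_mod_cast h1.trans h2

theorem exact_box [IsUltrametricDist C] (hχ : Continuous χ) (hs : D.Slope χ h) (hy : D.Reg y)
    (hg : D.Good h y) {W : Set (D.Gt p → C)} (hW : D.CS χ W)
    (he : ∀ α ∈ D.Dr y, 0 ≤ D.pr α e)
    (hM : ∀ ε : ℝ, 0 < ε → ∃ M : ℕ, ∃ w ∈ W, ∀ k ∈ D.Kg p,
      ‖D.Gf χ y (D.iK C) (((D.cc p e (pp p)) ^ M)⁻¹ * k * (D.cc p e (pp p)) ^ M) - w k‖ ≤ ε) :
    D.Gf χ y (D.iK C) ∈ W := by
  classical
  have hp1 : (1 : ℝ) ≤ p := by exact_mod_cast (Fact.out : p.Prime).one_lt.le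
  have hp0 : (0 : ℝ) < p := lt_of_lt_of_le one_pos hp1
  have hG : D.PS χ (D.Gf χ y (D.iK C)) := by
    refine D.gf_ps hχ hs hy hg (D.iK_cont p C).continuousOn fun d _ hd => ?_
    exact if_neg hd
  refine hW.closed _ hG fun ε hε => ?_
  obtain ⟨M, w, hw, hM⟩ := hM ε hε
  have hT : (D.cc p e (pp p)) ^ M ∈ D.Tg p := pow_mem (D.cc_torus p e (pp p)) M
  have hconj : ∀ (x : D.Gt p) (i j : Fin N),
      ‖(((D.cc p e (pp p)) ^ M)⁻¹ * x * (D.cc p e (pp p)) ^ M).1.1 i j‖ =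
      (p : ℝ) ^ ((M : ℤ) * (D.wp i e - D.wp j e)) * ‖x.1.1 i j‖ := by
    intro x i j
    rw [D.tg_entry', norm_mul, Padic.norm_p_zpow]
    congr 2
    ring
  have hin := fun {x : D.Gt p} (hx : x ∈ D.Ug p (D.Dr y)) (hxK : x ∈ D.Kg p) =>
    D.tg_in he hx hxK M
  have hug := fun {x : D.Gt p} (hx : x ∈ D.Ug p (D.Dr y)) => D.tg_ug hT hx
  generalize hTT : (D.cc p e (pp p)) ^ M = T at hM hT hconj hin hug
  let L : Subgroup (D.Gt p) := D.Ug p (D.Dr y) ⊓ D.Kg p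
  let H : Subgroup (D.Gt p) :=
    { carrier := {d | d ∈ D.Ug p (D.Dr y) ∧ T⁻¹ * d * T ∈ D.Kg p}
      mul_mem' := by
        rintro a b ⟨ha, ha'⟩ ⟨hb, hb'⟩
        refine ⟨mul_mem ha hb, ?_⟩
        have : T⁻¹ * (a * b) * T = (T⁻¹ * a * T) * (T⁻¹ * b * T) := by group
        rw [this]
        exact mul_mem ha' hb'
      one_mem' := by
        refine ⟨one_mem _, ?_⟩
        rw [mul_one, inv_mul_cancel]
        exact one_mem _
      inv_mem' := by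
        rintro a ⟨ha, ha'⟩
        refine ⟨inv_mem ha, ?_⟩
        have : T⁻¹ * a⁻¹ * T = (T⁻¹ * a * T)⁻¹ := by group
        rw [this]
        exact inv_mem ha' }
  have memH : ∀ x, x ∈ H ↔ x ∈ D.Ug p (D.Dr y) ∧ T⁻¹ * x * T ∈ D.Kg p := fun x => Iff.rfl
  have memL : ∀ x, x ∈ L ↔ x ∈ D.Ug p (D.Dr y) ∧ x ∈ D.Kg p := fun x => Iff.rfl
  have hLK : L ≤ D.Kg p := inf_le_right
  have hHL : H ≤ L := by
    intro d hd
    obtain ⟨hd1, hd2⟩ := (memH d).1 hd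
    refine (memL d).2 ⟨hd1, ?_⟩
    have h1 := hin (hug hd1).2 hd2
    have h2 : T * (T⁻¹ * d * T) * T⁻¹ = d := by group
    rwa [h2] at h1
  obtain ⟨m, hm⟩ := Fa3_bound (fun i => D.wp i e) M
  have hH : ∀ x ∈ L, x ∈ D.Kmg p m → x ∈ H := by
    intro x hx hxm
    obtain ⟨hx1, hx2⟩ := (memL x).1 hx
    refine (memH x).2 ⟨hx1, (D.mem_Kg p).2 fun i j => ?_⟩
    rw [hconj]
    by_cases hij : i = j
    · subst hij
      rw [sub_self, mul_zero, zpow_zero, one_mul]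
      exact (D.mem_Kg p).1 hx2 i i
    · have h1 := (D.mem_Kmg p).1 hxm i j
      rw [Matrix.one_apply_ne hij, sub_zero] at h1
      calc (p : ℝ) ^ ((M : ℤ) * (D.wp i e - D.wp j e)) * ‖x.1.1 i j‖
          ≤ (p : ℝ) ^ (m : ℤ) * (p : ℝ) ^ (-(m : ℤ)) := by
            apply mul_le_mul (zpow_le_zpow_right₀ hp1 (hm i j)) h1 (norm_nonneg _)
            exact (zpow_pos hp0 _).le
        _ = 1 := by
            rw [← zpow_add₀ hp0.ne', add_neg_cancel, zpow_zero]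
  obtain ⟨S₁, hS, hSu⟩ := D.coset_reps hLK hHL hH
  have claim : ∀ x, D.Gf χ y (D.iK C) x =
      ∑ s ∈ S₁, D.Gf χ y (D.iK C) (T⁻¹ * (x * s⁻¹) * T) := by
    intro x
    have h1 : ∀ s ∈ S₁, D.Gf χ y (D.iK C) (T⁻¹ * (x * s⁻¹) * T) =
        D.Gf χ y (fun z => D.iK C (T⁻¹ * (z * s⁻¹) * T)) x := by
      intro s hs'
      rw [D.gf_conj _ hT, D.gf_right _ (inv_mem ((memL s).1 (hS s hs')).1)]
    rw [Finset.sum_congr rfl h1, ← D.gf_sum]
    refine D.gf_congr (fun d hd => ?_) x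
    have h2 : ∀ s ∈ S₁, D.iK C (T⁻¹ * (d * s⁻¹) * T) = if d * s⁻¹ ∈ H then 1 else 0 := by
      intro s hs'
      unfold iK
      refine if_congr ?_ rfl rfl
      rw [memH]
      exact ⟨fun h => ⟨mul_mem hd (inv_mem ((memL s).1 (hS s hs')).1), h⟩, fun h => h.2⟩
    rw [Finset.sum_congr rfl h2]
    by_cases hdK : d ∈ D.Kg p
    · obtain ⟨s0, ⟨hs0, hs0'⟩, huniq⟩ := hSu d ((memL d).2 ⟨hd, hdK⟩)
      rw [Finset.sum_eq_single s0]
      · rw [if_pos hs0']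
        exact if_pos hdK
      · intro s hs' hne
        rw [if_neg]
        intro hmem
        exact hne (huniq s ⟨hs', hmem⟩)
      · intro hns
        exact absurd hs0 hns
    · rw [Finset.sum_eq_zero]
      · exact if_neg hdK
      · intro s hs'
        rw [if_neg]
        intro hmem
        apply hdK
        have h3 : d * s⁻¹ * s ∈ L := L.mul_mem (hHL hmem) (hS s hs')
        rw [inv_mul_cancel_right] at h3
        exact ((memL d).1 h3).2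
  refine ⟨fun x => ∑ s ∈ S₁, w (x * s⁻¹), D.sub_sum_mem hW S₁ (fun s x => w (x * s⁻¹))
    (fun s _ => hW.trans s⁻¹ w hw), fun x hx => ?_⟩
  have h4 : D.Gf χ y (D.iK C) x - ∑ s ∈ S₁, w (x * s⁻¹) =
      ∑ s ∈ S₁, (D.Gf χ y (D.iK C) (T⁻¹ * (x * s⁻¹) * T) - w (x * s⁻¹)) := by
    rw [Finset.sum_sub_distrib, ← claim]
  show ‖D.Gf χ y (D.iK C) x - ∑ s ∈ S₁, w (x * s⁻¹)‖ ≤ ε
  rw [h4]
  refine IsUltrametricDist.norm_sum_le_of_forall_le_of_nonneg hε.le fun s hs' => ?_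
  exact hM _ (mul_mem hx (inv_mem ((memL s).1 (hS s hs')).2))

end Ctx

end

end Pool.Agent.Lib.MP_f399a8_nt.G
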