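import Pool.Agent.Lib.MP_f399a8_ntG.Ca2
import Pool.Agent.Lib.MP_f399a8_ntG.Fa3

/-!
# Translates of the box function by the `SL_2` of a simple root

(The same for `SL_n`: `MP_f399a8_ntS.Z2A`; copy the proof.)  `G = Gf χ y iK ∈ W`, `ι = io γ`, `t1 = cc y (pp p)`.

PROOF of `z2_one`.  Let `M` be large, `ψ x = iK ((t1^M)⁻¹ * x * t1^M)`.  `Gf χ y ψ x = G ((t1^M)⁻¹ * x * t1^M) = cb χ (t1^M)⁻¹ * G (x * t1^M)`
(`gf_conj`, `gf_left`), so `Gf χ y ψ ∈ W`.  Let `L = Ug (Dr y) ∩ Kg`, `H = {d ∈ Ug (Dr y) | (t1^M)⁻¹ * ((ι l)⁻¹ * d * ι l) * t1^M ∈ Kg}` (subgroups).  For `M`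
large `H ⊆ Kg`: if `d' = (ι l)⁻¹ * d * ι l ∈ Ug (Dr y)` (`dr_norm2`) has integral conjugate then its nonidentity entries have norm
`≤ p ^ (-M)` (`tg_entry'`, `ug_supp_y`: they have `⟨wt j, y⟩ < ⟨wt i, y⟩`), so `d' ∈ Kmg M`, and `d = ι l * d' * (ι l)⁻¹ ∈ Kmg 0 ⊆ Kg` for `M` large
(`conj_small`).  `H` contains `L ∩ Kmg m` for `m` large (`conj_small` again).  `coset_reps`: `S`.  Let `F x = ∑ s ∈ S, Gf χ y ψ (x * (s⁻¹ * ι l)) ∈ W`.  For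
`x = b * f * ι l' * d`: `x * s⁻¹ * ι l = b * f * ι (l' * l) * ((ι l)⁻¹ * (d * s⁻¹) * ι l)`, so by `gi1` the term is
`cb χ b * chr χ γ ((l' * l) 1 1) * ψ ((ι l)⁻¹ * (d * s⁻¹) * ι l)`, and `∑ s, ψ (..) = #{s | d * s⁻¹ ∈ H} = iK d`.  If `F x ≠ 0` some term is `≠ 0`, so by
`gi_cover1` `x * s⁻¹ * ι l = b * f * ι l' * d'`, so `x = b * f * ι (l' * l⁻¹) * ((ι l * d' * (ι l)⁻¹) * s)`, of the required form.
-/

namespace Pool.Agent.Lib.MP_f399a8_nt.G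

open Matrix Filter Topology

noncomputable section

namespace Ctx

variable {ι X Y : Type*} [Finite ι] [AddCommGroup X] [AddCommGroup Y] {N : ℕ} (D : Ctx ι X Y N)
  {p : ℕ} [Fact p.Prime] {C : Type*} [NormedField C] [IsUltrametricDist C] {y : Y} {γ : ι}

omit [IsUltrametricDist C] in
private theorem Ca3_left {χ : ↥(D.Tg p) →* Cˣ} {W : Set (D.Gt p → C)} (hW : D.CS χ W)
    {b : D.Gt p} (hb : b ∈ D.Bg p) (g : D.Gt p) {f : D.Gt p → C} (hf : f ∈ W) :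
    (fun x => f (b * x * g)) ∈ W := by
  have h1 := (hW.isPS f hf).2
  have h2 : (fun x => f (b * x * g)) = fun x => D.cb χ b * f (x * g) := by
    funext x
    rw [mul_assoc, h1 b hb]
  rw [h2]
  exact hW.smul _ _ (hW.trans g f hf)

private theorem Ca3_bdd {ι X Y : Type*} [Finite ι] [AddCommGroup X] [AddCommGroup Y] {N : ℕ}
    (D : Ctx ι X Y N) {p : ℕ} [Fact p.Prime] (g : D.Gt p) : ∃ A : ℝ, ∀ i j, ‖g.1.1 i j‖ ≤ A := by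
  refine ⟨∑ i, ∑ j, ‖g.1.1 i j‖, fun i j => ?_⟩
  calc ‖g.1.1 i j‖ ≤ ∑ j, ‖g.1.1 i j‖ :=
        Finset.single_le_sum (f := fun j => ‖g.1.1 i j‖) (fun _ _ => norm_nonneg _)
          (Finset.mem_univ j)
    _ ≤ ∑ i, ∑ j, ‖g.1.1 i j‖ :=
        Finset.single_le_sum (f := fun i => ∑ j, ‖g.1.1 i j‖)
          (fun _ _ => Finset.sum_nonneg fun _ _ => norm_nonneg _) (Finset.mem_univ i)

private theorem Ca3_pow_tg {ι X Y : Type*} [Finite ι] [AddCommGroup X] [AddCommGroup Y] {N : ℕ}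
    (D : Ctx ι X Y N) {p : ℕ} [Fact p.Prime] (y : Y) (M : ℕ) : (D.cc p y (pp p)) ^ M ∈ D.Tg p :=
  (D.Tg p).pow_mem (D.cc_torus p y (pp p)) M

private theorem Ca3_km {ι X Y : Type*} [Finite ι] [AddCommGroup X] [AddCommGroup Y] {N : ℕ}
    (D : Ctx ι X Y N) {p : ℕ} [Fact p.Prime] {y : Y} (M : ℕ)
    {d : D.Gt p} (hd : d ∈ D.Ug p (D.Dr y))
    (hK : (D.cc p y (pp p) ^ M)⁻¹ * d * D.cc p y (pp p) ^ M ∈ D.Kg p) :
    d ∈ D.Kmg p M := by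
  have hp1 : (1 : ℝ) ≤ (p : ℝ) := by exact_mod_cast (Fact.out : p.Prime).one_lt.le
  have hp0 : (0 : ℝ) < (p : ℝ) := by linarith
  rw [D.mem_Kmg]
  intro i j
  by_cases hij : d.1.1 i j = (1 : Matrix (Fin N) (Fin N) ℚ_[p]) i j
  · rw [hij, sub_self, norm_zero]
    positivity
  · have h1 := D.ug_supp_y (y := y) (fun α hα => hα.1) hd hij
    have hne : i ≠ j := by
      rintro rfl
      exact lt_irrefl _ h1
    rw [Matrix.one_apply_ne hne, sub_zero]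
    have h2 := (D.mem_Kg p).1 hK i j
    rw [D.tg_entry', norm_mul, norm_zpow, Padic.norm_p, _root_.inv_zpow, ← _root_.zpow_neg] at h2
    have h3 : (p : ℝ) ^ (M : ℤ) ≤ (p : ℝ) ^ (-((M : ℤ) * (D.wp j y - D.wp i y))) := by
      refine zpow_le_zpow_right₀ hp1 ?_
      have h5 : (0 : ℤ) ≤ (M : ℤ) := by positivity
      nlinarith
    have h4 : (p : ℝ) ^ (M : ℤ) * ‖d.1.1 i j‖ ≤ 1 :=
      (mul_le_mul_of_nonneg_right h3 (norm_nonneg _)).trans h2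
    rw [_root_.zpow_neg, ← one_div, le_div_iff₀ (by positivity), mul_comm]
    exact h4

theorem z2_one {χ : ↥(D.Tg p) →* Cˣ} (hy : D.Reg y) (hγ : D.Sim y γ) (h0 : D.Sim D.y0 γ)
    {W : Set (D.Gt p → C)} (hW : D.CS χ W) (hG : D.Gf χ y (D.iK C) ∈ W) (l : SLp p 2) :
    ∃ F ∈ W, (∀ b ∈ D.Bg p, ∀ f ∈ D.Ug p (D.Fr (D.ry γ y)), ∀ l' : SLp p 2,
        ∀ d ∈ D.Ug p (D.Dr y), F (b * f * D.io p γ l' * d) =
          D.cb χ b * D.chr χ γ ((l' * l).1 1 1) * D.iK C d) ∧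
      ∀ x, F x ≠ 0 → ∃ b ∈ D.Bg p, ∃ f ∈ D.Ug p (D.Fr (D.ry γ y)), ∃ l' : SLp p 2,
        ∃ d ∈ D.Ug p (D.Dr y), x = b * f * D.io p γ l' * d := by
  classical
  obtain ⟨t, ht⟩ : ∃ t : D.Gt p, t = D.cc p y (pp p) := ⟨_, rfl⟩
  obtain ⟨L0, hL0⟩ : ∃ g : D.Gt p, g = D.io p γ l := ⟨_, rfl⟩
  have hpt : ∀ M : ℕ, t ^ M ∈ D.Tg p := fun M => by
    rw [ht]
    exact Ca3_pow_tg D y M
  obtain ⟨A, hA⟩ := Ca3_bdd D L0
  obtain ⟨M, hM⟩ := D.conj_small p A 0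
  obtain ⟨A', hA'⟩ := Ca3_bdd D (L0 * t ^ M)
  obtain ⟨m, hm⟩ := D.conj_small p A' 0
  have hg : ∀ x : D.Gt p, (t ^ M)⁻¹ * (L0⁻¹ * x * L0) * t ^ M =
      (L0 * t ^ M)⁻¹ * x * (L0 * t ^ M) := by
    intro x
    group
  let L : Subgroup (D.Gt p) := D.Ug p (D.Dr y) ⊓ D.Kg p
  let H : Subgroup (D.Gt p) := D.Ug p (D.Dr y) ⊓
    (D.Kg p).comap (MulAut.conj (L0 * t ^ M)⁻¹).toMonoidHom
  have hmemH : ∀ x, x ∈ H ↔ (x ∈ D.Ug p (D.Dr y) ∧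
      (L0 * t ^ M)⁻¹ * x * (L0 * t ^ M) ∈ D.Kg p) := by
    intro x
    show x ∈ D.Ug p (D.Dr y) ∧ (MulAut.conj (L0 * t ^ M)⁻¹) x ∈ D.Kg p ↔ _
    rw [MulAut.conj_apply, inv_inv]
  have hmemL : ∀ x, x ∈ L ↔ (x ∈ D.Ug p (D.Dr y) ∧ x ∈ D.Kg p) := fun x => Iff.rfl
  have hLK : L ≤ D.Kg p := fun x hx => hx.2
  have hHL : H ≤ L := by
    intro x hx
    obtain ⟨hx1, hx2⟩ := (hmemH x).1 hx
    refine (hmemL x).2 ⟨hx1, ?_⟩
    rw [← hg] at hx2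
    have h2 := (D.dr_norm2 hy hγ h0 l hx1).2
    rw [← hL0] at h2
    rw [ht] at hx2
    have h3 := Ca3_km D M h2 hx2
    have h4 := (hM L0 hA _ h3).1
    have h5 : L0 * (L0⁻¹ * x * L0) * L0⁻¹ = x := by group
    have h6 := D.kmg_le h4
    rw [h5] at h6
    exact h6
  have hLH : ∀ x ∈ L, x ∈ D.Kmg p m → x ∈ H := by
    intro x hx hxm
    exact (hmemH x).2 ⟨((hmemL x).1 hx).1, D.kmg_le (hm _ hA' x hxm).2⟩
  obtain ⟨S, hS1, hS2⟩ := D.coset_reps hLK hHL hLH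
  let ψ : D.Gt p → C := fun x => D.iK C ((t ^ M)⁻¹ * x * t ^ M)
  have hψ : D.Gf χ y ψ ∈ W := by
    have h2 : D.Gf χ y ψ = fun x => D.Gf χ y (D.iK C) ((t ^ M)⁻¹ * x * t ^ M) := by
      funext x
      rw [D.gf_conj (D.iK C) (hpt M)]
    rw [h2]
    exact D.Ca3_left hW (inv_mem (D.tg_bg (hpt M))) _ hG
  have hψH : ∀ x ∈ D.Ug p (D.Dr y), ψ (L0⁻¹ * x * L0) = if x ∈ H then 1 else 0 := by
    intro x hx
    show D.iK C ((t ^ M)⁻¹ * (L0⁻¹ * x * L0) * t ^ M) = _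
    rw [hg, iK]
    by_cases h2 : (L0 * t ^ M)⁻¹ * x * (L0 * t ^ M) ∈ D.Kg p
    · rw [if_pos h2, if_pos ((hmemH x).2 ⟨hx, h2⟩)]
    · rw [if_neg h2, if_neg fun h3 => h2 ((hmemH x).1 h3).2]
  refine ⟨fun x => ∑ s ∈ S, D.Gf χ y ψ (x * (s⁻¹ * L0)),
    D.sub_sum_mem hW S (fun s x => D.Gf χ y ψ (x * (s⁻¹ * L0))) (fun s _ => hW.trans _ _ hψ),
    ?_, ?_⟩
  · intro b hb f hf l' d hd
    have h2 : ∀ s ∈ S, D.Gf χ y ψ (b * f * D.io p γ l' * d * (s⁻¹ * L0)) =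
        D.cb χ b * D.chr χ γ ((l' * l).1 1 1) * (if d * s⁻¹ ∈ H then 1 else 0) := by
      intro s hs
      have hsU := ((hmemL s).1 (hS1 s hs)).1
      have hds : d * s⁻¹ ∈ D.Ug p (D.Dr y) := mul_mem hd (inv_mem hsU)
      have h3 : b * f * D.io p γ l' * d * (s⁻¹ * L0) =
          b * f * D.io p γ (l' * l) * (L0⁻¹ * (d * s⁻¹) * L0) := by
        rw [map_mul, ← hL0]
        group
      have h4 := (D.dr_norm2 hy hγ h0 l hds).2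
      rw [← hL0] at h4
      rw [h3, D.gi1 hy hγ h0 ψ hb hf (l' * l) h4, hψH _ hds]
    show ∑ s ∈ S, D.Gf χ y ψ (b * f * D.io p γ l' * d * (s⁻¹ * L0)) = _
    rw [Finset.sum_congr rfl h2, ← Finset.mul_sum]
    congr 1
    by_cases hdK : d ∈ D.Kg p
    · obtain ⟨s, ⟨hs, hsH⟩, huniq⟩ := hS2 d ((hmemL d).2 ⟨hd, hdK⟩)
      rw [Finset.sum_eq_single s, if_pos hsH, iK, if_pos hdK]
      · intro s' hs' hne
        rw [if_neg fun h4 => hne (huniq s' ⟨hs', h4⟩)]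
      · exact fun h4 => absurd hs h4
    · rw [iK, if_neg hdK]
      refine Finset.sum_eq_zero fun s hs => ?_
      rw [if_neg]
      intro h4
      have h5 := (D.Kg p).mul_mem (hLK (hHL h4)) (hLK (hS1 s hs))
      rw [inv_mul_cancel_right] at h5
      exact hdK h5
  · intro x hx
    obtain ⟨s, hs, hne⟩ := Finset.exists_ne_zero_of_sum_ne_zero hx
    obtain ⟨b, hb, f, hf, l', d', hd', he⟩ := D.gi_cover1 hy hγ h0.1 hne
    have hsU := ((hmemL s).1 (hS1 s hs)).1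
    have h4 := (D.dr_norm2 hy hγ h0 l hd').1
    rw [← hL0] at h4
    refine ⟨b, hb, f, hf, l' * l⁻¹, (L0 * d' * L0⁻¹) * s, mul_mem h4 hsU, ?_⟩
    have h2 : x = x * (s⁻¹ * L0) * (L0⁻¹ * s) := by group
    rw [h2, he, map_mul, map_inv, ← hL0]
    group

end Ctx

end

end Pool.Agent.Lib.MP_f399a8_nt.G
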