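import Pool.Agent.Lib.MP_f399a8_ntG.Za3

/-!
# `f1` on the parabolic subgroup

Write `g_z = xr (ng γ) z`, `w = io γ w2`, `y' = ry γ y`.  (The same for `SL_n`: `MP_f399a8_ntS.ZfC`.)

PROOF of `f1_ps`: `gf_ps` for `G` (`iK_cont.continuousOn`); `ps_trans`, `ps_sub`.
PROOF of `f1_mem`: `G ∈ W`, `hW.trans`, `hW.add`, `hW.smul` with `-1`.
PROOF of `f1_eq`: let `x ∈ Pb y γ`; `pb_split`.
If `x = b * d * g_z`: `u := d * g_z ∈ Ug (Dr y')` (`dr_mul`), `Gf χ y' f1 x = cb χ b * f1 u` (`gf_eq` with `f = 1`), `f1 x = cb χ b * f1 u` (`f1_left`).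
If `x = b * d * w`: `Gf χ y' f1 x = 0`: otherwise `x = b' * f' * d'` (`gf_ne`), `d * w = (b⁻¹ * b') * (f' * d')` contradicts `dw_notin`.
`f1 x = cb χ b * f0 (d * (w * w))`, and `w * w = io γ (w2 * w2)`, `w2 * w2 = up2 (-1) 0 = -1`, so `s = d * (w * w) ∈ Bt y` (`up_Bt`), `s = b' * d'`
(`bt_split`), and `f0 (b' * d') = cb χ b' * f0 (d' * g_0) = 0` (`xr_zero`, `f0_zero` with `z = 0`).
-/

namespace Pool.Agent.Lib.MP_f399a8_nt.G

open Matrix Filter Topology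

noncomputable section

namespace Ctx

variable {ι X Y : Type*} [Finite ι] [AddCommGroup X] [AddCommGroup Y] {N : ℕ} (D : Ctx ι X Y N)
  {p : ℕ} [Fact p.Prime] {C : Type*} [NormedField C] {χ : ↥(D.Tg p) →* Cˣ} {h : X →+ ℝ} {y : Y}
  {γ : ι}

theorem Za4_eq (e : D.Gt p) : (D.f1 χ y γ e : D.Gt p → C) = fun x : D.Gt p =>
    D.Gf χ y (D.iK C) (x * (D.io p γ (S.w2 p) * e)) -
      D.Gf χ y (D.iK C) (x * D.io p γ (S.w2 p)) := by
  funext x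
  show D.Gf χ y (D.iK C) (x * D.io p γ (S.w2 p) * e) -
    D.Gf χ y (D.iK C) (x * D.io p γ (S.w2 p)) = _
  rw [mul_assoc]

theorem f1_ps (hχ : Continuous χ) (hs : D.Slope χ h) (hy : D.Reg y) (hg : D.Good h y)
    (e : D.Gt p) : D.PS χ (D.f1 χ y γ e) := by
  have hG : D.PS χ (D.Gf χ y (D.iK C)) := D.gf_ps hχ hs hy hg (D.iK_cont p C).continuousOn
    (fun d _ hd2 => by
      unfold iK
      rw [if_neg hd2])
  rw [D.Za4_eq e]
  exact D.ps_sub (D.ps_trans hG _) (D.ps_trans hG _)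

theorem f1_mem (e : D.Gt p) {W : Set (D.Gt p → C)} (hW : D.CS χ W)
    (hG : D.Gf χ y (D.iK C) ∈ W) : D.f1 χ y γ e ∈ W := by
  have h1 := hW.add _ (hW.trans (D.io p γ (S.w2 p) * e) _ hG) _
    (hW.smul (-1) _ (hW.trans (D.io p γ (S.w2 p)) _ hG))
  have h2 : (D.f1 χ y γ e : D.Gt p → C) = fun x : D.Gt p =>
      D.Gf χ y (D.iK C) (x * (D.io p γ (S.w2 p) * e)) +
        (-1) * D.Gf χ y (D.iK C) (x * D.io p γ (S.w2 p)) := by
    rw [D.Za4_eq e]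
    funext x
    ring
  rw [h2]
  exact h1

theorem Za4_w2 : S.w2 p * S.w2 p = S.up2 (-1) (neg_ne_zero.mpr one_ne_zero) 0 := by
  apply Subtype.ext
  show !![(0 : ℚ_[p]), 1; -1, 0] * !![(0 : ℚ_[p]), 1; -1, 0] =
    !![(-1 : ℚ_[p])⁻¹, 0; 0, -1]
  rw [Matrix.mul_fin_two]
  norm_num

theorem f1_eq (hy : D.Reg y) (hγ : D.Sim y γ) (h0 : 0 < D.pr γ D.y0) {e : D.Gt p}
    (he : e ∈ D.Ug p (D.Ez y γ)) (heK : e ∈ D.Kg p) {x : D.Gt p} (hx : x ∈ D.Pb p y γ) :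
    D.f1 χ y γ e x = D.Gf χ (D.ry γ y) (D.f1 χ y γ e) x := by
  obtain ⟨b, hb, hb', d, hd, hcase⟩ := D.pb_split hy hγ hx
  rcases hcase with ⟨z, hz⟩ | hw
  · have hu : d * D.xr p (D.ng γ) z ∈ D.Ug p (D.Dr (D.ry γ y)) := D.dr_mul hy hγ h0 hd z
    have h1 := D.gf_eq (χ := χ) (y := D.ry γ y) (D.f1 χ y γ e) hb
      (one_mem (D.Ug p (D.Fr (D.ry γ y)))) hu
    rw [mul_one] at h1
    rw [hz, mul_assoc, h1, D.f1_left e hb]
  · have h1 : D.Gf χ (D.ry γ y) (D.f1 χ y γ e) x = 0 := by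
      by_contra hne
      obtain ⟨b1, hb1, f, hf, d1, hd1, h2, -, -⟩ := D.gf_ne hne
      have h3 : f * d1 ∈ D.Ug p (D.Ne D.y0) :=
        mul_mem (D.ug_mono (fun _ h => h.2) hf) (D.ug_mono (fun _ h => h.2) hd1)
      refine D.dw_notin hy hγ h0 hd (mul_mem (inv_mem hb) hb1) h3 ?_
      have h4 : b * (d * D.io p γ (S.w2 p)) = b1 * (f * d1) := by
        rw [← mul_assoc, ← mul_assoc, ← hw, h2]
      rw [mul_assoc, ← h4, inv_mul_cancel_left]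
    have h3 : d * D.io p γ (S.up2 (-1) (neg_ne_zero.mpr one_ne_zero) 0) ∈ D.Bt p y :=
      mul_mem (D.dr_Bt hd) (D.up_Bt hγ _ _)
    obtain ⟨b2, hb2, -, d2, hd2, h4⟩ := D.bt_split h3
    have h5 : D.f0 χ y e d2 = (0 : C) := by
      have h6 := D.f0_zero (C := C) (χ := χ) hy hγ h0 he heK hd2 (z := 0) (by simp)
      rw [D.xr_zero, mul_one] at h6
      exact h6
    rw [h1, hw, mul_assoc, D.f1_left e hb]
    have h7 : D.f1 χ y γ e (d * D.io p γ (S.w2 p)) = (0 : C) := by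
      show D.f0 χ y e (d * D.io p γ (S.w2 p) * D.io p γ (S.w2 p)) = 0
      rw [mul_assoc, ← map_mul, Za4_w2, h4, D.f0_left e hb2, h5, mul_zero]
    rw [h7, mul_zero]

end Ctx

end

end Pool.Agent.Lib.MP_f399a8_nt.G
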