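import Pool.Agent.Lib.MP_f399a8_ntG.Ya1
import Pool.Agent.Lib.MP_f399a8_ntG.Za4

/-!
# Passing from `y` to `s_γ y`, `γ` not simple for `y0`

(The same for `SL_n`: `MP_f399a8_ntS.YlB`.)
PROOF.  `ze_exists` gives `e'` and `A`, `f1 := f1 χ y γ e'`.  `e` from `ex_exists`, `t = cc e (pp p)`.  `y' = ry γ y`, `Good h y'` (`good_ry`), `Reg y'`
(`reg_ry`).  `Γ := Gf χ y' f1` is in the principal series (`gf_ps` with `f1_ps` (continuous), `f1_supp`).  `F := f1 - Γ` is in the principal series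
(`ps_sub`), vanishes on `Pb y γ` (`f1_eq`), and `HH χ y γ F`: if `F x ≠ 0` then one of `f1 x`, `Γ x` has norm `≥ ‖F x‖ > 0`; for `f1` use `f1_HH`; for
`Γ`: `x = b * f' * d'`, `f' ∈ Ug (Fr y') ⊆ Ug (Fr y)` (`fr_ry`), `d' ∈ Ug (Dr y')` with `f1 d' ≠ 0`, so `d' ∈ Kg` (`f1_supp`), `d' ∈ Pb y γ` (`dr_ry_Pb`),
`‖Γ x‖ = ‖cb χ b‖ * ‖f1 d'‖ ≤ ‖cb χ b‖` (`f1_norm`).
`pi_lim`: for `ε > 0` and `M` large `‖F (k_M)‖ ≤ ε` for `k ∈ Kg` (`k_M = (t^M)⁻¹ * k * t^M`).  And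
`k ↦ f1 (k_M) = cb χ (t^M)⁻¹ * f1 (k * t^M)` is in `W` (`f1_mem`, `f1_left`).  So `f1 ∈ YY χ y' e W`.  It is nonzero on `Ug (Dr y')` (`f1_ne`).  The
condition on `e` for `y'`: `α ∈ Dr y'` is in `Dr y` or equal to `ng γ` (`dr_ry`), in the first case `α ∈ Po y`, `α ≠ γ`, so `0 < ⟨α, e⟩`; in the second
`⟨α, e⟩ = 0`.  `yy_final` for `y'` gives the claim.
-/

namespace Pool.Agent.Lib.MP_f399a8_nt.G

open Matrix Filter Topology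

noncomputable section

namespace Ctx

variable {ι X Y : Type*} [Finite ι] [AddCommGroup X] [AddCommGroup Y] {N : ℕ} (D : Ctx ι X Y N)
  {p : ℕ} [Fact p.Prime] {C : Type*} [NormedField C] [NormedAlgebra ℚ_[p] C]
  [IsUltrametricDist C] [FiniteDimensional ℚ_[p] C] {χ : ↥(D.Tg p) →* Cˣ} {h : X →+ ℝ} {y : Y}
  {γ : ι}

theorem good_ry (hy : D.Reg y) (hg : D.Good h y) (hγ : D.Sim y γ) (h0 : 0 < D.pr γ D.y0) :
    D.Good h (D.ry γ y) := by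
  intro α hα
  exact hg α ((D.fr_ry hy hγ h0 α).1 hα).1

omit [NormedAlgebra ℚ_[p] C] [FiniteDimensional ℚ_[p] C] in
theorem Ya2_sub (a b : C) : ‖a - b‖ ≤ max ‖a‖ ‖b‖ := by
  rw [sub_eq_add_neg]
  refine (IsUltrametricDist.norm_add_le_max _ _).trans ?_
  rw [norm_neg]

theorem y_lemma (hχ : Continuous χ) (hs : D.Slope χ h) (hy : D.Reg y) (hg : D.Good h y)
    (hγ : D.Sim y γ) (h0 : 0 < D.pr γ D.y0) (hns : ¬ D.Sim D.y0 γ) {W : Set (D.Gt p → C)}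
    (hW : D.CS χ W) (hG : D.Gf χ y (D.iK C) ∈ W) : D.Gf χ (D.ry γ y) (D.iK C) ∈ W := by
  obtain ⟨e', he', heK', A, hA, hz⟩ := D.ze_exists C p hy hγ h0 hns
  obtain ⟨e, he, heγ⟩ := D.ex_exists hy hγ
  have hy' : D.Reg (D.ry γ y) := D.reg_ry hy γ
  have hg' : D.Good h (D.ry γ y) := D.good_ry hy hg hγ h0
  have hf1ps : D.PS χ (D.f1 χ y γ e') := D.f1_ps hχ hs hy hg e'
  have hf1c : Continuous (D.f1 χ y γ e') := hf1ps.1
  have hsupp : ∀ d ∈ D.Ug p (D.Dr (D.ry γ y)), d ∉ D.Kg p → D.f1 χ y γ e' d = 0 :=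
    fun d hd hdK => D.f1_supp hy hγ h0 he' heK' hd hdK
  have hΓ : D.PS χ (D.Gf χ (D.ry γ y) (D.f1 χ y γ e')) :=
    D.gf_ps hχ hs hy' hg' hf1c.continuousOn hsupp
  have hD : D.PS χ (fun x => D.f1 χ y γ e' x - D.Gf χ (D.ry γ y) (D.f1 χ y γ e') x) :=
    D.ps_sub hf1ps hΓ
  have hZ : ∀ x ∈ D.Pb p y γ,
      (fun x => D.f1 χ y γ e' x - D.Gf χ (D.ry γ y) (D.f1 χ y γ e') x) x = 0 := by
    intro x hx
    show D.f1 χ y γ e' x - D.Gf χ (D.ry γ y) (D.f1 χ y γ e') x = 0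
    rw [← D.f1_eq hy hγ h0 he' heK' hx, sub_self]
  have hHD : D.HH χ y γ (fun x => D.f1 χ y γ e' x - D.Gf χ (D.ry γ y) (D.f1 χ y γ e') x) := by
    intro x hx
    have hmax := Ya2_sub (D.f1 χ y γ e' x) (D.Gf χ (D.ry γ y) (D.f1 χ y γ e') x)
    have hpos : 0 < ‖D.f1 χ y γ e' x - D.Gf χ (D.ry γ y) (D.f1 χ y γ e') x‖ :=
      norm_pos_iff.mpr hx
    rcases le_max_iff.mp hmax with h1 | h1
    · obtain ⟨b, hb, u, hu, c, hc, hcK, hxe, hle⟩ :=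
        D.f1_HH hy hγ he' heK' x (norm_pos_iff.mp (lt_of_lt_of_le hpos h1))
      exact ⟨b, hb, u, hu, c, hc, hcK, hxe, h1.trans hle⟩
    · obtain ⟨b, hb, f, hf, d, hd, hxe, hne, hv⟩ :=
        D.gf_ne (norm_pos_iff.mp (lt_of_lt_of_le hpos h1))
      have hdK : d ∈ D.Kg p := by
        by_contra hdK
        exact hne (hsupp d hd hdK)
      refine ⟨b, hb, f, D.ug_mono (fun α hα => ((D.fr_ry hy hγ h0 α).mp hα).1) hf, d,
        D.dr_ry_Pb hy hγ h0 hd, hdK, hxe, h1.trans ?_⟩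
      rw [hv, norm_mul]
      exact mul_le_of_le_one_right (norm_nonneg _) (D.f1_norm hs hg heK' hdK)
  have hYY : D.f1 χ y γ e' ∈ D.YY χ (D.ry γ y) e W := by
    refine ⟨hf1c.continuousOn, hsupp, fun ε hε => ?_⟩
    obtain ⟨M0, hM0⟩ := D.pi_lim hs hy hg hγ h0 he heγ hD hHD hZ hε
    refine ⟨M0, fun M hM => ⟨fun k => D.cb χ ((D.cc p e (pp p)) ^ M)⁻¹ *
      D.f1 χ y γ e' (k * (D.cc p e (pp p)) ^ M), ?_, ?_⟩⟩
    · exact hW.smul _ _ (hW.trans ((D.cc p e (pp p)) ^ M) _ (D.f1_mem e' hW hG))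
    · intro k hk
      have h1 := hM0 M hM k hk
      have h2 : D.f1 χ y γ e' (((D.cc p e (pp p)) ^ M)⁻¹ * k * (D.cc p e (pp p)) ^ M) =
          D.cb χ ((D.cc p e (pp p)) ^ M)⁻¹ * D.f1 χ y γ e' (k * (D.cc p e (pp p)) ^ M) := by
        rw [mul_assoc]
        exact D.f1_left e' (inv_mem (D.tg_bg (D.Ya1_tg e M))) _
      show ‖D.Gf χ (D.ry γ y) (D.f1 χ y γ e')
          (((D.cc p e (pp p)) ^ M)⁻¹ * k * (D.cc p e (pp p)) ^ M) -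
        D.cb χ ((D.cc p e (pp p)) ^ M)⁻¹ * D.f1 χ y γ e' (k * (D.cc p e (pp p)) ^ M)‖ ≤ ε
      rw [← h2, norm_sub_rev]
      exact h1
  refine D.yy_final hχ hs hy' hg' ?_ hW hYY (D.f1_ne hy hγ h0 (hz χ))
  intro α hα
  rcases (D.dr_ry hy hγ h0 α).mp hα with h1 | rfl
  · refine (he α h1.1 ?_).le
    rintro rfl
    exact absurd h1.2 (not_lt_of_gt h0)
  · rw [D.pr_ng, heγ, neg_zero]

end Ctx

end

end Pool.Agent.Lib.MP_f399a8_nt.G
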