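import Pool.Agent.Lib.MP_f399a8_ntG.Ca3
import Pool.Agent.Lib.MP_f399a8_ntG.Ya2
import Pool.Agent.Lib.MP_f399a8_ntS.N5

/-!
# Passing from `y` to `s_γ y`, `γ` simple for `y` and `y0`

(The same for `SL_n`: `MP_f399a8_ntS.Z2B`; copy the proof.)

PROOF.  `ng γ ∈ Fr y` (`ng_mem_fr`), so `Good` gives `h (rt γ) < 0` (`rt_ng`).  `ν := chr χ γ` is continuous (`chr_cont`), `‖ν p‖ = ‖p‖ ^ (-(κ h (rt γ))) < 1`
(`chr_norm`), and not a power: if `ν x = x ^ l` for all `x` then `cb χ (cc (co γ) x) = x ^ (-l)` (`chr_apply`), contradicting `hη`.  Let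
`G' = Gf χ (ry γ y) iK`, in the principal series (`gf_ps`, `good_ry`, `reg_ry`, `iK_cont`).  By `hW.closed` it is enough to find for `ε > 0` an element of
`W` within `ε` on `Kg`.  `S.lin_dense` gives `a_q, b_q, λ_q` with `‖∑ λ_q ν (c a_q + d b_q) - [‖c‖ ≤ ‖d‖] ν d‖ ≤ ε` for primitive `(c, d)`.  For each
`q` choose `l_q ∈ SL_2` with second column `(a_q, b_q)`.  Let `F_q` be as in `z2_one` and `F = ∑ λ_q F_q ∈ W` (`sub_sum_mem`, `hW.smul`).  Let `x ∈ Kg`;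
show `‖G' x - F x‖ ≤ ε`.  If both are `0` fine.  Otherwise by `z2_one` or `gi_cover2` `x = b * f * io γ l' * d`, and by `gi_norm` we may take
`l' = k ∈ SL_2(ℤ_p)`.  By `gi2` and `z2_one` `G' x - F x = cb χ b * ([‖k 1 0‖ ≤ ‖k 1 1‖] ν (k 1 1) - ∑ λ_q ν (k 1 0 * a_q + k 1 1 * b_q)) * iK d`.  The
vector `(k 1 0, k 1 1)` is primitive.  If `d ∉ Kg` the value is `0`.  If `d ∈ Kg`: `1 = Om h x = ‖cb χ b‖ * Om h (f * (io γ k * d)) = ‖cb χ b‖ * Om h f`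
(`om_kg`, `om_cb`, `om_right`, `io_K`) and `1 ≤ Om h f` (`good_ge` for `ry γ y`), so `‖cb χ b‖ ≤ 1` and the norm is `≤ ε`.
-/

namespace Pool.Agent.Lib.MP_f399a8_nt.G

open Matrix Filter Topology

noncomputable section

namespace Ctx

private theorem Ca4_col (p : ℕ) [Fact p.Prime] (a b : ℚ_[p]) (h : a ≠ 0 ∨ b ≠ 0) :
    ∃ l : SLp p 2, l.1 0 1 = a ∧ l.1 1 1 = b := by
  by_cases hb : b = 0
  · have ha : a ≠ 0 := by
      rcases h with h | h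
      · exact h
      · exact absurd hb h
    refine ⟨⟨!![0, a; -a⁻¹, 0], ?_⟩, ?_, ?_⟩
    · rw [Matrix.det_fin_two]
      simp [ha]
    · simp
    · simp [hb]
  · exact ⟨S.up2 b hb a, by simp [S.up2], by simp [S.up2]⟩

private theorem Ca4_prim {p : ℕ} [Fact p.Prime] {k : SLp p 2} (hk : k ∈ S.Kp p 2) :
    S.Prim (k.1 1 0) (k.1 1 1) := by
  unfold S.Prim
  refine le_antisymm (max_le (S.mem_Kp.1 hk _ _) (S.mem_Kp.1 hk _ _)) ?_
  have hdet : k.1 0 0 * k.1 1 1 - k.1 0 1 * k.1 1 0 = 1 := by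
    rw [← Matrix.det_fin_two]
    exact k.2
  have h1 : (1 : ℝ) = ‖k.1 0 0 * k.1 1 1 - k.1 0 1 * k.1 1 0‖ := by
    rw [hdet, norm_one]
  rw [h1, sub_eq_add_neg]
  refine (IsUltrametricDist.norm_add_le_max _ _).trans (max_le ?_ ?_)
  · rw [norm_mul]
    refine le_trans ?_ (le_max_right _ _)
    exact mul_le_of_le_one_left (norm_nonneg _) (S.mem_Kp.1 hk _ _)
  · rw [norm_neg, norm_mul]
    refine le_trans ?_ (le_max_left _ _)
    exact mul_le_of_le_one_left (norm_nonneg _) (S.mem_Kp.1 hk _ _)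

section

variable {ι X Y : Type*} [Finite ι] [AddCommGroup X] [AddCommGroup Y] {N : ℕ} (D : Ctx ι X Y N)
  {p : ℕ} [Fact p.Prime] {C : Type*} [NormedField C] {χ : ↥(D.Tg p) →* Cˣ} {h : X →+ ℝ} {y : Y}

private theorem Ca4_cb (hs : D.Slope χ h) (hg : D.Good h y) {b f k : D.Gt p} (hb : b ∈ D.Bg p)
    (hf : f ∈ D.Ug p (D.Fr y)) (hk : k ∈ D.Kg p) (hx : b * f * k ∈ D.Kg p) :
    ‖D.cb χ b‖ ≤ 1 := by
  have h1 := D.om_kg h hx
  rw [mul_assoc, D.om_cb hs hb, D.om_right h hk] at h1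
  have h2 := D.good_ge hg hf
  have h3 : 0 ≤ ‖D.cb χ b‖ := norm_nonneg _
  nlinarith

end

variable {ι X Y : Type*} [Finite ι] [AddCommGroup X] [AddCommGroup Y] {N : ℕ} (D : Ctx ι X Y N)
  {p : ℕ} [Fact p.Prime] {C : Type*} [NormedField C] [NormedAlgebra ℚ_[p] C]
  [IsUltrametricDist C] [FiniteDimensional ℚ_[p] C] {χ : ↥(D.Tg p) →* Cˣ} {h : X →+ ℝ} {y : Y}
  {γ : ι}

theorem z2_lemma (hχ : Continuous χ) (hs : D.Slope χ h) (hy : D.Reg y) (hg : D.Good h y)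
    (hγ : D.Sim y γ) (h0 : D.Sim D.y0 γ)
    (hη : ¬ ∃ l : ℕ, ∀ x : ℚ_[p]ˣ,
      D.cb χ (D.cc p (D.co γ) x) = (algebraMap ℚ_[p] C (x : ℚ_[p])) ^ (-(l : ℤ)))
    {W : Set (D.Gt p → C)} (hW : D.CS χ W) (hG : D.Gf χ y (D.iK C) ∈ W) :
    D.Gf χ (D.ry γ y) (D.iK C) ∈ W := by
  have hv : h (D.rt γ) < 0 := by
    have h1 := hg _ (D.ng_mem_fr hγ h0.1)
    rw [D.rt_ng, map_neg] at h1
    linarith
  have hν : Continuous (D.chr χ γ) := D.chr_cont hχ hs hv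
  have hp0 : (p : ℚ_[p]) ≠ 0 := by exact_mod_cast (Fact.out : p.Prime).ne_zero
  obtain ⟨κ, hκ, hκn⟩ := D.chr_norm p C γ
  have hν1 : ‖D.chr χ γ (p : ℚ_[p])‖ < 1 := by
    rw [hκn hs _ hp0]
    exact Real.rpow_lt_one (norm_nonneg _) Padic.norm_p_lt_one (by nlinarith)
  have hk : ¬ ∃ l : ℕ, ∀ x : ℚ_[p], D.chr χ γ x = (algebraMap ℚ_[p] C x) ^ l := by
    rintro ⟨l, hl⟩
    refine hη ⟨l, fun x => ?_⟩
    have e1 := hl x
    rw [D.chr_apply] at e1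
    rw [_root_.zpow_neg, zpow_natCast, ← e1, inv_inv]
  have hgr : D.Good h (D.ry γ y) := D.good_ry hy hg hγ h0.1
  refine hW.closed _ (D.gf_ps hχ hs (D.reg_ry hy γ) hgr (D.iK_cont p C).continuousOn ?_) ?_
  · intro d _ hdK
    unfold iK
    rw [if_neg hdK]
  intro ε hε
  obtain ⟨f, ⟨m, a, b, lam, hab, hf⟩, hfε⟩ := S.lin_dense hν hν1 hk hε
  choose l hl1 hl2 using fun q => Ca4_col p (a q) (b q) (hab q)
  choose F hFW hF1 hF2 using fun q => D.z2_one hy hγ h0 hW hG (l q)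
  refine ⟨fun x => ∑ q, lam q * F q x,
    D.sub_sum_mem hW Finset.univ (fun q x => lam q * F q x) (fun q _ => hW.smul _ _ (hFW q)), ?_⟩
  intro x hx
  have hxK : x ∈ D.Kg p := hx
  show ‖D.Gf χ (D.ry γ y) (D.iK C) x - ∑ q, lam q * F q x‖ ≤ ε
  by_cases h00 : D.Gf χ (D.ry γ y) (D.iK C) x = 0 ∧ ∀ q, F q x = 0
  · rw [h00.1, Finset.sum_eq_zero fun q _ => by rw [h00.2 q, mul_zero], sub_zero, norm_zero]
    exact hε.le
  have hcov : ∃ b ∈ D.Bg p, ∃ f ∈ D.Ug p (D.Fr (D.ry γ y)), ∃ l : SLp p 2, ∃ d ∈ D.Ug p (D.Dr y),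
      x = b * f * D.io p γ l * d := by
    by_cases h2 : D.Gf χ (D.ry γ y) (D.iK C) x = 0
    · have h3 : ∃ q, F q x ≠ 0 := by
        by_contra hcon
        push Not at hcon
        exact h00 ⟨h2, hcon⟩
      obtain ⟨q, hq⟩ := h3
      exact hF2 q x hq
    · exact D.gi_cover2 hy hγ h0 h2
  obtain ⟨b0, hb0, f0, hf0, l0, d, hd, hxe⟩ := hcov
  obtain ⟨b', hb', f', hf', k, hkK, hbe⟩ := D.gi_norm hy hγ h0 hb0 hf0 l0
  rw [hbe] at hxe
  have e1 := D.gi2 (χ := χ) (C := C) hy hγ h0 hb' hf' k hd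
  rw [← hxe] at e1
  have e2 : ∀ q, F q x =
      D.cb χ b' * D.chr χ γ (k.1 1 0 * a q + k.1 1 1 * b q) * D.iK C d := by
    intro q
    have e3 : ((k * l q).1 1 1 : ℚ_[p]) = k.1 1 0 * a q + k.1 1 1 * b q := by
      show (k.1 * (l q).1) 1 1 = _
      rw [Matrix.mul_apply, Fin.sum_univ_two, hl1, hl2]
    rw [hxe, hF1 q b' hb' f' hf' k d hd, e3]
  have e4 : ∑ q, lam q * F q x = D.cb χ b' * f (k.1 1 0) (k.1 1 1) * D.iK C d := by
    rw [hf, Finset.mul_sum, Finset.sum_mul]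
    refine Finset.sum_congr rfl fun q _ => ?_
    rw [e2 q]
    ring
  rw [e4, e1]
  by_cases hdK : d ∈ D.Kg p
  · have hind : D.iK C d = 1 := by
      unfold iK
      rw [if_pos hdK]
    rw [hind, mul_one, mul_one, ← mul_sub, norm_mul]
    have hkd : D.io p γ k * d ∈ D.Kg p := mul_mem ((D.io_K p).2 hkK) hdK
    have hcb : ‖D.cb χ b'‖ ≤ 1 := by
      refine Ca4_cb D hs hgr hb' hf' hkd ?_
      rw [← mul_assoc, ← hxe]
      exact hxK
    have h5 := hfε _ _ (Ca4_prim hkK)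
    rw [norm_sub_rev] at h5
    calc _ ≤ 1 * ε := mul_le_mul hcb h5 (norm_nonneg _) zero_le_one
      _ = ε := one_mul ε
  · have hind : D.iK C d = 0 := by
      unfold iK
      rw [if_neg hdK]
    rw [hind, mul_zero, mul_zero, sub_zero, norm_zero]
    exact hε.le

end Ctx

end

end Pool.Agent.Lib.MP_f399a8_nt.G
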