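import Pool.Agent.Lib.MP_f399a8_ntG.Def
import Pool.Agent.Lib.MP_f399a8_ntS.MnB

/-!
# The working context

`Ctx ι X Y N`: a simply connected reduced root datum `P`, a Chevalley module `M` on `Fin N` and a regular
`y0 : Y` (it defines the positive system of the Borel subgroup) such that the weight vectors are ordered by
decreasing `⟨weight, y0⟩`.
-/

namespace Pool.Agent.Lib.MP_f399a8_nt.G

open Matrix

noncomputable section

/-- the working context -/
structure Ctx (ι X Y : Type*) [Finite ι] [AddCommGroup X] [AddCommGroup Y] (N : ℕ) where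
  P : RootPairing ι ℤ X Y
  M : ChevMod P (Fin N)
  red : P.IsReduced
  cospan : AddSubgroup.closure (Set.range P.coroot) = ⊤
  y0 : Y
  reg0 : ∀ α, P.toLinearMap (P.root α) y0 ≠ 0
  sorted : ∀ i j : Fin N, P.toLinearMap (M.wt j) y0 < P.toLinearMap (M.wt i) y0 → i < j

namespace Ctx

variable {ι X Y : Type*} [Finite ι] [AddCommGroup X] [AddCommGroup Y] {N : ℕ} (D : Ctx ι X Y N)

/-- the pairing of `X` and `Y` -/
def pa (x : X) (y : Y) : ℤ := D.P.toLinearMap x y

/-- the root `α`, in `X` -/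
def rt (α : ι) : X := D.P.root α

/-- the coroot of `α`, in `Y` -/
def co (α : ι) : Y := D.P.coroot α

/-- the weight of the basis vector `i` -/
def wt (i : Fin N) : X := D.M.wt i

/-- `⟨α, y⟩` -/
def pr (α : ι) (y : Y) : ℤ := D.P.toLinearMap (D.P.root α) y

/-- `⟨wt i, y⟩` -/
def wp (i : Fin N) (y : Y) : ℤ := D.P.toLinearMap (D.M.wt i) y

/-- the index of `-α` -/
def ng (α : ι) : ι := D.P.reflectionPerm α α

/-- the index of `s_γ α` -/
def rf (γ α : ι) : ι := D.P.reflectionPerm γ α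

/-- the reflection `s_γ` on `X` -/
def rx (γ : ι) (x : X) : X := D.P.reflection γ x

/-- the reflection `s_γ` on `Y` -/
def ry (γ : ι) (y : Y) : Y := D.P.coreflection γ y

/-- `y` is regular -/
def Reg (y : Y) : Prop := ∀ α, D.pr α y ≠ 0

/-- the roots which are positive on `y` -/
def Po (y : Y) : Set ι := {α | 0 < D.pr α y}

/-- the roots which are negative on `y` -/
def Ne (y : Y) : Set ι := {α | D.pr α y < 0}

/-- `γ` is positive on `y` and not the sum of two roots which are positive on `y` -/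
def Sim (y : Y) (γ : ι) : Prop :=
  0 < D.pr γ y ∧ ∀ α β, 0 < D.pr α y → 0 < D.pr β y → D.rt γ ≠ D.rt α + D.rt β

/-- `S` is closed: sums of elements of `S` which are roots are in `S` -/
def Cl (S : Set ι) : Prop := ∀ α ∈ S, ∀ β ∈ S, ∀ γ, D.rt γ = D.rt α + D.rt β → γ ∈ S

/-- `S` is stable under addition of the root `δ` -/
def Abs (δ : ι) (S : Set ι) : Prop := ∀ α ∈ S, ∀ γ, D.rt γ = D.rt δ + D.rt α → γ ∈ S

/-- negative for the Borel subgroup, positive on `y` -/
def Dr (y : Y) : Set ι := {α | 0 < D.pr α y ∧ D.pr α D.y0 < 0}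

/-- negative for the Borel subgroup, negative on `y` -/
def Fr (y : Y) : Set ι := {α | D.pr α y < 0 ∧ D.pr α D.y0 < 0}

/-- positive for the Borel subgroup, positive on `y` -/
def Er (y : Y) : Set ι := {α | 0 < D.pr α y ∧ 0 < D.pr α D.y0}

/-- positive on `y`, different from `γ` -/
def Ob (y : Y) (γ : ι) : Set ι := {α | 0 < D.pr α y ∧ α ≠ γ}

variable (p : ℕ) [Fact p.Prime]

/-- the Chevalley group -/
abbrev GG : Subgroup (SLp p N) := chevGroup D.M p

/-- the type of elements of the Chevalley group -/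
abbrev Gt : Type := ↥(chevGroup D.M p)

/-- the torus -/
abbrev Tg : Subgroup (D.Gt p) := torus D.M p

/-- the matrix of the root vector over `ℚ_p` -/
def Ef (α : ι) : Matrix (Fin N) (Fin N) ℚ_[p] := (D.M.E α).map (fun z : ℤ => (z : ℚ_[p]))

/-- `exp (s E_α)` -/
def xm (α : ι) (s : ℚ_[p]) : Matrix (Fin N) (Fin N) ℚ_[p] := IsNilpotent.exp (s • D.Ef p α)

/-- the integral points -/
def Kg : Subgroup (D.Gt p) := (S.Kp p N).comap (D.GG p).subtype

/-- the principal congruence subgroups -/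
def Kmg (m : ℕ) : Subgroup (D.Gt p) := (S.Km p N m).comap (D.GG p).subtype

/-- the upper triangular elements -/
def Bg : Subgroup (D.Gt p) := (S.Bp p N).comap (D.GG p).subtype

/-- the subgroup generated by the root groups of the roots in `S` -/
def Ug (S : Set ι) : Subgroup (D.Gt p) :=
  Subgroup.closure {g | ∃ α ∈ S, ∃ s : ℚ_[p], g.1.1 = D.xm p α s}

/-- the span of the root vectors of the roots in `S` -/
def nS (S : Set ι) : Submodule ℚ_[p] (Matrix (Fin N) (Fin N) ℚ_[p]) :=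
  Submodule.span ℚ_[p] (D.Ef p '' S)

theorem mem_Kg {x : D.Gt p} : x ∈ D.Kg p ↔ ∀ i j, ‖x.1.1 i j‖ ≤ 1 := Iff.rfl

theorem mem_Kmg {m : ℕ} {x : D.Gt p} : x ∈ D.Kmg p m ↔
    ∀ i j, ‖x.1.1 i j - (1 : Matrix (Fin N) (Fin N) ℚ_[p]) i j‖ ≤ (p : ℝ) ^ (-(m : ℤ)) := Iff.rfl

theorem mem_Bg {x : D.Gt p} : x ∈ D.Bg p ↔ ∀ i j : Fin N, j < i → x.1.1 i j = 0 := Iff.rfl

end Ctx

end

end Pool.Agent.Lib.MP_f399a8_nt.G
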