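import Mathlib

/-!
# Chevalley groups over `ℚ_p` and their continuous principal series: definitions
-/

namespace Pool.Agent.Lib.MP_f399a8_nt.G

open Matrix

noncomputable section

/-- A Chevalley basis of the split semisimple Lie algebra with root datum `P`, acting on an admissible
lattice `ℤ^κ`, whose standard basis consists of weight vectors, such that the weights generate the
character lattice `X`: `wt i` is the weight of the basis vector `i` and the integral matrix `E α` is
the action of the root vector of the root `α`. -/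
structure ChevMod {ι X Y : Type*} [Finite ι] [AddCommGroup X] [AddCommGroup Y]
    (P : RootPairing ι ℤ X Y) (κ : Type*) [Fintype κ] [DecidableEq κ] where
  wt : κ → X
  E : ι → Matrix κ κ ℤ
  wt_span : AddSubgroup.closure (Set.range wt) = ⊤
  E_wt : ∀ α i j, E α i j ≠ 0 → wt i = P.root α + wt j
  E_neg : ∀ α β, P.root β = -P.root α →
    E α * E β - E β * E α = Matrix.diagonal fun i => P.toLinearMap (wt i) (P.coroot α)
  E_add : ∀ α β γ, P.root γ = P.root α + P.root β →
    E α * E β - E β * E α = ((P.chainBotCoeff α β : ℤ) + 1) • E γ ∨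
      E α * E β - E β * E α = -(((P.chainBotCoeff α β : ℤ) + 1) • E γ)
  E_comm : ∀ α β, P.root α + P.root β ≠ 0 → (∀ γ, P.root γ ≠ P.root α + P.root β) →
    E α * E β = E β * E α
  E_div : ∀ α (k : ℕ), ∃ A : Matrix κ κ ℤ, E α ^ k = (k.factorial : ℤ) • A

section

variable {ι X Y : Type*} [Finite ι] [AddCommGroup X] [AddCommGroup Y]
  {P : RootPairing ι ℤ X Y} {κ : Type*} [Fintype κ] [DecidableEq κ]

/-- `x_α (s) = exp (s E_α)` -/
def xmat (M : ChevMod P κ) (p : ℕ) [Fact p.Prime] (α : ι) (s : ℚ_[p]) :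
    Matrix κ κ ℚ_[p] := IsNilpotent.exp (s • (M.E α).map (fun z : ℤ => (z : ℚ_[p])))

/-- the Chevalley group: the subgroup of `SL_κ(ℚ_p)` generated by the elements `x_α (s)` -/
def chevGroup (M : ChevMod P κ) (p : ℕ) [Fact p.Prime] : Subgroup (SpecialLinearGroup κ ℚ_[p]) :=
  Subgroup.closure {g | ∃ (α : ι) (s : ℚ_[p]), g.1 = xmat M p α s}

/-- the split maximal torus: the elements acting on the weight vectors through a homomorphism from
the character lattice to `ℚ_pˣ` -/
def torus (M : ChevMod P κ) (p : ℕ) [Fact p.Prime] : Subgroup (chevGroup M p) where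
  carrier := {t | ∃ τ : X → ℚ_[p]ˣ, (∀ a b, τ (a + b) = τ a * τ b) ∧
    t.1.1 = Matrix.diagonal fun i => (τ (M.wt i) : ℚ_[p])}
  mul_mem' := by
    rintro s t ⟨σ, hσ, hs⟩ ⟨τ, hτ, ht⟩
    refine ⟨fun a => σ a * τ a, fun a b => ?_, ?_⟩
    · show σ (a + b) * τ (a + b) = _
      rw [hσ, hτ]
      exact mul_mul_mul_comm _ _ _ _
    · show s.1.1 * t.1.1 = _
      rw [hs, ht, Matrix.diagonal_mul_diagonal]
      simp
  one_mem' := by
    refine ⟨fun _ => 1, fun _ _ => (one_mul 1).symm, ?_⟩
    show (1 : Matrix κ κ ℚ_[p]) = _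
    simp
  inv_mem' := by
    rintro t ⟨τ, hτ, ht⟩
    refine ⟨fun a => (τ a)⁻¹, fun a b => ?_, ?_⟩
    · show (τ (a + b))⁻¹ = _
      rw [hτ, mul_inv]
    · have h1 : t.1.1 * (t⁻¹).1.1 = 1 := by
        have h0 : t * t⁻¹ = 1 := mul_inv_cancel t
        exact congrArg (fun g : chevGroup M p => g.1.1) h0
      have h2 : (Matrix.diagonal fun i => (((τ (M.wt i))⁻¹ : ℚ_[p]ˣ) : ℚ_[p])) * t.1.1 = 1 := by
        rw [ht, Matrix.diagonal_mul_diagonal]
        simp
      calc (t⁻¹).1.1 = ((Matrix.diagonal fun i => (((τ (M.wt i))⁻¹ : ℚ_[p]ˣ) : ℚ_[p])) * t.1.1) *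
            (t⁻¹).1.1 := by rw [h2, one_mul]
        _ = _ := by rw [mul_assoc, h1, mul_one]

/-- the unipotent radical of the Borel subgroup: generated by the elements `x_α (s)`, `α` positive -/
def unip (M : ChevMod P κ) (b : P.Base) (p : ℕ) [Fact p.Prime] : Subgroup (chevGroup M p) :=
  Subgroup.closure {g | ∃ (α : ι) (s : ℚ_[p]), b.IsPos α ∧ g.1.1 = xmat M p α s}

end

end

end Pool.Agent.Lib.MP_f399a8_nt.G
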