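import Pool.Agent.Lib.MP_f399a8_ntG.Def

/-!
# Continuous principal series of Chevalley groups over `ℚ_p`: definitions
-/

namespace Pool.Agent.Lib.MP_f399a8_nt.G

open Matrix

noncomputable section

variable {ι X Y : Type*} [Finite ι] [AddCommGroup X] [AddCommGroup Y]
  {P : RootPairing ι ℤ X Y} {κ : Type*} [Fintype κ] [DecidableEq κ]
  {p : ℕ} [Fact p.Prime] {C : Type*} [NormedField C]

/-- `f` is in the continuous induction of the character `χ` of the torus from the Borel subgroup `T U` given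
by the base `b` -/
def IsPS (M : ChevMod P κ) (b : P.Base) (χ : ↥(torus M p) →* Cˣ) (f : ↥(chevGroup M p) → C) :
    Prop :=
  Continuous f ∧ ∀ (t : ↥(torus M p)) (u : ↥(unip M b p)) (g : ↥(chevGroup M p)),
    f (t.1 * u.1 * g) = (χ t : C) * f g

/-- `g` has integral entries -/
def IsIntegral (M : ChevMod P κ) (g : ↥(chevGroup M p)) : Prop := ∀ i j, ‖g.1.1 i j‖ ≤ 1

/-- closed invariant subspaces of the continuous induction (for the supremum norm over the integral points) -/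
structure IsClosedSubrep (M : ChevMod P κ) (b : P.Base) (χ : ↥(torus M p) →* Cˣ)
    (W : Set (↥(chevGroup M p) → C)) : Prop where
  isPS : ∀ f ∈ W, IsPS M b χ f
  zero : (fun _ => 0) ∈ W
  add : ∀ f ∈ W, ∀ f' ∈ W, (fun x => f x + f' x) ∈ W
  smul : ∀ c : C, ∀ f ∈ W, (fun x => c * f x) ∈ W
  trans : ∀ g : ↥(chevGroup M p), ∀ f ∈ W, (fun x => f (x * g)) ∈ W
  closed : ∀ f, IsPS M b χ f →
    (∀ ε : ℝ, 0 < ε → ∃ w ∈ W, ∀ x, IsIntegral M x → ‖f x - w x‖ ≤ ε) → f ∈ W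

/-- the continuous induction has a closed invariant subspace different from `0` and from itself -/
def IsReducible (M : ChevMod P κ) (b : P.Base) (χ : ↥(torus M p) →* Cˣ) : Prop :=
  ∃ W : Set (↥(chevGroup M p) → C), IsClosedSubrep M b χ W ∧ (∃ f ∈ W, ∃ x, f x ≠ 0) ∧
    ∃ f, IsPS M b χ f ∧ f ∉ W

/-- Schneider's condition: with `ρ` the half-sum of the positive roots, there are a positive root `α` and an
integer `a ≤ 0` with `χ (α^∨ (x)) ρ (α^∨ (x))⁻¹ = x⁻¹ x ^ a` for all `x` -/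
def SchneiderCond [NormedAlgebra ℚ_[p] C] (M : ChevMod P κ) (b : P.Base)
    (χ : ↥(torus M p) →* Cˣ) : Prop :=
  ∃ ρ : X, (2 : ℤ) • ρ = ∑ᶠ β ∈ {β | b.IsPos β}, P.root β ∧
    ∃ α, b.IsPos α ∧ ∃ a : ℤ, a ≤ 0 ∧ ∀ x : ℚ_[p]ˣ, ∃ t : ↥(torus M p),
      (t.1.1.1 = Matrix.diagonal fun i =>
        ((x ^ (P.toLinearMap (M.wt i) (P.coroot α)) : ℚ_[p]ˣ) : ℚ_[p])) ∧
      (χ t : C) * ((algebraMap ℚ_[p] C (x : ℚ_[p])) ^ (P.toLinearMap ρ (P.coroot α)))⁻¹ =
        (algebraMap ℚ_[p] C (x : ℚ_[p]))⁻¹ * (algebraMap ℚ_[p] C (x : ℚ_[p])) ^ a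

end

end Pool.Agent.Lib.MP_f399a8_nt.G
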