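import Mathlib

/-!
# Continuous principal series of Chevalley groups over `ℚ_p`: definitions
-/

namespace Pool.Agent.Lib.MP_f399a8_nt.G3

open Matrix

noncomputable section

/-- the group `SL_κ(ℚ_p)` -/
def SL (p : ℕ) [Fact p.Prime] (κ : Type*) [Fintype κ] [DecidableEq κ] : Type _ :=
  SpecialLinearGroup κ ℚ_[p]

instance slGroup (p : ℕ) [Fact p.Prime] (κ : Type*) [Fintype κ] [DecidableEq κ] :
    Group (SL p κ) :=
  inferInstanceAs (Group (SpecialLinearGroup κ ℚ_[p]))

instance slTop (p : ℕ) [Fact p.Prime] (κ : Type*) [Fintype κ] [DecidableEq κ] :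
    TopologicalSpace (SL p κ) :=
  inferInstanceAs (TopologicalSpace (SpecialLinearGroup κ ℚ_[p]))

/-- the commutator of two integral matrices -/
def bracket {κ : Type*} [Fintype κ] (A B : Matrix κ κ ℤ) : Matrix κ κ ℤ := A * B - B * A

section

variable {ι X Y : Type*} [AddCommGroup X] [AddCommGroup Y]

/-- the root `γ` is the sum of the roots `α` and `β` -/
def IsSum (P : RootPairing ι ℤ X Y) (α β γ : ι) : Prop := P.root γ = P.root α + P.root β

/-- the root `β` is the negative of the root `α` -/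
def IsNeg (P : RootPairing ι ℤ X Y) (α β : ι) : Prop := P.root β = -P.root α

/-- `r + 1`, where `r` is the largest integer such that `β - r α` is a root -/
def chain [Finite ι] (P : RootPairing ι ℤ X Y) (α β : ι) : ℤ := (P.chainBotCoeff α β : ℤ) + 1

/-- A Chevalley basis of the split semisimple Lie algebra with root datum `P`, acting on an admissible
lattice `ℤ^κ`, whose standard basis consists of weight vectors, such that the weights generate the
character lattice `X`: `wt i` is the weight of the basis vector `i` and the integral matrix `E α` is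
the action of the root vector of the root `α`. -/
structure ChevMod [Finite ι] (P : RootPairing ι ℤ X Y) (κ : Type*) [Fintype κ]
    [DecidableEq κ] where
  wt : κ → X
  E : ι → Matrix κ κ ℤ
  wt_span : AddSubgroup.closure (Set.range wt) = ⊤
  E_wt : ∀ α i j, E α i j ≠ 0 → wt i = P.root α + wt j
  E_neg : ∀ α β, IsNeg P α β →
    bracket (E α) (E β) = Matrix.diagonal fun i => P.toLinearMap (wt i) (P.coroot α)
  E_add : ∀ α β γ, IsSum P α β γ →
    bracket (E α) (E β) = chain P α β • E γ ∨ bracket (E α) (E β) = -(chain P α β • E γ)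
  E_comm : ∀ α β, ¬ IsNeg P α β → (∀ γ, ¬ IsSum P α β γ) → bracket (E α) (E β) = 0
  E_div : ∀ α (k : ℕ), ∃ A : Matrix κ κ ℤ, E α ^ k = (k.factorial : ℤ) • A

end

variable {ι X Y : Type*} [Finite ι] [AddCommGroup X] [AddCommGroup Y]
  {P : RootPairing ι ℤ X Y} {κ : Type*} [Fintype κ] [DecidableEq κ]

/-- `x_α (s) = exp (s E_α)` -/
def xmat (M : ChevMod P κ) (p : ℕ) [Fact p.Prime] (α : ι) (s : ℚ_[p]) :
    Matrix κ κ ℚ_[p] := IsNilpotent.exp (s • (M.E α).map (fun z : ℤ => (z : ℚ_[p])))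

/-- the Chevalley group: the subgroup of `SL_κ(ℚ_p)` generated by the elements `x_α (s)` -/
def chevGroup (M : ChevMod P κ) (p : ℕ) [Fact p.Prime] : Subgroup (SL p κ) :=
  Subgroup.closure {g | ∃ (α : ι) (s : ℚ_[p]), g.1 = xmat M p α s}

/-- the group `G` of the elements of the Chevalley group -/
def GG (M : ChevMod P κ) (p : ℕ) [Fact p.Prime] : Type _ := ↥(chevGroup M p)

instance ggGroup (M : ChevMod P κ) (p : ℕ) [Fact p.Prime] : Group (GG M p) :=
  inferInstanceAs (Group ↥(chevGroup M p))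

instance ggTop (M : ChevMod P κ) (p : ℕ) [Fact p.Prime] : TopologicalSpace (GG M p) :=
  inferInstanceAs (TopologicalSpace ↥(chevGroup M p))

/-- the matrix of an element of `G` -/
def mat {M : ChevMod P κ} {p : ℕ} [Fact p.Prime] (g : GG M p) : Matrix κ κ ℚ_[p] := g.1.1

/-- `t` acts on the weight vectors through a homomorphism from the character lattice to `ℚ_pˣ` -/
def IsTorus {M : ChevMod P κ} {p : ℕ} [Fact p.Prime] (t : GG M p) : Prop :=
  ∃ τ : X → ℚ_[p]ˣ, (∀ a b, τ (a + b) = τ a * τ b) ∧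
    mat t = Matrix.diagonal fun i => (τ (M.wt i) : ℚ_[p])

theorem torus_mul {M : ChevMod P κ} {p : ℕ} [Fact p.Prime] {s t : GG M p} (hs : IsTorus s)
    (ht : IsTorus t) : IsTorus (s * t) := by
  obtain ⟨σ, hσ, hs⟩ := hs
  obtain ⟨τ, hτ, ht⟩ := ht
  refine ⟨fun a => σ a * τ a, fun a b => ?_, ?_⟩
  · show σ (a + b) * τ (a + b) = _
    rw [hσ, hτ]
    exact mul_mul_mul_comm _ _ _ _
  · show mat s * mat t = _
    rw [hs, ht, Matrix.diagonal_mul_diagonal]
    simp

theorem torus_one {M : ChevMod P κ} {p : ℕ} [Fact p.Prime] : IsTorus (1 : GG M p) := by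
  refine ⟨fun _ => 1, fun _ _ => (one_mul 1).symm, ?_⟩
  show (1 : Matrix κ κ ℚ_[p]) = _
  simp

theorem torus_inv {M : ChevMod P κ} {p : ℕ} [Fact p.Prime] {t : GG M p} (ht : IsTorus t) :
    IsTorus t⁻¹ := by
  obtain ⟨τ, hτ, ht⟩ := ht
  refine ⟨fun a => (τ a)⁻¹, fun a b => ?_, ?_⟩
  · show (τ (a + b))⁻¹ = _
    rw [hτ, mul_inv]
  · have h1 : mat t * mat t⁻¹ = 1 := by
      have h0 : t * t⁻¹ = 1 := mul_inv_cancel t
      exact congrArg (fun g : GG M p => mat g) h0
    have h2 : (Matrix.diagonal fun i => (((τ (M.wt i))⁻¹ : ℚ_[p]ˣ) : ℚ_[p])) * mat t = 1 := by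
      rw [ht, Matrix.diagonal_mul_diagonal]
      simp
    calc mat t⁻¹ = ((Matrix.diagonal fun i => (((τ (M.wt i))⁻¹ : ℚ_[p]ˣ) : ℚ_[p])) * mat t) *
          mat t⁻¹ := by rw [h2, one_mul]
      _ = _ := by rw [mul_assoc, h1, mul_one]

/-- the split maximal torus -/
def torus (M : ChevMod P κ) (p : ℕ) [Fact p.Prime] : Subgroup (GG M p) where
  carrier := {t | IsTorus t}
  mul_mem' := torus_mul
  one_mem' := torus_one
  inv_mem' := torus_inv

/-- the group `T` of the elements of the torus -/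
def TT (M : ChevMod P κ) (p : ℕ) [Fact p.Prime] : Type _ := ↥(torus M p)

instance ttGroup (M : ChevMod P κ) (p : ℕ) [Fact p.Prime] : Group (TT M p) :=
  inferInstanceAs (Group ↥(torus M p))

instance ttTop (M : ChevMod P κ) (p : ℕ) [Fact p.Prime] : TopologicalSpace (TT M p) :=
  inferInstanceAs (TopologicalSpace ↥(torus M p))

/-- the inclusion of `T` in `G` -/
def inc {M : ChevMod P κ} {p : ℕ} [Fact p.Prime] (t : TT M p) : GG M p := t.1

/-- the unipotent radical of the Borel subgroup: generated by the elements `x_α (s)`, `α` positive -/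
def unip (M : ChevMod P κ) (b : P.Base) (p : ℕ) [Fact p.Prime] : Subgroup (GG M p) :=
  Subgroup.closure {g | ∃ (α : ι) (s : ℚ_[p]), b.IsPos α ∧ mat g = xmat M p α s}

variable {p : ℕ} [Fact p.Prime] {C : Type*} [NormedField C]

/-- `f` is in the continuous induction of the character `χ` of the torus from the Borel subgroup `T U` given
by the base `b` -/
def IsPS (M : ChevMod P κ) (b : P.Base) (χ : TT M p →* Cˣ) (f : GG M p → C) : Prop :=
  Continuous f ∧ ∀ (t : TT M p), ∀ u ∈ unip M b p, ∀ g : GG M p,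
    f (inc t * u * g) = (χ t : C) * f g

/-- `g` has integral entries -/
def IsIntegral {M : ChevMod P κ} (g : GG M p) : Prop := ∀ i j, ‖mat g i j‖ ≤ 1

/-- closed invariant subspaces of the continuous induction (for the supremum norm over the integral points) -/
structure IsClosedSubrep (M : ChevMod P κ) (b : P.Base) (χ : TT M p →* Cˣ)
    (W : Set (GG M p → C)) : Prop where
  isPS : ∀ f ∈ W, IsPS M b χ f
  zero : (fun _ => 0) ∈ W
  add : ∀ f ∈ W, ∀ f' ∈ W, (fun x => f x + f' x) ∈ W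
  smul : ∀ c : C, ∀ f ∈ W, (fun x => c * f x) ∈ W
  trans : ∀ g : GG M p, ∀ f ∈ W, (fun x => f (x * g)) ∈ W
  closed : ∀ f, IsPS M b χ f →
    (∀ ε : ℝ, 0 < ε → ∃ w ∈ W, ∀ x, IsIntegral x → ‖f x - w x‖ ≤ ε) → f ∈ W

/-- the continuous induction has a closed invariant subspace different from `0` and from itself -/
def IsReducible (M : ChevMod P κ) (b : P.Base) (χ : TT M p →* Cˣ) : Prop :=
  ∃ W : Set (GG M p → C), IsClosedSubrep M b χ W ∧ (∃ f ∈ W, ∃ x, f x ≠ 0) ∧
    ∃ f, IsPS M b χ f ∧ f ∉ W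

/-- `2 ρ` is the sum of the positive roots -/
def IsHalfSum (b : P.Base) (ρ : X) : Prop :=
  (2 : ℤ) • ρ = ∑ᶠ β ∈ {β | b.IsPos β}, P.root β

/-- `t = α^∨ (x)`: the element of the torus acting on the weight vectors by `x ^ ⟨wt i, α^∨⟩` -/
def IsCorootValue (M : ChevMod P κ) (α : ι) (x : ℚ_[p]ˣ) (t : TT M p) : Prop :=
  mat (inc t) = Matrix.diagonal fun i =>
    ((x ^ (P.toLinearMap (M.wt i) (P.coroot α)) : ℚ_[p]ˣ) : ℚ_[p])

/-- `x ^ k` as an element of `C` -/
def powC (C : Type*) [NormedField C] [NormedAlgebra ℚ_[p] C] (x : ℚ_[p]ˣ) (k : ℤ) : C :=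
  algebraMap ℚ_[p] C ((x ^ k : ℚ_[p]ˣ) : ℚ_[p])

/-- Schneider's condition: with `ρ` the half-sum of the positive roots, there are a positive root `α` and an
integer `a ≤ 0` with `χ (α^∨ (x)) ρ (α^∨ (x))⁻¹ = x⁻¹ x ^ a` for all `x` -/
def SchneiderCond [NormedAlgebra ℚ_[p] C] (M : ChevMod P κ) (b : P.Base)
    (χ : TT M p →* Cˣ) : Prop :=
  ∃ ρ : X, IsHalfSum b ρ ∧ ∃ α, b.IsPos α ∧ ∃ a : ℤ, a ≤ 0 ∧ ∀ x : ℚ_[p]ˣ, ∃ t : TT M p,
    IsCorootValue M α x t ∧
      (χ t : C) * powC C x (-(P.toLinearMap ρ (P.coroot α))) = powC C x (-1) * powC C x a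

/-- the character with values in an extension of `C` -/
def extend {C' : Type*} [NormedField C'] [NormedAlgebra C C'] {M : ChevMod P κ}
    (χ : TT M p →* Cˣ) : TT M p →* C'ˣ :=
  (Units.map (algebraMap C C' : C →* C')).comp χ

end

end Pool.Agent.Lib.MP_f399a8_nt.G3
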