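import Mathlib

/-!
# Conjugation by exponentials of nilpotent elements

PROOF.  Let `L v = a * v`, `R v = v * a` in `Module.End ℚ A`; they commute and are nilpotent (`ha`), so
`IsNilpotent.exp (L - R) = exp L * exp (-R)` (`IsNilpotent.exp_add_of_commute`), and `exp L v = exp a * v`,
`exp (-R) v = v * exp (-a)` (`IsNilpotent.map_exp` for the ring homs `A → End` and `Aᵐᵒᵖ → End`, or expand the finite sums with
`exp_eq_sum`).  So `exp a * v * exp (-a) = ∑_k (1 / k!) (ad a)^k v` (finite sum), `ad a v = a * v - v * a`.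
* `conj_mem`: every `(ad a)^k v` is in `V`.  `conj_sub_mem`: the terms with `k ≥ 1` are in `V'`.
* `conj_two`, `conj_three`: only the terms `k = 0, 1` (resp. `0, 1, 2`) are not zero.
* `exp_conj`: `(g * a * g')^k = g * a^k * g'`; take `k` large in `exp_eq_sum`.
-/

namespace Pool.Agent.Lib.MP_f399a8_nt.G

variable {A : Type*} [Ring A] [Algebra ℚ A]

/-- the map `v ↦ a * v - v * a` -/
noncomputable def Ex1_D (a : A) : Module.End ℚ A := LinearMap.mulLeft ℚ a - LinearMap.mulRight ℚ a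

theorem Ex1_D_apply (a v : A) : Ex1_D a v = a * v - v * a := rfl

theorem Ex1_left {a : A} (ha : IsNilpotent a) (v : A) :
    IsNilpotent.exp (LinearMap.mulLeft ℚ a) v = IsNilpotent.exp a * v := by
  obtain ⟨k, hk⟩ := ha
  have h1 : (LinearMap.mulLeft ℚ a) ^ k = 0 := by
    rw [LinearMap.pow_mulLeft, hk]
    exact LinearMap.mulLeft_zero_eq_zero ℚ A
  rw [IsNilpotent.exp_eq_sum h1, IsNilpotent.exp_eq_sum hk, Finset.sum_mul,
    LinearMap.sum_apply]
  refine Finset.sum_congr rfl fun i _ => ?_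
  rw [LinearMap.smul_apply, LinearMap.pow_mulLeft, LinearMap.mulLeft_apply, smul_mul_assoc]

theorem Ex1_right {a : A} (ha : IsNilpotent a) (v : A) :
    IsNilpotent.exp (LinearMap.mulRight ℚ a) v = v * IsNilpotent.exp a := by
  obtain ⟨k, hk⟩ := ha
  have h1 : (LinearMap.mulRight ℚ a) ^ k = 0 := by
    rw [LinearMap.pow_mulRight, hk]
    exact LinearMap.mulRight_zero_eq_zero ℚ A
  rw [IsNilpotent.exp_eq_sum h1, IsNilpotent.exp_eq_sum hk, Finset.mul_sum,
    LinearMap.sum_apply]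
  refine Finset.sum_congr rfl fun i _ => ?_
  rw [LinearMap.smul_apply, LinearMap.pow_mulRight, LinearMap.mulRight_apply, mul_smul_comm]

theorem Ex1_main {a : A} (ha : IsNilpotent a) : ∃ K : ℕ, ∀ n : ℕ, K ≤ n → ∀ v : A,
    IsNilpotent.exp a * v * IsNilpotent.exp (-a)
      = ∑ k ∈ Finset.range n, ((k.factorial : ℚ)⁻¹) • ((Ex1_D a) ^ k) v := by
  have hL : IsNilpotent (LinearMap.mulLeft ℚ a) := (LinearMap.isNilpotent_mulLeft_iff ℚ a).mpr ha
  have hR : IsNilpotent (LinearMap.mulRight ℚ (-a)) :=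
    (LinearMap.isNilpotent_mulRight_iff ℚ (-a)).mpr ha.neg
  have hc : Commute (LinearMap.mulLeft ℚ a) (LinearMap.mulRight ℚ (-a)) :=
    LinearMap.commute_mulLeft_right a (-a)
  have hD : Ex1_D a = LinearMap.mulLeft ℚ a + LinearMap.mulRight ℚ (-a) := by
    ext v
    rw [Ex1_D_apply, LinearMap.add_apply, LinearMap.mulLeft_apply, LinearMap.mulRight_apply,
      mul_neg, sub_eq_add_neg]
  have hDn : IsNilpotent (Ex1_D a) := by
    rw [hD]
    exact hc.isNilpotent_add hL hR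
  obtain ⟨K, hK⟩ := hDn
  refine ⟨K, fun n hn v => ?_⟩
  have h1 : (Ex1_D a) ^ n = 0 := pow_eq_zero_of_le hn hK
  have h2 : IsNilpotent.exp (Ex1_D a) v
      = ∑ k ∈ Finset.range n, ((k.factorial : ℚ)⁻¹) • ((Ex1_D a) ^ k) v := by
    rw [IsNilpotent.exp_eq_sum h1, LinearMap.sum_apply]
    rfl
  rw [← h2, hD, IsNilpotent.exp_add_of_commute hc hL hR, Module.End.mul_apply,
    Ex1_right ha.neg, Ex1_left ha, mul_assoc]

theorem Ex1_pow_succ (a v : A) (k : ℕ) :
    ((Ex1_D a) ^ (k + 1)) v = ((Ex1_D a) ^ k) (a * v - v * a) := by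
  rw [pow_succ, Module.End.mul_apply, Ex1_D_apply]

theorem Ex1_pow_mem {a : A} (V : Submodule ℚ A) (hV : ∀ v ∈ V, a * v - v * a ∈ V) (k : ℕ) :
    ∀ v ∈ V, ((Ex1_D a) ^ k) v ∈ V := by
  induction k with
  | zero => intro v hv; exact hv
  | succ k ih =>
    intro v hv
    rw [Ex1_pow_succ]
    exact ih _ (hV v hv)

theorem conj_mem {a : A} (ha : IsNilpotent a) (V : Submodule ℚ A)
    (hV : ∀ v ∈ V, a * v - v * a ∈ V) {v : A} (hv : v ∈ V) :
    IsNilpotent.exp a * v * IsNilpotent.exp (-a) ∈ V := by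
  obtain ⟨K, hK⟩ := Ex1_main ha
  rw [hK K le_rfl v]
  exact V.sum_mem fun k _ => V.smul_mem _ (Ex1_pow_mem V hV k v hv)

theorem conj_sub_mem {a : A} (ha : IsNilpotent a) (V : Submodule ℚ A)
    (hV : ∀ v ∈ V, a * v - v * a ∈ V) {v : A} (hv : a * v - v * a ∈ V) :
    IsNilpotent.exp a * v * IsNilpotent.exp (-a) - v ∈ V := by
  obtain ⟨K, hK⟩ := Ex1_main ha
  rw [hK (K + 1) (Nat.le_succ K) v, Finset.sum_range_succ']
  simp only [Nat.factorial_zero, Nat.cast_one, inv_one, one_smul, pow_zero, Module.End.one_apply,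
    add_sub_cancel_right]
  refine V.sum_mem fun k _ => V.smul_mem _ ?_
  rw [Ex1_pow_succ]
  exact Ex1_pow_mem V hV k _ hv

theorem conj_two {a v w : A} (ha : IsNilpotent a) (h1 : a * v - v * a = w)
    (h2 : a * w - w * a = 0) : IsNilpotent.exp a * v * IsNilpotent.exp (-a) = v + w := by
  obtain ⟨K, hK⟩ := Ex1_main ha
  rw [hK (K + 2) (by omega) v, Finset.sum_range_succ', Finset.sum_range_succ']
  have h3 : ∑ k ∈ Finset.range K, (((k + 1 + 1).factorial : ℚ)⁻¹) • ((Ex1_D a) ^ (k + 1 + 1)) v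
      = 0 := by
    refine Finset.sum_eq_zero fun k _ => ?_
    rw [Ex1_pow_succ, Ex1_pow_succ, h1, h2, map_zero, smul_zero]
  rw [h3, Ex1_pow_succ, h1]
  simp [add_comm]

theorem conj_three {a v w u : A} (ha : IsNilpotent a) (h1 : a * v - v * a = w)
    (h2 : a * w - w * a = u) (h3 : a * u - u * a = 0) :
    IsNilpotent.exp a * v * IsNilpotent.exp (-a) = v + w + (1 / 2 : ℚ) • u := by
  obtain ⟨K, hK⟩ := Ex1_main ha
  rw [hK (K + 3) (by omega) v, Finset.sum_range_succ', Finset.sum_range_succ',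
    Finset.sum_range_succ']
  have h4 : ∑ k ∈ Finset.range K, (((k + 1 + 1 + 1).factorial : ℚ)⁻¹)
      • ((Ex1_D a) ^ (k + 1 + 1 + 1)) v = 0 := by
    refine Finset.sum_eq_zero fun k _ => ?_
    rw [Ex1_pow_succ, Ex1_pow_succ, Ex1_pow_succ, h1, h2, h3, map_zero, smul_zero]
  rw [h4, Ex1_pow_succ, Ex1_pow_succ, Ex1_pow_succ, h1, h2]
  simp only [zero_add, Nat.factorial, pow_zero, Module.End.one_apply]
  norm_num
  abel

theorem exp_conj {a g g' : A} (ha : IsNilpotent a) (h : g' * g = 1) :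
    g * IsNilpotent.exp a * g' = IsNilpotent.exp (g * a * g') + (g * g' - 1) := by
  obtain ⟨K, hK⟩ := ha
  have hpow : ∀ k : ℕ, (g * a * g') ^ (k + 1) = g * a ^ (k + 1) * g' := by
    intro k
    induction k with
    | zero => simp
    | succ k ih =>
      rw [pow_succ, ih]
      calc g * a ^ (k + 1) * g' * (g * a * g')
          = g * a ^ (k + 1) * (g' * g) * a * g' := by simp only [mul_assoc]
        _ = g * a ^ (k + 1 + 1) * g' := by
          rw [h, mul_one, pow_succ a (k + 1)]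
          simp only [mul_assoc]
  have h1 : a ^ (K + 1) = 0 := pow_eq_zero_of_le (Nat.le_succ K) hK
  have h2 : (g * a * g') ^ (K + 1) = 0 := by
    rw [hpow, h1, mul_zero, zero_mul]
  rw [IsNilpotent.exp_eq_sum h1, IsNilpotent.exp_eq_sum h2, Finset.sum_range_succ',
    Finset.sum_range_succ' (fun i => ((i.factorial : ℚ)⁻¹) • (g * a * g') ^ i), mul_add, add_mul,
    Finset.mul_sum, Finset.sum_mul]
  have h3 : ∑ i ∈ Finset.range K, g * (((i + 1).factorial : ℚ)⁻¹ • a ^ (i + 1)) * g'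
      = ∑ i ∈ Finset.range K, ((i + 1).factorial : ℚ)⁻¹ • (g * a * g') ^ (i + 1) := by
    refine Finset.sum_congr rfl fun i _ => ?_
    rw [hpow, mul_smul_comm, smul_mul_assoc]
  rw [h3]
  simp only [Nat.factorial_zero, Nat.cast_one, inv_one, one_smul, pow_zero, mul_one]
  abel

theorem exp_conj' {a g g' : A} (ha : IsNilpotent a) (h : g' * g = 1) (h' : g * g' = 1) :
    g * IsNilpotent.exp a * g' = IsNilpotent.exp (g * a * g') := by
  rw [exp_conj ha h, h', sub_self, add_zero]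

end Pool.Agent.Lib.MP_f399a8_nt.G
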