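import Pool.Agent.Lib.MP_f399a8_ntG.Ex1

/-!
# Nilpotent matrices, matrices of polynomials

PROOF.
* `gr_pow`: if `A i j ≠ 0 → f j + 1 ≤ f i`, then `(A^k) i j ≠ 0 → f j + k ≤ f i` (induction).
* `gr_nil`: a nonzero entry `(A^n) i j` gives a chain `i = i_0, i_1, …, i_n = j` with `A i_l i_{l+1} ≠ 0`, so
  `f i_0 > f i_1 > …`: `n + 1` different indices.  Or: choose `K` with `f i - f j < K` for all `i, j`; then
  `A ^ K = 0` by `gr_pow`.  (For `gr_nilpotent` any exponent suffices.)
* `dM`: entrywise derivative.  `dM_mul`: `Polynomial.derivative_mul` in each entry of the product.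
* `dM_exp`: `exp (g • B) = ∑_{k < K} (1 / k!) g^k • B^k` (finite sum, `(g • B)^K = 0`), derivative term by term:
  `∑ (1 / k!) k g^(k-1) g' • B^k = (g' • B) * ∑ (1 / (k-1)!) g^(k-1) • B^(k-1)`, and `B^K = 0`.
* `ev`: evaluation of the entries at `t` is a ring hom (`RingHom.mapMatrix (Polynomial.evalRingHom t)`), `ev_exp` is
  `IsNilpotent.map_exp`.
* `ode_const`: if all entries have derivative `0` they are constant (characteristic zero), so the values at `1` and `0`
  agree.
* `int_exists`: integration of polynomials.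
-/

namespace Pool.Agent.Lib.MP_f399a8_nt.G

open Matrix Polynomial

noncomputable section

variable {n : ℕ}

theorem gr_pow {R : Type*} [CommRing R] {A : Matrix (Fin n) (Fin n) R} {f : Fin n → ℤ}
    (h : ∀ i j, A i j ≠ 0 → f j + 1 ≤ f i) (k : ℕ) (i j : Fin n) (hk : (A ^ k) i j ≠ 0) :
    f j + k ≤ f i := by
  induction k generalizing j with
  | zero =>
    rw [pow_zero] at hk
    have hij : i = j := by
      by_contra hne
      exact hk (Matrix.one_apply_ne hne)
    rw [hij]
    simp
  | succ k ih =>
    rw [pow_succ, Matrix.mul_apply] at hk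
    obtain ⟨l, -, hl⟩ := Finset.exists_ne_zero_of_sum_ne_zero hk
    have h1 := ih l (left_ne_zero_of_mul hl)
    have h2 := h l j (right_ne_zero_of_mul hl)
    push_cast
    linarith

theorem gr_nil {R : Type*} [CommRing R] {A : Matrix (Fin n) (Fin n) R} {f : Fin n → ℤ}
    (h : ∀ i j, A i j ≠ 0 → f j < f i) : A ^ n = 0 := by
  ext i j
  by_contra hne
  have h1 : ∀ i j, A i j ≠ 0 →
      (((Finset.univ.filter fun l => f l < f j).card : ℕ) : ℤ) + 1 ≤
        (((Finset.univ.filter fun l => f l < f i).card : ℕ) : ℤ) := by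
    intro i j hij
    have h2 := h i j hij
    have h3 : (Finset.univ.filter fun l => f l < f j).card <
        (Finset.univ.filter fun l => f l < f i).card := by
      refine Finset.card_lt_card (Finset.ssubset_iff_subset_ne.2 ⟨fun l hl => ?_, fun he => ?_⟩)
      · rw [Finset.mem_filter] at hl ⊢
        exact ⟨hl.1, hl.2.trans h2⟩
      · have h4 : j ∈ Finset.univ.filter fun l => f l < f i :=
          Finset.mem_filter.2 ⟨Finset.mem_univ _, h2⟩
        rw [← he, Finset.mem_filter] at h4
        exact lt_irrefl _ h4.2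
    omega
  have h5 := gr_pow (f := fun i => (((Finset.univ.filter fun l => f l < f i).card : ℕ) : ℤ)) h1 n i j
    hne
  have h6 : (Finset.univ.filter fun l => f l < f i).card < n := by
    have h7 : (Finset.univ.filter fun l => f l < f i).card < (Finset.univ : Finset (Fin n)).card := by
      refine Finset.card_lt_card (Finset.ssubset_iff_subset_ne.2 ⟨Finset.filter_subset _ _,
        fun he => ?_⟩)
      have h8 : i ∈ Finset.univ.filter fun l => f l < f i := by
        rw [he]
        exact Finset.mem_univ _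
      rw [Finset.mem_filter] at h8
      exact lt_irrefl _ h8.2
    rwa [Finset.card_univ, Fintype.card_fin] at h7
  omega

theorem gr_nilpotent {R : Type*} [CommRing R] {A : Matrix (Fin n) (Fin n) R} {f : Fin n → ℤ}
    (h : ∀ i j, A i j ≠ 0 → f j < f i) : IsNilpotent A :=
  ⟨n, gr_nil h⟩

variable {K : Type*} [Field K] [CharZero K]

/-- entrywise derivative -/
def dM (A : Matrix (Fin n) (Fin n) K[X]) : Matrix (Fin n) (Fin n) K[X] :=
  A.map fun q => Polynomial.derivative q

/-- evaluation of the entries -/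
def ev (t : K) : Matrix (Fin n) (Fin n) K[X] →+* Matrix (Fin n) (Fin n) K :=
  (Polynomial.evalRingHom t).mapMatrix

theorem ev_apply (t : K) (A : Matrix (Fin n) (Fin n) K[X]) (i j : Fin n) :
    ev t A i j = (A i j).eval t := rfl

theorem dM_mul (A B : Matrix (Fin n) (Fin n) K[X]) : dM (A * B) = dM A * B + A * dM B := by
  refine Matrix.ext fun i j => ?_
  unfold dM
  rw [Matrix.map_apply, Matrix.mul_apply, Polynomial.derivative_sum, Matrix.add_apply,
    Matrix.mul_apply, Matrix.mul_apply, ← Finset.sum_add_distrib]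
  refine Finset.sum_congr rfl fun l _ => ?_
  rw [Polynomial.derivative_mul, Matrix.map_apply, Matrix.map_apply]

theorem nil_map {B : Matrix (Fin n) (Fin n) K} (hB : IsNilpotent B) (g : K[X]) :
    IsNilpotent (g • B.map (C : K → K[X])) := by
  have h1 : IsNilpotent ((RingHom.mapMatrix (m := Fin n) (Polynomial.C : K →+* K[X])) B) :=
    hB.map (RingHom.mapMatrix (m := Fin n) (Polynomial.C : K →+* K[X]))
  have h2 : (RingHom.mapMatrix (m := Fin n) (Polynomial.C : K →+* K[X])) B =
      B.map (C : K → K[X]) := rfl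
  rw [h2] at h1
  obtain ⟨k, hk⟩ := h1
  exact ⟨k, by rw [_root_.smul_pow, hk, smul_zero]⟩

/-- the derivative as an additive map -/
private def Ex2_d : Matrix (Fin n) (Fin n) K[X] →+ Matrix (Fin n) (Fin n) K[X] where
  toFun := dM
  map_zero' := by
    refine Matrix.ext fun i j => ?_
    unfold dM
    rw [Matrix.map_apply, Matrix.zero_apply, Polynomial.derivative_zero]
  map_add' A B := by
    refine Matrix.ext fun i j => ?_
    unfold dM
    rw [Matrix.map_apply, Matrix.add_apply, Polynomial.derivative_add]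
    rfl

private theorem Ex2_one : dM (1 : Matrix (Fin n) (Fin n) K[X]) = 0 := by
  refine Matrix.ext fun i j => ?_
  unfold dM
  rw [Matrix.map_apply, Matrix.zero_apply, Matrix.one_apply]
  split_ifs
  · exact Polynomial.derivative_one
  · exact Polynomial.derivative_zero

private theorem Ex2_smul (B : Matrix (Fin n) (Fin n) K) (g : K[X]) :
    dM (g • B.map (C : K → K[X])) = derivative g • B.map (C : K → K[X]) := by
  refine Matrix.ext fun i j => ?_
  unfold dM
  rw [Matrix.map_apply, Matrix.smul_apply, Matrix.smul_apply, Matrix.map_apply, smul_eq_mul,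
    smul_eq_mul, Polynomial.derivative_mul, Polynomial.derivative_C, mul_zero, add_zero]

private theorem Ex2_pow {a : Matrix (Fin n) (Fin n) K[X]} (h : a * dM a = dM a * a) (k : ℕ) :
    dM (a ^ (k + 1)) = (k + 1) • (dM a * a ^ k) := by
  induction k with
  | zero => rw [zero_add, pow_one, pow_zero, mul_one, one_smul]
  | succ k ih =>
    have h1 : a ^ (k + 1) * dM a = dM a * a ^ (k + 1) :=
      (Commute.pow_left (show Commute a (dM a) from h) (k + 1)).eq
    rw [pow_succ a (k + 1), dM_mul, ih, h1, smul_mul_assoc, mul_assoc, ← pow_succ, succ_nsmul _ (k + 1)]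

theorem dM_exp {B : Matrix (Fin n) (Fin n) K} (hB : IsNilpotent B) (g : K[X]) :
    dM (IsNilpotent.exp (g • B.map (C : K → K[X]))) =
      (derivative g • B.map (C : K → K[X])) * IsNilpotent.exp (g • B.map (C : K → K[X])) := by
  obtain ⟨k, hk⟩ := nil_map hB g
  rw [← Ex2_smul B g]
  have hcomm : (g • B.map (C : K → K[X])) * dM (g • B.map (C : K → K[X])) =
      dM (g • B.map (C : K → K[X])) * (g • B.map (C : K → K[X])) := by
    rw [Ex2_smul, smul_mul_smul_comm, smul_mul_smul_comm, mul_comm g]
  generalize g • B.map (C : K → K[X]) = a at hk hcomm ⊢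
  have hk1 : a ^ (k + 1) = 0 := by rw [pow_succ, hk, zero_mul]
  have h1 : dM (IsNilpotent.exp a) =
      ∑ i ∈ Finset.range (k + 1), (i.factorial : ℚ)⁻¹ • dM (a ^ i) := by
    rw [IsNilpotent.exp_eq_sum hk1]
    show Ex2_d _ = _
    rw [map_sum]
    refine Finset.sum_congr rfl fun i _ => ?_
    rw [map_rat_smul]
    rfl
  rw [h1, Finset.sum_range_succ', pow_zero, Ex2_one, smul_zero, add_zero,
    IsNilpotent.exp_eq_sum hk, Finset.mul_sum]
  refine Finset.sum_congr rfl fun i _ => ?_
  rw [Ex2_pow hcomm, mul_smul_comm, ← Nat.cast_smul_eq_nsmul ℚ, smul_smul]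
  congr 1
  rw [Nat.factorial_succ]
  push_cast
  have h2 : (i : ℚ) + 1 ≠ 0 := by positivity
  have h3 : ((i.factorial : ℕ) : ℚ) ≠ 0 := by exact_mod_cast i.factorial_ne_zero
  field_simp

theorem ev_exp {B : Matrix (Fin n) (Fin n) K} (hB : IsNilpotent B) (g : K[X]) (t : K) :
    ev t (IsNilpotent.exp (g • B.map (C : K → K[X]))) = IsNilpotent.exp (g.eval t • B) := by
  rw [IsNilpotent.map_exp (nil_map hB g) (ev t)]
  congr 1
  refine Matrix.ext fun i j => ?_
  rw [ev_apply, Matrix.smul_apply, Matrix.smul_apply, Matrix.map_apply, smul_eq_mul, smul_eq_mul,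
    Polynomial.eval_mul, Polynomial.eval_C]

theorem ode_const {z : Matrix (Fin n) (Fin n) K[X]} (h : dM z = 0) (s t : K) :
    ev s z = ev t z := by
  refine Matrix.ext fun i j => ?_
  have h1 : derivative (z i j) = 0 := congrFun (congrFun h i) j
  have h2 := Polynomial.eq_C_of_natDegree_eq_zero
    (Polynomial.derivative_eq_zero.1 h1)
  rw [ev_apply, ev_apply, h2, Polynomial.eval_C, Polynomial.eval_C]

theorem int_exists (q : K[X]) : ∃ g : K[X], derivative g = q ∧ g.eval 0 = 0 := by
  induction q using Polynomial.induction_on' with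
  | add p q hp hq =>
    obtain ⟨g, hg, hg0⟩ := hp
    obtain ⟨g', hg', hg0'⟩ := hq
    refine ⟨g + g', ?_, ?_⟩
    · rw [Polynomial.derivative_add, hg, hg']
    · rw [Polynomial.eval_add, hg0, hg0', add_zero]
  | monomial m a =>
    refine ⟨Polynomial.monomial (m + 1) (a / ((m : K) + 1)), ?_, ?_⟩
    · have h1 : ((m : K) + 1) ≠ 0 := Nat.cast_add_one_ne_zero m
      rw [Polynomial.derivative_monomial, Nat.add_sub_cancel]
      push_cast
      rw [div_mul_cancel₀ _ h1]
    · rw [Polynomial.eval_monomial, zero_pow (Nat.succ_ne_zero m), mul_zero]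

end

end Pool.Agent.Lib.MP_f399a8_nt.G
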