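import Pool.Agent.Lib.MP_f399a8_ntG.Oc1

/-!
# Functions supported in the big cell

`Gf χ y ψ (b * f * d) = cb χ b * ψ d` for `b ∈ Bg`, `f ∈ Ug (Fr y)`, `d ∈ Ug (Dr y)`, and `0` outside the set of these products.
`iK` is the indicator function of `Kg`.

PROOF.
* `fd_fac`: `ug_fac` for `S = Ne y0` (`cl_ne`, positive on `-y0`) and `z = -y`: `Ne y0 ∩ Po (-y) = Fr y`, `Ne y0 ∩ Ne (-y) = Dr y` (sets are equal by
  `ext`; `D.Reg y`).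
* `ed_fac`: `ug_fac` for `S = Po y`, `z = y0`: `Po y ∩ Po y0 = Er y`, `Po y ∩ Ne y0 = Dr y`.
* `fd_uniq`: `ug_fac_unique` with `z = -y`.  `cell_uniq`: `f * d ∈ Ug (Ne y0)` (`ug_mono`), `bu_uniq`, `fd_uniq`.
* `gf_eq` by `cell_uniq`.  `gf_ne`: unfold.  The others: distinguish whether `x` is in the cell; for `gf_left` `b * x` is in the cell iff `x`
  is; for `gf_right` use that `Ug (Dr y)` is a group; for `gf_tg`: `b * f * d * t = (b * t) * (t⁻¹ * f * t) * (t⁻¹ * d * t)` (`tg_ug`, `tg_bg`),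
  `cb χ (b * t) = cb χ b * cb χ t`; `gf_conj`: `t⁻¹ * x * t = t⁻¹ * (x * t)`, `gf_left`, `gf_tg`, `cb_inv`.
(The same for `SL_n`: file `MP_f399a8_ntS.GfA`.)
* `iK_cont`: `Kg` is open and closed (`kg_open`, an open subgroup is closed).
-/

namespace Pool.Agent.Lib.MP_f399a8_nt.G

open Matrix Filter Topology

noncomputable section

namespace Ctx

variable {ι X Y : Type*} [Finite ι] [AddCommGroup X] [AddCommGroup Y] {N : ℕ} (D : Ctx ι X Y N)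
  {p : ℕ} [Fact p.Prime] {C : Type*} [NormedField C]

open Classical in
/-- the indicator function of the integral points -/
def iK (C : Type*) [NormedField C] (x : D.Gt p) : C := if x ∈ D.Kg p then 1 else 0

theorem iK_cont (p : ℕ) [Fact p.Prime] (C : Type*) [NormedField C] :
    Continuous (D.iK C : D.Gt p → C) := by
  classical
  have hopen : IsOpen (D.Kg p : Set (D.Gt p)) := D.kg_open p
  have hclosed : IsClosed (D.Kg p : Set (D.Gt p)) := (D.kg_compact p).isClosed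
  have h1 : (D.iK C : D.Gt p → C) =
      Set.indicator (D.Kg p : Set (D.Gt p)) (fun _ => (1 : C)) := by
    funext x
    unfold iK
    by_cases hx : x ∈ D.Kg p
    · rw [if_pos hx, Set.indicator_of_mem (show x ∈ (D.Kg p : Set (D.Gt p)) from hx)]
    · rw [if_neg hx, Set.indicator_of_notMem (show x ∉ (D.Kg p : Set (D.Gt p)) from hx)]
  rw [h1]
  exact Continuous.indicator
    (fun a ha => by
      rw [IsClopen.frontier_eq ⟨hclosed, hopen⟩] at ha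
      exact absurd ha (Set.notMem_empty a)) continuous_const

variable {y : Y}

theorem fd_fac (hy : D.Reg y) {u : D.Gt p} (hu : u ∈ D.Ug p (D.Ne D.y0)) :
    ∃ f ∈ D.Ug p (D.Fr y), ∃ d ∈ D.Ug p (D.Dr y), u = f * d ∧
      (u ∈ D.Kg p → f ∈ D.Kg p ∧ d ∈ D.Kg p) ∧
      ∀ m : ℕ, u ∈ D.Kmg p m → f ∈ D.Kmg p m ∧ d ∈ D.Kmg p m := by
  have h1 := D.ug_fac (y := -D.y0) (z := -y) (D.cl_ne D.y0) (fun α hα => by
    rw [D.pr_neg]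
    exact neg_pos.2 hα) (fun α _ => by
    rw [D.pr_neg]
    exact neg_ne_zero.2 (hy α)) hu
  have e1 : D.Ne D.y0 ∩ D.Po (-y) = D.Fr y := by
    ext α
    constructor
    · rintro ⟨h1, h2⟩
      have h3 : 0 < D.pr α (-y) := h2
      rw [D.pr_neg] at h3
      exact ⟨neg_pos.1 h3, h1⟩
    · rintro ⟨h1, h2⟩
      refine ⟨h2, ?_⟩
      show 0 < D.pr α (-y)
      rw [D.pr_neg]
      exact neg_pos.2 h1
  have e2 : D.Ne D.y0 ∩ D.Ne (-y) = D.Dr y := by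
    ext α
    constructor
    · rintro ⟨h1, h2⟩
      have h3 : D.pr α (-y) < 0 := h2
      rw [D.pr_neg] at h3
      exact ⟨neg_lt_zero.1 h3, h1⟩
    · rintro ⟨h1, h2⟩
      refine ⟨h2, ?_⟩
      show D.pr α (-y) < 0
      rw [D.pr_neg]
      exact neg_lt_zero.2 h1
  rw [e1, e2] at h1
  exact h1

theorem ed_fac {u : D.Gt p} (hu : u ∈ D.Ug p (D.Po y)) :
    ∃ e ∈ D.Ug p (D.Er y), ∃ d ∈ D.Ug p (D.Dr y), u = e * d ∧
      (u ∈ D.Kg p → e ∈ D.Kg p ∧ d ∈ D.Kg p) := by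
  obtain ⟨e, he, d, hd, h1, h2, -⟩ := D.ug_fac (y := y) (z := D.y0) (D.cl_po y) (fun α hα => hα)
    (fun α _ => D.reg0 α) hu
  exact ⟨e, he, d, hd, h1, h2⟩

theorem fd_uniq {f f' d d' : D.Gt p} (hf : f ∈ D.Ug p (D.Fr y)) (hf' : f' ∈ D.Ug p (D.Fr y))
    (hd : d ∈ D.Ug p (D.Dr y)) (hd' : d' ∈ D.Ug p (D.Dr y)) (h : f * d = f' * d') :
    f = f' ∧ d = d' := by
  refine D.ug_fac_unique (z := -y) (S := D.Fr y) (T := D.Dr y) (fun α hα => ?_) (fun α hα => ?_)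
    hf hf' hd hd' h
  · rw [D.pr_neg]
    exact neg_pos.2 hα.1
  · rw [D.pr_neg]
    exact neg_lt_zero.2 hα.1

theorem cell_uniq {b b' f f' d d' : D.Gt p} (hb : b ∈ D.Bg p) (hb' : b' ∈ D.Bg p)
    (hf : f ∈ D.Ug p (D.Fr y)) (hf' : f' ∈ D.Ug p (D.Fr y)) (hd : d ∈ D.Ug p (D.Dr y))
    (hd' : d' ∈ D.Ug p (D.Dr y)) (h : b * f * d = b' * f' * d') : b = b' ∧ f = f' ∧ d = d' := by
  have hF : D.Fr y ⊆ D.Ne D.y0 := fun α hα => hα.2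
  have hD : D.Dr y ⊆ D.Ne D.y0 := fun α hα => hα.2
  rw [mul_assoc, mul_assoc] at h
  obtain ⟨h1, h2⟩ := D.bu_uniq hb hb' (mul_mem (D.ug_mono hF hf) (D.ug_mono hD hd))
    (mul_mem (D.ug_mono hF hf') (D.ug_mono hD hd')) h
  obtain ⟨h3, h4⟩ := D.fd_uniq hf hf' hd hd' h2
  exact ⟨h1, h3, h4⟩

open Classical in
/-- the function supported in the big cell with values `cb χ b * ψ d` -/
def Gf (χ : ↥(D.Tg p) →* Cˣ) (y : Y) (ψ : D.Gt p → C) (x : D.Gt p) : C :=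
  if h : ∃ q : D.Gt p × D.Gt p × D.Gt p, q.1 ∈ D.Bg p ∧ q.2.1 ∈ D.Ug p (D.Fr y) ∧
      q.2.2 ∈ D.Ug p (D.Dr y) ∧ x = q.1 * q.2.1 * q.2.2 then
    D.cb χ (Classical.choose h).1 * ψ (Classical.choose h).2.2
  else 0

variable {χ : ↥(D.Tg p) →* Cˣ}

private theorem Fa1_cases (χ : ↥(D.Tg p) →* Cˣ) (y : Y) (x : D.Gt p) :
    (∃ b ∈ D.Bg p, ∃ f ∈ D.Ug p (D.Fr y), ∃ d ∈ D.Ug p (D.Dr y), x = b * f * d) ∨
      ((¬ ∃ b ∈ D.Bg p, ∃ f ∈ D.Ug p (D.Fr y), ∃ d ∈ D.Ug p (D.Dr y), x = b * f * d) ∧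
        ∀ ψ : D.Gt p → C, D.Gf χ y ψ x = 0) := by
  by_cases h : ∃ b ∈ D.Bg p, ∃ f ∈ D.Ug p (D.Fr y), ∃ d ∈ D.Ug p (D.Dr y), x = b * f * d
  · exact Or.inl h
  · refine Or.inr ⟨h, fun ψ => ?_⟩
    unfold Gf
    refine dif_neg ?_
    rintro ⟨q, h1, h2, h3, h4⟩
    exact h ⟨q.1, h1, q.2.1, h2, q.2.2, h3, h4⟩

private theorem Fa1_none (χ : ↥(D.Tg p) →* Cˣ) (y : Y) (x : D.Gt p)
    (h : ¬ ∃ b ∈ D.Bg p, ∃ f ∈ D.Ug p (D.Fr y), ∃ d ∈ D.Ug p (D.Dr y), x = b * f * d)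
    (ψ : D.Gt p → C) : D.Gf χ y ψ x = 0 := by
  rcases D.Fa1_cases (C := C) χ y x with h1 | h1
  · exact absurd h1 h
  · exact h1.2 ψ

theorem gf_eq (ψ : D.Gt p → C) {b f d : D.Gt p} (hb : b ∈ D.Bg p) (hf : f ∈ D.Ug p (D.Fr y))
    (hd : d ∈ D.Ug p (D.Dr y)) : D.Gf χ y ψ (b * f * d) = D.cb χ b * ψ d := by
  have h : ∃ q : D.Gt p × D.Gt p × D.Gt p, q.1 ∈ D.Bg p ∧ q.2.1 ∈ D.Ug p (D.Fr y) ∧
      q.2.2 ∈ D.Ug p (D.Dr y) ∧ b * f * d = q.1 * q.2.1 * q.2.2 := ⟨(b, f, d), hb, hf, hd, rfl⟩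
  unfold Gf
  rw [dif_pos h]
  obtain ⟨h1, h2, h3, h4⟩ := Classical.choose_spec h
  obtain ⟨e1, _, e3⟩ := D.cell_uniq hb h1 hf h2 hd h3 h4
  rw [← e1, ← e3]

theorem gf_ne {ψ : D.Gt p → C} {x : D.Gt p} (h : D.Gf χ y ψ x ≠ 0) :
    ∃ b ∈ D.Bg p, ∃ f ∈ D.Ug p (D.Fr y), ∃ d ∈ D.Ug p (D.Dr y), x = b * f * d ∧ ψ d ≠ 0 ∧
      D.Gf χ y ψ x = D.cb χ b * ψ d := by
  rcases D.Fa1_cases (C := C) χ y x with ⟨b, hb, f, hf, d, hd, rfl⟩ | h1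
  · rw [D.gf_eq ψ hb hf hd] at h
    refine ⟨b, hb, f, hf, d, hd, rfl, ?_, D.gf_eq ψ hb hf hd⟩
    intro h0
    exact h (by rw [h0, mul_zero])
  · exact absurd (h1.2 ψ) h

theorem gf_left (ψ : D.Gt p → C) {b : D.Gt p} (hb : b ∈ D.Bg p) (x : D.Gt p) :
    D.Gf χ y ψ (b * x) = D.cb χ b * D.Gf χ y ψ x := by
  rcases D.Fa1_cases (C := C) χ y x with ⟨b', hb', f, hf, d, hd, rfl⟩ | h1
  · have e : b * (b' * f * d) = b * b' * f * d := by simp only [mul_assoc]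
    rw [e, D.gf_eq ψ (mul_mem hb hb') hf hd, D.gf_eq ψ hb' hf hd, D.cb_mul χ hb hb', mul_assoc]
  · rw [h1.2 ψ, mul_zero]
    refine D.Fa1_none χ y _ ?_ ψ
    rintro ⟨b', hb', f, hf, d, hd, h2⟩
    refine h1.1 ⟨b⁻¹ * b', mul_mem (inv_mem hb) hb', f, hf, d, hd, ?_⟩
    rw [mul_assoc b⁻¹, mul_assoc b⁻¹, ← h2, inv_mul_cancel_left]

theorem gf_right (ψ : D.Gt p → C) {u : D.Gt p} (hu : u ∈ D.Ug p (D.Dr y)) (x : D.Gt p) :
    D.Gf χ y ψ (x * u) = D.Gf χ y (fun z => ψ (z * u)) x := by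
  rcases D.Fa1_cases (C := C) χ y x with ⟨b, hb, f, hf, d, hd, rfl⟩ | h1
  · have e : b * f * d * u = b * f * (d * u) := by simp only [mul_assoc]
    rw [e, D.gf_eq ψ hb hf (mul_mem hd hu), D.gf_eq (fun z => ψ (z * u)) hb hf hd]
  · rw [h1.2]
    refine D.Fa1_none χ y _ ?_ ψ
    rintro ⟨b, hb, f, hf, d, hd, h2⟩
    refine h1.1 ⟨b, hb, f, hf, d * u⁻¹, mul_mem hd (inv_mem hu), ?_⟩
    rw [← mul_assoc, ← h2, mul_inv_cancel_right]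

theorem gf_tg (ψ : D.Gt p → C) {t : D.Gt p} (ht : t ∈ D.Tg p) (x : D.Gt p) :
    D.Gf χ y ψ (x * t) = D.cb χ t * D.Gf χ y (fun z => ψ (t⁻¹ * z * t)) x := by
  have htB : t ∈ D.Bg p := D.tg_bg ht
  rcases D.Fa1_cases (C := C) χ y x with ⟨b, hb, f, hf, d, hd, rfl⟩ | h1
  · have e1 : b * f * d * t = b * t * (t⁻¹ * f * t) * (t⁻¹ * d * t) := by group
    rw [e1, D.gf_eq ψ (mul_mem hb htB) (D.tg_ug ht hf).2 (D.tg_ug ht hd).2,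
      D.gf_eq (fun z => ψ (t⁻¹ * z * t)) hb hf hd, D.cb_mul χ hb htB]
    ring
  · rw [h1.2, mul_zero]
    refine D.Fa1_none χ y _ ?_ ψ
    rintro ⟨b, hb, f, hf, d, hd, h2⟩
    refine h1.1 ⟨b * t⁻¹, mul_mem hb (inv_mem htB), t * f * t⁻¹, (D.tg_ug ht hf).1,
      t * d * t⁻¹, (D.tg_ug ht hd).1, ?_⟩
    have e2 : b * t⁻¹ * (t * f * t⁻¹) * (t * d * t⁻¹) = b * f * d * t⁻¹ := by group
    rw [e2, ← h2, mul_inv_cancel_right]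

theorem gf_conj (ψ : D.Gt p → C) {t : D.Gt p} (ht : t ∈ D.Tg p) (x : D.Gt p) :
    D.Gf χ y ψ (t⁻¹ * x * t) = D.Gf χ y (fun z => ψ (t⁻¹ * z * t)) x := by
  have htB : t ∈ D.Bg p := D.tg_bg ht
  rw [mul_assoc, D.gf_left ψ (inv_mem htB), D.gf_tg ψ ht, D.cb_inv χ htB, ← mul_assoc,
    inv_mul_cancel₀ (D.cb_ne_zero χ t), one_mul]

theorem gf_congr {ψ ψ' : D.Gt p → C} (h : ∀ d ∈ D.Ug p (D.Dr y), ψ d = ψ' d) (x : D.Gt p) :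
    D.Gf χ y ψ x = D.Gf χ y ψ' x := by
  rcases D.Fa1_cases (C := C) χ y x with ⟨b, hb, f, hf, d, hd, rfl⟩ | h1
  · rw [D.gf_eq ψ hb hf hd, D.gf_eq ψ' hb hf hd, h d hd]
  · rw [h1.2, h1.2]

theorem gf_sub (ψ ψ' : D.Gt p → C) (x : D.Gt p) :
    D.Gf χ y (fun z => ψ z - ψ' z) x = D.Gf χ y ψ x - D.Gf χ y ψ' x := by
  rcases D.Fa1_cases (C := C) χ y x with ⟨b, hb, f, hf, d, hd, rfl⟩ | h1
  · rw [D.gf_eq ψ hb hf hd, D.gf_eq ψ' hb hf hd, D.gf_eq (fun z => ψ z - ψ' z) hb hf hd]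
    ring
  · rw [h1.2, h1.2, h1.2, sub_zero]

theorem gf_add (ψ ψ' : D.Gt p → C) (x : D.Gt p) :
    D.Gf χ y (fun z => ψ z + ψ' z) x = D.Gf χ y ψ x + D.Gf χ y ψ' x := by
  rcases D.Fa1_cases (C := C) χ y x with ⟨b, hb, f, hf, d, hd, rfl⟩ | h1
  · rw [D.gf_eq ψ hb hf hd, D.gf_eq ψ' hb hf hd, D.gf_eq (fun z => ψ z + ψ' z) hb hf hd]
    ring
  · rw [h1.2, h1.2, h1.2, add_zero]

theorem gf_smul (c : C) (ψ : D.Gt p → C) (x : D.Gt p) :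
    D.Gf χ y (fun z => c * ψ z) x = c * D.Gf χ y ψ x := by
  rcases D.Fa1_cases (C := C) χ y x with ⟨b, hb, f, hf, d, hd, rfl⟩ | h1
  · rw [D.gf_eq ψ hb hf hd, D.gf_eq (fun z => c * ψ z) hb hf hd]
    ring
  · rw [h1.2, h1.2, mul_zero]

theorem gf_sum {κ : Type*} (s : Finset κ) (ψ : κ → D.Gt p → C) (x : D.Gt p) :
    D.Gf χ y (fun z => ∑ i ∈ s, ψ i z) x = ∑ i ∈ s, D.Gf χ y (ψ i) x := by
  rcases D.Fa1_cases (C := C) χ y x with ⟨b, hb, f, hf, d, hd, rfl⟩ | h1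
  · rw [D.gf_eq (fun z => ∑ i ∈ s, ψ i z) hb hf hd, Finset.mul_sum]
    exact Finset.sum_congr rfl fun i _ => (D.gf_eq (ψ i) hb hf hd).symm
  · rw [h1.2]
    exact (Finset.sum_eq_zero fun i _ => h1.2 (ψ i)).symm

end Ctx

end

end Pool.Agent.Lib.MP_f399a8_nt.G
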