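import Pool.Agent.Lib.MP_f399a8_ntG.Fa1
import Pool.Agent.Lib.MP_f399a8_ntS.PgA

/-!
# The `p`-group argument for unipotent groups

(The same for `SL_n`: file `MP_f399a8_ntS.PgA`; here the functions are only continuous on `Ug S'`.)
`YC S' Y` says that the set of functions `Y` is stable under sums, scalars and right translation by `Ug S' ∩ Kg`.

PROOF of `unip_pow`: `x.1 ∈ S.U p R` with `R i j := ⟨wt j, y⟩ < ⟨wt i, y⟩` (`ug_supp_y`), a strict order; `S.unip_pow`.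

PROOF of `pg_box`.  `G := Ug S' ∩ Kg` (a subgroup of `Gt`), acting on `M := Gt → C` by `(g • f) x = f (x * g)` (make a `DistribMulAction`, e.g. a
local `def`/`letI`; see the proof in `PgA`).  `M' := {f | ∀ x ∈ Ug S', ‖f x‖ < 1}` (additive subgroup by the ultrametric inequality,
`G`-stable).  `Γ ∉ M'` (`h2`), `p • Γ ∈ M'` (`S.norm_p_eq`, `h1`).  `Γ` is uniformly continuous on the compact set `Ug S' ∩ Kg`
(`ug_closed`, `kg_compact`): there is `m` with `‖Γ (x * h) - Γ x‖ < 1` for `x ∈ Ug S' ∩ Kg`, `h ∈ Ug S' ∩ Kmg m` (otherwise sequences `x_q`, `h_q → 1`,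
subsequence `x_q → x`; both `Γ (x_q h_q)`, `Γ x_q` tend to `Γ x`); for `x ∈ Ug S'`, `x ∉ Kg`, `h ∈ G` both `‖Γ (x * h)‖, ‖Γ x‖ < 1`
(`h3`; `x * h ∉ Kg`).  Let `N = G ∩ Kmg m` (as a subgroup of `G`).  For `h ∈ N`, `g ∈ G` and `x ∈ Ug S'`:
`(h • g • Γ) x - (g • Γ) x = Γ (x * h * g) - Γ (x * g) = Γ ((x * g) * (g⁻¹ * h * g)) - Γ (x * g)` has norm `< 1` (`kmg_conj`).  Finite
representatives: `coset_reps` (or `fin_reps`) for `G` and `G ∩ Kmg m` (left/right cosets: apply it to inverses).  `hpow`: `unip_pow`.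
`S.fixpt` gives `F` in the additive group generated by the translates of `Γ` (so `F ∈ Y`), `F ∉ M'`, and `‖F (x * g) - F x‖ < 1` for all `g ∈ G`,
`x ∈ Ug S'`.  `F` also satisfies `‖F x‖ ≤ 1` on `Ug S'` and `‖F x‖ < 1` for `x ∈ Ug S'`, `x ∉ Kg` (true for the translates).  So there is
`x₀ ∈ Ug S' ∩ Kg` with `‖F x₀‖ = 1`, and for all `x ∈ G`: `‖F x - F x₀‖ < 1` (`x = x₀ * (x₀⁻¹ * x)`).  Let `c = F x₀`, `F' = c⁻¹ * F ∈ Y`.  Then
`‖F' x - iK x‖ < 1` for all `x ∈ Ug S'`, hence `≤ κ`.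
-/

namespace Pool.Agent.Lib.MP_f399a8_nt.G

open Matrix Filter Topology

noncomputable section

namespace Ctx

variable {ι X Y : Type*} [Finite ι] [AddCommGroup X] [AddCommGroup Y] {N : ℕ} (D : Ctx ι X Y N)
  {p : ℕ} [Fact p.Prime] {C : Type*} [NormedField C]

/-- stability properties of a set of functions -/
structure YC (S' : Set ι) (Z : Set (D.Gt p → C)) : Prop where
  add : ∀ f ∈ Z, ∀ g ∈ Z, (fun x => f x + g x) ∈ Z
  smul : ∀ c : C, ∀ f ∈ Z, (fun x => c * f x) ∈ Z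
  trans : ∀ u ∈ D.Ug p S', u ∈ D.Kg p → ∀ f ∈ Z, (fun x => f (x * u)) ∈ Z

theorem unip_pow {S' : Set ι} {y : Y} (hy : ∀ α ∈ S', 0 < D.pr α y) {x : D.Gt p}
    (hx : x ∈ D.Ug p S') (hxK : x ∈ D.Kg p) (m : ℕ) : ∃ k : ℕ, x ^ (p ^ k) ∈ D.Kmg p m := by
  have hR : S.SO (fun i j : Fin N => D.wp j y < D.wp i y) :=
    ⟨fun i => lt_irrefl _, fun i j k h1 h2 => lt_trans h2 h1⟩
  have hxU : x.1 ∈ S.U p (fun i j : Fin N => D.wp j y < D.wp i y) := by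
    intro i j hij
    by_contra hcon
    exact hij (D.ug_supp_y hy hx hcon)
  obtain ⟨k, hk⟩ := S.unip_pow hR hxU hxK m
  refine ⟨k, ?_⟩
  show (x ^ (p ^ k)).1 ∈ S.Km p N m
  rw [Subgroup.coe_pow]
  exact hk

theorem unif_on {S' : Set ι} (hS : D.Cl S') {y : Y} (hy : ∀ α ∈ S', 0 < D.pr α y)
    {Γ : D.Gt p → C} (hΓ : ContinuousOn Γ (D.Ug p S' : Set (D.Gt p))) {ε : ℝ} (hε : 0 < ε) :
    ∃ m : ℕ, ∀ x ∈ D.Ug p S', x ∈ D.Kg p → ∀ g ∈ D.Ug p S', g ∈ D.Kmg p m →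
      ‖Γ (x * g) - Γ x‖ ≤ ε := by
  have h0 : ∀ x : D.Gt p, x ∈ D.Ug p S' → ∃ m : ℕ, ∀ z ∈ D.Ug p S', x⁻¹ * z ∈ D.Kmg p m →
      ‖Γ z - Γ x‖ < ε / 2 := by
    intro x hx
    have h1 : {z : D.Gt p | ‖Γ z - Γ x‖ < ε / 2} ∈ 𝓝[(D.Ug p S' : Set (D.Gt p))] x := by
      have h2 := (hΓ x hx).eventually (Metric.ball_mem_nhds (Γ x) (half_pos hε))
      filter_upwards [h2] with z hz
      show ‖Γ z - Γ x‖ < ε / 2
      rwa [← dist_eq_norm]
    obtain ⟨V, hV, hVs⟩ := mem_nhdsWithin_iff_exists_mem_nhds_inter.1 h1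
    have h3 : (fun w : D.Gt p => x * w) ⁻¹' V ∈ 𝓝 (1 : D.Gt p) := by
      have hc : Continuous fun w : D.Gt p => x * w := continuous_const.mul continuous_id
      apply hc.continuousAt
      show V ∈ 𝓝 (x * 1)
      rwa [mul_one]
    obtain ⟨m, hm⟩ := D.kmg_nhds h3
    refine ⟨m, fun z hz hzm => ?_⟩
    have h4 : x * (x⁻¹ * z) ∈ V := hm _ hzm
    rw [mul_inv_cancel_left] at h4
    exact hVs ⟨h4, hz⟩
  choose! mm hmm using h0
  have hcomp : IsCompact ((D.Ug p S' : Set (D.Gt p)) ∩ (D.Kg p : Set (D.Gt p))) :=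
    (D.kg_compact p).inter_left (D.ug_closed p hS hy)
  obtain ⟨t, ht, hcov⟩ := hcomp.elim_nhds_subcover
    (fun x : D.Gt p => {z : D.Gt p | x⁻¹ * z ∈ D.Kmg p (mm x)})
    (fun x _ => D.kmg_nhds_mul x (mm x))
  refine ⟨t.sup mm, fun x hx hxK g hg hgm => ?_⟩
  have h5 := hcov ⟨hx, hxK⟩
  obtain ⟨z, hz, hxz⟩ := Set.mem_iUnion₂.1 h5
  have hxz' : z⁻¹ * x ∈ D.Kmg p (mm z) := hxz
  have hg' : g ∈ D.Kmg p (mm z) := D.kmg_anti (Finset.le_sup hz) hgm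
  have h6 : z⁻¹ * (x * g) ∈ D.Kmg p (mm z) := by
    rw [← mul_assoc]
    exact mul_mem hxz' hg'
  have hzU : z ∈ D.Ug p S' := (ht z hz).1
  have h7 := hmm z hzU (x * g) (mul_mem hx hg) h6
  have h8 := hmm z hzU x hx hxz'
  have h9 : Γ (x * g) - Γ x = (Γ (x * g) - Γ z) - (Γ x - Γ z) := by ring
  rw [h9]
  refine (norm_sub_le _ _).trans ?_
  linarith

private theorem Fb1_sub_le {E : Type*} [NormedField E] [IsUltrametricDist E] (a b : E) :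
    ‖a - b‖ ≤ max ‖a‖ ‖b‖ := by
  have h := IsUltrametricDist.norm_add_le_max a (-b)
  rwa [norm_neg, ← sub_eq_add_neg] at h

/-- right translation -/
@[reducible] private def Fb1_act (C : Type*) [NormedField C] (G : Subgroup (D.Gt p)) :
    DistribMulAction G (D.Gt p → C) where
  smul g f := fun x => f (x * g)
  one_smul f := by
    funext x
    show f (x * ((1 : G) : D.Gt p)) = f x
    rw [Subgroup.coe_one, mul_one]
  mul_smul g h f := by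
    funext x
    show f (x * ((g * h : G) : D.Gt p)) = f (x * g * h)
    rw [Subgroup.coe_mul, mul_assoc]
  smul_zero g := rfl
  smul_add g f f' := rfl

/-- functions small on `Ug S'` -/
private def Fb1_M' (C : Type*) [NormedField C] [IsUltrametricDist C] (S' : Set ι) :
    AddSubgroup (D.Gt p → C) where
  carrier := {f | ∀ x ∈ D.Ug p S', ‖f x‖ < 1}
  zero_mem' := by
    intro x _
    show ‖(0 : C)‖ < 1
    rw [norm_zero]
    exact one_pos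
  add_mem' := by
    intro f g hf hg x hx
    exact lt_of_le_of_lt (IsUltrametricDist.norm_add_le_max (f x) (g x)) (max_lt (hf x hx) (hg x hx))
  neg_mem' := by
    intro f hf x hx
    show ‖-(f x)‖ < 1
    rw [norm_neg]
    exact hf x hx

theorem pg_box [NormedAlgebra ℚ_[p] C] [IsUltrametricDist C] {S' : Set ι} (hS : D.Cl S') {y : Y}
    (hy : ∀ α ∈ S', 0 < D.pr α y) {κ : ℝ}
    (hκ : ∀ c : C, ‖c‖ < 1 → ‖c‖ ≤ κ) {Z : Set (D.Gt p → C)} (hZ : D.YC S' Z) {Γ : D.Gt p → C}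
    (hΓZ : Γ ∈ Z) (hΓ : ContinuousOn Γ (D.Ug p S' : Set (D.Gt p)))
    (h1 : ∀ x ∈ D.Ug p S', ‖Γ x‖ ≤ 1)
    (h2 : ∃ x ∈ D.Ug p S', x ∈ D.Kg p ∧ ‖Γ x‖ = 1)
    (h3 : ∀ x ∈ D.Ug p S', x ∉ D.Kg p → ‖Γ x‖ < 1) :
    ∃ F ∈ Z, ∀ x ∈ D.Ug p S', ‖F x - D.iK C x‖ ≤ κ := by
  have hp : p.Prime := Fact.out
  set G : Subgroup (D.Gt p) := D.Ug p S' ⊓ D.Kg p with hG
  let act : DistribMulAction G (D.Gt p → C) := D.Fb1_act C G
  have hact : ∀ (g : G) (f : D.Gt p → C) (x : D.Gt p), (g • f) x = f (x * g) :=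
    fun _ _ _ => rfl
  set M' : AddSubgroup (D.Gt p → C) := D.Fb1_M' C S' with hM'def
  have hM'iff : ∀ f : D.Gt p → C, f ∈ M' ↔ ∀ x ∈ D.Ug p S', ‖f x‖ < 1 := fun f => Iff.rfl
  have hGU : ∀ g : G, (g : D.Gt p) ∈ D.Ug p S' := fun g => g.2.1
  have hGK : ∀ g : G, (g : D.Gt p) ∈ D.Kg p := fun g => g.2.2
  have hxgK : ∀ (x : D.Gt p) (g : G), x ∉ D.Kg p → x * (g : D.Gt p) ∉ D.Kg p := by
    intro x g hx h
    have hk' := (D.Kg p).mul_mem h ((D.Kg p).inv_mem (hGK g))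
    rw [mul_inv_cancel_right] at hk'
    exact hx hk'
  obtain ⟨m, hm⟩ := D.unif_on hS hy hΓ (show (0 : ℝ) < 1 / 2 by norm_num)
  have hM'G : ∀ g : G, ∀ f ∈ M', g • f ∈ M' := by
    intro g f hf x hx
    exact hf _ (mul_mem hx (hGU g))
  have hΓM : Γ ∉ M' := by
    intro h
    obtain ⟨x, hx, -, hx1⟩ := h2
    have := h x hx
    rw [hx1] at this
    exact lt_irrefl _ this
  have hpΓ : p • Γ ∈ M' := by
    intro x hx
    rw [Pi.smul_apply, nsmul_eq_mul, norm_mul, S.norm_p_eq p C]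
    have h4 : ((p : ℝ)⁻¹) < 1 := by
      refine inv_lt_one_of_one_lt₀ ?_
      exact_mod_cast hp.one_lt
    calc _ ≤ (p : ℝ)⁻¹ * 1 := mul_le_mul_of_nonneg_left (h1 x hx) (by positivity)
      _ < 1 := by rwa [mul_one]
  have hN : ∀ h ∈ (D.Kmg p m).subgroupOf G, ∀ g : G, h • (g • Γ) - g • Γ ∈ M' := by
    intro h hh g x hx
    have hh' : (h : D.Gt p) ∈ D.Kmg p m := hh
    rw [Pi.sub_apply, hact, hact, hact]
    have hc := (D.kmg_conj (hGK g) hh').2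
    have hcU : (g : D.Gt p)⁻¹ * (h : D.Gt p) * (g : D.Gt p) ∈ D.Ug p S' :=
      mul_mem (mul_mem (inv_mem (hGU g)) (hGU h)) (hGU g)
    have he : x * (h : D.Gt p) * (g : D.Gt p) =
        (x * (g : D.Gt p)) * ((g : D.Gt p)⁻¹ * (h : D.Gt p) * (g : D.Gt p)) := by group
    by_cases hxK : x * (g : D.Gt p) ∈ D.Kg p
    · rw [he]
      exact lt_of_le_of_lt (hm _ (mul_mem hx (hGU g)) hxK _ hcU hc) (by norm_num)
    · have hxh : x * (h : D.Gt p) * (g : D.Gt p) ∉ D.Kg p := by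
        rw [he]
        intro h'
        have hk' := (D.Kg p).mul_mem h' ((D.Kg p).inv_mem (D.kmg_le hc))
        rw [mul_inv_cancel_right] at hk'
        exact hxK hk'
      have ha := h3 _ (mul_mem (mul_mem hx (hGU h)) (hGU g)) hxh
      have hb := h3 _ (mul_mem hx (hGU g)) hxK
      exact lt_of_le_of_lt (Fb1_sub_le _ _) (max_lt ha hb)
  obtain ⟨S₀, hS₀, hS₁⟩ := D.coset_reps (L := G) (H := G ⊓ D.Kmg p m) (m := m) inf_le_right
    inf_le_left (fun x hx hxm => ⟨hx, hxm⟩)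
  have hS2 : ∃ S : Finset G, ∀ g : G, ∃ s ∈ S, s⁻¹ * g ∈ (D.Kmg p m).subgroupOf G := by
    classical
    refine ⟨S₀.attach.image fun s : {s // s ∈ S₀} =>
      (⟨(s.1 : D.Gt p)⁻¹, G.inv_mem (hS₀ s.1 s.2)⟩ : G), fun g => ?_⟩
    obtain ⟨s, ⟨hs, hs'⟩, -⟩ := hS₁ (g : D.Gt p)⁻¹ (G.inv_mem g.2)
    refine ⟨⟨s⁻¹, G.inv_mem (hS₀ s hs)⟩, Finset.mem_image.2 ⟨(⟨s, hs⟩ : {s // s ∈ S₀}),
      Finset.mem_attach _ _, rfl⟩, ?_⟩
    show ((s⁻¹)⁻¹ : D.Gt p) * (g : D.Gt p) ∈ D.Kmg p m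
    have h5 := (D.Kmg p m).inv_mem hs'.2
    have h6 : ((g : D.Gt p)⁻¹ * s⁻¹)⁻¹ = (s⁻¹)⁻¹ * (g : D.Gt p) := by group
    rwa [h6] at h5
  obtain ⟨S₁, hS3⟩ := hS2
  have hpow : ∀ g : G, ∃ k : ℕ, g ^ (p ^ k) ∈ (D.Kmg p m).subgroupOf G := by
    intro g
    obtain ⟨k, hk⟩ := D.unip_pow hy (hGU g) (hGK g) m
    refine ⟨k, ?_⟩
    show ((g ^ (p ^ k) : G) : D.Gt p) ∈ D.Kmg p m
    rwa [Subgroup.coe_pow]
  obtain ⟨F, hF, hFM, hFg⟩ := S.fixpt hp M' hM'G Γ hΓM hpΓ _ hN S₁ hS3 hpow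
  have hFZ : F ∈ Z := by
    refine AddSubgroup.closure_induction (p := fun f _ => f ∈ Z) ?_ ?_ ?_ ?_ hF
    · rintro f ⟨g, rfl⟩
      exact hZ.trans g (hGU g) (hGK g) Γ hΓZ
    · have h5 := hZ.smul 0 Γ hΓZ
      have h6 : (fun x => (0 : C) * Γ x) = (0 : D.Gt p → C) := by
        funext x
        exact zero_mul _
      rwa [h6] at h5
    · intro f g _ _ hf hg
      exact hZ.add f hf g hg
    · intro f _ hf
      have h5 := hZ.smul (-1) f hf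
      have h6 : (fun x => (-1 : C) * f x) = -f := by
        funext x
        exact neg_one_mul _
      rwa [h6] at h5
  have hFb : ∀ x ∈ D.Ug p S', ‖F x‖ ≤ 1 ∧ (x ∉ D.Kg p → ‖F x‖ < 1) := by
    refine AddSubgroup.closure_induction
      (p := fun f _ => ∀ x ∈ D.Ug p S', ‖f x‖ ≤ 1 ∧ (x ∉ D.Kg p → ‖f x‖ < 1)) ?_ ?_ ?_ ?_ hF
    · rintro f ⟨g, rfl⟩ x hx
      have hxg := mul_mem hx (hGU g)
      exact ⟨h1 _ hxg, fun hxK => h3 _ hxg (hxgK x g hxK)⟩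
    · intro x _
      rw [Pi.zero_apply, norm_zero]
      exact ⟨zero_le_one, fun _ => one_pos⟩
    · intro f g _ _ hf hg x hx
      rw [Pi.add_apply]
      exact ⟨(IsUltrametricDist.norm_add_le_max _ _).trans (max_le (hf x hx).1 (hg x hx).1),
        fun hxK => lt_of_le_of_lt (IsUltrametricDist.norm_add_le_max _ _)
          (max_lt ((hf x hx).2 hxK) ((hg x hx).2 hxK))⟩
    · intro f _ hf x hx
      rw [Pi.neg_apply, norm_neg]
      exact hf x hx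
  obtain ⟨x₀, hx₀, hx₁⟩ : ∃ x₀ ∈ D.Ug p S', ¬ ‖F x₀‖ < 1 := by
    by_contra hcon
    push Not at hcon
    exact hFM fun x hx => hcon x hx
  have hx₀K : x₀ ∈ D.Kg p := by
    by_contra hK
    exact hx₁ ((hFb x₀ hx₀).2 hK)
  have hx₀1 : ‖F x₀‖ = 1 := le_antisymm (hFb x₀ hx₀).1 (not_lt.1 hx₁)
  have hc0 : F x₀ ≠ 0 := by
    intro h0
    rw [h0, norm_zero] at hx₀1
    exact zero_ne_one hx₀1
  refine ⟨fun x => (F x₀)⁻¹ * F x, hZ.smul _ _ hFZ, fun x hx => hκ _ ?_⟩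
  by_cases hxK : x ∈ D.Kg p
  · have hgG : x₀⁻¹ * x ∈ G :=
      ⟨(D.Ug p S').mul_mem ((D.Ug p S').inv_mem hx₀) hx, (D.Kg p).mul_mem ((D.Kg p).inv_mem hx₀K) hxK⟩
    have h5 := hFg ⟨x₀⁻¹ * x, hgG⟩ x₀ hx₀
    rw [Pi.sub_apply, hact] at h5
    have h6 : x₀ * (x₀⁻¹ * x) = x := by group
    have h7 : ‖F x - F x₀‖ < 1 := by
      have h8 : x₀ * ((⟨x₀⁻¹ * x, hgG⟩ : G) : D.Gt p) = x := h6
      rwa [h8] at h5
    have h9 : D.iK C x = 1 := by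
      unfold iK
      rw [if_pos hxK]
    have h10 : (F x₀)⁻¹ * F x - D.iK C x = (F x₀)⁻¹ * (F x - F x₀) := by
      rw [h9, mul_sub, inv_mul_cancel₀ hc0]
    rw [h10, norm_mul, norm_inv, hx₀1, inv_one, one_mul]
    exact h7
  · have h9 : D.iK C x = 0 := by
      unfold iK
      rw [if_neg hxK]
    rw [h9, sub_zero, norm_mul, norm_inv, hx₀1, inv_one, one_mul]
    exact (hFb x hx).2 hxK

end Ctx

end

end Pool.Agent.Lib.MP_f399a8_nt.G
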