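import Pool.Agent.Lib.MP_f399a8_ntG.Fb1
import Pool.Agent.Lib.MP_f399a8_ntG.Fa3

/-!
# Approximation by small boxes

(The same for `SL_n`: files `MP_f399a8_ntS.AcA`, `TiF`.)  `S'` is closed and positive on `y`, `t1 = cc y (pp p)`.  `C0 S' f`: for every
`ε > 0` the set of `x ∈ Ug S'` with `ε ≤ ‖f x‖` is bounded.

PROOF of `ac_expl`.  Let `L = Ug S' ∩ Kg`, `H_b = {x ∈ Ug S' | (t1^b)⁻¹ * x * t1^b ∈ Kg}` (subgroups).  For `x ∈ H_b`: `x = t1^b * x' * (t1^b)⁻¹` with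
`x' ∈ Ug S' ∩ Kg`; its nonidentity entries are those of `x'` times `p ^ (b (⟨wt i, y⟩ - ⟨wt j, y⟩))` (`tg_entry`), with `⟨wt j, y⟩ < ⟨wt i, y⟩` (`ug_supp_y`), so
`H_b ⊆ L ∩ Kmg b`; and `L ∩ Kmg m' ⊆ H_b` for `m'` large (`conj_small`, or bound the exponents).  By `unif_on` (`ε = κ * B` if
positive; if `κ * B = 0`, i.e. `B = 0`, take `S = ∅`) choose `b` with `‖φ (x * g) - φ x‖ ≤ κ * B` for all `x ∈ L`, `g ∈ Ug S' ∩ Kmg b`.  `coset_reps` gives the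
finite set `S ⊆ L`.  Let `x ∈ Ug S'`.  The difference of `∑ s ∈ S, φ s * F_b (x * s⁻¹)` (`F_b z = F ((t1^b)⁻¹ * z * t1^b)`) and
`∑ s, φ s * iK ((t1^b)⁻¹ * (x * s⁻¹) * t1^b)` has norm `≤ B * κ` (ultrametric, `‖φ s‖ ≤ B`).  If `x ∈ L` exactly one `s` has
`g := x * s⁻¹ ∈ H_b`, so the sum is `φ s`, and `x = g * s = s * (s⁻¹ * g * s)`, `s⁻¹ * g * s ∈ Kmg b` (`kmg_conj`), so
`‖φ x - φ s‖ ≤ κ * B`.  If `x ∉ Kg` no `s` has `x * s⁻¹ ∈ H_b ⊆ Kg`, the sum is `0` and `‖φ x‖ ≤ κ * B`.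
PROOF of `ac_core`: `F` from `pg_box`, then `ac_expl`; `F_b ∈ Z` (induction from `hcontr`), translates and finite sums are in `Z`.
PROOF of `scale_in`: `{x ∈ Ug S' | δ ≤ ‖f x‖}` is bounded by `A` in the entries; `δ ≤ ‖f ((t1^a)⁻¹ * x * t1^a)‖` implies `x ∈ Kg`: with
`z = (t1^a)⁻¹ * x * t1^a`, the nonidentity entries of `x` are `p ^ (a (⟨wt i, y⟩ - ⟨wt j, y⟩)) * z i j` of norm `≤ p ^ (-a) * A ≤ 1` when `p ^ a ≥ A`.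
PROOF of `gam_norm`: divide by the maximum of `‖Γ‖` on `Ug S'` (attained since `Γ` is `C0` and continuous on `Ug S'` and not `0` there;
`ug_bdd`) and apply the contraction `f ↦ f (t1⁻¹ * x * t1)` `a` times (`scale_in` with `δ = 1`) until `{x ∈ Ug S' | ‖Γ x‖ ≥ 1}` is contained in `Kg`.
The maximum is still `1` and is attained at a point, which then lies in `Kg`.
-/

namespace Pool.Agent.Lib.MP_f399a8_nt.G

open Matrix Filter Topology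

noncomputable section

namespace Ctx

variable {ι X Y : Type*} [Finite ι] [AddCommGroup X] [AddCommGroup Y] {N : ℕ} (D : Ctx ι X Y N)
  {p : ℕ} [Fact p.Prime] {C : Type*} [NormedField C] [NormedAlgebra ℚ_[p] C]
  [IsUltrametricDist C]

omit [NormedAlgebra ℚ_[p] C] [IsUltrametricDist C] in
/-- vanishing at infinity on `Ug S'` -/
def C0 (S' : Set ι) (f : D.Gt p → C) : Prop :=
  ∀ ε : ℝ, 0 < ε → ∃ A : ℝ, ∀ x ∈ D.Ug p S', ε ≤ ‖f x‖ → ∀ i j, ‖x.1.1 i j‖ ≤ A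

omit [NormedField C] [NormedAlgebra ℚ_[p] C] [IsUltrametricDist C] in
private theorem Fb2_pow_tg (y : Y) (b : ℕ) : (D.cc p y (pp p)) ^ b ∈ D.Tg p :=
  (D.Tg p).pow_mem (D.cc_torus p y (pp p)) b

private theorem Fb2_zpow_norm (p : ℕ) [Fact p.Prime] (a : ℤ) :
    ‖(p : ℚ_[p]) ^ a‖ = (p : ℝ) ^ (-a) := by
  rw [norm_zpow, Padic.norm_p, _root_.inv_zpow, _root_.zpow_neg]

private theorem Fb2_sum {C : Type*} [NormedField C] [IsUltrametricDist C] {κ : Type*}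
    (s : Finset κ) (f : κ → C) {c : ℝ} (hc : 0 ≤ c)
    (h : ∀ i ∈ s, ‖f i‖ ≤ c) : ‖∑ i ∈ s, f i‖ ≤ c := by
  classical
  induction s using Finset.induction_on with
  | empty => simpa using hc
  | insert a s ha ih =>
    rw [Finset.sum_insert ha]
    refine (IsUltrametricDist.norm_add_le_max _ _).trans (max_le (h _ (Finset.mem_insert_self _ _))
      (ih fun i hi => h i (Finset.mem_insert_of_mem hi)))

/-- small conjugates -/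
private theorem Fb2_small {ι X Y : Type*} [Finite ι] [AddCommGroup X] [AddCommGroup Y] {N : ℕ}
    (D : Ctx ι X Y N) {p : ℕ} [Fact p.Prime] {S' : Set ι} {y : Y}
    (hy : ∀ α ∈ S', 0 < D.pr α y) (b : ℕ) {x : D.Gt p} (hx : x ∈ D.Ug p S')
    (hxK : ((D.cc p y (pp p)) ^ b)⁻¹ * x * (D.cc p y (pp p)) ^ b ∈ D.Kg p) :
    x ∈ D.Kmg p b := by
  have hp1 : (1 : ℝ) ≤ (p : ℝ) := by exact_mod_cast (Fact.out : p.Prime).one_lt.le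
  have hp0 : (0 : ℝ) < (p : ℝ) := by linarith
  rw [D.mem_Kmg]
  intro i j
  by_cases hij : x.1.1 i j = (1 : Matrix (Fin N) (Fin N) ℚ_[p]) i j
  · rw [hij, sub_self, norm_zero]
    positivity
  · have h1 := D.ug_supp_y hy hx hij
    have hne : i ≠ j := by
      rintro rfl
      exact lt_irrefl _ h1
    rw [Matrix.one_apply_ne hne, sub_zero]
    have h2 := (D.mem_Kg p).1 hxK i j
    rw [D.tg_entry', norm_mul, Fb2_zpow_norm] at h2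
    have h3 : (p : ℝ) ^ (b : ℤ) ≤ (p : ℝ) ^ (-((b : ℤ) * (D.wp j y - D.wp i y))) := by
      refine zpow_le_zpow_right₀ hp1 ?_
      have h5 : (0 : ℤ) ≤ (b : ℤ) := by positivity
      nlinarith
    have h4 : (p : ℝ) ^ (b : ℤ) * ‖x.1.1 i j‖ ≤ 1 :=
      (mul_le_mul_of_nonneg_right h3 (norm_nonneg _)).trans h2
    rw [_root_.zpow_neg, ← one_div, le_div_iff₀ (by positivity), mul_comm]
    exact h4

private theorem Fb2_mem {ι X Y : Type*} [Finite ι] [AddCommGroup X] [AddCommGroup Y] {N : ℕ}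
    (D : Ctx ι X Y N) {p : ℕ} [Fact p.Prime] (t : D.Gt p) :
    ∃ m : ℕ, ∀ x ∈ D.Kmg p m, t⁻¹ * x * t ∈ D.Kg p := by
  obtain ⟨m, hm⟩ := D.conj_small p (∑ i, ∑ j, ‖t.1.1 i j‖) 0
  refine ⟨m, fun x hx => D.kmg_le (hm t (fun i j => ?_) x hx).2⟩
  refine (Finset.single_le_sum (f := fun j => ‖t.1.1 i j‖) (fun _ _ => norm_nonneg _)
    (Finset.mem_univ j)).trans ?_
  exact Finset.single_le_sum (f := fun i => ∑ j, ‖t.1.1 i j‖)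
    (fun _ _ => Finset.sum_nonneg fun _ _ => norm_nonneg _) (Finset.mem_univ i)

omit [NormedAlgebra ℚ_[p] C] [IsUltrametricDist C] in
private theorem Fb2_contr {t1 : D.Gt p} {Z : Set (D.Gt p → C)}
    (hcontr : ∀ f ∈ Z, (fun x => f (t1⁻¹ * x * t1)) ∈ Z) {F : D.Gt p → C} (hF : F ∈ Z) (b : ℕ) :
    (fun x => F ((t1 ^ b)⁻¹ * x * t1 ^ b)) ∈ Z := by
  induction b with
  | zero =>
    have h : (fun x => F ((t1 ^ 0)⁻¹ * x * t1 ^ 0)) = F := by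
      funext x
      rw [pow_zero, inv_one, one_mul, mul_one]
    rw [h]
    exact hF
  | succ b ih =>
    have h := hcontr _ ih
    have h2 : (fun x => F ((t1 ^ (b + 1))⁻¹ * x * t1 ^ (b + 1))) =
        fun x => F ((t1 ^ b)⁻¹ * (t1⁻¹ * x * t1) * t1 ^ b) := by
      funext x
      congr 1
      rw [pow_succ' t1 b]
      group
    rw [h2]
    exact h

omit [NormedAlgebra ℚ_[p] C] [IsUltrametricDist C] in
private theorem Fb2_sumZ {S' : Set ι} {Z : Set (D.Gt p → C)} (hZ : D.YC S' Z)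
    {F : D.Gt p → C} (hF : F ∈ Z) (S₁ : Finset (D.Gt p)) (g : D.Gt p → D.Gt p → C)
    (h : ∀ s ∈ S₁, (fun x => g s x) ∈ Z) : (fun x => ∑ s ∈ S₁, g s x) ∈ Z := by
  classical
  induction S₁ using Finset.induction_on with
  | empty =>
    have h1 := hZ.smul 0 F hF
    simpa using h1
  | insert a S₁ ha ih =>
    have h1 := hZ.add _ (h a (Finset.mem_insert_self _ _)) _
      (ih fun s hs => h s (Finset.mem_insert_of_mem hs))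
    have h2 : (fun x => ∑ s ∈ insert a S₁, g s x) = fun x => g a x + ∑ s ∈ S₁, g s x := by
      funext x
      rw [Finset.sum_insert ha]
    rw [h2]
    exact h1

omit [NormedAlgebra ℚ_[p] C] [IsUltrametricDist C] in
/-- the maximum of the norm is attained -/
private theorem Fb2_max {S' : Set ι} (hS : D.Cl S') {y : Y} (hy : ∀ α ∈ S', 0 < D.pr α y)
    {f : D.Gt p → C} (hf : ContinuousOn f (D.Ug p S' : Set (D.Gt p))) (hf0 : D.C0 S' f)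
    {u : D.Gt p} (hu : u ∈ D.Ug p S') (hfu : f u ≠ 0) :
    ∃ x₀ ∈ D.Ug p S', ∀ x ∈ D.Ug p S', ‖f x‖ ≤ ‖f x₀‖ := by
  obtain ⟨A, hA⟩ := hf0 ‖f u‖ (norm_pos_iff.2 hfu)
  have hcomp := D.ug_bdd p hS hy A
  have hc : ContinuousOn (fun x => ‖f x‖) {u : D.Gt p | u ∈ D.Ug p S' ∧ ∀ i j, ‖u.1.1 i j‖ ≤ A} :=
    (hf.mono fun x hx => hx.1).norm
  obtain ⟨x₀, ⟨hx₀U, _⟩, hmax⟩ := hcomp.exists_isMaxOn ⟨u, hu, hA u hu le_rfl⟩ hc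
  refine ⟨x₀, hx₀U, fun x hx => ?_⟩
  by_cases h : ‖f u‖ ≤ ‖f x‖
  · exact hmax (show x ∈ {u : D.Gt p | u ∈ D.Ug p S' ∧ ∀ i j, ‖u.1.1 i j‖ ≤ A} from ⟨hx, hA x hx h⟩)
  · push Not at h
    exact h.le.trans (hmax
      (show u ∈ {u : D.Gt p | u ∈ D.Ug p S' ∧ ∀ i j, ‖u.1.1 i j‖ ≤ A} from ⟨hu, hA u hu le_rfl⟩))

theorem scale_in {S' : Set ι} {y : Y} (hy : ∀ α ∈ S', 0 < D.pr α y)
    {f : D.Gt p → C} (hf : D.C0 S' f) {δ : ℝ} (hδ : 0 < δ) :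
    ∃ a : ℕ, ∀ x ∈ D.Ug p S', x ∉ D.Kg p →
      ‖f (((D.cc p y (pp p)) ^ a)⁻¹ * x * (D.cc p y (pp p)) ^ a)‖ < δ := by
  obtain ⟨A, hA⟩ := hf δ hδ
  have hp1 : (1 : ℝ) < (p : ℝ) := by exact_mod_cast (Fact.out : p.Prime).one_lt
  have hp0 : (0 : ℝ) < (p : ℝ) := by linarith
  obtain ⟨a, ha⟩ := pow_unbounded_of_one_lt A hp1
  refine ⟨a, fun x hx hxK => ?_⟩
  by_contra hcon
  push Not at hcon
  apply hxK
  have hyU := (D.tg_ug (D.Fb2_pow_tg y a) hx).2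
  rw [D.mem_Kg]
  intro i j
  by_cases hij : x.1.1 i j = (1 : Matrix (Fin N) (Fin N) ℚ_[p]) i j
  · rw [hij]
    exact S.one_norm_le i j
  · have h1 := hA _ hyU hcon i j
    rw [D.tg_entry', norm_mul, Fb2_zpow_norm] at h1
    have h2 := D.ug_supp_y hy hx hij
    have h3 : (p : ℝ) ^ a ≤ (p : ℝ) ^ (-((a : ℤ) * (D.wp j y - D.wp i y))) := by
      rw [← _root_.zpow_natCast]
      refine zpow_le_zpow_right₀ hp1.le ?_
      have h4 : (a : ℤ) * 1 ≤ (a : ℤ) * (D.wp i y - D.wp j y) :=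
        mul_le_mul_of_nonneg_left (by omega) (Int.natCast_nonneg _)
      have h5 : -((a : ℤ) * (D.wp j y - D.wp i y)) = (a : ℤ) * (D.wp i y - D.wp j y) := by ring
      rw [h5]
      linarith
    have h4 : (p : ℝ) ^ a * ‖x.1.1 i j‖ ≤ (p : ℝ) ^ a * 1 := by
      calc (p : ℝ) ^ a * ‖x.1.1 i j‖ ≤
            (p : ℝ) ^ (-((a : ℤ) * (D.wp j y - D.wp i y))) * ‖x.1.1 i j‖ :=
            mul_le_mul_of_nonneg_right h3 (norm_nonneg _)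
        _ ≤ A := h1
        _ ≤ (p : ℝ) ^ a * 1 := by rw [mul_one]; exact ha.le
    exact le_of_mul_le_mul_left h4 (pow_pos hp0 a)

theorem ac_expl {S' : Set ι} (hS : D.Cl S') {y : Y} (hy : ∀ α ∈ S', 0 < D.pr α y) {κ : ℝ}
    (hκ0 : 0 < κ) {F : D.Gt p → C} (hF : ∀ x ∈ D.Ug p S', ‖F x - D.iK C x‖ ≤ κ)
    {φ : D.Gt p → C} (hφ : ContinuousOn φ (D.Ug p S' : Set (D.Gt p))) {B : ℝ} (hB0 : 0 ≤ B)
    (hB : ∀ x ∈ D.Ug p S', ‖φ x‖ ≤ B)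
    (hB' : ∀ x ∈ D.Ug p S', x ∉ D.Kg p → ‖φ x‖ ≤ κ * B) :
    ∃ (b : ℕ) (S₁ : Finset (D.Gt p)), (∀ s ∈ S₁, s ∈ D.Ug p S' ∧ s ∈ D.Kg p) ∧
      ∀ x ∈ D.Ug p S', ‖φ x - ∑ s ∈ S₁, φ s *
        F (((D.cc p y (pp p)) ^ b)⁻¹ * (x * s⁻¹) * (D.cc p y (pp p)) ^ b)‖ ≤ κ * B := by
  classical
  rcases hB0.eq_or_lt with hB00 | hBpos
  · refine ⟨0, ∅, fun s hs => absurd hs (Finset.notMem_empty s), fun x hx => ?_⟩
    rw [Finset.sum_empty, sub_zero]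
    have h := hB x hx
    rw [← hB00] at h ⊢
    rw [mul_zero]
    exact h
  · obtain ⟨b, hb⟩ := D.unif_on hS hy hφ (mul_pos hκ0 hBpos)
    have hκB : 0 ≤ κ * B := by positivity
    let H : Subgroup (D.Gt p) := D.Ug p S' ⊓
      (D.Kg p).comap (MulAut.conj (D.cc p y (pp p) ^ b)⁻¹).toMonoidHom
    have hH : ∀ x, x ∈ H ↔ x ∈ D.Ug p S' ∧
        (D.cc p y (pp p) ^ b)⁻¹ * x * D.cc p y (pp p) ^ b ∈ D.Kg p := by
      intro x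
      show x ∈ D.Ug p S' ∧ (MulAut.conj (D.cc p y (pp p) ^ b)⁻¹) x ∈ D.Kg p ↔ _
      rw [MulAut.conj_apply, inv_inv]
    have hHm : ∀ x ∈ H, x ∈ D.Kmg p b := fun x hx =>
      Fb2_small D hy b ((hH x).1 hx).1 ((hH x).1 hx).2
    let L : Subgroup (D.Gt p) := D.Ug p S' ⊓ D.Kg p
    have hL : ∀ x, x ∈ L ↔ x ∈ D.Ug p S' ∧ x ∈ D.Kg p := fun x => Iff.rfl
    obtain ⟨m, hm⟩ := Fb2_mem D (D.cc p y (pp p) ^ b)
    obtain ⟨S₁, hS₀, hS1⟩ := D.coset_reps (L := L) (H := H) (fun x hx => ((hL x).1 hx).2)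
      (fun x hx => (hL x).2 ⟨((hH x).1 hx).1, D.kmg_le (hHm x hx)⟩) (m := m)
      (fun x hx hxK => (hH x).2 ⟨((hL x).1 hx).1, hm x hxK⟩)
    have hSU : ∀ s ∈ S₁, s ∈ D.Ug p S' := fun s hs => ((hL s).1 (hS₀ s hs)).1
    have hSK : ∀ s ∈ S₁, s ∈ D.Kg p := fun s hs => ((hL s).1 (hS₀ s hs)).2
    refine ⟨b, S₁, fun s hs => ⟨hSU s hs, hSK s hs⟩, ?_⟩
    intro x hx
    have hxs : ∀ s ∈ S₁, x * s⁻¹ ∈ D.Ug p S' := fun s hs =>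
      (D.Ug p S').mul_mem hx ((D.Ug p S').inv_mem (hSU s hs))
    have e1 : ‖∑ s ∈ S₁, φ s *
          F ((D.cc p y (pp p) ^ b)⁻¹ * (x * s⁻¹) * D.cc p y (pp p) ^ b) -
        ∑ s ∈ S₁, φ s *
          D.iK C ((D.cc p y (pp p) ^ b)⁻¹ * (x * s⁻¹) * D.cc p y (pp p) ^ b)‖ ≤ κ * B := by
      rw [← Finset.sum_sub_distrib]
      refine Fb2_sum _ _ hκB fun s hs => ?_
      rw [← mul_sub, norm_mul, mul_comm κ B]
      exact mul_le_mul (hB s (hSU s hs)) (hF _ (D.tg_ug (D.Fb2_pow_tg y b) (hxs s hs)).2)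
        (norm_nonneg _) hB0
    have e2 : ‖φ x - ∑ s ∈ S₁, φ s *
        D.iK C ((D.cc p y (pp p) ^ b)⁻¹ * (x * s⁻¹) * D.cc p y (pp p) ^ b)‖ ≤ κ * B := by
      by_cases hxK : x ∈ D.Kg p
      · obtain ⟨s, ⟨hs, hsH⟩, huniq⟩ := hS1 x ((hL x).2 ⟨hx, hxK⟩)
        have e3 : ∑ s ∈ S₁, φ s *
            D.iK C ((D.cc p y (pp p) ^ b)⁻¹ * (x * s⁻¹) * D.cc p y (pp p) ^ b) = φ s := by
          rw [Finset.sum_eq_single s]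
          · unfold iK
            rw [if_pos ((hH _).1 hsH).2, mul_one]
          · intro s' hs' hne
            unfold iK
            rw [if_neg, mul_zero]
            intro hK
            exact hne (huniq s' ⟨hs', (hH _).2 ⟨hxs s' hs', hK⟩⟩)
          · intro h
            exact absurd hs h
        rw [e3]
        have e4 : x = s * (s⁻¹ * (x * s⁻¹) * s) := by group
        have e5 := hb s (hSU s hs) (hSK s hs) (s⁻¹ * (x * s⁻¹) * s)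
          ((D.Ug p S').mul_mem ((D.Ug p S').mul_mem ((D.Ug p S').inv_mem (hSU s hs)) (hxs s hs))
            (hSU s hs)) (D.kmg_conj (hSK s hs) (hHm _ hsH)).2
        rw [← e4] at e5
        exact e5
      · have e3 : ∑ s ∈ S₁, φ s *
            D.iK C ((D.cc p y (pp p) ^ b)⁻¹ * (x * s⁻¹) * D.cc p y (pp p) ^ b) = 0 := by
          refine Finset.sum_eq_zero fun s hs => ?_
          unfold iK
          rw [if_neg, mul_zero]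
          intro hK
          have h4 := (D.Kg p).mul_mem (D.kmg_le (hHm _ ((hH _).2 ⟨hxs s hs, hK⟩))) (hSK s hs)
          rw [inv_mul_cancel_right] at h4
          exact hxK h4
        rw [e3, sub_zero]
        exact hB' x hx hxK
    have e6 : φ x - ∑ s ∈ S₁, φ s *
          F ((D.cc p y (pp p) ^ b)⁻¹ * (x * s⁻¹) * D.cc p y (pp p) ^ b) =
        (φ x - ∑ s ∈ S₁, φ s *
          D.iK C ((D.cc p y (pp p) ^ b)⁻¹ * (x * s⁻¹) * D.cc p y (pp p) ^ b)) +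
        -(∑ s ∈ S₁, φ s *
            F ((D.cc p y (pp p) ^ b)⁻¹ * (x * s⁻¹) * D.cc p y (pp p) ^ b) -
          ∑ s ∈ S₁, φ s *
            D.iK C ((D.cc p y (pp p) ^ b)⁻¹ * (x * s⁻¹) * D.cc p y (pp p) ^ b)) := by ring
    rw [e6]
    refine (IsUltrametricDist.norm_add_le_max _ _).trans (max_le e2 ?_)
    rw [norm_neg]
    exact e1

theorem ac_core {S' : Set ι} (hS : D.Cl S') {y : Y} (hy : ∀ α ∈ S', 0 < D.pr α y) {κ : ℝ}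
    (hκ0 : 0 < κ) (hκ : ∀ c : C, ‖c‖ < 1 → ‖c‖ ≤ κ) {Z : Set (D.Gt p → C)} (hZ : D.YC S' Z)
    (hcontr : ∀ f ∈ Z, (fun x => f ((D.cc p y (pp p))⁻¹ * x * D.cc p y (pp p))) ∈ Z)
    {Γ : D.Gt p → C} (hΓZ : Γ ∈ Z) (hΓ : ContinuousOn Γ (D.Ug p S' : Set (D.Gt p)))
    (h1 : ∀ x ∈ D.Ug p S', ‖Γ x‖ ≤ 1)
    (h2 : ∃ x ∈ D.Ug p S', x ∈ D.Kg p ∧ ‖Γ x‖ = 1)
    (h3 : ∀ x ∈ D.Ug p S', x ∉ D.Kg p → ‖Γ x‖ < 1)
    {φ : D.Gt p → C} (hφ : ContinuousOn φ (D.Ug p S' : Set (D.Gt p))) {B : ℝ} (hB0 : 0 ≤ B)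
    (hB : ∀ x ∈ D.Ug p S', ‖φ x‖ ≤ B)
    (hB' : ∀ x ∈ D.Ug p S', x ∉ D.Kg p → ‖φ x‖ ≤ κ * B) :
    ∃ ψ ∈ Z, ∀ x ∈ D.Ug p S', ‖φ x - ψ x‖ ≤ κ * B := by
  obtain ⟨F, hFZ, hF⟩ := D.pg_box hS hy hκ hZ hΓZ hΓ h1 h2 h3
  obtain ⟨b, S₁, hS₁, hmain⟩ := D.ac_expl hS hy hκ0 hF hφ hB0 hB hB'
  refine ⟨fun x => ∑ s ∈ S₁, φ s *
    F (((D.cc p y (pp p)) ^ b)⁻¹ * (x * s⁻¹) * (D.cc p y (pp p)) ^ b), ?_, hmain⟩
  refine D.Fb2_sumZ hZ hFZ S₁ (fun s x => φ s *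
    F (((D.cc p y (pp p)) ^ b)⁻¹ * (x * s⁻¹) * (D.cc p y (pp p)) ^ b)) fun s hs => ?_
  exact hZ.smul (φ s) _ (hZ.trans s⁻¹ ((D.Ug p S').inv_mem (hS₁ s hs).1)
    ((D.Kg p).inv_mem (hS₁ s hs).2) _ (D.Fb2_contr hcontr hFZ b))

theorem gam_norm {S' : Set ι} (hS : D.Cl S') {y : Y} (hy : ∀ α ∈ S', 0 < D.pr α y)
    {Z : Set (D.Gt p → C)} (hZ : D.YC S' Z)
    (hcontr : ∀ f ∈ Z, (fun x => f ((D.cc p y (pp p))⁻¹ * x * D.cc p y (pp p))) ∈ Z)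
    (hcont : ∀ f ∈ Z, ContinuousOn f (D.Ug p S' : Set (D.Gt p))) (hC0 : ∀ f ∈ Z, D.C0 S' f)
    {Γ : D.Gt p → C} (hΓZ : Γ ∈ Z) (hne : ∃ x ∈ D.Ug p S', Γ x ≠ 0) :
    ∃ Γ' ∈ Z, (∀ x ∈ D.Ug p S', ‖Γ' x‖ ≤ 1) ∧ (∃ x ∈ D.Ug p S', x ∈ D.Kg p ∧ ‖Γ' x‖ = 1) ∧
      ∀ x ∈ D.Ug p S', x ∉ D.Kg p → ‖Γ' x‖ < 1 := by
  obtain ⟨u, hu, hΓu⟩ := hne
  obtain ⟨x₀, hx₀, hmax⟩ := D.Fb2_max hS hy (hcont Γ hΓZ) (hC0 Γ hΓZ) hu hΓu
  have hpos : 0 < ‖Γ x₀‖ := lt_of_lt_of_le (norm_pos_iff.2 hΓu) (hmax u hu)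
  have hΓ1Z : (fun x => (Γ x₀)⁻¹ * Γ x) ∈ Z := hZ.smul _ _ hΓZ
  have hΓ1 : ∀ x ∈ D.Ug p S', ‖(Γ x₀)⁻¹ * Γ x‖ ≤ 1 := by
    intro x hx
    rw [norm_mul, norm_inv, inv_mul_le_iff₀ hpos, mul_one]
    exact hmax x hx
  have hΓ1x₀ : ‖(Γ x₀)⁻¹ * Γ x₀‖ = 1 := by
    rw [norm_mul, norm_inv]
    exact inv_mul_cancel₀ hpos.ne'
  obtain ⟨a₀, ha₀⟩ := D.scale_in hy (hC0 _ hΓ1Z) one_pos
  have hΓ'Z := D.Fb2_contr hcontr hΓ1Z a₀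
  have h3 : ∀ x ∈ D.Ug p S', x ∉ D.Kg p →
      ‖(fun x => (Γ x₀)⁻¹ * Γ ((D.cc p y (pp p) ^ a₀)⁻¹ * x * D.cc p y (pp p) ^ a₀)) x‖ < 1 :=
    fun x hx hxK => ha₀ x hx hxK
  refine ⟨_, hΓ'Z, fun x hx => hΓ1 _ (D.tg_ug (D.Fb2_pow_tg y a₀) hx).2, ?_, h3⟩
  have e : ‖(fun x => (Γ x₀)⁻¹ * Γ ((D.cc p y (pp p) ^ a₀)⁻¹ * x * D.cc p y (pp p) ^ a₀))
      (D.cc p y (pp p) ^ a₀ * x₀ * (D.cc p y (pp p) ^ a₀)⁻¹)‖ = 1 := by
    have e0 : (D.cc p y (pp p) ^ a₀)⁻¹ *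
        (D.cc p y (pp p) ^ a₀ * x₀ * (D.cc p y (pp p) ^ a₀)⁻¹) * D.cc p y (pp p) ^ a₀ = x₀ := by
      group
    simp only
    rw [e0]
    exact hΓ1x₀
  have hU : D.cc p y (pp p) ^ a₀ * x₀ * (D.cc p y (pp p) ^ a₀)⁻¹ ∈ D.Ug p S' :=
    (D.tg_ug (D.Fb2_pow_tg y a₀) hx₀).1
  refine ⟨D.cc p y (pp p) ^ a₀ * x₀ * (D.cc p y (pp p) ^ a₀)⁻¹, hU, ?_, e⟩
  by_contra hcon
  have h4 := h3 _ hU hcon
  rw [e] at h4
  exact lt_irrefl _ h4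

end Ctx

end

end Pool.Agent.Lib.MP_f399a8_nt.G
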