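import Pool.Agent.Lib.MP_f399a8_ntG.Fb2

/-!
# Density: functions supported in the integral points

(The same for `SL_n`: file `MP_f399a8_ntS.AcB`.)

PROOF of `ac_K`.  Let `κ` be as in `S.kappa_exists`.  `Γ` is continuous on `Ug S'` and vanishes on `Ug S'` outside the compact set `Ug S' ∩ Kg`,
so `‖Γ x‖`, `x ∈ Ug S'`, attains its maximum at some `x₀ ∈ Ug S' ∩ Kg`, with `Γ x₀ ≠ 0`.  Replace `Γ` by `(Γ x₀)⁻¹ * Γ ∈ Z`; now it satisfies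
`h1, h2, h3` of `ac_core` (`h3`: `Γ x = 0`).  Claim by induction on `m`: there is `ψ ∈ Z` with `‖iK x - ψ x‖ ≤ κ ^ m` on `Ug S'`.
`m = 0`: `ψ = 0 • Γ`.  Step: `iK - ψ` is continuous on `Ug S'` and vanishes outside `Kg` (`hcont`, `hsupp`), apply `ac_core` with the bound
`κ ^ m`, and add.  `κ ^ m ≤ ε` for `m` large.
-/

namespace Pool.Agent.Lib.MP_f399a8_nt.G

open Matrix Filter Topology

noncomputable section

namespace Ctx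

variable {ι X Y : Type*} [Finite ι] [AddCommGroup X] [AddCommGroup Y] {N : ℕ} (D : Ctx ι X Y N)
  {p : ℕ} [Fact p.Prime] {C : Type*} [NormedField C] [NormedAlgebra ℚ_[p] C]
  [IsUltrametricDist C] [FiniteDimensional ℚ_[p] C]

theorem ac_K {S' : Set ι} (hS : D.Cl S') {y : Y} (hy : ∀ α ∈ S', 0 < D.pr α y)
    {Z : Set (D.Gt p → C)} (hZ : D.YC S' Z)
    (hcontr : ∀ f ∈ Z, (fun x => f ((D.cc p y (pp p))⁻¹ * x * D.cc p y (pp p))) ∈ Z)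
    (hcont : ∀ f ∈ Z, ContinuousOn f (D.Ug p S' : Set (D.Gt p)))
    (hsupp : ∀ f ∈ Z, ∀ x ∈ D.Ug p S', x ∉ D.Kg p → f x = 0)
    {Γ : D.Gt p → C} (hΓZ : Γ ∈ Z) (hne : ∃ x ∈ D.Ug p S', Γ x ≠ 0) {ε : ℝ} (hε : 0 < ε) :
    ∃ ψ ∈ Z, ∀ x ∈ D.Ug p S', ‖D.iK C x - ψ x‖ ≤ ε := by
  classical
  obtain ⟨κ, hκ0, hκ1, hκ⟩ := S.kappa_exists p C
  have hcomp : IsCompact ((D.Ug p S' : Set (D.Gt p)) ∩ (D.Kg p : Set (D.Gt p))) :=
    (D.kg_compact p).inter_left (D.ug_closed p hS hy)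
  obtain ⟨z, hzU, hz⟩ := hne
  have hzK : z ∈ D.Kg p := by
    by_contra hcon
    exact hz (hsupp Γ hΓZ z hzU hcon)
  obtain ⟨x₀, ⟨hx₀U, hx₀K⟩, hmax⟩ := hcomp.exists_isMaxOn ⟨z, hzU, hzK⟩
    ((hcont Γ hΓZ).norm.mono Set.inter_subset_left)
  have hmax' : ∀ x ∈ D.Ug p S', ‖Γ x‖ ≤ ‖Γ x₀‖ := by
    intro x hx
    by_cases hxK : x ∈ D.Kg p
    · exact hmax ⟨hx, hxK⟩
    · rw [hsupp Γ hΓZ x hx hxK, norm_zero]
      exact norm_nonneg _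
  have hpos : 0 < ‖Γ x₀‖ := lt_of_lt_of_le (norm_pos_iff.2 hz) (hmax' z hzU)
  have hΓ'Z : (fun x => (Γ x₀)⁻¹ * Γ x) ∈ Z := hZ.smul _ _ hΓZ
  have h1 : ∀ x ∈ D.Ug p S', ‖(fun x => (Γ x₀)⁻¹ * Γ x) x‖ ≤ 1 := by
    intro x hx
    simp only [norm_mul, norm_inv]
    rw [inv_mul_le_iff₀ hpos, mul_one]
    exact hmax' x hx
  have h2 : ∃ x ∈ D.Ug p S', x ∈ D.Kg p ∧ ‖(fun x => (Γ x₀)⁻¹ * Γ x) x‖ = 1 := by
    refine ⟨x₀, hx₀U, hx₀K, ?_⟩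
    simp only [norm_mul, norm_inv]
    exact inv_mul_cancel₀ hpos.ne'
  have h3 : ∀ x ∈ D.Ug p S', x ∉ D.Kg p → ‖(fun x => (Γ x₀)⁻¹ * Γ x) x‖ < 1 := by
    intro x hx hxK
    simp only [hsupp Γ hΓZ x hx hxK, mul_zero, norm_zero]
    exact one_pos
  have key : ∀ m : ℕ, ∀ φ : D.Gt p → C, ContinuousOn φ (D.Ug p S' : Set (D.Gt p)) →
      (∀ x ∈ D.Ug p S', ‖φ x‖ ≤ 1) → (∀ x ∈ D.Ug p S', x ∉ D.Kg p → φ x = 0) →
      ∃ ψ ∈ Z, ∀ x ∈ D.Ug p S', ‖φ x - ψ x‖ ≤ κ ^ m := by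
    intro m
    induction m with
    | zero =>
      intro φ _ hφ1 _
      refine ⟨fun x => 0 * Γ x, hZ.smul _ _ hΓZ, fun x hx => ?_⟩
      simp only [zero_mul, sub_zero, pow_zero]
      exact hφ1 x hx
    | succ m ih =>
      intro φ hφ hφ1 hφ0
      obtain ⟨ψ, hψZ, hψ⟩ := ih φ hφ hφ1 hφ0
      have hκm : (0 : ℝ) ≤ κ ^ m := pow_nonneg hκ0.le m
      obtain ⟨ψ', hψ'Z, hψ'⟩ := D.ac_core hS hy hκ0 hκ hZ hcontr hΓ'Z (hcont _ hΓ'Z) h1 h2 h3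
        (φ := fun x => φ x - ψ x) (hφ.sub (hcont ψ hψZ)) hκm hψ (by
          intro x hx hxK
          simp only [hφ0 x hx hxK, hsupp ψ hψZ x hx hxK, sub_zero, norm_zero]
          exact mul_nonneg hκ0.le hκm)
      refine ⟨fun x => ψ x + ψ' x, hZ.add _ hψZ _ hψ'Z, fun x hx => ?_⟩
      have h4 := hψ' x hx
      rw [pow_succ', ← sub_sub]
      exact h4
  obtain ⟨m, hm⟩ := exists_pow_lt_of_lt_one hε hκ1
  obtain ⟨ψ, hψZ, hψ⟩ := key m (D.iK C) (D.iK_cont p C).continuousOn (by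
      intro x _
      unfold iK
      split_ifs
      · rw [norm_one]
      · rw [norm_zero]
        exact zero_le_one) (by
      intro x _ hxK
      unfold iK
      rw [if_neg hxK])
  exact ⟨ψ, hψZ, fun x hx => (hψ x hx).trans hm.le⟩

end Ctx

end

end Pool.Agent.Lib.MP_f399a8_nt.G
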