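import Pool.Agent.Lib.MP_f399a8_ntG.Fa3

/-!
# The last step: `Fr y = ∅`

`t1 = cc y (pp p)`.

PROOF of `contr_km`: the nonidentity entries of `d` have `⟨wt j, y⟩ < ⟨wt i, y⟩` (`ug_supp_y`), so by `tg_entry'` the entry of the conjugate is
`p ^ (M (⟨wt j, y⟩ - ⟨wt i, y⟩)) * d i j` with exponent `≤ -M`, so `‖d i j‖ ≤ p ^ (-M)`; if `d i j = 1 i j` the difference is `0`.
PROOF of `gf_contr`: `Gf χ y ψ x = G ((t1^M)⁻¹ * x * t1^M) = cb χ (t1^M)⁻¹ * G (x * t1^M)` with `G = Gf χ y iK` (`gf_conj`, `gf_left`; `t1^M ∈ Tg`); `hW.trans`,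
`hW.smul`.
PROOF of `gf_iM`.  Let `L = Ug (Dr y) ∩ Kmg m` and `H = {d ∈ Ug (Dr y) | (t1^m)⁻¹ * d * t1^m ∈ Kg}` (subgroups; the case `M = m`).  `H ≤ L` by `contr_km`,
`L ≤ Kg` (`kmg_le`).  `H` contains `L ∩ Kmg m'` for `m'` large (`conj_small` for the bounded element `t1^m`, target `Kmg 0 ⊆ Kg`).  `coset_reps`: a finite
set `S ⊆ L` such that every `d ∈ L` has exactly one `s ∈ S` with `d * s⁻¹ ∈ H`.  Then for all `x`
`Gf χ y (iM m) x = ∑ s ∈ S, Gf χ y ψ (x * s⁻¹)`, `ψ z = iK ((t1^m)⁻¹ * z * t1^m)`: by `gf_right` and `gf_sum` the right side is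
`Gf χ y (fun z => ∑ s, ψ (z * s⁻¹)) x`, and for `d ∈ Ug (Dr y)` `∑ s, ψ (d * s⁻¹) = #{s | d * s⁻¹ ∈ H}` is `1` if `d ∈ L` and `0` otherwise
(`d * s⁻¹ ∈ H ≤ L` implies `d ∈ L`); `gf_congr`.  `gf_contr`, `hW.trans`, `sub_sum_mem`.
PROOF of `cb_bk`: the diagonal entries of `b` have norm `1`: `b` and `b⁻¹` are integral and the diagonal entries of `b⁻¹` are the inverses (`S.bt_diag`-type
facts, or: the product of the diagonal entries is `det b = 1` and each has norm `≤ 1`); `Slope`.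
PROOF of `final_rev`.  Since `Fr y = ∅` and `y` is regular, `Dr y = Ne y0` as sets.  By `hW.closed` it suffices to find for `ε > 0` an element of `W` within
`ε` of `f` on `Kg`.  `unif` for the compact `Kg` (`kg_compact`): `m₀` with `‖f (x * v) - f x‖ ≤ ε` for `x ∈ Kg`, `v ∈ Kmg m₀`; let `m = max m₀ 1` (`kmg_anti`).
Let `J = {x | ∃ b ∈ Bg, b ∈ Kg ∧ ∃ v ∈ Kmg m, x = b * v}`: a subgroup of `Kg` (`kmg_conj`), containing `Kmg m`.  `coset_reps` with `L = Kg`, `H = J`: `S`.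
Let `G' = Gf χ y (iM m)`, and `F x = ∑ s ∈ S, f s * G' (x * s⁻¹) ∈ W` (`gf_iM`, `hW.trans`, `hW.smul`, `sub_sum_mem`).
`(a)` if `x ∈ Kg` and `G' x ≠ 0` then `x ∈ J`: `x = b * f' * d` (`gf_ne`) with `f' ∈ Ug (Fr y)`, so `f' = 1` (`ug_empty`), and `iM m d ≠ 0`, so `d ∈ Kmg m`
and `b = x * d⁻¹ ∈ Kg`.
`(b)` if `x = b * v`, `b ∈ Bg ∩ Kg`, `v ∈ Kmg m`, then `G' x = cb χ b * cb χ b₁` and `f (x * s) = cb χ b * f (v * s)`, where `v = b₁ * u₁` (`cellG`, `m ≥ 1`),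
`b₁ ∈ Bg ∩ Kmg m`, `u₁ ∈ Ug (Ne y0) ∩ Kmg m = Ug (Dr y) ∩ Kmg m` (`gf_eq` with `f = 1`, `cb_mul`).  So replacing `b` by `b * b₁` we may assume
`v = u₁`, `G' x = cb χ b`, with `b ∈ Bg ∩ Kg`.
Let `x ∈ Kg` and `s ∈ S` the unique element with `x * s⁻¹ ∈ J`.  By `(a)` the other terms of `F x` vanish, `x * s⁻¹ = b * u₁` as in `(b)`,
`F x = f s * cb χ b`, `f x = f (b * (u₁ * s)) = cb χ b * f (s * (s⁻¹ * u₁ * s))`, `s⁻¹ * u₁ * s ∈ Kmg m` (`kmg_conj`, `s ∈ Kg`), so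
`‖f x - F x‖ = ‖cb χ b‖ * ‖f (s * v') - f s‖ ≤ ε` (`cb_bk`).
-/

namespace Pool.Agent.Lib.MP_f399a8_nt.G

open Matrix Filter Topology

noncomputable section

namespace Ctx

variable {ι X Y : Type*} [Finite ι] [AddCommGroup X] [AddCommGroup Y] {N : ℕ} (D : Ctx ι X Y N)
  {p : ℕ} [Fact p.Prime] {C : Type*} [NormedField C] {χ : ↥(D.Tg p) →* Cˣ} {h : X →+ ℝ} {y : Y}

private theorem Fi1_zpow_norm (p : ℕ) [Fact p.Prime] (a : ℤ) :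
    ‖(p : ℚ_[p]) ^ a‖ = (p : ℝ) ^ (-a) := by
  rw [norm_zpow, Padic.norm_p, _root_.inv_zpow, _root_.zpow_neg]

private theorem Fi1_mem {ι X Y : Type*} [Finite ι] [AddCommGroup X] [AddCommGroup Y] {N : ℕ}
    (D : Ctx ι X Y N) {p : ℕ} [Fact p.Prime] (t : D.Gt p) :
    ∃ m : ℕ, ∀ x ∈ D.Kmg p m, t⁻¹ * x * t ∈ D.Kg p := by
  obtain ⟨m, hm⟩ := D.conj_small p (∑ i, ∑ j, ‖t.1.1 i j‖) 0
  refine ⟨m, fun x hx => D.kmg_le (hm t (fun i j => ?_) x hx).2⟩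
  refine (Finset.single_le_sum (f := fun j => ‖t.1.1 i j‖) (fun _ _ => norm_nonneg _)
    (Finset.mem_univ j)).trans ?_
  exact Finset.single_le_sum (f := fun i => ∑ j, ‖t.1.1 i j‖)
    (fun _ _ => Finset.sum_nonneg fun _ _ => norm_nonneg _) (Finset.mem_univ i)

private theorem Fi1_pow_tg {ι X Y : Type*} [Finite ι] [AddCommGroup X] [AddCommGroup Y] {N : ℕ}
    (D : Ctx ι X Y N) {p : ℕ} [Fact p.Prime] (y : Y) (b : ℕ) :
    (D.cc p y (pp p)) ^ b ∈ D.Tg p := pow_mem (D.cc_torus p y (pp p)) b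

theorem contr_km {S' : Set ι} (hy : ∀ α ∈ S', 0 < D.pr α y) {d : D.Gt p}
    (hd : d ∈ D.Ug p S') {M : ℕ}
    (h : ((D.cc p y (pp p)) ^ M)⁻¹ * d * (D.cc p y (pp p)) ^ M ∈ D.Kg p) : d ∈ D.Kmg p M := by
  have hp1 : (1 : ℝ) ≤ (p : ℝ) := by exact_mod_cast (Fact.out : p.Prime).one_lt.le
  have hp0 : (0 : ℝ) < (p : ℝ) := by linarith
  rw [D.mem_Kmg]
  intro i j
  by_cases hij : d.1.1 i j = (1 : Matrix (Fin N) (Fin N) ℚ_[p]) i j
  · rw [hij, sub_self, norm_zero]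
    positivity
  · have h1 := D.ug_supp_y hy hd hij
    have hne : i ≠ j := by
      rintro rfl
      exact lt_irrefl _ h1
    rw [Matrix.one_apply_ne hne, sub_zero]
    have h2 := (D.mem_Kg p).1 h i j
    rw [D.tg_entry', norm_mul, Fi1_zpow_norm] at h2
    have h3 : (p : ℝ) ^ (M : ℤ) ≤ (p : ℝ) ^ (-((M : ℤ) * (D.wp j y - D.wp i y))) := by
      refine zpow_le_zpow_right₀ hp1 ?_
      have h5 : (0 : ℤ) ≤ (M : ℤ) := by positivity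
      nlinarith
    have h4 : (p : ℝ) ^ (M : ℤ) * ‖d.1.1 i j‖ ≤ 1 :=
      (mul_le_mul_of_nonneg_right h3 (norm_nonneg _)).trans h2
    rw [_root_.zpow_neg, ← one_div, le_div_iff₀ (by positivity), mul_comm]
    exact h4

theorem gf_contr {W : Set (D.Gt p → C)} (hW : D.CS χ W) (hG : D.Gf χ y (D.iK C) ∈ W) (M : ℕ) :
    D.Gf χ y (fun x => D.iK C (((D.cc p y (pp p)) ^ M)⁻¹ * x * (D.cc p y (pp p)) ^ M)) ∈ W := by
  have ht := Fi1_pow_tg D (p := p) y M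
  have e : D.Gf χ y (fun x => D.iK C (((D.cc p y (pp p)) ^ M)⁻¹ * x * (D.cc p y (pp p)) ^ M)) =
      fun x => D.cb χ ((D.cc p y (pp p)) ^ M)⁻¹ * D.Gf χ y (D.iK C) (x * (D.cc p y (pp p)) ^ M) := by
    funext x
    rw [← D.gf_conj (D.iK C) ht x, mul_assoc, D.gf_left _ (inv_mem (D.tg_bg ht))]
  rw [e]
  exact hW.smul _ _ (hW.trans _ _ hG)

open Classical in
/-- the indicator function of `Kmg m` -/
def iM (C : Type*) [NormedField C] (m : ℕ) (x : D.Gt p) : C := if x ∈ D.Kmg p m then 1 else 0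

theorem gf_iM {W : Set (D.Gt p → C)} (hW : D.CS χ W) (hG : D.Gf χ y (D.iK C) ∈ W) (m : ℕ) :
    D.Gf χ y (D.iM C m) ∈ W := by
  classical
  obtain ⟨t, ht⟩ : ∃ t, t = (D.cc p y (pp p)) ^ m := ⟨_, rfl⟩
  have hc : ∀ d ∈ D.Ug p (D.Dr y), t⁻¹ * d * t ∈ D.Kg p → d ∈ D.Kmg p m := fun d hd hdK => by
    rw [ht] at hdK
    exact D.contr_km (fun α hα => hα.1) hd hdK
  let L : Subgroup (D.Gt p) := D.Ug p (D.Dr y) ⊓ D.Kmg p m
  have hL : ∀ x, x ∈ L ↔ x ∈ D.Ug p (D.Dr y) ∧ x ∈ D.Kmg p m := fun x => Iff.rfl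
  let H : Subgroup (D.Gt p) :=
    { carrier := {d | d ∈ D.Ug p (D.Dr y) ∧ t⁻¹ * d * t ∈ D.Kg p}
      mul_mem' := by
        rintro a c ⟨ha, ha'⟩ ⟨hc, hc'⟩
        refine ⟨mul_mem ha hc, ?_⟩
        have h2 := mul_mem ha' hc'
        have h3 : t⁻¹ * a * t * (t⁻¹ * c * t) = t⁻¹ * (a * c) * t := by group
        rwa [h3] at h2
      one_mem' := by
        refine ⟨one_mem _, ?_⟩
        rw [mul_one, inv_mul_cancel]
        exact one_mem _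
      inv_mem' := by
        rintro a ⟨ha, ha'⟩
        refine ⟨inv_mem ha, ?_⟩
        have h2 := inv_mem ha'
        have h3 : (t⁻¹ * a * t)⁻¹ = t⁻¹ * a⁻¹ * t := by group
        rwa [h3] at h2 }
  have hH : ∀ x, x ∈ H ↔ x ∈ D.Ug p (D.Dr y) ∧ t⁻¹ * x * t ∈ D.Kg p := fun x => Iff.rfl
  obtain ⟨m', hm'⟩ := Fi1_mem D t
  obtain ⟨S₁, hS1, hS2⟩ := D.coset_reps (L := L) (H := H)
    (fun x hx => D.kmg_le ((hL x).1 hx).2)
    (fun x hx => (hL x).2 ⟨((hH x).1 hx).1, hc x ((hH x).1 hx).1 ((hH x).1 hx).2⟩) (m := m')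
    (fun x hx hxm => (hH x).2 ⟨((hL x).1 hx).1, hm' x hxm⟩)
  have hSU : ∀ s ∈ S₁, s ∈ D.Ug p (D.Dr y) := fun s hs => ((hL s).1 (hS1 s hs)).1
  have hSM : ∀ s ∈ S₁, s ∈ D.Kmg p m := fun s hs => ((hL s).1 (hS1 s hs)).2
  have e : D.Gf χ y (D.iM C m) = fun x => ∑ s ∈ S₁,
      D.Gf χ y (fun z => D.iK C (t⁻¹ * z * t)) (x * s⁻¹) := by
    funext x
    have e1 : ∑ s ∈ S₁, D.Gf χ y (fun z => D.iK C (t⁻¹ * z * t)) (x * s⁻¹) =
        ∑ s ∈ S₁, D.Gf χ y (fun z => D.iK C (t⁻¹ * (z * s⁻¹) * t)) x :=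
      Finset.sum_congr rfl fun s hs => D.gf_right _ (inv_mem (hSU s hs)) x
    rw [e1, ← D.gf_sum]
    refine D.gf_congr (fun d hd => ?_) x
    unfold iM
    split_ifs with hdm
    · obtain ⟨s, ⟨hs, hsH⟩, huniq⟩ := hS2 d ((hL d).2 ⟨hd, hdm⟩)
      rw [Finset.sum_eq_single s]
      · unfold iK
        rw [if_pos ((hH _).1 hsH).2]
      · intro s' hs' hne
        unfold iK
        rw [if_neg]
        intro hK
        exact hne (huniq s' ⟨hs', (hH _).2 ⟨mul_mem hd (inv_mem (hSU s' hs')), hK⟩⟩)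
      · intro h
        exact absurd hs h
    · symm
      refine Finset.sum_eq_zero fun s hs => ?_
      unfold iK
      rw [if_neg]
      intro hK
      apply hdm
      have h1 := hc _ (mul_mem hd (inv_mem (hSU s hs))) hK
      have h2 := mul_mem h1 (hSM s hs)
      rwa [inv_mul_cancel_right] at h2
  rw [e]
  have hψ : D.Gf χ y (fun z => D.iK C (t⁻¹ * z * t)) ∈ W := by
    rw [ht]
    exact D.gf_contr hW hG m
  exact D.sub_sum_mem hW S₁ (fun s x => D.Gf χ y (fun z => D.iK C (t⁻¹ * z * t)) (x * s⁻¹))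
    (fun s _ => hW.trans _ _ hψ)

theorem cb_bk (hs : D.Slope χ h) {b : D.Gt p} (hb : b ∈ D.Bg p) (hbK : b ∈ D.Kg p) :
    ‖D.cb χ b‖ = 1 := by
  have h6 := D.om_cb hs hb 1
  rw [mul_one, D.om_kg h hbK, D.om_kg h (one_mem _), mul_one] at h6
  exact h6.symm

theorem final_rev (hs : D.Slope χ h) (hy : D.Reg y) (hF : D.Fr y = ∅) {W : Set (D.Gt p → C)}
    (hW : D.CS χ W) (hG : D.Gf χ y (D.iK C) ∈ W) {f : D.Gt p → C} (hf : D.PS χ f) : f ∈ W := by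
  classical
  have hDr : D.Ne D.y0 ⊆ D.Dr y := by
    intro α hα
    refine ⟨?_, hα⟩
    rcases lt_trichotomy (D.pr α y) 0 with h1 | h1 | h1
    · exfalso
      have h2 : α ∈ D.Fr y := ⟨h1, hα⟩
      rw [hF] at h2
      exact h2
    · exact absurd h1 (hy α)
    · exact h1
  refine hW.closed f hf fun ε hε => ?_
  obtain ⟨m₀, hm₀⟩ := D.unif hf.1 (D.kg_compact p) hε
  obtain ⟨m, hmdef⟩ : ∃ m, m = max m₀ 1 := ⟨_, rfl⟩
  have hm1 : 1 ≤ m := hmdef ▸ le_max_right _ _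
  have hmm : m₀ ≤ m := hmdef ▸ le_max_left _ _
  let J : Subgroup (D.Gt p) := {
    carrier := {x | ∃ b ∈ D.Bg p, b ∈ D.Kg p ∧ ∃ v ∈ D.Kmg p m, x = b * v}
    mul_mem' := by
      rintro _ _ ⟨b, hb, hbK, v, hv, rfl⟩ ⟨b', hb', hbK', v', hv', rfl⟩
      refine ⟨b * b', mul_mem hb hb', mul_mem hbK hbK', b'⁻¹ * v * b' * v',
        mul_mem (D.kmg_conj hbK' hv).2 hv', ?_⟩
      group
    one_mem' := ⟨1, one_mem _, one_mem _, 1, one_mem _, (mul_one 1).symm⟩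
    inv_mem' := by
      rintro _ ⟨b, hb, hbK, v, hv, rfl⟩
      refine ⟨b⁻¹, inv_mem hb, inv_mem hbK, b * v⁻¹ * b⁻¹, (D.kmg_conj hbK (inv_mem hv)).1, ?_⟩
      group }
  have hmemJ : ∀ x, x ∈ J ↔ ∃ b ∈ D.Bg p, b ∈ D.Kg p ∧ ∃ v ∈ D.Kmg p m, x = b * v :=
    fun x => Iff.rfl
  obtain ⟨S₁, hS1, hS2⟩ := D.coset_reps (L := D.Kg p) (H := J) le_rfl
    (fun x hx => by
      obtain ⟨b, -, hbK, v, hv, rfl⟩ := (hmemJ x).1 hx
      exact mul_mem hbK (D.kmg_le hv)) (m := m)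
    (fun x _ hxm => (hmemJ x).2 ⟨1, one_mem _, one_mem _, x, hxm, (one_mul x).symm⟩)
  obtain ⟨G', hG'⟩ : ∃ G', G' = D.Gf χ y (D.iM C m) := ⟨_, rfl⟩
  have hGW : G' ∈ W := hG' ▸ D.gf_iM hW hG m
  have ha : ∀ x ∈ J, ∃ b ∈ D.Bg p, b ∈ D.Kg p ∧ ∃ d ∈ D.Kmg p m, x = b * d ∧
      G' x = D.cb χ b := by
    intro x hx
    obtain ⟨b, hb, hbK, v, hv, rfl⟩ := (hmemJ x).1 hx
    obtain ⟨b₁, hb₁, u₁, hu₁, rfl, hb₁K, hu₁K⟩ := D.cellG hm1 hv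
    refine ⟨b * b₁, mul_mem hb hb₁, mul_mem hbK (D.kmg_le hb₁K), u₁, hu₁K,
      (mul_assoc _ _ _).symm, ?_⟩
    have h1 := D.gf_eq (χ := χ) (y := y) (D.iM C m) (mul_mem hb hb₁)
      (one_mem (D.Ug p (D.Fr y))) (D.ug_mono hDr hu₁)
    rw [mul_one] at h1
    rw [hG', ← mul_assoc, h1]
    unfold iM
    rw [if_pos hu₁K, mul_one]
  have hb : ∀ x ∈ D.Kg p, x ∉ J → G' x = 0 := by
    intro x hx hxJ
    by_contra hne
    apply hxJ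
    rw [hG'] at hne
    obtain ⟨b, hb, f', hf', d, hd, he, hdn, -⟩ := D.gf_ne hne
    rw [hF] at hf'
    rw [D.ug_empty hf', mul_one] at he
    have hdK : d ∈ D.Kmg p m := by
      by_contra h
      exact hdn (by unfold iM; rw [if_neg h])
    refine (hmemJ x).2 ⟨b, hb, ?_, d, hdK, he⟩
    have h1 := mul_mem hx (inv_mem (D.kmg_le hdK))
    rwa [he, mul_inv_cancel_right] at h1
  refine ⟨fun x => ∑ s ∈ S₁, f s * G' (x * s⁻¹),
    D.sub_sum_mem hW S₁ (fun s x => f s * G' (x * s⁻¹))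
      (fun s _ => hW.smul _ _ (hW.trans _ _ hGW)), ?_⟩
  intro k hk
  obtain ⟨s, ⟨hs', hsJ⟩, huniq⟩ := hS2 k hk
  have h1 : ∑ s ∈ S₁, f s * G' (k * s⁻¹) = f s * G' (k * s⁻¹) := by
    refine Finset.sum_eq_single s ?_ fun h => absurd hs' h
    intro s₂ hs₂ hne
    rw [hb _ (mul_mem hk (inv_mem (hS1 s₂ hs₂))) fun h => hne (huniq s₂ ⟨hs₂, h⟩), mul_zero]
  show ‖f k - ∑ s ∈ S₁, f s * G' (k * s⁻¹)‖ ≤ ε
  rw [h1]
  obtain ⟨b, hbB, hbK, d, hdM, he, hG1⟩ := ha _ hsJ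
  rw [hG1]
  have h2 : k = b * (s * (s⁻¹ * d * s)) := by
    have h3 : k = k * s⁻¹ * s := by group
    rw [h3, he]
    group
  have h4 := hf.2 b hbB (s * (s⁻¹ * d * s))
  rw [← h2] at h4
  rw [h4, mul_comm (f s), ← mul_sub, norm_mul, D.cb_bk hs hbB hbK, one_mul]
  exact hm₀ s (hS1 s hs') _ (D.kmg_anti hmm (D.kmg_conj (hS1 s hs') hdM).2)

end Ctx

end

end Pool.Agent.Lib.MP_f399a8_nt.G
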