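import Pool.Agent.Lib.MP_f399a8_ntG.Rt5
import Pool.Agent.Lib.MP_f399a8_ntG.Ex2

/-!
# The root vectors as matrices over `ℚ_p`

PROOF.
* `ef_wt`: `D.M.E_wt` (the cast is injective).  `ef_neg`, `ef_add`, `ef_comm`: cast the identities of `D.M` with
  `Matrix.map` (ring hom `Int.castRingHom`); for `ef_neg` note `D.P.root (D.ng α) = - D.P.root α`; in `ef_add` the constant is
  `± (r + 1) ≠ 0`.
* `ef_nil`: `gr_nilpotent` with `f i = D.wp i (D.co α)`: `⟨wt i, α^∨⟩ = ⟨wt j, α^∨⟩ + 2`.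
* `ef_prim`: suppose all entries of the integral matrix `E α` are divisible by `p` (an integer entry which is not divisible by `p`
  has norm one in `ℚ_[p]`).  Then so are the entries of `H = E α * E (-α) - E (-α) * E α`, i.e. `p ∣ ⟨wt i, α^∨⟩` for all `i`, so
  `p ∣ ⟨x, α^∨⟩` for all `x : X` (`D.M.wt_span`), and `x ↦ ⟨x, α^∨⟩ / p` is additive, equal to `⟨x, y⟩` for some `y` (`dual_y`), so
  `α^∨ = p • y` (`pa_ext_y`), which contradicts `co_prim`.
* `ef_div`: entries of `(1 / k!) E^k` are integers (`D.M.E_div`), so they have norm `≤ 1`.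
* `wp_sum`: for `y = α^∨`: the trace of `E α * E (-α) - E (-α) * E α` is `0` (`Matrix.trace_mul_comm`); both sides are additive in `y`;
  `D.cospan`.
* `form_eq`: let `H = diagonal (h (wt i))` (real), `A, B` the real matrices of `E α`, `E (-α)`.
  `∑ i, h (wt i) * ⟨wt i, α^∨⟩ = tr ((A B - B A) H) = tr (A (B H - H B)) = h (α) * tr (A B)`, because the entries `(i, j)` of `B` are
  nonzero only for `wt i = - α + wt j`, so `B H - H B = h α • B`.  And `∑ i, ⟨wt i, α^∨⟩² = 2 tr (A B)` (the case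
  `h = ⟨·, α^∨⟩`, `h α = 2`), which is positive: not all `⟨wt i, α^∨⟩` are zero (`⟨α, α^∨⟩ = 2`, `wt_span`).  So
  `κ = (∑ ⟨wt i, α^∨⟩²) / 2` works.
* `wt_ext`: two additive maps on `X` agreeing on the weights are equal.
-/

namespace Pool.Agent.Lib.MP_f399a8_nt.G

open Matrix

noncomputable section

namespace Ctx

variable {ι X Y : Type*} [Finite ι] [AddCommGroup X] [AddCommGroup Y] {N : ℕ} (D : Ctx ι X Y N)
  (p : ℕ) [Fact p.Prime]

theorem ef_wt {α : ι} {i j : Fin N} (h : D.Ef p α i j ≠ 0) : D.wt i = D.rt α + D.wt j := by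
  apply D.M.E_wt α i j
  intro h0
  apply h
  show (((D.M.E α i j : ℤ)) : ℚ_[p]) = 0
  rw [h0, Int.cast_zero]

/-- the cast of integral matrices -/
private def Ga1_c : Matrix (Fin N) (Fin N) ℤ →+* Matrix (Fin N) (Fin N) ℚ_[p] :=
  (Int.castRingHom ℚ_[p]).mapMatrix

private theorem Ga1_c_E (α : ι) : Ga1_c p (D.M.E α) = D.Ef p α := rfl

private theorem Ga1_c_apply (A : Matrix (Fin N) (Fin N) ℤ) (i j : Fin N) :
    Ga1_c p A i j = ((A i j : ℤ) : ℚ_[p]) := rfl

private theorem Ga1_E_neg (α : ι) : D.M.E α * D.M.E (D.ng α) - D.M.E (D.ng α) * D.M.E α =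
    Matrix.diagonal fun i => D.wp i (D.co α) :=
  D.M.E_neg α (D.ng α) (D.rt_ng α)

theorem ef_neg (α : ι) : D.Ef p α * D.Ef p (D.ng α) - D.Ef p (D.ng α) * D.Ef p α =
    Matrix.diagonal fun i => ((D.wp i (D.co α) : ℤ) : ℚ_[p]) := by
  have h := congrArg (Ga1_c p) (D.Ga1_E_neg α)
  rw [map_sub, map_mul, map_mul, Ga1_c_E, Ga1_c_E] at h
  rw [h]
  ext i j
  rw [Ga1_c_apply]
  by_cases hij : i = j
  · subst hij
    rw [Matrix.diagonal_apply_eq, Matrix.diagonal_apply_eq]
  · rw [Matrix.diagonal_apply_ne _ hij, Matrix.diagonal_apply_ne _ hij, Int.cast_zero]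

theorem ef_add {α β γ : ι} (h : D.rt γ = D.rt α + D.rt β) :
    ∃ c : ℚ_[p], c ≠ 0 ∧ D.Ef p α * D.Ef p β - D.Ef p β * D.Ef p α = c • D.Ef p γ := by
  have hc : ∀ (z : ℤ) (A : Matrix (Fin N) (Fin N) ℤ), Ga1_c p (z • A) = ((z : ℤ) : ℚ_[p]) • Ga1_c p A := by
    intro z A
    ext i j
    rw [Ga1_c_apply, Matrix.smul_apply, Matrix.smul_apply, Ga1_c_apply, smul_eq_mul, smul_eq_mul]
    push_cast
    rfl
  have h0 : (((D.P.chainBotCoeff α β : ℤ) + 1 : ℤ) : ℚ_[p]) ≠ 0 := by
    have : ((D.P.chainBotCoeff α β : ℤ) + 1 : ℤ) ≠ 0 := by positivity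
    exact_mod_cast this
  rcases D.M.E_add α β γ h with h1 | h1
  · refine ⟨_, h0, ?_⟩
    have h2 := congrArg (Ga1_c p) h1
    rw [map_sub, map_mul, map_mul, Ga1_c_E, Ga1_c_E, hc, Ga1_c_E] at h2
    exact h2
  · refine ⟨_, neg_ne_zero.2 h0, ?_⟩
    have h2 := congrArg (Ga1_c p) h1
    rw [map_sub, map_mul, map_mul, map_neg, Ga1_c_E, Ga1_c_E, hc, Ga1_c_E] at h2
    rw [h2, neg_smul]

theorem ef_comm {α β : ι} (h : β ≠ D.ng α) (h1 : ∀ γ, D.rt γ ≠ D.rt α + D.rt β) :
    D.Ef p α * D.Ef p β = D.Ef p β * D.Ef p α := by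
  have h2 : D.P.root α + D.P.root β ≠ 0 := by
    intro h3
    apply h
    apply D.rt_inj
    rw [D.rt_ng]
    exact (neg_eq_of_add_eq_zero_right h3).symm
  have h3 := congrArg (Ga1_c p) (D.M.E_comm α β h2 h1)
  rw [map_mul, map_mul, Ga1_c_E, Ga1_c_E] at h3
  exact h3

theorem ef_nil (α : ι) : IsNilpotent (D.Ef p α) := by
  apply gr_nilpotent (f := fun i => D.wp i (D.co α))
  intro i j h
  have h1 := D.ef_wt p h
  show D.wp j (D.co α) < D.wp i (D.co α)
  rw [D.wp_def, D.wp_def, h1, D.pa_add_left, ← D.pr_def, D.pr_co_self]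
  omega

theorem ef_nil_smul (α : ι) (s : ℚ_[p]) : IsNilpotent (s • D.Ef p α) := by
  obtain ⟨n, hn⟩ := D.ef_nil p α
  exact ⟨n, by rw [smul_pow, hn, smul_zero]⟩

theorem ef_int (α : ι) (i j : Fin N) : ‖D.Ef p α i j‖ ≤ 1 :=
  Padic.norm_int_le_one (D.M.E α i j)

theorem wt_ext {A : Type*} [AddCommGroup A] {f g : X →+ A} (h : ∀ i, f (D.wt i) = g (D.wt i)) :
    f = g := by
  apply AddMonoidHom.eq_of_eqOn_dense D.M.wt_span
  rintro x ⟨i, rfl⟩
  exact h i

theorem wt_ind {q : X → Prop} (h0 : q 0) (h1 : ∀ i, q (D.wt i)) (h2 : ∀ x x', q x → q x' → q (x + x'))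
    (h3 : ∀ x, q x → q (-x)) (x : X) : q x := by
  have hx : x ∈ AddSubgroup.closure (Set.range D.M.wt) := by
    rw [D.M.wt_span]
    exact AddSubgroup.mem_top x
  induction hx using AddSubgroup.closure_induction with
  | mem x hx =>
    obtain ⟨i, rfl⟩ := hx
    exact h1 i
  | zero => exact h0
  | add x y _ _ hx hy => exact h2 x y hx hy
  | neg x _ hx => exact h3 x hx

theorem ef_prim (α : ι) : ∃ i j, ‖D.Ef p α i j‖ = 1 := by
  by_contra hcon
  push Not at hcon
  have hdiv : ∀ i j, (p : ℤ) ∣ D.M.E α i j := by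
    intro i j
    have h1 : ‖((D.M.E α i j : ℤ) : ℚ_[p])‖ < 1 :=
      lt_of_le_of_ne (D.ef_int p α i j) (hcon i j)
    exact (Padic.norm_intCast_lt_one_iff).1 h1
  have hwp : ∀ i, (p : ℤ) ∣ D.wp i (D.co α) := by
    intro i
    have h1 := congrFun (congrFun (D.Ga1_E_neg α) i) i
    rw [Matrix.diagonal_apply_eq, Matrix.sub_apply, Matrix.mul_apply, Matrix.mul_apply] at h1
    rw [← h1]
    apply dvd_sub
    · exact Finset.dvd_sum (fun k _ => (hdiv i k).mul_right _)
    · exact Finset.dvd_sum (fun k _ => (hdiv k i).mul_left _)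
  have hpa : ∀ x, (p : ℤ) ∣ D.pa x (D.co α) := by
    intro x
    induction x using D.wt_ind with
    | h0 => rw [D.pa_zero_left]; exact dvd_zero _
    | h1 i => exact hwp i
    | h2 x x' hx hx' => rw [D.pa_add_left]; exact dvd_add hx hx'
    | h3 x hx => rw [D.pa_neg_left]; exact (dvd_neg).2 hx
  have hp0 : (p : ℤ) ≠ 0 := by exact_mod_cast (Fact.out : p.Prime).ne_zero
  let f : X →+ ℤ :=
    { toFun := fun x => D.pa x (D.co α) / p
      map_zero' := by rw [D.pa_zero_left]; exact Int.zero_ediv _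
      map_add' := fun x y => by rw [D.pa_add_left]; exact Int.add_ediv_of_dvd_left (hpa x) }
  obtain ⟨y, hy⟩ := D.dual_y f
  have hf : ∀ x, D.pa x (D.co α) = p * f x := by
    intro x
    exact (Int.mul_ediv_cancel' (hpa x)).symm
  apply D.co_prim α (q := (p : ℤ)) (by exact_mod_cast (Fact.out : p.Prime).two_le) y
  apply D.pa_ext_y
  intro x
  rw [hf, hy, D.pa_smul_right]

theorem ef_div (α : ι) (k : ℕ) (i j : Fin N) :
    ‖(((k.factorial : ℚ_[p]))⁻¹ • (D.Ef p α) ^ k) i j‖ ≤ 1 := by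
  obtain ⟨A, hA⟩ := D.M.E_div α k
  have h1 : (D.Ef p α) ^ k = (k.factorial : ℚ_[p]) • Ga1_c p A := by
    rw [← Ga1_c_E, ← map_pow, hA]
    ext i j
    rw [Ga1_c_apply, Matrix.smul_apply, Matrix.smul_apply, Ga1_c_apply, smul_eq_mul, smul_eq_mul]
    push_cast
    rfl
  have h2 : (k.factorial : ℚ_[p]) ≠ 0 := by exact_mod_cast k.factorial_ne_zero
  rw [h1, smul_smul, inv_mul_cancel₀ h2, one_smul, Ga1_c_apply]
  exact Padic.norm_int_le_one _

theorem wp_sum (y : Y) : ∑ i, D.wp i y = 0 := by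
  have hy : y ∈ AddSubgroup.closure (Set.range D.P.coroot) := by
    rw [D.cospan]
    exact AddSubgroup.mem_top y
  induction hy using AddSubgroup.closure_induction with
  | mem y hy =>
    obtain ⟨α, rfl⟩ := hy
    have h1 := congrArg Matrix.trace (D.Ga1_E_neg α)
    rw [Matrix.trace_sub, Matrix.trace_mul_comm, sub_self, Matrix.trace_diagonal] at h1
    exact h1.symm
  | zero =>
    apply Finset.sum_eq_zero
    intro i _
    rw [D.wp_def, D.pa_zero_right]
  | add y y' _ _ hy hy' =>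
    have : ∀ i, D.wp i (y + y') = D.wp i y + D.wp i y' := by
      intro i
      rw [D.wp_def, D.pa_add_right, ← D.wp_def, ← D.wp_def]
    rw [Finset.sum_congr rfl (fun i _ => this i), Finset.sum_add_distrib, hy, hy', add_zero]
  | neg y _ hy =>
    have : ∀ i, D.wp i (-y) = -D.wp i y := by
      intro i
      rw [D.wp_def, D.pa_neg_right, ← D.wp_def]
    rw [Finset.sum_congr rfl (fun i _ => this i), Finset.sum_neg_distrib, hy, neg_zero]

theorem form_eq (α : ι) : ∃ κ : ℝ, 0 < κ ∧ ∀ h : X →+ ℝ,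
    ∑ i, h (D.wt i) * (D.wp i (D.co α) : ℝ) = κ * h (D.rt α) := by
  let cr : Matrix (Fin N) (Fin N) ℤ →+* Matrix (Fin N) (Fin N) ℝ := (Int.castRingHom ℝ).mapMatrix
  have cr_apply : ∀ (A : Matrix (Fin N) (Fin N) ℤ) (i j : Fin N), cr A i j = ((A i j : ℤ) : ℝ) :=
    fun A i j => rfl
  set A := cr (D.M.E α) with hA
  set B := cr (D.M.E (D.ng α)) with hB
  have hAB : A * B - B * A = Matrix.diagonal fun i => ((D.wp i (D.co α) : ℤ) : ℝ) := by
    have h := congrArg cr (D.Ga1_E_neg α)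
    rw [map_sub, map_mul, map_mul] at h
    rw [hA, hB, h]
    ext i j
    rw [cr_apply]
    by_cases hij : i = j
    · subst hij
      rw [Matrix.diagonal_apply_eq, Matrix.diagonal_apply_eq]
    · rw [Matrix.diagonal_apply_ne _ hij, Matrix.diagonal_apply_ne _ hij, Int.cast_zero]
  have key : ∀ h : X →+ ℝ, ∑ i, h (D.wt i) * (D.wp i (D.co α) : ℝ) =
      Matrix.trace (A * B) * h (D.rt α) := by
    intro h
    set H : Matrix (Fin N) (Fin N) ℝ := Matrix.diagonal fun i => h (D.wt i) with hH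
    have h1 : B * H - H * B = h (D.rt α) • B := by
      ext i j
      rw [Matrix.sub_apply, hH, Matrix.mul_diagonal, Matrix.diagonal_mul, Matrix.smul_apply,
        smul_eq_mul]
      by_cases hb : D.M.E (D.ng α) i j = 0
      · have : B i j = 0 := by rw [hB, cr_apply, hb, Int.cast_zero]
        rw [this]
        ring
      · have h2 : D.wt i = D.rt (D.ng α) + D.wt j := D.M.E_wt (D.ng α) i j hb
        rw [h2, D.rt_ng, map_add, map_neg]
        ring
    have h3 : Matrix.trace ((A * B - B * A) * H) = Matrix.trace (A * (B * H - H * B)) := by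
      rw [sub_mul, mul_sub, Matrix.trace_sub, Matrix.trace_sub, mul_assoc, mul_assoc B A H,
        Matrix.trace_mul_comm B (A * H), mul_assoc A H B]
    rw [hAB, h1, hH, Matrix.diagonal_mul_diagonal, Matrix.trace_diagonal, Matrix.mul_smul,
      Matrix.trace_smul, smul_eq_mul] at h3
    rw [mul_comm (Matrix.trace (A * B)), ← h3]
    apply Finset.sum_congr rfl
    intro i _
    ring
  refine ⟨Matrix.trace (A * B), ?_, key⟩
  let h0 : X →+ ℝ :=
    { toFun := fun x => ((D.pa x (D.co α) : ℤ) : ℝ)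
      map_zero' := by rw [D.pa_zero_left]; exact Int.cast_zero
      map_add' := fun x y => by rw [D.pa_add_left]; exact Int.cast_add _ _ }
  have h1 := key h0
  have h2 : h0 (D.rt α) = 2 := by
    show ((D.pa (D.rt α) (D.co α) : ℤ) : ℝ) = 2
    rw [← D.pr_def, D.pr_co_self]
    norm_num
  rw [h2] at h1
  have h3 : ∀ i, h0 (D.wt i) * (D.wp i (D.co α) : ℝ) = (D.wp i (D.co α) : ℝ) ^ 2 := by
    intro i
    show ((D.pa (D.wt i) (D.co α) : ℤ) : ℝ) * _ = _
    rw [← D.wp_def]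
    ring
  rw [Finset.sum_congr rfl (fun i _ => h3 i)] at h1
  have h4 : 0 < ∑ i, (D.wp i (D.co α) : ℝ) ^ 2 := by
    by_contra hcon
    have h5 : ∑ i, (D.wp i (D.co α) : ℝ) ^ 2 = 0 :=
      le_antisymm (not_lt.1 hcon) (Finset.sum_nonneg (fun i _ => sq_nonneg _))
    have h6 := (Finset.sum_eq_zero_iff_of_nonneg (fun i _ => sq_nonneg _)).1 h5
    have h7 : ∀ x, D.pa x (D.co α) = 0 := by
      intro x
      induction x using D.wt_ind with
      | h0 => exact D.pa_zero_left _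
      | h1 i =>
        have h8 := h6 i (Finset.mem_univ _)
        have h9 : (D.wp i (D.co α) : ℝ) = 0 := by
          exact pow_eq_zero_iff (two_ne_zero) |>.1 h8
        have : D.wp i (D.co α) = 0 := by exact_mod_cast h9
        exact this
      | h2 x x' hx hx' => rw [D.pa_add_left, hx, hx', add_zero]
      | h3 x hx => rw [D.pa_neg_left, hx, neg_zero]
    have h8 := h7 (D.rt α)
    rw [← D.pr_def, D.pr_co_self] at h8
    norm_num at h8
  linarith

end Ctx

end

end Pool.Agent.Lib.MP_f399a8_nt.G
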