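import Pool.Agent.Lib.MP_f399a8_ntG.Ga1

/-!
# The one-parameter groups

PROOF.
* `xm_add`: `IsNilpotent.exp_add_of_commute`.  `xm_zero`: `exp 0 = 1`.
* `xm_entry`: `exp (s E) = ∑_{k} (s^k / k!) E^k` (`exp_eq_sum`), and `(E^k) i j ≠ 0` implies `wt i = wt j + k α` (induction, `ef_wt`;
  compare `gr_pow`).  As `X` is torsion-free (`tors_x`, `rt_ne_zero`) `k` is determined by `i, j`.  So if
  `wt i = wt j + k • α` with `k : ℕ`, the entry of `exp (s E)` is `s ^ k * (exp E) i j`; if there is no such `k` it is zero.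
  (`xm_entry_int`: the entry of `exp E` is the one of `(1 / k!) E^k`, of norm `≤ 1` by `ef_div`.)
* `xm_one`: for `wt i = wt j + α` the entry is `s * E i j`.  `xm_diag`: for `wt i = wt j` it is `1 i j`.
* `xm_det`: `exp (s E)` is block triangular for `f i = ⟨wt i, α^∨⟩` with identity matrices as diagonal blocks.  For instance: the
  determinant of `1 + A` with `A` nilpotent is `1 +` nilpotent, so `det (xm s)` is one over the field (`A = exp (s E) - 1` is nilpotent,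
  `IsNilpotent.isNilpotent_exp_sub_one`; Mathlib: `Matrix.isNilpotent_det_sub_one…`/`Matrix.isNilpotent_charpoly…`), or
  `Matrix.BlockTriangular.det` with `OrderDual`, or: `det (xm (s)) = det (xm (s/m))^m` …
* `xr`: the element of the group with matrix `xm`; membership by `Subgroup.subset_closure`.
-/

namespace Pool.Agent.Lib.MP_f399a8_nt.G

open Matrix

noncomputable section

namespace Ctx

variable {ι X Y : Type*} [Finite ι] [AddCommGroup X] [AddCommGroup Y] {N : ℕ} (D : Ctx ι X Y N)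
  (p : ℕ) [Fact p.Prime]

theorem xm_def (α : ι) (s : ℚ_[p]) : D.xm p α s = xmat D.M p α s := rfl

theorem Ga2_exp (α : ι) : ∃ K : ℕ, (D.Ef p α) ^ K = 0 ∧ ∀ s : ℚ_[p], D.xm p α s =
    ∑ k ∈ Finset.range K, ((k.factorial : ℚ))⁻¹ • (s ^ k • (D.Ef p α) ^ k) := by
  obtain ⟨K, hK⟩ := D.ef_nil p α
  refine ⟨K, hK, fun s => ?_⟩
  have h1 : (s • D.Ef p α) ^ K = 0 := by
    rw [smul_pow, hK, smul_zero]
  unfold xm
  rw [IsNilpotent.exp_eq_sum h1]
  refine Finset.sum_congr rfl fun k _ => ?_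
  rw [smul_pow]

theorem Ga2_wt (α : ι) (k : ℕ) : ∀ i j : Fin N, ((D.Ef p α) ^ k) i j ≠ 0 →
    D.wt i = D.wt j + (k : ℤ) • D.rt α := by
  induction k with
  | zero =>
    intro i j h
    rw [pow_zero] at h
    have h1 : i = j := by
      by_contra hne
      exact h (Matrix.one_apply_ne hne)
    rw [h1]
    simp
  | succ k ih =>
    intro i j h
    rw [pow_succ, Matrix.mul_apply] at h
    obtain ⟨l, _, hl⟩ := Finset.exists_ne_zero_of_sum_ne_zero h
    have h1 := ih i l (left_ne_zero_of_mul hl)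
    have h2 := D.ef_wt p (right_ne_zero_of_mul hl)
    rw [h1, h2]
    push_cast
    rw [add_smul, one_smul]
    abel

/-- the entry of a power in the wrong degree vanishes -/
theorem Ga2_zero (α : ι) {k l : ℕ} {i j : Fin N} (h : D.wt i = D.wt j + (k : ℤ) • D.rt α)
    (hkl : l ≠ k) : ((D.Ef p α) ^ l) i j = 0 := by
  by_contra hne
  have h1 := D.Ga2_wt p α l i j hne
  rw [h] at h1
  have h2 : ((k : ℤ) - l) • D.rt α = 0 := by
    rw [sub_smul, sub_eq_zero]
    exact add_left_cancel h1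
  have h3 := congrArg (fun z => D.pa z (D.co α)) h2
  simp only [D.pa_smul_left, D.pa_zero_left] at h3
  rw [← D.pr_def, D.pr_co_self] at h3
  apply hkl
  omega

theorem Ga2_apply {K : ℕ} (α : ι) (s : ℚ_[p]) (i j : Fin N) :
    (∑ k ∈ Finset.range K, ((k.factorial : ℚ))⁻¹ • (s ^ k • (D.Ef p α) ^ k)) i j =
      ∑ k ∈ Finset.range K, ((k.factorial : ℚ))⁻¹ • (s ^ k * ((D.Ef p α) ^ k) i j) := by
  rw [Matrix.sum_apply]
  refine Finset.sum_congr rfl fun k _ => ?_
  rw [Matrix.smul_apply, Matrix.smul_apply, smul_eq_mul]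

theorem xm_zero (α : ι) : D.xm p α 0 = 1 := by
  unfold xm
  rw [zero_smul, IsNilpotent.exp_zero]

theorem xm_add (α : ι) (s t : ℚ_[p]) : D.xm p α (s + t) = D.xm p α s * D.xm p α t := by
  unfold xm
  rw [add_smul, IsNilpotent.exp_add_of_commute _ (D.ef_nil_smul p α s) (D.ef_nil_smul p α t)]
  exact ((Commute.refl (D.Ef p α)).smul_left s).smul_right t

theorem xm_entry (α : ι) (s : ℚ_[p]) {i j : Fin N} {k : ℕ}
    (h : D.wt i = D.wt j + (k : ℤ) • D.rt α) : D.xm p α s i j = s ^ k * D.xm p α 1 i j := by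
  obtain ⟨K, hK, hx⟩ := D.Ga2_exp p α
  rw [hx, hx, D.Ga2_apply, D.Ga2_apply, Finset.mul_sum]
  refine Finset.sum_congr rfl fun l _ => ?_
  by_cases hl : l = k
  · rw [hl, one_pow, one_mul, mul_smul_comm]
  · rw [D.Ga2_zero p α h hl, mul_zero, mul_zero, smul_zero, mul_zero]

theorem xm_entry_zero (α : ι) (s : ℚ_[p]) {i j : Fin N}
    (h : ∀ k : ℕ, D.wt i ≠ D.wt j + (k : ℤ) • D.rt α) : D.xm p α s i j = 0 := by
  obtain ⟨K, hK, hx⟩ := D.Ga2_exp p α
  rw [hx, D.Ga2_apply]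
  refine Finset.sum_eq_zero fun l _ => ?_
  have h1 : ((D.Ef p α) ^ l) i j = 0 := by
    by_contra hne
    exact h l (D.Ga2_wt p α l i j hne)
  rw [h1, mul_zero, smul_zero]

/-- the entry of `exp E` is the entry of one divided power -/
theorem Ga2_single (α : ι) {i j : Fin N} {k : ℕ}
    (h : D.wt i = D.wt j + (k : ℤ) • D.rt α) :
    D.xm p α 1 i j = ((k.factorial : ℚ_[p])⁻¹ • (D.Ef p α) ^ k) i j := by
  obtain ⟨K, hK, hx⟩ := D.Ga2_exp p α
  have hcoe : ∀ x : ℚ_[p], ((k.factorial : ℚ))⁻¹ • x = (k.factorial : ℚ_[p])⁻¹ * x := by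
    intro x
    rw [Rat.smul_def]
    push_cast
    rfl
  rw [hx, D.Ga2_apply, Matrix.smul_apply, smul_eq_mul, ← hcoe]
  by_cases hkK : k < K
  · rw [Finset.sum_eq_single k]
    · rw [one_pow, one_mul]
    · intro l _ hl
      rw [D.Ga2_zero p α h hl, mul_zero, smul_zero]
    · intro hk
      exact absurd (Finset.mem_range.2 hkK) hk
  · push Not at hkK
    have h2 : (D.Ef p α) ^ k = 0 := pow_eq_zero_of_le hkK hK
    rw [h2, Matrix.zero_apply, smul_zero]
    refine Finset.sum_eq_zero fun l hl => ?_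
    rw [Finset.mem_range] at hl
    rw [D.Ga2_zero p α h (by omega), mul_zero, smul_zero]

theorem xm_entry_int (α : ι) (i j : Fin N) : ‖D.xm p α 1 i j‖ ≤ 1 := by
  by_cases h : ∃ k : ℕ, D.wt i = D.wt j + (k : ℤ) • D.rt α
  · obtain ⟨k, hk⟩ := h
    rw [D.Ga2_single p α hk]
    exact D.ef_div p α k i j
  · rw [D.xm_entry_zero p α 1 (fun k hk => h ⟨k, hk⟩), norm_zero]
    exact zero_le_one

theorem xm_one (α : ι) (s : ℚ_[p]) {i j : Fin N} (h : D.wt i = D.wt j + D.rt α) :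
    D.xm p α s i j = s * D.Ef p α i j := by
  have h1 : D.wt i = D.wt j + ((1 : ℕ) : ℤ) • D.rt α := by
    rw [Nat.cast_one, one_smul]
    exact h
  rw [D.xm_entry p α s h1, D.Ga2_single p α h1, pow_one, pow_one, Nat.factorial_one, Nat.cast_one,
    inv_one, one_smul]

theorem xm_diag (α : ι) (s : ℚ_[p]) {i j : Fin N} (h : D.wt i = D.wt j) :
    D.xm p α s i j = (1 : Matrix (Fin N) (Fin N) ℚ_[p]) i j := by
  have h1 : D.wt i = D.wt j + ((0 : ℕ) : ℤ) • D.rt α := by
    rw [Nat.cast_zero, zero_smul, add_zero]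
    exact h
  rw [D.xm_entry p α s h1, D.Ga2_single p α h1, pow_zero, pow_zero, Nat.factorial_zero,
    Nat.cast_one, inv_one, one_smul, one_mul]

/-- unipotent matrices have determinant one -/
theorem Ga2_det {A : Matrix (Fin N) (Fin N) ℚ_[p]} (hA : IsNilpotent (A - 1)) : A.det = 1 := by
  have h := Matrix.isUnit_charpolyRev_of_isNilpotent hA
  obtain ⟨c, _, he⟩ := Polynomial.isUnit_iff.1 h
  have h0 : c = 1 := by
    have h1 := Matrix.eval_charpolyRev (M := A - 1)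
    rw [← he, Polynomial.eval_C] at h1
    exact h1
  have h2 : Polynomial.eval (-1) (A - 1).charpolyRev = A.det := by
    rw [Matrix.charpolyRev, ← Polynomial.coe_evalRingHom, RingHom.map_det]
    congr 1
    ext i j
    rcases eq_or_ne i j with hij | hij
    · subst hij
      simp
    · simp [hij]
  rw [← h2, ← he, h0]
  simp

theorem xm_det (α : ι) (s : ℚ_[p]) : (D.xm p α s).det = 1 :=
  Ga2_det p (IsNilpotent.isNilpotent_exp_sub_one (D.ef_nil_smul p α s))

/-- the element `x_α (s)` of the group -/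
def xr (α : ι) (s : ℚ_[p]) : D.Gt p :=
  ⟨⟨D.xm p α s, D.xm_det p α s⟩, Subgroup.subset_closure ⟨α, s, rfl⟩⟩

theorem xr_val (α : ι) (s : ℚ_[p]) : (D.xr p α s).1.1 = D.xm p α s := rfl

theorem xr_zero (α : ι) : D.xr p α 0 = 1 :=
  Subtype.ext (Subtype.ext (D.xm_zero p α))

theorem xr_add (α : ι) (s t : ℚ_[p]) : D.xr p α (s + t) = D.xr p α s * D.xr p α t :=
  Subtype.ext (Subtype.ext (D.xm_add p α s t))

theorem xr_neg (α : ι) (s : ℚ_[p]) : D.xr p α (-s) = (D.xr p α s)⁻¹ := by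
  apply eq_inv_of_mul_eq_one_left
  rw [← D.xr_add, neg_add_cancel, D.xr_zero]

theorem gt_ext {x y : D.Gt p} (h : x.1.1 = y.1.1) : x = y :=
  Subtype.ext (Subtype.ext h)

theorem val_mul (x y : D.Gt p) : (x * y).1.1 = x.1.1 * y.1.1 := rfl

theorem val_one : (1 : D.Gt p).1.1 = 1 := rfl

theorem val_inv (x : D.Gt p) : (x⁻¹).1.1 * x.1.1 = 1 ∧ x.1.1 * (x⁻¹).1.1 = 1 := by
  constructor
  · rw [← D.val_mul, inv_mul_cancel, D.val_one]
  · rw [← D.val_mul, mul_inv_cancel, D.val_one]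

/-- induction on elements of the group -/
theorem gt_ind {q : D.Gt p → Prop} (h1 : q 1) (hx : ∀ x α s, q x → q (x * D.xr p α s)) (x : D.Gt p) :
    q x := by
  obtain ⟨x, hxm⟩ := x
  refine Subgroup.closure_induction_right
    (p := fun (y : SLp p N) (hy : y ∈ chevGroup D.M p) => q ⟨y, hy⟩) ?_ ?_ ?_ hxm
  · exact h1
  · rintro y hy z ⟨α, s, hz⟩ hq
    have h2 : (⟨y * z, mul_mem hy (Subgroup.subset_closure ⟨α, s, hz⟩)⟩ : D.Gt p) =
        ⟨y, hy⟩ * D.xr p α s := by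
      apply D.gt_ext
      rw [D.val_mul, D.xr_val, D.xm_def, ← hz]
      rfl
    rw [h2]
    exact hx _ α s hq
  · rintro y hy z ⟨α, s, hz⟩ hq
    have h3 : (⟨z, Subgroup.subset_closure ⟨α, s, hz⟩⟩ : D.Gt p) = D.xr p α s :=
      D.gt_ext p hz
    have h2 : (⟨y * z⁻¹, mul_mem hy (inv_mem (Subgroup.subset_closure ⟨α, s, hz⟩))⟩ : D.Gt p) =
        ⟨y, hy⟩ * D.xr p α (-s) := by
      rw [D.xr_neg, ← h3]
      rfl
    rw [h2]
    exact hx _ α (-s) hq

end Ctx

end

end Pool.Agent.Lib.MP_f399a8_nt.G
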