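import Pool.Agent.Lib.MP_f399a8_ntG.Ga2

/-!
# Integrality and continuity of the one-parameter groups, the groups `Ug`

PROOF.
* `xr_K`: if `‖s‖ ≤ 1` the entries are `s ^ k * (exp E) i j` of norm `≤ 1`, or `0` (`xm_entry*`).  Conversely take `i, j` with
  `‖E i j‖ = 1` (`ef_prim`); `wt i = α + wt j` (`ef_wt`), so the entry of `x_α (s)` is `s * E i j` (`xm_one`).
* `xr_Km`: the same; entries with `k = 0` agree with the identity matrix (`xm_diag`), for `k ≥ 1` `‖s ^ k‖ ≤ ‖s‖ ≤ p ^ (-m)`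
  (for `m = 0` `‖s‖ ≤ 1`).  Conversely the entry at a primitive position is off-diagonal (`wt i ≠ wt j`).
* `xr_cont`: the entries are `s ^ k * const` or `0`, so `s ↦ xr α s` is continuous (subspace topologies:
  `Continuous.subtype_mk`, `continuous_matrix`).
* `ug_*`: `Ug S` is generated by the elements `xr α s`, `α ∈ S` (`g.1.1 = xm α s` means `g = xr α s`).  `ug_ind`:
  `Subgroup.closure_induction`-type statement: every element of `Ug S` is a product of elements `xr α s` (inverses are `xr α (-s)`).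
-/

namespace Pool.Agent.Lib.MP_f399a8_nt.G

open Matrix Filter Topology

noncomputable section

namespace Ctx

variable {ι X Y : Type*} [Finite ι] [AddCommGroup X] [AddCommGroup Y] {N : ℕ} (D : Ctx ι X Y N)
  (p : ℕ) [Fact p.Prime]

theorem Ga3_prim (α : ι) : ∃ i j, ‖D.Ef p α i j‖ = 1 ∧ D.wt i = D.wt j + D.rt α ∧ i ≠ j := by
  obtain ⟨i, j, h⟩ := D.ef_prim p α
  have h0 : D.Ef p α i j ≠ 0 := by
    intro e
    rw [e, norm_zero] at h
    exact zero_ne_one h
  have h1 := D.ef_wt p h0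
  refine ⟨i, j, h, by rw [h1, add_comm], ?_⟩
  rintro rfl
  exact D.rt_ne_zero α (by simpa using h1)

theorem Ga3_one {α : ι} {i j : Fin N} {k : ℕ} (hk : D.wt i = D.wt j + (k : ℤ) • D.rt α)
    (hk0 : k ≠ 0) : (1 : Matrix (Fin N) (Fin N) ℚ_[p]) i j = 0 := by
  refine Matrix.one_apply_ne ?_
  rintro rfl
  have h1 : (k : ℤ) • D.rt α = 0 := by simpa using hk
  have h2 := D.pa_smul_left (k : ℤ) (D.rt α) (D.co α)
  rw [h1, D.pa_zero_left, ← D.pr_def, D.pr_co_self] at h2
  omega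

theorem Ga3_cases (α : ι) (i j : Fin N) : (∀ k : ℕ, D.wt i ≠ D.wt j + (k : ℤ) • D.rt α) ∨
    ∃ k : ℕ, D.wt i = D.wt j + (k : ℤ) • D.rt α := by
  by_cases h : ∃ k : ℕ, D.wt i = D.wt j + (k : ℤ) • D.rt α
  · exact Or.inr h
  · exact Or.inl fun k hk => h ⟨k, hk⟩

theorem xr_K {α : ι} {s : ℚ_[p]} : D.xr p α s ∈ D.Kg p ↔ ‖s‖ ≤ 1 := by
  rw [mem_Kg]
  constructor
  · intro h
    obtain ⟨i, j, h1, h2, -⟩ := D.Ga3_prim p α
    have h3 := h i j
    rwa [xr_val, D.xm_one p α s h2, norm_mul, h1, mul_one] at h3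
  · intro h i j
    rw [xr_val]
    rcases D.Ga3_cases α i j with h1 | ⟨k, hk⟩
    · rw [D.xm_entry_zero p α s h1, norm_zero]
      exact zero_le_one
    · rw [D.xm_entry p α s hk, norm_mul, norm_pow]
      exact mul_le_one₀ (pow_le_one₀ (norm_nonneg _) h) (norm_nonneg _) (D.xm_entry_int p α i j)

theorem xr_Km {α : ι} {s : ℚ_[p]} {m : ℕ} : D.xr p α s ∈ D.Kmg p m ↔ ‖s‖ ≤ (p : ℝ) ^ (-(m : ℤ)) := by
  rw [mem_Kmg]
  constructor
  · intro h
    obtain ⟨i, j, h1, h2, h4⟩ := D.Ga3_prim p α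
    have h3 := h i j
    rwa [xr_val, D.xm_one p α s h2, Matrix.one_apply_ne h4, sub_zero, norm_mul, h1, mul_one] at h3
  · intro h i j
    have hp : (1 : ℝ) < p := by exact_mod_cast (Fact.out : p.Prime).one_lt
    have hp0 : (0 : ℝ) ≤ (p : ℝ) ^ (-(m : ℤ)) := zpow_nonneg (by linarith) _
    have hs1 : ‖s‖ ≤ 1 := by
      refine h.trans ?_
      rw [_root_.zpow_neg, zpow_natCast]
      exact inv_le_one_of_one_le₀ (one_le_pow₀ hp.le)
    rw [xr_val]
    rcases D.Ga3_cases α i j with h1 | ⟨k, hk⟩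
    · rw [D.xm_entry_zero p α s h1]
      have h2 : i ≠ j := by
        rintro rfl
        exact h1 0 (by simp)
      rw [Matrix.one_apply_ne h2, sub_zero, norm_zero]
      exact hp0
    · rcases Nat.eq_zero_or_pos k with h0 | h0
      · subst h0
        rw [D.xm_diag p α s (by simpa using hk), sub_self, norm_zero]
        exact hp0
      · rw [D.Ga3_one p hk h0.ne', sub_zero, D.xm_entry p α s hk, norm_mul, norm_pow]
        calc ‖s‖ ^ k * ‖D.xm p α 1 i j‖ ≤ ‖s‖ ^ k * 1 := by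
              gcongr
              exact D.xm_entry_int p α i j
          _ = ‖s‖ ^ k := mul_one _
          _ ≤ ‖s‖ ^ 1 := pow_le_pow_of_le_one (norm_nonneg _) hs1 h0
          _ = ‖s‖ := pow_one _
          _ ≤ _ := h

theorem xr_cont (α : ι) : Continuous (D.xr p α) := by
  have h : ∀ i j, Continuous fun s => D.xm p α s i j := by
    intro i j
    rcases D.Ga3_cases α i j with h1 | ⟨k, hk⟩
    · have e : (fun s => D.xm p α s i j) = fun _ => 0 := by
        funext s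
        exact D.xm_entry_zero p α s h1
      rw [e]
      exact continuous_const
    · have e : (fun s => D.xm p α s i j) = fun s => s ^ k * D.xm p α 1 i j := by
        funext s
        exact D.xm_entry p α s hk
      rw [e]
      exact (continuous_id.pow k).mul continuous_const
  refine Continuous.subtype_mk ?_ _
  refine Continuous.subtype_mk ?_ _
  exact continuous_matrix h

theorem xr_inj {α : ι} {s t : ℚ_[p]} (h : D.xr p α s = D.xr p α t) : s = t := by
  obtain ⟨i, j, h1, h2, -⟩ := D.Ga3_prim p α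
  have h3 : D.xm p α s i j = D.xm p α t i j := by
    have := congrArg (fun g : D.Gt p => g.1.1 i j) h
    exact this
  rw [D.xm_one p α s h2, D.xm_one p α t h2] at h3
  refine mul_right_cancel₀ ?_ h3
  intro e
  rw [e, norm_zero] at h1
  exact zero_ne_one h1

variable {p}

theorem Ga3_gen {α : ι} {g : D.Gt p} {s : ℚ_[p]} (h : g.1.1 = D.xm p α s) : g = D.xr p α s :=
  D.gt_ext p h

theorem xr_mem {S : Set ι} {α : ι} (h : α ∈ S) (s : ℚ_[p]) : D.xr p α s ∈ D.Ug p S :=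
  Subgroup.subset_closure ⟨α, h, s, rfl⟩

theorem ug_mono {S T : Set ι} (h : S ⊆ T) : D.Ug p S ≤ D.Ug p T := by
  refine Subgroup.closure_mono ?_
  rintro g ⟨α, hα, s, hs⟩
  exact ⟨α, h hα, s, hs⟩

theorem ug_ind {S : Set ι} {q : D.Gt p → Prop} (h1 : q 1)
    (hx : ∀ α ∈ S, ∀ (s : ℚ_[p]) (x : D.Gt p), x ∈ D.Ug p S → q x → q (D.xr p α s * x)) {x : D.Gt p}
    (h : x ∈ D.Ug p S) : q x := by
  unfold Ug at h
  induction h using Subgroup.closure_induction_left with
  | one => exact h1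
  | mul_left g hg y hy ih =>
    obtain ⟨α, hα, s, hs⟩ := hg
    rw [D.Ga3_gen hs]
    exact hx α hα s y hy ih
  | inv_mul_cancel g hg y hy ih =>
    obtain ⟨α, hα, s, hs⟩ := hg
    rw [D.Ga3_gen hs, ← D.xr_neg]
    exact hx α hα (-s) y hy ih

theorem ug_le {S : Set ι} {H : Subgroup (D.Gt p)} (h : ∀ α ∈ S, ∀ s : ℚ_[p], D.xr p α s ∈ H) :
    D.Ug p S ≤ H := by
  refine (Subgroup.closure_le H).2 ?_
  rintro g ⟨α, hα, s, hs⟩
  rw [D.Ga3_gen hs]
  exact h α hα s

theorem ug_empty {x : D.Gt p} (h : x ∈ D.Ug p (∅ : Set ι)) : x = 1 :=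
  D.ug_ind (q := fun x => x = 1) rfl (fun α hα => absurd hα (Set.notMem_empty α)) h

theorem ug_single {γ : ι} {x : D.Gt p} (h : x ∈ D.Ug p {γ}) : ∃ s : ℚ_[p], x = D.xr p γ s := by
  refine D.ug_ind (q := fun x => ∃ s : ℚ_[p], x = D.xr p γ s) ⟨0, (D.xr_zero p γ).symm⟩ ?_ h
  rintro α hα s x - ⟨t, rfl⟩
  rw [Set.mem_singleton_iff] at hα
  subst hα
  exact ⟨s + t, (D.xr_add p α s t).symm⟩

/-- conjugation of the groups `Ug S` by an element which conjugates the generators -/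
theorem ug_conj_of {S T : Set ι} {g : D.Gt p}
    (h : ∀ α ∈ S, ∀ s : ℚ_[p], g * D.xr p α s * g⁻¹ ∈ D.Ug p T) {x : D.Gt p} (hx : x ∈ D.Ug p S) :
    g * x * g⁻¹ ∈ D.Ug p T := by
  refine D.ug_ind (q := fun x => g * x * g⁻¹ ∈ D.Ug p T) ?_ ?_ hx
  · rw [mul_one, mul_inv_cancel]
    exact one_mem _
  · intro α hα s x _ ih
    have e : g * (D.xr p α s * x) * g⁻¹ = (g * D.xr p α s * g⁻¹) * (g * x * g⁻¹) := by group
    rw [e]
    exact mul_mem (h α hα s) ih

end Ctx

end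

end Pool.Agent.Lib.MP_f399a8_nt.G
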