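import Pool.Agent.Lib.MP_f399a8_ntG.Ga3

/-!
# Exponentials of the Lie algebra of a closed set of roots are in the group

`nR S` is the span of the matrices `E α`, `α ∈ S`, over `ℚ_p[X]`.

PROOF of `nR_br`: `[E δ, E α]` is a multiple of `E γ` if `γ = δ + α` is a root, zero if `δ + α` is not a root and `α ≠ - δ`
(`ef_add`, `ef_comm`, mapped to `ℚ_p[X]`).
PROOF of `ode`: induction on the cardinality of `J` (a finite set).  `J = ∅`: `m = 0`, so `dM z = 0`, and `ev 1 z = ev 0 z = 1`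
(`ode_const`); take `g = 1`.  Otherwise choose `δ ∈ J` with `⟨δ, y⟩` minimal, `J' = J \ {δ}`.  `J'` is closed, and
`Abs α J'` for all `α ∈ J`: if `α ∈ J`, `β ∈ J'` and `γ = α + β` is a root, then `γ ∈ J` and `γ ≠ δ` as
`⟨γ, y⟩ = ⟨α, y⟩ + ⟨β, y⟩ > ⟨δ, y⟩`.  Write `m = q • E δ + m'`, `m' ∈ nR J'` (`Submodule.mem_span_insert`; `J = insert δ J'`).  Let
`g' = q`, `g 0 = 0` (`int_exists`), `a = g • E δ` (nilpotent, `nil_map`), and `z̃ = exp (-a) * z`.  Then (`dM_mul`, `dM_exp`)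
`dM z̃ = (-(q • E δ) + exp (-a) * m * exp a) * z̃`.  The matrix `m̃ = -(q • E δ) + exp (-a) * m * exp a` is in `nR J'`:
`exp (-a) * m * exp a - m ∈ nR J'` by `conj_sub_mem` (`V = nR J'`, as a `ℚ`-submodule; `-a` instead of `a`; by `nR_br`
`[E δ, nR J'] ⊆ nR J'` and `[E δ, m] = [E δ, m'] ∈ nR J'`), and `m - q • E δ = m'`.  `ev 0 z̃ = 1` (`ev_exp`).  By induction there
is `h ∈ Ug J'` with matrix `ev 1 z̃ = exp (-(g 1) E δ) * ev 1 z`, so `xr δ (g 1) * h` has the matrix `ev 1 z`.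
PROOF of `exp_mem`: `m ∈ nS S` is nilpotent (`gr_nilpotent` with `f i = ⟨wt i, y⟩`; entries of elements of `nS S` are supported in
`wt i - wt j ∈ S`: span induction).  Let `z = exp (X • m)` in matrices over `ℚ_p[X]`: `dM z = m * z` (`dM_exp` with `g = X`),
`ev 0 z = 1`, `ev 1 z = exp m`.
-/

namespace Pool.Agent.Lib.MP_f399a8_nt.G

open Matrix Polynomial

noncomputable section

namespace Ctx

variable {ι X Y : Type*} [Finite ι] [AddCommGroup X] [AddCommGroup Y] {N : ℕ} (D : Ctx ι X Y N)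
  (p : ℕ) [Fact p.Prime]

private theorem Gb1_dz {K : Type*} [Field K] [CharZero K] {N : ℕ}
    {E m z a : Matrix (Fin N) (Fin N) K[X]} {q : K[X]}
    (h1 : dM (IsNilpotent.exp (-a)) = -(q • E) * IsNilpotent.exp (-a)) (hz : dM z = m * z)
    (h2 : IsNilpotent.exp a * IsNilpotent.exp (-a) = 1) :
    dM (IsNilpotent.exp (-a) * z) =
      (-(q • E) + IsNilpotent.exp (-a) * m * IsNilpotent.exp a) * (IsNilpotent.exp (-a) * z) := by
  generalize IsNilpotent.exp (-a) = b at *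
  generalize IsNilpotent.exp a = c at *
  rw [dM_mul, h1, hz, Matrix.add_mul]
  have h3 : b * m * c * (b * z) = b * m * (c * b) * z := by
    simp only [Matrix.mul_assoc]
  rw [h3, h2, Matrix.mul_one, Matrix.mul_assoc, Matrix.mul_assoc b m z]

/-- the span of the root vectors over the polynomial ring -/
def nR (S : Set ι) : Submodule ℚ_[p][X] (Matrix (Fin N) (Fin N) ℚ_[p][X]) :=
  Submodule.span ℚ_[p][X] ((fun α => (D.Ef p α).map (C : ℚ_[p] → ℚ_[p][X])) '' S)

theorem nS_supp {S : Set ι} {m : Matrix (Fin N) (Fin N) ℚ_[p]} (hm : m ∈ D.nS p S) {i j : Fin N}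
    (h : m i j ≠ 0) : ∃ α ∈ S, D.wt i = D.rt α + D.wt j := by
  unfold nS at hm
  induction hm using Submodule.span_induction with
  | mem x hx =>
    obtain ⟨α, hα, rfl⟩ := hx
    exact ⟨α, hα, D.ef_wt p h⟩
  | zero => exact absurd rfl h
  | add a b _ _ iha ihb =>
    by_cases h1 : a i j = 0
    · refine ihb fun h2 => h ?_
      rw [Matrix.add_apply, h1, h2, add_zero]
    · exact iha h1
  | smul c a _ ih =>
    refine ih fun h2 => h ?_
    rw [Matrix.smul_apply, h2, smul_zero]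

theorem nS_nil {S : Set ι} {y : Y} (hS : ∀ α ∈ S, 0 < D.pr α y)
    {m : Matrix (Fin N) (Fin N) ℚ_[p]} (hm : m ∈ D.nS p S) : IsNilpotent m := by
  refine gr_nilpotent (f := fun i => D.wp i y) fun i j hij => ?_
  obtain ⟨α, hα, h1⟩ := D.nS_supp p hm hij
  have h2 := hS α hα
  show D.wp j y < D.wp i y
  rw [D.wp_def, D.wp_def, h1, D.pa_add_left, ← D.pr_def]
  linarith

theorem nS_br {S : Set ι} {δ : ι} (h : D.Abs δ S) (h1 : D.ng δ ∉ S)
    {m : Matrix (Fin N) (Fin N) ℚ_[p]} (hm : m ∈ D.nS p S) :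
    D.Ef p δ * m - m * D.Ef p δ ∈ D.nS p S := by
  unfold nS at hm
  induction hm using Submodule.span_induction with
  | mem x hx =>
    obtain ⟨α, hα, rfl⟩ := hx
    by_cases hγ : ∃ γ, D.rt γ = D.rt δ + D.rt α
    · obtain ⟨γ, hγ⟩ := hγ
      obtain ⟨c, _, hc⟩ := D.ef_add p hγ
      rw [hc]
      exact (D.nS p S).smul_mem c (Submodule.subset_span ⟨γ, h α hα γ hγ, rfl⟩)
    · have hne : α ≠ D.ng δ := fun he => h1 (he ▸ hα)
      rw [D.ef_comm p hne (fun γ hγ' => hγ ⟨γ, hγ'⟩), sub_self]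
      exact (D.nS p S).zero_mem
  | zero =>
    rw [Matrix.mul_zero, Matrix.zero_mul, sub_self]
    exact (D.nS p S).zero_mem
  | add a b _ _ iha ihb =>
    have e : D.Ef p δ * (a + b) - (a + b) * D.Ef p δ =
        (D.Ef p δ * a - a * D.Ef p δ) + (D.Ef p δ * b - b * D.Ef p δ) := by
      rw [Matrix.mul_add, Matrix.add_mul]
      abel
    rw [e]
    exact (D.nS p S).add_mem iha ihb
  | smul c a _ ih =>
    have e : D.Ef p δ * (c • a) - (c • a) * D.Ef p δ =
        c • (D.Ef p δ * a - a * D.Ef p δ) := by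
      rw [Matrix.mul_smul, Matrix.smul_mul, smul_sub]
    rw [e]
    exact (D.nS p S).smul_mem c ih

theorem nR_br {S : Set ι} {δ : ι} (h : D.Abs δ S) (h1 : D.ng δ ∉ S)
    {m : Matrix (Fin N) (Fin N) ℚ_[p][X]} (hm : m ∈ D.nR p S) :
    (D.Ef p δ).map (C : ℚ_[p] → ℚ_[p][X]) * m - m * (D.Ef p δ).map (C : ℚ_[p] → ℚ_[p][X]) ∈
      D.nR p S := by
  have hR : ∀ a b : Matrix (Fin N) (Fin N) ℚ_[p],
      a.map (C : ℚ_[p] → ℚ_[p][X]) * b.map (C : ℚ_[p] → ℚ_[p][X]) -
        b.map (C : ℚ_[p] → ℚ_[p][X]) * a.map (C : ℚ_[p] → ℚ_[p][X]) =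
      (a * b - b * a).map (C : ℚ_[p] → ℚ_[p][X]) := by
    intro a b
    have h2 := (C : ℚ_[p] →+* ℚ_[p][X]).mapMatrix (m := Fin N).map_sub (a * b) (b * a)
    rw [RingHom.map_mul, RingHom.map_mul] at h2
    exact h2.symm
  unfold nR at hm
  induction hm using Submodule.span_induction with
  | mem x hx =>
    obtain ⟨α, hα, rfl⟩ := hx
    show (D.Ef p δ).map (C : ℚ_[p] → ℚ_[p][X]) * (D.Ef p α).map (C : ℚ_[p] → ℚ_[p][X]) -
      (D.Ef p α).map (C : ℚ_[p] → ℚ_[p][X]) * (D.Ef p δ).map (C : ℚ_[p] → ℚ_[p][X]) ∈ D.nR p S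
    rw [hR]
    by_cases hγ : ∃ γ, D.rt γ = D.rt δ + D.rt α
    · obtain ⟨γ, hγ⟩ := hγ
      obtain ⟨c, _, hc⟩ := D.ef_add p hγ
      have e : (D.Ef p δ * D.Ef p α - D.Ef p α * D.Ef p δ).map (C : ℚ_[p] → ℚ_[p][X]) =
          C c • (D.Ef p γ).map (C : ℚ_[p] → ℚ_[p][X]) := by
        rw [hc]
        ext1 i j
        rw [Matrix.map_apply, Matrix.smul_apply, Matrix.smul_apply, Matrix.map_apply, smul_eq_mul,
          smul_eq_mul, C_mul]
      rw [e]
      exact (D.nR p S).smul_mem (C c) (Submodule.subset_span ⟨γ, h α hα γ hγ, rfl⟩)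
    · have hne : α ≠ D.ng δ := fun he => h1 (he ▸ hα)
      rw [D.ef_comm p hne (fun γ hγ' => hγ ⟨γ, hγ'⟩), sub_self]
      have e : (0 : Matrix (Fin N) (Fin N) ℚ_[p]).map (C : ℚ_[p] → ℚ_[p][X]) = 0 := by
        ext1 i j
        rw [Matrix.map_apply, Matrix.zero_apply, Matrix.zero_apply, C_0]
      rw [e]
      exact (D.nR p S).zero_mem
  | zero =>
    rw [Matrix.mul_zero, Matrix.zero_mul, sub_self]
    exact (D.nR p S).zero_mem
  | add a b _ _ iha ihb =>
    have e : (D.Ef p δ).map (C : ℚ_[p] → ℚ_[p][X]) * (a + b) -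
        (a + b) * (D.Ef p δ).map (C : ℚ_[p] → ℚ_[p][X]) =
        ((D.Ef p δ).map (C : ℚ_[p] → ℚ_[p][X]) * a - a * (D.Ef p δ).map (C : ℚ_[p] → ℚ_[p][X])) +
        ((D.Ef p δ).map (C : ℚ_[p] → ℚ_[p][X]) * b -
          b * (D.Ef p δ).map (C : ℚ_[p] → ℚ_[p][X])) := by
      rw [Matrix.mul_add, Matrix.add_mul]
      abel
    rw [e]
    exact (D.nR p S).add_mem iha ihb
  | smul c a _ ih =>
    have e : (D.Ef p δ).map (C : ℚ_[p] → ℚ_[p][X]) * (c • a) -
        (c • a) * (D.Ef p δ).map (C : ℚ_[p] → ℚ_[p][X]) =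
        c • ((D.Ef p δ).map (C : ℚ_[p] → ℚ_[p][X]) * a -
          a * (D.Ef p δ).map (C : ℚ_[p] → ℚ_[p][X])) := by
      rw [Matrix.mul_smul, Matrix.smul_mul, smul_sub]
    rw [e]
    exact (D.nR p S).smul_mem c ih

theorem ode {y : Y} (k : ℕ) : ∀ (J : Set ι), J.ncard = k → D.Cl J → (∀ α ∈ J, 0 < D.pr α y) →
    ∀ (m z : Matrix (Fin N) (Fin N) ℚ_[p][X]), m ∈ D.nR p J → dM z = m * z → ev 0 z = 1 →
    ∃ g ∈ D.Ug p J, g.1.1 = ev 1 z := by
  induction k with
  | zero =>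
    intro J hJ _ _ m z hm hz hz0
    have hJ0 : J = ∅ := (Set.ncard_eq_zero (Set.toFinite J)).mp hJ
    subst hJ0
    have hm0 : m = 0 := by
      unfold nR at hm
      rw [Set.image_empty, Submodule.span_empty, Submodule.mem_bot] at hm
      exact hm
    rw [hm0, Matrix.zero_mul] at hz
    refine ⟨1, Subgroup.one_mem _, ?_⟩
    rw [D.val_one, ode_const hz 1 0, hz0]
  | succ k ih =>
    intro J hJ hcl hpos m z hm hz hz0
    have hne : J.Nonempty := by
      rw [Set.nonempty_iff_ne_empty]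
      rintro rfl
      rw [Set.ncard_empty] at hJ
      omega
    obtain ⟨δ, hδ, hmin⟩ := Set.exists_min_image J (fun α => D.pr α y) (Set.toFinite J) hne
    have hδpos := hpos δ hδ
    have hJ' : (J \ {δ}).ncard = k := by
      rw [Set.ncard_sdiff_singleton_of_mem hδ, hJ]
      rfl
    have habs : ∀ α ∈ J, D.Abs α (J \ {δ}) := by
      intro α hα β hβ γ hγ
      refine ⟨hcl α hα β hβ.1 γ hγ, ?_⟩
      rintro rfl
      have h1 := D.pr_add hγ y
      have h2 := hpos α hα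
      have h3 : D.pr γ y ≤ D.pr β y := hmin β hβ.1
      omega
    have hcl' : D.Cl (J \ {δ}) := fun α hα β hβ γ hγ => habs α hα.1 β hβ γ hγ
    have hng : D.ng δ ∉ J \ {δ} := by
      intro h1
      have h2 := hpos _ h1.1
      rw [D.pr_ng] at h2
      omega
    set E : Matrix (Fin N) (Fin N) ℚ_[p][X] := (D.Ef p δ).map (C : ℚ_[p] → ℚ_[p][X]) with hE
    obtain ⟨q, m', hm', hmq⟩ : ∃ q : ℚ_[p][X], ∃ m' ∈ D.nR p (J \ {δ}), m = q • E + m' := by
      have h1 : (fun α => (D.Ef p α).map (C : ℚ_[p] → ℚ_[p][X])) '' J =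
          insert E ((fun α => (D.Ef p α).map (C : ℚ_[p] → ℚ_[p][X])) '' (J \ {δ})) := by
        rw [hE, ← Set.image_insert_eq (f := fun α => (D.Ef p α).map (C : ℚ_[p] → ℚ_[p][X]))
          (a := δ) (s := J \ {δ}), Set.insert_sdiff_singleton, Set.insert_eq_of_mem hδ]
      unfold nR at hm
      rw [h1, Submodule.mem_span_insert] at hm
      exact hm
    obtain ⟨g, hg, hg0⟩ := int_exists q
    have hnil : IsNilpotent (D.Ef p δ) := D.ef_nil p δ
    set a : Matrix (Fin N) (Fin N) ℚ_[p][X] := g • E with ha_def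
    have hneg : -a = (-g) • E := by rw [ha_def, neg_smul]
    have ha : IsNilpotent a := nil_map hnil g
    have ha' : IsNilpotent (-a) := ha.neg
    have hexp1 : IsNilpotent.exp a * IsNilpotent.exp (-a) = 1 :=
      IsNilpotent.exp_mul_exp_neg_self ha
    have hexp2 : IsNilpotent.exp (-a) * IsNilpotent.exp a = 1 :=
      IsNilpotent.exp_neg_mul_exp_self ha
    set mt : Matrix (Fin N) (Fin N) ℚ_[p][X] :=
      -(q • E) + IsNilpotent.exp (-a) * m * IsNilpotent.exp a with hmt_def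
    set zt : Matrix (Fin N) (Fin N) ℚ_[p][X] := IsNilpotent.exp (-a) * z with hzt_def
    have hdz : dM zt = mt * zt := by
      have h1 : dM (IsNilpotent.exp (-a)) = -(q • E) * IsNilpotent.exp (-a) := by
        rw [hneg]
        have h2 := dM_exp hnil (-g)
        rw [← hE] at h2
        rw [h2, derivative_neg, hg, neg_smul]
      exact Gb1_dz h1 hz hexp1
    have hmt : mt ∈ D.nR p (J \ {δ}) := by
      have hV : ∀ v ∈ (D.nR p (J \ {δ})).restrictScalars ℚ,
          (-a) * v - v * (-a) ∈ (D.nR p (J \ {δ})).restrictScalars ℚ := by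
        intro v hv
        have h1 : (-a) * v - v * (-a) = (-g) • (E * v - v * E) := by
          rw [hneg, Matrix.smul_mul, Matrix.mul_smul, smul_sub]
        rw [h1]
        exact (D.nR p (J \ {δ})).smul_mem (-g) (D.nR_br p (habs δ hδ) hng hv)
      have hv : (-a) * m - m * (-a) ∈ (D.nR p (J \ {δ})).restrictScalars ℚ := by
        have h1 : (-a) * m - m * (-a) = (-g) • (E * m' - m' * E) := by
          rw [hneg, hmq, Matrix.smul_mul, Matrix.mul_smul, ← smul_sub, Matrix.mul_add,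
            Matrix.add_mul, Matrix.mul_smul, Matrix.smul_mul, add_sub_add_left_eq_sub]
        rw [h1]
        exact (D.nR p (J \ {δ})).smul_mem (-g) (D.nR_br p (habs δ hδ) hng hm')
      have h1 := conj_sub_mem ha' ((D.nR p (J \ {δ})).restrictScalars ℚ) hV hv
      rw [neg_neg] at h1
      have h2 : mt = (IsNilpotent.exp (-a) * m * IsNilpotent.exp a - m) + m' := by
        rw [hmt_def, hmq]
        abel
      rw [h2]
      exact (D.nR p (J \ {δ})).add_mem h1 hm'
    have hevE : ∀ t : ℚ_[p], ev t (IsNilpotent.exp (-a)) =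
        IsNilpotent.exp ((-(g.eval t)) • D.Ef p δ) := by
      intro t
      rw [hneg]
      have h2 := ev_exp hnil (-g) t
      rw [← hE] at h2
      rw [h2, eval_neg]
    have hzt0 : ev 0 zt = 1 := by
      rw [hzt_def, map_mul, hz0, hevE, hg0, neg_zero, zero_smul, IsNilpotent.exp_zero,
        Matrix.mul_one]
    obtain ⟨h, hh, hh1⟩ := ih (J \ {δ}) hJ' hcl' (fun α hα => hpos α hα.1) mt zt hmt hdz hzt0
    refine ⟨D.xr p δ (g.eval 1) * h, Subgroup.mul_mem _ (D.xr_mem hδ _)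
      (D.ug_mono Set.sdiff_subset hh), ?_⟩
    rw [D.val_mul, D.xr_val, hh1, hzt_def, map_mul, hevE]
    have h4 : D.xm p δ (g.eval 1) * IsNilpotent.exp ((-(g.eval 1)) • D.Ef p δ) = 1 := by
      unfold xm
      rw [neg_smul]
      exact IsNilpotent.exp_mul_exp_neg_self (D.ef_nil_smul p δ _)
    rw [← Matrix.mul_assoc, h4, Matrix.one_mul]

theorem exp_mem {S : Set ι} (hS : D.Cl S) {y : Y} (hy : ∀ α ∈ S, 0 < D.pr α y)
    {m : Matrix (Fin N) (Fin N) ℚ_[p]} (hm : m ∈ D.nS p S) :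
    ∃ g ∈ D.Ug p S, g.1.1 = IsNilpotent.exp m := by
  have hnil : IsNilpotent m := D.nS_nil p hy hm
  have hmR : m.map (C : ℚ_[p] → ℚ_[p][X]) ∈ D.nR p S := by
    unfold nS at hm
    induction hm using Submodule.span_induction with
    | mem x hx =>
      obtain ⟨α, hα, rfl⟩ := hx
      exact Submodule.subset_span ⟨α, hα, rfl⟩
    | zero =>
      have e : (0 : Matrix (Fin N) (Fin N) ℚ_[p]).map (C : ℚ_[p] → ℚ_[p][X]) = 0 := by
        ext1 i j
        rw [Matrix.map_apply, Matrix.zero_apply, Matrix.zero_apply, C_0]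
      rw [e]
      exact (D.nR p S).zero_mem
    | add a b ha hb iha ihb =>
      have e : (a + b).map (C : ℚ_[p] → ℚ_[p][X]) = a.map (C : ℚ_[p] → ℚ_[p][X]) +
          b.map (C : ℚ_[p] → ℚ_[p][X]) := by
        ext1 i j
        rw [Matrix.map_apply, Matrix.add_apply, Matrix.add_apply, Matrix.map_apply,
          Matrix.map_apply, C_add]
      rw [e]
      exact (D.nR p S).add_mem (iha (D.nS_nil p hy ha)) (ihb (D.nS_nil p hy hb))
    | smul c a ha iha =>
      have e : (c • a).map (C : ℚ_[p] → ℚ_[p][X]) = C c • a.map (C : ℚ_[p] → ℚ_[p][X]) := by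
        ext1 i j
        rw [Matrix.map_apply, Matrix.smul_apply, Matrix.smul_apply, Matrix.map_apply, smul_eq_mul,
          smul_eq_mul, C_mul]
      rw [e]
      exact (D.nR p S).smul_mem (C c) (iha (D.nS_nil p hy ha))
  have hd := dM_exp hnil (Polynomial.X : ℚ_[p][X])
  rw [derivative_X, one_smul] at hd
  have h0 := ev_exp hnil (Polynomial.X : ℚ_[p][X]) 0
  rw [eval_X, zero_smul, IsNilpotent.exp_zero] at h0
  have h1 := ev_exp hnil (Polynomial.X : ℚ_[p][X]) 1
  rw [eval_X, one_smul] at h1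
  obtain ⟨g, hg, hg1⟩ := D.ode p (y := y) S.ncard S rfl hS hy _ _ hmR hd h0
  exact ⟨g, hg, hg1.trans h1⟩

end Ctx

end

end Pool.Agent.Lib.MP_f399a8_nt.G
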