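import Pool.Agent.Lib.MP_f399a8_ntG.Gb1

/-!
# Normalization

PROOF of `ad_nS`: for `m ∈ nS S` and `Abs δ S`, `- δ ∉ S`: `exp (s E δ) * m * exp (- s E δ) ∈ nS S` by `conj_mem` (`nS_br`; `nS S` as a
`ℚ`-submodule).
PROOF of `ug_norm`: by `ug_conj_of` it is enough to treat `x = xr α t`, `α ∈ S`:
`xr δ s * xr α t * (xr δ s)⁻¹` has the matrix `exp (g (t E α) g⁻¹)` (`exp_conj'`), `g = exp (s E δ)`, and
`g (t E α) g⁻¹ ∈ nS S`; `exp_mem`, `gt_ext`.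
PROOF of `ug_norm'`: apply `ug_norm` to `- s`.
PROOF of `ug_ideal`: for `δ ∈ S`, `J ⊆ S`, `Abs δ J` for all `δ ∈ S`, `Ug J` is normalized by `Ug S` (`ug_ind`; `ng δ ∉ J` by positivity).
PROOF of `mat_conj`: if `g` is any element of the group and `g * E * g⁻¹ ∈ nS T` for all `E = E α`, `α ∈ S`, `T` closed and
positive on some `y`, then `g * Ug S * g⁻¹ ⊆ Ug T`.
-/

namespace Pool.Agent.Lib.MP_f399a8_nt.G

open Matrix

noncomputable section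

namespace Ctx

variable {ι X Y : Type*} [Finite ι] [AddCommGroup X] [AddCommGroup Y] {N : ℕ} (D : Ctx ι X Y N)
  {p : ℕ} [Fact p.Prime]

theorem mat_conj {S T : Set ι} (hT : D.Cl T) {y : Y} (hy : ∀ α ∈ T, 0 < D.pr α y) {g : D.Gt p}
    (h : ∀ α ∈ S, g.1.1 * D.Ef p α * (g⁻¹).1.1 ∈ D.nS p T) {x : D.Gt p} (hx : x ∈ D.Ug p S) :
    g * x * g⁻¹ ∈ D.Ug p T := by
  refine D.ug_conj_of (fun α hα s => ?_) hx
  have h1 : g.1.1 * (s • D.Ef p α) * (g⁻¹).1.1 = s • (g.1.1 * D.Ef p α * (g⁻¹).1.1) := by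
    rw [Matrix.mul_smul, Matrix.smul_mul]
  have h2 : g.1.1 * (s • D.Ef p α) * (g⁻¹).1.1 ∈ D.nS p T := by
    rw [h1]
    exact Submodule.smul_mem _ _ (h α hα)
  obtain ⟨u, hu, hu2⟩ := D.exp_mem p hT hy h2
  have h3 : g * D.xr p α s * g⁻¹ = u := by
    apply D.gt_ext p
    rw [D.val_mul, D.val_mul, D.xr_val, hu2]
    exact exp_conj' (D.ef_nil_smul p α s) (D.val_inv p g).1 (D.val_inv p g).2
  rw [h3]
  exact hu

theorem ad_nS {S : Set ι} {δ : ι} (h : D.Abs δ S) (h1 : D.ng δ ∉ S) (s : ℚ_[p])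
    {m : Matrix (Fin N) (Fin N) ℚ_[p]} (hm : m ∈ D.nS p S) :
    D.xm p δ s * m * D.xm p δ (-s) ∈ D.nS p S := by
  have h2 : D.xm p δ (-s) = IsNilpotent.exp (-(s • D.Ef p δ)) := by
    unfold xm
    rw [neg_smul]
  rw [h2]
  refine conj_mem (D.ef_nil_smul p δ s) ((D.nS p S).restrictScalars ℚ) (fun v hv => ?_) hm
  have h3 : s • D.Ef p δ * v - v * (s • D.Ef p δ) = s • (D.Ef p δ * v - v * D.Ef p δ) := by
    rw [Matrix.smul_mul, Matrix.mul_smul, smul_sub]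
  rw [h3]
  exact Submodule.smul_mem (D.nS p S) s (D.nS_br p h h1 hv)

theorem ug_norm {S : Set ι} (hS : D.Cl S) {y : Y} (hy : ∀ α ∈ S, 0 < D.pr α y) {δ : ι}
    (h : D.Abs δ S) (h1 : D.ng δ ∉ S) (s : ℚ_[p]) {x : D.Gt p} (hx : x ∈ D.Ug p S) :
    D.xr p δ s * x * (D.xr p δ s)⁻¹ ∈ D.Ug p S := by
  refine D.mat_conj hS hy (fun α hα => ?_) hx
  rw [← D.xr_neg, D.xr_val, D.xr_val]
  exact D.ad_nS h h1 s (Submodule.subset_span ⟨α, hα, rfl⟩)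

theorem ug_norm' {S : Set ι} (hS : D.Cl S) {y : Y} (hy : ∀ α ∈ S, 0 < D.pr α y) {δ : ι}
    (h : D.Abs δ S) (h1 : D.ng δ ∉ S) (s : ℚ_[p]) {x : D.Gt p} (hx : x ∈ D.Ug p S) :
    (D.xr p δ s)⁻¹ * x * D.xr p δ s ∈ D.Ug p S := by
  have h2 := D.ug_norm hS hy h h1 (-s) hx
  rw [D.xr_neg, inv_inv] at h2
  exact h2

theorem ug_ideal {S J : Set ι} (hJ : D.Cl J) {y : Y} (hy : ∀ α ∈ S, 0 < D.pr α y) (hJS : J ⊆ S)
    (h : ∀ δ ∈ S, D.Abs δ J) {g : D.Gt p} (hg : g ∈ D.Ug p S) {x : D.Gt p} (hx : x ∈ D.Ug p J) :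
    g * x * g⁻¹ ∈ D.Ug p J := by
  refine D.ug_ind (q := fun g => ∀ x ∈ D.Ug p J, g * x * g⁻¹ ∈ D.Ug p J) ?_ ?_ hg x hx
  · intro x hx
    simpa using hx
  · intro α hα s g' hg' ih x hx
    have h2 : D.xr p α s * g' * x * (D.xr p α s * g')⁻¹ =
        D.xr p α s * (g' * x * g'⁻¹) * (D.xr p α s)⁻¹ := by
      group
    rw [h2]
    refine D.ug_norm hJ (fun β hβ => hy β (hJS hβ)) (h α hα) (fun hn => ?_) s (ih x hx)
    have h3 := hy _ (hJS hn)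
    rw [D.pr_ng] at h3
    have h4 := hy α hα
    omega

end Ctx

end

end Pool.Agent.Lib.MP_f399a8_nt.G
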