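import Pool.Agent.Lib.MP_f399a8_ntG.Gb2

/-!
# Support, peeling off one root

`D.Mn y S α`: `α ∈ S` and `⟨α, y⟩` is minimal in `S`.

PROOF.
* `ug_supp`: for `u ∈ Ug S`, if `u i j ≠ 1 i j` then `wt i - wt j` is a nonempty sum of roots in `S`, i.e. equal to
  `rt β + x` with `β ∈ S`, `x ∈ AddSubmonoid.closure (rt '' S)`.  `ug_ind`: for `u = xr α s * u'`, the entry
  `u i j = ∑_k (xm α s) i k * u' k j`; `xm_entry_zero`: `wt i = wt k + m α`, `m ∈ ℕ`; `m = 0`: `(xm α s) i k = 1 i k`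
  (`xm_diag`); and `u' k j = 1 k j` or `wt k - wt j` is a nonempty sum.
* `ug_supp_f`: apply an additive function which is positive on `S`.  `ug_supp_y` with `⟨·, y⟩`.
* `mn_cl`, `mn_abs`: as in the proof of `ode`: `S \ {α}` is closed, and `Abs δ (S \ {α})` for all `δ ∈ S`.
* `peel`: the set of the products `xr α s * u'`, `u' ∈ Ug (S \ {α})`, is stable under left multiplication by `xr α t` and by
  `xr β t`, `β ∈ S \ {α}` (`xr β t * xr α s = xr α s * ((xr α s)⁻¹ * xr β t * xr α s)`, `ug_norm'`); `ug_ind`.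
* `coord`: for `wt i = α + wt j` the entry of `xr α s * u'` is `s * E α i j`: `∑_k (xm α s) i k * u' k j`.  A nonzero term has
  `wt i = wt k + m α` (`m ∈ ℕ`), and `u' k j = 1 k j` or `wt k - wt j = β + x` (`ug_supp`) with `⟨β + x, y⟩ ≥ ⟨β, y⟩ ≥ ⟨α, y⟩ > 0`.
  If `m = 0`, then `(xm α s) i k = 1 i k`, so `k = i`, and `u' i j = 1 i j = 0` (`wt i ≠ wt j`), unless `α = β + x`, and then
  `⟨x, y⟩ = 0`, so `x = 0` (an element of the monoid generated by roots with positive `⟨·, y⟩` on which `y` vanishes is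
  zero) and `α = β`, contradiction.  If `m ≥ 1`, `wt k - wt j = (1 - m) α` has `⟨·, y⟩ ≤ 0`, so `u' k j = 1 k j`, `k = j`, `m = 1`, and the
  term is `(xm α s) i j = s * E α i j` (`xm_one`).
* `coord_K`: take a primitive entry (`ef_prim`).
-/

namespace Pool.Agent.Lib.MP_f399a8_nt.G

open Matrix

noncomputable section

namespace Ctx

variable {ι X Y : Type*} [Finite ι] [AddCommGroup X] [AddCommGroup Y] {N : ℕ} (D : Ctx ι X Y N)
  {p : ℕ} [Fact p.Prime]

theorem Gb3_pa_nonneg {y : Y} {S : Set ι} (hy : ∀ α ∈ S, 0 < D.pr α y) {x : X}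
    (hx : x ∈ AddSubmonoid.closure (D.rt '' S)) : 0 ≤ D.pa x y ∧ (D.pa x y = 0 → x = 0) := by
  induction hx using AddSubmonoid.closure_induction with
  | mem x hx =>
    obtain ⟨α, hα, rfl⟩ := hx
    have h1 := hy α hα
    rw [D.pr_def] at h1
    exact ⟨h1.le, fun h2 => absurd h2 h1.ne'⟩
  | zero => exact ⟨(D.pa_zero_left y).ge, fun _ => rfl⟩
  | add x x' _ _ h1 h2 =>
    rw [D.pa_add_left]
    refine ⟨add_nonneg h1.1 h2.1, fun h => ?_⟩
    have e1 : D.pa x y = 0 := by linarith [h1.1, h2.1]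
    have e2 : D.pa x' y = 0 := by linarith [h1.1, h2.1]
    rw [h1.2 e1, h2.2 e2, add_zero]

theorem Gb3_cases (α : ι) (s : ℚ_[p]) {i k : Fin N} (h : D.xm p α s i k ≠ 0) :
    ∃ m : ℕ, D.wt i = D.wt k + (m : ℤ) • D.rt α := by
  by_contra hc
  push Not at hc
  exact h (D.xm_entry_zero p α s hc)

theorem ug_supp {S : Set ι} {u : D.Gt p} (hu : u ∈ D.Ug p S) {i j : Fin N}
    (h : u.1.1 i j ≠ (1 : Matrix (Fin N) (Fin N) ℚ_[p]) i j) :
    ∃ β ∈ S, ∃ x ∈ AddSubmonoid.closure (D.rt '' S), D.wt i = D.wt j + (D.rt β + x) := by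
  revert i j
  refine D.ug_ind (q := fun u => ∀ {i j : Fin N},
    u.1.1 i j ≠ (1 : Matrix (Fin N) (Fin N) ℚ_[p]) i j →
    ∃ β ∈ S, ∃ x ∈ AddSubmonoid.closure (D.rt '' S), D.wt i = D.wt j + (D.rt β + x)) ?_ ?_ hu
  · intro i j h
    exact absurd rfl h
  · intro α hα s u' _ ih i j h
    by_contra hc
    apply h
    rw [val_mul, xr_val, Matrix.mul_apply]
    have hαm : ∀ m : ℕ, (m : ℤ) • D.rt α ∈ AddSubmonoid.closure (D.rt '' S) := by
      intro m
      rw [natCast_zsmul]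
      exact nsmul_mem (AddSubmonoid.subset_closure (Set.mem_image_of_mem _ hα)) m
    have e : ∀ k, D.xm p α s i k * u'.1.1 k j = (1 : Matrix (Fin N) (Fin N) ℚ_[p]) i k *
        (1 : Matrix (Fin N) (Fin N) ℚ_[p]) k j := by
      intro k
      rcases eq_or_ne k i with rfl | hki
      · rw [D.xm_diag p α s rfl]
        congr 1
        by_contra h1
        exact hc (ih h1)
      · rw [Matrix.one_apply_ne hki.symm, zero_mul]
        by_contra h1
        have h2 := left_ne_zero_of_mul h1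
        have h3 := right_ne_zero_of_mul h1
        obtain ⟨m, hm⟩ := D.Gb3_cases α s h2
        have hm0 : m ≠ 0 := by
          rintro rfl
          rw [D.xm_diag p α s (by simpa using hm), Matrix.one_apply_ne hki.symm] at h2
          exact h2 rfl
        obtain ⟨m, rfl⟩ := Nat.exists_eq_succ_of_ne_zero hm0
        rcases eq_or_ne k j with rfl | hkj
        · refine hc ⟨α, hα, (m : ℤ) • D.rt α, hαm m, ?_⟩
          rw [hm]
          push_cast
          rw [add_zsmul, one_zsmul, add_comm (D.rt α)]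
        · obtain ⟨β, hβ, x, hx, e⟩ := ih (i := k) (j := j) (by
            rw [Matrix.one_apply_ne hkj]
            exact h3)
          refine hc ⟨β, hβ, x + ((m + 1 : ℕ) : ℤ) • D.rt α, add_mem hx (hαm _), ?_⟩
          rw [hm, e]
          abel
    rw [Finset.sum_congr rfl fun k _ => e k, ← Matrix.mul_apply, mul_one]

theorem ug_supp_f {S : Set ι} {A : Type*} [AddCommGroup A] [LinearOrder A] [IsOrderedAddMonoid A]
    (f : X →+ A) (hf : ∀ α ∈ S, 0 < f (D.rt α)) {u : D.Gt p} (hu : u ∈ D.Ug p S) {i j : Fin N}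
    (h : u.1.1 i j ≠ (1 : Matrix (Fin N) (Fin N) ℚ_[p]) i j) : f (D.wt j) < f (D.wt i) := by
  obtain ⟨β, hβ, x, hx, e⟩ := D.ug_supp hu h
  have h1 : ∀ x ∈ AddSubmonoid.closure (D.rt '' S), 0 ≤ f x := by
    intro x hx
    induction hx using AddSubmonoid.closure_induction with
    | mem x hx =>
      obtain ⟨α, hα, rfl⟩ := hx
      exact (hf α hα).le
    | zero => rw [map_zero]
    | add x x' _ _ h1 h2 =>
      rw [map_add]
      exact add_nonneg h1 h2
  rw [e, map_add, map_add]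
  have h2 := hf β hβ
  exact lt_add_of_pos_right _ (add_pos_of_pos_of_nonneg h2 (h1 x hx))

theorem ug_supp_y {S : Set ι} {y : Y} (hy : ∀ α ∈ S, 0 < D.pr α y) {u : D.Gt p}
    (hu : u ∈ D.Ug p S) {i j : Fin N}
    (h : u.1.1 i j ≠ (1 : Matrix (Fin N) (Fin N) ℚ_[p]) i j) : D.wp j y < D.wp i y := by
  obtain ⟨β, hβ, x, hx, e⟩ := D.ug_supp hu h
  have h1 := (D.Gb3_pa_nonneg hy hx).1
  have h2 := hy β hβ
  rw [D.pr_def] at h2
  rw [D.wp_def, D.wp_def, e, D.pa_add_left, D.pa_add_left]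
  linarith

theorem ug_diag {S : Set ι} {y : Y} (hy : ∀ α ∈ S, 0 < D.pr α y) {u : D.Gt p}
    (hu : u ∈ D.Ug p S) (i : Fin N) : u.1.1 i i = 1 := by
  by_contra h
  refine lt_irrefl _ (D.ug_supp_y hy hu (i := i) (j := i) ?_)
  rwa [Matrix.one_apply_eq]

/-- `α` has minimal height in `S` -/
def Mn (y : Y) (S : Set ι) (α : ι) : Prop := α ∈ S ∧ ∀ β ∈ S, D.pr α y ≤ D.pr β y

theorem mn_exists (y : Y) {S : Set ι} (h : S.Nonempty) : ∃ α, D.Mn y S α := by
  obtain ⟨α, h1, h2⟩ := Set.exists_min_image S (fun α => D.pr α y) (Set.toFinite S) h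
  exact ⟨α, h1, h2⟩

theorem mn_cl {y : Y} {S : Set ι} (hS : D.Cl S) (hy : ∀ α ∈ S, 0 < D.pr α y) {α : ι}
    (h : D.Mn y S α) : D.Cl (S \ {α}) := by
  intro β hβ γ hγ δ e
  refine ⟨hS β hβ.1 γ hγ.1 δ e, ?_⟩
  rintro rfl
  have h1 := D.pr_add e y
  have h2 := h.2 β hβ.1
  have h3 := hy γ hγ.1
  linarith

theorem mn_abs {y : Y} {S : Set ι} (hS : D.Cl S) (hy : ∀ α ∈ S, 0 < D.pr α y) {α : ι}
    (h : D.Mn y S α) : ∀ δ ∈ S, D.Abs δ (S \ {α}) := by
  intro δ hδ β hβ γ e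
  refine ⟨hS δ hδ β hβ.1 γ e, ?_⟩
  rintro rfl
  have h1 := D.pr_add e y
  have h2 := h.2 β hβ.1
  have h3 := hy δ hδ
  linarith

theorem peel {y : Y} {S : Set ι} (hS : D.Cl S) (hy : ∀ α ∈ S, 0 < D.pr α y) {α : ι}
    (h : D.Mn y S α) {u : D.Gt p} (hu : u ∈ D.Ug p S) :
    ∃ (s : ℚ_[p]) (u' : D.Gt p), u' ∈ D.Ug p (S \ {α}) ∧ u = D.xr p α s * u' := by
  refine D.ug_ind (q := fun u => ∃ (s : ℚ_[p]) (u' : D.Gt p), u' ∈ D.Ug p (S \ {α}) ∧
    u = D.xr p α s * u') ⟨0, 1, one_mem _, by rw [xr_zero, mul_one]⟩ ?_ hu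
  rintro β hβ t x - ⟨s, u', hu', rfl⟩
  rcases eq_or_ne β α with rfl | hβα
  · exact ⟨t + s, u', hu', by rw [xr_add, mul_assoc]⟩
  · have hn : D.ng α ∉ S \ {α} := by
      intro hn
      have h1 := hy _ hn.1
      rw [D.pr_ng] at h1
      have h2 := hy α h.1
      linarith
    have h3 := D.ug_norm' (D.mn_cl hS hy h) (fun α hα => hy α hα.1) (D.mn_abs hS hy h α h.1) hn s
      (D.xr_mem (p := p) (S := S \ {α}) ⟨hβ, hβα⟩ t)
    refine ⟨s, (D.xr p α s)⁻¹ * D.xr p β t * D.xr p α s * u', mul_mem h3 hu', ?_⟩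
    group

theorem coord {y : Y} {S : Set ι} (hy : ∀ α ∈ S, 0 < D.pr α y) {α : ι}
    (h : D.Mn y S α) {s : ℚ_[p]} {u' : D.Gt p} (hu : u' ∈ D.Ug p (S \ {α})) {i j : Fin N}
    (hij : D.wt i = D.rt α + D.wt j) :
    (D.xr p α s * u').1.1 i j = s * D.Ef p α i j := by
  have hy' : ∀ β ∈ S \ {α}, 0 < D.pr β y := fun β hβ => hy β hβ.1
  rw [val_mul, xr_val, Matrix.mul_apply, Finset.sum_eq_single j]
  · rw [D.xm_one p α s (by rw [hij, add_comm]), D.ug_diag hy' hu, mul_one]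
  · intro k _ hkj
    by_contra h1
    have h2 := left_ne_zero_of_mul h1
    have h3 := right_ne_zero_of_mul h1
    obtain ⟨m, hm⟩ := D.Gb3_cases α s h2
    obtain ⟨β, hβ, x, hx, e⟩ := D.ug_supp hu (i := k) (j := j) (by
      rw [Matrix.one_apply_ne hkj]
      exact h3)
    have e1 : D.rt α = D.rt β + x + (m : ℤ) • D.rt α := by
      have e2 : D.rt α + D.wt j = (D.rt β + x + (m : ℤ) • D.rt α) + D.wt j := by
        rw [← hij, hm, e]
        abel
      exact add_right_cancel e2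
    have e3 := congrArg (fun x => D.pa x y) e1
    simp only [D.pa_add_left, D.pa_smul_left] at e3
    rw [← D.pr_def, ← D.pr_def] at e3
    obtain ⟨h4, h5⟩ := D.Gb3_pa_nonneg hy' hx
    have h6 := h.2 β hβ.1
    have h7 := hy α h.1
    have h8 : 0 ≤ (m : ℤ) * D.pr α y := by positivity
    have h9 : D.pa x y = 0 := by linarith
    have h10 : (m : ℤ) * D.pr α y = 0 := by linarith
    have h11 : (m : ℤ) = 0 := by
      rcases mul_eq_zero.1 h10 with h12 | h12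
      · exact h12
      · exact absurd h12 h7.ne'
    rw [h5 h9, h11, zero_smul, add_zero, add_zero] at e1
    exact hβ.2 (D.rt_inj e1).symm
  · intro h1
    exact absurd (Finset.mem_univ j) h1

theorem coord_K {y : Y} {S : Set ι} (hy : ∀ α ∈ S, 0 < D.pr α y) {α : ι}
    (h : D.Mn y S α) {s : ℚ_[p]} {u' : D.Gt p} (hu : u' ∈ D.Ug p (S \ {α})) :
    (D.xr p α s * u' ∈ D.Kg p → ‖s‖ ≤ 1 ∧ u' ∈ D.Kg p) ∧
    ∀ A : ℝ, (∀ i j, ‖(D.xr p α s * u').1.1 i j‖ ≤ A) → ‖s‖ ≤ A := by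
  obtain ⟨i, j, h1⟩ := D.ef_prim p α
  have h0 : D.Ef p α i j ≠ 0 := by
    intro e
    rw [e, norm_zero] at h1
    exact zero_ne_one h1
  have h2 : ‖(D.xr p α s * u').1.1 i j‖ = ‖s‖ := by
    rw [D.coord hy h hu (D.ef_wt p h0), norm_mul, h1, mul_one]
  refine ⟨fun h3 => ?_, fun A hA => h2 ▸ hA i j⟩
  have h4 : ‖s‖ ≤ 1 := h2 ▸ (D.mem_Kg p).1 h3 i j
  refine ⟨h4, ?_⟩
  have h5 := (D.xr_K p (α := α)).2 h4
  have h6 := mul_mem (inv_mem h5) h3
  rwa [inv_mul_cancel_left] at h6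

end Ctx

end

end Pool.Agent.Lib.MP_f399a8_nt.G
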