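import Pool.Agent.Lib.MP_f399a8_ntG.Gb3

/-!
# The groups `Ug S` are closed

PROOF.
* `ug_closed_sl`: induction on the cardinality of `S` (as a subset of `SLp p N`): let `α` be minimal (`mn_exists`) and `(i, j)` a
  primitive entry of `E α` (`ef_prim`).  With `s g = g i j / E i j` (continuous in `g`), `g` is in the set of `S` if and only if
  `(xr α (s g))⁻¹ * g` is in the set of `S \ {α}` (`peel`, `coord`): preimage of a closed set under a continuous map (`xr_cont`).
  `S = ∅`: one point.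
* `ug_closed`: preimage under the inclusion `Gt → SLp`.
* `ug_bdd`: `{u ∈ Ug S | all entries of norm ≤ A}` is compact in `Gt`: its image in `SLp p N` is the intersection of the closed set of
  `ug_closed_sl` and the compact set `S.bdd_compact` (file `MP_f399a8_ntS.TopA`), and `Gt` has the subspace topology
  (`Topology.IsInducing.isCompact_iff` for `Subtype.val`).
-/

namespace Pool.Agent.Lib.MP_f399a8_nt.G

open Matrix Filter Topology

noncomputable section

theorem Gb4_ce {p : ℕ} [Fact p.Prime] {n : ℕ} (i j : Fin n) : Continuous fun x : SLp p n => x.1 i j :=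
  S.continuous_entry i j

theorem Gb4_bc (p n : ℕ) [Fact p.Prime] (A : ℝ) : IsCompact {x : SLp p n | ∀ i j, ‖x.1 i j‖ ≤ A} :=
  S.bdd_compact p n A

namespace Ctx

variable {ι X Y : Type*} [Finite ι] [AddCommGroup X] [AddCommGroup Y] {N : ℕ} (D : Ctx ι X Y N)
  (p : ℕ) [Fact p.Prime]

theorem Gb4_aux {y : Y} (k : ℕ) : ∀ S : Set ι, S.ncard = k → D.Cl S → (∀ α ∈ S, 0 < D.pr α y) →
    IsClosed {g : SLp p N | ∃ u ∈ D.Ug p S, u.1 = g} := by
  induction k with
  | zero =>
    intro S hk _ _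
    have hS0 : S = ∅ := (Set.ncard_eq_zero (Set.toFinite S)).1 hk
    subst hS0
    have h1 : {g : SLp p N | ∃ u ∈ D.Ug p (∅ : Set ι), u.1 = g} = {1} := by
      ext g
      constructor
      · rintro ⟨u, hu, hg⟩
        rw [← hg, D.ug_empty hu]
        rfl
      · intro hg
        have hg1 : g = 1 := hg
        exact ⟨1, (D.Ug p (∅ : Set ι)).one_mem, by rw [hg1]; rfl⟩
    rw [h1]
    exact isClosed_singleton
  | succ k ih =>
    intro S hk hS hy
    have hne : S.Nonempty := by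
      rw [← Set.ncard_pos (Set.toFinite S), hk]
      exact Nat.succ_pos k
    obtain ⟨α, hα⟩ := D.mn_exists y hne
    obtain ⟨i, j, hij⟩ := D.ef_prim p α
    have hE : D.Ef p α i j ≠ 0 := by
      intro h
      rw [h, norm_zero] at hij
      exact zero_ne_one hij
    have hw : D.wt i = D.rt α + D.wt j := D.ef_wt p hE
    have hk' : (S \ {α}).ncard = k := by
      have h := Set.ncard_sdiff_singleton_add_one hα.1 (Set.toFinite S)
      omega
    have hcl := ih (S \ {α}) hk' (D.mn_cl hS hy hα) (fun β hβ => hy β hβ.1)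
    have hc0 : Continuous fun g : SLp p N => g.1 i j / D.Ef p α i j :=
      (Gb4_ce i j).div_const _
    have hc1 : Continuous fun g : SLp p N => (D.xr p α (g.1 i j / D.Ef p α i j)).1 :=
      continuous_subtype_val.comp ((D.xr_cont p α).comp hc0)
    have hc : Continuous fun g : SLp p N => ((D.xr p α (g.1 i j / D.Ef p α i j)).1)⁻¹ * g :=
      hc1.inv.mul continuous_id
    have h1 : {g : SLp p N | ∃ u ∈ D.Ug p S, u.1 = g} =
        (fun g : SLp p N => ((D.xr p α (g.1 i j / D.Ef p α i j)).1)⁻¹ * g) ⁻¹'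
          {g : SLp p N | ∃ u ∈ D.Ug p (S \ {α}), u.1 = g} := by
      ext g
      constructor
      · rintro ⟨u, hu, hg⟩
        obtain ⟨s, u', hu', he⟩ := D.peel hS hy hα hu
        have h2 : g.1 i j = s * D.Ef p α i j := by
          rw [← hg, he]
          exact D.coord hy hα hu' hw
        refine ⟨u', hu', ?_⟩
        show u'.1 = ((D.xr p α (g.1 i j / D.Ef p α i j)).1)⁻¹ * g
        rw [h2, mul_div_assoc, div_self hE, mul_one, ← hg, he]
        show u'.1 = ((D.xr p α s).1)⁻¹ * ((D.xr p α s).1 * u'.1)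
        rw [inv_mul_cancel_left]
      · rintro ⟨u', hu', hg⟩
        have hg' : u'.1 = ((D.xr p α (g.1 i j / D.Ef p α i j)).1)⁻¹ * g := hg
        refine ⟨D.xr p α (g.1 i j / D.Ef p α i j) * u',
          (D.Ug p S).mul_mem (D.xr_mem hα.1 _) (D.ug_mono Set.sdiff_subset hu'), ?_⟩
        show (D.xr p α (g.1 i j / D.Ef p α i j)).1 * u'.1 = g
        rw [hg', mul_inv_cancel_left]
    rw [h1]
    exact hcl.preimage hc

theorem ug_closed_sl {y : Y} {S : Set ι} (hS : D.Cl S) (hy : ∀ α ∈ S, 0 < D.pr α y) :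
    IsClosed {g : SLp p N | ∃ u ∈ D.Ug p S, u.1 = g} :=
  D.Gb4_aux p S.ncard S rfl hS hy

theorem ug_closed {y : Y} {S : Set ι} (hS : D.Cl S) (hy : ∀ α ∈ S, 0 < D.pr α y) :
    IsClosed (D.Ug p S : Set (D.Gt p)) := by
  have h1 : (D.Ug p S : Set (D.Gt p)) =
      (Subtype.val : D.Gt p → SLp p N) ⁻¹' {g : SLp p N | ∃ u ∈ D.Ug p S, u.1 = g} := by
    ext x
    constructor
    · intro hx
      exact ⟨x, hx, rfl⟩
    · rintro ⟨u, hu, he⟩
      have h2 : u = x := Subtype.ext he
      rw [← h2]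
      exact hu
  rw [h1]
  exact (D.ug_closed_sl p hS hy).preimage continuous_subtype_val

theorem ug_bdd {y : Y} {S : Set ι} (hS : D.Cl S) (hy : ∀ α ∈ S, 0 < D.pr α y) (A : ℝ) :
    IsCompact {u : D.Gt p | u ∈ D.Ug p S ∧ ∀ i j, ‖u.1.1 i j‖ ≤ A} := by
  have hi : Topology.IsInducing (Subtype.val : D.Gt p → SLp p N) := Topology.IsInducing.subtypeVal
  rw [hi.isCompact_iff]
  have h1 : (Subtype.val : D.Gt p → SLp p N) '' {u : D.Gt p | u ∈ D.Ug p S ∧ ∀ i j, ‖u.1.1 i j‖ ≤ A} =
      {x : SLp p N | ∀ i j, ‖x.1 i j‖ ≤ A} ∩ {g : SLp p N | ∃ u ∈ D.Ug p S, u.1 = g} := by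
    ext g
    constructor
    · rintro ⟨u, ⟨hu, hA⟩, rfl⟩
      exact ⟨hA, u, hu, rfl⟩
    · rintro ⟨hA, u, hu, rfl⟩
      exact ⟨u, ⟨hu, hA⟩, rfl⟩
  rw [h1]
  exact (Gb4_bc p N A).inter_right (D.ug_closed_sl p hS hy)

end Ctx

end

end Pool.Agent.Lib.MP_f399a8_nt.G
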