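import Pool.Agent.Lib.MP_f399a8_ntG.Gb3

/-!
# Factorization of `Ug S` with respect to a second positive system

PROOF of `ug_fac0`: induction on the cardinality of `S`.  `S = ∅`: `u = 1`.  Let `α` be minimal, `S' = S \ {α}`,
`u = xr α s * u'` (`peel`), `u' = a' * b'` by induction, `a' ∈ Ug (S' ∩ Po z)`, `b' ∈ Ug (S' ∩ Ne z)`.  If `0 < ⟨α, z⟩`: `u = (xr α s * a') * b'`.
If `⟨α, z⟩ < 0`: `xr α s * a' = (xr α s * a' * (xr α s)⁻¹) * xr α s`, and `xr α s * a' * (xr α s)⁻¹ ∈ Ug S'`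
(`ug_norm` for `S'`, `mn_abs`), so it is `a'' * b''` by induction, and `u = a'' * (b'' * xr α s * b')`.
PROOF of `ug_disj`: entries of `x` different from those of `1` have `⟨wt j, z⟩ < ⟨wt i, z⟩` (first) and
`⟨wt i, z⟩ < ⟨wt j, z⟩` (second) (`ug_supp_y` with `z` and `-z`).
PROOF of `ug_fac`: `ug_fac0` gives `u = a * b`.  Let `R i j := ⟨wt j, y⟩ < ⟨wt i, y⟩`, `S.SO R`; `u.1 ∈ S.U p R` (`ug_supp_y`).
Choose a permutation `ℓ` of `Fin N` with `⟨wt j, z⟩ < ⟨wt i, z⟩ → ℓ j < ℓ i` (`Tuple.sort`: sort by `⟨wt i, z⟩`).  `S.lu`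
(file `MP_f399a8_ntS.LUa`) gives `u.1 = y₁ * z₁` with `y₁ ∈ S.U p (fun i j => R i j ∧ ℓ j < ℓ i)`,
`z₁ ∈ S.U p (fun i j => R i j ∧ ℓ i < ℓ j)` and the integrality statements.  `a.1 ∈ S.U p (fun i j => ℓ j < ℓ i)`,
`b.1 ∈ S.U p (fun i j => ℓ i < ℓ j)` by `ug_supp_y`.  So `y₁⁻¹ * a.1 = z₁ * b.1⁻¹` is in both
(`S.U_mul`, `S.U_inv`), so it is `1`: `a.1 = y₁`, `b.1 = z₁`.
PROOF of `ug_fac_unique`: `a * b = a' * b'`: `a'⁻¹ * a = b' * b⁻¹`, `ug_disj`.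
PROOF of `ug_inter`: `x ∈ Ug S` is `a * b` (`ug_fac`) with `a ∈ Ug (S ∩ Po z)`, `b ∈ Ug (S ∩ Ne z)`; `b = a⁻¹ * x ∈ Ug (Po z)` and
`b ∈ Ug (Ne z)`, so `b = 1` by `ug_disj`.
-/

namespace Pool.Agent.Lib.MP_f399a8_nt.G

open Matrix

noncomputable section

namespace Ctx

variable {ι X Y : Type*} [Finite ι] [AddCommGroup X] [AddCommGroup Y] {N : ℕ} (D : Ctx ι X Y N)
  {p : ℕ} [Fact p.Prime]

private theorem Gb5_fac0 {y : Y} {z : Y} (n : ℕ) : ∀ (S : Set ι), S.ncard = n → D.Cl S →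
    (∀ α ∈ S, 0 < D.pr α y) → (∀ α ∈ S, D.pr α z ≠ 0) → ∀ u : D.Gt p, u ∈ D.Ug p S →
    ∃ a ∈ D.Ug p (S ∩ D.Po z), ∃ b ∈ D.Ug p (S ∩ D.Ne z), u = a * b := by
  induction n using Nat.strong_induction_on with
  | _ n ih =>
    intro S hn hS hy hz u hu
    rcases S.eq_empty_or_nonempty with h0 | h0
    · subst h0
      exact ⟨1, Subgroup.one_mem _, 1, Subgroup.one_mem _, by rw [D.ug_empty hu, mul_one]⟩
    · obtain ⟨α, hα⟩ := D.mn_exists y h0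
      obtain ⟨s, u', hu', rfl⟩ := D.peel hS hy hα hu
      have hcard : (S \ {α}).ncard < n := by
        rw [← hn]
        exact Set.ncard_sdiff_singleton_lt_of_mem hα.1 (Set.toFinite S)
      have hS' := D.mn_cl hS hy hα
      have hsub : S \ {α} ⊆ S := Set.sdiff_subset
      have hy' : ∀ β ∈ S \ {α}, 0 < D.pr β y := fun β hβ => hy β (hsub hβ)
      have hz' : ∀ β ∈ S \ {α}, D.pr β z ≠ 0 := fun β hβ => hz β (hsub hβ)
      have hab := D.mn_abs hS hy hα α hα.1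
      have hng : D.ng α ∉ S \ {α} := by
        intro h
        have h1 := hy' _ h
        rw [D.pr_ng] at h1
        have h2 := hy α hα.1
        omega
      have hP : D.Ug p ((S \ {α}) ∩ D.Po z) ≤ D.Ug p (S ∩ D.Po z) :=
        D.ug_mono (Set.inter_subset_inter_left _ hsub)
      have hN : D.Ug p ((S \ {α}) ∩ D.Ne z) ≤ D.Ug p (S ∩ D.Ne z) :=
        D.ug_mono (Set.inter_subset_inter_left _ hsub)
      obtain ⟨a', ha', b', hb', rfl⟩ := ih _ hcard (S \ {α}) rfl hS' hy' hz' u' hu'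
      rcases lt_or_gt_of_ne (hz α hα.1) with hneg | hpos
      · have hα' : α ∈ S ∩ D.Ne z := ⟨hα.1, hneg⟩
        have hc := D.ug_norm hS' hy' hab hng s (D.ug_mono Set.inter_subset_left ha')
        obtain ⟨a'', ha'', b'', hb'', hab''⟩ := ih _ hcard (S \ {α}) rfl hS' hy' hz' _ hc
        refine ⟨a'', hP ha'', b'' * D.xr p α s * b',
          Subgroup.mul_mem _ (Subgroup.mul_mem _ (hN hb'') (D.xr_mem hα' s)) (hN hb'), ?_⟩
        calc D.xr p α s * (a' * b')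
            = (D.xr p α s * a' * (D.xr p α s)⁻¹) * D.xr p α s * b' := by group
          _ = (a'' * b'') * D.xr p α s * b' := by rw [hab'']
          _ = a'' * (b'' * D.xr p α s * b') := by group
      · have hα' : α ∈ S ∩ D.Po z := ⟨hα.1, hpos⟩
        exact ⟨D.xr p α s * a', Subgroup.mul_mem _ (D.xr_mem hα' s) (hP ha'), b', hN hb',
          (mul_assoc _ _ _).symm⟩

private theorem Gb5_wp_neg (i : Fin N) (y : Y) : D.wp i (-y) = - D.wp i y := by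
  rw [D.wp_def, D.wp_def, D.pa_neg_right]

/-- a permutation sorted by the values on `z` -/
private theorem Gb5_perm (z : Y) : ∃ ℓ : Equiv.Perm (Fin N), ∀ i j, D.wp j z < D.wp i z → ℓ j < ℓ i := by
  refine ⟨(Tuple.sort fun i => D.wp i z).symm, fun i j hij => ?_⟩
  by_contra h
  rw [not_lt] at h
  have h1 := Tuple.monotone_sort (fun i => D.wp i z) h
  simp only [Function.comp_apply, Equiv.apply_symm_apply] at h1
  exact absurd hij (not_lt.2 h1)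

private theorem Gb5_supp_ne {z : Y} {T : Set ι} (hT : ∀ α ∈ T, D.pr α z < 0) {u : D.Gt p}
    (hu : u ∈ D.Ug p T) {i j : Fin N}
    (h : u.1.1 i j ≠ (1 : Matrix (Fin N) (Fin N) ℚ_[p]) i j) : D.wp i z < D.wp j z := by
  have h1 := D.ug_supp_y (y := -z) (fun α hα => by
    rw [D.pr_neg]
    have := hT α hα
    omega) hu h
  rw [Gb5_wp_neg, Gb5_wp_neg] at h1
  omega

theorem ug_fac0 {y : Y} {S : Set ι} (hS : D.Cl S) (hy : ∀ α ∈ S, 0 < D.pr α y) {z : Y}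
    (hz : ∀ α ∈ S, D.pr α z ≠ 0) {u : D.Gt p} (hu : u ∈ D.Ug p S) :
    ∃ a ∈ D.Ug p (S ∩ D.Po z), ∃ b ∈ D.Ug p (S ∩ D.Ne z), u = a * b := by
  exact Gb5_fac0 D S.ncard S rfl hS hy hz u hu

theorem ug_disj {z : Y} {S T : Set ι} (hS : ∀ α ∈ S, 0 < D.pr α z) (hT : ∀ α ∈ T, D.pr α z < 0)
    {x : D.Gt p} (h1 : x ∈ D.Ug p S) (h2 : x ∈ D.Ug p T) : x = 1 := by
  apply D.gt_ext
  ext i j
  by_contra h
  have h3 := D.ug_supp_y hS h1 h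
  have h4 := Gb5_supp_ne D hT h2 h
  omega

private theorem Gb5_int {y z : Y} {T : Set ι} (hy : ∀ α ∈ T, 0 < D.pr α y) {u a b : D.Gt p}
    (hu : u ∈ D.Ug p T) (ha : a ∈ D.Ug p (T ∩ D.Po z)) (hb : b ∈ D.Ug p (T ∩ D.Ne z))
    (hab : u = a * b) : (u ∈ D.Kg p → a ∈ D.Kg p ∧ b ∈ D.Kg p) ∧
      ∀ m : ℕ, u ∈ D.Kmg p m → a ∈ D.Kmg p m ∧ b ∈ D.Kmg p m := by
  obtain ⟨ℓ, hℓ⟩ := Gb5_perm D z
  have hR : S.SO (fun i j : Fin N => D.wp j y < D.wp i y) :=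
    ⟨fun _ h => lt_irrefl _ h, fun _ _ _ h1 h2 => lt_trans h2 h1⟩
  have so1 : S.SO (fun i j : Fin N => ℓ j < ℓ i) :=
    ⟨fun _ h => lt_irrefl _ h, fun _ _ _ h1 h2 => lt_trans h2 h1⟩
  have so2 : S.SO (fun i j : Fin N => ℓ i < ℓ j) :=
    ⟨fun _ h => lt_irrefl _ h, fun _ _ _ h1 h2 => lt_trans h1 h2⟩
  have huR : u.1 ∈ S.U p (fun i j : Fin N => D.wp j y < D.wp i y) := by
    intro i j hij
    by_contra h
    exact hij (D.ug_supp_y hy hu h)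
  have haR : a.1 ∈ S.U p (fun i j : Fin N => ℓ j < ℓ i) := by
    intro i j hij
    by_contra h
    exact hij (hℓ i j (D.ug_supp_y (fun α hα => hα.2) ha h))
  have hbR : b.1 ∈ S.U p (fun i j : Fin N => ℓ i < ℓ j) := by
    intro i j hij
    by_contra h
    exact hij (hℓ j i (Gb5_supp_ne D (fun α hα => hα.2) hb h))
  obtain ⟨y₁, hy₁, z₁, hz₁, huz, hK, hKm⟩ := S.lu hR ℓ huR
  have hy₁' : y₁ ∈ S.U p (fun i j : Fin N => ℓ j < ℓ i) := fun i j hij => hy₁ i j fun h => hij h.2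
  have hz₁' : z₁ ∈ S.U p (fun i j : Fin N => ℓ i < ℓ j) := fun i j hij => hz₁ i j fun h => hij h.2
  have h1 : a.1 * b.1 = y₁ * z₁ := by
    rw [← huz, hab]
    rfl
  have h2 : y₁⁻¹ * a.1 = z₁ * b.1⁻¹ := by
    rw [inv_mul_eq_iff_eq_mul, ← mul_assoc, ← h1, mul_assoc, mul_inv_cancel, mul_one]
  have h3 : y₁⁻¹ * a.1 ∈ S.U p (fun i j : Fin N => ℓ j < ℓ i) := S.U_mul so1 (S.U_inv so1 hy₁') haR
  have h4 : y₁⁻¹ * a.1 ∈ S.U p (fun i j : Fin N => ℓ i < ℓ j) := by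
    rw [h2]
    exact S.U_mul so2 hz₁' (S.U_inv so2 hbR)
  have h5 : y₁⁻¹ * a.1 = 1 := by
    apply Matrix.SpecialLinearGroup.ext
    intro i j
    rw [Matrix.SpecialLinearGroup.coe_one]
    by_cases hij : ℓ j < ℓ i
    · exact S.mem_U.mp h4 i j hij.not_gt
    · exact S.mem_U.mp h3 i j hij
  have h6 : y₁ = a.1 := inv_mul_eq_one.mp h5
  have h7 : z₁ = b.1 := by
    rw [h5] at h2
    exact mul_inv_eq_one.mp h2.symm
  rw [h6, h7] at hK hKm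
  exact ⟨hK, hKm⟩

theorem ug_fac {y : Y} {S : Set ι} (hS : D.Cl S) (hy : ∀ α ∈ S, 0 < D.pr α y) {z : Y}
    (hz : ∀ α ∈ S, D.pr α z ≠ 0) {u : D.Gt p} (hu : u ∈ D.Ug p S) :
    ∃ a ∈ D.Ug p (S ∩ D.Po z), ∃ b ∈ D.Ug p (S ∩ D.Ne z), u = a * b ∧
      (u ∈ D.Kg p → a ∈ D.Kg p ∧ b ∈ D.Kg p) ∧
      ∀ m : ℕ, u ∈ D.Kmg p m → a ∈ D.Kmg p m ∧ b ∈ D.Kmg p m := by
  obtain ⟨a, ha, b, hb, hab⟩ := D.ug_fac0 hS hy hz hu
  obtain ⟨hK, hKm⟩ := Gb5_int D hy hu ha hb hab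
  exact ⟨a, ha, b, hb, hab, hK, hKm⟩

theorem ug_fac_unique {z : Y} {S T : Set ι} (hS : ∀ α ∈ S, 0 < D.pr α z)
    (hT : ∀ α ∈ T, D.pr α z < 0) {a a' b b' : D.Gt p} (ha : a ∈ D.Ug p S) (ha' : a' ∈ D.Ug p S)
    (hb : b ∈ D.Ug p T) (hb' : b' ∈ D.Ug p T) (h : a * b = a' * b') : a = a' ∧ b = b' := by
  have h1 : a'⁻¹ * a = b' * b⁻¹ := by
    rw [inv_mul_eq_iff_eq_mul, ← mul_assoc, ← h, mul_assoc, mul_inv_cancel, mul_one]
  have h2 : a'⁻¹ * a ∈ D.Ug p S := Subgroup.mul_mem _ (Subgroup.inv_mem _ ha') ha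
  have h3 : a'⁻¹ * a ∈ D.Ug p T := by
    rw [h1]
    exact Subgroup.mul_mem _ hb' (Subgroup.inv_mem _ hb)
  have h4 := D.ug_disj hS hT h2 h3
  refine ⟨(inv_mul_eq_one.mp h4).symm, ?_⟩
  rw [h4] at h1
  exact (mul_inv_eq_one.mp h1.symm).symm

theorem ug_inter {y : Y} {S : Set ι} (hS : D.Cl S) (hy : ∀ α ∈ S, 0 < D.pr α y) {z : Y}
    (hz : ∀ α ∈ S, D.pr α z ≠ 0) {x : D.Gt p} (hx : x ∈ D.Ug p S) (hx' : x ∈ D.Ug p (D.Po z)) :
    x ∈ D.Ug p (S ∩ D.Po z) := by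
  obtain ⟨a, ha, b, hb, rfl⟩ := D.ug_fac0 hS hy hz hx
  have ha' : a ∈ D.Ug p (D.Po z) := D.ug_mono Set.inter_subset_right ha
  have hb' : b ∈ D.Ug p (D.Ne z) := D.ug_mono Set.inter_subset_right hb
  have hb'' : b ∈ D.Ug p (D.Po z) := by
    have h1 := Subgroup.mul_mem _ (Subgroup.inv_mem _ ha') hx'
    rwa [inv_mul_cancel_left] at h1
  have h2 := D.ug_disj (S := D.Po z) (T := D.Ne z) (fun α hα => hα) (fun α hα => hα) hb'' hb'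
  rw [h2, mul_one]
  exact ha

end Ctx

end

end Pool.Agent.Lib.MP_f399a8_nt.G
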