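import Pool.Agent.Lib.MP_f399a8_ntS.IoA
import Pool.Agent.Lib.MP_f399a8_ntS.IwaA

/-!
# Homomorphisms from `SL_2(ℚ_p)` given by relations

`ux s = !![1, s; 0, 1]`, `dg2 a = diag (a, a⁻¹)`; `S.lo2 s = !![1, 0; s, 1]`, `S.w2 p = !![0, 1; -1, 0]` (file `IoA`).

PROOF of `sl2_hom`.  For `g = !![a, b; c, d]` let `φ g = x (a / c) * h (-1 / c) * n * x (d / c)` if `c ≠ 0`, and `φ g = h a * x (b / a)` if
`c = 0` (then `a ≠ 0`, `d = 1 / a`).  Consequences of the relations: `h a * x s = x (a² s) * h a`, `n * h a = h a⁻¹ * n`, `h 1 = 1`,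
`x 0 = 1`, and (from `h4` with `-s`) for `s ≠ 0`: `n * x s * n⁻¹ = x (-1/s) * h (1/s) * n * x (-1/s)`.  Multiplicativity
`φ (g g') = φ g * φ g'`, `g' = !![a', b'; c', d']`:
1. `c = c' = 0`: `h a x(b/a) h a' x(b'/a') = h a h a' x(b / (a a'²)) x(b'/a')`.
2. `c = 0`, `c' ≠ 0`: `h a x(b/a) x(a'/c') h(-1/c') n x(d'/c') = x (a² (b/a + a'/c')) h(-a/c') n x(d'/c')`, and
   `g g' = !![a a' + b c', *; c'/a, d'/a]`.
3. `c ≠ 0`, `c' = 0`: `x(a/c) h(-1/c) n x(d/c) h a' x(b'/a') = x(a/c) h(-1/(c a')) n x(d / (c a'²)) x(b'/a')`,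
   `g g' = !![a a', *; c a', c b' + d / a']`.
4. `c, c' ≠ 0`: let `s = d/c + a'/c'`; the lower left entry of `g g'` is `c'' = c a' + d c' = s c c'`.
   `φ g * φ g' = x(a/c) h(-1/c) n x(s) h(-1/c') n x(d'/c')`.
   `s = 0`: `= x(a/c) h(-1/c) n h(-1/c') n x(d'/c') = x(a/c) h(-1/c) h(-c') n² x(d'/c') = x(a/c) h(-c'/c) x(d'/c')` (`h(-1/c) h(-c') h(-1)`),
   and `a'' = a a' + b c' = -c'/c` (use `d c' = - a' c`, `a d - b c = 1`).
   `s ≠ 0`: `n x(s) = x(-1/s) h(1/s) n x(-1/s) n`, so the product is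
   `x(a/c) h(-1/c) x(-1/s) h(1/s) n x(-1/s) n h(-1/c') n x(d'/c')`, where `n h(-1/c') n = h(-c') n² = h(-c') h(-1) = h(c')`; move all `h` to
   the left of `n` and compare: `x(a/c - 1/(c² s)) h(-1/(c c' s)) n x(d'/c' - 1/(c'² s))`, and `a''/c'' = a/c - 1/(c² s)`,
   `d''/c'' = d'/c' - 1/(c'² s)` (field computations using the determinants).
The values: `φ (ux s) = h 1 * x s`; `φ (dg2 a) = h a * x 0`; `φ (w2) = x 0 * h 1 * n * x 0` (`c = -1`, `a = d = 0`); `φ (lo2 s)`, `s ≠ 0`: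
`x(1/s) h(-1/s) n x(1/s)`, which is `n x(-s) n⁻¹` by `h4`.
PROOF of `sl2_ind`: the set of `g` with `∀ g', q g' → q (g * g')` is closed under products and contains `ux s`, `lo2 s`, so also
`w2 = ux 1 * lo2 (-1) * ux 1`, `dg2 a = (ux a * lo2 (-a⁻¹) * ux a) * (ux (-1) * lo2 1 * ux (-1))`, and every matrix is of the form
`dg2 a * ux s` (lower left entry `0`) or `ux (a/c) * dg2 (-1/c) * w2 * ux (d/c)`.
PROOF of `sl2_int`: if `‖l 0 0‖ = 1`: `a = l 0 0`, `s = l 1 0 / a`, `t = l 0 1 / a`.  Otherwise `‖l 0 0‖ < 1` and `l 0 0 * l 1 1 - l 0 1 * l 1 0 = 1`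
imply `‖l 1 0‖ = 1`; `c = l 1 0`, `l = ux (l 0 0 / c) * dg2 (-1/c) * w2 * ux (l 1 1 / c)`.
PROOF of `sl2_iwa`: `S.iwasawa` (file `MP_f399a8_ntS.IwaA`, import `MP_f399a8_ntS.IwaA`) for `n = 2`: `b = !![a, b; 0, a⁻¹] = ux (a b) * dg2 a`.
-/

namespace Pool.Agent.Lib.MP_f399a8_nt.G

open Matrix

noncomputable section

variable {p : ℕ} [Fact p.Prime]

/-- upper unipotent -/
def ux (s : ℚ_[p]) : SLp p 2 := ⟨!![1, s; 0, 1], by simp [Matrix.det_fin_two]⟩

/-- diagonal -/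
def dg2 (a : ℚ_[p]ˣ) : SLp p 2 :=
  ⟨!![(a : ℚ_[p]), 0; 0, ((a⁻¹ : ℚ_[p]ˣ) : ℚ_[p])], by simp [Matrix.det_fin_two]⟩

section Gc1_group

variable {K : Type*} [Field K] {G : Type*} [Group G]

open Classical in
/-- the value of the homomorphism at a matrix -/
private def Gc1_Phi (x H : K → G) (n : G) (a b c d : K) : G :=
  if c = 0 then H a * x (b / a) else x (a / c) * (H (-1 / c) * (n * x (d / c)))

/-- the relations -/
private structure Gc1_Rel (x H : K → G) (n : G) : Prop where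
  hx : ∀ s t, x s * x t = x (s + t)
  hH : ∀ a b, a ≠ 0 → b ≠ 0 → H a * H b = H (a * b)
  h1 : ∀ a s, a ≠ 0 → H a * x s = x (a ^ 2 * s) * H a
  h2 : ∀ a, a ≠ 0 → n * H a = H a⁻¹ * n
  h3 : n * n = H (-1)
  h4 : ∀ s, s ≠ 0 → n * x s = x (-s⁻¹) * (H s⁻¹ * (n * (x (-s⁻¹) * n)))

private theorem Gc1_x0 {x H : K → G} {n : G} (R : Gc1_Rel x H n) : x 0 = 1 := by
  have h := R.hx 0 0
  rw [add_zero] at h
  exact mul_eq_left.1 h

private theorem Gc1_H1 {x H : K → G} {n : G} (R : Gc1_Rel x H n) : H 1 = 1 := by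
  have h := R.hH 1 1 one_ne_zero one_ne_zero
  rw [mul_one] at h
  exact mul_eq_left.1 h

private theorem Gc1_hx' {x H : K → G} {n : G} (R : Gc1_Rel x H n) (s t : K) (g : G) :
    x s * (x t * g) = x (s + t) * g := by
  rw [← mul_assoc, R.hx]

private theorem Gc1_hH' {x H : K → G} {n : G} (R : Gc1_Rel x H n) (a b : K) (ha : a ≠ 0)
    (hb : b ≠ 0) (g : G) : H a * (H b * g) = H (a * b) * g := by
  rw [← mul_assoc, R.hH a b ha hb]

private theorem Gc1_h1' {x H : K → G} {n : G} (R : Gc1_Rel x H n) (a s : K) (ha : a ≠ 0)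
    (g : G) : H a * (x s * g) = x (a ^ 2 * s) * (H a * g) := by
  rw [← mul_assoc, R.h1 a s ha, mul_assoc]

private theorem Gc1_h1r {x H : K → G} {n : G} (R : Gc1_Rel x H n) (a s : K) (ha : a ≠ 0) :
    x s * H a = H a * x (s / a ^ 2) := by
  rw [R.h1 a _ ha, mul_div_cancel₀ _ (pow_ne_zero 2 ha)]

private theorem Gc1_h1r' {x H : K → G} {n : G} (R : Gc1_Rel x H n) (a s : K) (ha : a ≠ 0)
    (g : G) : x s * (H a * g) = H a * (x (s / a ^ 2) * g) := by
  rw [← mul_assoc, Gc1_h1r R a s ha, mul_assoc]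

private theorem Gc1_h2' {x H : K → G} {n : G} (R : Gc1_Rel x H n) (a : K) (ha : a ≠ 0)
    (g : G) : n * (H a * g) = H a⁻¹ * (n * g) := by
  rw [← mul_assoc, R.h2 a ha, mul_assoc]

private theorem Gc1_h3' {x H : K → G} {n : G} (R : Gc1_Rel x H n) (g : G) :
    n * (n * g) = H (-1) * g := by
  rw [← mul_assoc, R.h3]

private theorem Gc1_h4' {x H : K → G} {n : G} (R : Gc1_Rel x H n) (s : K) (hs : s ≠ 0) (g : G) :
    n * (x s * g) = x (-s⁻¹) * (H s⁻¹ * (n * (x (-s⁻¹) * (n * g)))) := by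
  rw [← mul_assoc, R.h4 s hs]
  simp only [mul_assoc]

private theorem Gc1_case4 {x H : K → G} {n : G} (R : Gc1_Rel x H n) {c c' s u v : K}
    (hc : c ≠ 0) (hc' : c' ≠ 0) (hs : s ≠ 0) :
    x u * (H (-1 / c) * (n * (x s * (H (-1 / c') * (n * x v))))) =
      x (u - 1 / (c ^ 2 * s)) * (H (-1 / (c * c' * s)) * (n * x (v - 1 / (c' ^ 2 * s)))) := by
  have hc1 : (-1 / c : K) ≠ 0 := div_ne_zero (neg_ne_zero.2 one_ne_zero) hc
  have hc1' : (-1 / c' : K) ≠ 0 := div_ne_zero (neg_ne_zero.2 one_ne_zero) hc'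
  have hs1 : s⁻¹ ≠ 0 := inv_ne_zero hs
  have hm : (-1 : K) ≠ 0 := neg_ne_zero.2 one_ne_zero
  rw [Gc1_h4' R s hs, Gc1_h2' R _ hc1', Gc1_h3' R, Gc1_hH' R _ _ (inv_ne_zero hc1') hm]
  have e : (-1 / c')⁻¹ * (-1 : K) = c' := by
    field_simp
  rw [e, Gc1_h1r' R c' _ hc', Gc1_h2' R c' hc', Gc1_hH' R _ _ hs1 (inv_ne_zero hc'),
    Gc1_h1' R _ _ hc1, Gc1_hx' R, Gc1_hH' R _ _ hc1 (mul_ne_zero hs1 (inv_ne_zero hc')), R.hx]
  have e1 : u + (-1 / c) ^ 2 * -s⁻¹ = u - 1 / (c ^ 2 * s) := by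
    field_simp
    ring
  have e2 : -1 / c * (s⁻¹ * c'⁻¹) = -1 / (c * c' * s) := by
    field_simp
  have e3 : -s⁻¹ / c' ^ 2 + v = v - 1 / (c' ^ 2 * s) := by
    field_simp
    ring
  rw [e1, e2, e3]

private theorem Gc1_mul {x H : K → G} {n : G} (R : Gc1_Rel x H n) {a b c d a' b' c' d' : K}
    (hd : a * d - b * c = 1) (hd' : a' * d' - b' * c' = 1) :
    Gc1_Phi x H n a b c d * Gc1_Phi x H n a' b' c' d' =
      Gc1_Phi x H n (a * a' + b * c') (a * b' + b * d') (c * a' + d * c') (c * b' + d * d') := by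
  have hm : (-1 : K) ≠ 0 := neg_ne_zero.2 one_ne_zero
  by_cases hc : c = 0
  · subst hc
    have had : a * d = 1 := by linear_combination hd
    have ha : a ≠ 0 := left_ne_zero_of_mul_eq_one had
    have hdv : d = a⁻¹ := eq_inv_of_mul_eq_one_right had
    subst hdv
    by_cases hc' : c' = 0
    · subst hc'
      have had' : a' * d' = 1 := by linear_combination hd'
      have ha' : a' ≠ 0 := left_ne_zero_of_mul_eq_one had'
      have hdv' : d' = a'⁻¹ := eq_inv_of_mul_eq_one_right had'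
      subst hdv'
      have hc'' : (0 : K) * a' + a⁻¹ * 0 = 0 := by ring
      unfold Gc1_Phi
      rw [if_pos rfl, if_pos rfl, if_pos hc'']
      simp only [mul_assoc]
      rw [Gc1_h1r' R a' _ ha', Gc1_hH' R _ _ ha ha', R.hx]
      have e1 : a * a' + b * 0 = a * a' := by ring
      have e2 : b / a / a' ^ 2 + b' / a' = (a * b' + b * a'⁻¹) / (a * a') := by
        field_simp
        ring
      rw [e1, e2]
    · have hc'' : (0 : K) * a' + a⁻¹ * c' ≠ 0 := by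
        rw [zero_mul, zero_add]
        exact mul_ne_zero (inv_ne_zero ha) hc'
      have hc1' : (-1 / c' : K) ≠ 0 := div_ne_zero hm hc'
      unfold Gc1_Phi
      rw [if_pos rfl, if_neg hc', if_neg hc'']
      simp only [mul_assoc]
      rw [Gc1_hx' R, Gc1_h1' R _ _ ha, Gc1_hH' R _ _ ha hc1']
      have e1 : a ^ 2 * (b / a + a' / c') = (a * a' + b * c') / (0 * a' + a⁻¹ * c') := by
        rw [zero_mul, zero_add]
        field_simp
        ring
      have e2 : a * (-1 / c') = -1 / (0 * a' + a⁻¹ * c') := by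
        rw [zero_mul, zero_add]
        field_simp
      have e3 : d' / c' = (0 * b' + a⁻¹ * d') / (0 * a' + a⁻¹ * c') := by
        rw [zero_mul, zero_add, zero_mul, zero_add]
        field_simp
      rw [e1, e2, e3]
  · have hc1 : (-1 / c : K) ≠ 0 := div_ne_zero hm hc
    by_cases hc' : c' = 0
    · subst hc'
      have had' : a' * d' = 1 := by linear_combination hd'
      have ha' : a' ≠ 0 := left_ne_zero_of_mul_eq_one had'
      have hdv' : d' = a'⁻¹ := eq_inv_of_mul_eq_one_right had'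
      subst hdv'
      have hc'' : c * a' + d * 0 ≠ 0 := by
        rw [mul_zero, add_zero]
        exact mul_ne_zero hc ha'
      unfold Gc1_Phi
      rw [if_neg hc, if_pos rfl, if_neg hc'']
      simp only [mul_assoc]
      rw [Gc1_h1r' R a' _ ha', Gc1_h2' R _ ha', Gc1_hH' R _ _ hc1 (inv_ne_zero ha'), R.hx]
      have e1 : a / c = (a * a' + b * 0) / (c * a' + d * 0) := by
        rw [mul_zero, add_zero, mul_zero, add_zero]
        field_simp
      have e2 : -1 / c * a'⁻¹ = -1 / (c * a' + d * 0) := by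
        rw [mul_zero, add_zero]
        field_simp
      have e3 : d / c / a' ^ 2 + b' / a' = (c * b' + d * a'⁻¹) / (c * a' + d * 0) := by
        rw [mul_zero, add_zero]
        field_simp
        ring
      rw [e1, e2, e3]
    · have hc1' : (-1 / c' : K) ≠ 0 := div_ne_zero hm hc'
      obtain ⟨s, hs⟩ : ∃ s : K, s = d / c + a' / c' := ⟨_, rfl⟩
      have hsc : c * a' + d * c' = s * c * c' := by
        rw [hs]
        field_simp
        ring
      have hL : Gc1_Phi x H n a b c d * Gc1_Phi x H n a' b' c' d' =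
          x (a / c) * (H (-1 / c) * (n * (x s * (H (-1 / c') * (n * x (d' / c')))))) := by
        unfold Gc1_Phi
        rw [if_neg hc, if_neg hc', hs]
        simp only [mul_assoc]
        rw [Gc1_hx' R]
      rw [hL]
      by_cases hs0 : s = 0
      · have hc'' : c * a' + d * c' = 0 := by rw [hsc, hs0]; ring
        unfold Gc1_Phi
        rw [if_pos hc'', hs0, Gc1_x0 R, one_mul, Gc1_h2' R _ hc1', Gc1_h3' R,
          Gc1_hH' R _ _ (inv_ne_zero hc1') hm]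
        have e : (-1 / c')⁻¹ * (-1 : K) = c' := by
          field_simp
        rw [e, Gc1_hH' R _ _ hc1 hc']
        have hcc : (-1 / c * c' : K) ≠ 0 := mul_ne_zero hc1 hc'
        rw [Gc1_h1r' R _ _ hcc, R.hx]
        have e1 : -1 / c * c' = a * a' + b * c' := by
          field_simp
          linear_combination c' * hd - a * hc''
        have e1' : a * a' + b * c' ≠ 0 := by
          rw [← e1]
          exact hcc
        have e2 : a / c / (-1 / c * c') ^ 2 + d' / c' = (a * b' + b * d') / (a * a' + b * c') := by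
          rw [← e1]
          field_simp
          linear_combination (-a * c) * hd' + a * d' * hc'' - d' * c' * hd
        rw [e1] at e2 ⊢
        rw [e2]
      · have hc'' : c * a' + d * c' ≠ 0 := by
          rw [hsc]
          exact mul_ne_zero (mul_ne_zero hs0 hc) hc'
        rw [Gc1_case4 R hc hc' hs0]
        unfold Gc1_Phi
        rw [if_neg hc'', hsc]
        have e1 : a / c - 1 / (c ^ 2 * s) = (a * a' + b * c') / (s * c * c') := by
          field_simp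
          linear_combination (-a) * hsc + c' * hd
        have e2 : -1 / (c * c' * s) = -1 / (s * c * c') := by
          congr 1
          ring
        have e3 : d' / c' - 1 / (c' ^ 2 * s) = (c * b' + d * d') / (s * c * c') := by
          field_simp
          linear_combination (-d') * hsc + c * hd'
        rw [e1, e2, e3]

end Gc1_group

theorem sl2_hom {G : Type*} [Group G] (x : ℚ_[p] → G) (h : ℚ_[p]ˣ → G) (n : G)
    (hx : ∀ s t, x (s + t) = x s * x t) (hh : ∀ a b, h (a * b) = h a * h b)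
    (h1 : ∀ (a : ℚ_[p]ˣ) s, h a * x s * (h a)⁻¹ = x ((a : ℚ_[p]) ^ 2 * s))
    (h2 : ∀ a, n * h a * n⁻¹ = h a⁻¹) (h3 : n * n = h (-1))
    (h4 : ∀ s : ℚ_[p]ˣ, n * x (-(s : ℚ_[p])) * n⁻¹ =
      x ((s⁻¹ : ℚ_[p]ˣ) : ℚ_[p]) * h (-s⁻¹) * n * x ((s⁻¹ : ℚ_[p]ˣ) : ℚ_[p])) :
    ∃ φ : SLp p 2 →* G, (∀ s, φ (ux s) = x s) ∧ (∀ s, φ (S.lo2 s) = n * x (-s) * n⁻¹) ∧
      (∀ a, φ (dg2 a) = h a) ∧ φ (S.w2 p) = n := by
  classical
  obtain ⟨H, hHdef⟩ : ∃ H : ℚ_[p] → G, H = fun a => if ha : a ≠ 0 then h (Units.mk0 a ha) else 1 :=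
    ⟨_, rfl⟩
  have Hval : ∀ (a : ℚ_[p]) (ha : a ≠ 0), H a = h (Units.mk0 a ha) := by
    intro a ha
    rw [hHdef]
    simp only
    rw [dif_pos ha]
  have Hu : ∀ a : ℚ_[p]ˣ, H (a : ℚ_[p]) = h a := by
    intro a
    rw [Hval _ a.ne_zero, Units.mk0_val]
  have hm : (-1 : ℚ_[p]) ≠ 0 := neg_ne_zero.2 one_ne_zero
  have H1 : ∀ a s, a ≠ 0 → H a * x s = x (a ^ 2 * s) * H a := by
    intro a s ha
    have := h1 (Units.mk0 a ha) s
    rw [Units.val_mk0] at this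
    rw [Hval a ha, ← this, inv_mul_cancel_right]
  have H2 : ∀ a, a ≠ 0 → n * H a = H a⁻¹ * n := by
    intro a ha
    have := h2 (Units.mk0 a ha)
    rw [Hval a ha, Hval a⁻¹ (inv_ne_zero ha)]
    have e : Units.mk0 a⁻¹ (inv_ne_zero ha) = (Units.mk0 a ha)⁻¹ := by
      apply Units.ext
      simp
    rw [e, ← this, inv_mul_cancel_right]
  have R : Gc1_Rel x H n := by
    refine ⟨fun s t => (hx s t).symm, ?_, H1, H2, ?_, ?_⟩
    · intro a b ha hb
      rw [Hval a ha, Hval b hb, Hval _ (mul_ne_zero ha hb), ← hh]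
      congr 1
      apply Units.ext
      simp
    · rw [h3, Hval _ hm]
      congr 1
      apply Units.ext
      simp
    · intro s hs
      have := h4 (-Units.mk0 s hs)
      rw [Units.val_neg, Units.val_mk0, neg_neg] at this
      have e1 : (((-Units.mk0 s hs)⁻¹ : ℚ_[p]ˣ) : ℚ_[p]) = -s⁻¹ := by
        rw [Units.val_inv_eq_inv_val, Units.val_neg, Units.val_mk0, inv_neg]
      have e2 : h (-(-Units.mk0 s hs)⁻¹) = H s⁻¹ := by
        rw [Hval _ (inv_ne_zero hs)]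
        congr 1
        apply Units.ext
        rw [Units.val_neg, e1, neg_neg, Units.val_mk0]
      rw [e1, e2] at this
      have h5 : n * x s = (n * x s * n⁻¹) * n := by rw [inv_mul_cancel_right]
      rw [h5, this]
      simp only [mul_assoc]
  have hdet : ∀ g : SLp p 2, g.1 0 0 * g.1 1 1 - g.1 0 1 * g.1 1 0 = 1 := by
    intro g
    have := g.2
    rwa [Matrix.det_fin_two] at this
  have hne : ∀ g g' : SLp p 2, ∀ i j, (g * g').1 i j = g.1 i 0 * g'.1 0 j + g.1 i 1 * g'.1 1 j := by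
    intro g g' i j
    show (g.1 * g'.1) i j = _
    rw [Matrix.mul_apply, Fin.sum_univ_two]
  refine ⟨⟨⟨fun g => Gc1_Phi x H n (g.1 0 0) (g.1 0 1) (g.1 1 0) (g.1 1 1), ?_⟩, ?_⟩, ?_, ?_, ?_, ?_⟩
  · show Gc1_Phi x H n ((1 : Matrix (Fin 2) (Fin 2) ℚ_[p]) 0 0) ((1 : Matrix (Fin 2) (Fin 2) ℚ_[p]) 0 1)
      ((1 : Matrix (Fin 2) (Fin 2) ℚ_[p]) 1 0) ((1 : Matrix (Fin 2) (Fin 2) ℚ_[p]) 1 1) = 1
    unfold Gc1_Phi
    rw [if_pos (by simp)]
    simp [Gc1_x0 R, Gc1_H1 R]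
  · intro g g'
    show Gc1_Phi x H n ((g * g').1 0 0) ((g * g').1 0 1) ((g * g').1 1 0) ((g * g').1 1 1) = _
    rw [hne, hne, hne, hne, ← Gc1_mul R (hdet g) (hdet g')]
  · intro s
    show Gc1_Phi x H n 1 s 0 1 = x s
    unfold Gc1_Phi
    rw [if_pos rfl, Gc1_H1 R, one_mul, div_one]
  · intro s
    show Gc1_Phi x H n 1 0 s 1 = n * x (-s) * n⁻¹
    unfold Gc1_Phi
    by_cases hs : s = 0
    · rw [if_pos hs, hs, Gc1_H1 R, one_mul, div_one, neg_zero, Gc1_x0 R, mul_one, mul_inv_cancel]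
    · rw [if_neg hs]
      have := h4 (Units.mk0 s hs)
      rw [Units.val_mk0] at this
      have e1 : (((Units.mk0 s hs)⁻¹ : ℚ_[p]ˣ) : ℚ_[p]) = 1 / s := by
        rw [Units.val_inv_eq_inv_val, Units.val_mk0, one_div]
      have e2 : h (-(Units.mk0 s hs)⁻¹) = H (-1 / s) := by
        rw [Hval _ (div_ne_zero hm hs)]
        congr 1
        apply Units.ext
        rw [Units.val_neg, e1, Units.val_mk0]
        ring
      rw [e1, e2] at this
      rw [this]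
      simp only [mul_assoc]
  · intro a
    show Gc1_Phi x H n (a : ℚ_[p]) 0 0 ((a⁻¹ : ℚ_[p]ˣ) : ℚ_[p]) = h a
    unfold Gc1_Phi
    rw [if_pos rfl, zero_div, Gc1_x0 R, mul_one, Hu]
  · show Gc1_Phi x H n 0 1 (-1) 0 = n
    unfold Gc1_Phi
    rw [if_neg hm, zero_div, Gc1_x0 R, one_mul, mul_one]
    have e : (-1 : ℚ_[p]) / (-1) = 1 := by norm_num
    rw [e, Gc1_H1 R, one_mul]

private theorem Gc1_det (g : SLp p 2) : g.1 0 0 * g.1 1 1 - g.1 0 1 * g.1 1 0 = 1 := by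
  have := g.2
  rwa [Matrix.det_fin_two] at this

private theorem Gc1_ext {g : SLp p 2} {a b c d : ℚ_[p]} (h00 : g.1 0 0 = a) (h01 : g.1 0 1 = b)
    (h10 : g.1 1 0 = c) (h11 : g.1 1 1 = d) : g.1 = !![a, b; c, d] := by
  ext i j
  fin_cases i <;> fin_cases j
  · exact h00
  · exact h01
  · exact h10
  · exact h11

theorem up2_eq {a : ℚ_[p]} (ha : a ≠ 0) (c : ℚ_[p]) :
    S.up2 a ha c = dg2 (Units.mk0 a ha)⁻¹ * ux (a * c) := by
  apply Subtype.ext
  show !![a⁻¹, c; 0, a] = !![(((Units.mk0 a ha)⁻¹ : ℚ_[p]ˣ) : ℚ_[p]), 0; 0,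
    (((Units.mk0 a ha)⁻¹⁻¹ : ℚ_[p]ˣ) : ℚ_[p])] * !![1, a * c; 0, 1]
  rw [Matrix.mul_fin_two, inv_inv, Units.val_inv_eq_inv_val, Units.val_mk0]
  congr 1
  simp [ha]

private theorem Gc1_dec {g : SLp p 2} (hc : g.1 1 0 ≠ 0) :
    g = ux ((g.1 0 0 - 1) / g.1 1 0) * (S.lo2 (g.1 1 0) * ux ((g.1 1 1 - 1) / g.1 1 0)) := by
  have hd := Gc1_det g
  apply Subtype.ext
  show g.1 = !![1, (g.1 0 0 - 1) / g.1 1 0; 0, 1] * (!![1, 0; g.1 1 0, 1] *
    !![1, (g.1 1 1 - 1) / g.1 1 0; 0, 1])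
  rw [Matrix.mul_fin_two, Matrix.mul_fin_two]
  apply Gc1_ext
  · field_simp
    ring
  · field_simp
    linear_combination (-1) * hd
  · ring
  · field_simp
    ring

/-- `SL_2` is generated by the upper and lower unipotent matrices -/
theorem sl2_ind {q : SLp p 2 → Prop} (h1 : q 1) (hu : ∀ s g, q g → q (ux s * g))
    (hl : ∀ s g, q g → q (S.lo2 s * g)) (g : SLp p 2) : q g := by
  have key : ∀ g : SLp p 2, g.1 1 0 ≠ 0 → ∀ g', q g' → q (g * g') := by
    intro g hc g' hq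
    rw [Gc1_dec hc]
    simp only [mul_assoc]
    exact hu _ _ (hl _ _ (hu _ _ hq))
  by_cases hc : g.1 1 0 = 0
  · have hd := Gc1_det g
    have ha : g.1 0 0 ≠ 0 := by
      intro h0
      rw [h0, hc, zero_mul, mul_zero, sub_zero] at hd
      exact zero_ne_one hd
    have h2 : g = S.lo2 (-1) * (S.lo2 1 * g) := by
      rw [← mul_assoc, S.lo2_mul, neg_add_cancel, S.lo2_zero, one_mul]
    rw [h2]
    apply hl
    have h3 : (S.lo2 1 * g).1 1 0 ≠ 0 := by
      have : (S.lo2 1 * g).1 1 0 = g.1 0 0 := by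
        show (!![1, 0; (1 : ℚ_[p]), 1] * g.1) 1 0 = _
        rw [Matrix.mul_apply, Fin.sum_univ_two]
        simp [hc]
      rw [this]
      exact ha
    have h4 := key _ h3 1 h1
    rwa [mul_one] at h4
  · have h4 := key _ hc 1 h1
    rwa [mul_one] at h4

/-- integral elements -/
theorem sl2_int {l : SLp p 2} (hl : l ∈ S.Kp p 2) :
    (∃ (a : ℚ_[p]ˣ) (s t : ℚ_[p]), ‖(a : ℚ_[p])‖ = 1 ∧ ‖s‖ ≤ 1 ∧ ‖t‖ ≤ 1 ∧
      l = S.lo2 s * dg2 a * ux t) ∨
    (∃ (a : ℚ_[p]ˣ) (s t : ℚ_[p]), ‖(a : ℚ_[p])‖ = 1 ∧ ‖s‖ ≤ 1 ∧ ‖t‖ ≤ 1 ∧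
      l = ux s * dg2 a * S.w2 p * ux t) := by
  have hd := Gc1_det l
  have hn := S.mem_Kp.1 hl
  by_cases h : ‖l.1 0 0‖ = 1
  · left
    have ha : l.1 0 0 ≠ 0 := by
      intro h0
      rw [h0, norm_zero] at h
      exact zero_ne_one h
    refine ⟨Units.mk0 _ ha, l.1 1 0 / l.1 0 0, l.1 0 1 / l.1 0 0, h, ?_, ?_, ?_⟩
    · rw [norm_div, h, div_one]
      exact hn 1 0
    · rw [norm_div, h, div_one]
      exact hn 0 1
    · apply Subtype.ext
      show l.1 = !![1, 0; l.1 1 0 / l.1 0 0, 1] * !![((Units.mk0 _ ha : ℚ_[p]ˣ) : ℚ_[p]), 0; 0,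
        (((Units.mk0 _ ha)⁻¹ : ℚ_[p]ˣ) : ℚ_[p])] * !![1, l.1 0 1 / l.1 0 0; 0, 1]
      rw [Matrix.mul_fin_two, Matrix.mul_fin_two, Units.val_inv_eq_inv_val, Units.val_mk0]
      apply Gc1_ext
      · ring
      · field_simp
        ring
      · field_simp
        ring
      · field_simp
        linear_combination hd
  · right
    have hlt : ‖l.1 0 0‖ < 1 := lt_of_le_of_ne (hn 0 0) h
    have hcn : ‖l.1 1 0‖ = 1 := by
      by_contra hcon
      have hclt : ‖l.1 1 0‖ < 1 := lt_of_le_of_ne (hn 1 0) hcon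
      have h1 : ‖l.1 0 0 * l.1 1 1‖ < 1 := by
        rw [norm_mul]
        calc _ ≤ ‖l.1 0 0‖ * 1 := mul_le_mul_of_nonneg_left (hn 1 1) (norm_nonneg _)
          _ < 1 := by rwa [mul_one]
      have h2 : ‖-(l.1 0 1 * l.1 1 0)‖ < 1 := by
        rw [norm_neg, norm_mul]
        calc _ ≤ 1 * ‖l.1 1 0‖ := mul_le_mul_of_nonneg_right (hn 0 1) (norm_nonneg _)
          _ < 1 := by rwa [one_mul]
      have h3 := IsUltrametricDist.norm_add_le_max (l.1 0 0 * l.1 1 1) (-(l.1 0 1 * l.1 1 0))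
      rw [← sub_eq_add_neg, hd, norm_one] at h3
      exact absurd h3 (not_le.2 (max_lt h1 h2))
    have hc : l.1 1 0 ≠ 0 := by
      intro h0
      rw [h0, norm_zero] at hcn
      exact zero_ne_one hcn
    have hm : (-1 : ℚ_[p]) ≠ 0 := neg_ne_zero.2 one_ne_zero
    have hc1 : -1 / l.1 1 0 ≠ 0 := div_ne_zero hm hc
    refine ⟨Units.mk0 _ hc1, l.1 0 0 / l.1 1 0, l.1 1 1 / l.1 1 0, ?_, ?_, ?_, ?_⟩
    · rw [Units.val_mk0, norm_div, norm_neg, norm_one, hcn, div_one]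
    · rw [norm_div, hcn, div_one]
      exact hn 0 0
    · rw [norm_div, hcn, div_one]
      exact hn 1 1
    · apply Subtype.ext
      show l.1 = !![1, l.1 0 0 / l.1 1 0; 0, 1] * !![((Units.mk0 _ hc1 : ℚ_[p]ˣ) : ℚ_[p]), 0; 0,
        (((Units.mk0 _ hc1)⁻¹ : ℚ_[p]ˣ) : ℚ_[p])] * !![0, 1; -1, 0] *
        !![1, l.1 1 1 / l.1 1 0; 0, 1]
      rw [Matrix.mul_fin_two, Matrix.mul_fin_two, Matrix.mul_fin_two, Units.val_inv_eq_inv_val,
        Units.val_mk0]
      apply Gc1_ext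
      · field_simp
        ring
      · field_simp
        linear_combination (-l.1 1 0) * hd
      · field_simp
        ring
      · field_simp
        ring

/-- all elements: upper triangular times integral -/
theorem sl2_iwa (l : SLp p 2) : ∃ (a : ℚ_[p]ˣ) (s : ℚ_[p]) (k : SLp p 2), k ∈ S.Kp p 2 ∧
    l = ux s * dg2 a * k := by
  obtain ⟨b, hb, k, hk, rfl⟩ := S.iwasawa l
  have h10 : b.1 1 0 = 0 := S.mem_Bp.1 hb 1 0 (by decide)
  have hd := Gc1_det b
  rw [h10, mul_zero, sub_zero] at hd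
  have ha : b.1 0 0 ≠ 0 := left_ne_zero_of_mul_eq_one hd
  refine ⟨Units.mk0 _ ha, b.1 0 1 * b.1 0 0, k, hk, ?_⟩
  congr 1
  apply Subtype.ext
  show b.1 = !![1, b.1 0 1 * b.1 0 0; 0, 1] * !![((Units.mk0 _ ha : ℚ_[p]ˣ) : ℚ_[p]), 0; 0,
    (((Units.mk0 _ ha)⁻¹ : ℚ_[p]ˣ) : ℚ_[p])]
  rw [Matrix.mul_fin_two, Units.val_inv_eq_inv_val, Units.val_mk0]
  apply Gc1_ext
  · ring
  · field_simp
    ring
  · rw [h10]
    ring
  · rw [zero_mul, one_mul, zero_add]
    exact eq_inv_of_mul_eq_one_right hd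

end

end Pool.Agent.Lib.MP_f399a8_nt.G
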