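import Pool.Agent.Lib.MP_f399a8_ntG.Ga3
import Pool.Agent.Lib.MP_f399a8_ntG.Gc1

/-!
# The `SL_2`-triple of a root

`cd y x = diag (x ^ ⟨wt i, y⟩)`, `hd y = diag ⟨wt i, y⟩`, `nm α = exp e * exp (-f) * exp e`, `e = E α`, `f = E (-α)`.  `⟨x, α^∨⟩` etc.

PROOF.
* `hd_ef`: entries: `(hd y * E - E * hd y) i j = (⟨wt i, y⟩ - ⟨wt j, y⟩) E i j` and `wt i - wt j = α` if `E i j ≠ 0`.
* `nm_hd`: let `H = hd y`, `c = ⟨α, y⟩`, `h = hd (co α) = [e, f]` (`ef_neg`); `[e, H] = -c e`, `[f, H] = c f`, `[e, h] = - 2 e`, `[f, h] = 2 f`,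
  `[e, f] = h`.  By `conj_two` (matrices over `ℚ_[p]`, a `ℚ`-algebra): `exp e * H * exp (-e) = H - c e`.
  `exp (-f) * H * exp f = H - c f`; `exp (-f) * e * exp f = e + h - f` (`conj_three`: `[-f, e] = h`, `[-f, h] = -2 f`, `[-f, -2f] = 0`).  So
  `exp (-f) (H - c e) exp f = H - c f - c e - c h + c f = H - c e - c h`.  `exp e * h * exp (-e) = h - 2 e`.  So
  `exp e (H - c e - c h) exp (-e) = H - c e - c e - c h + 2 c e = H - c h = hd (s_α y)` (`ry_apply`).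
  Hence `nm α * H = hd (s_α y) * nm α` (`exp e * exp (-e) = 1`: `IsNilpotent.exp_mul_exp_neg_self`).
* `nm_supp`: entry `(i, j)` of `nm_hd`: `nm i j * ⟨wt j, y⟩ = ⟨wt i, s_α y⟩ * nm i j` for all `y`, and `⟨wt i, s_α y⟩ = ⟨s_α (wt i), y⟩`
  (`pa_rx'`), so `wt j = s_α (wt i)` (`pa_ext_x`), `rx_rx`.
* `nm_e`: as above: `exp e * e * exp (-e) = e`, `exp (-f) * e * exp f = e + h - f`,
  `exp e * (e + h - f) * exp (-e) = e + (h - 2 e) - (f + h - e) = - f` (`exp e * f * exp (-e) = f + h - e`: `conj_three`).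
  `nm_f`: `exp e * f * exp (-e) = f + h - e`; `exp (-f) (f + h - e) exp f = f + (h - 2 f) - (e + h - f) = - e`; `exp e * (-e) * exp (-e) = - e`.
* `wm_eq`: all three factors `M` have `M i j = 0` unless `wt i - wt j = k α` for some `k : ℤ`, and then for `xm α s`, `xm (-α) (-s⁻¹)`:
  `M_s i j = s ^ k * M_1 i j` (`xm_entry`, `xm_entry_zero`; for `xm (-α) (-s⁻¹)` with `wt i = wt j + m (-α)`:
  `(-s⁻¹)^m = s^(-m) (-1)^m`).  This property is stable under products (`k` is unique as `X` is torsion-free), so the left side is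
  `s ^ k * nm α i j` with `wt i - wt j = k α`.  If `nm α i j ≠ 0` then `wt i = s_α (wt j)` (`nm_supp`), so `k = ⟨wt i, α^∨⟩`
  (`wt j = s_α (wt i) = wt i - ⟨wt i, α^∨⟩ α`).
* `nm_inv`: `nm α * (exp (-e) * exp f * exp (-e)) = 1`, and `exp (-e) exp f exp (-e)` is the left side of `wm_eq` for `s = -1`.  So
  `nm α * (cd (co α) (-1) * nm α) = 1`.
* `nm_sq`: by `nm_cd` and `nm_inv`: `1 = nm * cd (-1) * nm = cd ((-1)⁻¹) * nm * nm` (`cd` is multiplicative and `s_α α^∨ = - α^∨`).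
* `cd_xm`: entries `(i, j)`, `wt i - wt j = k α`, `k : ℕ` are multiplied by `x ^ ⟨k α, y⟩ = (x ^ ⟨α, y⟩) ^ k`.
* `nm_cd`: entries: `nm i j * x ^ ⟨wt j, y⟩` and `wt j = s_α (wt i)`.
* `cd_det`: `∏ x ^ ⟨wt i, y⟩ = x ^ (∑ ⟨wt i, y⟩)`, `wp_sum`.
-/

namespace Pool.Agent.Lib.MP_f399a8_nt.G

open Matrix

noncomputable section

namespace Ctx

variable {ι X Y : Type*} [Finite ι] [AddCommGroup X] [AddCommGroup Y] {N : ℕ} (D : Ctx ι X Y N)
  (p : ℕ) [Fact p.Prime]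

/-- `diag (x ^ ⟨wt i, y⟩)` -/
def cd (y : Y) (x : ℚ_[p]ˣ) : Matrix (Fin N) (Fin N) ℚ_[p] :=
  Matrix.diagonal fun i => ((x ^ (D.wp i y) : ℚ_[p]ˣ) : ℚ_[p])

/-- `diag ⟨wt i, y⟩` -/
def hd (y : Y) : Matrix (Fin N) (Fin N) ℚ_[p] :=
  Matrix.diagonal fun i => ((D.wp i y : ℤ) : ℚ_[p])

/-- the Weyl element of `α`, as a matrix -/
def nm (α : ι) : Matrix (Fin N) (Fin N) ℚ_[p] :=
  D.xm p α 1 * D.xm p (D.ng α) (-1) * D.xm p α 1

theorem Gc2_zpow_sum {ι' : Type*} (s : Finset ι') (f : ι' → ℤ) (x : ℚ_[p]ˣ) :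
    ∏ i ∈ s, x ^ f i = x ^ ∑ i ∈ s, f i := by
  classical
  induction s using Finset.induction_on with
  | empty => simp
  | insert a s ha ih => rw [Finset.prod_insert ha, Finset.sum_insert ha, ih, _root_.zpow_add]

theorem cd_mul (y : Y) (x x' : ℚ_[p]ˣ) : D.cd p y (x * x') = D.cd p y x * D.cd p y x' := by
  unfold cd
  rw [Matrix.diagonal_mul_diagonal]
  congr 1
  funext i
  rw [mul_zpow, Units.val_mul]

theorem cd_add (y y' : Y) (x : ℚ_[p]ˣ) : D.cd p (y + y') x = D.cd p y x * D.cd p y' x := by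
  unfold cd
  rw [Matrix.diagonal_mul_diagonal]
  congr 1
  funext i
  rw [D.wp_def, D.pa_add_right, _root_.zpow_add, Units.val_mul]
  rfl

theorem cd_one (y : Y) : D.cd p y 1 = 1 := by
  unfold cd
  simp only [_root_.one_zpow, Units.val_one]
  exact Matrix.diagonal_one

theorem cd_det (y : Y) (x : ℚ_[p]ˣ) : (D.cd p y x).det = 1 := by
  unfold cd
  rw [Matrix.det_diagonal, ← Units.coe_prod, Gc2_zpow_sum, D.wp_sum, zpow_zero, Units.val_one]

theorem cd_xm (y : Y) (x : ℚ_[p]ˣ) (α : ι) (s : ℚ_[p]) :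
    D.cd p y x * D.xm p α s = D.xm p α (((x ^ (D.pr α y) : ℚ_[p]ˣ) : ℚ_[p]) * s) * D.cd p y x := by
  ext i j
  unfold cd
  rw [Matrix.diagonal_mul, Matrix.mul_diagonal]
  by_cases h : ∃ k : ℕ, D.wt i = D.wt j + (k : ℤ) • D.rt α
  · obtain ⟨k, hk⟩ := h
    rw [D.xm_entry p α s hk, D.xm_entry p α (((x ^ (D.pr α y) : ℚ_[p]ˣ) : ℚ_[p]) * s) hk]
    have h1 : D.wp i y = D.wp j y + k * D.pr α y := by
      rw [D.wp_def, hk, D.pa_add_left, D.pa_smul_left]
      rfl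
    have h2 : ((x ^ (D.wp i y) : ℚ_[p]ˣ) : ℚ_[p]) =
        ((x ^ (D.wp j y) : ℚ_[p]ˣ) : ℚ_[p]) * ((x ^ (D.pr α y) : ℚ_[p]ˣ) : ℚ_[p]) ^ k := by
      rw [h1, _root_.zpow_add, Units.val_mul, mul_comm (k : ℤ) (D.pr α y), _root_.zpow_mul, zpow_natCast,
        Units.val_pow_eq_pow_val]
    rw [h2, mul_pow]
    ring
  · have h' : ∀ k : ℕ, D.wt i ≠ D.wt j + (k : ℤ) • D.rt α := fun k hk => h ⟨k, hk⟩
    rw [D.xm_entry_zero p α s h',
      D.xm_entry_zero p α (((x ^ (D.pr α y) : ℚ_[p]ˣ) : ℚ_[p]) * s) h', mul_zero, zero_mul]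

theorem hd_ef (y : Y) (α : ι) :
    D.hd p y * D.Ef p α - D.Ef p α * D.hd p y = ((D.pr α y : ℤ) : ℚ_[p]) • D.Ef p α := by
  ext i j
  unfold hd
  rw [Matrix.sub_apply, Matrix.diagonal_mul, Matrix.mul_diagonal, Matrix.smul_apply, smul_eq_mul]
  by_cases h : D.Ef p α i j = 0
  · rw [h]
    ring
  · have h1 := D.ef_wt p h
    have h2 : D.wp i y = D.pr α y + D.wp j y := by
      rw [D.wp_def, h1, D.pa_add_left]
      rfl
    rw [h2, Int.cast_add]
    ring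

theorem Gc2_hd_sub (y y' : Y) (n : ℤ) :
    D.hd p (y - n • y') = D.hd p y - (n : ℚ_[p]) • D.hd p y' := by
  unfold hd
  rw [← Matrix.diagonal_smul, Matrix.diagonal_sub]
  congr 1
  funext i
  rw [D.wp_def, D.pa_sub_right, D.pa_smul_right, Int.cast_sub, Int.cast_mul]
  rfl

theorem Gc2_move {M : Type*} [Monoid M] {g g' v w : M} (h : g * v * g' = w) (h1 : g' * g = 1) :
    g * v = w * g := by
  rw [← h, mul_assoc, h1, mul_one]

/-- all the conjugation formulas -/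
theorem Gc2_all (α : ι) (y : Y) :
    (D.xm p α 1 * D.hd p y = (D.hd p y - ((D.pr α y : ℤ) : ℚ_[p]) • D.Ef p α) * D.xm p α 1) ∧
    (D.xm p α 1 * D.Ef p α = D.Ef p α * D.xm p α 1) ∧
    (D.xm p α 1 * D.Ef p (D.ng α) =
      (D.Ef p (D.ng α) + D.hd p (D.co α) - D.Ef p α) * D.xm p α 1) ∧
    (D.xm p (D.ng α) (-1) * D.hd p y =
      (D.hd p y - ((D.pr α y : ℤ) : ℚ_[p]) • D.Ef p (D.ng α)) * D.xm p (D.ng α) (-1)) ∧
    (D.xm p (D.ng α) (-1) * D.Ef p (D.ng α) = D.Ef p (D.ng α) * D.xm p (D.ng α) (-1)) ∧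
    (D.xm p (D.ng α) (-1) * D.Ef p α =
      (D.Ef p α + D.hd p (D.co α) - D.Ef p (D.ng α)) * D.xm p (D.ng α) (-1)) := by
  have he := D.ef_nil p α
  have hf := (D.ef_nil p (D.ng α)).neg
  have e1 : D.xm p α 1 = IsNilpotent.exp (D.Ef p α) := by
    unfold xm
    rw [one_smul]
  have e2 : D.xm p (D.ng α) (-1) = IsNilpotent.exp (-(D.Ef p (D.ng α))) := by
    unfold xm
    rw [neg_one_smul]
  have i1 : IsNilpotent.exp (-(D.Ef p α)) * IsNilpotent.exp (D.Ef p α) = 1 :=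
    IsNilpotent.exp_neg_mul_exp_self he
  have i2 : IsNilpotent.exp (-(-(D.Ef p (D.ng α)))) * IsNilpotent.exp (-(D.Ef p (D.ng α))) = 1 :=
    IsNilpotent.exp_neg_mul_exp_self hf
  have b1 := D.hd_ef p y α
  have b2 := D.hd_ef p y (D.ng α)
  rw [D.pr_ng, Int.cast_neg] at b2
  have b3 := D.hd_ef p (D.co α) α
  have b4 := D.hd_ef p (D.co α) (D.ng α)
  rw [D.pr_ng, D.pr_co_self] at b4
  rw [D.pr_co_self] at b3
  have b5 : D.Ef p α * D.Ef p (D.ng α) - D.Ef p (D.ng α) * D.Ef p α = D.hd p (D.co α) :=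
    D.ef_neg p α
  rw [e1, e2]
  generalize D.Ef p α = e at *
  generalize D.Ef p (D.ng α) = f at *
  generalize D.hd p y = H at *
  generalize D.hd p (D.co α) = h at *
  generalize ((D.pr α y : ℤ) : ℚ_[p]) = c at *
  have t2 : ((2 : ℤ) : ℚ_[p]) • e = (2 : ℚ) • e := by
    rw [Int.cast_ofNat, two_smul ℚ_[p], two_smul ℚ]
  have t3 : ((-2 : ℤ) : ℚ_[p]) • f = -((2 : ℚ) • f) := by
    rw [Int.cast_neg, neg_smul, Int.cast_ofNat, two_smul ℚ_[p], two_smul ℚ]
  rw [t2] at b3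
  rw [t3] at b4
  refine ⟨?_, ?_, ?_, ?_, ?_, ?_⟩
  · refine Gc2_move ?_ i1
    rw [conj_two he (w := -(c • e)) ?_ ?_]
    · rw [sub_eq_add_neg]
    · rw [← b1]
      abel
    · rw [mul_neg, neg_mul, mul_smul_comm, smul_mul_assoc, sub_self]
  · refine Gc2_move ?_ i1
    rw [conj_two he (w := 0) ?_ ?_]
    · rw [add_zero]
    · rw [sub_self]
    · rw [mul_zero, zero_mul, sub_zero]
  · refine Gc2_move ?_ i1
    rw [conj_three he (w := h) (u := -((2 : ℚ) • e)) b5 ?_ ?_]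
    · rw [smul_neg, smul_smul]
      norm_num
      rw [sub_eq_add_neg]
    · rw [← b3]
      abel
    · rw [mul_neg, neg_mul, mul_smul_comm, smul_mul_assoc, sub_self]
  · refine Gc2_move ?_ i2
    rw [conj_two hf (w := -(c • f)) ?_ ?_]
    · rw [sub_eq_add_neg]
    · rw [← neg_smul, ← b2, neg_mul, mul_neg]
      abel
    · rw [neg_mul_neg, neg_mul_neg, mul_smul_comm, smul_mul_assoc, sub_self]
  · refine Gc2_move ?_ i2
    rw [conj_two hf (w := 0) ?_ ?_]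
    · rw [add_zero]
    · rw [neg_mul, mul_neg, sub_self]
    · rw [mul_zero, zero_mul, sub_zero]
  · refine Gc2_move ?_ i2
    rw [conj_three hf (w := h) (u := -((2 : ℚ) • f)) ?_ ?_ ?_]
    · rw [smul_neg, smul_smul]
      norm_num
      rw [sub_eq_add_neg]
    · rw [← b5, neg_mul, mul_neg]
      abel
    · rw [← b4, neg_mul, mul_neg]
      abel
    · rw [neg_mul_neg, neg_mul_neg, mul_smul_comm, smul_mul_assoc, sub_self]

theorem nm_hd (α : ι) (y : Y) : D.nm p α * D.hd p y = D.hd p (D.ry α y) * D.nm p α := by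
  obtain ⟨a1, a2, -, a4, -, a6⟩ := D.Gc2_all p α y
  obtain ⟨c1, -, -, -, -, -⟩ := D.Gc2_all p α (D.co α)
  obtain ⟨-, -, -, c4, -, -⟩ := D.Gc2_all p α (D.co α)
  rw [D.ry_apply, Gc2_hd_sub]
  rw [D.pr_co_self] at c1
  unfold nm
  generalize D.xm p α 1 = E at *
  generalize D.xm p (D.ng α) (-1) = F at *
  generalize D.Ef p α = e at *
  generalize D.Ef p (D.ng α) = f at *
  generalize D.hd p y = H at *
  generalize D.hd p (D.co α) = h at *
  generalize ((D.pr α y : ℤ) : ℚ_[p]) = c at *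
  have t2 : ((2 : ℤ) : ℚ_[p]) • e = e + e := by
    rw [Int.cast_ofNat, two_smul]
  rw [t2] at c1
  have s1 : F * (H - c • e) = (H - c • e - c • h) * F := by
    rw [mul_sub, mul_smul_comm, a4, a6, ← smul_mul_assoc, ← sub_mul]
    congr 1
    rw [smul_sub, smul_add]
    abel
  have s2 : E * (H - c • e - c • h) = (H - c • h) * E := by
    rw [mul_sub, mul_sub, mul_smul_comm, mul_smul_comm, a1, a2, c1, ← smul_mul_assoc,
      ← smul_mul_assoc, ← sub_mul, ← sub_mul]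
    congr 1
    rw [smul_sub, smul_add]
    abel
  calc E * F * E * H = E * F * (E * H) := by rw [mul_assoc]
    _ = E * (F * (H - c • e)) * E := by rw [a1]; simp only [mul_assoc]
    _ = E * (H - c • e - c • h) * F * E := by rw [s1]; simp only [mul_assoc]
    _ = (H - c • h) * (E * F * E) := by rw [s2]; simp only [mul_assoc]

theorem nm_supp (α : ι) {i j : Fin N} (h : D.nm p α i j ≠ 0) : D.wt i = D.rx α (D.wt j) := by
  have h1 : D.wt j = D.rx α (D.wt i) := by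
    refine D.pa_ext_x fun y => ?_
    have h2 := congrFun (congrFun (D.nm_hd p α y) i) j
    unfold hd at h2
    rw [Matrix.mul_diagonal, Matrix.diagonal_mul, mul_comm] at h2
    have h3 := mul_right_cancel₀ h h2
    have h4 : D.wp j y = D.wp i (D.ry α y) := by exact_mod_cast h3
    rw [D.pa_rx']
    exact h4
  rw [h1, D.rx_rx]

theorem nm_e (α : ι) : D.nm p α * D.Ef p α = - (D.Ef p (D.ng α) * D.nm p α) := by
  obtain ⟨c1, a2, a3, c4, -, a6⟩ := D.Gc2_all p α (D.co α)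
  rw [D.pr_co_self] at c1 c4
  unfold nm
  generalize D.xm p α 1 = E at *
  generalize D.xm p (D.ng α) (-1) = F at *
  generalize D.Ef p α = e at *
  generalize D.Ef p (D.ng α) = f at *
  generalize D.hd p (D.co α) = h at *
  have t2 : ((2 : ℤ) : ℚ_[p]) • e = e + e := by
    rw [Int.cast_ofNat, two_smul]
  rw [t2] at c1
  have s2 : E * (e + h - f) = (-f) * E := by
    rw [mul_sub, mul_add, a2, c1, a3, ← add_mul, ← sub_mul]
    congr 1
    abel
  calc E * F * E * e = E * F * (E * e) := by rw [mul_assoc]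
    _ = E * (F * e) * E := by rw [a2]; simp only [mul_assoc]
    _ = E * (e + h - f) * F * E := by rw [a6]; simp only [mul_assoc]
    _ = -(f * (E * F * E)) := by rw [s2]; simp only [mul_assoc, neg_mul]

theorem nm_f (α : ι) : D.nm p α * D.Ef p (D.ng α) = - (D.Ef p α * D.nm p α) := by
  obtain ⟨c1, a2, a3, c4, a5, a6⟩ := D.Gc2_all p α (D.co α)
  rw [D.pr_co_self] at c1 c4
  unfold nm
  generalize D.xm p α 1 = E at *
  generalize D.xm p (D.ng α) (-1) = F at *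
  generalize D.Ef p α = e at *
  generalize D.Ef p (D.ng α) = f at *
  generalize D.hd p (D.co α) = h at *
  have t2 : ((2 : ℤ) : ℚ_[p]) • f = f + f := by
    rw [Int.cast_ofNat, two_smul]
  rw [t2] at c4
  have s1 : F * (f + h - e) = (-e) * F := by
    rw [mul_sub, mul_add, a5, c4, a6, ← add_mul, ← sub_mul]
    congr 1
    abel
  calc E * F * E * f = E * F * (E * f) := by rw [mul_assoc]
    _ = E * (F * (f + h - e)) * E := by rw [a3]; simp only [mul_assoc]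
    _ = E * (-e) * F * E := by rw [s1]; simp only [mul_assoc]
    _ = -(e * (E * F * E)) := by
      rw [mul_neg, a2]; simp only [mul_assoc, neg_mul]

/-- matrices `A`, `B` graded by multiples of `α`, the entries of degree `k` being related by `s ^ k` -/
def Gc2_G (α : ι) (s : ℚ_[p]ˣ) (A B : Matrix (Fin N) (Fin N) ℚ_[p]) : Prop :=
  ∀ i j, (∀ k : ℤ, D.wt i = D.wt j + k • D.rt α → A i j = ((s ^ k : ℚ_[p]ˣ) : ℚ_[p]) * B i j) ∧
    ((∀ k : ℤ, D.wt i ≠ D.wt j + k • D.rt α) → A i j = 0 ∧ B i j = 0)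

theorem Gc2_G_mul {α : ι} {s : ℚ_[p]ˣ} {A B A' B' : Matrix (Fin N) (Fin N) ℚ_[p]}
    (h : D.Gc2_G p α s A B) (h' : D.Gc2_G p α s A' B') : D.Gc2_G p α s (A * A') (B * B') := by
  intro i j
  constructor
  · intro k hk
    rw [Matrix.mul_apply, Matrix.mul_apply, Finset.mul_sum]
    refine Finset.sum_congr rfl fun l _ => ?_
    by_cases hl : ∃ m : ℤ, D.wt i = D.wt l + m • D.rt α
    · obtain ⟨m, hm⟩ := hl
      have h1 : D.wt l = D.wt j + (k - m) • D.rt α := by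
        have h2 : D.wt l + m • D.rt α = D.wt j + k • D.rt α := by rw [← hm, ← hk]
        rw [sub_smul, ← add_sub_assoc, ← h2, add_sub_cancel_right]
      rw [(h i l).1 m hm, (h' l j).1 (k - m) h1]
      have h3 : ((s ^ k : ℚ_[p]ˣ) : ℚ_[p]) =
          ((s ^ m : ℚ_[p]ˣ) : ℚ_[p]) * ((s ^ (k - m) : ℚ_[p]ˣ) : ℚ_[p]) := by
        rw [← Units.val_mul, ← _root_.zpow_add, add_sub_cancel]
      rw [h3]
      ring
    · have h1 := (h i l).2 fun m hm => hl ⟨m, hm⟩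
      rw [h1.1, h1.2]
      ring
  · intro hk
    have key : ∀ l, (A i l * A' l j = 0) ∧ (B i l * B' l j = 0) := by
      intro l
      by_cases hl : ∃ m : ℤ, D.wt i = D.wt l + m • D.rt α
      · obtain ⟨m, hm⟩ := hl
        have h1 := (h' l j).2 fun n hn => hk (n + m) (by
          rw [hm, hn, add_smul, add_assoc])
        rw [h1.1, h1.2, mul_zero, mul_zero]
        exact ⟨rfl, rfl⟩
      · have h1 := (h i l).2 fun m hm => hl ⟨m, hm⟩
        rw [h1.1, h1.2, zero_mul, zero_mul]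
        exact ⟨rfl, rfl⟩
    rw [Matrix.mul_apply, Matrix.mul_apply]
    exact ⟨Finset.sum_eq_zero fun l _ => (key l).1, Finset.sum_eq_zero fun l _ => (key l).2⟩

theorem Gc2_uniq {α : ι} {x x' : X} {k m : ℤ} (h : x = x' + k • D.rt α)
    (h' : x = x' + m • D.rt α) : k = m := by
  by_contra hne
  have h1 : (k - m) • D.rt α = 0 := by
    rw [sub_smul, sub_eq_zero]
    exact add_left_cancel (h.symm.trans h')
  exact D.rt_ne_zero α (D.tors_x (sub_ne_zero.2 hne) h1)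

theorem Gc2_G_e (α : ι) (s : ℚ_[p]ˣ) : D.Gc2_G p α s (D.xm p α s) (D.xm p α 1) := by
  intro i j
  constructor
  · intro k hk
    rcases le_or_gt 0 k with h | h
    · obtain ⟨n, rfl⟩ := Int.eq_ofNat_of_zero_le h
      rw [D.xm_entry p α s hk, zpow_natCast, Units.val_pow_eq_pow_val]
    · have h1 : ∀ n : ℕ, D.wt i ≠ D.wt j + (n : ℤ) • D.rt α := by
        intro n hn
        have := D.Gc2_uniq hk hn
        omega
      rw [D.xm_entry_zero p α s h1, D.xm_entry_zero p α 1 h1, mul_zero]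
  · intro hk
    exact ⟨D.xm_entry_zero p α s fun n => hk n, D.xm_entry_zero p α 1 fun n => hk n⟩

theorem Gc2_G_f (α : ι) (s : ℚ_[p]ˣ) :
    D.Gc2_G p α s (D.xm p (D.ng α) (-((s⁻¹ : ℚ_[p]ˣ) : ℚ_[p]))) (D.xm p (D.ng α) (-1)) := by
  intro i j
  have hng : ∀ n : ℕ, D.wt i = D.wt j + (n : ℤ) • D.rt (D.ng α) ↔
      D.wt i = D.wt j + (-(n : ℤ)) • D.rt α := by
    intro n
    rw [D.rt_ng, smul_neg, neg_smul]
  constructor
  · intro k hk
    rcases le_or_gt k 0 with h | h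
    · obtain ⟨n, hn⟩ := Int.eq_ofNat_of_zero_le (neg_nonneg.2 h)
      have hk' : k = -(n : ℤ) := by
        have : -k = (n : ℤ) := hn
        omega
      rw [hk'] at hk
      have h1 := (hng n).2 hk
      rw [D.xm_entry p (D.ng α) _ h1, D.xm_entry p (D.ng α) (-1) h1, hk', _root_.zpow_neg,
        ← _root_.inv_zpow, zpow_natCast, Units.val_pow_eq_pow_val, ← mul_assoc, ← mul_pow, mul_neg_one]
    · have h1 : ∀ n : ℕ, D.wt i ≠ D.wt j + (n : ℤ) • D.rt (D.ng α) := by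
        intro n hn
        have := D.Gc2_uniq hk ((hng n).1 hn)
        omega
      rw [D.xm_entry_zero p (D.ng α) _ h1, D.xm_entry_zero p (D.ng α) _ h1, mul_zero]
  · intro hk
    have h1 : ∀ n : ℕ, D.wt i ≠ D.wt j + (n : ℤ) • D.rt (D.ng α) := fun n hn =>
      hk _ ((hng n).1 hn)
    exact ⟨D.xm_entry_zero p (D.ng α) _ h1, D.xm_entry_zero p (D.ng α) _ h1⟩

theorem wm_eq (α : ι) (s : ℚ_[p]ˣ) :
    D.xm p α s * D.xm p (D.ng α) (-((s⁻¹ : ℚ_[p]ˣ) : ℚ_[p])) * D.xm p α s =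
      D.cd p (D.co α) s * D.nm p α := by
  have h := D.Gc2_G_mul p (D.Gc2_G_mul p (D.Gc2_G_e p α s) (D.Gc2_G_f p α s)) (D.Gc2_G_e p α s)
  change D.Gc2_G p α s _ (D.nm p α) at h
  ext i j
  unfold cd
  rw [Matrix.diagonal_mul]
  by_cases h0 : D.nm p α i j = 0
  · rw [h0, mul_zero]
    by_cases hk : ∃ k : ℤ, D.wt i = D.wt j + k • D.rt α
    · obtain ⟨k, hk⟩ := hk
      rw [(h i j).1 k hk, h0, mul_zero]
    · exact ((h i j).2 fun k hk' => hk ⟨k, hk'⟩).1
  · have h1 := D.nm_supp p α h0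
    have h2 : D.wt i = D.wt j + D.wp i (D.co α) • D.rt α := by
      have h3 : D.wt j = D.rx α (D.wt i) := by rw [h1, D.rx_rx]
      rw [D.rx_apply] at h3
      rw [h3, D.wp_def, sub_add_cancel]
    exact (h i j).1 _ h2

theorem nm_cd (α : ι) (y : Y) (x : ℚ_[p]ˣ) :
    D.nm p α * D.cd p y x = D.cd p (D.ry α y) x * D.nm p α := by
  ext i j
  unfold cd
  rw [Matrix.diagonal_mul, Matrix.mul_diagonal]
  by_cases h0 : D.nm p α i j = 0
  · rw [h0, mul_zero, zero_mul]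
  · have h1 := D.nm_supp p α h0
    have h2 : D.wp i (D.ry α y) = D.wp j y := by
      rw [D.wp_def, h1, D.pa_rx, ← D.wp_def]
    rw [h2, mul_comm]

theorem Gc2_xm_inv (α : ι) (s : ℚ_[p]) : D.xm p α s * D.xm p α (-s) = 1 := by
  rw [← D.xm_add, add_neg_cancel, D.xm_zero]

theorem Gc2_inv (α : ι) : D.nm p α * (D.cd p (D.co α) (-1) * D.nm p α) = 1 := by
  have h := D.wm_eq p α (-1)
  rw [← h, inv_neg_one, Units.val_neg, Units.val_one, neg_neg]
  unfold nm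
  have h1 := D.Gc2_xm_inv p α 1
  have h2 := D.Gc2_xm_inv p (D.ng α) (-1)
  rw [neg_neg] at h2
  calc D.xm p α 1 * D.xm p (D.ng α) (-1) * D.xm p α 1 *
        (D.xm p α (-1) * D.xm p (D.ng α) 1 * D.xm p α (-1))
      = D.xm p α 1 * (D.xm p (D.ng α) (-1) * (D.xm p α 1 * D.xm p α (-1)) * D.xm p (D.ng α) 1) *
        D.xm p α (-1) := by simp only [mul_assoc]
    _ = 1 := by rw [h1, mul_one, h2, mul_one, h1]

theorem nm_sq (α : ι) : D.nm p α * D.nm p α = D.cd p (D.co α) (-1) := by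
  have h := D.Gc2_inv p α
  have h1 : D.ry α (D.co α) = -D.co α := by
    rw [D.ry_apply, D.pr_co_self, two_smul]
    abel
  rw [← mul_assoc, D.nm_cd, h1, mul_assoc] at h
  have h2 : D.cd p (D.co α) (-1) * D.cd p (-D.co α) (-1) = 1 := by
    rw [← D.cd_add, add_neg_cancel]
    unfold cd
    have h3 : (fun i : Fin N => (((-1 : ℚ_[p]ˣ) ^ (D.wp i 0) : ℚ_[p]ˣ) : ℚ_[p])) = fun _ => 1 := by
      funext i
      rw [D.wp_def, D.pa_zero_right, zpow_zero, Units.val_one]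
    rw [h3, Matrix.diagonal_one]
  calc D.nm p α * D.nm p α = D.cd p (D.co α) (-1) * D.cd p (-D.co α) (-1) *
        (D.nm p α * D.nm p α) := by rw [h2, one_mul]
    _ = D.cd p (D.co α) (-1) * (D.cd p (-D.co α) (-1) * (D.nm p α * D.nm p α)) := by
        rw [mul_assoc]
    _ = D.cd p (D.co α) (-1) := by rw [h, mul_one]

end Ctx

end

end Pool.Agent.Lib.MP_f399a8_nt.G
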