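import Pool.Agent.Lib.MP_f399a8_ntG.Gc2

/-!
# The homomorphisms `io α : SL_2 → G`, the cocharacters `cc y`

PROOF.
* `cc_ex`: for `y = co α`: `wm_eq` for `s = x` and for `s = 1` (`cd 1 = 1`, left side `nm α`), so
  `cd (co α) x = (xm α x * xm (-α) (-x⁻¹) * xm α x) * (nm α)⁻¹` is the matrix of
  `xr α x * xr (ng α) (-x⁻¹) * xr α x * (xr α 1 * xr (ng α) (-1) * xr α 1)⁻¹`.  For general `y`:
  `AddSubgroup.closure_induction` for `D.cospan` with `cd_add` (`0`: `1`; `-y`: the inverse, `cd_add` and `cd 0 = 1`).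
* `io_ex`: apply `sl2_hom` to `x = xr α`, `h = cc (co α)`, `n = xr α 1 * xr (ng α) (-1) * xr α 1` (matrix `nm α`).  `hx`: `xr_add`; `hh`: `cd_mul`;
  `h1`: `cd_xm` with `⟨α, α^∨⟩ = 2`; `h2`: `nm_cd` with `s_α α^∨ = - α^∨` (`ry_apply`) and `cd (-y) x = cd y x⁻¹`; `h3`: `nm_sq`.
  Next `n * xr α (-s) * n⁻¹ = xr (ng α) s`: `exp_conj'` and `nm_e` (`n * (-s • e) * n⁻¹ = s • f`).  `h4`: by `wm_eq` for `-s⁻¹`:
  `cd (co α) (-s⁻¹) * nm = xm α (-s⁻¹) * xm (-α) s * xm α (-s⁻¹)`.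
* `gt_ext` compares matrices.
* `io_*` from `io_ex` (`Classical.choose_spec`); `io_lo`: `n * xr α (-s) * n⁻¹ = xr (ng α) s`.
* `cc_torus`: `τ x' = x ^ ⟨x', y⟩`.
-/

namespace Pool.Agent.Lib.MP_f399a8_nt.G

open Matrix

noncomputable section

namespace Ctx

variable {ι X Y : Type*} [Finite ι] [AddCommGroup X] [AddCommGroup Y] {N : ℕ} (D : Ctx ι X Y N)
  (p : ℕ) [Fact p.Prime]

theorem Gc3_co (α : ι) (x : ℚ_[p]ˣ) : ∃ g : D.Gt p, g.1.1 = D.cd p (D.co α) x := by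
  obtain ⟨n, hn⟩ : ∃ n : D.Gt p, n.1.1 = D.nm p α :=
    ⟨D.xr p α 1 * D.xr p (D.ng α) (-1) * D.xr p α 1, rfl⟩
  refine ⟨(D.xr p α x * D.xr p (D.ng α) (-((x⁻¹ : ℚ_[p]ˣ) : ℚ_[p])) * D.xr p α x) * n⁻¹, ?_⟩
  show (D.xm p α x * D.xm p (D.ng α) (-((x⁻¹ : ℚ_[p]ˣ) : ℚ_[p])) * D.xm p α x) * (n⁻¹).1.1 = _
  rw [D.wm_eq, ← hn, mul_assoc, (D.val_inv p n).2, mul_one]

theorem Gc3_zero (x : ℚ_[p]ˣ) : D.cd p 0 x = 1 := by
  unfold cd
  simp only [D.wp_def, D.pa_zero_right, zpow_zero, Units.val_one]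
  exact Matrix.diagonal_one

theorem cc_ex (y : Y) (x : ℚ_[p]ˣ) : ∃ g : D.Gt p, g.1.1 = D.cd p y x := by
  have hy : y ∈ AddSubgroup.closure (Set.range D.P.coroot) := by
    rw [D.cospan]
    exact AddSubgroup.mem_top y
  induction hy using AddSubgroup.closure_induction with
  | mem y hy =>
    obtain ⟨α, rfl⟩ := hy
    exact D.Gc3_co p α x
  | zero => exact ⟨1, (D.Gc3_zero p x).symm⟩
  | add y y' _ _ h h' =>
    obtain ⟨g, hg⟩ := h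
    obtain ⟨g', hg'⟩ := h'
    exact ⟨g * g', by rw [D.val_mul p, hg, hg', D.cd_add]⟩
  | neg y _ h =>
    obtain ⟨g, hg⟩ := h
    refine ⟨g⁻¹, ?_⟩
    have h1 : D.cd p y x * D.cd p (-y) x = 1 := by
      rw [← D.cd_add, add_neg_cancel, D.Gc3_zero]
    calc (g⁻¹).1.1 = (g⁻¹).1.1 * (D.cd p y x * D.cd p (-y) x) := by rw [h1, mul_one]
      _ = D.cd p (-y) x := by rw [← mul_assoc, ← hg, (D.val_inv p g).1, one_mul]

/-- the value at `x` of the cocharacter `y`, an element of the torus -/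
def cc (y : Y) (x : ℚ_[p]ˣ) : D.Gt p := Classical.choose (D.cc_ex p y x)

theorem cc_val (y : Y) (x : ℚ_[p]ˣ) : (D.cc p y x).1.1 = D.cd p y x :=
  Classical.choose_spec (D.cc_ex p y x)

theorem cc_mul (y : Y) (x x' : ℚ_[p]ˣ) : D.cc p y (x * x') = D.cc p y x * D.cc p y x' := by
  apply D.gt_ext p
  rw [D.val_mul p, cc_val, cc_val, cc_val, D.cd_mul]

theorem cc_add (y y' : Y) (x : ℚ_[p]ˣ) : D.cc p (y + y') x = D.cc p y x * D.cc p y' x := by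
  apply D.gt_ext p
  rw [D.val_mul p, cc_val, cc_val, cc_val, D.cd_add]

theorem cc_one (y : Y) : D.cc p y 1 = 1 := by
  apply D.gt_ext p
  rw [cc_val, D.cd_one, D.val_one p]

theorem cc_zero (x : ℚ_[p]ˣ) : D.cc p 0 x = 1 := by
  apply D.gt_ext p
  rw [cc_val, D.Gc3_zero, D.val_one p]

theorem cc_inv (y : Y) (x : ℚ_[p]ˣ) : D.cc p y x⁻¹ = (D.cc p y x)⁻¹ := by
  apply eq_inv_of_mul_eq_one_left
  rw [← cc_mul, inv_mul_cancel, cc_one]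

theorem cc_neg (y : Y) (x : ℚ_[p]ˣ) : D.cc p (-y) x = (D.cc p y x)⁻¹ := by
  apply eq_inv_of_mul_eq_one_left
  rw [← cc_add, neg_add_cancel, cc_zero]

theorem Gc3_nsmul (n : ℕ) (y : Y) (x : ℚ_[p]ˣ) : D.cc p (n • y) x = D.cc p y x ^ n := by
  induction n with
  | zero => rw [zero_smul, cc_zero, pow_zero]
  | succ n ih => rw [add_smul, one_smul, cc_add, ih, pow_succ]

theorem cc_smul (n : ℤ) (y : Y) (x : ℚ_[p]ˣ) : D.cc p (n • y) x = D.cc p y x ^ n := by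
  obtain ⟨k, rfl | rfl⟩ := n.eq_nat_or_neg
  · rw [natCast_zsmul, zpow_natCast, Gc3_nsmul]
  · rw [_root_.neg_smul, natCast_zsmul, cc_neg, Gc3_nsmul, _root_.zpow_neg, zpow_natCast]

theorem cc_comm (y y' : Y) (x x' : ℚ_[p]ˣ) :
    D.cc p y x * D.cc p y' x' = D.cc p y' x' * D.cc p y x := by
  apply D.gt_ext p
  rw [D.val_mul p, D.val_mul p, cc_val, cc_val]
  unfold cd
  rw [Matrix.diagonal_mul_diagonal, Matrix.diagonal_mul_diagonal]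
  congr 1
  funext i
  exact mul_comm _ _

theorem cc_torus (y : Y) (x : ℚ_[p]ˣ) : D.cc p y x ∈ D.Tg p := by
  refine ⟨fun x' => x ^ (D.pa x' y), fun a b => ?_, ?_⟩
  · show x ^ (D.pa (a + b) y) = x ^ (D.pa a y) * x ^ (D.pa b y)
    rw [D.pa_add_left, _root_.zpow_add]
  · rw [cc_val]
    rfl

theorem cc_xr (y : Y) (x : ℚ_[p]ˣ) (α : ι) (s : ℚ_[p]) :
    D.cc p y x * D.xr p α s * (D.cc p y x)⁻¹ =
      D.xr p α (((x ^ (D.pr α y) : ℚ_[p]ˣ) : ℚ_[p]) * s) := by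
  rw [mul_inv_eq_iff_eq_mul]
  apply D.gt_ext p
  rw [D.val_mul p, D.val_mul p, cc_val, D.xr_val, D.xr_val, D.cd_xm]

theorem io_ex (α : ι) : ∃ φ : SLp p 2 →* D.Gt p, (∀ s, φ (ux s) = D.xr p α s) ∧
    (∀ s, φ (S.lo2 s) = D.xr p (D.ng α) s) ∧ (∀ a, φ (dg2 a) = D.cc p (D.co α) a) ∧
    (φ (S.w2 p)).1.1 = D.nm p α := by
  obtain ⟨n, hn⟩ : ∃ n : D.Gt p, n.1.1 = D.nm p α :=
    ⟨D.xr p α 1 * D.xr p (D.ng α) (-1) * D.xr p α 1, rfl⟩
  have hconj : ∀ s : ℚ_[p], n * D.xr p α (-s) * n⁻¹ = D.xr p (D.ng α) s := by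
    intro s
    apply D.gt_ext p
    show n.1.1 * IsNilpotent.exp ((-s) • D.Ef p α) * (n⁻¹).1.1 =
      IsNilpotent.exp (s • D.Ef p (D.ng α))
    rw [exp_conj' (D.ef_nil_smul p α (-s)) (D.val_inv p n).1 (D.val_inv p n).2]
    congr 1
    rw [mul_smul_comm, smul_mul_assoc, hn, D.nm_e, ← hn, neg_mul, mul_assoc, (D.val_inv p n).2,
      mul_one, _root_.smul_neg, _root_.neg_smul, neg_neg]
  have hcd : ∀ (y : Y) (a : ℚ_[p]ˣ), n * D.cc p y a = D.cc p (D.ry α y) a * n := by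
    intro y a
    apply D.gt_ext p
    rw [D.val_mul p, D.val_mul p, cc_val, cc_val, hn, D.nm_cd]
  have hry : D.ry α (D.co α) = - D.co α := by
    rw [D.ry_apply, D.pr_co_self, two_smul]
    abel
  have h4 : ∀ s : ℚ_[p]ˣ, n * D.xr p α (-(s : ℚ_[p])) * n⁻¹ =
      D.xr p α ((s⁻¹ : ℚ_[p]ˣ) : ℚ_[p]) * D.cc p (D.co α) (-s⁻¹) * n *
        D.xr p α ((s⁻¹ : ℚ_[p]ˣ) : ℚ_[p]) := by
    intro s
    rw [hconj]
    have h5 : D.xr p α (-((s⁻¹ : ℚ_[p]ˣ) : ℚ_[p])) * D.xr p (D.ng α) s *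
        D.xr p α (-((s⁻¹ : ℚ_[p]ˣ) : ℚ_[p])) = D.cc p (D.co α) (-s⁻¹) * n := by
      apply D.gt_ext p
      have h6 := D.wm_eq p α (-s⁻¹)
      have h7 : -(((-s⁻¹ : ℚ_[p]ˣ)⁻¹ : ℚ_[p]ˣ) : ℚ_[p]) = (s : ℚ_[p]) := by
        rw [inv_neg, inv_inv, Units.val_neg, neg_neg]
      rw [h7, Units.val_neg] at h6
      rw [D.val_mul p, D.val_mul p, D.val_mul p, cc_val, hn, D.xr_val, D.xr_val]
      exact h6
    rw [D.xr_neg] at h5
    rw [mul_assoc (D.xr p α _) (D.cc p _ _) n, ← h5]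
    group
  obtain ⟨φ, h1, h2, h3, h5⟩ := sl2_hom (fun s => D.xr p α s) (fun a => D.cc p (D.co α) a) n
    (fun s t => D.xr_add p α s t) (fun a b => D.cc_mul p (D.co α) a b)
    (fun a s => by
      have h := D.cc_xr p (D.co α) a α s
      rw [D.pr_co_self] at h
      show D.cc p (D.co α) a * D.xr p α s * (D.cc p (D.co α) a)⁻¹ = _
      rw [h]
      congr 1)
    (fun a => by
      show n * D.cc p (D.co α) a * n⁻¹ = D.cc p (D.co α) a⁻¹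
      rw [hcd, hry, D.cc_neg, D.cc_inv, mul_inv_cancel_right])
    (by
      show n * n = D.cc p (D.co α) (-1)
      apply D.gt_ext p
      rw [D.val_mul p, cc_val, hn, D.nm_sq])
    h4
  exact ⟨φ, h1, fun s => (h2 s).trans (hconj s), h3, by rw [h5, hn]⟩

/-- the homomorphism from `SL_2` for the root `α` -/
def io (α : ι) : SLp p 2 →* D.Gt p := Classical.choose (D.io_ex p α)

theorem io_ux (α : ι) (s : ℚ_[p]) : D.io p α (ux s) = D.xr p α s :=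
  (Classical.choose_spec (D.io_ex p α)).1 s

theorem io_lo (α : ι) (s : ℚ_[p]) : D.io p α (S.lo2 s) = D.xr p (D.ng α) s :=
  (Classical.choose_spec (D.io_ex p α)).2.1 s

theorem io_dg (α : ι) (a : ℚ_[p]ˣ) : D.io p α (dg2 a) = D.cc p (D.co α) a :=
  (Classical.choose_spec (D.io_ex p α)).2.2.1 a

theorem io_w (α : ι) : (D.io p α (S.w2 p)).1.1 = D.nm p α :=
  (Classical.choose_spec (D.io_ex p α)).2.2.2

end Ctx

end

end Pool.Agent.Lib.MP_f399a8_nt.G
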