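import Pool.Agent.Lib.MP_f399a8_ntG.Gc3
import Pool.Agent.Lib.MP_f399a8_ntG.Gb2

/-!
# Integrality of `io`, conjugation by `io`

PROOF.
* `cc_K`: if `‖x‖ = 1` all entries `x ^ m` have norm `1`.  Conversely (for `co α`): some `⟨wt i, α^∨⟩ ≠ 0` (`⟨α, α^∨⟩ = 2` and `wt_ext`), the sum
  over `i` is `0` (`wp_sum`), so there are `i, j` with `⟨wt i, α^∨⟩ > 0`, `⟨wt j, α^∨⟩ < 0`; `‖x‖ ^ m ≤ 1` for a positive and a negative `m`
  gives `‖x‖ = 1`.
* `io_K`: (⇐) `sl2_int`: the images of `lo2 s`, `ux t`, `dg2 a` are integral (`io_lo`, `io_ux`, `io_dg`, `xr_K`, `cc_K`), and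
  `io α w2` is, since `w2 = ux 1 * lo2 (-1) * ux 1`.  (⇒) `sl2_iwa`: `l = ux s * dg2 a * k`, so `xr α s * cc (co α) a ∈ K`.  The diagonal
  entries of `xr α s` are `1` (`xm_diag`), so the diagonal entries `a ^ ⟨wt i, α^∨⟩` of the product have norm `≤ 1`, so `‖a‖ = 1`
  (as in `cc_K`), `cc (co α) a ∈ K`, `xr α s ∈ K`, `‖s‖ ≤ 1`, and `l ∈ Kp 2`.
* `io_cont`: `io α` is continuous: on the open set `{l 1 1 ≠ 0}` (which contains `1`; a homomorphism of topological groups which is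
  continuous at `1` is continuous): `l = up2 (l 1 1) (l 0 1) * lo2 (l 1 0 / l 1 1)` (`S.sl2_case1`), `up2_eq`; the entries of `cc (co α) a` are
  `a ^ m`, continuous in `a ≠ 0`, `xr_cont`.
* `io_norm`: `Abs γ S`, `Abs (-γ) S`, `γ, -γ ∉ S`: by `sl2_ind` and `ug_norm` (for `δ = γ` and `δ = -γ`; for `l⁻¹` use the statement for
  `l⁻¹`).
* `io_norm_lo`: only for lower (resp. upper) unipotent elements: `ug_norm`, `ug_norm'`.
* `io_cc`: `pr γ y = 0`: `cc y x` commutes with `xr (±γ) s` (`cc_xr`), so with `io γ l` (`sl2_ind`).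
-/

namespace Pool.Agent.Lib.MP_f399a8_nt.G

open Matrix

noncomputable section

namespace Ctx

variable {ι X Y : Type*} [Finite ι] [AddCommGroup X] [AddCommGroup Y] {N : ℕ} (D : Ctx ι X Y N)
  (p : ℕ) [Fact p.Prime]

theorem cc_K {y : Y} {x : ℚ_[p]ˣ} (h : ‖(x : ℚ_[p])‖ = 1) : D.cc p y x ∈ D.Kg p := by
  rw [mem_Kg]
  intro i j
  rw [cc_val]
  unfold cd
  by_cases hij : i = j
  · subst hij
    rw [Matrix.diagonal_apply_eq, Units.val_zpow_eq_zpow_val, norm_zpow, h, _root_.one_zpow]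
  · rw [Matrix.diagonal_apply_ne _ hij, norm_zero]
    exact zero_le_one

theorem co_signs (α : ι) : (∃ i, 0 < D.wp i (D.co α)) ∧ ∃ i, D.wp i (D.co α) < 0 := by
  have hne : ∃ i, D.wp i (D.co α) ≠ 0 := by
    by_contra hcon
    push Not at hcon
    have h1 : (AddMonoidHom.mk' (fun x => D.pa x (D.co α))
        (fun a b => D.pa_add_left a b (D.co α)) : X →+ ℤ) = 0 := by
      apply D.wt_ext
      intro i
      exact hcon i
    have h2 : D.pa (D.rt α) (D.co α) = 0 := by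
      have h3 := congrArg (fun f : X →+ ℤ => f (D.rt α)) h1
      exact h3
    rw [← D.pr_def, D.pr_co_self] at h2
    norm_num at h2
  obtain ⟨i, hi⟩ := hne
  have hsum := D.wp_sum (D.co α)
  constructor
  · by_contra hcon
    push Not at hcon
    have h1 := (Finset.sum_eq_zero_iff_of_nonpos (s := Finset.univ)
      (f := fun i => D.wp i (D.co α)) (fun i _ => hcon i)).1 hsum
    exact hi (h1 i (Finset.mem_univ i))
  · by_contra hcon
    push Not at hcon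
    have h1 := (Finset.sum_eq_zero_iff_of_nonneg (s := Finset.univ)
      (f := fun i => D.wp i (D.co α)) (fun i _ => hcon i)).1 hsum
    exact hi (h1 i (Finset.mem_univ i))

theorem Gc4_io_w (α : ι) : D.io p α (S.w2 p) = D.xr p α 1 * D.xr p (D.ng α) (-1) * D.xr p α 1 := by
  apply D.gt_ext p
  rw [io_w, val_mul, val_mul, xr_val, xr_val]
  rfl

theorem Gc4_io_w_K (α : ι) : D.io p α (S.w2 p) ∈ D.Kg p := by
  rw [Gc4_io_w]
  exact (D.Kg p).mul_mem ((D.Kg p).mul_mem ((D.xr_K p).2 (by simp)) ((D.xr_K p).2 (by simp)))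
    ((D.xr_K p).2 (by simp))

theorem Gc4_io_K (α : ι) {l : SLp p 2} (hl : l ∈ S.Kp p 2) : D.io p α l ∈ D.Kg p := by
  rcases sl2_int hl with ⟨a, s, t, ha, hs, ht, rfl⟩ | ⟨a, s, t, ha, hs, ht, rfl⟩
  · rw [map_mul, map_mul, io_lo, io_dg, io_ux]
    exact (D.Kg p).mul_mem ((D.Kg p).mul_mem ((D.xr_K p).2 hs) (D.cc_K p ha)) ((D.xr_K p).2 ht)
  · rw [map_mul, map_mul, map_mul, io_dg, io_ux, io_ux]
    exact (D.Kg p).mul_mem ((D.Kg p).mul_mem ((D.Kg p).mul_mem ((D.xr_K p).2 hs) (D.cc_K p ha))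
      (D.Gc4_io_w_K p α)) ((D.xr_K p).2 ht)

theorem Gc4_norm_one (α : ι) {a : ℚ_[p]ˣ} (h : ∀ i, ‖(a : ℚ_[p])‖ ^ (D.wp i (D.co α)) ≤ 1) :
    ‖(a : ℚ_[p])‖ = 1 := by
  obtain ⟨⟨i, hi⟩, ⟨j, hj⟩⟩ := D.co_signs α
  have hpos : 0 < ‖(a : ℚ_[p])‖ := norm_pos_iff.2 a.ne_zero
  apply le_antisymm
  · by_contra hcon
    rw [not_le] at hcon
    exact absurd (h i) (not_le.2 (one_lt_zpow₀ hcon hi))
  · by_contra hcon
    rw [not_le] at hcon
    have h1 : 1 < ‖(a : ℚ_[p])‖⁻¹ := (one_lt_inv₀ hpos).2 hcon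
    have h2 : 1 < ‖(a : ℚ_[p])‖⁻¹ ^ (-(D.wp j (D.co α))) := one_lt_zpow₀ h1 (by omega)
    rw [_root_.inv_zpow, _root_.zpow_neg, inv_inv] at h2
    exact absurd (h j) (not_le.2 h2)

theorem Gc4_entry (α : ι) (s : ℚ_[p]) (a : ℚ_[p]ˣ) (i : Fin N) :
    (D.xr p α s * D.cc p (D.co α) a).1.1 i i = (a : ℚ_[p]) ^ (D.wp i (D.co α)) := by
  rw [val_mul, xr_val, cc_val]
  unfold cd
  rw [Matrix.mul_diagonal, D.xm_diag p α s rfl, Matrix.one_apply_eq, one_mul,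
    Units.val_zpow_eq_zpow_val]

theorem io_K {α : ι} {l : SLp p 2} : D.io p α l ∈ D.Kg p ↔ l ∈ S.Kp p 2 := by
  refine ⟨fun h => ?_, fun h => D.Gc4_io_K p α h⟩
  obtain ⟨a, s, k, hk, rfl⟩ := sl2_iwa l
  rw [map_mul, map_mul, io_ux, io_dg] at h
  have h1 : D.xr p α s * D.cc p (D.co α) a ∈ D.Kg p := by
    have h2 := (D.Kg p).mul_mem h ((D.Kg p).inv_mem (D.Gc4_io_K p α hk))
    rwa [mul_inv_cancel_right] at h2
  have ha : ‖(a : ℚ_[p])‖ = 1 := by
    apply D.Gc4_norm_one p α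
    intro i
    have h3 := (D.mem_Kg p).1 h1 i i
    rwa [Gc4_entry, norm_zpow] at h3
  have h4 : D.xr p α s ∈ D.Kg p := by
    have h2 := (D.Kg p).mul_mem h1 ((D.Kg p).inv_mem (D.cc_K p (y := D.co α) ha))
    rwa [mul_inv_cancel_right] at h2
  have hs : ‖s‖ ≤ 1 := (D.xr_K p).1 h4
  refine (S.Kp p 2).mul_mem ((S.Kp p 2).mul_mem ?_ ?_) hk
  · intro i j
    show ‖(!![1, s; 0, 1] : Matrix (Fin 2) (Fin 2) ℚ_[p]) i j‖ ≤ 1
    fin_cases i <;> fin_cases j <;> simp [hs]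
  · intro i j
    show ‖(!![(a : ℚ_[p]), 0; 0, ((a⁻¹ : ℚ_[p]ˣ) : ℚ_[p])] : Matrix (Fin 2) (Fin 2) ℚ_[p]) i j‖ ≤ 1
    fin_cases i <;> fin_cases j <;> simp [ha]

theorem io_w_K (α : ι) : D.io p α (S.w2 p) ∈ D.Kg p := by
  exact D.Gc4_io_w_K p α

theorem io_cont (α : ι) : Continuous (D.io p α) := by
  refine continuous_of_continuousAt_one (D.io p α) ?_
  have hi : Topology.IsInducing (fun g : D.Gt p => g.1.1) :=
    (Topology.IsInducing.subtypeVal : Topology.IsInducing fun x : SLp p N => x.1).comp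
      Topology.IsInducing.subtypeVal
  have hxm : ∀ β : ι, Continuous fun s => D.xm p β s := fun β => hi.continuous.comp (D.xr_cont p β)
  rw [hi.continuousAt_iff]
  have hc : ∀ i j : Fin 2, ContinuousAt (fun l : SLp p 2 => l.1 i j) 1 := fun i j =>
    (S.continuous_entry i j).continuousAt
  have h11 : (1 : SLp p 2).1 1 1 ≠ 0 := by
    rw [Matrix.SpecialLinearGroup.coe_one, Matrix.one_apply_eq]
    exact one_ne_zero
  have hev : ∀ᶠ l : SLp p 2 in nhds 1, l.1 1 1 ≠ 0 := (hc 1 1).eventually_ne h11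
  have hF : ContinuousAt (fun l : SLp p 2 =>
      Matrix.diagonal (fun i => (l.1 1 1)⁻¹ ^ (D.wp i (D.co α))) * D.xm p α (l.1 1 1 * l.1 0 1) *
        D.xm p (D.ng α) (l.1 1 0 / l.1 1 1)) 1 := by
    have hd : ContinuousAt (fun l : SLp p 2 =>
        Matrix.diagonal (fun i => (l.1 1 1)⁻¹ ^ (D.wp i (D.co α)))) 1 := by
      have h1 : ContinuousAt (fun (l : SLp p 2) (i : Fin N) =>
          (l.1 1 1)⁻¹ ^ (D.wp i (D.co α))) 1 := by
        refine continuousAt_pi.2 fun i => ?_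
        exact ((hc 1 1).inv₀ h11).zpow₀ _ (Or.inl (inv_ne_zero h11))
      have h2 : Continuous fun f : Fin N → ℚ_[p] => Matrix.diagonal f :=
        continuous_id.matrix_diagonal
      exact h2.continuousAt.comp h1
    refine (hd.mul ?_).mul ?_
    · exact (hxm α).continuousAt.comp ((hc 1 1).mul (hc 0 1))
    · exact (hxm (D.ng α)).continuousAt.comp ((hc 1 0).div (hc 1 1) h11)
  refine hF.congr ?_
  filter_upwards [hev] with l hl
  have h3 : D.io p α l = D.cc p (D.co α) (Units.mk0 (l.1 1 1) hl)⁻¹ *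
      D.xr p α (l.1 1 1 * l.1 0 1) * D.xr p (D.ng α) (l.1 1 0 / l.1 1 1) := by
    conv_lhs => rw [S.sl2_case1 l hl]
    rw [up2_eq, map_mul, map_mul, io_dg, io_ux, io_lo]
  show _ = (D.io p α l).1.1
  rw [h3, val_mul, val_mul, xr_val, xr_val, cc_val]
  congr 2
  unfold cd
  congr 1
  funext i
  rw [Units.val_zpow_eq_zpow_val, Units.val_inv_eq_inv_val, Units.val_mk0]

variable {p}

theorem io_norm {S' : Set ι} (hS : D.Cl S') {y : Y} (hy : ∀ α ∈ S', 0 < D.pr α y) {γ : ι}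
    (h : D.Abs γ S') (h' : D.Abs (D.ng γ) S') (h1 : γ ∉ S') (h1' : D.ng γ ∉ S') (l : SLp p 2)
    {x : D.Gt p} (hx : x ∈ D.Ug p S') :
    D.io p γ l * x * (D.io p γ l)⁻¹ ∈ D.Ug p S' ∧ (D.io p γ l)⁻¹ * x * D.io p γ l ∈ D.Ug p S' := by
  have key : ∀ l : SLp p 2, ∀ x : D.Gt p, x ∈ D.Ug p S' →
      D.io p γ l * x * (D.io p γ l)⁻¹ ∈ D.Ug p S' := by
    intro l
    refine sl2_ind (q := fun l => ∀ x : D.Gt p, x ∈ D.Ug p S' →
      D.io p γ l * x * (D.io p γ l)⁻¹ ∈ D.Ug p S') ?_ ?_ ?_ l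
    · intro x hx
      rw [map_one, one_mul, inv_one, mul_one]
      exact hx
    · intro s g hg x hx
      have h2 := D.ug_norm hS hy h h1' s (hg x hx)
      rw [map_mul, io_ux]
      have h3 : D.xr p γ s * D.io p γ g * x * (D.xr p γ s * D.io p γ g)⁻¹ =
          D.xr p γ s * (D.io p γ g * x * (D.io p γ g)⁻¹) * (D.xr p γ s)⁻¹ := by group
      rw [h3]
      exact h2
    · intro s g hg x hx
      have h2 := D.ug_norm hS hy h' (by rw [D.ng_ng]; exact h1) s (hg x hx)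
      rw [map_mul, io_lo]
      have h3 : D.xr p (D.ng γ) s * D.io p γ g * x * (D.xr p (D.ng γ) s * D.io p γ g)⁻¹ =
          D.xr p (D.ng γ) s * (D.io p γ g * x * (D.io p γ g)⁻¹) * (D.xr p (D.ng γ) s)⁻¹ := by group
      rw [h3]
      exact h2
  refine ⟨key l x hx, ?_⟩
  have h2 := key l⁻¹ x hx
  rwa [map_inv, inv_inv] at h2

theorem io_cc {γ : ι} {y : Y} (h : D.pr γ y = 0) (x : ℚ_[p]ˣ) (l : SLp p 2) :
    D.cc p y x * D.io p γ l = D.io p γ l * D.cc p y x := by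
  have hcomm : ∀ (β : ι) (s : ℚ_[p]), D.pr β y = 0 →
      D.cc p y x * D.xr p β s = D.xr p β s * D.cc p y x := by
    intro β s hβ
    have h1 := D.cc_xr p y x β s
    rw [hβ, zpow_zero, Units.val_one, one_mul] at h1
    exact mul_inv_eq_iff_eq_mul.1 h1
  refine sl2_ind (q := fun l => D.cc p y x * D.io p γ l = D.io p γ l * D.cc p y x) ?_ ?_ ?_ l
  · rw [map_one, one_mul, mul_one]
  · intro s g hg
    rw [map_mul, io_ux, ← mul_assoc, hcomm γ s h, mul_assoc, hg, mul_assoc]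
  · intro s g hg
    rw [map_mul, io_lo, ← mul_assoc, hcomm (D.ng γ) s (by rw [D.pr_ng, h, neg_zero]), mul_assoc, hg,
      mul_assoc]

end Ctx

end

end Pool.Agent.Lib.MP_f399a8_nt.G
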