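import Pool.Agent.Lib.MP_f399a8_ntG.Gc3
import Pool.Agent.Lib.MP_f399a8_ntG.Gb3

/-!
# The torus

PROOF.
* `tg_xr`: the entry `(i, j)` of `t * xr α s * t⁻¹` is `τ (wt i) * (xm α s) i j * τ (wt j)⁻¹`; if `(xm α s) i j ≠ 0` then `wt i = wt j + k α`
  (`xm_entry_zero`), `xm_entry`: it is `(τ α) ^ k s ^ k (exp E) i j = (xm α (τ α * s)) i j`.  So `c = τ (rt α)`.
  If `t ∈ K`, `‖τ (wt i)‖ = 1` for all `i` (`t` and `t⁻¹` are integral), so `‖τ x‖ = 1` for all `x` (`wt_ind`).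
* `tg_ug`: `ug_conj_of`; for the second part use `t⁻¹`.
* `tg_gen`: `Y` is finitely generated (`D.cospan`, `ι` finite) and torsion-free (`tors_y`), so it has a finite basis `b_k`
  (`Module.Free`, `Module.Finite` over `ℤ`), and there are `x_k : X` with `y = ∑ ⟨x_k, y⟩ b_k` (`dual_x` applied to the coordinate
  functions).  For `x : X`: `⟨x, y⟩ = ∑_k ⟨x_k, y⟩ ⟨x, b_k⟩`, so `x = ∑_k ⟨x, b_k⟩ x_k` (`pa_ext_x`), `τ x = ∏_k (τ x_k) ^ ⟨x, b_k⟩`, so
  `t = ∏_k cc b_k (τ x_k)` (compare matrices).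
* `tg_val`: `x ↦ - padicValuation`-type function `v (τ x)`, `‖τ x‖ = p ^ (-v)` (`Padic.norm_eq_zpow_neg_valuation`), is additive, so it is
  `⟨x, y⟩` for some `y` (`dual_y`).
* `tg_split`: `t = cc y (pu p) * t0`, `pu p` is the unit `p` of `ℚ_[p]` (it is defined in the files `MP_f399a8_nt`; here `pp p`).
* `tg_K`: see `tg_xr`.
* `tg_closed_sl`: let `t_q → g` in `SLp p N`, `t_q` given by `τ_q`.  `g` is diagonal with determinant `1`, so its diagonal entries are not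
  zero.  For every `x : X` the sequence `τ_q x` converges in `ℚ_[p]` to a nonzero limit: true for `x = wt i`, stable under sums and
  negatives (`wt_ind`).  The limits define `τ` with `τ (a + b) = τ a * τ b` and `g = diagonal (τ (wt i))`.  The element of `Gt` with this
  matrix: by the argument of `tg_gen`, `diagonal (τ (wt i)) = ∏_k cd b_k (τ x_k)` is the matrix of an element of the group.  (State this as
  a lemma `Gd1_mk`: for every `τ` there is `t ∈ Tg` with this matrix.)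
-/

namespace Pool.Agent.Lib.MP_f399a8_nt.G

open Matrix Filter Topology

noncomputable section

/-- the unit `p` -/
def pp (p : ℕ) [Fact p.Prime] : ℚ_[p]ˣ :=
  Units.mk0 (p : ℚ_[p]) (by exact_mod_cast (Fact.out : p.Prime).ne_zero)

namespace Ctx

variable {ι X Y : Type*} [Finite ι] [AddCommGroup X] [AddCommGroup Y] {N : ℕ} (D : Ctx ι X Y N)
  {p : ℕ} [Fact p.Prime]

theorem mem_Tg {t : D.Gt p} : t ∈ D.Tg p ↔ ∃ τ : X → ℚ_[p]ˣ, (∀ a b, τ (a + b) = τ a * τ b) ∧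
    t.1.1 = Matrix.diagonal fun i => (τ (D.wt i) : ℚ_[p]) := Iff.rfl

private theorem Gd1_zero {τ : X → ℚ_[p]ˣ} (hτ : ∀ a b, τ (a + b) = τ a * τ b) : τ 0 = 1 := by
  have h := hτ 0 0
  rw [add_zero] at h
  exact (mul_eq_left.1 h.symm)

private theorem Gd1_neg {τ : X → ℚ_[p]ˣ} (hτ : ∀ a b, τ (a + b) = τ a * τ b) (a : X) :
    τ (-a) = (τ a)⁻¹ := by
  have h := hτ (-a) a
  rw [neg_add_cancel, Gd1_zero hτ] at h
  exact eq_inv_of_mul_eq_one_left h.symm

private theorem Gd1_zsmul {τ : X → ℚ_[p]ˣ} (hτ : ∀ a b, τ (a + b) = τ a * τ b) (n : ℤ) (a : X) :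
    τ (n • a) = τ a ^ n := by
  let f : Multiplicative X →* ℚ_[p]ˣ := MonoidHom.mk' (fun x : Multiplicative X => τ x.toAdd)
    (fun a b => hτ a.toAdd b.toAdd)
  exact map_zpow f (Multiplicative.ofAdd a) n

private theorem Gd1_sum {τ : X → ℚ_[p]ˣ} (hτ : ∀ a b, τ (a + b) = τ a * τ b) {J : Type*}
    (s : Finset J) (f : J → X) : τ (∑ k ∈ s, f k) = ∏ k ∈ s, τ (f k) := by
  classical
  induction s using Finset.induction_on with
  | empty => rw [Finset.sum_empty, Finset.prod_empty, Gd1_zero hτ]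
  | insert a s ha ih => rw [Finset.sum_insert ha, Finset.prod_insert ha, hτ, ih]

/-- dual bases of the lattices -/
private theorem Gd1_basis : ∃ (n : ℕ) (b : Fin n → Y) (x : Fin n → X),
    ∀ z : X, z = ∑ k, D.pa z (b k) • x k := by
  have hfin : Module.Finite ℤ Y := by
    refine Module.Finite.iff_addGroup_fg.2 ?_
    refine ⟨(Set.finite_range D.P.coroot).toFinset, ?_⟩
    rw [Set.Finite.coe_toFinset]
    exact D.cospan
  have htf : Module.IsTorsionFree ℤ Y := by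
    refine Module.isTorsionFree_iff_smul_eq_zero.2 fun n y h => ?_
    by_contra hcon
    push Not at hcon
    exact hcon.2 (D.tors_y hcon.1 h)
  let b := Module.finBasis ℤ Y
  have hx : ∀ k, ∃ x : X, ∀ y, (b.coord k).toAddMonoidHom y = D.pa x y := fun k =>
    D.dual_x (b.coord k).toAddMonoidHom
  choose x hx using hx
  refine ⟨_, b, x, fun z => ?_⟩
  apply D.pa_ext_x
  intro y
  have h1 : D.pa z y = ∑ k, b.repr y k * D.pa z (b k) := by
    conv_lhs => rw [← b.sum_repr y]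
    show D.P.toLinearMap z _ = _
    rw [map_sum]
    refine Finset.sum_congr rfl fun k _ => ?_
    rw [map_smul, smul_eq_mul]
    rfl
  have h2 : D.pa (∑ k, D.pa z (b k) • x k) y = ∑ k, D.pa z (b k) * b.repr y k := by
    show D.P.toLinearMap _ y = _
    rw [map_sum, LinearMap.sum_apply]
    refine Finset.sum_congr rfl fun k _ => ?_
    rw [map_smul, LinearMap.smul_apply, smul_eq_mul]
    congr 1
    exact (hx k y).symm
  rw [h1, h2]
  exact Finset.sum_congr rfl fun k _ => mul_comm _ _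

private theorem Gd1_mk (τ : X → ℚ_[p]ˣ) (hτ : ∀ a b, τ (a + b) = τ a * τ b) :
    ∃ t ∈ Subgroup.closure {g : D.Gt p | ∃ y x, g = D.cc p y x},
      t.1.1 = Matrix.diagonal fun i => (τ (D.wt i) : ℚ_[p]) := by
  classical
  obtain ⟨n, b, x, hb⟩ := D.Gd1_basis
  have key : ∀ s : Finset (Fin n), ∃ t ∈ Subgroup.closure {g : D.Gt p | ∃ y x, g = D.cc p y x},
      t.1.1 = Matrix.diagonal fun i =>
        ((∏ k ∈ s, (τ (x k)) ^ (D.wp i (b k)) : ℚ_[p]ˣ) : ℚ_[p]) := by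
    intro s
    induction s using Finset.induction_on with
    | empty =>
      refine ⟨1, one_mem _, ?_⟩
      rw [D.val_one]
      simp only [Finset.prod_empty, Units.val_one]
      exact Matrix.diagonal_one.symm
    | insert a s ha ih =>
      obtain ⟨t, ht, h1⟩ := ih
      refine ⟨D.cc p (b a) (τ (x a)) * t, mul_mem (Subgroup.subset_closure ⟨_, _, rfl⟩) ht, ?_⟩
      rw [D.val_mul, D.cc_val, h1]
      unfold cd
      rw [Matrix.diagonal_mul_diagonal]
      congr 1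
      funext i
      rw [Finset.prod_insert ha, Units.val_mul]
  obtain ⟨t, ht, h1⟩ := key Finset.univ
  refine ⟨t, ht, ?_⟩
  rw [h1]
  congr 1
  funext i
  congr 1
  conv_rhs => rw [hb (D.wt i)]
  rw [Gd1_sum hτ]
  refine Finset.prod_congr rfl fun k _ => ?_
  rw [Gd1_zsmul hτ]
  rfl

theorem tg_mk (τ : X → ℚ_[p]ˣ) (hτ : ∀ a b, τ (a + b) = τ a * τ b) :
    ∃ t ∈ D.Tg p, t.1.1 = Matrix.diagonal fun i => (τ (D.wt i) : ℚ_[p]) := by
  obtain ⟨t, -, h⟩ := D.Gd1_mk τ hτ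
  exact ⟨t, ⟨τ, hτ, h⟩, h⟩

theorem tg_off {t : D.Gt p} (ht : t ∈ D.Tg p) {i j : Fin N} (h : i ≠ j) : t.1.1 i j = 0 := by
  obtain ⟨τ, -, h1⟩ := D.mem_Tg.1 ht
  rw [h1, Matrix.diagonal_apply_ne _ h]

theorem tg_ne {t : D.Gt p} (ht : t ∈ D.Tg p) (i : Fin N) : t.1.1 i i ≠ 0 := by
  obtain ⟨τ, -, h1⟩ := D.mem_Tg.1 ht
  rw [h1, Matrix.diagonal_apply_eq]
  exact Units.ne_zero _

theorem tg_bg {t : D.Gt p} (ht : t ∈ D.Tg p) : t ∈ D.Bg p :=
  (D.mem_Bg p).2 fun _ _ hij => D.tg_off ht (ne_of_gt hij)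

theorem tg_comm {t t' : D.Gt p} (ht : t ∈ D.Tg p) (ht' : t' ∈ D.Tg p) : t * t' = t' * t := by
  obtain ⟨τ, -, h1⟩ := D.mem_Tg.1 ht
  obtain ⟨τ', -, h2⟩ := D.mem_Tg.1 ht'
  apply D.gt_ext p
  rw [D.val_mul, D.val_mul, h1, h2, Matrix.diagonal_mul_diagonal, Matrix.diagonal_mul_diagonal]
  congr 1
  funext i
  exact mul_comm _ _

theorem tg_ext {t t' : D.Gt p} (ht : t ∈ D.Tg p) (ht' : t' ∈ D.Tg p)
    (h : ∀ i, t.1.1 i i = t'.1.1 i i) : t = t' := by
  apply D.gt_ext p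
  refine Matrix.ext fun i j => ?_
  by_cases hij : i = j
  · subst hij
    exact h i
  · rw [D.tg_off ht hij, D.tg_off ht' hij]

private theorem Gd1_diag_inv {t : D.Gt p} (ht : t ∈ D.Tg p) (i : Fin N) :
    (t⁻¹).1.1 i i = (t.1.1 i i)⁻¹ := by
  have h1 := congrFun (congrFun (D.val_inv p t).1 i) i
  rw [Matrix.mul_apply, Finset.sum_eq_single i, Matrix.one_apply_eq] at h1
  · exact eq_inv_of_mul_eq_one_left h1
  · intro k _ hk
    rw [D.tg_off ht hk, mul_zero]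
  · intro h
    exact absurd (Finset.mem_univ i) h

theorem tg_K {t : D.Gt p} (ht : t ∈ D.Tg p) : t ∈ D.Kg p ↔ ∀ i, ‖t.1.1 i i‖ = 1 := by
  constructor
  · intro hK i
    have h1 : ‖t.1.1 i i‖ ≤ 1 := (D.mem_Kg p).1 hK i i
    have h2 : ‖(t⁻¹).1.1 i i‖ ≤ 1 := (D.mem_Kg p).1 (inv_mem hK) i i
    rw [D.Gd1_diag_inv ht, norm_inv] at h2
    have h3 : 0 < ‖t.1.1 i i‖ := norm_pos_iff.2 (D.tg_ne ht i)
    exact le_antisymm h1 ((inv_le_one₀ h3).1 h2)
  · intro h
    refine (D.mem_Kg p).2 fun i j => ?_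
    by_cases hij : i = j
    · subst hij
      exact (h i).le
    · rw [D.tg_off ht hij, norm_zero]
      exact zero_le_one

theorem tg_xr {t : D.Gt p} (ht : t ∈ D.Tg p) (α : ι) : ∃ c : ℚ_[p], c ≠ 0 ∧
    (∀ s, t * D.xr p α s * t⁻¹ = D.xr p α (c * s)) ∧ (t ∈ D.Kg p → ‖c‖ = 1) := by
  have ht0 := ht
  obtain ⟨τ, hτ, h1⟩ := D.mem_Tg.1 ht
  refine ⟨(τ (D.rt α) : ℚ_[p]), Units.ne_zero _, fun s => ?_, fun hK => ?_⟩
  · rw [mul_inv_eq_iff_eq_mul]
    apply D.gt_ext p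
    rw [D.val_mul, D.val_mul, D.xr_val, D.xr_val, h1]
    refine Matrix.ext fun i j => ?_
    rw [Matrix.diagonal_mul, Matrix.mul_diagonal]
    by_cases hk : ∃ k : ℕ, D.wt i = D.wt j + (k : ℤ) • D.rt α
    · obtain ⟨k, hk⟩ := hk
      rw [D.xm_entry p α s hk, D.xm_entry p α (_ * s) hk, hk, hτ, Gd1_zsmul hτ, _root_.zpow_natCast,
        Units.val_mul, Units.val_pow_eq_pow_val, mul_pow]
      ring
    · push Not at hk
      rw [D.xm_entry_zero p α s hk, D.xm_entry_zero p α _ hk, mul_zero, zero_mul]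
  · have h2 := (D.tg_K ht0).1 hK
    have h3 : ∀ x : X, ‖(τ x : ℚ_[p])‖ = 1 := by
      intro x
      induction x using D.wt_ind with
      | h0 => rw [Gd1_zero hτ, Units.val_one, norm_one]
      | h1 i =>
        have h4 := h2 i
        rw [h1, Matrix.diagonal_apply_eq] at h4
        exact h4
      | h2 x x' hx hx' => rw [hτ, Units.val_mul, norm_mul, hx, hx', one_mul]
      | h3 x hx => rw [Gd1_neg hτ, Units.val_inv_eq_inv_val, norm_inv, hx, inv_one]
    exact h3 _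

theorem tg_ug {t : D.Gt p} (ht : t ∈ D.Tg p) {S' : Set ι} {x : D.Gt p} (hx : x ∈ D.Ug p S') :
    t * x * t⁻¹ ∈ D.Ug p S' ∧ t⁻¹ * x * t ∈ D.Ug p S' := by
  have key : ∀ t : D.Gt p, t ∈ D.Tg p → t * x * t⁻¹ ∈ D.Ug p S' := by
    intro t ht
    refine D.ug_conj_of (fun α hα s => ?_) hx
    obtain ⟨c, -, hc, -⟩ := D.tg_xr ht α
    rw [hc]
    exact D.xr_mem hα _
  refine ⟨key t ht, ?_⟩
  have h := key t⁻¹ (inv_mem ht)
  rwa [inv_inv] at h

theorem tg_gen {t : D.Gt p} (ht : t ∈ D.Tg p) :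
    t ∈ Subgroup.closure {g : D.Gt p | ∃ y x, g = D.cc p y x} := by
  obtain ⟨τ, hτ, h1⟩ := D.mem_Tg.1 ht
  obtain ⟨t', ht', h2⟩ := D.Gd1_mk τ hτ
  have h3 : t = t' := D.gt_ext p (h1.trans h2.symm)
  rw [h3]
  exact ht'

theorem tg_val {t : D.Gt p} (ht : t ∈ D.Tg p) :
    ∃ y : Y, ∀ i, ‖t.1.1 i i‖ = (p : ℝ) ^ (-(D.wp i y)) := by
  obtain ⟨τ, hτ, h1⟩ := D.mem_Tg.1 ht
  obtain ⟨y, hy⟩ := D.dual_y (AddMonoidHom.mk' (fun x : X => Padic.valuation (τ x : ℚ_[p]))
    (fun a b => by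
      rw [hτ, Units.val_mul, Padic.valuation_mul (Units.ne_zero _) (Units.ne_zero _)]))
  refine ⟨y, fun i => ?_⟩
  have h2 : Padic.valuation (τ (D.wt i) : ℚ_[p]) = D.pa (D.wt i) y := hy (D.wt i)
  rw [h1, Matrix.diagonal_apply_eq, Padic.norm_eq_zpow_neg_valuation (Units.ne_zero _), h2]
  rfl

theorem tg_split {t : D.Gt p} (ht : t ∈ D.Tg p) :
    ∃ (y : Y) (t0 : D.Gt p), t0 ∈ D.Tg p ∧ t0 ∈ D.Kg p ∧ t = D.cc p y (pp p) * t0 := by
  obtain ⟨y, hy⟩ := D.tg_val ht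
  have hc := D.cc_torus p y (pp p)
  have h0 : (D.cc p y (pp p))⁻¹ * t ∈ D.Tg p := mul_mem (inv_mem hc) ht
  refine ⟨y, (D.cc p y (pp p))⁻¹ * t, h0, (D.tg_K h0).2 fun i => ?_, (mul_inv_cancel_left _ _).symm⟩
  have hp0 : (p : ℝ) ≠ 0 := by exact_mod_cast (Fact.out : p.Prime).ne_zero
  have h1 : ((D.cc p y (pp p))⁻¹ * t).1.1 i i = (D.cc p y (pp p))⁻¹.1.1 i i * t.1.1 i i := by
    rw [D.val_mul, Matrix.mul_apply, Finset.sum_eq_single i]
    · intro k _ hk
      rw [D.tg_off ht hk, mul_zero]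
    · intro h
      exact absurd (Finset.mem_univ i) h
  have h2 : ‖(D.cc p y (pp p)).1.1 i i‖ = (p : ℝ) ^ (-(D.wp i y)) := by
    rw [D.cc_val]
    unfold cd
    rw [Matrix.diagonal_apply_eq, Units.val_zpow_eq_zpow_val, norm_zpow]
    have h3 : ‖((pp p : ℚ_[p]ˣ) : ℚ_[p])‖ = (p : ℝ)⁻¹ := Padic.norm_p
    rw [h3, _root_.inv_zpow, _root_.zpow_neg]
  rw [h1, D.Gd1_diag_inv hc, norm_mul, norm_inv, h2, hy i]
  exact inv_mul_cancel₀ (zpow_ne_zero _ hp0)

private theorem Gd1_prod {J : Type*} (s : Finset J) (u : J → ℚ_[p]ˣ) (n : J → ℤ) :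
    ∏ i ∈ s, ((u i : ℚ_[p]) ^ (n i).toNat) =
      ((∏ i ∈ s, u i ^ n i : ℚ_[p]ˣ) : ℚ_[p]) * ∏ i ∈ s, ((u i : ℚ_[p]) ^ (-(n i)).toNat) := by
  rw [Units.coe_prod, ← Finset.prod_mul_distrib]
  refine Finset.prod_congr rfl fun i _ => ?_
  have h1 : n i = ((n i).toNat : ℤ) - ((-(n i)).toNat : ℤ) := by omega
  have h2 : u i ^ (n i).toNat = u i ^ n i * u i ^ (-(n i)).toNat := by
    conv_rhs => rw [h1]
    rw [_root_.zpow_sub, _root_.zpow_natCast, _root_.zpow_natCast]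
    have h3 : (-(((n i).toNat : ℤ) - ((-(n i)).toNat : ℤ))).toNat = (-(n i)).toNat := by
      rw [← h1]
    rw [h3, inv_mul_cancel_right]
  have h4 := congrArg (fun v : ℚ_[p]ˣ => (v : ℚ_[p])) h2
  simpa only [Units.val_mul, Units.val_pow_eq_pow_val] using h4

private theorem Gd1_char (g : SLp p N) : (∃ t ∈ D.Tg p, t.1 = g) ↔
    ((∀ i j, i ≠ j → g.1 i j = 0) ∧ ∀ n : Fin N → ℤ, ∑ i, n i • D.wt i = 0 →
      ∏ i, g.1 i i ^ (n i).toNat = ∏ i, g.1 i i ^ (-(n i)).toNat) := by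
  classical
  constructor
  · rintro ⟨t, ht, rfl⟩
    refine ⟨fun i j hij => D.tg_off ht hij, fun n hn => ?_⟩
    obtain ⟨τ, hτ, h1⟩ := D.mem_Tg.1 ht
    have h2 : ∀ i, t.1.1 i i = (τ (D.wt i) : ℚ_[p]) := fun i => by
      rw [h1, Matrix.diagonal_apply_eq]
    have h3 : ∏ i, τ (D.wt i) ^ n i = 1 := by
      rw [← Gd1_zero hτ, ← hn, Gd1_sum hτ]
      exact Finset.prod_congr rfl fun i _ => (Gd1_zsmul hτ _ _).symm
    have h4 := Gd1_prod Finset.univ (fun i => τ (D.wt i)) n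
    rw [h3, Units.val_one, one_mul] at h4
    simpa only [h2] using h4
  · rintro ⟨hoff, hrel⟩
    have hdiag : g.1 = Matrix.diagonal fun i => g.1 i i := by
      refine Matrix.ext fun i j => ?_
      by_cases hij : i = j
      · subst hij
        rw [Matrix.diagonal_apply_eq]
      · rw [Matrix.diagonal_apply_ne _ hij, hoff i j hij]
    have hdet : ∏ i, g.1 i i = 1 := by
      have h1 := g.2
      rw [hdiag, Matrix.det_diagonal] at h1
      exact h1
    have hne : ∀ i, g.1 i i ≠ 0 := fun i h => by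
      have h2 : ∏ i, g.1 i i = 0 := Finset.prod_eq_zero (Finset.mem_univ i) h
      exact zero_ne_one (h2.symm.trans hdet)
    set u : Fin N → ℚ_[p]ˣ := fun i => Units.mk0 (g.1 i i) (hne i) with hu
    have hsur : ∀ x : X, ∃ n : Fin N → ℤ, ∑ i, n i • D.wt i = x := by
      intro x
      induction x using D.wt_ind with
      | h0 => exact ⟨0, by simp⟩
      | h1 i =>
        refine ⟨Pi.single i 1, ?_⟩
        rw [Finset.sum_eq_single i]
        · rw [Pi.single_eq_same, one_smul]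
        · intro k _ hk
          rw [Pi.single_eq_of_ne hk, zero_smul]
        · intro h
          exact absurd (Finset.mem_univ i) h
      | h2 x x' hx hx' =>
        obtain ⟨n, rfl⟩ := hx
        obtain ⟨n', rfl⟩ := hx'
        refine ⟨n + n', ?_⟩
        rw [← Finset.sum_add_distrib]
        exact Finset.sum_congr rfl fun i _ => add_smul _ _ _
      | h3 x hx =>
        obtain ⟨n, rfl⟩ := hx
        refine ⟨-n, ?_⟩
        rw [← Finset.sum_neg_distrib]
        exact Finset.sum_congr rfl fun i _ => neg_smul _ _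
    choose σ hσ using hsur
    have hψ : ∀ n : Fin N → ℤ, ∑ i, n i • D.wt i = 0 → ∏ i, u i ^ n i = 1 := by
      intro n hn
      have h1 := hrel n hn
      have h2 := Gd1_prod Finset.univ u n
      have h3 : ∀ i, (u i : ℚ_[p]) = g.1 i i := fun i => rfl
      simp only [h3] at h2
      rw [h1] at h2
      have h4 : ∏ i, g.1 i i ^ (-(n i)).toNat ≠ 0 :=
        Finset.prod_ne_zero_iff.2 fun i _ => pow_ne_zero _ (hne i)
      have h5 := mul_right_cancel₀ h4 ((one_mul _).trans h2)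
      exact Units.ext (h5.symm.trans Units.val_one.symm)
    have hτ : ∀ a b, ∏ i, u i ^ (σ (a + b) i) = (∏ i, u i ^ (σ a i)) * ∏ i, u i ^ (σ b i) := by
      intro a b
      have h1 := hψ (fun i => σ (a + b) i - σ a i - σ b i) (by
        have h2 : ∀ i, (σ (a + b) i - σ a i - σ b i) • D.wt i =
            σ (a + b) i • D.wt i - σ a i • D.wt i - σ b i • D.wt i := fun i => by
          rw [sub_smul, sub_smul]
        simp only [h2]
        rw [Finset.sum_sub_distrib, Finset.sum_sub_distrib, hσ, hσ, hσ]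
        abel)
      have h3 : ∀ i, u i ^ (σ (a + b) i - σ a i - σ b i) =
          u i ^ (σ (a + b) i) * (u i ^ (σ a i))⁻¹ * (u i ^ (σ b i))⁻¹ := fun i => by
        rw [_root_.zpow_sub, _root_.zpow_sub]
      simp only [h3] at h1
      rw [Finset.prod_mul_distrib, Finset.prod_mul_distrib, Finset.prod_inv_distrib,
        Finset.prod_inv_distrib] at h1
      rw [mul_inv_eq_one, mul_inv_eq_iff_eq_mul] at h1
      rw [h1, mul_comm]
    obtain ⟨t, ht, h1⟩ := D.tg_mk (fun x => ∏ i, u i ^ (σ x i)) hτ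
    refine ⟨t, ht, ?_⟩
    apply Subtype.ext
    rw [h1, hdiag]
    congr 1
    funext j
    have h2 := hψ (fun i => σ (D.wt j) i - (Pi.single j 1 : Fin N → ℤ) i) (by
      simp only [sub_smul]
      rw [Finset.sum_sub_distrib, hσ, Finset.sum_eq_single j]
      · rw [Pi.single_eq_same, one_smul, sub_self]
      · intro k _ hk
        rw [Pi.single_eq_of_ne hk, zero_smul]
      · intro h
        exact absurd (Finset.mem_univ j) h)
    simp only [_root_.zpow_sub] at h2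
    rw [Finset.prod_mul_distrib, Finset.prod_inv_distrib, mul_inv_eq_one] at h2
    have h3 : ∏ i, u i ^ ((Pi.single j 1 : Fin N → ℤ) i) = u j := by
      rw [Finset.prod_eq_single j]
      · rw [Pi.single_eq_same, _root_.zpow_one]
      · intro k _ hk
        rw [Pi.single_eq_of_ne hk, _root_.zpow_zero]
      · intro h
        exact absurd (Finset.mem_univ j) h
    rw [h3] at h2
    show ((∏ i, u i ^ (σ (D.wt j) i) : ℚ_[p]ˣ) : ℚ_[p]) = g.1 j j
    rw [h2]
    rfl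

theorem tg_closed_sl : IsClosed {g : SLp p N | ∃ t ∈ D.Tg p, t.1 = g} := by
  have h1 : {g : SLp p N | ∃ t ∈ D.Tg p, t.1 = g} =
      {g : SLp p N | ∀ i j, i ≠ j → g.1 i j = 0} ∩
      {g : SLp p N | ∀ n : Fin N → ℤ, ∑ i, n i • D.wt i = 0 →
        ∏ i, g.1 i i ^ (n i).toNat = ∏ i, g.1 i i ^ (-(n i)).toNat} := by
    ext g
    exact D.Gd1_char g
  have hc : ∀ i j, Continuous fun g : SLp p N => g.1 i j := fun i j =>
    (continuous_apply j).comp ((continuous_apply i).comp continuous_subtype_val)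
  rw [h1]
  refine IsClosed.inter ?_ ?_
  · have h2 : {g : SLp p N | ∀ i j, i ≠ j → g.1 i j = 0} =
        ⋂ (i : Fin N) (j : Fin N) (_ : i ≠ j), {g : SLp p N | g.1 i j = 0} := by
      ext g
      simp only [Set.mem_iInter]
      exact Iff.rfl
    rw [h2]
    exact isClosed_iInter fun i => isClosed_iInter fun j => isClosed_iInter fun _ =>
      isClosed_eq (hc i j) continuous_const
  · have h2 : {g : SLp p N | ∀ n : Fin N → ℤ, ∑ i, n i • D.wt i = 0 →
        ∏ i, g.1 i i ^ (n i).toNat = ∏ i, g.1 i i ^ (-(n i)).toNat} =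
        ⋂ (n : Fin N → ℤ) (_ : ∑ i, n i • D.wt i = 0), {g : SLp p N |
          ∏ i, g.1 i i ^ (n i).toNat = ∏ i, g.1 i i ^ (-(n i)).toNat} := by
      ext g
      simp only [Set.mem_iInter]
      exact Iff.rfl
    rw [h2]
    exact isClosed_iInter fun n => isClosed_iInter fun _ =>
      isClosed_eq (continuous_finsetProd _ fun i _ => (hc i i).pow _)
        (continuous_finsetProd _ fun i _ => (hc i i).pow _)

/-- `T ∩ U = 1` -/
theorem tg_ug_one {t : D.Gt p} (ht : t ∈ D.Tg p) {S' : Set ι} {y : Y}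
    (hy : ∀ α ∈ S', 0 < D.pr α y) (h : t ∈ D.Ug p S') : t = 1 := by
  refine D.tg_ext ht (one_mem _) fun i => ?_
  rw [D.ug_diag hy h i, D.val_one, Matrix.one_apply_eq]

end Ctx

end

end Pool.Agent.Lib.MP_f399a8_nt.G
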