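import Pool.Agent.Lib.MP_f399a8_ntG.Gc4

/-!
# Conjugation of root vectors by the Weyl elements

PROOF.
* `nS_one`: by span induction every `m ∈ nS S` is `∑_{δ ∈ S} c_δ E δ` (`Submodule.mem_span_image_iff…`/`Finsupp`, or: prove by span
  induction that for every `m ∈ nS S` and every `β ∈ S` there is `c` with `m i j = c * E β i j` for all `i, j` with `wt i = β + wt j`:
  for `m = E δ` take `c = 1` if `δ = β` and `c = 0` otherwise, as `E δ i j ≠ 0` implies `wt i = δ + wt j` and so `δ = β` (`rt_inj`);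
  sums and multiples are clear).  If `m` vanishes at the other positions (as `E β` does, `ef_wt`) then `m = c • E β`.
* `nm_iv`: the inverse of `nm γ` is `xm γ (-1) * xm (-γ) 1 * xm γ (-1)` (`xm_add`, `xm_zero`), it is `cd (co γ) (-1) * nm γ` (`wm_eq` with
  `s = -1`), so its support is also `wt i = s_γ (wt j)`.
* `nm_conj`: if `α = γ`: `nm_e`, `rf_self`, `c = -1`.  If `α = -γ`: `nm_f`, `rf_ng`, `ng_ng`, `c = -1`.  Otherwise let
  `S = {β | ∃ k : ℤ, rt β = rt α + k • rt γ}`: `Abs γ S`, `Abs (-γ) S`, `γ, -γ ∉ S` (`± γ = α + k γ` implies `α = ± γ` by `prop_eq`).  By `ad_nS`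
  three times (`δ = γ, -γ, γ`) `m = nm γ * E α * iv ∈ nS S`.  If `m i j ≠ 0` there are `k, l` with `nm i k ≠ 0`, `E α k l ≠ 0`, `iv l j ≠ 0`, so
  `wt i = s_γ (wt k)`, `wt k = α + wt l`, `wt l = s_γ (wt j)`: `wt i = s_γ α + wt j`.  `rf γ α ∈ S` by `rt_rf`.  So `m = c • E (rf γ α)` (`nS_one`).
  Norm of `c`: `nm γ` and `iv` have integral entries (`xr_K`, or `xm_entry*`).  A primitive entry of `E (rf γ α)` (`ef_prim`) gives `‖c‖ ≤ 1`;
  `E α = c • (iv * E (rf γ α) * nm)` at a primitive entry of `E α` gives `1 ≤ ‖c‖` (`S.mulmat_norm_le`).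
-/

namespace Pool.Agent.Lib.MP_f399a8_nt.G

open Matrix

noncomputable section

namespace Ctx

variable {ι X Y : Type*} [Finite ι] [AddCommGroup X] [AddCommGroup Y] {N : ℕ} (D : Ctx ι X Y N)
  (p : ℕ) [Fact p.Prime]

theorem nS_one {S' : Set ι} {β : ι} (hβ : β ∈ S') {m : Matrix (Fin N) (Fin N) ℚ_[p]}
    (hm : m ∈ D.nS p S') (h : ∀ i j, m i j ≠ 0 → D.wt i = D.rt β + D.wt j) :
    ∃ c : ℚ_[p], m = c • D.Ef p β := by
  have key : ∀ m ∈ D.nS p S', ∃ c : ℚ_[p], ∀ i j, D.wt i = D.rt β + D.wt j →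
      m i j = c * D.Ef p β i j := by
    intro m hm
    refine Submodule.span_induction ?_ ?_ ?_ ?_ hm
    · rintro _ ⟨δ, -, rfl⟩
      by_cases hδ : δ = β
      · refine ⟨1, fun i j _ => ?_⟩
        rw [hδ, one_mul]
      · refine ⟨0, fun i j hij => ?_⟩
        rw [zero_mul]
        by_contra hne
        have h1 := D.ef_wt p hne
        rw [hij] at h1
        exact hδ (D.rt_inj (add_right_cancel h1)).symm
    · exact ⟨0, fun i j _ => by rw [zero_mul, Matrix.zero_apply]⟩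
    · rintro x y - - ⟨c, hc⟩ ⟨d, hd⟩
      refine ⟨c + d, fun i j hij => ?_⟩
      rw [Matrix.add_apply, hc i j hij, hd i j hij, add_mul]
    · rintro a x - ⟨c, hc⟩
      refine ⟨a * c, fun i j hij => ?_⟩
      rw [Matrix.smul_apply, hc i j hij, smul_eq_mul, mul_assoc]
  obtain ⟨c, hc⟩ := key m hm
  refine ⟨c, ?_⟩
  ext i j
  rw [Matrix.smul_apply, smul_eq_mul]
  by_cases hij : D.wt i = D.rt β + D.wt j
  · exact hc i j hij
  · have h1 : m i j = 0 := by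
      by_contra hne
      exact hij (h i j hne)
    have h2 : D.Ef p β i j = 0 := by
      by_contra hne
      exact hij (D.ef_wt p hne)
    rw [h1, h2, mul_zero]

private theorem Ge1_xm (γ : ι) (s : ℚ_[p]) : D.xm p γ s * D.xm p γ (-s) = 1 := by
  rw [← D.xm_add, add_neg_cancel, D.xm_zero]

private theorem Ge1_xm' (γ : ι) (s : ℚ_[p]) : D.xm p γ (-s) * D.xm p γ s = 1 := by
  rw [← D.xm_add, neg_add_cancel, D.xm_zero]

theorem nm_iv (γ : ι) : D.nm p γ * (D.xm p γ (-1) * D.xm p (D.ng γ) 1 * D.xm p γ (-1)) = 1 ∧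
    (D.xm p γ (-1) * D.xm p (D.ng γ) 1 * D.xm p γ (-1)) * D.nm p γ = 1 ∧
    D.xm p γ (-1) * D.xm p (D.ng γ) 1 * D.xm p γ (-1) = D.cd p (D.co γ) (-1) * D.nm p γ := by
  have h1 := Ge1_xm D p γ 1
  have h2 := Ge1_xm' D p γ 1
  have h3 := Ge1_xm D p (D.ng γ) 1
  have h4 := Ge1_xm' D p (D.ng γ) 1
  refine ⟨?_, ?_, ?_⟩
  · unfold nm
    calc D.xm p γ 1 * D.xm p (D.ng γ) (-1) * D.xm p γ 1 *
          (D.xm p γ (-1) * D.xm p (D.ng γ) 1 * D.xm p γ (-1))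
        = D.xm p γ 1 * D.xm p (D.ng γ) (-1) * (D.xm p γ 1 * D.xm p γ (-1)) *
          D.xm p (D.ng γ) 1 * D.xm p γ (-1) := by simp only [mul_assoc]
      _ = D.xm p γ 1 * (D.xm p (D.ng γ) (-1) * D.xm p (D.ng γ) 1) * D.xm p γ (-1) := by
          rw [h1, mul_one]
          simp only [mul_assoc]
      _ = 1 := by rw [h4, mul_one, h1]
  · unfold nm
    calc D.xm p γ (-1) * D.xm p (D.ng γ) 1 * D.xm p γ (-1) *
          (D.xm p γ 1 * D.xm p (D.ng γ) (-1) * D.xm p γ 1)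
        = D.xm p γ (-1) * D.xm p (D.ng γ) 1 * (D.xm p γ (-1) * D.xm p γ 1) *
          D.xm p (D.ng γ) (-1) * D.xm p γ 1 := by simp only [mul_assoc]
      _ = D.xm p γ (-1) * (D.xm p (D.ng γ) 1 * D.xm p (D.ng γ) (-1)) * D.xm p γ 1 := by
          rw [h2, mul_one]
          simp only [mul_assoc]
      _ = 1 := by rw [h3, mul_one, h2]
  · have h5 := D.wm_eq p γ (-1)
    have e1 : (((-1 : ℚ_[p]ˣ)) : ℚ_[p]) = -1 := by
      rw [Units.val_neg, Units.val_one]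
    have e2 : -(((-1 : ℚ_[p]ˣ)⁻¹ : ℚ_[p]ˣ) : ℚ_[p]) = 1 := by
      rw [inv_neg_one, Units.val_neg, Units.val_one, neg_neg]
    rw [e2, e1] at h5
    exact h5

private theorem Ge1_nm_val (γ : ι) :
    (D.xr p γ 1 * D.xr p (D.ng γ) (-1) * D.xr p γ 1).1.1 = D.nm p γ := rfl

private theorem Ge1_iv_val (γ : ι) :
    (D.xr p γ (-1) * D.xr p (D.ng γ) 1 * D.xr p γ (-1)).1.1 =
      D.xm p γ (-1) * D.xm p (D.ng γ) 1 * D.xm p γ (-1) := rfl

private theorem Ge1_nm_int (γ : ι) (i j : Fin N) : ‖D.nm p γ i j‖ ≤ 1 := by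
  have h1 : D.xr p γ 1 ∈ D.Kg p := (D.xr_K p).mpr (by rw [norm_one])
  have h2 : D.xr p (D.ng γ) (-1) ∈ D.Kg p := (D.xr_K p).mpr (by rw [norm_neg, norm_one])
  have h3 := (D.Kg p).mul_mem ((D.Kg p).mul_mem h1 h2) h1
  exact (D.mem_Kg p).mp h3 i j

private theorem Ge1_iv_int (γ : ι) (i j : Fin N) :
    ‖(D.xm p γ (-1) * D.xm p (D.ng γ) 1 * D.xm p γ (-1)) i j‖ ≤ 1 := by
  have h1 : D.xr p γ (-1) ∈ D.Kg p := (D.xr_K p).mpr (by rw [norm_neg, norm_one])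
  have h2 : D.xr p (D.ng γ) 1 ∈ D.Kg p := (D.xr_K p).mpr (by rw [norm_one])
  have h3 := (D.Kg p).mul_mem ((D.Kg p).mul_mem h1 h2) h1
  exact (D.mem_Kg p).mp h3 i j

private theorem Ge1_three {A B E : Matrix (Fin N) (Fin N) ℚ_[p]} (hA : ∀ i j, ‖A i j‖ ≤ 1)
    (hE : ∀ i j, ‖E i j‖ ≤ 1) (hB : ∀ i j, ‖B i j‖ ≤ 1) (i j : Fin N) :
    ‖(A * E * B) i j‖ ≤ 1 := by
  have h1 : ∀ i j, ‖(A * E) i j‖ ≤ 1 := fun i j => by
    have := S.mulmat_norm_le A E zero_le_one zero_le_one hA hE i j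
    rwa [one_mul] at this
  have := S.mulmat_norm_le (A * E) B zero_le_one zero_le_one h1 hB i j
  rwa [one_mul] at this

theorem nm_conj (γ α : ι) : ∃ c : ℚ_[p], ‖c‖ = 1 ∧
    D.nm p γ * D.Ef p α = c • (D.Ef p (D.rf γ α) * D.nm p γ) := by
  have hneg : ‖(-1 : ℚ_[p])‖ = 1 := by rw [norm_neg, norm_one]
  by_cases hα : α = γ
  · refine ⟨-1, hneg, ?_⟩
    rw [hα, D.rf_self, neg_one_smul]
    exact D.nm_e p γ
  by_cases hα' : α = D.ng γ
  · refine ⟨-1, hneg, ?_⟩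
    rw [hα', D.rf_ng, D.rf_self, D.ng_ng, neg_one_smul]
    exact D.nm_f p γ
  -- the string of roots through `α`
  let S' : Set ι := {β | ∃ k : ℤ, D.rt β = D.rt α + k • D.rt γ}
  have hαS : α ∈ S' := ⟨0, by rw [zero_smul, add_zero]⟩
  have hrf : D.rf γ α ∈ S' := ⟨-(D.pr α (D.co γ)), by rw [D.rt_rf, neg_smul, sub_eq_add_neg]⟩
  have hA1 : D.Abs γ S' := by
    rintro β ⟨k, hk⟩ δ hδ
    refine ⟨k + 1, ?_⟩
    rw [hδ, hk, add_smul, one_smul]
    abel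
  have hA2 : D.Abs (D.ng γ) S' := by
    rintro β ⟨k, hk⟩ δ hδ
    refine ⟨k - 1, ?_⟩
    rw [hδ, hk, sub_smul, one_smul, D.rt_ng]
    abel
  have hprop : ∀ b : ℤ, D.rt α ≠ b • D.rt γ := by
    intro b hb
    have h1 : (1 : ℤ) • D.rt α = b • D.rt γ := by rw [one_smul, hb]
    rcases D.prop_eq (Or.inl one_ne_zero) h1 with h2 | h2
    · exact hα h2.symm
    · exact hα' (by rw [h2, D.ng_ng])
  have hn1 : γ ∉ S' := by
    rintro ⟨k, hk⟩
    apply hprop (1 - k)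
    rw [sub_smul, one_smul]
    exact eq_sub_of_add_eq hk.symm
  have hn2 : D.ng γ ∉ S' := by
    rintro ⟨k, hk⟩
    apply hprop (-1 - k)
    rw [D.rt_ng] at hk
    rw [sub_smul, neg_smul, one_smul]
    exact eq_sub_of_add_eq hk.symm
  have hn3 : D.ng (D.ng γ) ∉ S' := by
    rw [D.ng_ng]
    exact hn1
  obtain ⟨hiv1, hiv2, hiv3⟩ := D.nm_iv p γ
  set iv : Matrix (Fin N) (Fin N) ℚ_[p] :=
    D.xm p γ (-1) * D.xm p (D.ng γ) 1 * D.xm p γ (-1) with hiv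
  have hE : D.Ef p α ∈ D.nS p S' := Submodule.subset_span ⟨α, hαS, rfl⟩
  have hm1 := D.ad_nS hA1 hn2 1 hE
  have hm2 := D.ad_nS hA2 hn3 (-1) hm1
  have hm3 := D.ad_nS hA1 hn2 1 hm2
  rw [neg_neg] at hm3
  have hm : D.nm p γ * D.Ef p α * iv ∈ D.nS p S' := by
    have e : D.nm p γ * D.Ef p α * iv = D.xm p γ 1 * (D.xm p (D.ng γ) (-1) *
        (D.xm p γ 1 * D.Ef p α * D.xm p γ (-1)) * D.xm p (D.ng γ) 1) * D.xm p γ (-1) := by
      rw [hiv]
      unfold nm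
      simp only [mul_assoc]
    rw [e]
    exact hm3
  have hsupp : ∀ i j, (D.nm p γ * D.Ef p α * iv) i j ≠ 0 →
      D.wt i = D.rt (D.rf γ α) + D.wt j := by
    intro i j hij
    rw [Matrix.mul_apply] at hij
    obtain ⟨l, -, hl⟩ := Finset.exists_ne_zero_of_sum_ne_zero hij
    have hl1 : (D.nm p γ * D.Ef p α) i l ≠ 0 := left_ne_zero_of_mul hl
    have hl2 : iv l j ≠ 0 := right_ne_zero_of_mul hl
    rw [Matrix.mul_apply] at hl1
    obtain ⟨k, -, hk⟩ := Finset.exists_ne_zero_of_sum_ne_zero hl1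
    have e1 := D.nm_supp p γ (left_ne_zero_of_mul hk)
    have e2 := D.ef_wt p (right_ne_zero_of_mul hk)
    have e3 : D.wt l = D.rx γ (D.wt j) := by
      apply D.nm_supp p γ
      intro h0
      apply hl2
      rw [hiv3, cd, Matrix.diagonal_mul, h0, mul_zero]
    rw [e1, e2, e3, D.rx_add, D.rx_rx, D.rt_rf']
  obtain ⟨c, hc⟩ := D.nS_one p hrf hm hsupp
  have hmain : D.nm p γ * D.Ef p α = c • (D.Ef p (D.rf γ α) * D.nm p γ) := by
    calc D.nm p γ * D.Ef p α = D.nm p γ * D.Ef p α * (iv * D.nm p γ) := by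
          rw [hiv2, mul_one]
      _ = D.nm p γ * D.Ef p α * iv * D.nm p γ := by rw [← mul_assoc]
      _ = c • (D.Ef p (D.rf γ α) * D.nm p γ) := by rw [hc, Matrix.smul_mul]
  refine ⟨c, le_antisymm ?_ ?_, hmain⟩
  · obtain ⟨i, j, hij⟩ := D.ef_prim p (D.rf γ α)
    have h1 := Ge1_three p (Ge1_nm_int D p γ) (D.ef_int p α)
      (fun i j => hiv ▸ Ge1_iv_int D p γ i j) i j
    rw [hc, Matrix.smul_apply, smul_eq_mul, norm_mul, hij, mul_one] at h1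
    exact h1
  · obtain ⟨i, j, hij⟩ := D.ef_prim p α
    have e : D.Ef p α = c • (iv * D.Ef p (D.rf γ α) * D.nm p γ) := by
      calc D.Ef p α = iv * D.nm p γ * D.Ef p α := by rw [hiv2, one_mul]
        _ = iv * (D.nm p γ * D.Ef p α) := by rw [mul_assoc]
        _ = c • (iv * D.Ef p (D.rf γ α) * D.nm p γ) := by
            rw [hmain, Matrix.mul_smul, ← mul_assoc]
    have h1 := Ge1_three p (fun i j => hiv ▸ Ge1_iv_int D p γ i j) (D.ef_int p (D.rf γ α))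
      (Ge1_nm_int D p γ) i j
    rw [e, Matrix.smul_apply, smul_eq_mul, norm_mul] at hij
    calc (1 : ℝ) = ‖c‖ * ‖(iv * D.Ef p (D.rf γ α) * D.nm p γ) i j‖ := hij.symm
      _ ≤ ‖c‖ * 1 := mul_le_mul_of_nonneg_left h1 (norm_nonneg _)
      _ = ‖c‖ := mul_one _

/-- conjugation of `xr α s` by the Weyl element of `γ` -/
theorem io_w_xr (γ α : ι) : ∃ c : ℚ_[p], ‖c‖ = 1 ∧ ∀ s,
    D.io p γ (S.w2 p) * D.xr p α s * (D.io p γ (S.w2 p))⁻¹ = D.xr p (D.rf γ α) (c * s) := by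
  obtain ⟨c, hc1, hc⟩ := D.nm_conj p γ α
  refine ⟨c, hc1, fun s => ?_⟩
  apply D.gt_ext p
  obtain ⟨h1, h2⟩ := D.val_inv p (D.io p γ (S.w2 p))
  have e0 : (D.io p γ (S.w2 p)).1.1 = D.nm p γ := D.io_w p γ
  rw [e0] at h1 h2
  rw [D.val_mul, D.val_mul, D.xr_val, D.xr_val, e0]
  unfold xm
  rw [exp_conj' (D.ef_nil_smul p α s) h1 h2]
  congr 1
  rw [Matrix.mul_smul, hc, Matrix.smul_mul, Matrix.smul_mul, mul_assoc, h2, mul_one, smul_smul,
    mul_comm]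

end Ctx

end

end Pool.Agent.Lib.MP_f399a8_nt.G
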