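import Pool.Agent.Lib.MP_f399a8_ntG.Ge1
import Pool.Agent.Lib.MP_f399a8_ntG.Gd1

/-!
# Representatives of the Weyl group

`D.N0 p` is generated by the elements `io γ w2`.  `IsN w n`: `n ∈ N0` and `n` maps the weight spaces according to `w`.

PROOF.
* `isN_hd`: entry `(i, j)`: `n i j * ⟨wt j, y⟩ = ⟨wt i, w y⟩ * n i j`, since `⟨w (wt j), w y⟩ = ⟨wt j, y⟩` (`w_pa`).  Conversely
  (`isN_of_hd`), if this holds for all `y` and `n i j ≠ 0` then `⟨wt j, y⟩ = ⟨wt i, w y⟩` for all `y`, so `wt i = w (wt j)` (`w_pa'`, `pa_ext_x`).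
* `isN_sg`: `nm_supp`, `io_w`.  `isN_mul`: a nonzero entry of the product gives an intermediate index.  `isN_inv`: `isN_hd`: `n * hd y = hd (w y) * n`
  gives `hd y * n⁻¹ = n⁻¹ * hd (w y)`; use `isN_of_hd`.
* `isN_ex`: `Subgroup.closure_induction` for `w ∈ D.W` (`W` is the closure of the `gen γ`).  `isN_mem`: closure induction for `n`.
* `isN_unique`: every column of `n` has a nonzero entry (`det n = 1`), so `w (wt j) = w' (wt j)` for all `j`; `wt_ext` (additive maps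
  `wx w`, `wx w'`), `w_ext_x`.  `isN_wt`: the same: for every `j` there is `i` with `wt i = w (wt j)`.
* `isN_K`: `Kg` is a subgroup containing the generators (`io_w_K`).
* `isN_xr`: the third statement follows from the second one (`exp_conj'`: `n * (s • E α) * n⁻¹ = (c s) • E (w α)`).  For the second: the set of `n` in
  `N0` for which there is `w'` such that `IsN w' n` and for all `α` there is `c`, `‖c‖ = 1`, `n * E α = c • (E (w' α) * n)`, contains the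
  generators (`nm_conj`, `io_w`, `wr_sg`) and is closed under products and inverses
  (`n * E α = c • (E (w α) * n)` for `α = w⁻¹ β` gives `n⁻¹ * E β = c⁻¹ • (E (w⁻¹ β) * n⁻¹)`); `w' = w` by `isN_unique`.
* `isN_ug`: `ug_conj_of`.  `isN_ug'`: for the inverse.
* `isN_tg`: the matrix of `n * t * n⁻¹`: `n * diagonal (τ (wt j)) = diagonal (τ (w⁻¹ (wt i))) * n` by the support of `n`; so
  `n * t * n⁻¹` is the element of `Tg` given by `τ ∘ w⁻¹`.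
* `isN_cc`: the same for `cd` (`w_pa'`).
-/

namespace Pool.Agent.Lib.MP_f399a8_nt.G

open Matrix

noncomputable section

namespace Ctx

variable {ι X Y : Type*} [Finite ι] [AddCommGroup X] [AddCommGroup Y] {N : ℕ} (D : Ctx ι X Y N)

/-- the group generated by the Weyl elements -/
def N0 (p : ℕ) [Fact p.Prime] : Subgroup (D.Gt p) :=
  Subgroup.closure (Set.range fun γ => D.io p γ (S.w2 p))

variable {p : ℕ} [Fact p.Prime]

/-- `n` is a representative of `w` -/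
def IsN (w : D.W) (n : D.Gt p) : Prop :=
  n ∈ D.N0 p ∧ ∀ i j, n.1.1 i j ≠ 0 → D.wt i = D.wx w (D.wt j)

variable {w w' : D.W} {n n' : D.Gt p}

theorem Ge2_wp (h : D.IsN w n) {i j : Fin N} (h0 : n.1.1 i j ≠ 0) (y : Y) :
    D.wp i (D.wy w y) = D.wp j y := by
  rw [D.wp_def, D.wp_def, h.2 i j h0, D.w_pa]

theorem isN_hd (h : D.IsN w n) (y : Y) : n.1.1 * D.hd p y = D.hd p (D.wy w y) * n.1.1 := by
  ext i j
  unfold hd
  rw [Matrix.mul_diagonal, Matrix.diagonal_mul]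
  by_cases h0 : n.1.1 i j = 0
  · rw [h0, zero_mul, mul_zero]
  · rw [D.Ge2_wp h h0 y, mul_comm]

theorem isN_of_hd (h0 : n ∈ D.N0 p) (h : ∀ y, n.1.1 * D.hd p y = D.hd p (D.wy w y) * n.1.1) :
    D.IsN w n := by
  refine ⟨h0, fun i j hij => ?_⟩
  refine D.pa_ext_x fun y => ?_
  have h1 := congrFun (congrFun (h (D.wy w⁻¹ y)) i) j
  unfold hd at h1
  rw [Matrix.mul_diagonal, Matrix.diagonal_mul, (D.wy_inv w y).1, mul_comm] at h1
  have h2 := mul_right_cancel₀ hij h1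
  have h3 : D.wp j (D.wy w⁻¹ y) = D.wp i y := by exact_mod_cast h2
  rw [D.w_pa', ← D.wp_def, ← D.wp_def, h3]

theorem isN_one : D.IsN (p := p) 1 1 := by
  refine ⟨one_mem _, fun i j h => ?_⟩
  have h1 : (1 : Matrix (Fin N) (Fin N) ℚ_[p]) i j ≠ 0 := h
  by_cases hij : i = j
  · rw [hij, D.wx_one]
  · exact absurd (Matrix.one_apply_ne hij) h1

theorem isN_sg (γ : ι) : D.IsN (D.sg γ) (D.io p γ (S.w2 p)) := by
  refine ⟨Subgroup.subset_closure ⟨γ, rfl⟩, fun i j h => ?_⟩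
  rw [D.io_w] at h
  rw [D.wx_sg]
  exact D.nm_supp p γ h

theorem isN_mul (h : D.IsN w n) (h' : D.IsN w' n') : D.IsN (w * w') (n * n') := by
  refine ⟨mul_mem h.1 h'.1, fun i j hij => ?_⟩
  rw [D.val_mul, Matrix.mul_apply] at hij
  obtain ⟨k, _, hk⟩ := Finset.exists_ne_zero_of_sum_ne_zero hij
  have h1 := h.2 i k (left_ne_zero_of_mul hk)
  have h2 := h'.2 k j (right_ne_zero_of_mul hk)
  rw [h1, h2, D.wx_mul]

theorem isN_inv (h : D.IsN w n) : D.IsN w⁻¹ n⁻¹ := by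
  refine D.isN_of_hd (inv_mem h.1) fun y => ?_
  have h1 := D.isN_hd h (D.wy w⁻¹ y)
  rw [(D.wy_inv w y).1] at h1
  obtain ⟨a, b⟩ := D.val_inv p n
  calc (n⁻¹).1.1 * D.hd p y = (n⁻¹).1.1 * (D.hd p y * n.1.1) * (n⁻¹).1.1 := by
        rw [Matrix.mul_assoc, Matrix.mul_assoc, b, Matrix.mul_one]
    _ = (n⁻¹).1.1 * (n.1.1 * D.hd p (D.wy w⁻¹ y)) * (n⁻¹).1.1 := by rw [h1]
    _ = D.hd p (D.wy w⁻¹ y) * (n⁻¹).1.1 := by rw [← Matrix.mul_assoc (n⁻¹).1.1, a, Matrix.one_mul]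

theorem isN_ex (p : ℕ) [Fact p.Prime] (w : D.W) : ∃ n : D.Gt p, D.IsN w n := by
  obtain ⟨g, hg⟩ := w
  unfold W at hg
  induction hg using Subgroup.closure_induction with
  | mem x hx =>
    obtain ⟨γ, rfl⟩ := hx
    exact ⟨_, D.isN_sg γ⟩
  | one => exact ⟨1, D.isN_one⟩
  | mul a b ha hb iha ihb =>
    obtain ⟨m, hm⟩ := iha
    obtain ⟨m', hm'⟩ := ihb
    exact ⟨m * m', D.isN_mul hm hm'⟩
  | inv a ha iha =>
    obtain ⟨m, hm⟩ := iha
    exact ⟨m⁻¹, D.isN_inv hm⟩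

theorem isN_mem (h : n ∈ D.N0 p) : ∃ w, D.IsN w n := by
  unfold N0 at h
  induction h using Subgroup.closure_induction with
  | mem x hx =>
    obtain ⟨γ, rfl⟩ := hx
    exact ⟨_, D.isN_sg γ⟩
  | one => exact ⟨1, D.isN_one⟩
  | mul a b ha hb iha ihb =>
    obtain ⟨m, hm⟩ := iha
    obtain ⟨m', hm'⟩ := ihb
    exact ⟨m * m', D.isN_mul hm hm'⟩
  | inv a ha iha =>
    obtain ⟨m, hm⟩ := iha
    exact ⟨m⁻¹, D.isN_inv hm⟩

theorem Ge2_col (n : D.Gt p) (j : Fin N) : ∃ i, n.1.1 i j ≠ 0 := by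
  by_contra hcon
  push Not at hcon
  have h1 : n.1.1.det = 0 := Matrix.det_eq_zero_of_column_eq_zero j hcon
  rw [n.1.2] at h1
  exact one_ne_zero h1

/-- the action of `w` as a homomorphism -/
def Ge2_hom (w : D.W) : X →+ X := AddMonoidHom.mk' (D.wx w) (D.wx_add w)

theorem isN_unique (h : D.IsN w n) (h' : D.IsN w' n) : w = w' := by
  have h1 : ∀ j, D.wx w (D.wt j) = D.wx w' (D.wt j) := by
    intro j
    obtain ⟨i, hi⟩ := D.Ge2_col n j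
    rw [← h.2 i j hi, ← h'.2 i j hi]
  have h2 : D.Ge2_hom w = D.Ge2_hom w' := D.wt_ext h1
  refine D.w_ext_x fun x => ?_
  exact DFunLike.congr_fun h2 x

theorem isN_wt (w : D.W) (j : Fin N) : ∃ i, D.wt i = D.wx w (D.wt j) := by
  obtain ⟨n, hn⟩ := D.isN_ex 2 w
  obtain ⟨i, hi⟩ := D.Ge2_col n j
  exact ⟨i, hn.2 i j hi⟩

theorem isN_K (h : D.IsN w n) : n ∈ D.Kg p := by
  have h1 : D.N0 p ≤ D.Kg p := by
    refine (Subgroup.closure_le _).2 ?_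
    rintro x ⟨γ, rfl⟩
    exact D.io_w_K p γ
  exact h1 h.1

theorem Ge2_conj (h : n ∈ D.N0 p) : ∃ w', D.IsN w' n ∧ ∀ α, ∃ c : ℚ_[p], ‖c‖ = 1 ∧
    n.1.1 * D.Ef p α = c • (D.Ef p (D.wr w' α) * n.1.1) := by
  unfold N0 at h
  induction h using Subgroup.closure_induction with
  | mem x hx =>
    obtain ⟨γ, rfl⟩ := hx
    refine ⟨D.sg γ, D.isN_sg γ, fun α => ?_⟩
    obtain ⟨c, hc, hcE⟩ := D.nm_conj p γ α
    refine ⟨c, hc, ?_⟩
    show (D.io p γ (S.w2 p)).1.1 * _ = c • (_ * (D.io p γ (S.w2 p)).1.1)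
    rw [D.io_w, D.wr_sg]
    exact hcE
  | one =>
    refine ⟨1, D.isN_one, fun α => ⟨1, norm_one, ?_⟩⟩
    rw [D.val_one, Matrix.one_mul, Matrix.mul_one, one_smul, D.wr_one]
  | mul a b ha hb iha ihb =>
    obtain ⟨u, hu, hu'⟩ := iha
    obtain ⟨v, hv, hv'⟩ := ihb
    refine ⟨u * v, D.isN_mul hu hv, fun α => ?_⟩
    obtain ⟨c, hc, hcE⟩ := hv' α
    obtain ⟨d, hd, hdE⟩ := hu' (D.wr v α)
    refine ⟨c * d, by rw [norm_mul, hc, hd, one_mul], ?_⟩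
    rw [D.val_mul, Matrix.mul_assoc, hcE, Matrix.mul_smul, ← Matrix.mul_assoc, hdE,
      Matrix.smul_mul, smul_smul, Matrix.mul_assoc, D.wr_mul]
  | inv a ha iha =>
    obtain ⟨u, hu, hu'⟩ := iha
    refine ⟨u⁻¹, D.isN_inv hu, fun α => ?_⟩
    obtain ⟨c, hc, hcE⟩ := hu' (D.wr u⁻¹ α)
    rw [(D.wr_inv u α).1] at hcE
    have hc0 : c ≠ 0 := by
      rintro rfl
      rw [norm_zero] at hc
      exact zero_ne_one hc
    obtain ⟨e1, e2⟩ := D.val_inv p a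
    refine ⟨c⁻¹, by rw [norm_inv, hc, inv_one], ?_⟩
    have h1 : D.Ef p (D.wr u⁻¹ α) * (a⁻¹).1.1 = c • ((a⁻¹).1.1 * D.Ef p α) := by
      calc D.Ef p (D.wr u⁻¹ α) * (a⁻¹).1.1
          = (a⁻¹).1.1 * (a.1.1 * D.Ef p (D.wr u⁻¹ α)) * (a⁻¹).1.1 := by
            rw [← Matrix.mul_assoc (a⁻¹).1.1, e1, Matrix.one_mul]
        _ = (a⁻¹).1.1 * (c • (D.Ef p α * a.1.1)) * (a⁻¹).1.1 := by rw [hcE]
        _ = c • ((a⁻¹).1.1 * D.Ef p α) := by
            rw [Matrix.mul_smul, Matrix.smul_mul, Matrix.mul_assoc, Matrix.mul_assoc, e2,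
              Matrix.mul_one]
    rw [h1, smul_smul, inv_mul_cancel₀ hc0, one_smul]

theorem isN_xr (h : D.IsN w n) (α : ι) : ∃ c : ℚ_[p], ‖c‖ = 1 ∧
    n.1.1 * D.Ef p α = c • (D.Ef p (D.wr w α) * n.1.1) ∧
    ∀ s, n * D.xr p α s * n⁻¹ = D.xr p (D.wr w α) (c * s) := by
  obtain ⟨w', hw', hE⟩ := D.Ge2_conj h.1
  have hww : w = w' := D.isN_unique h hw'
  subst hww
  obtain ⟨c, hc, hcE⟩ := hE α
  refine ⟨c, hc, hcE, fun s => ?_⟩
  refine D.gt_ext p ?_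
  obtain ⟨a, b⟩ := D.val_inv p n
  rw [D.val_mul, D.val_mul, D.xr_val, D.xr_val]
  unfold xm
  rw [exp_conj' (D.ef_nil_smul p α s) a b]
  congr 1
  rw [Matrix.mul_smul, hcE, Matrix.smul_mul, Matrix.smul_mul, Matrix.mul_assoc, b, Matrix.mul_one,
    smul_smul, mul_comm s c]

theorem isN_ug (h : D.IsN w n) {S' : Set ι} {x : D.Gt p} (hx : x ∈ D.Ug p S') :
    n * x * n⁻¹ ∈ D.Ug p (D.wr w '' S') := by
  refine D.ug_conj_of (fun α hα s => ?_) hx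
  obtain ⟨c, -, -, hc⟩ := D.isN_xr h α
  rw [hc s]
  have hm : D.wr w α ∈ D.wr w '' S' := ⟨α, hα, rfl⟩
  exact D.xr_mem hm _

theorem isN_ug' (h : D.IsN w n) {S' T : Set ι} (hST : ∀ α, D.wr w α ∈ S' → α ∈ T) {x : D.Gt p}
    (hx : x ∈ D.Ug p S') : n⁻¹ * x * n ∈ D.Ug p T := by
  have h1 : n⁻¹ * x * (n⁻¹)⁻¹ ∈ D.Ug p T := by
    refine D.ug_conj_of (fun α hα s => ?_) hx
    obtain ⟨c, -, -, hc⟩ := D.isN_xr (D.isN_inv h) α
    rw [hc s]
    exact D.xr_mem (hST _ (by rw [(D.wr_inv w α).1]; exact hα)) _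
  rwa [inv_inv] at h1

theorem Ge2_tg (h : D.IsN w n) {t : D.Gt p} (ht : t ∈ D.Tg p) : n * t * n⁻¹ ∈ D.Tg p := by
  obtain ⟨τ, hτ, htm⟩ := (D.mem_Tg).1 ht
  refine (D.mem_Tg).2 ⟨fun x => τ (D.wx w⁻¹ x), fun a b => ?_, ?_⟩
  · show τ (D.wx w⁻¹ (a + b)) = τ (D.wx w⁻¹ a) * τ (D.wx w⁻¹ b)
    rw [D.wx_add, hτ]
  · obtain ⟨-, b⟩ := D.val_inv p n
    have h1 : n.1.1 * t.1.1 =
        (Matrix.diagonal fun i => (τ (D.wx w⁻¹ (D.wt i)) : ℚ_[p])) * n.1.1 := by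
      rw [htm]
      ext i j
      rw [Matrix.mul_diagonal, Matrix.diagonal_mul]
      by_cases h0 : n.1.1 i j = 0
      · rw [h0, zero_mul, mul_zero]
      · rw [h.2 i j h0, (D.wx_inv w (D.wt j)).2, mul_comm]
    rw [D.val_mul, D.val_mul, h1, Matrix.mul_assoc, b, Matrix.mul_one]

theorem isN_tg (h : D.IsN w n) {t : D.Gt p} (ht : t ∈ D.Tg p) :
    n * t * n⁻¹ ∈ D.Tg p ∧ n⁻¹ * t * n ∈ D.Tg p := by
  refine ⟨D.Ge2_tg h ht, ?_⟩
  have h1 := D.Ge2_tg (D.isN_inv h) ht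
  rwa [inv_inv] at h1

theorem isN_cc (h : D.IsN w n) (y : Y) (x : ℚ_[p]ˣ) :
    n * D.cc p y x * n⁻¹ = D.cc p (D.wy w y) x := by
  refine D.gt_ext p ?_
  obtain ⟨-, b⟩ := D.val_inv p n
  have h1 : n.1.1 * D.cd p y x = D.cd p (D.wy w y) x * n.1.1 := by
    unfold cd
    ext i j
    rw [Matrix.mul_diagonal, Matrix.diagonal_mul]
    by_cases h0 : n.1.1 i j = 0
    · rw [h0, zero_mul, mul_zero]
    · rw [D.Ge2_wp h h0 y, mul_comm]
  rw [D.val_mul, D.val_mul, D.cc_val, D.cc_val, h1, Matrix.mul_assoc, b, Matrix.mul_one]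

end Ctx

end

end Pool.Agent.Lib.MP_f399a8_nt.G
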