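import Pool.Agent.Lib.MP_f399a8_ntG.Rt3

/-!
# The exchange lemma, regular elements have trivial stabilizer

PROOF of `exch`.  Write `l = [γ₁, …, γ_k]`, `w = s_{γ₁} … s_{γ_k}`, `k ≥ 1`, `γ = γ_k` (the last element).  By hypothesis `w γ` is positive
on `y`, and `w γ = - s_{γ₁} … s_{γ_{k-1}} γ`, so `s_{γ₁} … s_{γ_{k-1}} γ` is negative on `y`.  Let `j` be the largest index with
`s_{γ_j} s_{γ_{j+1}} … s_{γ_{k-1}} γ` negative and `δ = s_{γ_{j+1}} … s_{γ_{k-1}} γ`, which is positive.  `s_{γ_j} δ` is negative, so `δ = γ_j`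
by `sim_rf`.  So with `l₁ = [γ₁, …, γ_{j-1}]`, `a = γ_j`, `l₂ = [γ_{j+1}, …, γ_{k-1}]`, `b = γ_k`: `l = l₁ ++ a :: (l₂ ++ [b])` and
`w_{l₂} b = a`.  (Induction: prove for all lists `m` of simple roots and `b` simple: if `w_m b` is negative on `y` then
`m = l₁ ++ a :: l₂` with `w_{l₂} b = a`, by induction on `m` from the left: `m = c :: m'`; if `w_{m'} b` is negative use the
induction hypothesis; if it is positive then `s_c (w_{m'} b)` is negative, so `w_{m'} b = c` by `sim_rf`, take `l₁ = []`.)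
PROOF of `w_stab`.  Take a list `l` of simple roots of minimal length with `w = w_l` (`wl_ex`).  If `l ≠ []`, `exch` gives
`w = w_{l₁} s_a w_{l₂} s_b` and `w_{l₂} s_b w_{l₂}⁻¹ = s_{w_{l₂} b} = s_a` (`w_sg`), so `w = w_{l₁} w_{l₂}`: a shorter list.  So `l = []`.
PROOF of `w_stab_y`: if `w y = y` then `⟨w α, y⟩ = ⟨w α, w y⟩ = ⟨α, y⟩`.  `w_y_inj`: apply it to `w'⁻¹ * w`.
-/

namespace Pool.Agent.Lib.MP_f399a8_nt.G

open Matrix

noncomputable section

namespace Ctx

variable {ι X Y : Type*} [Finite ι] [AddCommGroup X] [AddCommGroup Y] {N : ℕ} (D : Ctx ι X Y N)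

private theorem Rt4_wl_nil : D.wl [] = 1 := rfl

private theorem Rt4_wl_cons (c : ι) (m : List ι) : D.wl (c :: m) = D.sg c * D.wl m := by
  unfold wl
  rw [List.map_cons, List.prod_cons]

private theorem Rt4_wl_append (l m : List ι) : D.wl (l ++ m) = D.wl l * D.wl m := by
  unfold wl
  rw [List.map_append, List.prod_append]

private theorem Rt4_aux {y : Y} (hy : D.Reg y) (b : ι) (hb : D.Sim y b) (m : List ι) :
    (∀ γ ∈ m, D.Sim y γ) → D.pr (D.wr (D.wl m) b) y < 0 →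
    ∃ (l₁ l₂ : List ι) (a : ι), m = l₁ ++ a :: l₂ ∧ D.wr (D.wl l₂) b = a := by
  induction m with
  | nil =>
    intro _ h
    have h1 : 0 < D.pr b y := hb.1
    have h2 : D.wr (D.wl []) b = b := rfl
    rw [h2] at h
    exact absurd h (not_lt.mpr h1.le)
  | cons c m' ih =>
    intro hm h
    rcases lt_or_gt_of_ne (hy (D.wr (D.wl m') b)) with h1 | h1
    · obtain ⟨l₁, l₂, a, e1, e2⟩ := ih (fun γ hγ => hm γ (List.mem_cons_of_mem c hγ)) h1
      exact ⟨c :: l₁, l₂, a, by rw [e1, List.cons_append], e2⟩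
    · refine ⟨[], m', c, rfl, ?_⟩
      by_contra hne
      have hc : D.Sim y c := hm c List.mem_cons_self
      have h2 := D.sim_rf hy hc h1 hne
      rw [Rt4_wl_cons, D.wr_mul, D.wr_sg] at h
      exact absurd h (not_lt.mpr h2.le)

theorem exch {y : Y} (hy : D.Reg y) {l : List ι} (hl : ∀ γ ∈ l, D.Sim y γ) (hne : l ≠ [])
    (h : ∀ α, 0 < D.pr α y → 0 < D.pr (D.wr (D.wl l) α) y) :
    ∃ (l₁ l₂ : List ι) (a b : ι), l = l₁ ++ a :: (l₂ ++ [b]) ∧ D.wr (D.wl l₂) b = a := by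
  obtain ⟨m, b, rfl⟩ : ∃ (m : List ι) (b : ι), l = m ++ [b] :=
    ⟨l.dropLast, l.getLast hne, (List.dropLast_append_getLast hne).symm⟩
  have hb : D.Sim y b := hl b (List.mem_append_right m List.mem_cons_self)
  have h1 := h b hb.1
  have h2 : D.wl (m ++ [b]) = D.wl m * D.sg b := by
    rw [Rt4_wl_append, Rt4_wl_cons, Rt4_wl_nil, mul_one]
  rw [h2, D.wr_mul, D.wr_sg, D.rf_self, D.w_ng, D.pr_ng] at h1
  obtain ⟨l₁, l₂, a, e1, e2⟩ := Rt4_aux D hy b hb m
    (fun γ hγ => hl γ (List.mem_append_left _ hγ)) (by omega)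
  exact ⟨l₁, l₂, a, b, by rw [e1]; simp, e2⟩

private theorem Rt4_stab {y : Y} (hy : D.Reg y) (n : ℕ) : ∀ l : List ι, l.length ≤ n →
    (∀ γ ∈ l, D.Sim y γ) → (∀ α, 0 < D.pr α y → 0 < D.pr (D.wr (D.wl l) α) y) →
    D.wl l = 1 := by
  induction n with
  | zero =>
    intro l hn _ _
    have : l = [] := List.eq_nil_of_length_eq_zero (by omega)
    rw [this]
    rfl
  | succ n ih =>
    intro l hn hl h
    by_cases hne : l = []
    · rw [hne]
      rfl
    obtain ⟨l₁, l₂, a, b, e1, e2⟩ := D.exch hy hl hne h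
    have key : D.wl l = D.wl (l₁ ++ l₂) := by
      have h3 := D.w_sg (D.wl l₂) b
      rw [e2] at h3
      rw [e1, Rt4_wl_append, Rt4_wl_cons, Rt4_wl_append, Rt4_wl_cons, Rt4_wl_nil, mul_one,
        Rt4_wl_append, ← h3]
      have h4 := D.sg_sg b
      calc D.wl l₁ * (D.wl l₂ * D.sg b * (D.wl l₂)⁻¹ * (D.wl l₂ * D.sg b))
          = D.wl l₁ * (D.wl l₂ * (D.sg b * D.sg b)) := by group
        _ = D.wl l₁ * D.wl l₂ := by rw [h4, mul_one]
    rw [key]
    apply ih
    · have : l.length = l₁.length + (l₂.length + 1 + 1) := by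
        rw [e1]
        simp
      rw [List.length_append]
      omega
    · intro γ hγ
      apply hl
      rw [e1]
      rcases List.mem_append.mp hγ with h5 | h5
      · exact List.mem_append_left _ h5
      · exact List.mem_append_right _ (List.mem_cons_of_mem _ (List.mem_append_left _ h5))
    · intro α hα
      rw [← key]
      exact h α hα

theorem w_stab {y : Y} (hy : D.Reg y) {w : D.W}
    (h : ∀ α, 0 < D.pr α y → 0 < D.pr (D.wr w α) y) : w = 1 := by
  obtain ⟨l, hl, rfl⟩ := D.wl_ex y hy w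
  exact Rt4_stab D hy l.length l le_rfl hl h

theorem w_stab_y {y : Y} (hy : D.Reg y) {w : D.W} (h : D.wy w y = y) : w = 1 := by
  apply D.w_stab hy
  intro α hα
  have h1 := D.w_pr w α y
  rw [h] at h1
  rw [h1]
  exact hα

theorem w_y_inj {y : Y} (hy : D.Reg y) {w w' : D.W} (h : D.wy w y = D.wy w' y) : w = w' := by
  have h1 : D.wy (w'⁻¹ * w) y = y := by
    rw [D.wy_mul, h]
    exact (D.wy_inv w' y).2
  have h2 := D.w_stab_y hy h1
  have h3 : w = w' * (w'⁻¹ * w) := by group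
  rw [h3, h2, mul_one]

end Ctx

end

end Pool.Agent.Lib.MP_f399a8_nt.G
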