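import Pool.Agent.Lib.MP_f399a8_ntG.Ge2
import Pool.Agent.Lib.MP_f399a8_ntG.Rt4

/-!
# Representatives are unique up to the torus

`nl l` is the product of the elements `io γ w2` for `γ` in the list `l`; `IsN (wl l) (nl l)`.

PROOF of `nl_conj`: let `IsN w n`, `wr w b = a`.  `w2 = ux 1 * lo2 (-1) * ux 1`, so `n * io b w2 * n⁻¹ = xr a c * xr (-a) (-c') * xr a c`
with the constants `c` of `isN_xr` for `b` and `c'` for `-b` (`w_ng`).  Claim `c c' = 1`: as matrices `n E_b = c E_a n`,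
`n E_{-b} = c' E_{-a} n`, so `n [E_b, E_{-b}] = c c' [E_a, E_{-a}] n`, i.e. (`ef_neg`) `n * hd (co b) = c c' hd (co a) * n`; and
`n * hd (co b) = hd (co a) * n` (`isN_hd`, `w_co`), `hd (co a) ≠ 0` (`co_signs`), `n` is invertible.
So `n * io b w2 * n⁻¹ = xr a c * xr (-a) (-c⁻¹) * xr a c = cc (co a) c * io a w2` by `wm_eq` (`cd (co a) c * nm a`).
PROOF of `nl_tg`: strong induction on the length of `l`.  `l = []`: `nl l = 1`.  Otherwise `wl l = 1` preserves the positive roots, and `exch` gives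
`l = l₁ ++ a :: (l₂ ++ [b])`, `wr (wl l₂) b = a`.  By `nl_conj` with `n = nl l₂`: `nl l₂ * n_b = t * n_a * nl l₂`, `t ∈ Tg`, so
`nl l = nl l₁ * n_a * (t * n_a * nl l₂) = nl l₁ * (n_a t n_a⁻¹) * (n_a * n_a) * nl l₂`, and `n_a * n_a = io a (w2²) = cc (co a) (-1) ∈ Tg`, so (`isN_tg`)
`nl l ∈ Tg * (nl l₁ * nl l₂)`.  `wl (l₁ ++ l₂) = 1`: `1 = wl l₁ s_a wl l₂ s_b`, `wl l₂ s_b (wl l₂)⁻¹ = s_a` (`w_sg`), so `s_a wl l₂ s_b = wl l₂ s_b s_b = wl l₂`.
PROOF of `nl_gen`: the set of `n` for which there are `t ∈ Tg` and a list `l` of simple roots with `n = t * nl l` is closed under products (`isN_tg`: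
`nl l * t' = (nl l * t' * (nl l)⁻¹) * nl l`), inverses (`(io γ w2)⁻¹ = cc (co γ) (-1) * io γ w2`), and contains `io γ w2` for all roots `γ`: every root is
`w b` with `b` simple (the argument of `wl_ex`: induction on `⟨γ, y0⟩` for positive `γ`: if `γ` is not simple take `a` simple with
`0 < ⟨γ, a^∨⟩`, `γ = s_a β`, `β` positive with smaller value; by `nl_conj` `n_a * n_β * n_a⁻¹ ∈ Tg * n_γ`; negative `γ`: `nl_conj` for `n = io γ' w2`,
`b = γ' = -γ`, `a = γ`).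
PROOF of `isN_one_tg`: `n = t * nl l` (`nl_gen`), `IsN (wl l) (nl l)`; `t⁻¹ * n = nl l` has the support of `n` (`t` is diagonal), so
`wl l (wt j) = wt j` for all `j` and `wl l = 1` (as in `isN_unique`), `nl_tg`.
PROOF of `isN_quot`: `isN_one_tg` for `n * n'⁻¹` (`isN_mul`, `isN_inv`).
-/

namespace Pool.Agent.Lib.MP_f399a8_nt.G

open Matrix

noncomputable section

namespace Ctx

variable {ι X Y : Type*} [Finite ι] [AddCommGroup X] [AddCommGroup Y] {N : ℕ} (D : Ctx ι X Y N)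
  {p : ℕ} [Fact p.Prime]

/-- the product of the Weyl elements of a list of roots -/
def nl (p : ℕ) [Fact p.Prime] (l : List ι) : D.Gt p := (l.map fun γ => D.io p γ (S.w2 p)).prod

theorem Ge3_wl_append (l m : List ι) : D.wl (l ++ m) = D.wl l * D.wl m := by
  unfold wl
  rw [List.map_append, List.prod_append]

theorem Ge3_wl_cons (c : ι) (m : List ι) : D.wl (c :: m) = D.sg c * D.wl m := by
  unfold wl
  rw [List.map_cons, List.prod_cons]

theorem Ge3_nl_nil : D.nl p [] = 1 := rfl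

theorem Ge3_nl_cons (c : ι) (m : List ι) : D.nl p (c :: m) = D.io p c (S.w2 p) * D.nl p m := by
  unfold nl
  rw [List.map_cons, List.prod_cons]

theorem Ge3_nl_append (l m : List ι) : D.nl p (l ++ m) = D.nl p l * D.nl p m := by
  unfold nl
  rw [List.map_append, List.prod_append]

theorem isN_nl (l : List ι) : D.IsN (D.wl l) (D.nl p l) := by
  induction l with
  | nil => exact D.isN_one
  | cons γ l ih =>
    rw [Ge3_wl_cons, Ge3_nl_cons]
    exact D.isN_mul (D.isN_sg γ) ih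

theorem Ge3_w2 : S.w2 p = ux 1 * S.lo2 (-1) * ux 1 := by
  apply Subtype.ext
  show !![(0 : ℚ_[p]), 1; -1, 0] = !![(1 : ℚ_[p]), 1; 0, 1] * !![1, 0; -1, 1] * !![1, 1; 0, 1]
  ext i j
  fin_cases i <;> fin_cases j <;> simp [Matrix.mul_apply, Fin.sum_univ_two]

theorem Ge3_io (b : ι) : D.io p b (S.w2 p) = D.xr p b 1 * D.xr p (D.ng b) (-1) * D.xr p b 1 := by
  rw [Ge3_w2, map_mul, map_mul, D.io_ux, D.io_lo]

theorem Ge3_cc {w : D.W} {n : D.Gt p} (h : D.IsN w n) (b : ι) {c c' : ℚ_[p]}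
    (h1 : n.1.1 * D.Ef p b = c • (D.Ef p (D.wr w b) * n.1.1))
    (h2 : n.1.1 * D.Ef p (D.ng b) = c' • (D.Ef p (D.ng (D.wr w b)) * n.1.1)) : c * c' = 1 := by
  have e1 : n.1.1 * (D.Ef p b * D.Ef p (D.ng b)) =
      (c * c') • (D.Ef p (D.wr w b) * D.Ef p (D.ng (D.wr w b)) * n.1.1) := by
    rw [← Matrix.mul_assoc, h1, Matrix.smul_mul, Matrix.mul_assoc, h2, Matrix.mul_smul, smul_smul,
      Matrix.mul_assoc]
  have e2 : n.1.1 * (D.Ef p (D.ng b) * D.Ef p b) =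
      (c * c') • (D.Ef p (D.ng (D.wr w b)) * D.Ef p (D.wr w b) * n.1.1) := by
    rw [← Matrix.mul_assoc, h2, Matrix.smul_mul, Matrix.mul_assoc, h1, Matrix.mul_smul, smul_smul,
      Matrix.mul_assoc, mul_comm c' c]
  have e3 : n.1.1 * D.hd p (D.co b) = (c * c') • (D.hd p (D.co (D.wr w b)) * n.1.1) := by
    have a1 : D.hd p (D.co b) = D.Ef p b * D.Ef p (D.ng b) - D.Ef p (D.ng b) * D.Ef p b :=
      (D.ef_neg p b).symm
    have a2 : D.hd p (D.co (D.wr w b)) = D.Ef p (D.wr w b) * D.Ef p (D.ng (D.wr w b)) -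
        D.Ef p (D.ng (D.wr w b)) * D.Ef p (D.wr w b) := (D.ef_neg p (D.wr w b)).symm
    rw [a1, a2, Matrix.mul_sub, e1, e2, Matrix.sub_mul, smul_sub]
  have e4 : n.1.1 * D.hd p (D.co b) = D.hd p (D.co (D.wr w b)) * n.1.1 := by
    rw [D.w_co]
    exact D.isN_hd h (D.co b)
  have e5 : D.hd p (D.co (D.wr w b)) = (c * c') • D.hd p (D.co (D.wr w b)) := by
    have e6 : D.hd p (D.co (D.wr w b)) * n.1.1 * (n⁻¹).1.1 =
        (c * c') • (D.hd p (D.co (D.wr w b)) * n.1.1) * (n⁻¹).1.1 := by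
      rw [← e3, e4]
    rw [Matrix.smul_mul, Matrix.mul_assoc, (D.val_inv p n).2, Matrix.mul_one] at e6
    exact e6
  obtain ⟨⟨i, hi⟩, -⟩ := D.co_signs (D.wr w b)
  have e7 := congrFun (congrFun e5 i) i
  have e8 : D.hd p (D.co (D.wr w b)) i i = ((D.wp i (D.co (D.wr w b)) : ℤ) : ℚ_[p]) := by
    unfold hd
    rw [Matrix.diagonal_apply_eq]
  rw [Matrix.smul_apply, smul_eq_mul, e8] at e7
  have e9 : ((D.wp i (D.co (D.wr w b)) : ℤ) : ℚ_[p]) ≠ 0 := by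
    exact_mod_cast (ne_of_gt hi)
  have e10 : ((D.wp i (D.co (D.wr w b)) : ℤ) : ℚ_[p]) * (c * c' - 1) = 0 := by
    rw [mul_sub, mul_one, mul_comm, ← e7, sub_self]
  rcases mul_eq_zero.1 e10 with e11 | e11
  · exact absurd e11 e9
  · exact sub_eq_zero.1 e11

theorem nl_conj {w : D.W} {n : D.Gt p} (h : D.IsN w n) (b : ι) :
    ∃ t ∈ D.Tg p, n * D.io p b (S.w2 p) * n⁻¹ = t * D.io p (D.wr w b) (S.w2 p) := by
  obtain ⟨c, hc, hc1, hc2⟩ := D.isN_xr h b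
  obtain ⟨c', hc', hc1', hc2'⟩ := D.isN_xr h (D.ng b)
  rw [D.w_ng] at hc1' hc2'
  have h1 : c * c' = 1 := D.Ge3_cc h b hc1 hc1'
  have hc0 : c ≠ 0 := by
    intro h0
    rw [h0, zero_mul] at h1
    exact zero_ne_one h1
  have hcc : c' = c⁻¹ := by
    field_simp
    rw [mul_comm]
    exact h1
  refine ⟨D.cc p (D.co (D.wr w b)) (Units.mk0 c hc0), D.cc_torus p _ _, ?_⟩
  have h2 : n * D.io p b (S.w2 p) * n⁻¹ =
      D.xr p (D.wr w b) c * D.xr p (D.ng (D.wr w b)) (-c⁻¹) * D.xr p (D.wr w b) c := by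
    have a1 := hc2 1
    have a2 := hc2' (-1)
    rw [mul_one] at a1
    rw [mul_neg, mul_one, hcc] at a2
    rw [← a1, ← a2, Ge3_io]
    group
  rw [h2]
  apply D.gt_ext p
  rw [D.val_mul, D.val_mul, D.val_mul, D.xr_val, D.xr_val, D.cc_val, D.io_w]
  have h3 := D.wm_eq p (D.wr w b) (Units.mk0 c hc0)
  rw [Units.val_inv_eq_inv_val, Units.val_mk0] at h3
  exact h3

theorem Ge3_sq (a : ι) : D.io p a (S.w2 p) * D.io p a (S.w2 p) = D.cc p (D.co a) (-1) := by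
  apply D.gt_ext p
  rw [D.val_mul, D.io_w, D.cc_val, D.nm_sq]

theorem nl_tg (k : ℕ) : ∀ l : List ι, l.length = k → (∀ γ ∈ l, D.Sim D.y0 γ) → D.wl l = 1 →
    D.nl p l ∈ D.Tg p := by
  induction k using Nat.strong_induction_on with
  | _ k ih =>
    intro l hk hl hw
    by_cases hne : l = []
    · rw [hne, Ge3_nl_nil]
      exact (D.Tg p).one_mem
    obtain ⟨l₁, l₂, a, b, e1, e2⟩ := D.exch D.reg_y0 hl hne (by
      intro α hα
      rw [hw, D.wr_one]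
      exact hα)
    have key : D.wl l = D.wl (l₁ ++ l₂) := by
      have h3 := D.w_sg (D.wl l₂) b
      rw [e2] at h3
      have h5 : D.wl ([] : List ι) = 1 := rfl
      rw [e1, Ge3_wl_append, Ge3_wl_cons, Ge3_wl_append, Ge3_wl_cons, h5, mul_one,
        Ge3_wl_append, ← h3]
      have h4 := D.sg_sg b
      calc D.wl l₁ * (D.wl l₂ * D.sg b * (D.wl l₂)⁻¹ * (D.wl l₂ * D.sg b))
          = D.wl l₁ * (D.wl l₂ * (D.sg b * D.sg b)) := by group
        _ = D.wl l₁ * D.wl l₂ := by rw [h4, mul_one]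
    have hlen : l.length = l₁.length + (l₂.length + 1 + 1) := by
      rw [e1]
      simp
    have h6 : D.nl p (l₁ ++ l₂) ∈ D.Tg p := by
      refine ih (l₁ ++ l₂).length ?_ (l₁ ++ l₂) rfl ?_ (by rw [← key, hw])
      · rw [List.length_append]
        omega
      · intro γ hγ
        apply hl
        rw [e1]
        rcases List.mem_append.mp hγ with h5 | h5
        · exact List.mem_append_left _ h5
        · exact List.mem_append_right _ (List.mem_cons_of_mem _ (List.mem_append_left _ h5))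
    obtain ⟨t, ht, ht2⟩ := D.nl_conj (D.isN_nl (p := p) l₂) b
    rw [e2] at ht2
    have h7 := (D.isN_tg (D.isN_sg (p := p) a) ht).1
    have h8 : D.io p a (S.w2 p) * D.io p a (S.w2 p) ∈ D.Tg p := by
      rw [Ge3_sq]
      exact D.cc_torus p _ _
    have h9 := (D.isN_tg (D.isN_nl (p := p) l₁) ((D.Tg p).mul_mem h7 h8)).1
    have h10 : D.nl p l = D.nl p l₁ * (D.io p a (S.w2 p) * t * (D.io p a (S.w2 p))⁻¹ *
        (D.io p a (S.w2 p) * D.io p a (S.w2 p))) * (D.nl p l₁)⁻¹ * D.nl p (l₁ ++ l₂) := by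
      rw [e1, Ge3_nl_append, Ge3_nl_cons, Ge3_nl_append, Ge3_nl_cons, Ge3_nl_nil, mul_one,
        Ge3_nl_append]
      have h11 : D.nl p l₂ * D.io p b (S.w2 p) = t * D.io p a (S.w2 p) * D.nl p l₂ := by
        rw [← ht2]
        group
      rw [h11]
      group
    rw [h10]
    exact (D.Tg p).mul_mem h9 h6

/-- elements of the form `t * nl l` -/
def Ge3_P (n : D.Gt p) : Prop :=
  ∃ t ∈ D.Tg p, ∃ l : List ι, (∀ γ ∈ l, D.Sim D.y0 γ) ∧ n = t * D.nl p l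

theorem Ge3_P_tg {t : D.Gt p} (ht : t ∈ D.Tg p) : D.Ge3_P t :=
  ⟨t, ht, [], by simp, by rw [Ge3_nl_nil, mul_one]⟩

theorem Ge3_P_sim {γ : ι} (h : D.Sim D.y0 γ) : D.Ge3_P (D.io p γ (S.w2 p)) :=
  ⟨1, (D.Tg p).one_mem, [γ], by simpa using h, by rw [Ge3_nl_cons, Ge3_nl_nil, mul_one, one_mul]⟩

theorem Ge3_P_mul {n n' : D.Gt p} (h : D.Ge3_P n) (h' : D.Ge3_P n') : D.Ge3_P (n * n') := by
  obtain ⟨t, ht, l, hl, rfl⟩ := h
  obtain ⟨t', ht', l', hl', rfl⟩ := h'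
  refine ⟨t * (D.nl p l * t' * (D.nl p l)⁻¹), (D.Tg p).mul_mem ht
    (D.isN_tg (D.isN_nl (p := p) l) ht').1, l ++ l', ?_, ?_⟩
  · intro γ hγ
    rcases List.mem_append.mp hγ with h5 | h5
    · exact hl γ h5
    · exact hl' γ h5
  · rw [Ge3_nl_append]
    group

theorem Ge3_inv_eq (γ : ι) : (D.io p γ (S.w2 p))⁻¹ =
    (D.cc p (D.co γ) (-1))⁻¹ * D.io p γ (S.w2 p) := by
  rw [← Ge3_sq]
  group

theorem Ge3_P_nl_inv (l : List ι) : (∀ γ ∈ l, D.Sim D.y0 γ) → D.Ge3_P (D.nl p l)⁻¹ := by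
  induction l with
  | nil =>
    intro _
    rw [Ge3_nl_nil, inv_one]
    exact D.Ge3_P_tg (D.Tg p).one_mem
  | cons c l ih =>
    intro h
    rw [Ge3_nl_cons, _root_.mul_inv_rev]
    refine D.Ge3_P_mul (ih fun γ hγ => h γ (List.mem_cons_of_mem c hγ)) ?_
    rw [Ge3_inv_eq]
    exact D.Ge3_P_mul (D.Ge3_P_tg ((D.Tg p).inv_mem (D.cc_torus p _ _)))
      (D.Ge3_P_sim (h c List.mem_cons_self))

theorem Ge3_P_inv {n : D.Gt p} (h : D.Ge3_P n) : D.Ge3_P n⁻¹ := by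
  obtain ⟨t, ht, l, hl, rfl⟩ := h
  rw [_root_.mul_inv_rev]
  exact D.Ge3_P_mul (D.Ge3_P_nl_inv l hl) (D.Ge3_P_tg ((D.Tg p).inv_mem ht))

theorem Ge3_P_pos (m : ℕ) : ∀ γ : ι, 0 < D.pr γ D.y0 → D.pr γ D.y0 ≤ m →
    D.Ge3_P (D.io p γ (S.w2 p)) := by
  induction m with
  | zero =>
    intro γ h1 h2
    push_cast at h2
    omega
  | succ m ih =>
    intro γ h1 h2
    by_cases hs : D.Sim D.y0 γ
    · exact D.Ge3_P_sim hs
    · obtain ⟨a, ha, ha2⟩ := D.sim_pair D.y0 h1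
      have hne : γ ≠ a := by
        rintro rfl
        exact hs ha
      have hβ : 0 < D.pr (D.rf a γ) D.y0 := D.sim_rf D.reg_y0 ha h1 hne
      have hlt : D.pr (D.rf a γ) D.y0 < D.pr γ D.y0 := by
        rw [D.pr_def, D.rt_rf, D.pa_sub_left, D.pa_smul_left, ← D.pr_def, ← D.pr_def]
        have h5 := mul_pos ha2 ha.1
        omega
      have h3 := ih (D.rf a γ) hβ (by push_cast at h2; omega)
      obtain ⟨t, ht, ht2⟩ := D.nl_conj (D.isN_sg (p := p) a) (D.rf a γ)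
      rw [D.wr_sg, D.rf_rf] at ht2
      have h4 : D.io p γ (S.w2 p) = t⁻¹ * (D.io p a (S.w2 p) * D.io p (D.rf a γ) (S.w2 p) *
          (D.io p a (S.w2 p))⁻¹) := by
        rw [ht2]
        group
      rw [h4]
      exact D.Ge3_P_mul (D.Ge3_P_tg ((D.Tg p).inv_mem ht))
        (D.Ge3_P_mul (D.Ge3_P_mul (D.Ge3_P_sim ha) h3) (D.Ge3_P_inv (D.Ge3_P_sim ha)))

theorem Ge3_P_io (γ : ι) : D.Ge3_P (D.io p γ (S.w2 p)) := by
  have hpos : ∀ γ : ι, 0 < D.pr γ D.y0 → D.Ge3_P (D.io p γ (S.w2 p)) := fun γ h =>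
    D.Ge3_P_pos (D.pr γ D.y0).toNat γ h (by omega)
  rcases lt_or_gt_of_ne (D.reg_y0 γ) with h | h
  · have h1 : 0 < D.pr (D.ng γ) D.y0 := by
      rw [D.pr_ng]
      omega
    obtain ⟨t, ht, ht2⟩ := D.nl_conj (D.isN_sg (p := p) (D.ng γ)) (D.ng γ)
    rw [D.wr_sg, D.rf_self, D.ng_ng] at ht2
    have h4 : D.io p γ (S.w2 p) = t⁻¹ * D.io p (D.ng γ) (S.w2 p) := by
      rw [mul_inv_cancel_right] at ht2
      rw [ht2]
      group
    rw [h4]
    exact D.Ge3_P_mul (D.Ge3_P_tg ((D.Tg p).inv_mem ht)) (hpos _ h1)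
  · exact hpos γ h

theorem nl_gen {n : D.Gt p} (h : n ∈ D.N0 p) : ∃ t ∈ D.Tg p, ∃ l : List ι,
    (∀ γ ∈ l, D.Sim D.y0 γ) ∧ n = t * D.nl p l := by
  show D.Ge3_P n
  unfold N0 at h
  induction h using Subgroup.closure_induction with
  | mem x hx =>
    obtain ⟨γ, rfl⟩ := hx
    exact D.Ge3_P_io γ
  | one => exact D.Ge3_P_tg (D.Tg p).one_mem
  | mul x y _ _ hx hy => exact D.Ge3_P_mul hx hy
  | inv x _ hx => exact D.Ge3_P_inv hx

theorem isN_one_tg {n : D.Gt p} (h : D.IsN 1 n) : n ∈ D.Tg p := by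
  obtain ⟨t, ht, l, hl, e⟩ := D.nl_gen h.1
  have h1 : D.nl p l = t⁻¹ * n := by
    rw [e]
    group
  have h2 : D.IsN 1 (D.nl p l) := by
    refine ⟨(D.isN_nl l).1, ?_⟩
    intro i j hij
    apply h.2 i j
    intro h0
    apply hij
    rw [h1, D.val_mul, Matrix.mul_apply]
    apply Finset.sum_eq_zero
    intro k _
    by_cases hik : i = k
    · subst hik
      rw [h0, mul_zero]
    · rw [D.tg_off ((D.Tg p).inv_mem ht) hik, zero_mul]
  have h3 : D.wl l = 1 := D.isN_unique (D.isN_nl l) h2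
  rw [e]
  exact (D.Tg p).mul_mem ht (D.nl_tg l.length l rfl hl h3)

theorem isN_quot {w : D.W} {n n' : D.Gt p} (h : D.IsN w n) (h' : D.IsN w n') :
    ∃ t ∈ D.Tg p, t ∈ D.Kg p ∧ n = t * n' := by
  have h1 := D.isN_mul h (D.isN_inv h')
  rw [mul_inv_cancel] at h1
  exact ⟨n * n'⁻¹, D.isN_one_tg h1, D.isN_K h1, by group⟩

end Ctx

end

end Pool.Agent.Lib.MP_f399a8_nt.G
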