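import Pool.Agent.Lib.MP_f399a8_ntG.Ge2
import Pool.Agent.Lib.MP_f399a8_ntG.Gb5

/-!
# Bruhat decomposition

`Bb = T ⊔ Ug (Po y0)`; `Bc y` is the set of the products `b * n * u`, `b ∈ Bb`, `IsN w n` for some `w`, `u ∈ Ug (Po y)`.

PROOF.
* `mem_Bb`: the set of products `t * u` is a subgroup since `T` normalizes `Ug S` (`tg_ug`).
* `ob_fac`: `ug_fac` for `S = Po y`, `z = ry γ y` (`reg_ry`): `u = a * b`, `a ∈ Ug (Po y ∩ Po (ry γ y)) = Ug (Ob y γ)` (`ob_eq`), and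
  `Po y ∩ Ne (ry γ y) = {γ}` (`po_ry`), `ug_single`; `xr_K`.
* `ob_io`: `io_norm` with `S = Ob y γ` (`cl_ob`, `abs_ob`, `abs_ob_ng`; `- γ ∉ Ob` since it is negative on `y`).
* `bru_io`: let `x = b n u`, `u = u' * xr γ s` (`ob_fac`).  `x * io γ l = b n u' io γ l'`, `l' = ux s * l`, and `u' io γ l' = io γ l' u''` with
  `u'' = (io γ l')⁻¹ u' io γ l' ∈ Ug (Ob y γ) ⊆ Ug (Po y)` (`ob_io`).  So it is enough to see that `n * io γ l' ∈ Bc y * (stuff)`: precisely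
  `n * io γ l' = b' * n' * xr γ t` with `b' ∈ Bb`, `n' ∈ {n, n * io γ w2}`; and `xr γ t * u'' ∈ Ug (Po y)`.  Let `β = wr w γ`.
  If `β` is positive for `y0`: `l' = !![a, b; c, d]` is `ux r * dg2 a'` (`c = 0`) or `ux r * dg2 a' * w2 * ux t` (`c ≠ 0`), and
  `n * xr γ r * cc (co γ) a' = (n xr γ r n⁻¹) (n cc (co γ) a' n⁻¹) n ∈ Bb * n` (`isN_xr`, `isN_cc`).
  If `β` is negative for `y0` (`D.reg0`): `l' = lo2 r * dg2 a' * ux t` (`a ≠ 0`) or `l' = lo2 r * dg2 a' * w2` (`a = 0`; `a' = b`, `r = d / b`), and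
  `n * xr (-γ) r * cc (co γ) a' ∈ Bb * n` as `wr w (-γ) = -β` is positive for `y0` (`w_ng`).
* `bru_xr`: `α` positive on `y`: `u * xr α s ∈ Ug (Po y)`.  `α = ng β`, `β` positive on `y`: strong induction on `⟨β, y⟩` (a positive integer).
  If `β` is simple for `y` use `io_lo`, `bru_io`.  Otherwise `sim_pair` gives `γ` simple with `0 < ⟨β, γ^∨⟩`; `γ ≠ β`; `β' = rf γ β` is positive
  (`sim_rf`) with `⟨β', y⟩ < ⟨β, y⟩` (`pr_rf_eq`).  `xr (ng β) s = n_γ⁻¹ * xr (ng β') (c s) * n_γ` with `n_γ = io γ w2` (`io_w_xr`, `rf_ng`), so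
  `x * xr (ng β) s = ((x * n_γ⁻¹) * xr (ng β') (c s)) * n_γ`, using `bru_io` twice (`n_γ⁻¹ = io γ w2⁻¹`) and the induction hypothesis.
* `bruhat`: `gt_ind` (`1 = 1 * 1 * 1`).
-/

namespace Pool.Agent.Lib.MP_f399a8_nt.G

open Matrix

noncomputable section

namespace Ctx

variable {ι X Y : Type*} [Finite ι] [AddCommGroup X] [AddCommGroup Y] {N : ℕ} (D : Ctx ι X Y N)

/-- the subgroup generated by the torus and the positive root groups -/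
def Bb (p : ℕ) [Fact p.Prime] : Subgroup (D.Gt p) := D.Tg p ⊔ D.Ug p (D.Po D.y0)

variable {p : ℕ} [Fact p.Prime]

/-- the products `t * u` -/
def Gf1_H (S' : Set ι) : Subgroup (D.Gt p) where
  carrier := {b | ∃ t ∈ D.Tg p, ∃ u ∈ D.Ug p S', b = t * u}
  mul_mem' := by
    rintro _ _ ⟨t, ht, u, hu, rfl⟩ ⟨t', ht', u', hu', rfl⟩
    refine ⟨t * t', mul_mem ht ht', (t'⁻¹ * u * t') * u', mul_mem (D.tg_ug ht' hu).2 hu', ?_⟩
    group
  one_mem' := ⟨1, one_mem _, 1, one_mem _, (one_mul 1).symm⟩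
  inv_mem' := by
    rintro _ ⟨t, ht, u, hu, rfl⟩
    refine ⟨t⁻¹, inv_mem ht, t * u⁻¹ * t⁻¹, (D.tg_ug ht (inv_mem hu)).1, ?_⟩
    group

theorem mem_Bb {b : D.Gt p} : b ∈ D.Bb p ↔ ∃ t ∈ D.Tg p, ∃ u ∈ D.Ug p (D.Po D.y0), b = t * u := by
  constructor
  · intro hb
    have h1 : D.Bb p ≤ D.Gf1_H (D.Po D.y0) := by
      refine sup_le ?_ ?_
      · intro t ht
        exact ⟨t, ht, 1, one_mem _, (mul_one t).symm⟩
      · intro u hu
        exact ⟨1, one_mem _, u, hu, (one_mul u).symm⟩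
    exact h1 hb
  · rintro ⟨t, ht, u, hu, rfl⟩
    exact Subgroup.mul_mem_sup ht hu

theorem ob_fac {y : Y} {γ : ι} (hy : D.Reg y) (h : D.Sim y γ) {u : D.Gt p}
    (hu : u ∈ D.Ug p (D.Po y)) : ∃ u' ∈ D.Ug p (D.Ob y γ), ∃ s : ℚ_[p], u = u' * D.xr p γ s ∧
      (u ∈ D.Kg p → u' ∈ D.Kg p ∧ ‖s‖ ≤ 1) := by
  obtain ⟨a, ha, b, hb, hab, hK, -⟩ := D.ug_fac (D.cl_po y) (fun α h => h) (z := D.ry γ y)
    (fun α _ => D.reg_ry hy γ α) hu
  have h1 : D.Po y ∩ D.Ne (D.ry γ y) ⊆ {γ} := by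
    rintro α ⟨hα, hα'⟩
    by_contra hne
    have h2 : 0 < D.pr α (D.ry γ y) := (D.po_ry hy h α).2 (Or.inl ⟨hα, hne⟩)
    have h3 : D.pr α (D.ry γ y) < 0 := hα'
    omega
  obtain ⟨s, hs⟩ := D.ug_single (D.ug_mono h1 hb)
  refine ⟨a, ?_, s, by rw [hab, hs], fun huK => ?_⟩
  · rw [D.ob_eq hy h]
    exact ha
  · obtain ⟨h2, h3⟩ := hK huK
    refine ⟨h2, ?_⟩
    rw [hs] at h3
    exact (D.xr_K p).1 h3

theorem ob_io {y : Y} {γ : ι} (hy : D.Reg y) (h : D.Sim y γ) (l : SLp p 2) {x : D.Gt p}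
    (hx : x ∈ D.Ug p (D.Ob y γ)) : D.io p γ l * x * (D.io p γ l)⁻¹ ∈ D.Ug p (D.Ob y γ) ∧
      (D.io p γ l)⁻¹ * x * D.io p γ l ∈ D.Ug p (D.Ob y γ) := by
  refine D.io_norm (D.cl_ob hy h) (fun α hα => hα.1) (D.abs_ob hy h) (D.abs_ob_ng hy h) ?_ ?_ l hx
  · exact fun h1 => h1.2 rfl
  · intro h1
    have h2 : 0 < D.pr (D.ng γ) y := h1.1
    rw [D.pr_ng] at h2
    have h3 := h.1
    omega

/-- the products `b * n * u` -/
def Bc (p : ℕ) [Fact p.Prime] (y : Y) : Set (D.Gt p) :=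
  {x | ∃ b ∈ D.Bb p, ∃ (w : D.W) (n : D.Gt p), D.IsN w n ∧ ∃ u ∈ D.Ug p (D.Po y), x = b * n * u}

theorem Gf1_up (l : SLp p 2) : ∃ (r : ℚ_[p]) (a : ℚ_[p]ˣ) (n2 : SLp p 2) (t : ℚ_[p]),
    (n2 = 1 ∨ n2 = S.w2 p) ∧ l = ux r * dg2 a * n2 * ux t := by
  have hdet : l.1 0 0 * l.1 1 1 - l.1 0 1 * l.1 1 0 = 1 := by
    have h := l.2
    rwa [Matrix.det_fin_two] at h
  have hl : l.1 = !![l.1 0 0, l.1 0 1; l.1 1 0, l.1 1 1] := Matrix.eta_fin_two _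
  by_cases hc : l.1 1 0 = 0
  · have hd : l.1 1 1 ≠ 0 := by
      intro h0
      rw [hc, h0] at hdet
      simp at hdet
    have ha : l.1 0 0 = (l.1 1 1)⁻¹ := by
      rw [hc, mul_zero, sub_zero] at hdet
      exact eq_inv_of_mul_eq_one_left hdet
    refine ⟨l.1 0 1 * (l.1 1 1)⁻¹, (Units.mk0 _ hd)⁻¹, 1, 0, Or.inl rfl, ?_⟩
    apply Subtype.ext
    have h1 : ((ux (l.1 0 1 * (l.1 1 1)⁻¹) * dg2 (Units.mk0 _ hd)⁻¹ * 1 * ux 0 : SLp p 2)).1 =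
      (ux (l.1 0 1 * (l.1 1 1)⁻¹)).1 * (dg2 (Units.mk0 _ hd)⁻¹).1 * 1 *
        (ux (0 : ℚ_[p])).1 := rfl
    rw [h1]
    refine hl.trans ?_
    ext i j
    fin_cases i <;> fin_cases j <;> simp [ux, dg2, hc, ha, hd]
  · refine ⟨l.1 0 0 / l.1 1 0, (Units.mk0 _ (neg_ne_zero.2 hc))⁻¹, S.w2 p, l.1 1 1 / l.1 1 0, Or.inr rfl, ?_⟩
    apply Subtype.ext
    have h1 : ((ux (l.1 0 0 / l.1 1 0) * dg2 (Units.mk0 _ (neg_ne_zero.2 hc))⁻¹ * S.w2 p *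
        ux (l.1 1 1 / l.1 1 0) : SLp p 2)).1 =
      (ux (l.1 0 0 / l.1 1 0)).1 * (dg2 (Units.mk0 _ (neg_ne_zero.2 hc))⁻¹).1 *
        (S.w2 p).1 * (ux (l.1 1 1 / l.1 1 0)).1 := rfl
    rw [h1]
    refine hl.trans ?_
    ext i j
    fin_cases i <;> fin_cases j
    · simp [ux, dg2, S.w2]
      field_simp
    · simp [ux, dg2, S.w2]
      field_simp
      linear_combination -hdet
    · simp [ux, dg2, S.w2]
    · simp [ux, dg2, S.w2]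
      field_simp

theorem Gf1_lo (l : SLp p 2) : ∃ (r : ℚ_[p]) (a : ℚ_[p]ˣ) (n2 : SLp p 2) (t : ℚ_[p]),
    (n2 = 1 ∨ n2 = S.w2 p) ∧ l = S.lo2 r * dg2 a * n2 * ux t := by
  have hdet : l.1 0 0 * l.1 1 1 - l.1 0 1 * l.1 1 0 = 1 := by
    have h := l.2
    rwa [Matrix.det_fin_two] at h
  have hl : l.1 = !![l.1 0 0, l.1 0 1; l.1 1 0, l.1 1 1] := Matrix.eta_fin_two _
  by_cases ha : l.1 0 0 = 0
  · have hb : l.1 0 1 ≠ 0 := by
      intro h0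
      rw [ha, h0] at hdet
      simp at hdet
    have hc : l.1 1 0 = -(l.1 0 1)⁻¹ := by
      rw [ha, zero_mul, zero_sub] at hdet
      have h2 : -(l.1 1 0) * l.1 0 1 = 1 := by linear_combination hdet
      have h3 := eq_inv_of_mul_eq_one_left h2
      rw [← h3, neg_neg]
    refine ⟨l.1 1 1 / l.1 0 1, Units.mk0 _ hb, S.w2 p, 0, Or.inr rfl, ?_⟩
    apply Subtype.ext
    have h1 : ((S.lo2 (l.1 1 1 / l.1 0 1) * dg2 (Units.mk0 _ hb) * S.w2 p * ux 0 : SLp p 2)).1 =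
      (S.lo2 (l.1 1 1 / l.1 0 1)).1 * (dg2 (Units.mk0 _ hb)).1 * (S.w2 p).1 *
        (ux (0 : ℚ_[p])).1 := rfl
    rw [h1]
    refine hl.trans ?_
    ext i j
    fin_cases i <;> fin_cases j <;> simp [ux, dg2, S.w2, S.lo2, hc, ha, hb]
  · refine ⟨l.1 1 0 / l.1 0 0, Units.mk0 _ ha, 1, l.1 0 1 / l.1 0 0, Or.inl rfl, ?_⟩
    apply Subtype.ext
    have h1 : ((S.lo2 (l.1 1 0 / l.1 0 0) * dg2 (Units.mk0 _ ha) * 1 *
        ux (l.1 0 1 / l.1 0 0) : SLp p 2)).1 =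
      (S.lo2 (l.1 1 0 / l.1 0 0)).1 * (dg2 (Units.mk0 _ ha)).1 * 1 *
        (ux (l.1 0 1 / l.1 0 0)).1 := rfl
    rw [h1]
    refine hl.trans ?_
    ext i j
    fin_cases i <;> fin_cases j
    · simp [ux, dg2, S.lo2]
    · simp [ux, dg2, S.lo2]
      field_simp
    · simp [ux, dg2, S.lo2]
      field_simp
    · simp [ux, dg2, S.lo2]
      field_simp
      linear_combination hdet

theorem Gf1_n {w : D.W} {n : D.Gt p} (hn : D.IsN w n) (γ : ι) (l : SLp p 2) :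
    ∃ b ∈ D.Bb p, ∃ (w' : D.W) (n' : D.Gt p), D.IsN w' n' ∧ ∃ t : ℚ_[p],
      n * D.io p γ l = b * n' * D.xr p γ t := by
  have key : ∀ (δ : ι) (x : SLp p 2) (r : ℚ_[p]) (a : ℚ_[p]ˣ) (n2 : SLp p 2) (t : ℚ_[p]),
      D.io p γ x = D.xr p δ r → 0 < D.pr (D.wr w δ) D.y0 → (n2 = 1 ∨ n2 = S.w2 p) →
      l = x * dg2 a * n2 * ux t → ∃ b ∈ D.Bb p, ∃ (w' : D.W) (n' : D.Gt p), D.IsN w' n' ∧
      ∃ t : ℚ_[p], n * D.io p γ l = b * n' * D.xr p γ t := by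
    intro δ x r a n2 t hx hδ hn2 hl
    obtain ⟨c, -, -, hc⟩ := D.isN_xr hn δ
    have h2 := D.isN_cc hn (D.co γ) a
    have h3 : ∃ w' : D.W, D.IsN w' (n * D.io p γ n2) := by
      rcases hn2 with rfl | rfl
      · exact ⟨w, by rw [map_one, mul_one]; exact hn⟩
      · exact ⟨_, D.isN_mul hn (D.isN_sg γ)⟩
    obtain ⟨w', hw'⟩ := h3
    refine ⟨(n * D.xr p δ r * n⁻¹) * (n * D.cc p (D.co γ) a * n⁻¹), ?_, w', _, hw', t, ?_⟩
    · refine mul_mem ?_ ?_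
      · rw [hc]
        exact Subgroup.mem_sup_right (D.xr_mem hδ _)
      · rw [h2]
        exact Subgroup.mem_sup_left (D.cc_torus p _ _)
    · rw [hl, map_mul, map_mul, map_mul, hx, D.io_dg, D.io_ux]
      group
  by_cases hβ : 0 < D.pr (D.wr w γ) D.y0
  · obtain ⟨r, a, n2, t, hn2, hl⟩ := Gf1_up l
    exact key γ (ux r) r a n2 t (D.io_ux p γ r) hβ hn2 hl
  · obtain ⟨r, a, n2, t, hn2, hl⟩ := Gf1_lo l
    refine key (D.ng γ) (S.lo2 r) r a n2 t (D.io_lo p γ r) ?_ hn2 hl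
    rw [D.w_ng, D.pr_ng]
    have h1 : D.pr (D.wr w γ) D.y0 ≠ 0 := D.reg0 _
    omega

theorem bru_io {y : Y} {γ : ι} (hy : D.Reg y) (h : D.Sim y γ) (l : SLp p 2) {x : D.Gt p}
    (hx : x ∈ D.Bc p y) : x * D.io p γ l ∈ D.Bc p y := by
  obtain ⟨b, hb, w, n, hn, u, hu, rfl⟩ := hx
  obtain ⟨u', hu', s, rfl, -⟩ := D.ob_fac hy h hu
  obtain ⟨b', hb', w', n', hn', t, h1⟩ := D.Gf1_n hn γ (ux s * l)
  have h2 := (D.ob_io hy h (ux s * l) hu').2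
  refine ⟨b * b', mul_mem hb hb', w', n', hn',
    D.xr p γ t * ((D.io p γ (ux s * l))⁻¹ * u' * D.io p γ (ux s * l)), ?_, ?_⟩
  · refine mul_mem (D.xr_mem h.1 t) (D.ug_mono (fun α hα => hα.1) h2)
  · have h3 : D.io p γ (ux s * l) = D.xr p γ s * D.io p γ l := by
      rw [map_mul, D.io_ux]
    calc b * n * (u' * D.xr p γ s) * D.io p γ l
        = b * (n * D.io p γ (ux s * l)) *
          ((D.io p γ (ux s * l))⁻¹ * u' * D.io p γ (ux s * l)) := by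
          rw [h3]
          group
      _ = _ := by
          rw [h1]
          group

theorem Gf1_ng {y : Y} (hy : D.Reg y) (k : ℕ) : ∀ β : ι, 0 < D.pr β y → D.pr β y ≤ k →
    ∀ (s : ℚ_[p]) (x : D.Gt p), x ∈ D.Bc p y → x * D.xr p (D.ng β) s ∈ D.Bc p y := by
  induction k with
  | zero =>
    intro β h1 h2
    push_cast at h2
    omega
  | succ k ih =>
    intro β hβ hk s x hx
    by_cases hs : D.Sim y β
    · rw [← D.io_lo p β s]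
      exact D.bru_io hy hs _ hx
    · obtain ⟨γ, hγ, hβγ⟩ := D.sim_pair y hβ
      have hne : β ≠ γ := by
        rintro rfl
        exact hs hγ
      have h1 := D.sim_rf hy hγ hβ hne
      have h2 : D.pr (D.rf γ β) y ≤ k := by
        rw [D.pr_rf_eq]
        have h3 : 0 < D.pr β (D.co γ) * D.pr γ y := mul_pos hβγ hγ.1
        push_cast at hk
        omega
      obtain ⟨c, -, hc⟩ := D.io_w_xr p γ (D.ng β)
      have h4 := hc s
      rw [D.rf_ng] at h4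
      have h5 : x * D.xr p (D.ng β) s = ((x * D.io p γ (S.w2 p)⁻¹) *
          D.xr p (D.ng (D.rf γ β)) (c * s)) * D.io p γ (S.w2 p) := by
        rw [← h4, map_inv]
        group
      rw [h5]
      exact D.bru_io hy hγ _ (ih _ h1 h2 _ _ (D.bru_io hy hγ _ hx))

theorem bru_xr {y : Y} (hy : D.Reg y) (α : ι) (s : ℚ_[p]) {x : D.Gt p}
    (hx : x ∈ D.Bc p y) : x * D.xr p α s ∈ D.Bc p y := by
  rcases lt_or_ge 0 (D.pr α y) with h | h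
  · obtain ⟨b, hb, w, n, hn, u, hu, rfl⟩ := hx
    exact ⟨b, hb, w, n, hn, u * D.xr p α s, mul_mem hu (D.xr_mem h s), mul_assoc _ _ _⟩
  · have h0 := hy α
    have h1 : 0 < D.pr (D.ng α) y := by
      rw [D.pr_ng]
      omega
    have h2 := D.Gf1_ng hy (D.pr (D.ng α) y).toNat (D.ng α) h1
      (by rw [Int.toNat_of_nonneg h1.le]) s x hx
    rwa [D.ng_ng] at h2

theorem bruhat {y : Y} (hy : D.Reg y) (x : D.Gt p) : ∃ b ∈ D.Bb p, ∃ (w : D.W) (n : D.Gt p),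
    D.IsN w n ∧ ∃ u ∈ D.Ug p (D.Po y), x = b * n * u := by
  have h : x ∈ D.Bc p y := by
    refine D.gt_ind p (q := fun x => x ∈ D.Bc p y) ?_ (fun x α s hx => D.bru_xr hy α s hx) x
    exact ⟨1, one_mem _, 1, 1, D.isN_one, 1, one_mem _, by group⟩
  exact h

end Ctx

end

end Pool.Agent.Lib.MP_f399a8_nt.G
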