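import Pool.Agent.Lib.MP_f399a8_ntG.Gf1
import Pool.Agent.Lib.MP_f399a8_ntG.Ge3

/-!
# The upper triangular elements are `T U`; peeling off simple roots

PROOF.
* `po_lt`: a nonidentity entry `(i, j)` of `u ∈ Ug (Po y0)` has `⟨wt j, y0⟩ < ⟨wt i, y0⟩` (`ug_supp_y`), so `i < j` (`D.sorted`); so `u ∈ Bg`.
  For `u ∈ Ug (Ne y0)` it has `j < i` (`ug_supp_y` with `-y0`): `u.1 ∈ S.U p Lo`.
* `bg_iff`: (⇐) clear.  (⇒) `x = b n u` by `bruhat` for `y0`; `n = b⁻¹ x u⁻¹ ∈ Bg`.  For every `j` there is `i` with `n i j ≠ 0`, so `i ≤ j`,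
  and by `D.sorted` not `⟨wt i, y0⟩ < ⟨wt j, y0⟩` (this would give `j < i`), and `wt i = w (wt j)`.  So `⟨wt j, y0⟩ ≤ ⟨w (wt j), y0⟩` for all `j`.
  For every weight vector `j` and `k : ℕ` the element `w^k (wt j)` is a weight (`isN_wt`), so `⟨w^k (wt j), y0⟩ ≤ ⟨w^(k+1) (wt j), y0⟩`;
  `w` has finite order (`w_finite`), so all are equal: `⟨wt j, y0⟩ = ⟨w (wt j), y0⟩ = ⟨wt j, w⁻¹ y0⟩` for all `j`, so `w⁻¹ y0 = y0` (`wt_ext`, `pa_ext_y`)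
  and `w = 1` (`w_stab_y`), `n ∈ Tg` (`isN_one_tg`), `x ∈ Bb`.
* `bg_unip`: `x = t * u`, the diagonal of `x` is the one of `t` (`t` diagonal, `ug_diag`), so `t = 1` (`tg_ext`).
* `bg_T`: the diagonal entries of `b = t * u`.
* `dr_peel`: `S = Dr (ry γ y)`, `γ` simple for `y`, positive for `y0`.  `-γ` is simple for `y' = ry γ y` (`sim_ng_ry`), so `ob_fac` for
  `y'`, `-γ`: `d = u' * xr (ng γ) z`, `u' ∈ Ug (Ob y' (ng γ))`, and `Ob y' (ng γ) = Po y' ∩ Po y`.  `u' = d * xr (ng γ) (-z) ∈ Ug (Ne y0)`.  So by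
  `ug_inter` (`S = Ob y' (ng γ)`, `z = -y0`) `u' ∈ Ug (Ob y' (ng γ) ∩ Ne y0)`, and this set is `Dr y` (`dr_ry`).
* `fr_peel`: similarly, `f ∈ Ug (Fr y)`: `Fr y ⊆ Po (-y)`; `-y' = ry γ (-y)`; `-γ` is simple for `-y`
  (`Sim y γ → Sim (-y) (ng γ)`: `Ne`/`Po` are interchanged), `ob_fac` for `-y`, `-γ`: `f = u' * xr (ng γ) z` with
  `u' ∈ Ug (Ob (-y) (ng γ))`, then `ug_inter` with `-y0`; `Ob (-y) (ng γ) ∩ Ne y0 = Fr (ry γ y)` (`fr_ry`).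
* `dr_mul`, `fr_mul`: `ug_mono` (`dr_ry`, `fr_ry`, `ng_mem_fr`) and `xr_mem`.
* `dr_mul_K`: `d * xr (-γ) z ∈ K`: by the integrality statement of `dr_peel` and uniqueness (`ug_fac_unique` with `z = y`:
  `Dr y` is positive on `y`, `-γ` negative).  `xr (-γ) z * d = (xr (-γ) z * d * xr (-γ) (-z)) * xr (-γ) z` with
  `xr (-γ) z * d * xr (-γ) (-z) ∈ Ug (Dr y)` (`ug_norm`, `abs_dr`).
-/

namespace Pool.Agent.Lib.MP_f399a8_nt.G

open Matrix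

noncomputable section

namespace Ctx

variable {ι X Y : Type*} [Finite ι] [AddCommGroup X] [AddCommGroup Y] {N : ℕ} (D : Ctx ι X Y N)
  {p : ℕ} [Fact p.Prime]

theorem po_bg {S' : Set ι} (h : ∀ α ∈ S', 0 < D.pr α D.y0) {u : D.Gt p} (hu : u ∈ D.Ug p S') :
    u ∈ D.Bg p := by
  rw [D.mem_Bg]
  intro i j hij
  by_contra hne
  have h1 : u.1.1 i j ≠ (1 : Matrix (Fin N) (Fin N) ℚ_[p]) i j := by
    rw [Matrix.one_apply_ne hij.ne']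
    exact hne
  exact lt_asymm hij (D.sorted i j (D.ug_supp_y h hu h1))

theorem ne_lo {S' : Set ι} (h : ∀ α ∈ S', D.pr α D.y0 < 0) {u : D.Gt p} (hu : u ∈ D.Ug p S') :
    u.1 ∈ S.U p (S.Lo : Fin N → Fin N → Prop) := by
  intro i j hij
  by_contra hne
  have h1 : ∀ α ∈ S', 0 < D.pr α (-D.y0) := by
    intro α hα
    rw [D.pr_neg]
    have := h α hα
    omega
  have h2 := D.ug_supp_y h1 hu hne
  have h3 : D.wp i D.y0 < D.wp j D.y0 := by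
    rw [D.wp_def, D.wp_def, D.pa_neg_right, D.pa_neg_right] at h2
    rw [D.wp_def, D.wp_def]
    omega
  exact hij (D.sorted j i h3)

theorem Gf2_col (n : D.Gt p) (j : Fin N) : ∃ i, n.1.1 i j ≠ 0 := by
  by_contra hne
  have h0 : ∀ i, n.1.1 i j = 0 := fun i => by
    by_contra h
    exact hne ⟨i, h⟩
  have h1 := congrFun (congrFun (D.val_inv p n).1 j) j
  rw [Matrix.mul_apply, Matrix.one_apply_eq] at h1
  rw [Finset.sum_eq_zero (fun k _ => by rw [h0 k, mul_zero])] at h1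
  exact zero_ne_one h1

theorem bg_iff {x : D.Gt p} : x ∈ D.Bg p ↔ x ∈ D.Bb p := by
  have hle : ∀ b : D.Gt p, b ∈ D.Bb p → b ∈ D.Bg p := by
    intro b hb
    obtain ⟨t, ht, u, hu, rfl⟩ := D.mem_Bb.1 hb
    exact mul_mem (D.tg_bg ht) (D.po_bg (fun α hα => hα) hu)
  refine ⟨fun hx => ?_, hle x⟩
  obtain ⟨b, hb, w, n, hn, u, hu, hxe⟩ := D.bruhat D.reg_y0 x
  have hnB : n ∈ D.Bg p := by
    have h1 : n = b⁻¹ * x * u⁻¹ := by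
      rw [hxe]
      group
    rw [h1]
    exact mul_mem (mul_mem (inv_mem (hle b hb)) hx) (inv_mem (D.po_bg (fun α hα => hα) hu))
  have h0 : ∀ j, D.pa (D.wt j) D.y0 ≤ D.pa (D.wx w (D.wt j)) D.y0 := by
    intro j
    obtain ⟨i, hi⟩ := D.Gf2_col n j
    have h1 : i ≤ j := by
      by_contra hlt
      exact hi ((D.mem_Bg p).1 hnB i j (not_le.1 hlt))
    have h2 := hn.2 i j hi
    rw [← h2]
    by_contra hlt
    have h3 : j < i := D.sorted j i (not_le.1 hlt)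
    exact absurd h3 (not_lt.2 h1)
  have h1 : ∀ j, D.pa (D.wx w (D.wt j)) D.y0 = D.pa (D.wt j) D.y0 := by
    intro j
    have hmono : Monotone fun k : ℕ => D.pa (D.wx (w ^ k) (D.wt j)) D.y0 := by
      refine monotone_nat_of_le_succ fun k => ?_
      obtain ⟨i, hi⟩ := D.isN_wt (w ^ k) j
      show D.pa (D.wx (w ^ k) (D.wt j)) D.y0 ≤ D.pa (D.wx (w ^ (k + 1)) (D.wt j)) D.y0
      rw [pow_succ', D.wx_mul, ← hi]
      exact h0 i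
    have hf : Finite D.W := D.w_finite
    have ho : 0 < orderOf w := (isOfFinOrder_of_finite w).orderOf_pos
    have h2 := hmono (Nat.succ_le_of_lt ho)
    have h3 : D.pa (D.wx (w ^ 1) (D.wt j)) D.y0 ≤ D.pa (D.wx (w ^ orderOf w) (D.wt j)) D.y0 := h2
    rw [pow_one, pow_orderOf_eq_one, D.wx_one] at h3
    exact le_antisymm h3 (h0 j)
  have h2 : D.wy w⁻¹ D.y0 = D.y0 := by
    refine D.pa_ext_y fun x' => ?_
    refine D.wt_ind (q := fun x' => D.pa x' (D.wy w⁻¹ D.y0) = D.pa x' D.y0) ?_ ?_ ?_ ?_ x'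
    · rw [D.pa_zero_left, D.pa_zero_left]
    · intro j
      rw [← D.w_pa']
      exact h1 j
    · intro a a' ha ha'
      rw [D.pa_add_left, D.pa_add_left, ha, ha']
    · intro a ha
      rw [D.pa_neg_left, D.pa_neg_left, ha]
  have h3 : w = 1 := by
    have h4 := D.w_stab_y D.reg_y0 h2
    exact inv_eq_one.1 h4
  rw [h3] at hn
  have h4 := D.isN_one_tg hn
  rw [hxe]
  exact mul_mem (mul_mem hb (Subgroup.mem_sup_left h4)) (Subgroup.mem_sup_right hu)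

theorem bg_fac {x : D.Gt p} (hx : x ∈ D.Bg p) :
    ∃ t ∈ D.Tg p, ∃ u ∈ D.Ug p (D.Po D.y0), x = t * u := by
  exact D.mem_Bb.1 (D.bg_iff.1 hx)

theorem bg_diag {x t u : D.Gt p} (ht : t ∈ D.Tg p) (hu : u ∈ D.Ug p (D.Po D.y0)) (hx : x = t * u)
    (i : Fin N) : x.1.1 i i = t.1.1 i i := by
  rw [hx, D.val_mul, Matrix.mul_apply, Finset.sum_eq_single i]
  · rw [D.ug_diag (y := D.y0) (fun α hα => hα) hu i, mul_one]
  · intro k _ hk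
    rw [D.tg_off ht hk.symm, zero_mul]
  · exact fun h => absurd (Finset.mem_univ i) h

theorem bg_unip {x : D.Gt p} (hx : x ∈ D.Bg p) (h : ∀ i, x.1.1 i i = 1) :
    x ∈ D.Ug p (D.Po D.y0) := by
  obtain ⟨t, ht, u, hu, hxe⟩ := D.bg_fac hx
  have h1 : t = 1 := by
    refine D.tg_ext ht (one_mem _) fun i => ?_
    rw [← D.bg_diag ht hu hxe i, h i, D.val_one, Matrix.one_apply_eq]
  rw [hxe, h1, one_mul]
  exact hu

variable {y : Y} {γ : ι}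

theorem dr_mul (hy : D.Reg y) (h : D.Sim y γ) (h0 : 0 < D.pr γ D.y0) {d : D.Gt p}
    (hd : d ∈ D.Ug p (D.Dr y)) (z : ℚ_[p]) : d * D.xr p (D.ng γ) z ∈ D.Ug p (D.Dr (D.ry γ y)) := by
  refine mul_mem (D.ug_mono ?_ hd) (D.xr_mem ?_ z)
  · exact fun α hα => (D.dr_ry hy h h0 α).2 (Or.inl hα)
  · exact (D.dr_ry hy h h0 _).2 (Or.inr rfl)

theorem Gf2_ne : D.Ne D.y0 = D.Po (-D.y0) := by
  ext α
  show D.pr α D.y0 < 0 ↔ 0 < D.pr α (-D.y0)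
  rw [D.pr_neg]
  omega

theorem dr_peel (hy : D.Reg y) (h : D.Sim y γ) (h0 : 0 < D.pr γ D.y0) {d : D.Gt p}
    (hd : d ∈ D.Ug p (D.Dr (D.ry γ y))) : ∃ d' ∈ D.Ug p (D.Dr y), ∃ z : ℚ_[p],
      d = d' * D.xr p (D.ng γ) z ∧ (d ∈ D.Kg p → d' ∈ D.Kg p ∧ ‖z‖ ≤ 1) := by
  have hy' : D.Reg (D.ry γ y) := D.reg_ry hy γ
  have h' : D.Sim (D.ry γ y) (D.ng γ) := D.sim_ng_ry hy h
  have hng : D.ng γ ∈ D.Ne D.y0 := by
    show D.pr (D.ng γ) D.y0 < 0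
    rw [D.pr_ng]
    omega
  obtain ⟨u', hu', z, hdz, hK⟩ := D.ob_fac hy' h' (D.ug_mono (fun α hα => hα.1) hd)
  have hNe : D.Ne D.y0 = D.Po (-D.y0) := D.Gf2_ne
  have h1 : u' ∈ D.Ug p (D.Po (-D.y0)) := by
    have h2 : u' = d * (D.xr p (D.ng γ) z)⁻¹ := by
      rw [hdz]
      group
    rw [h2, ← hNe]
    exact mul_mem (D.ug_mono (fun α hα => hα.2) hd) (inv_mem (D.xr_mem hng z))
  have h2 := D.ug_inter (D.cl_ob hy' h') (fun α hα => hα.1)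
    (fun α _ => D.reg_neg D.reg_y0 α) hu' h1
  refine ⟨u', D.ug_mono ?_ h2, z, hdz, hK⟩
  rintro α ⟨⟨h3, h4⟩, h5⟩
  rw [← hNe] at h5
  have h6 : α ∈ D.Dr (D.ry γ y) := ⟨h3, h5⟩
  rcases (D.dr_ry hy h h0 α).1 h6 with h7 | h7
  · exact h7
  · exact absurd h7 h4

theorem dr_mul_K (hy : D.Reg y) (h : D.Sim y γ) (h0 : 0 < D.pr γ D.y0) {d : D.Gt p}
    (hd : d ∈ D.Ug p (D.Dr y)) (z : ℚ_[p]) :
    (d * D.xr p (D.ng γ) z ∈ D.Kg p ↔ (d ∈ D.Kg p ∧ ‖z‖ ≤ 1)) ∧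
    (D.xr p (D.ng γ) z * d ∈ D.Kg p ↔ (d ∈ D.Kg p ∧ ‖z‖ ≤ 1)) := by
  have hng : ∀ α ∈ ({D.ng γ} : Set ι), D.pr α y < 0 := by
    rintro α rfl
    rw [D.pr_ng]
    have := h.1
    omega
  have key : ∀ d' ∈ D.Ug p (D.Dr y),
      (d' * D.xr p (D.ng γ) z ∈ D.Kg p ↔ (d' ∈ D.Kg p ∧ ‖z‖ ≤ 1)) := by
    intro d' hd'
    refine ⟨fun hK => ?_, fun hK => mul_mem hK.1 ((D.xr_K p).2 hK.2)⟩
    obtain ⟨d'', hd'', z', he, hK'⟩ := D.dr_peel hy h h0 (D.dr_mul hy h h0 hd' z)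
    have hm : D.ng γ ∈ ({D.ng γ} : Set ι) := Set.mem_singleton _
    have h5 : D.xr p (D.ng γ) z ∈ D.Ug p ({D.ng γ} : Set ι) := D.xr_mem hm z
    have h6 : D.xr p (D.ng γ) z' ∈ D.Ug p ({D.ng γ} : Set ι) := D.xr_mem hm z'
    have h7 : ∀ α ∈ D.Dr y, 0 < D.pr α y := fun α hα => hα.1
    obtain ⟨h1, h2⟩ := D.ug_fac_unique h7 hng hd' hd'' h5 h6 he
    obtain ⟨h3, h4⟩ := hK' hK
    rw [h1]
    refine ⟨h3, ?_⟩
    rw [D.xr_inj p h2]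
    exact h4
  refine ⟨key d hd, ?_⟩
  have h1 : D.xr p (D.ng γ) z * d * (D.xr p (D.ng γ) z)⁻¹ ∈ D.Ug p (D.Dr y) := by
    refine D.ug_norm (D.cl_Dr y) (fun α hα => hα.1) (D.abs_dr hy h h0) ?_ z hd
    rw [D.ng_ng]
    intro h1
    have h2 : D.pr γ D.y0 < 0 := h1.2
    omega
  have h2 := key _ h1
  have h3 : D.xr p (D.ng γ) z * d * (D.xr p (D.ng γ) z)⁻¹ * D.xr p (D.ng γ) z =
    D.xr p (D.ng γ) z * d := by group
  rw [h3] at h2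
  rw [h2]
  refine ⟨fun ⟨h4, h5⟩ => ⟨?_, h5⟩, fun ⟨h4, h5⟩ => ⟨?_, h5⟩⟩
  · have hz := (D.xr_K p (α := D.ng γ)).2 h5
    have h6 : d = (D.xr p (D.ng γ) z)⁻¹ * (D.xr p (D.ng γ) z * d * (D.xr p (D.ng γ) z)⁻¹) *
      D.xr p (D.ng γ) z := by group
    rw [h6]
    exact mul_mem (mul_mem (inv_mem hz) h4) hz
  · have hz := (D.xr_K p (α := D.ng γ)).2 h5
    exact mul_mem (mul_mem hz h4) (inv_mem hz)

theorem fr_mul (hy : D.Reg y) (h : D.Sim y γ) (h0 : 0 < D.pr γ D.y0) {f : D.Gt p}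
    (hf : f ∈ D.Ug p (D.Fr (D.ry γ y))) (z : ℚ_[p]) :
    f * D.xr p (D.ng γ) z ∈ D.Ug p (D.Fr y) := by
  refine mul_mem (D.ug_mono ?_ hf) (D.xr_mem (D.ng_mem_fr h h0) z)
  exact fun α hα => ((D.fr_ry hy h h0 α).1 hα).1

theorem fr_peel (hy : D.Reg y) (h : D.Sim y γ) (h0 : 0 < D.pr γ D.y0) {f : D.Gt p}
    (hf : f ∈ D.Ug p (D.Fr y)) : ∃ f' ∈ D.Ug p (D.Fr (D.ry γ y)), ∃ z : ℚ_[p],
      f = f' * D.xr p (D.ng γ) z := by
  have hy' : D.Reg (-y) := D.reg_neg hy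
  have h' : D.Sim (-y) (D.ng γ) := by
    refine ⟨?_, fun α β hα hβ he => ?_⟩
    · rw [D.pr_ng, D.pr_neg, neg_neg]
      exact h.1
    · refine h.2 (D.ng α) (D.ng β) ?_ ?_ ?_
      · rw [D.pr_ng, ← D.pr_neg]
        exact hα
      · rw [D.pr_ng, ← D.pr_neg]
        exact hβ
      · rw [D.rt_ng, D.rt_ng]
        rw [D.rt_ng] at he
        rw [← neg_add, ← he, neg_neg]
  have hng : D.ng γ ∈ D.Ne D.y0 := by
    show D.pr (D.ng γ) D.y0 < 0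
    rw [D.pr_ng]
    omega
  have hFr : D.Fr y ⊆ D.Po (-y) := by
    intro α hα
    show 0 < D.pr α (-y)
    rw [D.pr_neg]
    have h1 : D.pr α y < 0 := hα.1
    omega
  obtain ⟨u', hu', z, hdz, -⟩ := D.ob_fac hy' h' (D.ug_mono hFr hf)
  have hNe : D.Ne D.y0 = D.Po (-D.y0) := D.Gf2_ne
  have h1 : u' ∈ D.Ug p (D.Po (-D.y0)) := by
    have h2 : u' = f * (D.xr p (D.ng γ) z)⁻¹ := by
      rw [hdz]
      group
    rw [h2, ← hNe]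
    exact mul_mem (D.ug_mono (fun α hα => hα.2) hf) (inv_mem (D.xr_mem hng z))
  have h2 := D.ug_inter (D.cl_ob hy' h') (fun α hα => hα.1)
    (fun α _ => D.reg_neg D.reg_y0 α) hu' h1
  refine ⟨u', D.ug_mono ?_ h2, z, hdz⟩
  rintro α ⟨⟨h3, h4⟩, h5⟩
  rw [← hNe] at h5
  refine (D.fr_ry hy h h0 α).2 ⟨⟨?_, h5⟩, h4⟩
  rw [D.pr_neg] at h3
  omega

end Ctx

end

end Pool.Agent.Lib.MP_f399a8_nt.G
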