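import Pool.Agent.Lib.MP_f399a8_ntG.Gf2

/-!
# Iwasawa decomposition

PROOF of `iwa_dr`: strong induction on the cardinality of `Dr y` (for all regular `y`): every `d ∈ Ug (Dr y)` is `b * k`, `b ∈ Bg`, `k ∈ Kg`.
If `Dr y = ∅`: `d = 1` (`ug_empty`).  Otherwise `ex_sim` with `y' = -y0` gives `γ'` simple for `y` with `⟨γ', y0⟩ < 0`.  Let `γ = ng γ'`,
`y₁ = ry γ' y` (`= ry γ y`): `γ` is simple for `y₁` (`sim_ng_ry`), positive for `y0`, `y = ry γ y₁` (`ry_ry`), and `Dr y` is the disjoint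
union of `Dr y₁` and `{ng γ}` (`dr_ry`; `ng γ ∉ Dr y₁`), so `Dr y₁` has smaller cardinality.  `d = d₁ * xr (ng γ) z` (`dr_peel`),
`xr (ng γ) z = io γ (lo2 z)` and `lo2 z = ux s * dg2 a * k` (`sl2_iwa`).  So `d = (d₁ * xr γ s) * cc (co γ) a * io γ k`, `io γ k ∈ K` (`io_K`),
`d₁ * xr γ s ∈ Ug (Po y₁)`, so it is `e * d₂`, `e ∈ Ug (Er y₁)`, `d₂ ∈ Ug (Dr y₁)` (`ug_fac` with `z = y0`).  So
`d = e * cc a * ((cc a)⁻¹ d₂ cc a) * io γ k`, `(cc a)⁻¹ d₂ cc a ∈ Ug (Dr y₁)` (`tg_ug`) is `b * k'` by induction.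
PROOF of `iwasawa`: `x = b * n * u` (`bruhat` for `y0`), `b ∈ Bb = Bg` (`bg_iff`), `n * u = (n * u * n⁻¹) * n`, `n ∈ K` (`isN_K`), and
`n * u * n⁻¹ ∈ Ug (wr w '' Po y0) = Ug (Po (wy w y0))` (`isN_ug`, `w_pr`), which is `e * d` with `e ∈ Ug (Er y)`, `d ∈ Ug (Dr y)`,
`y = wy w y0`; `iwa_dr`.
-/

namespace Pool.Agent.Lib.MP_f399a8_nt.G

open Matrix

noncomputable section

namespace Ctx

variable {ι X Y : Type*} [Finite ι] [AddCommGroup X] [AddCommGroup Y] {N : ℕ} (D : Ctx ι X Y N)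
  {p : ℕ} [Fact p.Prime]

theorem iwa_dr (k : ℕ) : ∀ y : Y, D.Reg y → (D.Dr y).ncard = k → ∀ d ∈ D.Ug p (D.Dr y),
    ∃ b ∈ D.Bg p, ∃ κ ∈ D.Kg p, d = b * κ := by
  induction k using Nat.strong_induction_on with
  | _ k ih =>
  intro y hy hk d hd
  rcases Set.eq_empty_or_nonempty (D.Dr y) with hE | ⟨α, hα⟩
  · rw [hE] at hd
    rw [D.ug_empty hd]
    exact ⟨1, one_mem _, 1, one_mem _, by rw [mul_one]⟩
  · have hα1 : 0 < D.pr α y := hα.1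
    have hα2 : 0 < D.pr α (-D.y0) := by
      rw [D.pr_neg]
      have : D.pr α D.y0 < 0 := hα.2
      omega
    obtain ⟨γ', hs, hγ'⟩ := D.ex_sim ⟨α, hα1, hα2⟩
    have hγ0 : 0 < D.pr (D.ng γ') D.y0 := by
      rw [D.pr_ng]
      rw [D.pr_neg] at hγ'
      exact hγ'
    have hs1 : D.Sim (D.ry γ' y) (D.ng γ') := D.sim_ng_ry hy hs
    have hy1 : D.Reg (D.ry γ' y) := D.reg_ry hy γ'
    have hyy : D.ry (D.ng γ') (D.ry γ' y) = y := by
      have h1 : ∀ v, D.ry (D.ng γ') v = D.ry γ' v := by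
        intro v
        rw [D.ry_apply, D.ry_apply, D.pr_ng, D.co_ng, smul_neg, neg_smul, neg_neg]
      rw [h1, D.ry_ry]
    obtain ⟨γ, hγ⟩ : ∃ γ, γ = D.ng γ' := ⟨_, rfl⟩
    obtain ⟨y₁, hy₁⟩ : ∃ y₁, y₁ = D.ry γ' y := ⟨_, rfl⟩
    rw [← hγ, ← hy₁] at hyy hs1
    rw [← hγ] at hγ0
    rw [← hy₁] at hy1
    have hdr : D.Dr y = insert (D.ng γ) (D.Dr y₁) := by
      ext β
      rw [Set.mem_insert_iff, ← hyy, D.dr_ry hy1 hs1 hγ0, or_comm]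
    have hnot : D.ng γ ∉ D.Dr y₁ := by
      intro h
      have h1 : 0 < D.pr (D.ng γ) y₁ := h.1
      have h2 : 0 < D.pr γ y₁ := hs1.1
      rw [D.pr_ng] at h1
      omega
    have hlt : (D.Dr y₁).ncard < k := by
      rw [← hk, hdr, Set.ncard_insert_of_notMem hnot (Set.toFinite _)]
      omega
    rw [← hyy] at hd
    obtain ⟨d₁, hd₁, z, hz, -⟩ := D.dr_peel hy1 hs1 hγ0 hd
    obtain ⟨a, s, l, hl, hlo⟩ := sl2_iwa (S.lo2 z)
    have hio : D.xr p (D.ng γ) z = D.xr p γ s * D.cc p (D.co γ) a * D.io p γ l := by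
      rw [← D.io_lo, hlo, map_mul, map_mul, D.io_ux, D.io_dg]
    have hpo : d₁ * D.xr p γ s ∈ D.Ug p (D.Po y₁) := by
      refine mul_mem (D.ug_mono (fun β hβ => hβ.1) hd₁) ?_
      exact D.xr_mem (show γ ∈ D.Po y₁ from hs1.1) s
    obtain ⟨e, he, d₂, hd₂, hed, -, -⟩ := D.ug_fac (D.cl_po y₁) (y := y₁) (fun β hβ => hβ)
      (z := D.y0) (fun β _ => D.reg0 β) hpo
    have heB : e ∈ D.Bg p := D.po_bg (fun β hβ => hβ.2) he
    have hd₂' : d₂ ∈ D.Ug p (D.Dr y₁) := D.ug_mono (fun β hβ => hβ) hd₂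
    have ht : D.cc p (D.co γ) a ∈ D.Tg p := D.cc_torus p (D.co γ) a
    obtain ⟨b, hb, κ, hκ, hbκ⟩ := ih _ hlt y₁ hy1 rfl _ (D.tg_ug ht hd₂').2
    refine ⟨e * D.cc p (D.co γ) a * b, mul_mem (mul_mem heB (D.tg_bg ht)) hb,
      κ * D.io p γ l, mul_mem hκ ((D.io_K p).2 hl), ?_⟩
    calc d = d₁ * D.xr p γ s * D.cc p (D.co γ) a * D.io p γ l := by
            rw [hz, hio]
            simp only [mul_assoc]
      _ = e * D.cc p (D.co γ) a * ((D.cc p (D.co γ) a)⁻¹ * d₂ * D.cc p (D.co γ) a) *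
            D.io p γ l := by
            rw [hed]
            group
      _ = _ := by
            rw [hbκ]
            simp only [mul_assoc]

theorem iwasawa (x : D.Gt p) : ∃ b ∈ D.Bg p, ∃ κ ∈ D.Kg p, x = b * κ := by
  obtain ⟨b, hb, w, n, hn, u, hu, hx⟩ := D.bruhat D.reg_y0 x
  have hbB : b ∈ D.Bg p := D.bg_iff.2 hb
  have hreg : D.Reg (D.wy w D.y0) := by
    intro α
    have h1 := D.w_pr' w⁻¹ α D.y0
    rw [inv_inv] at h1
    rw [← h1]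
    exact D.reg0 _
  have h1 : n * u * n⁻¹ ∈ D.Ug p (D.Po (D.wy w D.y0)) := by
    refine D.ug_mono ?_ (D.isN_ug hn hu)
    rintro _ ⟨α, hα, rfl⟩
    show 0 < D.pr (D.wr w α) (D.wy w D.y0)
    rw [D.w_pr]
    exact hα
  obtain ⟨e, he, d, hd, hed, -, -⟩ := D.ug_fac (D.cl_po (D.wy w D.y0)) (y := D.wy w D.y0)
    (fun β hβ => hβ) (z := D.y0) (fun β _ => D.reg0 β) h1
  have heB : e ∈ D.Bg p := D.po_bg (fun β hβ => hβ.2) he
  have hd' : d ∈ D.Ug p (D.Dr (D.wy w D.y0)) := D.ug_mono (fun β hβ => hβ) hd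
  obtain ⟨b', hb', κ, hκ, hbκ⟩ := D.iwa_dr _ (D.wy w D.y0) hreg rfl d hd'
  refine ⟨b * e * b', mul_mem (mul_mem hbB heB) hb', κ * n, mul_mem hκ (D.isN_K hn), ?_⟩
  calc x = b * (n * u * n⁻¹) * n := by
          rw [hx]
          group
    _ = b * (e * d) * n := by rw [hed]
    _ = _ := by
          rw [hbκ]
          simp only [mul_assoc]

end Ctx

end

end Pool.Agent.Lib.MP_f399a8_nt.G
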