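import Pool.Agent.Lib.MP_f399a8_ntG.Gf2

/-!
# The big cell near `1`

PROOF.
* `bu_uniq`: `S.bu_unique` (`ne_lo`; file `MP_f399a8_ntS.LUb`), `gt_ext`.
* `isN_cell`: suppose `n.1 = c * v` in `SL_N`, `c ∈ Bp`, `v ∈ U Lo`.  For `i : Fin N` consider the submatrices with rows and columns `≥ i`
  (`Matrix.submatrix` with the subtype `{a // i ≤ a}`): since `c a k = 0` for `k < a`, the submatrix of `n` is the product of the submatrices of
  `c` and `v`, with determinants `∏_{a ≥ i} c a a ≠ 0` and `1`.  So the determinant of the submatrix of `n` is not zero and there is a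
  permutation `σ` of `{a // i ≤ a}` with `n (σ a) a ≠ 0` for all `a` (`Matrix.det_apply`, `Finset.exists_ne_zero_of_sum_ne_zero`,
  `Finset.prod_ne_zero_iff`).  So `wt (σ a) = w (wt a)`, and summing over `a ≥ i`: `ξ_i := ∑_{a ≥ i} wt a` satisfies `w ξ_i = ξ_i`.
  So `w` fixes `wt i = ξ_i - ξ_{i+1}` for all `i` (with `ξ_N = 0`; use the sums over `{a | i < a}`, which are either empty or of the
  form `ξ_{i'}`), hence `w = 1` (`wt_ext`, `w_ext_x`).
* `cell_sl`: if `x : Gt` and `x.1 = b' * u'` in `SL_N`, `b' ∈ Bp`, `u' ∈ U Lo`, then there are `b ∈ Bg`, `u ∈ Ug (Ne y0)` with `b.1 = b'`,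
  `u.1 = u'`: by `bruhat` for the regular `-y0` (`Po (-y0) = Ne y0`) `x = b₁ n u`; `n.1 = (b₁⁻¹ b') (u' u⁻¹)`, so `w = 1` by `isN_cell`, `n ∈ Tg`
  (`isN_one_tg`), `b := b₁ n ∈ Bg`; uniqueness (`S.bu_unique`).
* `cellG`: `S.cell_small` (file `MP_f399a8_ntS.LUc`) and `cell_sl`.
-/

namespace Pool.Agent.Lib.MP_f399a8_nt.G

open Matrix

noncomputable section

namespace Ctx

variable {ι X Y : Type*} [Finite ι] [AddCommGroup X] [AddCommGroup Y] {N : ℕ} (D : Ctx ι X Y N)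
  {p : ℕ} [Fact p.Prime]

theorem bu_uniq {b b' u u' : D.Gt p} (hb : b ∈ D.Bg p) (hb' : b' ∈ D.Bg p)
    (hu : u ∈ D.Ug p (D.Ne D.y0)) (hu' : u' ∈ D.Ug p (D.Ne D.y0)) (h : b * u = b' * u') :
    b = b' ∧ u = u' := by
  have h1 : b.1 * u.1 = b'.1 * u'.1 := congrArg Subtype.val h
  obtain ⟨h2, h3⟩ := S.bu_unique (e := b.1) (e' := b'.1) (d := u.1) (d' := u'.1) hb hb'
    (D.ne_lo (fun α hα => hα) hu) (D.ne_lo (fun α hα => hα) hu') h1
  exact ⟨Subtype.ext h2, Subtype.ext h3⟩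

theorem Gf4_sum {w : D.W} {n : D.Gt p} (h : D.IsN w n) {c v : SLp p N} (hc : c ∈ S.Bp p N)
    (hv : v ∈ S.U p (S.Lo : Fin N → Fin N → Prop)) (hn : n.1 = c * v) (I : Finset (Fin N))
    (hI : ∀ a b, a ∈ I → a ≤ b → b ∈ I) : D.wx w (∑ a ∈ I, D.wt a) = ∑ a ∈ I, D.wt a := by
  have h1 : n.1.1.submatrix (fun a : I => a.1) (fun a : I => a.1) =
      c.1.submatrix (fun a : I => a.1) (fun a : I => a.1) *
        v.1.submatrix (fun a : I => a.1) (fun a : I => a.1) := by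
    ext a b
    have h2 : n.1.1 = c.1 * v.1 := congrArg Subtype.val hn
    rw [Matrix.submatrix_apply, h2, Matrix.mul_apply, Matrix.mul_apply]
    simp only [Matrix.submatrix_apply]
    rw [Finset.sum_coe_sort I (fun k => c.1 a.1 k * v.1 k b.1)]
    symm
    refine Finset.sum_subset (Finset.subset_univ _) fun k _ hk => ?_
    have h3 : k < a.1 := by
      by_contra h4
      exact hk (hI a.1 k a.2 (not_lt.1 h4))
    rw [hc a.1 k h3, zero_mul]
  have h2 : (n.1.1.submatrix (fun a : I => a.1) (fun a : I => a.1)).det ≠ 0 := by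
    rw [h1, Matrix.det_mul]
    refine mul_ne_zero ?_ ?_
    · have h3 : (c.1.submatrix (fun a : I => a.1) (fun a : I => a.1)).BlockTriangular id :=
        fun a b hab => hc a.1 b.1 hab
      rw [Matrix.det_of_isUpperTriangular h3]
      exact Finset.prod_ne_zero_iff.2 fun a _ => (S.bp_diag hc).1 a.1
    · have h3 : (v.1.submatrix (fun a : I => a.1) (fun a : I => a.1)).BlockTriangular
          OrderDual.toDual := by
        intro a b hab
        refine S.U_zero hv ?_ ?_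
        · rintro h4
          have h5 : a = b := Subtype.ext h4
          rw [h5] at hab
          exact lt_irrefl _ hab
        · intro h4
          have h5 : b < a := h4
          exact lt_asymm (OrderDual.toDual_lt_toDual.1 hab) h5
      rw [Matrix.det_of_isLowerTriangular _ h3]
      refine Finset.prod_ne_zero_iff.2 fun a _ => ?_
      show v.1 a.1 a.1 ≠ 0
      rw [S.U_diag S.so_Lo hv]
      exact one_ne_zero
  rw [Matrix.det_apply] at h2
  obtain ⟨σ, -, hσ⟩ := Finset.exists_ne_zero_of_sum_ne_zero h2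
  have h3 : ∏ a, n.1.1.submatrix (fun a : I => a.1) (fun a : I => a.1) (σ a) a ≠ 0 := by
    intro h4
    rw [h4, smul_zero] at hσ
    exact hσ rfl
  have h4 : ∀ a : I, D.wt (σ a).1 = D.wx w (D.wt a.1) := by
    intro a
    exact h.2 _ _ (Finset.prod_ne_zero_iff.1 h3 a (Finset.mem_univ a))
  have h5 : D.wx w (∑ a ∈ I, D.wt a) = ∑ a ∈ I, D.wx w (D.wt a) := map_sum w.1.2.1 _ _
  rw [h5, ← Finset.sum_coe_sort I (fun a => D.wx w (D.wt a)), ← Finset.sum_coe_sort I D.wt,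
    ← Equiv.sum_comp σ (fun a : I => D.wt a.1)]
  exact Finset.sum_congr rfl fun a _ => (h4 a).symm

theorem isN_cell {w : D.W} {n : D.Gt p} (h : D.IsN w n) {c v : SLp p N} (hc : c ∈ S.Bp p N)
    (hv : v ∈ S.U p (S.Lo : Fin N → Fin N → Prop)) (hn : n.1 = c * v) : w = 1 := by
  have hx : ∀ i, D.wx w (D.wt i) = D.wt i := by
    intro i
    have h1 := D.Gf4_sum h hc hv hn (Finset.Ici i) (fun a b ha hab => by
      rw [Finset.mem_Ici] at ha ⊢
      exact ha.trans hab)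
    have h2 := D.Gf4_sum h hc hv hn (Finset.Ioi i) (fun a b ha hab => by
      rw [Finset.mem_Ioi] at ha ⊢
      exact lt_of_lt_of_le ha hab)
    have h3 : ∑ a ∈ Finset.Ici i, D.wt a = D.wt i + ∑ a ∈ Finset.Ioi i, D.wt a := by
      rw [← Finset.Ioi_insert, Finset.sum_insert (by simp)]
    rw [h3, D.wx_add, h2] at h1
    exact add_right_cancel h1
  refine D.w_ext_x fun x => ?_
  rw [D.wx_one]
  refine D.wt_ind (q := fun x => D.wx w x = x) ?_ hx ?_ ?_ x
  · show w.1.2.1 0 = 0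
    exact map_zero _
  · intro a b ha hb
    rw [D.wx_add, ha, hb]
  · intro a ha
    show w.1.2.1 (-a) = -a
    rw [map_neg]
    exact congrArg Neg.neg ha

theorem cell_sl {x : D.Gt p} {c v : SLp p N} (hc : c ∈ S.Bp p N)
    (hv : v ∈ S.U p (S.Lo : Fin N → Fin N → Prop)) (hx : x.1 = c * v) :
    ∃ b ∈ D.Bg p, ∃ u ∈ D.Ug p (D.Ne D.y0), x = b * u ∧ b.1 = c ∧ u.1 = v := by
  obtain ⟨b₁, hb₁, w, n, hn, u, hu, hxe⟩ := D.bruhat (D.reg_neg D.reg_y0) x
  have hNe : D.Ne D.y0 = D.Po (-D.y0) := D.Gf2_ne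
  rw [← hNe] at hu
  have huL := D.ne_lo (fun α hα => hα) hu
  have hb₁B : b₁ ∈ D.Bg p := D.bg_iff.2 hb₁
  have h1 : n.1 = (b₁.1⁻¹ * c) * (v * u.1⁻¹) := by
    have h2 : x.1 = b₁.1 * n.1 * u.1 := congrArg Subtype.val hxe
    rw [h2] at hx
    calc n.1 = b₁.1⁻¹ * (b₁.1 * n.1 * u.1) * u.1⁻¹ := by group
      _ = _ := by
        rw [hx]
        group
  have hc' : b₁.1⁻¹ * c ∈ S.Bp p N := mul_mem (inv_mem hb₁B) hc
  have hw := D.isN_cell hn hc' (S.U_mul S.so_Lo hv (S.U_inv S.so_Lo huL)) h1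
  rw [hw] at hn
  have hnT := D.isN_one_tg hn
  have hb : b₁ * n ∈ D.Bg p := mul_mem hb₁B (D.tg_bg hnT)
  have h3 : (b₁ * n).1 * u.1 = c * v := by
    rw [← hx, hxe]
    rfl
  obtain ⟨h4, h5⟩ := S.bu_unique (e := (b₁ * n).1) (e' := c) (d := u.1) (d' := v) hb hc huL hv h3
  exact ⟨b₁ * n, hb, u, hu, hxe, h4, h5⟩

theorem cellG {m : ℕ} (hm : 1 ≤ m) {x : D.Gt p} (hx : x ∈ D.Kmg p m) :
    ∃ b ∈ D.Bg p, ∃ u ∈ D.Ug p (D.Ne D.y0), x = b * u ∧ b ∈ D.Kmg p m ∧ u ∈ D.Kmg p m := by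
  obtain ⟨c, hc, v, hv, hxe, hcm, hvm⟩ := S.cell_small hm (x := x.1) hx
  obtain ⟨b, hb, u, hu, hx', hbc, huv⟩ := D.cell_sl hc hv hxe
  refine ⟨b, hb, u, hu, hx', ?_, ?_⟩
  · show b.1 ∈ S.Km p N m
    rw [hbc]
    exact hcm
  · show u.1 ∈ S.Km p N m
    rw [huv]
    exact hvm

end Ctx

end

end Pool.Agent.Lib.MP_f399a8_nt.G
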