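import Pool.Agent.Lib.MP_f399a8_ntG.Gf4
import Pool.Agent.Lib.MP_f399a8_ntG.Gb4

/-!
# The group is closed in `SL_N(ℚ_p)`; compactness and neighbourhoods

PROOF.
* `bb_closed_sl`: `b_q = t_q u_q → g` in `SLp p N`, `t_q ∈ Tg`, `u_q ∈ Ug (Po y0)` (`bg_fac`).  The diagonal of `b_q` is the one of `t_q` (`bg_diag`),
  so the diagonal matrices `t_q.1` converge (their inverses too; the limit of the diagonals has product `1`: it is the diagonal of the upper
  triangular `g`, `S.bt_closed`, `S.bp_diag`), to an element `t.1` with `t ∈ Tg` (`tg_closed_sl`), so `u_q.1 = t_q.1⁻¹ b_q.1` converges, the limit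
  is in the closed set `ug_closed_sl`.  (Sequences: `SLp p N` is a subspace of a metrizable space.)
* `gg_closed`: let `g` be a limit of `g_q ∈ GG`.  By `S.km_nhds_mul` `g_q⁻¹ g ∈ Km 1` for some `q` (`Km 1` is a group), and it suffices to treat
  `g' = g_q⁻¹ g`, which is the limit of `g_q⁻¹ g_{q'} ∈ GG`, in `Km 1` for large `q'`.  So `x_{q'} := g_q⁻¹ g_{q'} = b_{q'} u_{q'}` (`cellG`) with `b_{q'}, u_{q'}`
  in `Km 1 ⊆ Kp`, which is compact (`S.kp_compact`): along a subsequence `b_{q'} → b`, `u_{q'} → u` in `SLp p N`, `b` in the closed set `bb_closed_sl`,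
  `u` in the closed set of `ug_closed_sl` (for `Ne y0`, positive on `-y0`), and `g' = b u`.
* `gbdd_compact`: `Gt` is a closed subspace of `SLp p N`, `S.bdd_compact`.  `kg_compact`: `A = 1`.
* `kmg_open` etc: preimages under the inclusion of the statements of `MP_f399a8_ntS.TopA`.  `kmg_nhds`: neighbourhoods of `1` in the subspace
  topology contain the preimage of a neighbourhood of `1` in `SLp p N`.
* `bg_closed`: `S.bt_closed`.
-/

namespace Pool.Agent.Lib.MP_f399a8_nt.G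

open Matrix Filter Topology

noncomputable section

namespace Ctx

variable {ι X Y : Type*} [Finite ι] [AddCommGroup X] [AddCommGroup Y] {N : ℕ} (D : Ctx ι X Y N)
  (p : ℕ) [Fact p.Prime]

/-- the diagonal part of an upper triangular element -/
def Gf5_r {p N : ℕ} [Fact p.Prime] (g : S.Bp p N) : SLp p N :=
  ⟨Matrix.diagonal fun i => g.1.1 i i, by
    rw [Matrix.det_diagonal]
    exact (S.bp_diag g.2).2⟩

theorem Gf5_r_cont {p N : ℕ} [Fact p.Prime] : Continuous (Gf5_r : S.Bp p N → SLp p N) := by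
  refine Continuous.subtype_mk ?_ _
  refine Continuous.matrix_diagonal (continuous_pi fun i => ?_)
  exact (S.continuous_entry i i).comp continuous_subtype_val

theorem bb_closed_sl : IsClosed {g : SLp p N | ∃ b ∈ D.Bg p, b.1 = g} := by
  have hcl : IsClosed (S.Bp p N : Set (SLp p N)) := S.bt_closed (id : Fin N → Fin N)
  have hT := D.tg_closed_sl (p := p)
  have hU := D.ug_closed_sl p (D.cl_po D.y0) (y := D.y0) (fun α hα => hα)
  have h1 : IsClosed {g : S.Bp p N | (∃ t ∈ D.Tg p, t.1 = Gf5_r g) ∧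
      ∃ u ∈ D.Ug p (D.Po D.y0), u.1 = (Gf5_r g)⁻¹ * g.1} := by
    refine IsClosed.inter (hT.preimage Gf5_r_cont) (hU.preimage ?_)
    exact (Gf5_r_cont.inv).mul continuous_subtype_val
  have h2 : {g : SLp p N | ∃ b ∈ D.Bg p, b.1 = g} =
      Subtype.val '' {g : S.Bp p N | (∃ t ∈ D.Tg p, t.1 = Gf5_r g) ∧
      ∃ u ∈ D.Ug p (D.Po D.y0), u.1 = (Gf5_r g)⁻¹ * g.1} := by
    ext g
    constructor
    · rintro ⟨b, hb, rfl⟩
      refine ⟨⟨b.1, hb⟩, ?_, rfl⟩
      obtain ⟨t, ht, u, hu, hx⟩ := D.bg_fac hb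
      have h3 : t.1 = Gf5_r ⟨b.1, hb⟩ := by
        apply Subtype.ext
        ext i j
        show t.1.1 i j = Matrix.diagonal (fun i => b.1.1 i i) i j
        rcases eq_or_ne i j with rfl | hij
        · rw [Matrix.diagonal_apply_eq, D.bg_diag ht hu hx i]
        · rw [Matrix.diagonal_apply_ne _ hij, D.tg_off ht hij]
      refine ⟨⟨t, ht, h3⟩, u, hu, ?_⟩
      have h4 : b.1 = t.1 * u.1 := congrArg Subtype.val hx
      rw [← h3]
      show u.1 = t.1⁻¹ * b.1
      rw [h4]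
      group
    · rintro ⟨g', ⟨⟨t, ht, h3⟩, u, hu, h4⟩, rfl⟩
      refine ⟨t * u, mul_mem (D.tg_bg ht) (D.po_bg (fun α hα => hα) hu), ?_⟩
      show t.1 * u.1 = g'.1
      rw [h3, h4]
      group
  rw [h2]
  exact hcl.isClosedMap_subtype_val _ h1

theorem gg_closed : IsClosed (D.GG p : Set (SLp p N)) := by
  have hV : IsOpen (S.Km p N 1 : Set (SLp p N)) := S.km_open p N 1
  have hVc : IsClosed (S.Km p N 1 : Set (SLp p N)) := (S.Km p N 1).isClosed_of_isOpen hV
  have hVK : IsCompact (S.Km p N 1 : Set (SLp p N)) :=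
    (S.kp_compact p N).of_isClosed_subset hVc (fun x hx => S.km_le_kp hx)
  have hB := hVK.inter_right (D.bb_closed_sl p)
  have hNe : ∀ α ∈ D.Ne D.y0, 0 < D.pr α (-D.y0) := by
    intro α hα
    rw [D.pr_neg]
    have h1 : D.pr α D.y0 < 0 := hα
    omega
  have hU := hVK.inter_right (D.ug_closed_sl p (D.cl_ne D.y0) hNe)
  have h1 := (hB.prod hU).image (continuous_mul (M := SLp p N))
  have h2 : (S.Km p N 1 : Set (SLp p N)) ∩ (D.GG p : Set (SLp p N)) =
      (fun q : SLp p N × SLp p N => q.1 * q.2) ''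
      (((S.Km p N 1 : Set (SLp p N)) ∩ {g : SLp p N | ∃ b ∈ D.Bg p, b.1 = g}) ×ˢ
      ((S.Km p N 1 : Set (SLp p N)) ∩ {g : SLp p N | ∃ u ∈ D.Ug p (D.Ne D.y0), u.1 = g})) := by
    ext g
    constructor
    · rintro ⟨hg, hg'⟩
      obtain ⟨b, hb, u, hu, hx, hbm, hum⟩ := D.cellG (m := 1) le_rfl (x := ⟨g, hg'⟩) hg
      exact ⟨(b.1, u.1), ⟨⟨hbm, b, hb, rfl⟩, ⟨hum, u, hu, rfl⟩⟩, (congrArg Subtype.val hx).symm⟩
    · rintro ⟨⟨x, x'⟩, ⟨⟨hb, b, hb', hbx⟩, ⟨hu, u, hu', hux⟩⟩, rfl⟩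
      refine ⟨mul_mem hb hu, ?_⟩
      show x * x' ∈ D.GG p
      have hbx' : b.1 = x := hbx
      have hux' : u.1 = x' := hux
      rw [← hbx', ← hux']
      exact (b * u).2
  have h3 : IsClosed ((S.Km p N 1 : Set (SLp p N)) ∩ (D.GG p : Set (SLp p N))) := by
    rw [h2]
    exact h1.isClosed
  refine isClosed_of_closure_subset fun g hg => ?_
  have h4 : ∀ᶠ x in 𝓝 g, g⁻¹ * x ∈ S.Km p N 1 := S.km_nhds_mul g 1
  obtain ⟨h, hh, hhG⟩ := (mem_closure_iff_nhds.1 hg) _ h4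
  have h5 : h⁻¹ * g ∈ S.Km p N 1 := by
    have h6 : h⁻¹ * g = (g⁻¹ * h)⁻¹ := by group
    rw [h6]
    exact inv_mem hh
  have h6 : h⁻¹ * g ∈ closure (D.GG p : Set (SLp p N)) := by
    have h7 : h⁻¹ * g ∈ (D.GG p).topologicalClosure :=
      mul_mem (inv_mem (Subgroup.le_topologicalClosure _ hhG)) hg
    exact h7
  have h7 := hV.inter_closure ⟨h5, h6⟩
  rw [h3.closure_eq] at h7
  have h8 : g = h * (h⁻¹ * g) := by group
  rw [h8]
  exact mul_mem hhG h7.2

theorem gbdd_compact (A : ℝ) : IsCompact {x : D.Gt p | ∀ i j, ‖x.1.1 i j‖ ≤ A} := by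
  exact (D.gg_closed p).isClosedEmbedding_subtypeVal.isCompact_preimage (S.bdd_compact p N A)

theorem kg_compact : IsCompact (D.Kg p : Set (D.Gt p)) := by
  exact D.gbdd_compact p 1

theorem kg_open : IsOpen (D.Kg p : Set (D.Gt p)) := by
  exact (S.kp_open p N).preimage continuous_subtype_val

theorem kmg_open (m : ℕ) : IsOpen (D.Kmg p m : Set (D.Gt p)) := by
  exact (S.km_open p N m).preimage continuous_subtype_val

theorem bg_closed : IsClosed (D.Bg p : Set (D.Gt p)) := by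
  exact (S.bt_closed (id : Fin N → Fin N)).preimage continuous_subtype_val

variable {p}

theorem entry_cont (i j : Fin N) : Continuous fun x : D.Gt p => x.1.1 i j := by
  exact (S.continuous_entry i j).comp continuous_subtype_val

theorem kmg_le {m : ℕ} {x : D.Gt p} (hx : x ∈ D.Kmg p m) : x ∈ D.Kg p := by
  exact S.km_le_kp (x := x.1) hx

theorem kmg_anti {m m' : ℕ} (h : m ≤ m') {x : D.Gt p} (hx : x ∈ D.Kmg p m') : x ∈ D.Kmg p m := by
  exact S.km_anti h (x := x.1) hx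

theorem kmg_conj {m : ℕ} {k x : D.Gt p} (hk : k ∈ D.Kg p) (hx : x ∈ D.Kmg p m) :
    k * x * k⁻¹ ∈ D.Kmg p m ∧ k⁻¹ * x * k ∈ D.Kmg p m := by
  exact S.km_conj (k := k.1) (x := x.1) hk hx

theorem kmg_nhds {s : Set (D.Gt p)} (hs : s ∈ 𝓝 (1 : D.Gt p)) :
    ∃ m : ℕ, ∀ x ∈ D.Kmg p m, x ∈ s := by
  rw [nhds_subtype_eq_comap] at hs
  obtain ⟨t, ht, hts⟩ := hs
  obtain ⟨m, hm⟩ := S.km_nhds ht
  exact ⟨m, fun x hx => hts (hm x.1 hx)⟩

theorem kmg_nhds_mul (g : D.Gt p) (m : ℕ) : ∀ᶠ x in 𝓝 g, g⁻¹ * x ∈ D.Kmg p m := by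
  exact (continuous_subtype_val.tendsto g).eventually (S.km_nhds_mul g.1 m)

end Ctx

end

end Pool.Agent.Lib.MP_f399a8_nt.G
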