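import Pool.Agent.Lib.MP_f399a8_ntG.Gf5

/-!
# Uniformity and finiteness; a point outside the big cell

PROOF.
* `unif`, `conj_small`, `fin_reps`, `coset_reps`: copy the proofs of the statements with the same names in `MP_f399a8_ntS.TopB` (they use only
  that `Km m` are open subgroups forming a basis of neighbourhoods of `1`, `kp_compact`, `bdd_compact`; here `kmg_nhds`, `kg_compact`,
  `gbdd_compact`; `Gt` is a topological group with metrizable topology, a subspace of matrices).  `conj_small` and `fin_reps` can also be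
  deduced from the statements for `SLp p N` (`fin_reps`: intersect with the group and move the representatives).
* `dw_notin`: let `n = io γ w2` and suppose `d * n = b * u`.  For `z ≠ 0` let `x_z = d * xr (ng γ) z * n`.  Since
  `lo2 z * w2 = up2 z 1 * lo2 (-z⁻¹)` (`S.lo_w`), and `up2 z 1 = dg2 z⁻¹ * ux z` (`up2_eq`),
  `x_z = d * cc (co γ) z⁻¹ * xr γ z * xr (ng γ) (-z⁻¹)`.  Move the torus element to the left: `x_z = cc (co γ) z⁻¹ * (d' * xr γ z) * xr (ng γ) (-z⁻¹)`,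
  `d' ∈ Ug (Dr y)` (`tg_ug`), `d' * xr γ z ∈ Ug (Po y)` is `e * d''` (`ug_fac`, `z = y0`), `e ∈ Ug (Er y) ⊆ Bg`, `d'' ∈ Ug (Dr y) ⊆ Ug (Ne y0)`.  So
  `x_z = b_z * u_z` with `b_z = cc (co γ) z⁻¹ * e ∈ Bg`, whose diagonal entries are `z ^ (-⟨wt i, γ^∨⟩)`, and `u_z ∈ Ug (Ne y0)`.
  As `z → 0`, `x_z → d * n = b * u` (`xr_cont`, `xr_zero`), so `b⁻¹ * x_z * u⁻¹ → 1` is in `Kmg 1` for small `z ≠ 0` (`kmg_nhds_mul`) and by `cellG` it is
  `b₁ * u₁`, `b₁ ∈ Bg ∩ K`.  So `x_z = (b b₁) (u₁ u)`, and `b b₁ = b_z` (`bu_uniq`).  Compare the diagonal entries: `‖b i i‖ = ‖z‖ ^ (-⟨wt i, γ^∨⟩)`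
  (`‖b₁ i i‖ = 1` for `b₁ ∈ Bg ∩ K`: `b₁` and its inverse are integral) for all `z ≠ 0` small, impossible for `i` with `⟨wt i, γ^∨⟩ ≠ 0`
  (`co_signs`): take `z = p ^ k` for two different large `k`.
-/

namespace Pool.Agent.Lib.MP_f399a8_nt.G

open Matrix Filter Topology

noncomputable section

namespace Ctx

variable {ι X Y : Type*} [Finite ι] [AddCommGroup X] [AddCommGroup Y] {N : ℕ} (D : Ctx ι X Y N)
  {p : ℕ} [Fact p.Prime] {C : Type*} [NormedField C]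

/-- tube lemma for the neighbourhoods `Kmg m` of `1` -/
theorem Gf6_tube {Z : Set (D.Gt p)} (hZ : IsCompact Z) {O : Set (D.Gt p × D.Gt p)} (hO : IsOpen O)
    (h : ∀ x ∈ Z, (x, (1 : D.Gt p)) ∈ O) :
    ∃ m : ℕ, ∀ x ∈ Z, ∀ y ∈ D.Kmg p m, (x, y) ∈ O := by
  have hsub : Z ×ˢ ({1} : Set (D.Gt p)) ⊆ O := by
    rintro ⟨x, y⟩ ⟨hx, hy⟩
    have hy' : y = 1 := hy
    subst hy'
    exact h x hx
  obtain ⟨u, v, _, hv, hXu, h1v, huv⟩ := generalized_tube_lemma hZ isCompact_singleton hO hsub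
  obtain ⟨m, hm⟩ := D.kmg_nhds (hv.mem_nhds (h1v rfl))
  exact ⟨m, fun x hx y hy => huv ⟨hXu hx, hm y hy⟩⟩

theorem Gf6_conj (p : ℕ) [Fact p.Prime] {Z : Set (D.Gt p)} (hZ : IsCompact Z) (m : ℕ) :
    ∃ m' : ℕ, ∀ g ∈ Z, ∀ x ∈ D.Kmg p m', g * x * g⁻¹ ∈ D.Kmg p m := by
  have hc : Continuous fun z : D.Gt p × D.Gt p => z.1 * z.2 * z.1⁻¹ :=
    (continuous_fst.mul continuous_snd).mul continuous_fst.inv
  have hO : IsOpen ((fun z : D.Gt p × D.Gt p => z.1 * z.2 * z.1⁻¹) ⁻¹'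
      (D.Kmg p m : Set (D.Gt p))) := (D.kmg_open p m).preimage hc
  obtain ⟨m', hm'⟩ := D.Gf6_tube hZ hO (fun x _ => by
    show x * 1 * x⁻¹ ∈ D.Kmg p m
    rw [mul_one, mul_inv_cancel]
    exact (D.Kmg p m).one_mem)
  exact ⟨m', fun g hg x hx => hm' g hg x hx⟩

theorem Gf6_diag {b c : D.Gt p} (hb : b ∈ D.Bg p) (hc : c ∈ D.Bg p) (i : Fin N) :
    (b * c).1.1 i i = b.1.1 i i * c.1.1 i i := by
  rw [mem_Bg] at hb hc
  rw [D.val_mul p, Matrix.mul_apply]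
  rw [Finset.sum_eq_single i]
  · intro k _ hk
    rcases lt_or_gt_of_ne hk with h | h
    · rw [hb i k h, zero_mul]
    · rw [hc k i h, mul_zero]
  · intro h
    exact absurd (Finset.mem_univ i) h

theorem Gf6_norm {b : D.Gt p} (hb : b ∈ D.Kmg p 1) (i : Fin N) : ‖b.1.1 i i‖ = 1 := by
  rw [mem_Kmg] at hb
  have h1 := hb i i
  rw [Matrix.one_apply_eq] at h1
  have hp : (1 : ℝ) < p := by exact_mod_cast (Fact.out : p.Prime).one_lt
  have h2 : (p : ℝ) ^ (-((1 : ℕ) : ℤ)) < 1 := by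
    rw [Nat.cast_one, _root_.zpow_neg, zpow_one]
    exact inv_lt_one_of_one_lt₀ hp
  have h3 : ‖b.1.1 i i - 1‖ < ‖(1 : ℚ_[p])‖ := by
    rw [norm_one]
    exact h1.trans_lt h2
  have h4 : b.1.1 i i = (b.1.1 i i - 1) + 1 := by ring
  rw [h4, Padic.add_eq_max_of_ne h3.ne, max_eq_right h3.le, norm_one]

/-- the factorization of `x_z` -/
theorem Gf6_xz {y : Y} {γ : ι} (h : D.Sim y γ) (h0 : 0 < D.pr γ D.y0)
    {d : D.Gt p} (hd : d ∈ D.Ug p (D.Dr y)) {z : ℚ_[p]} (hz : z ≠ 0) :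
    ∃ b ∈ D.Bg p, ∃ u ∈ D.Ug p (D.Ne D.y0),
      d * D.xr p (D.ng γ) z * D.io p γ (S.w2 p) = b * u ∧
      ∀ i, ‖b.1.1 i i‖ = ‖z‖ ^ (-(D.wp i (D.co γ))) := by
  set c : D.Gt p := D.cc p (D.co γ) (Units.mk0 z hz)⁻¹ with hc
  have hcT : c ∈ D.Tg p := D.cc_torus p _ _
  have e1 : D.xr p (D.ng γ) z * D.io p γ (S.w2 p) =
      c * D.xr p γ z * D.xr p (D.ng γ) (-z⁻¹) := by
    rw [← D.io_lo, ← map_mul, S.lo_w hz, map_mul, D.io_lo, up2_eq, map_mul, D.io_dg, D.io_ux,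
      mul_one]
  have hd' := (D.tg_ug hcT hd).2
  have h1 : c⁻¹ * d * c ∈ D.Ug p (D.Po y) := D.ug_mono (fun α hα => hα.1) hd'
  have h2 : c⁻¹ * d * c * D.xr p γ z ∈ D.Ug p (D.Po y) :=
    Subgroup.mul_mem _ h1 (D.xr_mem h.1 z)
  obtain ⟨e, he, d2, hd2, hed, -, -⟩ := D.ug_fac (y := y) (S := D.Po y) (z := D.y0) (D.cl_po y)
    (fun α hα => hα) (fun α _ => D.reg_y0 α) h2
  have heB : e ∈ D.Bg p := D.po_bg (fun α hα => hα.2) he
  have heP : e ∈ D.Ug p (D.Po D.y0) := D.ug_mono Set.inter_subset_right he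
  have hd2N : d2 ∈ D.Ug p (D.Ne D.y0) := D.ug_mono Set.inter_subset_right hd2
  have hng : D.ng γ ∈ D.Ne D.y0 := by
    show D.pr (D.ng γ) D.y0 < 0
    rw [D.pr_ng]
    omega
  refine ⟨c * e, Subgroup.mul_mem _ (D.tg_bg hcT) heB, d2 * D.xr p (D.ng γ) (-z⁻¹),
    Subgroup.mul_mem _ hd2N (D.xr_mem hng _), ?_, ?_⟩
  · have e2 : c * e * (d2 * D.xr p (D.ng γ) (-z⁻¹)) =
        c * (e * d2) * D.xr p (D.ng γ) (-z⁻¹) := by group
    rw [e2, ← hed, mul_assoc d, e1]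
    group
  · intro i
    rw [D.bg_diag hcT heP rfl i, hc, D.cc_val, cd, Matrix.diagonal_apply_eq]
    rw [Units.val_zpow_eq_zpow_val, Units.val_inv_eq_inv_val, Units.val_mk0, norm_zpow, norm_inv,
      _root_.inv_zpow']

theorem unif {f : D.Gt p → C} (hf : Continuous f) {Z : Set (D.Gt p)} (hZ : IsCompact Z) {ε : ℝ}
    (hε : 0 < ε) : ∃ m : ℕ, ∀ x ∈ Z, ∀ h ∈ D.Kmg p m, ‖f (x * h) - f x‖ ≤ ε := by
  have hc : Continuous fun z : D.Gt p × D.Gt p => ‖f (z.1 * z.2) - f z.1‖ :=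
    ((hf.comp (continuous_fst.mul continuous_snd)).sub (hf.comp continuous_fst)).norm
  have hO : IsOpen {z : D.Gt p × D.Gt p | ‖f (z.1 * z.2) - f z.1‖ < ε} :=
    isOpen_lt hc continuous_const
  obtain ⟨m, hm⟩ := D.Gf6_tube hZ hO (fun x _ => by
    show ‖f (x * 1) - f x‖ < ε
    rw [mul_one, sub_self, norm_zero]
    exact hε)
  exact ⟨m, fun x hx h hh => (show ‖f (x * h) - f x‖ < ε from hm x hx h hh).le⟩

theorem conj_small (p : ℕ) [Fact p.Prime] (A : ℝ) (m : ℕ) :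
    ∃ m' : ℕ, ∀ g : D.Gt p, (∀ i j, ‖g.1.1 i j‖ ≤ A) → ∀ x ∈ D.Kmg p m',
      g * x * g⁻¹ ∈ D.Kmg p m ∧ g⁻¹ * x * g ∈ D.Kmg p m := by
  obtain ⟨m₁, h₁⟩ := D.Gf6_conj p (D.gbdd_compact p A) m
  obtain ⟨m₂, h₂⟩ := D.Gf6_conj p ((D.gbdd_compact p A).image continuous_inv) m
  refine ⟨max m₁ m₂, fun g hg x hx => ⟨?_, ?_⟩⟩
  · exact h₁ g hg x (D.kmg_anti (le_max_left _ _) hx)
  · have h := h₂ g⁻¹ (Set.mem_image_of_mem _ hg) x (D.kmg_anti (le_max_right _ _) hx)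
    rwa [inv_inv] at h

theorem fin_reps (p : ℕ) [Fact p.Prime] (m : ℕ) :
    ∃ S' : Finset (D.Gt p), (∀ s ∈ S', s ∈ D.Kg p) ∧
      ∀ k ∈ D.Kg p, ∃ s ∈ S', k * s⁻¹ ∈ D.Kmg p m := by
  obtain ⟨t, ht, hcov⟩ := (D.kg_compact p).elim_nhds_subcover
    (fun s : D.Gt p => (fun x : D.Gt p => x * s⁻¹) ⁻¹' (D.Kmg p m : Set (D.Gt p))) (by
      intro s _
      have hc : Continuous fun x : D.Gt p => x * s⁻¹ := continuous_id.mul continuous_const
      refine ((D.kmg_open p m).preimage hc).mem_nhds ?_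
      show s * s⁻¹ ∈ D.Kmg p m
      rw [mul_inv_cancel]
      exact (D.Kmg p m).one_mem)
  refine ⟨t, ht, fun k hk => ?_⟩
  have h := hcov hk
  rw [Set.mem_iUnion₂] at h
  obtain ⟨s, hs, hks⟩ := h
  exact ⟨s, hs, hks⟩

/-- coset representatives of a subgroup `H` of `L` containing `L ∩ Kmg m`, with `L ≤ Kg` -/
theorem coset_reps {L H : Subgroup (D.Gt p)} (hL : L ≤ D.Kg p) (hHL : H ≤ L) {m : ℕ}
    (hH : ∀ x ∈ L, x ∈ D.Kmg p m → x ∈ H) :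
    ∃ S' : Finset (D.Gt p), (∀ s ∈ S', s ∈ L) ∧ ∀ x ∈ L, ∃! s, s ∈ S' ∧ x * s⁻¹ ∈ H := by
  classical
  obtain ⟨S₀, _, hS₀⟩ := D.fin_reps p m
  -- one element of `L` for each class met by `L`
  have hch : ∀ s : D.Gt p, ∃ y : D.Gt p, y ∈ L ∧
      ((∃ x ∈ L, x * s⁻¹ ∈ D.Kmg p m) → y * s⁻¹ ∈ D.Kmg p m) := by
    intro s
    by_cases h : ∃ x ∈ L, x * s⁻¹ ∈ D.Kmg p m
    · obtain ⟨x, hx, hxs⟩ := h
      exact ⟨x, hx, fun _ => hxs⟩
    · exact ⟨1, L.one_mem, fun h' => absurd h' h⟩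
  choose y hyL hy using hch
  -- canonical representatives
  let rep : D.Gt p → D.Gt p := fun x => (Quotient.mk (QuotientGroup.rightRel H) x).out
  have hrep : ∀ x, x * (rep x)⁻¹ ∈ H := by
    intro x
    have h : (QuotientGroup.rightRel H) (rep x) x := Quotient.mk_out (s := QuotientGroup.rightRel H) x
    rwa [QuotientGroup.rightRel_apply] at h
  have hrep_eq : ∀ x z, x * z⁻¹ ∈ H → rep x = rep z := by
    intro x z h
    have h' : (Quotient.mk (QuotientGroup.rightRel H) z) = Quotient.mk (QuotientGroup.rightRel H) x := by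
      apply Quotient.sound
      show (QuotientGroup.rightRel H) z x
      rw [QuotientGroup.rightRel_apply]
      exact h
    show (Quotient.mk (QuotientGroup.rightRel H) x).out = (Quotient.mk (QuotientGroup.rightRel H) z).out
    rw [h']
  have hrepL : ∀ x ∈ L, rep x ∈ L := by
    intro x hx
    have h1 : x * (rep x)⁻¹ ∈ L := hHL (hrep x)
    have h2 : (rep x) = (x * (rep x)⁻¹)⁻¹ * x := by group
    rw [h2]
    exact L.mul_mem (L.inv_mem h1) hx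
  refine ⟨S₀.image (fun s => rep (y s)), ?_, ?_⟩
  · intro s hs
    rw [Finset.mem_image] at hs
    obtain ⟨s', _, rfl⟩ := hs
    exact hrepL _ (hyL s')
  · intro x hx
    refine ⟨rep x, ⟨?_, hrep x⟩, ?_⟩
    · obtain ⟨s, hs, hxs⟩ := hS₀ x (hL hx)
      rw [Finset.mem_image]
      refine ⟨s, hs, ?_⟩
      have h1 : y s * s⁻¹ ∈ D.Kmg p m := hy s ⟨x, hx, hxs⟩
      have h2 : x * (y s)⁻¹ ∈ H := by
        apply hH _ (L.mul_mem hx (L.inv_mem (hyL s)))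
        have h3 : x * (y s)⁻¹ = (x * s⁻¹) * (y s * s⁻¹)⁻¹ := by group
        rw [h3]
        exact (D.Kmg p m).mul_mem hxs ((D.Kmg p m).inv_mem h1)
      exact (hrep_eq x (y s) h2).symm
    · rintro z ⟨hz, hxz⟩
      rw [Finset.mem_image] at hz
      obtain ⟨s, hs, rfl⟩ := hz
      -- `x ~ rep (y s) ~ y s`
      have h1 : x * (y s)⁻¹ ∈ H := by
        have h2 : x * (y s)⁻¹ = (x * (rep (y s))⁻¹) * (y s * (rep (y s))⁻¹)⁻¹ := by group
        rw [h2]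
        exact H.mul_mem hxz (H.inv_mem (hrep (y s)))
      exact (hrep_eq x (y s) h1).symm

theorem dw_notin {y : Y} {γ : ι} (hy : D.Reg y) (h : D.Sim y γ) (h0 : 0 < D.pr γ D.y0)
    {d b u : D.Gt p} (hd : d ∈ D.Ug p (D.Dr y)) (hb : b ∈ D.Bg p)
    (hu : u ∈ D.Ug p (D.Ne D.y0)) : d * D.io p γ (S.w2 p) ≠ b * u := by
  intro hcon
  have hcont : Continuous fun z : ℚ_[p] =>
      b⁻¹ * (d * D.xr p (D.ng γ) z * D.io p γ (S.w2 p)) * u⁻¹ :=
    (continuous_const.mul ((continuous_const.mul (D.xr_cont p (D.ng γ))).mul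
      continuous_const)).mul continuous_const
  have hF0 : b⁻¹ * (d * D.xr p (D.ng γ) 0 * D.io p γ (S.w2 p)) * u⁻¹ = 1 := by
    rw [D.xr_zero, mul_one, hcon]
    group
  have hev : ∀ᶠ z in 𝓝 (0 : ℚ_[p]),
      b⁻¹ * (d * D.xr p (D.ng γ) z * D.io p γ (S.w2 p)) * u⁻¹ ∈ D.Kmg p 1 := by
    have h1 := ((D.kmg_open p 1).preimage hcont).mem_nhds (x := (0 : ℚ_[p])) (by
      show b⁻¹ * (d * D.xr p (D.ng γ) 0 * D.io p γ (S.w2 p)) * u⁻¹ ∈ D.Kmg p 1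
      rw [hF0]
      exact (D.Kmg p 1).one_mem)
    exact h1
  have hp0 : (p : ℚ_[p]) ≠ 0 := by exact_mod_cast (Fact.out : p.Prime).ne_zero
  have hp1 : (1 : ℝ) < p := by exact_mod_cast (Fact.out : p.Prime).one_lt
  have hlim : Tendsto (fun k : ℕ => (p : ℚ_[p]) ^ k) atTop (𝓝 0) := by
    apply tendsto_pow_atTop_nhds_zero_of_norm_lt_one
    exact Padic.norm_p_lt_one
  obtain ⟨K, hK⟩ := (hlim.eventually hev).exists_forall_of_atTop
  obtain ⟨⟨i, hi⟩, -⟩ := D.co_signs γ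
  have key : ∀ k : ℕ, K ≤ k → ‖b.1.1 i i‖ = (p : ℝ) ^ ((k : ℤ) * D.wp i (D.co γ)) := by
    intro k hk
    have h1 := hK k hk
    have hz : ((p : ℚ_[p]) ^ k) ≠ 0 := pow_ne_zero _ hp0
    obtain ⟨b1, hb1, u1, hu1, e1, hb1K, -⟩ := D.cellG le_rfl h1
    obtain ⟨bz, hbz, uz, huz, e2, hdiag⟩ := D.Gf6_xz h h0 hd hz
    have e3 : (b * b1) * (u1 * u) = bz * uz := by
      rw [← e2]
      have e4 : d * D.xr p (D.ng γ) ((p : ℚ_[p]) ^ k) * D.io p γ (S.w2 p) =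
          b * (b⁻¹ * (d * D.xr p (D.ng γ) ((p : ℚ_[p]) ^ k) * D.io p γ (S.w2 p)) * u⁻¹) * u := by
        group
      rw [e4, e1]
      group
    obtain ⟨e5, -⟩ := D.bu_uniq (Subgroup.mul_mem _ hb hb1) hbz (Subgroup.mul_mem _ hu1 hu) huz e3
    have e6 := hdiag i
    rw [← e5, D.Gf6_diag hb hb1 i, norm_mul, D.Gf6_norm hb1K i, mul_one] at e6
    rw [e6, Padic.norm_p_pow, ← _root_.zpow_mul]
    congr 1
    ring
  have h1 := key K le_rfl
  have h2 := key (K + 1) (Nat.le_succ K)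
  rw [h1] at h2
  have h3 := (zpow_right_injective₀ (by linarith : (0 : ℝ) < p) hp1.ne') h2
  push_cast at h3
  have h4 : D.wp i (D.co γ) = 0 := by linarith
  omega

end Ctx

end

end Pool.Agent.Lib.MP_f399a8_nt.G
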