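import Pool.Agent.Lib.MP_f399a8_ntG.Def2

/-!
# A regular element defining the positive system of a base; reindexing

PROOF of `base_y0`.  Let `S = b.support` (a `Finset`).  The simple roots are linearly independent over `ℤ` in `X` (`b.linearIndepOn_root`).  Let
`ev : X →+ (Y → ℚ)`, `ev x y = (P.toLinearMap x y : ℚ)`; it is injective and additive (`ℤ`-linear; `P.toLinearMap` is a perfect pairing, so `⟨x, y⟩ = 0` for all `y`
implies `x = 0`).  So the family `ev (root i)`, `i ∈ S`, is linearly independent over `ℤ`, hence over `ℚ` (`LinearIndependent.iff_fractionRing ℤ ℚ`; `Y → ℚ` is a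
`ℚ`-vector space).  Hence there is a `ℚ`-linear `g : (Y → ℚ) →ₗ[ℚ] ℚ` with `g (ev (root i)) = 1` for `i ∈ S` (extend the family to a basis:
`Basis.extend`/`Basis.sumExtend` and `Basis.constr`, or `LinearIndependent.repr`-like maps extended by `LinearMap.exists_extend`).  Let `m : ℕ` be the product of the
denominators of the finitely many numbers `g (ev (wt i))`, `i : κ`: `m > 0` and `m * g (ev x)` is an integer for `x = wt i`, so for all `x : X` (`hspan`,
`AddSubgroup.closure_induction`).  So `x ↦ m * g (ev x)` is an additive map `F : X →+ ℤ`, and by perfectness of the pairing there is `y0 : Y` with `⟨x, y0⟩ = F x` for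
all `x` (bijectivity of `Y → Dual ℤ X`; compare `dual_y` in `Rt1.lean`).  For a root `α`, `b.exists_root_eq_sum_int` gives `f : ι → ℤ` with
`root α = ∑ j ∈ S, f j • root j`, so `⟨root α, y0⟩ = m * ∑ j ∈ S, f j = m * b.height α` (`Base.height_eq_sum`).  `b.IsPos α` is `0 < b.height α`
(`Base.isPos_iff`), and `b.height α ≠ 0` (`Base.height_ne_zero`).
PROOF of `exists_sorted`: let `N = Fintype.card κ`, `e₀ : κ ≃ Fin N` (`Fintype.equivFin`), `g i = - f (e₀.symm i)`, `σ = Tuple.sort g : Equiv.Perm (Fin N)`, `g ∘ σ` is monotone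
(`Tuple.monotone_sort`).  `e = e₀.trans σ.symm`: `e.symm i = e₀.symm (σ i)`, `f (e.symm i) = - (g ∘ σ) i`.  If `f (e.symm j) < f (e.symm i)` then
`(g ∘ σ) i < (g ∘ σ) j`, so `i < j` (monotone, `lt_of_not_ge`).
PROOF of `reindex`: the fields follow from those of `M` by `Matrix.submatrix_mul_equiv`, `Matrix.submatrix_apply` (`(A * B).submatrix e.symm e.symm =
A.submatrix e.symm e.symm * B.submatrix e.symm e.symm`, similarly for `-`, `•`, powers: `Matrix.reindexAlgEquiv`/`Matrix.reindexLinearEquiv`) and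
`Matrix.submatrix_diagonal_equiv` (`diagonal d` becomes `diagonal (d ∘ e.symm)`).  `wt_span`: the range of `M.wt ∘ e.symm` is the range of `M.wt`.
-/

namespace Pool.Agent.Lib.MP_f399a8_nt.G

open Matrix

noncomputable section

variable {ι X Y : Type*} [Finite ι] [AddCommGroup X] [AddCommGroup Y]
  {P : RootPairing ι ℤ X Y} {κ : Type*} [Fintype κ] [DecidableEq κ]

private theorem Mb1_func (b : P.Base) : ∃ g : (Y → ℚ) →ₗ[ℚ] ℚ, ∀ i ∈ b.support,
    g (fun y => ((P.toLinearMap (P.root i) y : ℤ) : ℚ)) = 1 := by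
  let ev : X →ₗ[ℤ] (Y → ℚ) :=
    { toFun := fun x y => ((P.toLinearMap x y : ℤ) : ℚ)
      map_add' := fun x x' => by
        funext y
        show ((P.toLinearMap (x + x') y : ℤ) : ℚ) = _
        rw [map_add, LinearMap.add_apply, Int.cast_add]
        rfl
      map_smul' := fun n x => by
        funext y
        show ((P.toLinearMap (n • x) y : ℤ) : ℚ) = n • ((P.toLinearMap x y : ℤ) : ℚ)
        rw [map_smul, LinearMap.smul_apply, smul_eq_mul, Int.cast_mul, zsmul_eq_mul] }
  have hinj : LinearMap.ker ev = ⊥ := by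
    rw [LinearMap.ker_eq_bot']
    intro x hx
    apply (LinearMap.IsPerfPair.bijective_left P.toLinearMap).1
    rw [map_zero]
    apply LinearMap.ext
    intro y
    have h1 : ((P.toLinearMap x y : ℤ) : ℚ) = 0 := congrFun hx y
    rw [LinearMap.zero_apply]
    exact_mod_cast h1
  have hli : LinearIndependent ℤ (fun i : b.support => P.root i) := b.linearIndepOn_root
  have hli2 := hli.map' ev hinj
  have hli3 : LinearIndependent ℚ (⇑ev ∘ fun i : b.support => P.root i) :=
    (LinearIndependent.iff_fractionRing ℤ ℚ).1 hli2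
  obtain ⟨g, hg⟩ := LinearMap.exists_extend
    ((Module.Basis.span hli3).constr ℚ (fun _ => (1 : ℚ)))
  refine ⟨g, fun i hi => ?_⟩
  have h1 := LinearMap.congr_fun hg (Module.Basis.span hli3 ⟨i, hi⟩)
  rw [Module.Basis.constr_basis] at h1
  have h2 : ((Module.Basis.span hli3 ⟨i, hi⟩ : Submodule.span ℚ
      (Set.range (⇑ev ∘ fun i : b.support => P.root i))) : Y → ℚ) = ev (P.root i) :=
    congrArg Subtype.val (Module.Basis.span_apply hli3 ⟨i, hi⟩)
  rw [LinearMap.comp_apply, Submodule.subtype_apply, h2] at h1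
  exact h1

theorem base_y0 (b : P.Base) {wt : κ → X} (hspan : AddSubgroup.closure (Set.range wt) = ⊤) :
    ∃ y0 : Y, ∀ α, (0 < P.toLinearMap (P.root α) y0 ↔ b.IsPos α) ∧
      P.toLinearMap (P.root α) y0 ≠ 0 := by
  obtain ⟨g, hg⟩ := Mb1_func b
  have hadd : ∀ x x' : X, (fun y => ((P.toLinearMap (x + x') y : ℤ) : ℚ)) =
      (fun y => ((P.toLinearMap x y : ℤ) : ℚ)) + (fun y => ((P.toLinearMap x' y : ℤ) : ℚ)) := by
    intro x x'
    funext y
    rw [map_add, LinearMap.add_apply, Int.cast_add]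
    rfl
  let G : X →+ ℚ :=
    { toFun := fun x => g (fun y => ((P.toLinearMap x y : ℤ) : ℚ))
      map_zero' := by
        have h : (fun y => ((P.toLinearMap (0 : X) y : ℤ) : ℚ)) = (0 : Y → ℚ) := by
          funext y
          rw [map_zero, LinearMap.zero_apply, Int.cast_zero]
          rfl
        rw [h, map_zero]
      map_add' := fun x x' => by rw [hadd, map_add] }
  have hG1 : ∀ i ∈ b.support, G (P.root i) = 1 := fun i hi => hg i hi
  obtain ⟨m, hm0, hm⟩ : ∃ m : ℕ, 0 < m ∧ ∀ i : κ, ∃ z : ℤ, (z : ℚ) = (m : ℚ) * G (wt i) := by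
    refine ⟨∏ i, (G (wt i)).den, Finset.prod_pos fun i _ => (G (wt i)).den_pos, fun i => ?_⟩
    refine ⟨(∏ j ∈ Finset.univ.erase i, ((G (wt j)).den : ℤ)) * (G (wt i)).num, ?_⟩
    rw [← Finset.mul_prod_erase Finset.univ _ (Finset.mem_univ i)]
    have h1 : ((G (wt i)).den : ℚ) * G (wt i) = ((G (wt i)).num : ℚ) := by
      rw [mul_comm]
      exact Rat.mul_den_eq_num _
    push_cast
    rw [← h1]
    ring
  have hint : ∀ x : X, ∃ z : ℤ, (z : ℚ) = (m : ℚ) * G x := by
    intro x
    have hx : x ∈ AddSubgroup.closure (Set.range wt) := by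
      rw [hspan]
      trivial
    induction hx using AddSubgroup.closure_induction with
    | mem x hx =>
      obtain ⟨i, rfl⟩ := hx
      exact hm i
    | zero => exact ⟨0, by rw [map_zero, mul_zero, Int.cast_zero]⟩
    | add x x' _ _ h h' =>
      obtain ⟨z, hz⟩ := h
      obtain ⟨z', hz'⟩ := h'
      exact ⟨z + z', by rw [Int.cast_add, hz, hz', map_add, mul_add]⟩
    | neg x _ h =>
      obtain ⟨z, hz⟩ := h
      exact ⟨-z, by rw [Int.cast_neg, hz, map_neg, mul_neg]⟩
  choose F hF using hint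
  let F' : X →+ ℤ := AddMonoidHom.mk' F fun x x' => by
    have h : ((F (x + x') : ℤ) : ℚ) = ((F x + F x' : ℤ) : ℚ) := by
      rw [hF, Int.cast_add, hF, hF, map_add, mul_add]
    exact_mod_cast h
  obtain ⟨y0, hy0⟩ := (LinearMap.IsPerfPair.bijective_right P.toLinearMap).2
    (F'.toIntLinearMap : Module.Dual ℤ X)
  have hy : ∀ x, P.toLinearMap x y0 = F x := fun x => LinearMap.congr_fun hy0 x
  have hht : ∀ α, P.toLinearMap (P.root α) y0 = (m : ℤ) * b.height α := by
    intro α
    obtain ⟨f, -, -, hf⟩ := b.exists_root_eq_sum_int α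
    rw [RootPairing.Base.height_eq_sum hf, hy]
    have h1 : ((F (P.root α) : ℤ) : ℚ) = ((m * ∑ j ∈ b.support, f j : ℤ) : ℚ) := by
      rw [hF, hf, map_sum]
      push_cast
      congr 1
      refine Finset.sum_congr rfl fun j hj => ?_
      rw [map_zsmul, hG1 j hj, zsmul_eq_mul, mul_one]
    exact_mod_cast h1
  have hm0' : (0 : ℤ) < m := by exact_mod_cast hm0
  refine ⟨y0, fun α => ?_⟩
  rw [hht]
  exact ⟨by rw [RootPairing.Base.isPos_iff, mul_pos_iff_of_pos_left hm0'],
    mul_ne_zero hm0'.ne' (b.height_ne_zero α)⟩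

theorem exists_sorted (f : κ → ℤ) : ∃ e : κ ≃ Fin (Fintype.card κ),
    ∀ i j, f (e.symm j) < f (e.symm i) → i < j := by
  let e₀ := Fintype.equivFin κ
  let g : Fin (Fintype.card κ) → ℤ := fun i => - f (e₀.symm i)
  let σ := Tuple.sort g
  have hσ : Monotone (g ∘ σ) := Tuple.monotone_sort g
  refine ⟨e₀.trans σ.symm, fun i j h => ?_⟩
  have h1 : (g ∘ σ) i < (g ∘ σ) j := by
    show - f (e₀.symm (σ i)) < - f (e₀.symm (σ j))
    have h2 : f (e₀.symm (σ j)) < f (e₀.symm (σ i)) := h
    omega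
  exact lt_of_not_ge fun h2 => absurd (hσ h2) (not_le.mpr h1)

private theorem Mb1_key {κ : Type*} [Fintype κ] {κ' : Type*} [Fintype κ'] (e : κ ≃ κ') (A B : Matrix κ κ ℤ) :
    A.submatrix e.symm e.symm * B.submatrix e.symm e.symm = (A * B).submatrix e.symm e.symm :=
  Matrix.submatrix_mul_equiv A B _ e.symm _

private theorem Mb1_pow {κ : Type*} [Fintype κ] [DecidableEq κ] {κ' : Type*} [Fintype κ']
    [DecidableEq κ'] (e : κ ≃ κ') (A : Matrix κ κ ℤ) (k : ℕ) :
    (A.submatrix e.symm e.symm) ^ k = (A ^ k).submatrix e.symm e.symm := by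
  induction k with
  | zero => rw [pow_zero, pow_zero, Matrix.submatrix_one_equiv]
  | succ k ih => rw [pow_succ, pow_succ, ih, Mb1_key]

/-- reindexing a Chevalley module -/
def ChevMod.reindex (M : ChevMod P κ) {κ' : Type*} [Fintype κ'] [DecidableEq κ'] (e : κ ≃ κ') :
    ChevMod P κ' where
  wt := fun i => M.wt (e.symm i)
  E := fun α => (M.E α).submatrix e.symm e.symm
  wt_span := by
    have h : Set.range (fun i => M.wt (e.symm i)) = Set.range M.wt :=
      e.symm.surjective.range_comp M.wt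
    rw [h]
    exact M.wt_span
  E_wt := by
    intro α i j h
    exact M.E_wt α (e.symm i) (e.symm j) h
  E_neg := by
    intro α β h
    rw [Mb1_key, Mb1_key]
    exact (congrArg (fun A : Matrix κ κ ℤ => A.submatrix e.symm e.symm) (M.E_neg α β h)).trans
      (Matrix.submatrix_diagonal_equiv _ e.symm)
  E_add := by
    intro α β γ h
    rw [Mb1_key, Mb1_key]
    rcases M.E_add α β γ h with h1 | h1
    · exact Or.inl (congrArg (fun A : Matrix κ κ ℤ => A.submatrix e.symm e.symm) h1)
    · exact Or.inr (congrArg (fun A : Matrix κ κ ℤ => A.submatrix e.symm e.symm) h1)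
  E_comm := by
    intro α β h h1
    rw [Mb1_key, Mb1_key, M.E_comm α β h h1]
  E_div := by
    intro α k
    obtain ⟨A, hA⟩ := M.E_div α k
    refine ⟨A.submatrix e.symm e.symm, ?_⟩
    rw [Mb1_pow, hA]
    rfl

end

end Pool.Agent.Lib.MP_f399a8_nt.G
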