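import Pool.Agent.Lib.MP_f399a8_ntG.Gf5

/-!
# The character of the Borel subgroup, principal series

`tp b` is the torus part of `b ∈ Bg` (`bg_fac`), `cb χ b = χ (tp b)`.

PROOF.
* `tp_val`: `bg_diag`.  `tp_eq`: elements of the torus are determined by the diagonal (`tg_ext`).  `tp_tg`, `tp_unip`, `tp_mul` by comparing diagonals
  (`(b * b') i i = b i i * b' i i` for upper triangular matrices; for elements of the torus too).
* `cb_*` follow.  `cb_conj`: `t * b * t⁻¹` has the diagonal of `b`.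
* `cb_near`: `χ` is continuous at `1 : ↥Tg`, whose topology is induced from `Gt`: there is a neighbourhood `s` of `1` in `Gt` such that
  `‖χ t - 1‖ ≤ ε` for `t ∈ Tg`, `t ∈ s`; `kmg_nhds` gives `m` (increase it to `≥ 1`).  If `b ∈ Bg ∩ Kmg m` then `tp b ∈ Kmg m`: its diagonal entries are
  those of `b`, the others are `0`.
-/

namespace Pool.Agent.Lib.MP_f399a8_nt.G

open Matrix Filter Topology

noncomputable section

namespace Ctx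

variable {ι X Y : Type*} [Finite ι] [AddCommGroup X] [AddCommGroup Y] {N : ℕ} (D : Ctx ι X Y N)
  {p : ℕ} [Fact p.Prime] {C : Type*} [NormedField C]

open Classical in
/-- the torus part of an upper triangular element -/
def tp (b : D.Gt p) : ↥(D.Tg p) :=
  if h : b ∈ D.Bg p then
    ⟨Classical.choose (D.bg_fac h), (Classical.choose_spec (D.bg_fac h)).1⟩
  else 1

/-- the character `χ` of the torus as a function on upper triangular elements -/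
def cb (χ : ↥(D.Tg p) →* Cˣ) (b : D.Gt p) : C := (χ (D.tp b) : C)

theorem Oa1_mul {b b' : D.Gt p} (hb : b ∈ D.Bg p) (hb' : b' ∈ D.Bg p) (i : Fin N) :
    (b * b').1.1 i i = b.1.1 i i * b'.1.1 i i := by
  rw [D.val_mul, Matrix.mul_apply]
  refine Finset.sum_eq_single i (fun k _ hk => ?_) (fun h => absurd (Finset.mem_univ i) h)
  rcases lt_or_gt_of_ne hk with h | h
  · rw [(D.mem_Bg p).1 hb i k h, zero_mul]
  · rw [(D.mem_Bg p).1 hb' k i h, mul_zero]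

theorem tp_val {b : D.Gt p} (hb : b ∈ D.Bg p) (i : Fin N) :
    (D.tp b).1.1.1 i i = b.1.1 i i := by
  have h0 : D.tp b = ⟨Classical.choose (D.bg_fac hb), (Classical.choose_spec (D.bg_fac hb)).1⟩ :=
    dif_pos hb
  obtain ⟨ht, u, hu, hx⟩ := Classical.choose_spec (D.bg_fac hb)
  rw [h0]
  exact (D.bg_diag ht hu hx i).symm

theorem tp_eq {b b' : D.Gt p} (hb : b ∈ D.Bg p) (hb' : b' ∈ D.Bg p)
    (h : ∀ i, b.1.1 i i = b'.1.1 i i) : D.tp b = D.tp b' := by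
  refine Subtype.ext (D.tg_ext (D.tp b).2 (D.tp b').2 fun i => ?_)
  rw [D.tp_val hb, D.tp_val hb', h]

theorem tp_tg {t : D.Gt p} (ht : t ∈ D.Tg p) : D.tp t = ⟨t, ht⟩ :=
  Subtype.ext (D.tg_ext (D.tp t).2 ht fun i => D.tp_val (D.tg_bg ht) i)

theorem tp_unip {u : D.Gt p} (hu : u ∈ D.Ug p (D.Po D.y0)) : D.tp u = 1 := by
  refine Subtype.ext (D.tg_ext (D.tp u).2 (one_mem _) fun i => ?_)
  rw [D.tp_val (D.po_bg (fun α hα => hα) hu), D.ug_diag (fun α hα => hα) hu]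
  show 1 = (1 : Matrix (Fin N) (Fin N) ℚ_[p]) i i
  rw [Matrix.one_apply_eq]

theorem tp_mul {b b' : D.Gt p} (hb : b ∈ D.Bg p) (hb' : b' ∈ D.Bg p) :
    D.tp (b * b') = D.tp b * D.tp b' := by
  refine Subtype.ext (D.tg_ext (D.tp (b * b')).2 (D.tp b * D.tp b').2 fun i => ?_)
  rw [D.tp_val (mul_mem hb hb'), D.Oa1_mul hb hb', Subgroup.coe_mul,
    D.Oa1_mul (D.tg_bg (D.tp b).2) (D.tg_bg (D.tp b').2), D.tp_val hb, D.tp_val hb']

theorem cb_ne_zero (χ : ↥(D.Tg p) →* Cˣ) (b : D.Gt p) : D.cb χ b ≠ 0 :=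
  Units.ne_zero _

theorem cb_eq (χ : ↥(D.Tg p) →* Cˣ) {b b' : D.Gt p} (hb : b ∈ D.Bg p) (hb' : b' ∈ D.Bg p)
    (h : ∀ i, b.1.1 i i = b'.1.1 i i) : D.cb χ b = D.cb χ b' := by
  rw [cb, cb, D.tp_eq hb hb' h]

theorem cb_mul (χ : ↥(D.Tg p) →* Cˣ) {b b' : D.Gt p} (hb : b ∈ D.Bg p) (hb' : b' ∈ D.Bg p) :
    D.cb χ (b * b') = D.cb χ b * D.cb χ b' := by
  rw [cb, cb, cb, D.tp_mul hb hb', map_mul, Units.val_mul]

theorem Oa1_one (χ : ↥(D.Tg p) →* Cˣ) : D.cb χ 1 = 1 := by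
  rw [cb, D.tp_unip (one_mem _), map_one, Units.val_one]

theorem cb_unip (χ : ↥(D.Tg p) →* Cˣ) {b : D.Gt p} (hb : b ∈ D.Bg p)
    (h : ∀ i, b.1.1 i i = 1) : D.cb χ b = 1 := by
  rw [← D.Oa1_one χ]
  refine D.cb_eq χ hb (one_mem _) fun i => ?_
  rw [h, D.val_one, Matrix.one_apply_eq]

theorem cb_ug (χ : ↥(D.Tg p) →* Cˣ) {S' : Set ι} (h : ∀ α ∈ S', 0 < D.pr α D.y0) {u : D.Gt p}
    (hu : u ∈ D.Ug p S') : D.cb χ u = 1 :=
  D.cb_unip χ (D.po_bg h hu) fun i => D.ug_diag h hu i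

theorem cb_inv (χ : ↥(D.Tg p) →* Cˣ) {b : D.Gt p} (hb : b ∈ D.Bg p) :
    D.cb χ b⁻¹ = (D.cb χ b)⁻¹ := by
  have h1 := D.cb_mul χ hb (inv_mem hb)
  rw [mul_inv_cancel, D.Oa1_one] at h1
  exact eq_inv_of_mul_eq_one_right h1.symm

theorem cb_conj (χ : ↥(D.Tg p) →* Cˣ) {t : D.Gt p} (ht : t ∈ D.Tg p) {b : D.Gt p}
    (hb : b ∈ D.Bg p) : D.cb χ (t * b * t⁻¹) = D.cb χ b ∧ D.cb χ (t⁻¹ * b * t) = D.cb χ b := by
  have h0 := D.cb_ne_zero χ t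
  have ht' := D.tg_bg ht
  constructor
  · rw [D.cb_mul χ (mul_mem ht' hb) (inv_mem ht'), D.cb_mul χ ht' hb, D.cb_inv χ ht']
    field_simp
  · rw [D.cb_mul χ (mul_mem (inv_mem ht') hb) ht', D.cb_mul χ (inv_mem ht') hb, D.cb_inv χ ht']
    field_simp

theorem cb_tg (χ : ↥(D.Tg p) →* Cˣ) {t : D.Gt p} (ht : t ∈ D.Tg p) :
    D.cb χ t = (χ ⟨t, ht⟩ : C) := by
  rw [cb, D.tp_tg ht]

theorem cb_near {χ : ↥(D.Tg p) →* Cˣ} (hχ : Continuous χ) {ε : ℝ} (hε : 0 < ε) :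
    ∃ m : ℕ, 1 ≤ m ∧ ∀ b ∈ D.Bg p, b ∈ D.Kmg p m → ‖D.cb χ b - 1‖ ≤ ε := by
  have h1 : Continuous fun t : ↥(D.Tg p) => ‖(χ t : C) - 1‖ :=
    ((Units.continuous_val.comp hχ).sub continuous_const).norm
  have h2 : {t : ↥(D.Tg p) | ‖(χ t : C) - 1‖ < ε} ∈ 𝓝 (1 : ↥(D.Tg p)) := by
    refine (isOpen_lt h1 continuous_const).mem_nhds ?_
    show ‖(χ 1 : C) - 1‖ < ε
    rw [map_one, Units.val_one, sub_self, norm_zero]
    exact hε
  rw [nhds_subtype, Filter.mem_comap] at h2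
  obtain ⟨s, hs, hs'⟩ := h2
  obtain ⟨m, hm⟩ := D.kmg_nhds (s := s) hs
  refine ⟨m + 1, Nat.le_add_left 1 m, fun b hb hbm => ?_⟩
  have h3 : (D.tp b).1 ∈ D.Kmg p (m + 1) := by
    refine (D.mem_Kmg p).2 fun i j => ?_
    by_cases hij : i = j
    · subst hij
      rw [D.tp_val hb]
      exact (D.mem_Kmg p).1 hbm i i
    · rw [D.tg_off (D.tp b).2 hij, Matrix.one_apply_ne hij, sub_zero, norm_zero]
      positivity
  have h4 : D.tp b ∈ {t : ↥(D.Tg p) | ‖(χ t : C) - 1‖ < ε} :=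
    hs' (hm _ (D.kmg_anti (Nat.le_succ m) h3))
  exact le_of_lt h4

/-- `f` is in the continuous induction of `χ` -/
def PS (χ : ↥(D.Tg p) →* Cˣ) (f : D.Gt p → C) : Prop :=
  Continuous f ∧ ∀ b ∈ D.Bg p, ∀ g, f (b * g) = D.cb χ b * f g

/-- closed invariant subspaces of the continuous induction of `χ` -/
structure CS (χ : ↥(D.Tg p) →* Cˣ) (W : Set (D.Gt p → C)) : Prop where
  isPS : ∀ f ∈ W, D.PS χ f
  zero : (fun _ => 0) ∈ W
  add : ∀ f ∈ W, ∀ f' ∈ W, (fun x => f x + f' x) ∈ W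
  smul : ∀ c : C, ∀ f ∈ W, (fun x => c * f x) ∈ W
  trans : ∀ g : D.Gt p, ∀ f ∈ W, (fun x => f (x * g)) ∈ W
  closed : ∀ f, D.PS χ f → (∀ ε : ℝ, 0 < ε → ∃ w ∈ W, ∀ x ∈ D.Kg p, ‖f x - w x‖ ≤ ε) → f ∈ W

end Ctx

end

end Pool.Agent.Lib.MP_f399a8_nt.G
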