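import Pool.Agent.Lib.MP_f399a8_ntG.Mb1
import Pool.Agent.Lib.MP_f399a8_ntG.Oa1

/-!
# The group isomorphism given by reindexing

`M : ChevMod D.P κ`, `e : κ ≃ Fin N`, `D.M = M.reindex e`.

PROOF of `xmat_reindex`: `(D.xm p α s) = (xmat M p α s).submatrix e.symm e.symm`: `D.xm p α s = IsNilpotent.exp (s • (D.M.E α).map _)`, and
`(D.M.E α).map f = ((M.E α).map f).submatrix e.symm e.symm` (`hM`; `subst`-like rewriting of `D.M`).  Reindexing is a `ℚ`-algebra isomorphism
`Matrix κ κ ℚ_[p] ≃ₐ[ℚ] Matrix (Fin N) (Fin N) ℚ_[p]` (`Matrix.reindexAlgEquiv`), and `s • (D.M.E α).map _` is nilpotent (`D.ef_nil_smul`), so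
`s • (M.E α).map _` is nilpotent too and `IsNilpotent.map_exp` applies.
PROOF of `chev_iso`.  Let `R : SpecialLinearGroup κ ℚ_[p] ≃* SpecialLinearGroup (Fin N) ℚ_[p]` be the reindexing (`g ↦ g.1.submatrix e.symm e.symm`, determinant:
`Matrix.det_submatrix_equiv_self`), with inverse `g ↦ g.1.submatrix e e`.  `R` maps the generating set of `chevGroup M p` onto that of `D.GG p` (`xmat_reindex`), so it maps
`chevGroup M p` onto `D.GG p` (`MonoidHom.map_closure`); restrict (`MulEquiv.subgroupMap`, `MulEquiv.subgroupCongr`).  Continuity: the topologies are the subspace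
topologies and the entries of `R g` are entries of `g` (`continuous_induced_rng`, `Continuous.matrix_submatrix`).
PROOF of `int_iff`, `torus_iff`: entries; `t.1.1 = diagonal d` iff `t.1.1.submatrix e.symm e.symm = diagonal (d ∘ e.symm)`, and `D.M.wt i = M.wt (e.symm i)`.
PROOF of `unip_iff`: `unip M b p` is the closure of the elements `g` with `g.1.1 = xmat M p α s`, `α` positive; `Φ` maps these onto the generators of
`D.Ug p (D.Po D.y0)` (`D.Po D.y0` is the set of the positive roots by `hb`; `xmat_reindex`), so (`Subgroup.map`, `MonoidHom.map_closure`, `Φ` is an isomorphism)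
`u ∈ unip M b p ↔ Φ u ∈ D.Ug p (D.Po D.y0)`.
-/

namespace Pool.Agent.Lib.MP_f399a8_nt.G

open Matrix

noncomputable section

namespace Ctx

variable {ι X Y : Type*} [Finite ι] [AddCommGroup X] [AddCommGroup Y] {N : ℕ} (D : Ctx ι X Y N)
  {κ : Type*} [Fintype κ] [DecidableEq κ] {M : ChevMod D.P κ} {b : D.P.Base} {e : κ ≃ Fin N}
  (p : ℕ) [Fact p.Prime]

theorem xmat_reindex (hM : D.M = M.reindex e) (α : ι) (s : ℚ_[p]) :
    D.xm p α s = (xmat M p α s).submatrix e.symm e.symm := by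
  have hE : D.M.E α = (M.E α).submatrix e.symm e.symm := by
    rw [hM]
    rfl
  have h1 : D.Ef p α = ((M.E α).map (fun z : ℤ => (z : ℚ_[p]))).submatrix e.symm e.symm := by
    unfold Ef
    rw [hE]
    rfl
  let R : Matrix κ κ ℚ_[p] ≃ₐ[ℚ] Matrix (Fin N) (Fin N) ℚ_[p] := Matrix.reindexAlgEquiv ℚ ℚ_[p] e
  have hR : ∀ A : Matrix κ κ ℚ_[p], R A = A.submatrix e.symm e.symm := fun _ => rfl
  have h2 : s • D.Ef p α = R (s • (M.E α).map (fun z : ℤ => (z : ℚ_[p]))) := by
    rw [h1, hR]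
    rfl
  have hn : IsNilpotent (s • (M.E α).map (fun z : ℤ => (z : ℚ_[p]))) := by
    have h3 := D.ef_nil_smul p α s
    rw [h2] at h3
    exact (IsNilpotent.map_iff R.injective).1 h3
  unfold xm xmat
  rw [h2, ← hR, IsNilpotent.map_exp hn R]

/-- reindexing of the special linear group -/
def Mc1_R (e : κ ≃ Fin N) :
    SpecialLinearGroup κ ℚ_[p] ≃* SpecialLinearGroup (Fin N) ℚ_[p] where
  toFun g := ⟨g.1.submatrix e.symm e.symm, by
    rw [Matrix.det_submatrix_equiv_self]
    exact g.2⟩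
  invFun g := ⟨g.1.submatrix e e, by
    rw [Matrix.det_submatrix_equiv_self]
    exact g.2⟩
  left_inv g := by
    refine Subtype.ext ?_
    show (g.1.submatrix e.symm e.symm).submatrix e e = g.1
    ext i j
    simp
  right_inv g := by
    refine Subtype.ext ?_
    show (g.1.submatrix e e).submatrix e.symm e.symm = g.1
    ext i j
    simp
  map_mul' g h := by
    refine Subtype.ext ?_
    show (g.1 * h.1).submatrix e.symm e.symm =
      (g.1.submatrix e.symm e.symm) * (h.1.submatrix e.symm e.symm)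
    rw [Matrix.submatrix_mul_equiv]

theorem Mc1_R_val (e : κ ≃ Fin N) (g : SpecialLinearGroup κ ℚ_[p]) :
    (Mc1_R p e g).1 = g.1.submatrix e.symm e.symm := rfl

theorem Mc1_R_symm_val (e : κ ≃ Fin N) (g : SpecialLinearGroup (Fin N) ℚ_[p]) :
    ((Mc1_R p e).symm g).1 = g.1.submatrix e e := rfl

omit [Fintype κ] [DecidableEq κ] in
theorem Mc1_sub_inj (e : κ ≃ Fin N) {A B : Matrix κ κ ℚ_[p]}
    (h : A.submatrix e.symm e.symm = B.submatrix e.symm e.symm) : A = B := by
  ext i j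
  have h1 := congrFun (congrFun h (e i)) (e j)
  simpa using h1

theorem Mc1_map (hM : D.M = M.reindex e) :
    (chevGroup M p).map (Mc1_R p e : SpecialLinearGroup κ ℚ_[p] →* SpecialLinearGroup (Fin N) ℚ_[p]) =
      D.GG p := by
  unfold GG chevGroup
  rw [MonoidHom.map_closure]
  congr 1
  ext g
  constructor
  · rintro ⟨h, ⟨α, s, hs⟩, rfl⟩
    refine ⟨α, s, ?_⟩
    show (Mc1_R p e h).1 = D.xm p α s
    rw [Mc1_R_val, hs, D.xmat_reindex p hM]
  · rintro ⟨α, s, hs⟩
    refine ⟨(Mc1_R p e).symm g, ⟨α, s, ?_⟩, ?_⟩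
    · apply Mc1_sub_inj p e
      rw [← D.xmat_reindex p hM, ← Mc1_R_val, MulEquiv.apply_symm_apply]
      exact hs
    · show Mc1_R p e ((Mc1_R p e).symm g) = g
      rw [MulEquiv.apply_symm_apply]

theorem chev_iso (hM : D.M = M.reindex e) : ∃ Φ : ↥(chevGroup M p) ≃* D.Gt p,
    Continuous Φ ∧ Continuous Φ.symm ∧
      ∀ g, (Φ g).1.1 = g.1.1.submatrix e.symm e.symm := by
  let Φ : ↥(chevGroup M p) ≃* D.Gt p :=
    ((Mc1_R p e).subgroupMap (chevGroup M p)).trans (MulEquiv.subgroupCongr (D.Mc1_map p hM))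
  have h1 : ∀ g, (Φ g).1.1 = g.1.1.submatrix e.symm e.symm := fun _ => rfl
  have h2 : ∀ g, (Φ.symm g).1.1 = g.1.1.submatrix e e := by
    intro g
    apply Mc1_sub_inj p e
    rw [← h1, MulEquiv.apply_symm_apply]
    ext i j
    simp
  have h3 : Continuous fun g : ↥(chevGroup M p) => g.1.1.submatrix e.symm e.symm := by
    have h5 : Continuous fun g : ↥(chevGroup M p) => g.1.1 :=
      continuous_induced_dom.comp continuous_induced_dom
    exact h5.matrix_submatrix _ _
  have h4 : Continuous fun g : D.Gt p => g.1.1.submatrix e e := by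
    have h5 : Continuous fun g : D.Gt p => g.1.1 :=
      continuous_induced_dom.comp continuous_induced_dom
    exact h5.matrix_submatrix _ _
  refine ⟨Φ, ?_, ?_, h1⟩
  · refine continuous_induced_rng.2 (continuous_induced_rng.2 ?_)
    show Continuous fun g : ↥(chevGroup M p) => (Φ g).1.1
    simp only [h1]
    exact h3
  · refine continuous_induced_rng.2 (continuous_induced_rng.2 ?_)
    show Continuous fun g : D.Gt p => (Φ.symm g).1.1
    simp only [h2]
    exact h4

variable {p} {Φ : ↥(chevGroup M p) ≃* D.Gt p}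

theorem int_iff (hΦ : ∀ g, (Φ g).1.1 = g.1.1.submatrix e.symm e.symm)
    (g : ↥(chevGroup M p)) : IsIntegral M g ↔ Φ g ∈ D.Kg p := by
  rw [D.mem_Kg]
  unfold IsIntegral
  rw [hΦ]
  constructor
  · intro h i j
    exact h _ _
  · intro h i j
    have h1 := h (e i) (e j)
    simpa using h1

theorem torus_iff (hM : D.M = M.reindex e) (hΦ : ∀ g, (Φ g).1.1 = g.1.1.submatrix e.symm e.symm)
    (g : ↥(chevGroup M p)) : g ∈ torus M p ↔ Φ g ∈ D.Tg p := by
  have hwt : ∀ i, D.M.wt i = M.wt (e.symm i) := by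
    intro i
    rw [hM]
    rfl
  constructor
  · rintro ⟨τ, hτ, hg⟩
    refine ⟨τ, hτ, ?_⟩
    rw [hΦ, hg, Matrix.submatrix_diagonal_equiv]
    congr 1
    funext i
    rw [hwt]
    rfl
  · rintro ⟨τ, hτ, hg⟩
    refine ⟨τ, hτ, ?_⟩
    apply Mc1_sub_inj p e
    rw [← hΦ, hg, Matrix.submatrix_diagonal_equiv]
    congr 1
    funext i
    rw [hwt]
    rfl

theorem unip_iff (hM : D.M = M.reindex e) (hΦ : ∀ g, (Φ g).1.1 = g.1.1.submatrix e.symm e.symm)
    (hb : ∀ α, 0 < D.pr α D.y0 ↔ b.IsPos α) (g : ↥(chevGroup M p)) :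
    g ∈ unip M b p ↔ Φ g ∈ D.Ug p (D.Po D.y0) := by
  have h1 : (unip M b p).map (Φ : ↥(chevGroup M p) →* D.Gt p) = D.Ug p (D.Po D.y0) := by
    unfold unip Ug
    rw [MonoidHom.map_closure]
    congr 1
    ext g
    constructor
    · rintro ⟨h, ⟨α, s, hα, hs⟩, rfl⟩
      refine ⟨α, (hb α).2 hα, s, ?_⟩
      show (Φ h).1.1 = D.xm p α s
      rw [hΦ, hs, D.xmat_reindex p hM]
    · rintro ⟨α, hα, s, hs⟩
      refine ⟨Φ.symm g, ⟨α, s, (hb α).1 hα, ?_⟩, ?_⟩
      · apply Mc1_sub_inj p e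
        rw [← D.xmat_reindex p hM, ← hΦ, MulEquiv.apply_symm_apply]
        exact hs
      · show Φ (Φ.symm g) = g
        rw [MulEquiv.apply_symm_apply]
  rw [← h1]
  exact (Subgroup.mem_map_iff_mem Φ.injective).symm

end Ctx

end

end Pool.Agent.Lib.MP_f399a8_nt.G
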