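import Pool.Agent.Lib.MP_f399a8_ntG.Mc1

/-!
# Transport of reducibility

PROOF.  Let `Φ` be as in `chev_iso`.  `ψ : ↥(torus M p) ≃* ↥(D.Tg p)`, `ψ t = ⟨Φ t, _⟩` (`torus_iff`), a homeomorphism (subspace topologies).
`χ' = χ ∘ ψ.symm`, continuous.  `χ' t' = χ t` if `t'.1.1.1 = t.1.1.1.submatrix e.symm e.symm`: then `t' = ψ t` (equality of matrices).
Let `W' = {f' | f' ∘ Φ ∈ W}` (as functions `D.Gt p → C`).  For a function `f'` on `D.Gt p`: `D.PS χ' f' ↔ IsPS M b χ (f' ∘ Φ)`: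
(→) for `t`, `u`, `g`: `f' (Φ t * Φ u * Φ g) = D.cb χ' (Φ t * Φ u) * f' (Φ g)`, `Φ t ∈ Tg` (`tg_bg`), `Φ u ∈ Ug (Po y0)` (`unip_iff`, `po_bg`), and
`cb χ' (Φ t * Φ u) = cb χ' (Φ t) * cb χ' (Φ u) = χ' ⟨Φ t, _⟩ = χ t` (`cb_mul`, `cb_tg`, `cb_ug`).
(←) `b' ∈ Bg` is `t' * u'` (`bg_fac`), `t' = Φ t`, `u' = Φ u` with `t ∈ torus`, `u ∈ unip` (`torus_iff`, `unip_iff` for `Φ.symm t'`, `Φ.symm u'`), same computation.
The properties of `D.CS χ' W'` follow (`int_iff` for `closed`: given `f'` with `D.PS χ' f'` and approximations `w' ∈ W'` on `Kg`, the functions `w' ∘ Φ ∈ W` approximate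
`f' ∘ Φ` on the integral points).  `(∃ f ∈ W, f x ≠ 0)`: `f ∘ Φ.symm ∈ W'` (`(f ∘ Φ.symm) ∘ Φ = f`).  The function `f` with `IsPS M b χ f`, `f ∉ W`: `f ∘ Φ.symm`.
-/

namespace Pool.Agent.Lib.MP_f399a8_nt.G

open Matrix

noncomputable section

namespace Ctx

variable {ι X Y : Type*} [Finite ι] [AddCommGroup X] [AddCommGroup Y] {N : ℕ} (D : Ctx ι X Y N)
  {κ : Type*} [Fintype κ] [DecidableEq κ] {M : ChevMod D.P κ} {b : D.P.Base} {e : κ ≃ Fin N}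
  {p : ℕ} [Fact p.Prime] {C : Type*} [NormedField C]

theorem red_transport (hM : D.M = M.reindex e) (hb : ∀ α, 0 < D.pr α D.y0 ↔ b.IsPos α)
    {χ : ↥(torus M p) →* Cˣ} (hχ : Continuous χ) (hred : IsReducible M b χ) :
    ∃ χ' : ↥(D.Tg p) →* Cˣ, Continuous χ' ∧
      (∀ (t : ↥(torus M p)) (t' : ↥(D.Tg p)),
        t'.1.1.1 = t.1.1.1.submatrix e.symm e.symm → χ' t' = χ t) ∧
      (∀ t' : ↥(D.Tg p), ∃ t : ↥(torus M p), t'.1.1.1 = t.1.1.1.submatrix e.symm e.symm) ∧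
      ∃ W : Set (D.Gt p → C), D.CS χ' W ∧ (∃ f ∈ W, ∃ x, f x ≠ 0) ∧
        ∃ f, D.PS χ' f ∧ f ∉ W := by
  obtain ⟨Φ, hc, hc', hΦ⟩ := D.chev_iso p hM
  have hθ : ∀ t' : ↥(D.Tg p), Φ.symm t'.1 ∈ torus M p := by
    intro t'
    rw [D.torus_iff hM hΦ, MulEquiv.apply_symm_apply]
    exact t'.2
  let θ : ↥(D.Tg p) →* ↥(torus M p) :=
    { toFun := fun t' => ⟨Φ.symm t'.1, hθ t'⟩
      map_one' := Subtype.ext (map_one Φ.symm)
      map_mul' := fun s t => Subtype.ext (map_mul Φ.symm s.1 t.1) }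
  have hθv : ∀ t' : ↥(D.Tg p), (θ t').1 = Φ.symm t'.1 := fun _ => rfl
  have hθc : Continuous θ := (hc'.comp continuous_subtype_val).subtype_mk _
  obtain ⟨χ', hχ'⟩ : ∃ χ' : ↥(D.Tg p) →* Cˣ, χ' = χ.comp θ := ⟨_, rfl⟩
  have hχv : ∀ t' : ↥(D.Tg p), χ' t' = χ (θ t') := by
    intro t'
    rw [hχ']
    rfl
  -- the value of the extended character
  have hT : ∀ t ∈ torus M p, Φ t ∈ D.Tg p := fun t ht => (D.torus_iff hM hΦ t).1 ht
  have hU : ∀ u ∈ unip M b p, Φ u ∈ D.Ug p (D.Po D.y0) :=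
    fun u hu => (D.unip_iff hM hΦ hb u).1 hu
  have hcb : ∀ (t : ↥(torus M p)) (u' : D.Gt p), u' ∈ D.Ug p (D.Po D.y0) →
      D.cb χ' (Φ t.1 * u') = (χ t : C) := by
    intro t u' hu'
    have h1 : Φ t.1 ∈ D.Tg p := hT t.1 t.2
    rw [D.cb_mul χ' (D.tg_bg h1) (D.po_bg (fun α hα => hα) hu'), D.cb_tg χ' h1,
      D.cb_ug χ' (fun α hα => hα) hu', mul_one, hχv]
    congr 2
    refine Subtype.ext ?_
    rw [hθv]
    exact MulEquiv.symm_apply_apply Φ t.1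
  have hPS : ∀ f' : D.Gt p → C, D.PS χ' f' ↔ IsPS M b χ (fun g => f' (Φ g)) := by
    intro f'
    constructor
    · rintro ⟨h1, h2⟩
      refine ⟨h1.comp hc, fun t u g => ?_⟩
      show f' (Φ (t.1 * u.1 * g)) = (χ t : C) * f' (Φ g)
      rw [map_mul, map_mul, h2 _ (mul_mem (D.tg_bg (hT t.1 t.2)) (D.po_bg (fun α hα => hα) (hU u.1 u.2))),
        hcb t _ (hU u.1 u.2)]
    · rintro ⟨h1, h2⟩
      refine ⟨?_, fun b' hb' g => ?_⟩
      · have h3 := h1.comp hc'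
        have h4 : (fun g => f' (Φ g)) ∘ Φ.symm = f' := by
          funext g
          show f' (Φ (Φ.symm g)) = f' g
          rw [MulEquiv.apply_symm_apply]
        rwa [h4] at h3
      · obtain ⟨t', ht', u', hu', rfl⟩ := D.bg_fac hb'
        have ht : Φ.symm t' ∈ torus M p := hθ ⟨t', ht'⟩
        have hu : Φ.symm u' ∈ unip M b p := by
          rw [D.unip_iff hM hΦ hb, MulEquiv.apply_symm_apply]
          exact hu'
        have h3 := h2 ⟨Φ.symm t', ht⟩ ⟨Φ.symm u', hu⟩ (Φ.symm g)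
        have h4 := hcb ⟨Φ.symm t', ht⟩ u' hu'
        simp only [map_mul, MulEquiv.apply_symm_apply] at h3 h4
        rw [h3, h4]
  obtain ⟨W, hW, ⟨f1, hf1, x1, hx1⟩, f2, hf2, hf2'⟩ := hred
  have hback : ∀ f : ↥(chevGroup M p) → C, (fun g => (fun g' => f (Φ.symm g')) (Φ g)) = f := by
    intro f
    funext g
    show f (Φ.symm (Φ g)) = f g
    rw [MulEquiv.symm_apply_apply]
  refine ⟨χ', ?_, ?_, ?_, {f' | (fun g => f' (Φ g)) ∈ W}, ?_, ?_, ?_⟩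
  · rw [hχ']
    exact hχ.comp hθc
  · intro t t' h
    rw [hχv]
    congr 1
    refine Subtype.ext ?_
    rw [hθv, MulEquiv.symm_apply_eq]
    refine Subtype.ext (Subtype.ext ?_)
    rw [hΦ]
    exact h
  · intro t'
    refine ⟨θ t', ?_⟩
    rw [hθv, ← hΦ, MulEquiv.apply_symm_apply]
  · refine ⟨fun f' hf' => (hPS f').2 (hW.isPS _ hf'), hW.zero, fun f' hf' g' hg' => hW.add _ hf' _ hg',
      fun c f' hf' => hW.smul c _ hf', fun g' f' hf' => ?_, fun f' hf' happ => ?_⟩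
    · show (fun g => f' (Φ g * g')) ∈ W
      have h1 := hW.trans (Φ.symm g') _ hf'
      simp only [map_mul, MulEquiv.apply_symm_apply] at h1
      exact h1
    · refine hW.closed _ ((hPS f').1 hf') fun ε hε => ?_
      obtain ⟨w, hw, hw2⟩ := happ ε hε
      exact ⟨fun g => w (Φ g), hw, fun x hx => hw2 _ ((D.int_iff hΦ x).1 hx)⟩
  · refine ⟨fun g' => f1 (Φ.symm g'), ?_, Φ x1, ?_⟩
    · show (fun g => (fun g' => f1 (Φ.symm g')) (Φ g)) ∈ W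
      rw [hback]
      exact hf1
    · show f1 (Φ.symm (Φ x1)) ≠ 0
      rw [MulEquiv.symm_apply_apply]
      exact hx1
  · refine ⟨fun g' => f2 (Φ.symm g'), ?_, ?_⟩
    · rw [hPS, hback]
      exact hf2
    · intro h
      apply hf2'
      have h1 : (fun g => (fun g' => f2 (Φ.symm g')) (Φ g)) ∈ W := h
      rwa [hback] at h1

end Ctx

end

end Pool.Agent.Lib.MP_f399a8_nt.G
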