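import Pool.Agent.Lib.MP_f399a8_ntG.Tm2

/-!
# The main theorem in the context `D`

(The same for `SL_n`: file `MP_f399a8_ntS.TiM`, `main_gen`, `schneider_gen`, and `MnB`, `schneider_of_noLin`.)

PROOF of `main_gen`: `srt_exists`, `srt_reg`, `good_sorted`, `step1_gen`, `swaps`.
PROOF of `schneider_ctx`.  `IsUltrametricDist C` is `SLFin_ultra p C` (namespace `Pool.Agent.Lib.MP_f399a8_nt`).  `slope_exists` gives `h`.  If `NoLin χ` fails there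
are `γ` with `Sim y0 γ` and `l : ℕ` with `cb χ (cc (co γ) x) = x ^ (-l)`; `⟨ρ, γ^∨⟩ = 1` (`rho_sim`), `a = -l` works.  If the condition `hNT` of `main_gen` fails there is
`α`, positive for `y0`, with `cb χ (cc (co α) x) = 1` for all `x`; `1 ≤ ⟨ρ, α^∨⟩` (`rho_pos`), `a = 1 - ⟨ρ, α^∨⟩` works.  Otherwise `main_gen` says `f ∈ W`.
-/

namespace Pool.Agent.Lib.MP_f399a8_nt.G

open Matrix Filter Topology

noncomputable section

namespace Ctx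

variable {ι X Y : Type*} [Finite ι] [AddCommGroup X] [AddCommGroup Y] {N : ℕ} (D : Ctx ι X Y N)
  {p : ℕ} [Fact p.Prime] {C : Type*} [NormedField C] [NormedAlgebra ℚ_[p] C]
  [FiniteDimensional ℚ_[p] C] {χ : ↥(D.Tg p) →* Cˣ} {h : X →+ ℝ} {W : Set (D.Gt p → C)}

theorem main_gen [IsUltrametricDist C] (hχ : Continuous χ) (hs : D.Slope χ h) (hη : D.NoLin χ)
    (hNT : ∀ α, 0 < D.pr α D.y0 → h (D.rt α) = 0 →
      ∃ x : ℚ_[p]ˣ, D.cb χ (D.cc p (D.co α) x) ≠ 1)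
    (hW : D.CS χ W) (hne : ∃ f ∈ W, ∃ x, f x ≠ 0) {f : D.Gt p → C} (hf : D.PS χ f) : f ∈ W := by
  obtain ⟨y, hy⟩ := D.srt_exists h
  exact D.swaps hχ hs hη hW (D.srt_reg hy) (D.good_sorted hy) (D.step1_gen hχ hs hy hW hne hNT) hf

theorem schneider_ctx (hχ : Continuous χ) (hW : D.CS χ W) (hne : ∃ f ∈ W, ∃ x, f x ≠ 0)
    {f : D.Gt p → C} (hf : D.PS χ f) (hfW : f ∉ W) {ρ : X} (hρ : D.IsRho ρ) :
    ∃ α, 0 < D.pr α D.y0 ∧ ∃ a : ℤ, a ≤ 0 ∧ ∀ x : ℚ_[p]ˣ,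
      D.cb χ (D.cc p (D.co α) x) * ((algebraMap ℚ_[p] C (x : ℚ_[p])) ^ (D.pa ρ (D.co α)))⁻¹ =
        (algebraMap ℚ_[p] C (x : ℚ_[p]))⁻¹ * (algebraMap ℚ_[p] C (x : ℚ_[p])) ^ a := by
  have := SLFin_ultra p C
  obtain ⟨h, hs⟩ := D.slope_exists hχ
  by_cases hη : D.NoLin χ
  · by_cases hNT : ∀ α, 0 < D.pr α D.y0 → h (D.rt α) = 0 →
        ∃ x : ℚ_[p]ˣ, D.cb χ (D.cc p (D.co α) x) ≠ 1
    · exact absurd (D.main_gen hχ hs hη hNT hW hne hf) hfW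
    · push Not at hNT
      obtain ⟨α, hα, -, hx⟩ := hNT
      have h1 := D.rho_pos hρ hα
      refine ⟨α, hα, 1 - D.pa ρ (D.co α), by omega, fun x => ?_⟩
      have hx0 : algebraMap ℚ_[p] C (x : ℚ_[p]) ≠ 0 :=
        (map_ne_zero (algebraMap ℚ_[p] C)).2 x.ne_zero
      rw [hx x, one_mul, ← _root_.zpow_neg, ← _root_.zpow_neg_one, ← zpow_add₀ hx0]
      congr 1
      ring
  · unfold NoLin at hη
    push Not at hη
    obtain ⟨γ, hγ, l, hl⟩ := hη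
    refine ⟨γ, hγ.1, -(l : ℤ), by omega, fun x => ?_⟩
    rw [hl x, D.rho_sim hρ hγ, zpow_one, mul_comm]

end Ctx

end

end Pool.Agent.Lib.MP_f399a8_nt.G
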