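import Pool.Agent.Lib.MP_f399a8_ntG.Md1
import Pool.Agent.Lib.MP_f399a8_ntG.Tm3

/-!
# Schneider's question for Chevalley groups

PROOF of `schneider_split`.  `base_y0` (with `M.wt_span`) gives `y0`, `exists_sorted` for `f i = P.toLinearMap (M.wt i) y0` gives `e`.  Let
`D : Ctx ι X Y (Fintype.card κ) := ⟨P, M.reindex e, hP, hsc, y0, …⟩` (`reg0` from `base_y0`, `sorted` from `exists_sorted`; `(M.reindex e).wt i = M.wt (e.symm i)` by
definition), so `D.P = P` and `D.M = M.reindex e` by `rfl`.  `red_transport` gives `χ'`, `W`, `f`.  `rho_exists` gives `ρ`; `D.IsRho ρ` is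
`2 • ρ = ∑ᶠ β ∈ {β | 0 < D.pr β D.y0}, D.rt β` and `{β | 0 < D.pr β D.y0} = {β | b.IsPos β}`, `D.rt β = P.root β`.  `schneider_ctx` gives `α`, `a`.  For
`x : ℚ_[p]ˣ` let `t' = ⟨D.cc p (D.co α) x, cc_torus⟩` with matrix `D.cd p (D.co α) x = diagonal (x ^ (wp i (co α)))` (`cc_val`), `t` the corresponding element of
`torus M p`: its matrix is `t'.submatrix e e = diagonal (x ^ ⟨M.wt i, α^∨⟩)` (`wp i y = ⟨(M.reindex e).wt i, y⟩ = ⟨M.wt (e.symm i), y⟩`), and
`χ t = χ' t' = cb χ' (cc (co α) x)` (`cb_tg`).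
PROOF of `schneider_ext`: `χ` followed by `Units.map (algebraMap C C')` is continuous; `FiniteDimensional ℚ_[p] C'` by `FiniteDimensional.trans`; apply
`schneider_split` over `C'` and use the injectivity of `algebraMap C C'` and `IsScalarTower.algebraMap_apply` (see `Pool/Agent/Results/MP_f399a8_nt/SchneiderSLn.lean`
in the graded repository `outputs/live`, the same argument).
-/

namespace Pool.Agent.Lib.MP_f399a8_nt.G

open Matrix

noncomputable section

variable {ι X Y : Type*} [Finite ι] [AddCommGroup X] [AddCommGroup Y]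
  {P : RootPairing ι ℤ X Y} {κ : Type*} [Fintype κ] [DecidableEq κ]
  {p : ℕ} [Fact p.Prime]

theorem schneider_split {C : Type*} [NormedField C] [NormedAlgebra ℚ_[p] C]
    [FiniteDimensional ℚ_[p] C] (hP : P.IsReduced)
    (hsc : AddSubgroup.closure (Set.range P.coroot) = ⊤) (M : ChevMod P κ) (b : P.Base)
    {χ : ↥(torus M p) →* Cˣ} (hχ : Continuous χ) (hred : IsReducible M b χ) :
    SchneiderCond M b χ := by
  obtain ⟨y0, hy0⟩ := base_y0 b M.wt_span
  obtain ⟨e, he⟩ := exists_sorted (fun i => P.toLinearMap (M.wt i) y0)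
  let D : Ctx ι X Y (Fintype.card κ) :=
    ⟨P, M.reindex e, hP, hsc, y0, fun α => (hy0 α).2, fun i j h => he i j h⟩
  obtain ⟨χ', hχ', h1, h2, W, hW, hne, f, hf, hfW⟩ :=
    D.red_transport (M := M) (b := b) (e := e) rfl (fun α => (hy0 α).1) hχ hred
  obtain ⟨ρ, hρ⟩ := D.rho_exists
  obtain ⟨α, hα, a, ha, hx⟩ := D.schneider_ctx hχ' hW hne hf hfW hρ
  refine ⟨ρ, ?_, α, (hy0 α).1.1 hα, a, ha, fun x => ?_⟩
  · have hs : {β | 0 < D.pr β D.y0} = {β | b.IsPos β} := by
      ext β
      exact (hy0 β).1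
    have h3 : (2 : ℤ) • ρ = ∑ᶠ β ∈ {β | 0 < D.pr β D.y0}, D.rt β := hρ
    rw [hs] at h3
    exact h3
  · obtain ⟨t, ht⟩ := h2 ⟨D.cc p (D.co α) x, D.cc_torus p _ x⟩
    have ht' : D.cd p (D.co α) x = t.1.1.1.submatrix e.symm e.symm := by
      rw [← D.cc_val]
      exact ht
    refine ⟨t, ?_, ?_⟩
    · ext i j
      have h3 : t.1.1.1 i j = (t.1.1.1.submatrix e.symm e.symm) (e i) (e j) := by
        rw [Matrix.submatrix_apply, Equiv.symm_apply_apply, Equiv.symm_apply_apply]
      rw [h3, ← ht']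
      unfold Ctx.cd
      by_cases hij : i = j
      · subst hij
        rw [Matrix.diagonal_apply_eq, Matrix.diagonal_apply_eq]
        have h4 : D.wp (e i) (D.co α) = P.toLinearMap (M.wt i) (P.coroot α) := by
          show P.toLinearMap (M.wt (e.symm (e i))) (P.coroot α) = _
          rw [Equiv.symm_apply_apply]
        rw [h4]
      · rw [Matrix.diagonal_apply_ne _ hij, Matrix.diagonal_apply_ne _ (e.injective.ne hij)]
    · have h5 := hx x
      rw [D.cb_tg χ' (D.cc_torus p _ x)] at h5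
      rw [h1 t _ ht] at h5
      exact h5

theorem schneider_ext {C C' : Type*} [NormedField C] [NormedField C']
    [NormedAlgebra ℚ_[p] C] [NormedAlgebra ℚ_[p] C'] [NormedAlgebra C C']
    [IsScalarTower ℚ_[p] C C'] [FiniteDimensional ℚ_[p] C] [FiniteDimensional C C']
    (hP : P.IsReduced) (hsc : AddSubgroup.closure (Set.range P.coroot) = ⊤) (M : ChevMod P κ)
    (b : P.Base) (χ : ↥(torus M p) →* Cˣ) (hχ : Continuous χ)
    (hred : IsReducible M b ((Units.map (algebraMap C C' : C →* C')).comp χ)) :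
    SchneiderCond M b χ := by
  have : FiniteDimensional ℚ_[p] C' := FiniteDimensional.trans ℚ_[p] C C'
  have hc : Continuous (algebraMap C C') := continuous_algebraMap C C'
  have hu : Continuous ((Units.map (algebraMap C C' : C →* C')).comp χ) := by
    have : Continuous (Units.map (algebraMap C C' : C →* C')) := by
      exact Continuous.units_map _ hc
    exact this.comp hχ
  obtain ⟨ρ, hρ, α, hα, a, ha, h⟩ := schneider_split hP hsc M b hu hred
  refine ⟨ρ, hρ, α, hα, a, ha, fun x => ?_⟩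
  obtain ⟨t, ht, hx⟩ := h x
  refine ⟨t, ht, ?_⟩
  apply (algebraMap C C').injective
  simp only [map_mul, map_inv₀, map_zpow₀, ← IsScalarTower.algebraMap_apply ℚ_[p] C C']
  exact hx

end

end Pool.Agent.Lib.MP_f399a8_nt.G
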