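import Pool.Agent.Lib.MP_f399a8_ntG.Def3
import Pool.Agent.Lib.MP_f399a8_ntG.Me1

/-!
# Schneider's question for Chevalley groups: final form
-/

namespace Pool.Agent.Lib.MP_f399a8_nt.G3

open Matrix

noncomputable section

variable {ι X Y : Type*} [Finite ι] [AddCommGroup X] [AddCommGroup Y]
  {P : RootPairing ι ℤ X Y} {κ : Type*} [Fintype κ] [DecidableEq κ]

/-- the same data without the auxiliary definitions -/
def toMod (M : ChevMod P κ) : G.ChevMod P κ where
  wt := M.wt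
  E := M.E
  wt_span := M.wt_span
  E_wt := M.E_wt
  E_neg := fun α β h => M.E_neg α β h
  E_add := fun α β γ h => M.E_add α β γ h
  E_comm := fun α β h h' => by
    have h1 := M.E_comm α β (fun hn => h (by
      have h2 : P.root β = -P.root α := hn
      rw [h2, add_neg_cancel])) h'
    exact sub_eq_zero.1 h1
  E_div := M.E_div

variable {p : ℕ} [Fact p.Prime] {C : Type*} [NormedField C]

theorem ps_iff {M : ChevMod P κ} {b : P.Base} {χ : TT M p →* Cˣ} {f : GG M p → C} :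
    IsPS M b χ f ↔ G.IsPS (p := p) (toMod M) b χ f := by
  constructor
  · rintro ⟨h1, h2⟩
    exact ⟨h1, fun t u g => h2 t u.1 u.2 g⟩
  · rintro ⟨h1, h2⟩
    exact ⟨h1, fun t u hu g => h2 t ⟨u, hu⟩ g⟩

theorem red_iff {M : ChevMod P κ} {b : P.Base} {χ : TT M p →* Cˣ} (h : IsReducible M b χ) :
    G.IsReducible (p := p) (toMod M) b χ := by
  obtain ⟨W, hW, hne, f, hf, hfW⟩ := h
  exact ⟨W, ⟨fun f hf => ps_iff.1 (hW.isPS f hf), hW.zero, hW.add, hW.smul, hW.trans,
    fun f hf hε => hW.closed f (ps_iff.2 hf) hε⟩, hne, f, ps_iff.1 hf, hfW⟩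

theorem powC_eq [NormedAlgebra ℚ_[p] C] (x : ℚ_[p]ˣ) (k : ℤ) :
    powC C x k = (algebraMap ℚ_[p] C (x : ℚ_[p])) ^ k := by
  unfold powC
  rw [Units.val_zpow_eq_zpow_val, map_zpow₀]

theorem cond_iff [NormedAlgebra ℚ_[p] C] {M : ChevMod P κ} {b : P.Base} {χ : TT M p →* Cˣ}
    (h : G.SchneiderCond (p := p) (toMod M) b χ) : SchneiderCond M b χ := by
  obtain ⟨ρ, hρ, α, hα, a, ha, h⟩ := h
  refine ⟨ρ, hρ, α, hα, a, ha, fun x => ?_⟩
  obtain ⟨t, ht, h1⟩ := h x
  refine ⟨t, ht, ?_⟩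
  rw [powC_eq, powC_eq, powC_eq, _root_.zpow_neg, _root_.zpow_neg_one]
  exact h1

theorem schneider_final {C C' : Type*} [NormedField C] [NormedField C']
    [NormedAlgebra ℚ_[p] C] [NormedAlgebra ℚ_[p] C'] [NormedAlgebra C C']
    [IsScalarTower ℚ_[p] C C'] [FiniteDimensional ℚ_[p] C] [FiniteDimensional C C']
    (hP : P.IsReduced) (hsc : AddSubgroup.closure (Set.range P.coroot) = ⊤) (M : ChevMod P κ)
    (b : P.Base) (χ : TT M p →* Cˣ) (hχ : Continuous χ)
    (hred : IsReducible M b (extend (C' := C') χ)) : SchneiderCond M b χ :=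
  cond_iff (G.schneider_ext (C' := C') hP hsc (toMod M) b χ hχ (red_iff hred))

end

end Pool.Agent.Lib.MP_f399a8_nt.G3
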