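import Pool.Agent.Lib.MP_f399a8_ntG.Oa2
import Pool.Agent.Lib.MP_f399a8_ntG.Gf3
import Pool.Agent.Lib.MP_f399a8_ntG.Gf6
import Pool.Agent.Lib.MP_f399a8_ntS.P1B

/-!
# The function `Om`

`D.cw h i = h (wt i)`, `D.Om h x = S.Om (cw h) x.1` (files `MP_f399a8_ntS.IwaB`, `IwaC`): if `x = b * k` then
`Om h x = ∏ i ‖b i i‖ ^ h (wt i)`.

PROOF.  Everything follows from the statements for `S.Om`, `S.dl` on `SLp p N` (`S.om_left`, `S.om_right`, `S.om_kp`, `S.om_unip`, `S.om_cont`,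
`S.om_bdd`, `S.om_mul_bdd`, …), since `b.1 ∈ S.Bp` for `b ∈ Bg` and `k.1 ∈ S.Kp` for `k ∈ Kg`.  `om_cb`: `S.om_left` and `Slope`.
`om_ug`: elements of `Ug S'` with `S'` positive for `y0` are in `Bg` (`po_bg`) with diagonal `1` (`ug_diag`).
`ps_bdd`: `Kg` is compact (`kg_compact`).  `ps_bound`: `x = b * k` (`iwasawa`), `om_cb`, `om_kp`.
-/

namespace Pool.Agent.Lib.MP_f399a8_nt.G

open Matrix Filter Topology

noncomputable section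

namespace Ctx

variable {ι X Y : Type*} [Finite ι] [AddCommGroup X] [AddCommGroup Y] {N : ℕ} (D : Ctx ι X Y N)
  {p : ℕ} [Fact p.Prime] {C : Type*} [NormedField C]

/-- the exponents -/
def cw (h : X →+ ℝ) : Fin N → ℝ := fun i => h (D.wt i)

/-- the absolute value of the character, extended to the whole group -/
def Om (h : X →+ ℝ) (x : D.Gt p) : ℝ := S.Om (D.cw h) x.1

variable {h : X →+ ℝ}

theorem om_pos (h : X →+ ℝ) (x : D.Gt p) : 0 < D.Om h x := by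
  exact S.om_pos (D.cw h) x.1

theorem om_left (h : X →+ ℝ) {b : D.Gt p} (hb : b ∈ D.Bg p) (x : D.Gt p) :
    D.Om h (b * x) = (∏ i, ‖b.1.1 i i‖ ^ (h (D.wt i))) * D.Om h x := by
  exact S.om_left (D.cw h) (b := b.1) hb x.1

theorem om_cb {χ : ↥(D.Tg p) →* Cˣ} (hs : D.Slope χ h) {b : D.Gt p} (hb : b ∈ D.Bg p)
    (x : D.Gt p) : D.Om h (b * x) = ‖D.cb χ b‖ * D.Om h x := by
  rw [D.om_left h hb x, hs b hb]

theorem om_ug (h : X →+ ℝ) {S' : Set ι} (hS : ∀ α ∈ S', 0 < D.pr α D.y0) {u : D.Gt p}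
    (hu : u ∈ D.Ug p S') (x : D.Gt p) : D.Om h (u * x) = D.Om h x := by
  exact S.om_unip (D.cw h) (b := u.1) (D.po_bg hS hu) (fun i => D.ug_diag hS hu i) x.1

theorem om_right (h : X →+ ℝ) {k : D.Gt p} (hk : k ∈ D.Kg p) (x : D.Gt p) :
    D.Om h (x * k) = D.Om h x := by
  exact S.om_right (D.cw h) (k := k.1) hk x.1

theorem om_kg (h : X →+ ℝ) {k : D.Gt p} (hk : k ∈ D.Kg p) : D.Om h k = 1 := by
  exact S.om_kp (D.cw h) (k := k.1) hk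

theorem om_cont (p : ℕ) [Fact p.Prime] (h : X →+ ℝ) : Continuous (D.Om h : D.Gt p → ℝ) := by
  exact (S.om_cont (n := N) p (D.cw h)).comp continuous_subtype_val

theorem om_bdd (p : ℕ) [Fact p.Prime] (h : X →+ ℝ) (A : ℝ) : ∃ B : ℝ, 0 < B ∧
    ∀ x : D.Gt p, (∀ i j, ‖x.1.1 i j‖ ≤ A) → D.Om h x ≤ B ∧ B⁻¹ ≤ D.Om h x := by
  obtain ⟨B, hB, h1⟩ := S.om_bdd (n := N) p (D.cw h) A
  exact ⟨B, hB, fun x hx => h1 x.1 hx⟩

theorem om_mul_bdd (h : X →+ ℝ) (g : D.Gt p) :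
    ∃ B : ℝ, 0 < B ∧ ∀ x : D.Gt p, D.Om h (x * g) ≤ B * D.Om h x := by
  obtain ⟨B, hB, h1⟩ := S.om_mul_bdd (D.cw h) g.1
  exact ⟨B, hB, fun x => h1 x.1⟩

theorem ps_bdd {f : D.Gt p → C} (hf : Continuous f) :
    ∃ A : ℝ, 0 < A ∧ ∀ k ∈ D.Kg p, ‖f k‖ ≤ A := by
  obtain ⟨A, hA⟩ := (D.kg_compact p).exists_bound_of_continuousOn hf.continuousOn
  exact ⟨max A 1, lt_of_lt_of_le zero_lt_one (le_max_right _ _),
    fun k hk => (hA k hk).trans (le_max_left _ _)⟩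

theorem ps_bound {χ : ↥(D.Tg p) →* Cˣ} (hs : D.Slope χ h) {f : D.Gt p → C} (hf : D.PS χ f)
    {A : ℝ} (hA : ∀ k ∈ D.Kg p, ‖f k‖ ≤ A) (x : D.Gt p) : ‖f x‖ ≤ A * D.Om h x := by
  obtain ⟨b, hb, k, hk, rfl⟩ := D.iwasawa x
  rw [hf.2 b hb k, norm_mul, D.om_cb hs hb, D.om_kg h hk, mul_one, mul_comm]
  exact mul_le_mul_of_nonneg_right (hA k hk) (norm_nonneg _)

end Ctx

end

end Pool.Agent.Lib.MP_f399a8_nt.G
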