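import Pool.Agent.Lib.MP_f399a8_ntG.Oa3

/-!
# Contracting elements

`Con h e`: the element `e : Y` has the sign pattern of `-h` on the roots and the differences of weights, and is divisible by `N`.
`Srt h y`: `y` sorts the roots: those with `h < 0` are positive, those with `h = 0` have the sign opposite to the one for `y0`.

PROOF.
* `D1e`: let `v_1 < … < v_r` be the distinct values of `v` (as a `Finset`), `A_s = {i | v i ≤ s}` for a value `s`, and `ε_s` the value of `e` on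
  `{v = s}` (`h2`).  For consecutive values `s < s'` let `δ_s = ε_s - ε_{s'} ≥ 0` (`h1`), and `δ = 0` for the largest one.  With `S.eA A i = n 1_A i - |A|`
  (file `D1A`): `∑_s δ_s eA (A_s) i = n ∑_{s ≥ v i} δ_s - c = n (e i - ε_max) - c` with a constant `c`; both `∑_i eA A i = 0` (`S.eA_sum`) and
  `∑ e i = 0`, so the constant is `0`: `n e i = ∑_s δ_s eA (A_s) i`.  [To avoid consecutive values one can argue by strong induction on
  `∑_{i j} |e i - e j|`, or on the number of distinct values of `e`, subtracting a multiple of `1_A`; or use the telescoping over the sorted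
  list of values.]  So a `t` with `IsDg (n e)` is the product of the commuting diagonal `t_s ^ δ_s`, `IsDg (eA A_s) t_s`.  `S.D1_two` gives
  `RelC v (1 / gap) g (t_s g t_s⁻¹)` for all `g` for `s` not the maximal value, `gap` the smallest positive difference of values of `v`;
  `S.RelC_trans`.  (Compare the proof of `S.D1` in `MP_f399a8_ntS.D1B`.)
* `con_relC`: `cc e (pp p)` has the diagonal `p ^ ⟨wt i, e⟩`, `e = N • e'`, `⟨wt i, e⟩ = N ⟨wt i, e'⟩`, and `e'` has the order pattern of `e`; `D1e` for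
  `v = cw h`.  (For `N = 0` there is nothing to do: `RelC` is a statement about `i : Fin 0`.)
* `con_om`: from `con_relC`, `S.RelC_le` (applied to `t^M g t^-M` and `t^(M' - M)`; or `RelC` is stated for all `g`).
* `con_exists`: `X` is finitely generated (`wt_span`), so `H = range h ⊆ ℝ` is a finitely generated torsion-free group: it has a finite `ℤ`-basis
  `r_k`, and `h x = ∑_k r_k * h_k x` with `h_k : X →+ ℤ` (coordinates).  If `h x = 0` then all `h_k x = 0`.  For the finitely many `x` in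
  `Δ = {wt i - wt j} ∪ {rt α}` with `h x ≠ 0` the real number `∑ q_k h_k x` has the sign of `h x` if the rational numbers `q_k` are close to
  `r_k`; for `h x = 0` it is `0`.  Multiply by a common denominator and by `-N` (`-1` if `N = 0`), and use `dual_y`.
* `srt_exists`: `y = M • e - y0` with `M > |⟨α, y0⟩|` for all `α`.  `srt_reg`: one of `α`, `-α` satisfies the condition.
* `srt_cases`, `srt_neg`: immediate.
* `sep_exists`: `z = -M • e - y0`.
-/

namespace Pool.Agent.Lib.MP_f399a8_nt.G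

open Matrix Filter Topology

noncomputable section

theorem Ob1_gap {n : ℕ} (v : Fin n → ℝ) :
    ∃ gap : ℝ, 0 < gap ∧ ∀ a b, v a < v b → v a + gap ≤ v b := by
  rcases Nat.eq_zero_or_pos n with rfl | hn
  · exact ⟨1, one_pos, fun a => a.elim0⟩
  · have : Nonempty (Fin n × Fin n) := ⟨(⟨0, hn⟩, ⟨0, hn⟩)⟩
    obtain ⟨x0, hx0⟩ := Finite.exists_min (fun x : Fin n × Fin n =>
      if v x.1 < v x.2 then v x.2 - v x.1 else 1)
    refine ⟨if v x0.1 < v x0.2 then v x0.2 - v x0.1 else 1, ?_, ?_⟩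
    · split_ifs with h
      · linarith
      · exact one_pos
    · intro a b hab
      have h1 := hx0 (a, b)
      simp only [hab, if_true] at h1
      linarith

/-- the level sets -/
def Ob1_A {n : ℕ} (e : Fin n → ℤ) (m : ℤ) : Finset (Fin n) := Finset.univ.filter fun a => m ≤ e a

theorem Ob1_one {p : ℕ} [Fact p.Prime] {n : ℕ} :
    S.IsDg (fun _ : Fin n => (0 : ℤ)) (1 : SLp p n) := by
  intro i j
  rw [Matrix.SpecialLinearGroup.coe_one, Matrix.one_apply, zpow_zero]

theorem Ob1_step {p : ℕ} [Fact p.Prime] {n : ℕ} (v : Fin n → ℝ) (e : Fin n → ℤ) {gap : ℝ}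
    (hgap : 0 < gap) (hg : ∀ a b, v a < v b → v a + gap ≤ v b)
    (h1 : ∀ i j, v i < v j → e j ≤ e i) (h2 : ∀ i j, v i = v j → e i = e j) (m : ℤ) {t : SLp p n}
    (ht : S.IsDg (S.eA (Ob1_A e m)) t) (g : SLp p n) : S.RelC v (1 / gap) g (t * g * t⁻¹) := by
  rcases (Ob1_A e m).eq_empty_or_nonempty with hA | hA
  · have h3 : t = 1 := by
      refine S.dg_unique ht ?_
      have h4 : S.eA (Ob1_A e m) = fun _ : Fin n => (0 : ℤ) := by
        funext i
        unfold S.eA
        rw [hA]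
        simp
      rw [h4]
      exact Ob1_one
    rw [h3, one_mul, inv_one, mul_one]
    exact S.RelC_refl _ _ _
  · obtain ⟨i0, hi0, hmax⟩ := Finset.exists_max_image (Ob1_A e m) v hA
    refine S.D1_two v (Ob1_A e m) (v i0) gap hgap (fun i hi => hmax i hi) ?_ ht g
    intro j hj
    have h3 : m ≤ e i0 := (Finset.mem_filter.1 hi0).2
    have h4 : e j < m := by
      by_contra h5
      exact hj (Finset.mem_filter.2 ⟨Finset.mem_univ _, not_lt.1 h5⟩)
    apply hg
    rcases lt_trichotomy (v i0) (v j) with h5 | h5 | h5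
    · exact h5
    · have := h2 _ _ h5
      omega
    · have := h1 _ _ h5
      omega

theorem Ob1_fin {p : ℕ} [Fact p.Prime] {n : ℕ} (v : Fin n → ℝ) (e : Fin n → ℤ) {gap : ℝ}
    (hgap : 0 < gap) (hg : ∀ a b, v a < v b → v a + gap ≤ v b)
    (h1 : ∀ i j, v i < v j → e j ≤ e i) (h2 : ∀ i j, v i = v j → e i = e j) (T : Finset ℤ) :
    ∀ t : SLp p n, S.IsDg (fun i => ∑ m ∈ T, S.eA (Ob1_A e m) i) t →
      ∀ g : SLp p n, S.RelC v (1 / gap) g (t * g * t⁻¹) := by
  induction T using Finset.induction_on with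
  | empty =>
    intro t ht g
    have h3 : t = 1 := S.dg_unique ht (by simpa using Ob1_one)
    rw [h3, one_mul, inv_one, mul_one]
    exact S.RelC_refl _ _ _
  | insert m T hm ih =>
    intro t ht g
    obtain ⟨t1, ht1⟩ := S.dg_exists (p := p) (S.eA (Ob1_A e m)) (S.eA_sum _)
    obtain ⟨t2, ht2⟩ := S.dg_exists (p := p) (fun i => ∑ m ∈ T, S.eA (Ob1_A e m) i) (by
      rw [Finset.sum_comm]
      exact Finset.sum_eq_zero fun m _ => S.eA_sum _)
    have h3 : t = t1 * t2 := by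
      refine S.dg_unique ht ?_
      have := S.dg_mul ht1 ht2
      simpa only [Finset.sum_insert hm] using this
    have h4 : t * g * t⁻¹ = t1 * (t2 * g * t2⁻¹) * t1⁻¹ := by
      rw [h3, _root_.mul_inv_rev]
      simp only [mul_assoc]
    rw [h4]
    exact S.RelC_trans (ih t2 ht2 g) (Ob1_step v e hgap hg h1 h2 m ht1 _)

theorem Ob1_sum {n : ℕ} (e : Fin n → ℤ) (he : ∑ i, e i = 0) : ∃ T : Finset ℤ,
    ∀ i, (∑ m ∈ T, S.eA (Ob1_A e m) i) = (n : ℤ) * e i := by
  obtain ⟨B, hB⟩ : ∃ B : ℤ, ∀ i, -B ≤ e i ∧ e i ≤ B := by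
    refine ⟨∑ i, |e i|, fun i => ?_⟩
    have h1 : |e i| ≤ ∑ i, |e i| :=
      Finset.single_le_sum (f := fun i => |e i|) (fun i _ => abs_nonneg _) (Finset.mem_univ i)
    exact abs_le.1 h1
  have hcount : ∀ i, (∑ m ∈ Finset.Ioc (-B) B, if m ≤ e i then (1 : ℤ) else 0) = e i + B := by
    intro i
    rw [← Finset.sum_filter, Finset.sum_const, nsmul_eq_mul, mul_one]
    have h2 : (Finset.Ioc (-B) B).filter (fun m => m ≤ e i) = Finset.Ioc (-B) (e i) := by
      ext m
      rw [Finset.mem_filter, Finset.mem_Ioc, Finset.mem_Ioc]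
      have := hB i
      constructor
      · rintro ⟨⟨a, b⟩, c⟩
        exact ⟨a, c⟩
      · rintro ⟨a, b⟩
        exact ⟨⟨a, b.trans this.2⟩, b⟩
    rw [h2, Int.card_Ioc]
    have := (hB i).1
    omega
  refine ⟨Finset.Ioc (-B) B, fun i => ?_⟩
  have h3 : ∀ m, S.eA (Ob1_A e m) i = (n : ℤ) * (if m ≤ e i then (1 : ℤ) else 0) -
      ∑ j, (if m ≤ e j then (1 : ℤ) else 0) := by
    intro m
    have h4 : ((Ob1_A e m).card : ℤ) = ∑ j, (if m ≤ e j then (1 : ℤ) else 0) := by
      unfold Ob1_A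
      rw [Finset.card_filter]
      push_cast
      rfl
    have h5 : i ∈ Ob1_A e m ↔ m ≤ e i := by
      unfold Ob1_A
      rw [Finset.mem_filter]
      simp
    unfold S.eA
    rw [← h4]
    by_cases h6 : m ≤ e i
    · rw [if_pos (h5.2 h6), if_pos h6, mul_one]
    · rw [if_neg (fun h7 => h6 (h5.1 h7)), if_neg h6, mul_zero, zero_sub]
  rw [Finset.sum_congr rfl fun m _ => h3 m, Finset.sum_sub_distrib, ← Finset.mul_sum, hcount i,
    Finset.sum_comm, Finset.sum_congr rfl fun j _ => hcount j, Finset.sum_add_distrib, he,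
    Finset.sum_const, Finset.card_univ, Fintype.card_fin, nsmul_eq_mul]
  ring

theorem D1e {p : ℕ} [Fact p.Prime] {n : ℕ} (v : Fin n → ℝ) (e : Fin n → ℤ) (he : ∑ i, e i = 0)
    (h1 : ∀ i j, v i < v j → e j ≤ e i) (h2 : ∀ i j, v i = v j → e i = e j) :
    ∃ c : ℝ, 0 < c ∧ ∀ t : SLp p n, S.IsDg (fun i => (n : ℤ) * e i) t → ∀ (M : ℕ) (g : SLp p n),
      S.RelC v c g (t ^ M * g * (t ^ M)⁻¹) := by
  obtain ⟨gap, hgap, hg⟩ := Ob1_gap v
  obtain ⟨T, hT⟩ := Ob1_sum e he
  refine ⟨1 / gap, by positivity, ?_⟩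
  intro t ht
  have h3 : ∀ g : SLp p n, S.RelC v (1 / gap) g (t * g * t⁻¹) := by
    refine Ob1_fin v e hgap hg h1 h2 T t ?_
    have h4 : (fun i => ∑ m ∈ T, S.eA (Ob1_A e m) i) = fun i => (n : ℤ) * e i := funext hT
    rw [h4]
    exact ht
  intro M
  induction M with
  | zero =>
    intro g
    rw [pow_zero, one_mul, inv_one, mul_one]
    exact S.RelC_refl _ _ _
  | succ M ih =>
    intro g
    have h2 : t ^ (M + 1) * g * (t ^ (M + 1))⁻¹ = t * (t ^ M * g * (t ^ M)⁻¹) * t⁻¹ := by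
      rw [pow_succ', _root_.mul_inv_rev]
      simp only [mul_assoc]
    rw [h2]
    exact S.RelC_trans (ih g) (h3 _)

/-- an integral additive map with the signs of a real one on a finite set -/
theorem Ob1_approx {X : Type*} [AddCommGroup X] [Module.Finite ℤ X] (h : X →+ ℝ) (Δ : Finset X) :
    ∃ φ : X →+ ℤ, ∀ x ∈ Δ, (0 < h x → 0 < φ x) ∧ (h x = 0 → φ x = 0) ∧ (h x < 0 → φ x < 0) := by
  classical
  let H : Submodule ℤ ℝ := LinearMap.range h.toIntLinearMap
  have : Module.Finite ℤ H := inferInstance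
  have : Module.Free ℤ H := inferInstance
  let b := Module.finBasis ℤ H
  let f : X →ₗ[ℤ] H := h.toIntLinearMap.rangeRestrict
  let c : Fin (Module.finrank ℤ H) → X →ₗ[ℤ] ℤ := fun k => (b.coord k).comp f
  let r : Fin (Module.finrank ℤ H) → ℝ := fun k => ((b k : H) : ℝ)
  have hsum : ∀ x, h x = ∑ k, (c k x : ℝ) * r k := by
    intro x
    have h1 := b.sum_repr (f x)
    have h2 := congrArg (fun z : H => (z : ℝ)) h1
    have h3 : ((f x : H) : ℝ) = h x := rfl
    simp only [h3] at h2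
    rw [← h2, Submodule.coe_sum]
    refine Finset.sum_congr rfl fun k _ => ?_
    rw [Submodule.coe_smul, zsmul_eq_mul]
    rfl
  have hev : ∀ᶠ s in 𝓝 r, ∀ x ∈ Δ, (0 < h x → 0 < ∑ k, (c k x : ℝ) * s k) ∧
      (h x < 0 → ∑ k, (c k x : ℝ) * s k < 0) := by
    rw [Filter.eventually_all_finset]
    intro x _
    have hcont : Continuous fun s : Fin (Module.finrank ℤ H) → ℝ => ∑ k, (c k x : ℝ) * s k := by
      fun_prop
    rcases lt_trichotomy (h x) 0 with hx | hx | hx
    · have h1 := hcont.tendsto r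
      have h2 : ∀ᶠ s in 𝓝 r, ∑ k, (c k x : ℝ) * s k < 0 :=
        h1.eventually (gt_mem_nhds (by rw [← hsum]; exact hx))
      filter_upwards [h2] with s hs
      exact ⟨fun h3 => absurd h3 (not_lt.2 hx.le), fun _ => hs⟩
    · exact Filter.Eventually.of_forall fun s =>
        ⟨fun h3 => absurd h3 (by rw [hx]; exact lt_irrefl _),
          fun h3 => absurd h3 (by rw [hx]; exact lt_irrefl _)⟩
    · have h1 := hcont.tendsto r
      have h2 : ∀ᶠ s in 𝓝 r, 0 < ∑ k, (c k x : ℝ) * s k :=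
        h1.eventually (lt_mem_nhds (by rw [← hsum]; exact hx))
      filter_upwards [h2] with s hs
      exact ⟨fun _ => hs, fun h3 => absurd h3 (not_lt.2 hx.le)⟩
  obtain ⟨ε, hε, hball⟩ := Metric.eventually_nhds_iff.1 hev
  obtain ⟨M, hM⟩ := exists_nat_gt (1 / ε)
  have hM0 : (0 : ℝ) < M := lt_trans (by positivity) hM
  have hMε : 1 / (M : ℝ) < ε := by
    rw [div_lt_iff₀ hM0]
    rw [div_lt_iff₀ hε] at hM
    linarith
  let nn : Fin (Module.finrank ℤ H) → ℤ := fun k => ⌊(M : ℝ) * r k⌋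
  have hd : dist (fun k => (nn k : ℝ) / M) r < ε := by
    rw [dist_pi_lt_iff hε]
    intro k
    rw [Real.dist_eq]
    have h1 := Int.floor_le ((M : ℝ) * r k)
    have h2 := Int.lt_floor_add_one ((M : ℝ) * r k)
    have h3 : (nn k : ℝ) / M - r k = ((nn k : ℝ) - M * r k) / M := by
      field_simp
    rw [h3, abs_div, abs_of_pos hM0]
    refine lt_of_le_of_lt ?_ hMε
    refine div_le_div_of_nonneg_right ?_ hM0.le
    rw [abs_le]
    constructor
    · have : (⌊(M : ℝ) * r k⌋ : ℝ) = (nn k : ℝ) := rfl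
      linarith
    · have : (⌊(M : ℝ) * r k⌋ : ℝ) = (nn k : ℝ) := rfl
      linarith
  have key := hball hd
  refine ⟨(∑ k, nn k • c k : X →ₗ[ℤ] ℤ).toAddMonoidHom, fun x hx => ?_⟩
  have hφ : ((((∑ k, nn k • c k : X →ₗ[ℤ] ℤ).toAddMonoidHom x : ℤ)) : ℝ) =
      M * ∑ k, (c k x : ℝ) * ((nn k : ℝ) / M) := by
    have h1 : (∑ k, nn k • c k : X →ₗ[ℤ] ℤ).toAddMonoidHom x = ∑ k, nn k * c k x := by
      show (∑ k, nn k • c k : X →ₗ[ℤ] ℤ) x = _
      rw [LinearMap.sum_apply]
      exact Finset.sum_congr rfl fun k _ => rfl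
    rw [h1, Finset.mul_sum]
    push_cast
    refine Finset.sum_congr rfl fun k _ => ?_
    field_simp
  refine ⟨fun h1 => ?_, fun h1 => ?_, fun h1 => ?_⟩
  · have h2 := mul_pos hM0 ((key x hx).1 h1)
    rw [← hφ] at h2
    exact_mod_cast h2
  · have h2 : ∀ k, c k x = 0 := by
      intro k
      have h3 : f x = 0 := Subtype.ext h1
      show b.coord k (f x) = 0
      rw [h3, map_zero]
    have h4 : ((((∑ k, nn k • c k : X →ₗ[ℤ] ℤ).toAddMonoidHom x : ℤ)) : ℝ) = 0 := by
      rw [hφ]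
      rw [Finset.sum_eq_zero fun k _ => by rw [h2 k, Int.cast_zero, zero_mul], mul_zero]
    exact_mod_cast h4
  · have h2 := mul_neg_of_pos_of_neg hM0 ((key x hx).2 h1)
    rw [← hφ] at h2
    exact_mod_cast h2

namespace Ctx

variable {ι X Y : Type*} [Finite ι] [AddCommGroup X] [AddCommGroup Y] {N : ℕ} (D : Ctx ι X Y N)
  {p : ℕ} [Fact p.Prime]

/-- `e` has the sign pattern of `-h` -/
structure Con (h : X →+ ℝ) (e : Y) : Prop where
  lt : ∀ i j, h (D.wt i) < h (D.wt j) → D.wp j e < D.wp i e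
  eq : ∀ i j, h (D.wt i) = h (D.wt j) → D.wp i e = D.wp j e
  rlt : ∀ α, h (D.rt α) < 0 → 0 < D.pr α e
  rgt : ∀ α, 0 < h (D.rt α) → D.pr α e < 0
  req : ∀ α, h (D.rt α) = 0 → D.pr α e = 0
  dvd : ∃ e' : Y, e = (N : ℤ) • e'

/-- `y` sorts the roots according to `h`, ties opposite to `y0` -/
def Srt (h : X →+ ℝ) (y : Y) : Prop :=
  ∀ α, 0 < D.pr α y ↔ (h (D.rt α) < 0 ∨ (h (D.rt α) = 0 ∧ D.pr α D.y0 < 0))

variable {h : X →+ ℝ} {e : Y}

include D in
theorem Ob1_fg : Module.Finite ℤ X := by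
  rw [Module.Finite.iff_addGroup_fg, AddGroup.fg_iff]
  exact ⟨Set.range D.M.wt, D.M.wt_span, Set.finite_range _⟩

theorem con_exists (h : X →+ ℝ) : ∃ e : Y, D.Con h e := by
  classical
  have := D.Ob1_fg
  have := Fintype.ofFinite ι
  obtain ⟨φ, hφ⟩ := Ob1_approx h ((Finset.univ.image fun q : Fin N × Fin N =>
    D.wt q.2 - D.wt q.1) ∪ Finset.univ.image fun α : ι => D.rt α)
  obtain ⟨y, hy⟩ := D.dual_y φ
  have hw : ∀ i j : Fin N, (h (D.wt i) < h (D.wt j) → D.pa (D.wt i) y < D.pa (D.wt j) y) ∧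
      (h (D.wt i) = h (D.wt j) → D.pa (D.wt i) y = D.pa (D.wt j) y) := by
    intro i j
    have h1 := hφ (D.wt j - D.wt i) (Finset.mem_union_left _
      (Finset.mem_image.2 ⟨(i, j), Finset.mem_univ _, rfl⟩))
    rw [hy, D.pa_sub_left, map_sub] at h1
    exact ⟨fun h2 => by have := h1.1 (sub_pos.2 h2); omega,
      fun h2 => by have := h1.2.1 (by rw [h2, sub_self]); omega⟩
  have hr : ∀ α : ι, (0 < h (D.rt α) → 0 < D.pr α y) ∧ (h (D.rt α) = 0 → D.pr α y = 0) ∧
      (h (D.rt α) < 0 → D.pr α y < 0) := by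
    intro α
    have h1 := hφ (D.rt α) (Finset.mem_union_right _ (Finset.mem_image.2 ⟨α, Finset.mem_univ _, rfl⟩))
    rw [hy, ← D.pr_def] at h1
    exact h1
  have hN : ∀ _ : ι, (0 : ℤ) < N := by
    intro α
    rcases Nat.eq_zero_or_pos N with h0 | h0
    · exfalso
      apply D.rt_ne_zero α
      have h1 : D.rt α ∈ AddSubgroup.closure (Set.range D.M.wt) := by
        rw [D.M.wt_span]
        exact AddSubgroup.mem_top _
      have h2 : Set.range D.M.wt = ∅ := by
        rw [Set.range_eq_empty_iff]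
        subst h0
        infer_instance
      rw [h2, AddSubgroup.closure_empty, AddSubgroup.mem_bot] at h1
      exact h1
    · exact_mod_cast h0
  have hwe : ∀ i, D.wp i ((N : ℤ) • (-y)) = N * (-(D.pa (D.wt i) y)) := by
    intro i
    rw [D.wp_def, D.pa_smul_right, D.pa_neg_right]
  have hre : ∀ α, D.pr α ((N : ℤ) • (-y)) = N * (-(D.pr α y)) := by
    intro α
    rw [D.pr_def, D.pa_smul_right, D.pa_neg_right, ← D.pr_def]
  refine ⟨(N : ℤ) • (-y), ?_, ?_, ?_, ?_, ?_, ⟨-y, rfl⟩⟩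
  · intro i j hij
    have h1 := (hw i j).1 hij
    have h2 : (0 : ℤ) < N := by
      have := i.pos
      exact_mod_cast this
    rw [hwe, hwe]
    exact mul_lt_mul_of_pos_left (by omega) h2
  · intro i j hij
    rw [hwe, hwe, (hw i j).2 hij]
  · intro α hα
    rw [hre]
    have := (hr α).2.2 hα
    exact mul_pos (hN α) (by omega)
  · intro α hα
    rw [hre]
    have := (hr α).1 hα
    exact mul_neg_of_pos_of_neg (hN α) (by omega)
  · intro α hα
    rw [hre, (hr α).2.1 hα, neg_zero, mul_zero]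

theorem con_relC (p : ℕ) [Fact p.Prime] (hc : D.Con h e) : ∃ c : ℝ, 0 < c ∧
    ∀ (M : ℕ) (g : D.Gt p), S.RelC (D.cw h) c g.1
      ((D.cc p e (pp p)) ^ M * g * ((D.cc p e (pp p)) ^ M)⁻¹).1 := by
  obtain ⟨e', he'⟩ := hc.dvd
  have hwe : ∀ i, D.wp i e = (N : ℤ) * D.wp i e' := by
    intro i
    rw [he', D.wp_def, D.pa_smul_right, ← D.wp_def]
  obtain ⟨c, hc0, hc1⟩ := D1e (p := p) (D.cw h) (fun i => D.wp i e') (D.wp_sum e')
    (by
      intro i j hij
      have h1 := hc.lt i j hij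
      rw [hwe, hwe] at h1
      have h2 : (0 : ℤ) < N := by
        have := i.pos
        exact_mod_cast this
      exact (lt_of_mul_lt_mul_left h1 h2.le).le)
    (by
      intro i j hij
      have h1 := hc.eq i j hij
      rw [hwe, hwe] at h1
      have h2 : (N : ℤ) ≠ 0 := by
        have := i.pos
        exact_mod_cast this.ne'
      exact mul_left_cancel₀ h2 h1)
  refine ⟨c, hc0, fun M g => ?_⟩
  have h3 : S.IsDg (fun i => (N : ℤ) * D.wp i e') (D.cc p e (pp p)).1 := by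
    intro i j
    rw [D.cc_val]
    unfold cd
    by_cases hij : i = j
    · subst hij
      rw [Matrix.diagonal_apply_eq, if_pos rfl, hwe]
      simp [pp]
    · rw [Matrix.diagonal_apply_ne _ hij, if_neg hij]
  exact hc1 _ h3 M g.1

theorem con_om (hc : D.Con h e) {M M' : ℕ} (hM : M ≤ M') (g : D.Gt p) :
    D.Om h ((D.cc p e (pp p)) ^ M * g * ((D.cc p e (pp p)) ^ M)⁻¹) ≤
      D.Om h ((D.cc p e (pp p)) ^ M' * g * ((D.cc p e (pp p)) ^ M')⁻¹) := by
  obtain ⟨c, hc0, hc1⟩ := D.con_relC p hc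
  obtain ⟨k, rfl⟩ := Nat.exists_eq_add_of_le hM
  have h2 : D.cc p e (pp p) ^ (M + k) * g * (D.cc p e (pp p) ^ (M + k))⁻¹ =
      D.cc p e (pp p) ^ k * (D.cc p e (pp p) ^ M * g * (D.cc p e (pp p) ^ M)⁻¹) *
        (D.cc p e (pp p) ^ k)⁻¹ := by
    rw [add_comm, pow_add, _root_.mul_inv_rev]
    simp only [mul_assoc]
  rw [h2]
  exact S.RelC_le hc0 (hc1 k _)

theorem Ob1_bound (y : Y) : ∃ M : ℤ, ∀ α, -M < D.pr α y ∧ D.pr α y < M := by
  have := Fintype.ofFinite ι
  refine ⟨(∑ α, |D.pr α y|) + 1, fun α => ?_⟩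
  have h1 : |D.pr α y| ≤ ∑ α, |D.pr α y| :=
    Finset.single_le_sum (f := fun α => |D.pr α y|) (fun α _ => abs_nonneg _) (Finset.mem_univ α)
  rw [← abs_lt]
  omega

theorem srt_exists (h : X →+ ℝ) : ∃ y : Y, D.Srt h y := by
  obtain ⟨e, he⟩ := D.con_exists h
  obtain ⟨M, hM⟩ := D.Ob1_bound D.y0
  refine ⟨M • e - D.y0, fun α => ?_⟩
  have h1 : D.pr α (M • e - D.y0) = M * D.pr α e - D.pr α D.y0 := by
    rw [D.pr_def, D.pa_sub_right, D.pa_smul_right, ← D.pr_def, ← D.pr_def]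
  have hMα := hM α
  rw [h1]
  rcases lt_trichotomy (h (D.rt α)) 0 with hx | hx | hx
  · have h2 := he.rlt α hx
    constructor
    · intro _
      exact Or.inl hx
    · intro _
      nlinarith
  · have h2 := he.req α hx
    rw [h2, mul_zero, zero_sub, Left.neg_pos_iff]
    constructor
    · intro h3
      exact Or.inr ⟨hx, h3⟩
    · rintro (h3 | h3)
      · rw [hx] at h3
        exact absurd h3 (lt_irrefl _)
      · exact h3.2
  · have h2 := he.rgt α hx
    constructor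
    · intro h3
      exfalso
      nlinarith
    · rintro (h3 | h3)
      · exact absurd h3 (not_lt.2 hx.le)
      · exact absurd h3.1 (ne_of_gt hx)

theorem Ob1_hneg (h : X →+ ℝ) (α : ι) : h (D.rt (D.ng α)) = -h (D.rt α) := by
  rw [D.rt_ng, map_neg]

theorem srt_neg {y : Y} (hy : D.Srt h y) (α : ι) :
    D.pr α y < 0 ↔ (0 < h (D.rt α) ∨ (h (D.rt α) = 0 ∧ 0 < D.pr α D.y0)) := by
  have h1 := hy (D.ng α)
  rw [D.pr_ng, D.pr_ng, D.Ob1_hneg, Left.neg_pos_iff, Left.neg_neg_iff, Left.neg_neg_iff,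
    neg_eq_zero] at h1
  exact h1

theorem srt_reg {y : Y} (hy : D.Srt h y) : D.Reg y := by
  intro α h0
  have h1 := hy α
  have h2 := D.srt_neg hy α
  rw [h0] at h1 h2
  have h3 : ¬ (h (D.rt α) < 0 ∨ (h (D.rt α) = 0 ∧ D.pr α D.y0 < 0)) :=
    fun h4 => lt_irrefl _ (h1.2 h4)
  have h4 : ¬ (0 < h (D.rt α) ∨ (h (D.rt α) = 0 ∧ 0 < D.pr α D.y0)) :=
    fun h5 => lt_irrefl _ (h2.2 h5)
  rcases lt_trichotomy (h (D.rt α)) 0 with hx | hx | hx
  · exact h3 (Or.inl hx)
  · rcases lt_or_gt_of_ne (D.reg_y0 α) with h5 | h5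
    · exact h3 (Or.inr ⟨hx, h5⟩)
    · exact h4 (Or.inr ⟨hx, h5⟩)
  · exact h4 (Or.inl hx)

/-- a regular element which is positive on the ties in `Po y` and negative on the roots with `h < 0` -/
theorem sep_exists (h : X →+ ℝ) : ∃ z : Y, ∀ α,
    0 < D.pr α z ↔ (0 < h (D.rt α) ∨ (h (D.rt α) = 0 ∧ D.pr α D.y0 < 0)) := by
  obtain ⟨z, hz⟩ := D.srt_exists (-h)
  refine ⟨z, fun α => ?_⟩
  have h1 := hz α
  rw [AddMonoidHom.neg_apply, Left.neg_neg_iff, neg_eq_zero] at h1
  exact h1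

end Ctx

end

end Pool.Agent.Lib.MP_f399a8_nt.G
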