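import Pool.Agent.Lib.MP_f399a8_ntG.Ob1

/-!
# `Om` on the groups `Ug S` with positive, negative or zero slopes

PROOF.  For `x ∈ Ug S'` with `S'` negative for `y0` a nonidentity entry `(i, j)` has `⟨wt i, y0⟩ < ⟨wt j, y0⟩` (`ug_supp_y` for `-y0`), so `j < i`
(`D.sorted`), and if `0 < h (rt α)` for all `α ∈ S'` then `h (wt j) < h (wt i)` (`ug_supp_f` with `f = h`): `x.1 ∈ S.U p (S.Pos (cw h))`.
Similarly for `h < 0` (`f = -h`), and for `h = 0`: use `ug_supp`, `h (rt β + x) = 0` for `β ∈ S'`, `x` in the monoid generated by the roots in `S'`.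
The statements are then those of `MP_f399a8_ntS.P1A`, `P1B` (`S.P1`, `S.P1m`, `S.om_tie`, `S.P1_proper`, `S.P1m_proper`).
`Good h y` says that the roots in `Fr y` have `0 < h`.
-/

namespace Pool.Agent.Lib.MP_f399a8_nt.G

open Matrix Filter Topology

noncomputable section

namespace Ctx

variable {ι X Y : Type*} [Finite ι] [AddCommGroup X] [AddCommGroup Y] {N : ℕ} (D : Ctx ι X Y N)
  {p : ℕ} [Fact p.Prime] {h : X →+ ℝ}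

private theorem Oc1_lt {S' : Set ι} (h0 : ∀ α ∈ S', D.pr α D.y0 < 0) {x : D.Gt p}
    (hx : x ∈ D.Ug p S') {i j : Fin N}
    (h : x.1.1 i j ≠ (1 : Matrix (Fin N) (Fin N) ℚ_[p]) i j) : j < i := by
  have h1 := D.ug_supp_y (y := -D.y0) (fun α hα => by
    rw [D.pr_neg]
    exact neg_pos.2 (h0 α hα)) hx h
  rw [D.wp_def, D.wp_def, D.pa_neg_right, D.pa_neg_right] at h1
  exact D.sorted j i (neg_lt_neg_iff.1 h1)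

theorem ug_Pos {S' : Set ι} (h0 : ∀ α ∈ S', D.pr α D.y0 < 0) (h1 : ∀ α ∈ S', 0 < h (D.rt α))
    {x : D.Gt p} (hx : x ∈ D.Ug p S') : x.1 ∈ S.U p (S.Pos (D.cw h)) := by
  intro i j hij
  by_contra hcon
  exact hij ⟨D.Oc1_lt h0 hx hcon, D.ug_supp_f h h1 hx hcon⟩

theorem ug_Neg {S' : Set ι} (h0 : ∀ α ∈ S', D.pr α D.y0 < 0) (h1 : ∀ α ∈ S', h (D.rt α) < 0)
    {x : D.Gt p} (hx : x ∈ D.Ug p S') : x.1 ∈ S.U p (S.Neg (D.cw h)) := by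
  intro i j hij
  by_contra hcon
  have h2 : (-h) (D.wt j) < (-h) (D.wt i) := D.ug_supp_f (-h) (fun α hα => by
    rw [AddMonoidHom.neg_apply]
    exact neg_pos.2 (h1 α hα)) hx hcon
  rw [AddMonoidHom.neg_apply, AddMonoidHom.neg_apply] at h2
  exact hij ⟨D.Oc1_lt h0 hx hcon, neg_lt_neg_iff.1 h2⟩

theorem ug_Tie {S' : Set ι} (h0 : ∀ α ∈ S', D.pr α D.y0 < 0) (h1 : ∀ α ∈ S', h (D.rt α) = 0)
    {x : D.Gt p} (hx : x ∈ D.Ug p S') : x.1 ∈ S.U p (S.Tie (D.cw h)) := by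
  intro i j hij
  by_contra hcon
  obtain ⟨β, hβ, z, hz, hij'⟩ := D.ug_supp hx hcon
  have h2 : h z = 0 := by
    clear hij'
    induction hz using AddSubmonoid.closure_induction with
    | mem z hz =>
      obtain ⟨α, hα, rfl⟩ := hz
      exact h1 α hα
    | zero => exact map_zero h
    | add a b _ _ ha hb => rw [map_add, ha, hb, add_zero]
  refine hij ⟨D.Oc1_lt h0 hx hcon, ?_⟩
  show h (D.wt i) = h (D.wt j)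
  rw [hij', map_add, map_add, h1 β hβ, h2, add_zero, add_zero]

theorem om_tie {S' : Set ι} (h0 : ∀ α ∈ S', D.pr α D.y0 < 0) (h1 : ∀ α ∈ S', h (D.rt α) = 0)
    {x : D.Gt p} (hx : x ∈ D.Ug p S') : D.Om h x = 1 :=
  S.om_tie (D.ug_Tie h0 h1 hx)

theorem om_ge {S' : Set ι} (h0 : ∀ α ∈ S', D.pr α D.y0 < 0) (h1 : ∀ α ∈ S', 0 < h (D.rt α))
    {x : D.Gt p} (hx : x ∈ D.Ug p S') : 1 ≤ D.Om h x := by
  obtain ⟨c, -, hP⟩ := S.P1 p (D.cw h)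
  exact (hP x.1 (D.ug_Pos h0 h1 hx)).1

theorem om_le {S' : Set ι} (h0 : ∀ α ∈ S', D.pr α D.y0 < 0) (h1 : ∀ α ∈ S', h (D.rt α) < 0)
    {x : D.Gt p} (hx : x ∈ D.Ug p S') : D.Om h x ≤ 1 := by
  obtain ⟨c, -, hP⟩ := S.P1m p (D.cw h)
  exact (hP x.1 (D.ug_Neg h0 h1 hx)).1

theorem om_dl (p : ℕ) [Fact p.Prime] (h : X →+ ℝ) : ∃ c : ℝ, 0 < c ∧ ∀ S' : Set ι,
    (∀ α ∈ S', D.pr α D.y0 < 0) → (∀ α ∈ S', 0 < h (D.rt α)) → ∀ x ∈ D.Ug p S',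
      ∀ i, S.dl x.1 i ≤ (D.Om h x) ^ c := by
  obtain ⟨c, hc, hP⟩ := S.P1 p (D.cw h)
  exact ⟨c, hc, fun S' h0 h1 x hx => (hP x.1 (D.ug_Pos h0 h1 hx)).2⟩

theorem om_dl' (p : ℕ) [Fact p.Prime] (h : X →+ ℝ) : ∃ c : ℝ, 0 < c ∧ ∀ S' : Set ι,
    (∀ α ∈ S', D.pr α D.y0 < 0) → (∀ α ∈ S', h (D.rt α) < 0) → ∀ x ∈ D.Ug p S',
      ∀ i, S.dl x.1 i ≤ (D.Om h x) ^ (-c) := by
  obtain ⟨c, hc, hP⟩ := S.P1m p (D.cw h)
  exact ⟨c, hc, fun S' h0 h1 x hx => (hP x.1 (D.ug_Neg h0 h1 hx)).2⟩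

theorem om_proper (p : ℕ) [Fact p.Prime] (h : X →+ ℝ) (A : ℝ) : ∃ B : ℝ, ∀ S' : Set ι,
    (∀ α ∈ S', D.pr α D.y0 < 0) → (∀ α ∈ S', 0 < h (D.rt α)) → ∀ x ∈ D.Ug p S', D.Om h x ≤ A →
      ∀ i j, ‖x.1.1 i j‖ ≤ B := by
  obtain ⟨B, hB⟩ := S.P1_proper p (D.cw h) A
  exact ⟨B, fun S' h0 h1 x hx hA => hB x.1 (D.ug_Pos h0 h1 hx) hA⟩

theorem om_proper' (p : ℕ) [Fact p.Prime] (h : X →+ ℝ) {ε : ℝ} (hε : 0 < ε) :
    ∃ B : ℝ, ∀ S' : Set ι, (∀ α ∈ S', D.pr α D.y0 < 0) → (∀ α ∈ S', h (D.rt α) < 0) →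
      ∀ x ∈ D.Ug p S', ε ≤ D.Om h x → ∀ i j, ‖x.1.1 i j‖ ≤ B := by
  obtain ⟨B, hB⟩ := S.P1m_proper p (D.cw h) hε
  exact ⟨B, fun S' h0 h1 x hx hA => hB x.1 (D.ug_Neg h0 h1 hx) hA⟩

/-- the roots in `Fr y` have positive slope -/
def Good (h : X →+ ℝ) (y : Y) : Prop := ∀ α ∈ D.Fr y, 0 < h (D.rt α)

theorem good_ge {y : Y} (hg : D.Good h y) {x : D.Gt p} (hx : x ∈ D.Ug p (D.Fr y)) :
    1 ≤ D.Om h x :=
  D.om_ge (fun _ hα => hα.2) hg hx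

theorem good_proper (p : ℕ) [Fact p.Prime] {y : Y} (hg : D.Good h y) (A : ℝ) : ∃ B : ℝ,
    ∀ x ∈ D.Ug p (D.Fr y), D.Om h x ≤ A → ∀ i j, ‖x.1.1 i j‖ ≤ B := by
  obtain ⟨B, hB⟩ := D.om_proper p h A
  exact ⟨B, fun x hx hA => hB (D.Fr y) (fun _ hα => hα.2) hg x hx hA⟩

end Ctx

end

end Pool.Agent.Lib.MP_f399a8_nt.G
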