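import Pool.Agent.Lib.MP_f399a8_ntG.Od1

/-!
# Points where `Om` stays bounded under the contraction; the limit of the norms

`t = cc e (pp p)`, `Con h e`, `Srt h y`.

PROOF of `D2`.  By `con_relC` (constant `c`) with `g = x`, `x_M := t^M * x * (t^M)⁻¹`: `dl x_M i ≤ dl x i * (A / Om x) ^ c` and
`dl x i ≤ dl x_M i * (A / Om x) ^ c` (`1 ≤ Om x_M / Om x ≤ A / Om x` by `S.RelC_le`; `dl` means `S.dl` of the matrix in `SLp p N`).  So there is
`B ≥ 1` with `B⁻¹ ≤ dl x_M i ≤ B` for all `M`, `i`.  Bruhat: `x = b * n * u`, `u ∈ Ug (Po y)` (`srt_reg`; `bg_iff`).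
`x_M = (t^M b t^-M) * (t^M n t^-M) * (t^M u t^-M)`.  `u_M := t^M u t^-M` has entries of norm `≤ A' := max ‖u i j‖` and `1` (for a nonidentity entry of `u`,
`wt i - wt j` is a sum of roots in `Po y`, which have `h ≤ 0`, so `h (wt i) ≤ h (wt j)` and `⟨wt j, e⟩ ≤ ⟨wt i, e⟩`).
`t^M n t^-M = s_M * n`, `s_M = t^M * (n t^-M n⁻¹) = cc (M • (e - w e)) p` (`isN_cc`, `cc_smul`, …), with diagonal entries
`p ^ (M ⟨wt i, e - w e⟩)`.  So `dl x_M i = ‖b i i‖ * p ^ (-M ⟨wt i, e - w e⟩) * dl (n * u_M) i` (`S.dl_left`; the diagonal of `t^M b t^-M` is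
the one of `b`).  The elements `n * u_M` are in the compact set `{∀ i j, ‖· i j‖ ≤ A'}` (`n ∈ K`) on which `dl · i` is bounded above and below
(`S.om_bdd` with `v = Pi.single i 1`: `S.Om (Pi.single i 1) x = dl x i`).  Hence `p ^ (-M ⟨wt i, e - w e⟩)` is bounded above and
below in `M`, so `⟨wt i, e - w e⟩ = 0` for all `i`, so `w e = e` (`wt_ext`, `pa_ext_y`), `stab_h`.

PROOF of `star`.  Suppose not: then for every `M0` there is `M ≥ M0` and `k ∈ Kg` with `S₀ + ε < ‖f ((t^M)⁻¹ * k * t^M)‖`.  Write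
`(t^M)⁻¹ * k * t^M = b * κ` with `b ∈ Bg`, `κ ∈ Kg` (`iwasawa`).  Then `‖f (b κ)‖ = ‖cb χ b‖ * ‖f κ‖`, and
`1 = Om k = Om (t^M * (b κ) * (t^M)⁻¹) = ‖cb χ b‖ * Om (t^M * κ * (t^M)⁻¹)` (`cb_conj`, `om_cb`).  So with
`h_M κ := ‖f κ‖ / Om (t^M * κ * (t^M)⁻¹)`, `S₀ + ε < h_M κ`.  Let `Z_M = {κ ∈ Kg | S₀ + ε ≤ h_M κ}`: closed in the compact `Kg` (`om_cont`, `Om > 0`),
antitone in `M` (`con_om`), nonempty for arbitrarily large `M`, so for all `M`.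
`IsCompact.nonempty_iInter_of_sequence_nonempty_isCompact_isClosed`: there is `κ` in all `Z_M`.  So `Om (t^M κ (t^M)⁻¹) ≤ ‖f κ‖ / (S₀ + ε)` for all
`M`, and by `D2` `κ = b * n * u`.  For `M` large `Om (t^M κ (t^M)⁻¹) = ‖cb χ b‖ * Om (t^M (n u) (t^M)⁻¹) = ‖cb χ b‖` (`om_lim`) and
`‖f κ‖ = ‖cb χ b‖ * ‖f (n * u)‖ ≤ ‖cb χ b‖ * S₀`.  So `h_M κ ≤ S₀ < S₀ + ε`, contradiction.
(The same proofs for `SL_n`: files `MP_f399a8_ntS.D2B`, `StarA`.)
-/

namespace Pool.Agent.Lib.MP_f399a8_nt.G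

open Matrix Filter Topology

noncomputable section

namespace Ctx

variable {ι X Y : Type*} [Finite ι] [AddCommGroup X] [AddCommGroup Y] {N : ℕ} (D : Ctx ι X Y N)
  {p : ℕ} [Fact p.Prime] {C : Type*} [NormedField C] {h : X →+ ℝ} {e y : Y}

omit [Fact p.Prime] in
private theorem Od2_pow (q : ℝ) (k : ℤ) (M : ℕ) (m : ℤ) (hm : m = -k * (M : ℤ)) :
    q ^ m = (q ^ (-k)) ^ M := by
  rw [hm, _root_.zpow_mul, zpow_natCast]

private theorem Od2_dg (e : Y) : S.IsDg (fun i => D.wp i e) (D.cc p e (pp p)).1 := by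
  intro i j
  rw [D.cc_val]
  unfold cd
  rw [Matrix.diagonal_apply]
  split_ifs with h
  · rw [Units.val_zpow_eq_zpow_val]
    rfl
  · rfl

private theorem Od2_val (t x : D.Gt p) (M : ℕ) :
    (t ^ M * x * (t ^ M)⁻¹).1 = t.1 ^ M * x.1 * (t.1 ^ M)⁻¹ := by
  rfl

theorem D2 (hc : D.Con h e) (hy : D.Srt h y) (x : D.Gt p) (A : ℝ)
    (hA : ∀ M : ℕ, D.Om h ((D.cc p e (pp p)) ^ M * x * ((D.cc p e (pp p)) ^ M)⁻¹) ≤ A) :
    ∃ b ∈ D.Bg p, ∃ (w : D.W) (n : D.Gt p), D.IsN w n ∧ D.Stb h w ∧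
      ∃ u ∈ D.Ug p (D.Po y), x = b * n * u := by
  classical
  obtain ⟨c, hc0, hD1⟩ := D.con_relC p hc
  obtain ⟨b, hb', w, n, hn, u, hu, hx⟩ := D.bruhat (D.srt_reg hy) x
  have hb : b ∈ D.Bg p := D.bg_iff.2 hb'
  refine ⟨b, hb, w, n, hn, ?_, u, hu, hx⟩
  have ht := D.Od2_dg (p := p) e
  obtain ⟨t, htd⟩ : ∃ t, t = D.cc p e (pp p) := ⟨_, rfl⟩
  rw [← htd] at ht hD1 hA
  have hp1 : (1 : ℝ) < p := by exact_mod_cast (Fact.out : p.Prime).one_lt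
  -- bounds for `dl x_M`
  have hOx : 0 < S.Om (D.cw h) x.1 := S.om_pos _ _
  obtain ⟨R, hR⟩ : ∃ R, R = (A / S.Om (D.cw h) x.1) ^ c := ⟨_, rfl⟩
  have hratio : ∀ M : ℕ, 1 ≤ S.Om (D.cw h) (t ^ M * x * (t ^ M)⁻¹).1 / S.Om (D.cw h) x.1 ∧
      S.Om (D.cw h) (t ^ M * x * (t ^ M)⁻¹).1 / S.Om (D.cw h) x.1 ≤ A / S.Om (D.cw h) x.1 := by
    intro M
    refine ⟨?_, div_le_div_of_nonneg_right (hA M) hOx.le⟩
    rw [one_le_div hOx]
    exact S.RelC_le hc0 (hD1 M x)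
  have hR1 : 1 ≤ R := by
    rw [hR]
    exact Real.one_le_rpow ((hratio 0).1.trans (hratio 0).2) hc0.le
  have hrc : ∀ M : ℕ,
      (S.Om (D.cw h) (t ^ M * x * (t ^ M)⁻¹).1 / S.Om (D.cw h) x.1) ^ c ≤ R := by
    intro M
    rw [hR]
    exact Real.rpow_le_rpow (zero_le_one.trans (hratio M).1) (hratio M).2 hc0.le
  have hup : ∀ (M : ℕ) (i : Fin N), S.dl (t ^ M * x * (t ^ M)⁻¹).1 i ≤ S.dl x.1 i * R := by
    intro M i
    exact ((hD1 M x) i).1.trans (mul_le_mul_of_nonneg_left (hrc M) (S.dl_pos x.1 i).le)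
  have hlo : ∀ (M : ℕ) (i : Fin N), S.dl x.1 i ≤ S.dl (t ^ M * x * (t ^ M)⁻¹).1 i * R := by
    intro M i
    exact ((hD1 M x) i).2.trans (mul_le_mul_of_nonneg_left (hrc M) (S.dl_pos _ i).le)
  -- the matrix `u_M`
  obtain ⟨A', hA'0, hA'⟩ : ∃ A' : ℝ, 0 ≤ A' ∧ ∀ i j, ‖u.1.1 i j‖ ≤ A' := by
    refine ⟨∑ i, ∑ j, ‖u.1.1 i j‖, by positivity, fun i j => ?_⟩
    have h1 : ‖u.1.1 i j‖ ≤ ∑ j', ‖u.1.1 i j'‖ :=
      Finset.single_le_sum (f := fun j' => ‖u.1.1 i j'‖) (fun _ _ => norm_nonneg _)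
        (Finset.mem_univ j)
    exact h1.trans (Finset.single_le_sum (f := fun i' => ∑ j', ‖u.1.1 i' j'‖)
      (fun _ _ => Finset.sum_nonneg fun _ _ => norm_nonneg _) (Finset.mem_univ i))
  have hPo : ∀ α ∈ D.Po y, h (D.rt α) ≤ 0 := by
    intro α hα
    rcases (hy α).1 hα with h1 | h1
    · exact h1.le
    · exact h1.1.le
  have hcl : ∀ z ∈ AddSubmonoid.closure (D.rt '' D.Po y), h z ≤ 0 := by
    intro z hz
    induction hz using AddSubmonoid.closure_induction with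
    | mem z hz =>
      obtain ⟨α, hα, rfl⟩ := hz
      exact hPo α hα
    | zero => rw [map_zero]
    | add a b _ _ ha hb =>
      rw [map_add]
      linarith
  have huM : ∀ (M : ℕ) (i j : Fin N), ‖(t ^ M * u * (t ^ M)⁻¹).1.1 i j‖ ≤ A' := by
    intro M i j
    rw [D.Od2_val, S.dg_pow_conj ht, norm_mul, Padic.norm_p_zpow]
    by_cases h0 : u.1.1 i j = 0
    · rw [h0, norm_zero, mul_zero]
      exact hA'0
    · have hij : D.wp j e ≤ D.wp i e := by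
        by_cases hij : i = j
        · rw [hij]
        · have h1 : u.1.1 i j ≠ (1 : Matrix (Fin N) (Fin N) ℚ_[p]) i j := by
            rw [Matrix.one_apply_ne hij]
            exact h0
          obtain ⟨β, hβ, z, hz, hw⟩ := D.ug_supp hu h1
          have h2 : h (D.wt i) ≤ h (D.wt j) := by
            rw [hw, map_add, map_add]
            have := hPo β hβ
            have := hcl z hz
            linarith
          rcases h2.lt_or_eq with h3 | h3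
          · exact (hc.lt i j h3).le
          · exact (hc.eq i j h3).ge
      have h2 : (p : ℝ) ^ (-((M : ℤ) * (D.wp i e - D.wp j e))) ≤ 1 := by
        refine zpow_le_one_of_nonpos₀ hp1.le ?_
        have := mul_nonneg (Int.natCast_nonneg M) (sub_nonneg.mpr hij)
        linarith
      calc (p : ℝ) ^ (-((M : ℤ) * (D.wp i e - D.wp j e))) * ‖u.1.1 i j‖ ≤ 1 * ‖u.1.1 i j‖ :=
            mul_le_mul_of_nonneg_right h2 (norm_nonneg _)
        _ ≤ A' := by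
          rw [one_mul]
          exact hA' i j
  have hnuM : ∀ (M : ℕ) (i j : Fin N), ‖(n * (t ^ M * u * (t ^ M)⁻¹)).1.1 i j‖ ≤ A' := by
    intro M i j
    have h1 := S.mulmat_norm_le n.1.1 (t ^ M * u * (t ^ M)⁻¹).1.1 zero_le_one hA'0
      (D.mem_Kg p |>.1 (D.isN_K hn)) (huM M) i j
    rw [one_mul] at h1
    exact h1
  have hwe : D.wy w e = e := by
    have hdg' := D.Od2_dg (p := p) (D.wy w e)
    have hkey : ∀ i, D.wp i (D.wy w e) = D.wp i e := by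
      intro i
      obtain ⟨B, hB0, hB⟩ := S.om_bdd p (Pi.single i (1 : ℝ)) A'
      have hOdl : ∀ g : SLp p N, S.Om (Pi.single i (1 : ℝ)) g = S.dl g i := by
        intro g
        unfold S.Om
        rw [Finset.prod_eq_single i]
        · rw [Pi.single_eq_same, Real.rpow_one]
        · intro j _ hj
          rw [Pi.single_eq_of_ne hj, Real.rpow_zero]
        · intro h0
          exact absurd (Finset.mem_univ i) h0
      have hbi : 0 < ‖b.1.1 i i‖ := norm_pos_iff.mpr ((S.bp_diag (b := b.1) hb).1 i)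
      have hdl : ∀ M : ℕ, S.dl (t ^ M * x * (t ^ M)⁻¹).1 i =
          ‖b.1.1 i i‖ * (((p : ℝ) ^ (-(D.wp i e - D.wp i (D.wy w e)))) ^ M *
            S.dl (n * (t ^ M * u * (t ^ M)⁻¹)).1 i) := by
        intro M
        have hcj : n * (t ^ M)⁻¹ * n⁻¹ = (D.cc p (D.wy w e) (pp p) ^ M)⁻¹ := by
          rw [← D.isN_cc hn, ← htd, conj_pow]
          group
        have hs : S.IsDg (fun a => (M : ℤ) * D.wp a e + -((M : ℤ) * D.wp a (D.wy w e)))
            (t ^ M * (n * (t ^ M)⁻¹ * n⁻¹)).1 := by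
          rw [hcj]
          exact S.dg_mul (S.dg_pow ht M) (S.dg_inv (S.dg_pow hdg' M))
        have h1 : t ^ M * x * (t ^ M)⁻¹ = (t ^ M * b * (t ^ M)⁻¹) *
            ((t ^ M * (n * (t ^ M)⁻¹ * n⁻¹)) * (n * (t ^ M * u * (t ^ M)⁻¹))) := by
          rw [hx]
          group
        have htM : t.1 ^ M ∈ S.Bp p N := S.dg_Bt (S.dg_pow ht M) _
        have hbM : t.1 ^ M * b.1 * (t.1 ^ M)⁻¹ ∈ S.Bp p N := mul_mem (mul_mem htM hb) (inv_mem htM)
        have h2 : (t ^ M * x * (t ^ M)⁻¹).1 = (t.1 ^ M * b.1 * (t.1 ^ M)⁻¹) *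
            ((t ^ M * (n * (t ^ M)⁻¹ * n⁻¹)).1 * (n * (t ^ M * u * (t ^ M)⁻¹)).1) := by
          rw [h1]
          rfl
        rw [h2, S.dl_left hbM, S.dl_left (S.dg_Bt hs _), S.dg_pow_conj ht, sub_self, mul_zero,
          zpow_zero, one_mul, hs i i, if_pos rfl, Padic.norm_p_zpow,
          Od2_pow (p : ℝ) (D.wp i e - D.wp i (D.wy w e)) M _ (by ring)]
      have hk := S.D2B_int (p : ℝ) hp1 (D.wp i e - D.wp i (D.wy w e))
        (S.dl x.1 i * R * B / ‖b.1.1 i i‖)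
        (S.dl x.1 i / (R * B * ‖b.1.1 i i‖)) (by
          have := S.dl_pos x.1 i
          positivity) (by
          intro M
          have h1 := hB _ (hnuM M)
          rw [hOdl] at h1
          have h2 := hup M i
          rw [hdl M] at h2
          have h3 := hlo M i
          rw [hdl M] at h3
          have hDp := S.dl_pos (n * (t ^ M * u * (t ^ M)⁻¹)).1 i
          obtain ⟨E, hE⟩ : ∃ E, E = S.dl (n * (t ^ M * u * (t ^ M)⁻¹)).1 i := ⟨_, rfl⟩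
          rw [← hE] at h1 h2 h3 hDp
          obtain ⟨z, hz⟩ : ∃ z, z = ((p : ℝ) ^ (-(D.wp i e - D.wp i (D.wy w e)))) ^ M := ⟨_, rfl⟩
          rw [← hz] at h2 h3 ⊢
          have hz0 : 0 < z := by
            rw [hz]
            positivity
          have hR0 : 0 < R := by linarith
          have hBD : 1 ≤ B * E := by
            have h4 := mul_le_mul_of_nonneg_left h1.2 hB0.le
            rw [mul_inv_cancel₀ hB0.ne'] at h4
            exact h4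
          constructor
          · rw [div_le_iff₀ (by positivity)]
            calc S.dl x.1 i ≤ ‖b.1.1 i i‖ * (z * E) * R := h3
              _ ≤ ‖b.1.1 i i‖ * (z * B) * R := by
                have := h1.1
                gcongr
              _ = z * (R * B * ‖b.1.1 i i‖) := by ring
          · rw [le_div_iff₀ hbi]
            calc z * ‖b.1.1 i i‖ = ‖b.1.1 i i‖ * z * 1 := by ring
              _ ≤ ‖b.1.1 i i‖ * z * (B * E) := mul_le_mul_of_nonneg_left hBD (by positivity)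
              _ = (‖b.1.1 i i‖ * (z * E)) * B := by ring
              _ ≤ (S.dl x.1 i * R) * B := mul_le_mul_of_nonneg_right h2 hB0.le)
      omega
    apply D.pa_ext_y
    intro z
    refine D.wt_ind (q := fun z => D.pa z (D.wy w e) = D.pa z e) ?_ ?_ ?_ ?_ z
    · rw [D.pa_zero_left, D.pa_zero_left]
    · intro i
      exact hkey i
    · intro a b ha hb
      rw [D.pa_add_left, D.pa_add_left, ha, hb]
    · intro a ha
      rw [D.pa_neg_left, D.pa_neg_left, ha]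
  exact D.stab_h hc hwe

private theorem Od2_conj {χ : ↥(D.Tg p) →* Cˣ} (hs : D.Slope χ h) {b : D.Gt p} (hb : b ∈ D.Bg p)
    {t : D.Gt p} (ht : t ∈ D.Tg p) (x : D.Gt p) (M : ℕ) :
    D.Om h (t ^ M * (b * x) * (t ^ M)⁻¹) = ‖D.cb χ b‖ * D.Om h (t ^ M * x * (t ^ M)⁻¹) := by
  have h1 : t ^ M * (b * x) * (t ^ M)⁻¹ =
      (t ^ M * b * (t ^ M)⁻¹) * (t ^ M * x * (t ^ M)⁻¹) := by group
  have htM : t ^ M ∈ D.Tg p := pow_mem ht M
  have htB : t ^ M ∈ D.Bg p := D.tg_bg htM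
  have h2 : t ^ M * b * (t ^ M)⁻¹ ∈ D.Bg p := mul_mem (mul_mem htB hb) (inv_mem htB)
  rw [h1, D.om_cb hs h2, (D.cb_conj χ htM hb).1]

theorem star {χ : ↥(D.Tg p) →* Cˣ} (hs : D.Slope χ h) (hc : D.Con h e) (hy : D.Srt h y)
    {f : D.Gt p → C} (hf : D.PS χ f) {S₀ : ℝ} (hS0 : 0 ≤ S₀)
    (hS : ∀ (w : D.W) (n : D.Gt p), D.IsN w n → D.Stb h w →
      ∀ u ∈ D.Ug p (D.Po y), ‖f (n * u)‖ ≤ S₀) {ε : ℝ} (hε : 0 < ε) :
    ∃ M0 : ℕ, ∀ M ≥ M0, ∀ k ∈ D.Kg p,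
      ‖f (((D.cc p e (pp p)) ^ M)⁻¹ * k * (D.cc p e (pp p)) ^ M)‖ ≤ S₀ + ε := by
  obtain ⟨hfc, hfe⟩ := hf
  have htT : D.cc p e (pp p) ∈ D.Tg p := D.cc_torus p e (pp p)
  by_contra hcon
  push Not at hcon
  have hSε : 0 < S₀ + ε := by linarith
  let Z : ℕ → Set (D.Gt p) := fun M =>
    (D.Kg p : Set (D.Gt p)) ∩
      {κ | (S₀ + ε) * D.Om h ((D.cc p e (pp p)) ^ M * κ * ((D.cc p e (pp p)) ^ M)⁻¹) ≤ ‖f κ‖}
  have hanti : ∀ M M' : ℕ, M ≤ M' → Z M' ⊆ Z M := by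
    intro M M' hM κ hκ
    refine ⟨hκ.1, ?_⟩
    have h1 : (S₀ + ε) * D.Om h ((D.cc p e (pp p)) ^ M' * κ * ((D.cc p e (pp p)) ^ M')⁻¹) ≤
      ‖f κ‖ := hκ.2
    exact (mul_le_mul_of_nonneg_left (D.con_om hc hM κ) hSε.le).trans h1
  have hne : ∀ M0 : ℕ, (Z M0).Nonempty := by
    intro M0
    obtain ⟨M, hM, k, hk, hlt⟩ := hcon M0
    obtain ⟨b, hb, κ, hκ, hbk⟩ :=
      D.iwasawa (((D.cc p e (pp p)) ^ M)⁻¹ * k * (D.cc p e (pp p)) ^ M)
    refine ⟨κ, hanti M0 M hM ⟨hκ, ?_⟩⟩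
    show (S₀ + ε) * D.Om h ((D.cc p e (pp p)) ^ M * κ * ((D.cc p e (pp p)) ^ M)⁻¹) ≤ ‖f κ‖
    rw [hbk, hfe b hb κ, norm_mul] at hlt
    have h1 : k = (D.cc p e (pp p)) ^ M * (b * κ) * ((D.cc p e (pp p)) ^ M)⁻¹ := by
      rw [← hbk]
      group
    have h2 : (1 : ℝ) = ‖D.cb χ b‖ *
        D.Om h ((D.cc p e (pp p)) ^ M * κ * ((D.cc p e (pp p)) ^ M)⁻¹) := by
      rw [← D.Od2_conj hs hb htT κ M, ← h1, D.om_kg h hk]
    have h3 : 0 < D.Om h ((D.cc p e (pp p)) ^ M * κ * ((D.cc p e (pp p)) ^ M)⁻¹) :=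
      D.om_pos h _
    have h4 := mul_le_mul_of_nonneg_right hlt.le h3.le
    calc (S₀ + ε) * D.Om h ((D.cc p e (pp p)) ^ M * κ * ((D.cc p e (pp p)) ^ M)⁻¹)
        ≤ ‖D.cb χ b‖ * ‖f κ‖ *
          D.Om h ((D.cc p e (pp p)) ^ M * κ * ((D.cc p e (pp p)) ^ M)⁻¹) := h4
      _ = (‖D.cb χ b‖ * D.Om h ((D.cc p e (pp p)) ^ M * κ * ((D.cc p e (pp p)) ^ M)⁻¹)) *
          ‖f κ‖ := by ring
      _ = ‖f κ‖ := by rw [← h2, one_mul]
  have hcl : ∀ M : ℕ, IsClosed {κ : D.Gt p |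
      (S₀ + ε) * D.Om h ((D.cc p e (pp p)) ^ M * κ * ((D.cc p e (pp p)) ^ M)⁻¹) ≤ ‖f κ‖} := by
    intro M
    refine isClosed_le ?_ hfc.norm
    have h1 : Continuous fun κ : D.Gt p =>
        (D.cc p e (pp p)) ^ M * κ * ((D.cc p e (pp p)) ^ M)⁻¹ :=
      (continuous_const.mul continuous_id).mul continuous_const
    exact continuous_const.mul ((D.om_cont p h).comp h1)
  have hcK : IsCompact (D.Kg p : Set (D.Gt p)) := D.kg_compact p
  have hXc : ∀ M, IsCompact (Z M) := fun M => hcK.inter_right (hcl M)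
  obtain ⟨κ, hκ⟩ := IsCompact.nonempty_iInter_of_sequence_nonempty_isCompact_isClosed Z
    (fun i => hanti i (i + 1) (Nat.le_succ i)) hne (hXc 0) (fun M => (hXc M).isClosed)
  have hκ' : ∀ M, κ ∈ Z M := fun M => Set.mem_iInter.1 hκ M
  have hbd : ∀ M : ℕ, D.Om h ((D.cc p e (pp p)) ^ M * κ * ((D.cc p e (pp p)) ^ M)⁻¹) ≤
      ‖f κ‖ / (S₀ + ε) := by
    intro M
    rw [le_div_iff₀ hSε, mul_comm]
    exact (hκ' M).2
  obtain ⟨b, hb, w, n, hn, hst, u, hu, hbwu⟩ := D.D2 hc hy κ _ hbd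
  obtain ⟨M0, hM0⟩ := D.om_lim hc hy hn hst hu
  have h1 : (S₀ + ε) * D.Om h ((D.cc p e (pp p)) ^ M0 * κ * ((D.cc p e (pp p)) ^ M0)⁻¹) ≤
    ‖f κ‖ := (hκ' M0).2
  have h2 : κ = b * (n * u) := by rw [hbwu, mul_assoc]
  have hcb : 0 < ‖D.cb χ b‖ := norm_pos_iff.2 (D.cb_ne_zero χ b)
  rw [h2, D.Od2_conj hs hb htT, hM0 M0 le_rfl, mul_one, hfe b hb, norm_mul] at h1
  have h3 := mul_le_mul_of_nonneg_left (hS w n hn hst u hu) hcb.le
  nlinarith

end Ctx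

end

end Pool.Agent.Lib.MP_f399a8_nt.G
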