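import Pool.Agent.Lib.MP_f399a8_ntG.Fa3

/-!
# The parabolic subgroup of a simple root

`Bt y = T Ug (Po y)`, `Pb y γ` is generated by `T`, `Ug (Po y)` and the image of `io γ` (`γ` simple for `y`).
(The same for `SL_n`: file `MP_f399a8_ntS.IoC`.)

PROOF.
* `mem_Bt`, `mem_Pb`: the sets of products are subgroups: `T` normalizes `Ug S'` (`tg_ug`) and the image of `io γ` (`t * xr (± γ) s * t⁻¹`, `tg_xr`,
  `sl2_ind`); the image of `io γ` normalizes `Ug (Ob y γ)` (`ob_io`).  `Ug (Po y) ⊆` this set: `ob_fac` and `xr γ s = io γ (ux s)`.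
* `bt_split`: `s = t * u`, `u = e * d` (`ed_fac`), `b = t * e` (`po_bg`, `tg_bg`).
* `up_Bt`: `up2_eq`, `io_dg`, `io_ux`, `cc_torus`.
* `pb_split`: `x = t * u * io γ l`; if `l 1 1 ≠ 0`: `l = up2 .. * lo2 z` (`S.sl2_case1`), `t * u * io γ (up2 ..) ∈ Bt`, `bt_split`, `io_lo`.  If `l 1 1 = 0`:
  `l = up2 .. * w2` (`S.sl2_case2`).
* `bt_er`: `b = t * u ∈ Bg`, `u ∈ Ug (Po y)`: `u = t⁻¹ * b ∈ Bg` has diagonal `1` (`ug_diag`), so `u ∈ Ug (Po y0)` (`bg_unip`) and by `ug_inter` (`S = Po y`,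
  `z = y0`) `u ∈ Ug (Er y)`.
* `pb_Bp`: `b ∈ Bg ∩ Pb`; `pb_split`: if `b = b' * d * xr (ng γ) z` then `d * xr (ng γ) z = b'⁻¹ * b ∈ Bg ∩ Ug (Ne y0)`, so it is `1` (`bu_uniq` with `1 * x = x * 1`),
  and `b = b' ∈ Bt`.  If `b = b' * d * io γ w2` then `d * io γ w2 = (b'⁻¹ * b) * 1` contradicts `dw_notin`.
* `kp_er`: `b = t * u`, `u ∈ Ug (Er y)` (`bt_er`).  The diagonal of `b * d = t * (u * d)` is the diagonal of `t` (`ug_diag` for `u * d ∈ Ug (Po y)`), so the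
  entries of `t` have norm `≤ 1`, their product is `1`, so they have norm `1` and `t ∈ Kg` (`tg_K`).  So `u * d ∈ Kg`, and by `ed_fac` and
  `ug_fac_unique` (`z = y0`) `u, d ∈ Kg`.
* `io_supp`: `cc e (pp p)` commutes with `io γ l` (`io_cc`), so `p ^ ⟨wt i, e⟩ * l_ij = p ^ ⟨wt j, e⟩ * l_ij`.
* `pb_conj`: every nonzero entry `(i, j)` of `x = t * u * io γ l` has `⟨wt j, e⟩ ≤ ⟨wt i, e⟩` (`supp_ge`, `io_supp`); `tg_entry`.
-/

namespace Pool.Agent.Lib.MP_f399a8_nt.G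

open Matrix Filter Topology

noncomputable section

namespace Ctx

variable {ι X Y : Type*} [Finite ι] [AddCommGroup X] [AddCommGroup Y] {N : ℕ} (D : Ctx ι X Y N)

/-- the Borel subgroup of `y` -/
def Bt (p : ℕ) [Fact p.Prime] (y : Y) : Subgroup (D.Gt p) := D.Tg p ⊔ D.Ug p (D.Po y)

/-- the parabolic subgroup of `y` and the simple root `γ` -/
def Pb (p : ℕ) [Fact p.Prime] (y : Y) (γ : ι) : Subgroup (D.Gt p) :=
  D.Tg p ⊔ D.Ug p (D.Po y) ⊔ (D.io p γ).range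

variable {p : ℕ} [Fact p.Prime] {y e : Y} {γ : ι}

private theorem Pa1_sup {G : Type*} [Group G] {A B : Subgroup G}
    (h : ∀ a ∈ A, ∀ b ∈ B, a * b * a⁻¹ ∈ B) {x : G} (hx : x ∈ A ⊔ B) :
    ∃ a ∈ A, ∃ b ∈ B, x = a * b := by
  let H : Subgroup G :=
    { carrier := {x | ∃ a ∈ A, ∃ b ∈ B, x = a * b}
      mul_mem' := by
        rintro _ _ ⟨a, ha, b, hb, rfl⟩ ⟨a', ha', b', hb', rfl⟩
        refine ⟨a * a', mul_mem ha ha', (a'⁻¹ * b * a') * b', mul_mem ?_ hb', by group⟩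
        have h1 := h a'⁻¹ (inv_mem ha') b hb
        rwa [inv_inv] at h1
      one_mem' := ⟨1, one_mem _, 1, one_mem _, (mul_one 1).symm⟩
      inv_mem' := by
        rintro _ ⟨a, ha, b, hb, rfl⟩
        exact ⟨a⁻¹, inv_mem ha, a * b⁻¹ * a⁻¹, h a ha b⁻¹ (inv_mem hb), by group⟩ }
  have hA : A ≤ H := fun a ha => ⟨a, ha, 1, one_mem _, (mul_one a).symm⟩
  have hB : B ≤ H := fun b hb => ⟨1, one_mem _, b, hb, (one_mul b).symm⟩
  exact (sup_le hA hB) hx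

private theorem Pa1_tio {t : D.Gt p} (ht : t ∈ D.Tg p) (l : SLp p 2) :
    ∃ l' : SLp p 2, t * D.io p γ l * t⁻¹ = D.io p γ l' := by
  refine sl2_ind (q := fun l => ∃ l' : SLp p 2, t * D.io p γ l * t⁻¹ = D.io p γ l') ?_ ?_ ?_ l
  · exact ⟨1, by rw [map_one, mul_one, mul_inv_cancel]⟩
  · rintro s g ⟨g', hg'⟩
    obtain ⟨c, -, hc, -⟩ := D.tg_xr ht γ
    refine ⟨ux (c * s) * g', ?_⟩
    rw [map_mul, map_mul, ← hg', D.io_ux, D.io_ux, ← hc s]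
    group
  · rintro s g ⟨g', hg'⟩
    obtain ⟨c, -, hc, -⟩ := D.tg_xr ht (D.ng γ)
    refine ⟨S.lo2 (c * s) * g', ?_⟩
    rw [map_mul, map_mul, ← hg', D.io_lo, D.io_lo, ← hc s]
    group

theorem mem_Bt {x : D.Gt p} : x ∈ D.Bt p y ↔ ∃ t ∈ D.Tg p, ∃ u ∈ D.Ug p (D.Po y), x = t * u := by
  constructor
  · intro hx
    exact Pa1_sup (fun t ht u hu => (D.tg_ug ht hu).1) hx
  · rintro ⟨t, ht, u, hu, rfl⟩
    exact mul_mem (le_sup_left (a := D.Tg p) ht) (le_sup_right (b := D.Ug p (D.Po y)) hu)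

theorem mem_Pb (hy : D.Reg y) (hγ : D.Sim y γ) {x : D.Gt p} : x ∈ D.Pb p y γ ↔
    ∃ t ∈ D.Tg p, ∃ u ∈ D.Ug p (D.Ob y γ), ∃ l : SLp p 2, x = t * u * D.io p γ l := by
  constructor
  · intro hx
    have hM : ∀ a ∈ (D.io p γ).range, ∀ b ∈ D.Ug p (D.Ob y γ), a * b * a⁻¹ ∈ D.Ug p (D.Ob y γ) := by
      rintro _ ⟨l, rfl⟩ b hb
      exact (D.ob_io hy hγ l hb).1
    have hT : ∀ t ∈ D.Tg p, ∀ m ∈ (D.io p γ).range ⊔ D.Ug p (D.Ob y γ),
        t * m * t⁻¹ ∈ (D.io p γ).range ⊔ D.Ug p (D.Ob y γ) := by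
      intro t ht m hm
      obtain ⟨a, ⟨l, rfl⟩, b, hb, rfl⟩ := Pa1_sup hM hm
      obtain ⟨l', hl'⟩ := D.Pa1_tio (γ := γ) ht l
      have h1 : t * (D.io p γ l * b) * t⁻¹ = (t * D.io p γ l * t⁻¹) * (t * b * t⁻¹) := by group
      rw [h1, hl']
      exact mul_mem (le_sup_left (a := (D.io p γ).range) ⟨l', rfl⟩)
        (le_sup_right (b := D.Ug p (D.Ob y γ)) (D.tg_ug ht hb).1)
    have hle : D.Pb p y γ ≤ D.Tg p ⊔ ((D.io p γ).range ⊔ D.Ug p (D.Ob y γ)) := by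
      refine sup_le (sup_le le_sup_left ?_) (le_trans le_sup_left le_sup_right)
      intro u hu
      obtain ⟨u', hu', s, rfl, -⟩ := D.ob_fac hy hγ hu
      refine (le_sup_right (a := D.Tg p)) (mul_mem (le_sup_right (a := (D.io p γ).range) hu') ?_)
      refine le_sup_left (a := (D.io p γ).range) ⟨ux s, D.io_ux p γ s⟩
    obtain ⟨t, ht, m, hm, rfl⟩ := Pa1_sup hT (hle hx)
    obtain ⟨a, ⟨l, rfl⟩, b, hb, rfl⟩ := Pa1_sup hM hm
    exact ⟨t, ht, D.io p γ l * b * (D.io p γ l)⁻¹, (D.ob_io hy hγ l hb).1, l, by group⟩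
  · rintro ⟨t, ht, u, hu, l, rfl⟩
    refine mul_mem (le_sup_left (a := D.Tg p ⊔ D.Ug p (D.Po y)) (mul_mem ?_ ?_)) ?_
    · exact le_sup_left (a := D.Tg p) ht
    · exact le_sup_right (b := D.Ug p (D.Po y)) (D.ug_mono (fun α hα => hα.1) hu)
    · exact le_sup_right (b := (D.io p γ).range) ⟨l, rfl⟩

theorem bt_Pb {x : D.Gt p} (hx : x ∈ D.Bt p y) : x ∈ D.Pb p y γ := by
  exact le_sup_left (a := D.Tg p ⊔ D.Ug p (D.Po y)) hx

theorem tg_Bt {x : D.Gt p} (hx : x ∈ D.Tg p) : x ∈ D.Bt p y := by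
  exact le_sup_left (a := D.Tg p) hx

theorem po_Bt {x : D.Gt p} (hx : x ∈ D.Ug p (D.Po y)) : x ∈ D.Bt p y := by
  exact le_sup_right (b := D.Ug p (D.Po y)) hx

theorem dr_Bt {x : D.Gt p} (hx : x ∈ D.Ug p (D.Dr y)) : x ∈ D.Bt p y := by
  exact D.po_Bt (D.ug_mono (fun α hα => hα.1) hx)

theorem dr_ry_Pb (hy : D.Reg y) (hγ : D.Sim y γ) (h0 : 0 < D.pr γ D.y0) {x : D.Gt p}
    (hx : x ∈ D.Ug p (D.Dr (D.ry γ y))) : x ∈ D.Pb p y γ := by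
  refine D.ug_le (H := D.Pb p y γ) (fun α hα s => ?_) hx
  rcases (D.dr_ry hy hγ h0 α).1 hα with h1 | rfl
  · exact D.bt_Pb (D.dr_Bt (D.xr_mem h1 s))
  · exact le_sup_right (b := (D.io p γ).range) ⟨S.lo2 s, D.io_lo p γ s⟩

theorem io_Pb (l : SLp p 2) : D.io p γ l ∈ D.Pb p y γ := by
  exact le_sup_right (b := (D.io p γ).range) ⟨l, rfl⟩

theorem up_Bt (hγ : D.Sim y γ) {a : ℚ_[p]} (ha : a ≠ 0) (c : ℚ_[p]) :
    D.io p γ (S.up2 a ha c) ∈ D.Bt p y := by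
  rw [up2_eq, map_mul, D.io_dg, D.io_ux]
  exact mul_mem (D.tg_Bt (D.cc_torus p _ _)) (D.po_Bt (D.xr_mem (show γ ∈ D.Po y from hγ.1) _))

theorem bt_split {s : D.Gt p} (hs : s ∈ D.Bt p y) :
    ∃ b ∈ D.Bg p, b ∈ D.Bt p y ∧ ∃ d ∈ D.Ug p (D.Dr y), s = b * d := by
  obtain ⟨t, ht, u, hu, rfl⟩ := D.mem_Bt.1 hs
  obtain ⟨e, he, d, hd, rfl, -⟩ := D.ed_fac hu
  refine ⟨t * e, mul_mem (D.tg_bg ht) (D.po_bg (fun α hα => hα.2) he),
    mul_mem (D.tg_Bt ht) (D.po_Bt (D.ug_mono (fun α hα => hα.1) he)), d, hd, ?_⟩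
  rw [mul_assoc]

theorem pb_split (hy : D.Reg y) (hγ : D.Sim y γ) {x : D.Gt p} (hx : x ∈ D.Pb p y γ) :
    ∃ b ∈ D.Bg p, b ∈ D.Bt p y ∧ ∃ d ∈ D.Ug p (D.Dr y),
      (∃ z : ℚ_[p], x = b * d * D.xr p (D.ng γ) z) ∨ x = b * d * D.io p γ (S.w2 p) := by
  obtain ⟨t, ht, u, hu, l, rfl⟩ := (D.mem_Pb hy hγ).1 hx
  have htu : t * u ∈ D.Bt p y :=
    mul_mem (D.tg_Bt ht) (D.po_Bt (D.ug_mono (fun α hα => hα.1) hu))
  by_cases h : l.1 1 1 = 0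
  · obtain ⟨a, ha, c, rfl⟩ := S.sl2_case2 l h
    obtain ⟨b, hb, hb2, d, hd, hbd⟩ := D.bt_split (mul_mem htu (D.up_Bt hγ ha c))
    refine ⟨b, hb, hb2, d, hd, Or.inr ?_⟩
    rw [← hbd, map_mul, mul_assoc (t * u)]
  · obtain ⟨b, hb, hb2, d, hd, hbd⟩ := D.bt_split (mul_mem htu (D.up_Bt hγ h (l.1 0 1)))
    refine ⟨b, hb, hb2, d, hd, Or.inl ⟨l.1 1 0 / l.1 1 1, ?_⟩⟩
    rw [← hbd, ← D.io_lo, mul_assoc (t * u), ← map_mul, ← S.sl2_case1 l h]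

theorem bt_er {b : D.Gt p} (hb : b ∈ D.Bg p) (hb' : b ∈ D.Bt p y) (hy : D.Reg y) :
    ∃ t ∈ D.Tg p, ∃ u ∈ D.Ug p (D.Er y), b = t * u := by
  obtain ⟨t, ht, u, hu, rfl⟩ := D.mem_Bt.1 hb'
  have h1 : u ∈ D.Bg p := by
    have h2 : t⁻¹ * (t * u) ∈ D.Bg p := mul_mem (inv_mem (D.tg_bg ht)) hb
    rwa [inv_mul_cancel_left] at h2
  have h3 : u ∈ D.Ug p (D.Po D.y0) := D.bg_unip h1 (fun i => D.ug_diag (fun α hα => hα) hu i)
  have h4 := D.ug_inter (D.cl_po y) (fun α hα => hα) (fun α _ => D.reg_y0 α) hu h3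
  exact ⟨t, ht, u, D.ug_mono (T := D.Er y) (fun α hα => (⟨hα.1, hα.2⟩ : 0 < D.pr α y ∧ 0 < D.pr α D.y0)) h4, rfl⟩

theorem pb_Bp (hy : D.Reg y) (hγ : D.Sim y γ) (h0 : 0 < D.pr γ D.y0) {b : D.Gt p}
    (hb : b ∈ D.Bg p) (hb' : b ∈ D.Pb p y γ) : b ∈ D.Bt p y := by
  have hdn : ∀ {d : D.Gt p}, d ∈ D.Ug p (D.Dr y) → d ∈ D.Ug p (D.Ne D.y0) := fun hd =>
    D.ug_mono (fun α hα => hα.2) hd
  obtain ⟨b', hb1, hb2, d, hd, h1 | h1⟩ := D.pb_split hy hγ hb'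
  · obtain ⟨z, rfl⟩ := h1
    have h2 : D.xr p (D.ng γ) z ∈ D.Ug p (D.Ne D.y0) := by
      refine D.xr_mem ?_ z
      show D.pr (D.ng γ) D.y0 < 0
      rw [D.pr_ng]
      omega
    have h3 := D.bu_uniq (b := b'⁻¹ * (b' * d * D.xr p (D.ng γ) z)) (b' := 1) (u := 1)
      (u' := d * D.xr p (D.ng γ) z) (mul_mem (inv_mem hb1) hb) (one_mem _) (one_mem _)
      (mul_mem (hdn hd) h2) (by group)
    have h4 : b' * d * D.xr p (D.ng γ) z = b' := by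
      have h5 := h3.1
      rwa [inv_mul_eq_one, eq_comm] at h5
    rwa [h4]
  · exfalso
    refine D.dw_notin hy hγ h0 hd (mul_mem (inv_mem hb1) hb) (one_mem (D.Ug p (D.Ne D.y0))) ?_
    rw [h1]
    group

theorem kp_er (hy : D.Reg y) {b d : D.Gt p} (hb : b ∈ D.Bg p) (hb' : b ∈ D.Bt p y)
    (hd : d ∈ D.Ug p (D.Dr y)) (h : b * d ∈ D.Kg p) : b ∈ D.Kg p ∧ d ∈ D.Kg p := by
  obtain ⟨t, ht, u, hu, rfl⟩ := D.bt_er hb hb' hy
  have huP : u ∈ D.Ug p (D.Po y) := D.ug_mono (fun α hα => hα.1) hu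
  have hdP : d ∈ D.Ug p (D.Po y) := D.ug_mono (fun α hα => hα.1) hd
  have hud : u * d ∈ D.Ug p (D.Po y) := mul_mem huP hdP
  have hdiag : t.1.1 = Matrix.diagonal fun i => t.1.1 i i := by
    ext i j
    by_cases hij : i = j
    · subst hij
      rw [Matrix.diagonal_apply_eq]
    · rw [Matrix.diagonal_apply_ne _ hij, D.tg_off ht hij]
  have h1 : ∀ i, ‖t.1.1 i i‖ ≤ 1 := by
    intro i
    have h2 := (D.mem_Kg p).1 h i i
    have h3 : (t * u * d).1.1 i i = t.1.1 i i := by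
      rw [mul_assoc, D.val_mul, hdiag, Matrix.diagonal_mul, Matrix.diagonal_apply_eq,
        D.ug_diag (fun α hα => hα) hud i, mul_one]
    rwa [h3] at h2
  have hprod : ∏ i, ‖t.1.1 i i‖ = 1 := by
    have h2 : t.1.1.det = 1 := t.1.2
    rw [hdiag, Matrix.det_diagonal] at h2
    rw [← norm_prod, h2, norm_one]
  have hne : ∀ i, 0 < ‖t.1.1 i i‖ := fun i => norm_pos_iff.2 (D.tg_ne ht i)
  have h4 : ∀ i, ‖t.1.1 i i‖ = 1 := by
    intro i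
    refine le_antisymm (h1 i) ?_
    rw [← hprod, ← Finset.mul_prod_erase Finset.univ _ (Finset.mem_univ i)]
    refine mul_le_of_le_one_right (norm_nonneg _) ?_
    exact Finset.prod_le_one (fun j _ => norm_nonneg _) (fun j _ => h1 j)
  have htK : t ∈ D.Kg p := (D.tg_K ht).2 h4
  have h5 : u * d ∈ D.Kg p := by
    have h6 : t⁻¹ * (t * u * d) ∈ D.Kg p := mul_mem (inv_mem htK) h
    have h7 : t⁻¹ * (t * u * d) = u * d := by group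
    rwa [h7] at h6
  obtain ⟨e, he, d', hd', hed, hK⟩ := D.ed_fac hud
  obtain ⟨rfl, rfl⟩ := D.ug_fac_unique (z := D.y0) (S := D.Er y) (T := D.Dr y)
    (fun α hα => hα.2) (fun α hα => hα.2) hu he hd hd' hed
  exact ⟨mul_mem htK (hK h5).1, (hK h5).2⟩

theorem io_supp (he : D.pr γ e = 0) (l : SLp p 2) {i j : Fin N}
    (h : (D.io p γ l).1.1 i j ≠ 0) : D.wp i e = D.wp j e := by
  have hp1 : (1 : ℝ) < p := by exact_mod_cast (Fact.out : p.Prime).one_lt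
  have h1 := D.tg_entry e 1 (D.io p γ l) i j
  rw [pow_one, D.io_cc he, mul_inv_cancel_right] at h1
  have h2 : ‖(p : ℚ_[p]) ^ (((1 : ℕ) : ℤ) * (D.wp i e - D.wp j e))‖ = 1 := by
    have h3 := congrArg norm h1
    rw [norm_mul] at h3
    have h4 : ‖(D.io p γ l).1.1 i j‖ ≠ 0 := norm_ne_zero_iff.2 h
    exact (mul_right_cancel₀ h4 (by rw [one_mul]; exact h3)).symm
  rw [Padic.norm_p_zpow] at h2
  have h5 := zpow_right_injective₀ (a := (p : ℝ)) (by linarith) hp1.ne'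
    (show (p : ℝ) ^ (-(((1 : ℕ) : ℤ) * (D.wp i e - D.wp j e))) = (p : ℝ) ^ (0 : ℤ) by
      rw [h2, zpow_zero])
  push_cast at h5
  omega

theorem pb_conj (hy : D.Reg y) (hγ : D.Sim y γ) (he : ∀ α ∈ D.Po y, 0 ≤ D.pr α e)
    (heγ : D.pr γ e = 0) {x : D.Gt p} (hx : x ∈ D.Pb p y γ) (hxK : x ∈ D.Kg p) (M : ℕ) :
    (D.cc p e (pp p)) ^ M * x * ((D.cc p e (pp p)) ^ M)⁻¹ ∈ D.Kg p := by
  obtain ⟨t, ht, u, hu, l, hxe⟩ := (D.mem_Pb hy hγ).1 hx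
  have hsupp : ∀ i j, x.1.1 i j ≠ 0 → D.wp j e ≤ D.wp i e := by
    intro i j hij
    have h1 : x.1.1 i j = ∑ b, (t.1.1 i i * u.1.1 i b) * (D.io p γ l).1.1 b j := by
      rw [hxe, D.val_mul, Matrix.mul_apply]
      refine Finset.sum_congr rfl fun b _ => ?_
      congr 1
      rw [D.val_mul, Matrix.mul_apply, Finset.sum_eq_single i]
      · intro a _ ha
        rw [D.tg_off ht ha.symm, zero_mul]
      · intro ha
        exact absurd (Finset.mem_univ i) ha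
    rw [h1] at hij
    obtain ⟨b, -, hb⟩ := Finset.exists_ne_zero_of_sum_ne_zero hij
    have hb1 : u.1.1 i b ≠ 0 := by
      intro h2
      rw [h2, mul_zero, zero_mul] at hb
      exact hb rfl
    have hb2 : (D.io p γ l).1.1 b j ≠ 0 := by
      intro h2
      rw [h2, mul_zero] at hb
      exact hb rfl
    rw [← D.io_supp heγ l hb2]
    by_cases hib : i = b
    · rw [hib]
    · refine D.supp_ge (S' := D.Ob y γ) (fun α hα => he α hα.1) hu ?_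
      rw [Matrix.one_apply_ne hib]
      exact hb1
  rw [D.mem_Kg]
  intro i j
  have hp1 : (1 : ℝ) ≤ p := by exact_mod_cast (Fact.out : p.Prime).one_lt.le
  rw [D.tg_entry]
  by_cases h0 : x.1.1 i j = 0
  · rw [h0, mul_zero, norm_zero]
    exact zero_le_one
  · have h1 := hsupp i j h0
    rw [norm_mul, Padic.norm_p_zpow]
    have h2 : (p : ℝ) ^ (-((M : ℤ) * (D.wp i e - D.wp j e))) ≤ 1 := by
      apply zpow_le_one_of_nonpos₀ hp1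
      have : 0 ≤ (M : ℤ) * (D.wp i e - D.wp j e) :=
        mul_nonneg (Int.natCast_nonneg M) (sub_nonneg.2 h1)
      omega
    exact mul_le_one₀ h2 (norm_nonneg _) ((D.mem_Kg p).1 hxK i j)

end Ctx

end

end Pool.Agent.Lib.MP_f399a8_nt.G
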