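import Pool.Agent.Lib.MP_f399a8_ntG.Pa1

/-!
# Functions vanishing on the parabolic subgroup

`HH χ y γ f`: every `x` with `f x ≠ 0` is `b * u * c` with `b ∈ Bg`, `u ∈ Ug (Fr y)`, `c` in the parabolic subgroup and integral, and
`‖f x‖ ≤ ‖cb χ b‖`.  (The same for `SL_n`: file `MP_f399a8_ntS.PiA`.)

PROOF of `fr_bdd`.  `x = f' * xr (ng γ) z ∈ Ug (Fr y)` (`fr_mul`) with entries of norm `≤ A`.  `Fr y` is positive on `-y`.  Let `t1 = cc (-y) (pp p)`,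
`p ^ a ≥ A`: `t1^a * x * (t1^a)⁻¹ ∈ Kg` (`tg_entry`; nonidentity entries have `⟨wt j, -y⟩ < ⟨wt i, -y⟩` by `ug_supp_y`).  It is
`(t1^a * f' * (t1^a)⁻¹) * xr (ng γ) (p ^ (a ⟨γ, y⟩) * z)` (`cc_xr`).  `ng γ` is simple for the regular `-y` and
`Fr (ry γ y) ⊆ Ob (-y) (ng γ)` (`fr_ry`).  `ob_fac` for `-y`, `ng γ` and uniqueness (`ug_fac_unique` with `z = ry γ (-y)`: `Ob (-y) (ng γ)` is positive on it
(`ob_eq`), `ng γ` negative) give `‖p ^ (a ⟨γ, y⟩) * z‖ ≤ 1`, so `‖z‖ ≤ p ^ (a ⟨γ, y⟩)`.  The entries of `f' = x * xr (ng γ) (-z)` are bounded since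
those of `xr (ng γ) (-z)` are (`xr_cont` on a compact ball, or `xm_entry`).
PROOF of `pi_lim`.  By `good_proper` (with the bound `1 / ε`) there is `A` such that `u ∈ Ug (Fr y)` with `Om h u ≤ 1 / ε` has entries of norm
`≤ A`; let `A' ≥ 1` be as in `fr_bdd`.  `f` vanishes on `P = Pb y γ`.  The entries of `g c`, `g = xr (ng γ) z`, `‖z‖ ≤ A'`, `c ∈ Kg`, are bounded by some `B`;
`Z = {x | ∀ a b, ‖x a b‖ ≤ B}` is compact.  `unif` for `Z`: there is `m` with `‖f (x * v) - f x‖ ≤ ε` for `x ∈ Z`, `v ∈ Kmg m`.  By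
`conj_small` there is `m'` such that `g⁻¹ * v * g ∈ Kmg m` for all these `g` and `v ∈ Kmg m'`.  Let `M0` be such that `p ^ (-M0) * A' ≤ p ^ (-m')`.
Let `M ≥ M0`, `k ∈ Kg`, `t = cc e (pp p)`, `x = (t^M)⁻¹ * k * t^M`, and suppose `ε < ‖f x‖`.  `x = b * u * c` by `HH`, `‖f x‖ ≤ ‖cb χ b‖`.
`k = t^M x (t^M)⁻¹ = (t^M b t^-M) * (t^M u t^-M) * (t^M c t^-M)`, the last factor is in `Kg` (`pb_conj`).  So with `u_M = t^M * u * (t^M)⁻¹ ∈ Ug (Fr y)`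
(`tg_ug`): `1 = Om h k = ‖cb χ b‖ * Om h u_M` (`om_kg`, `om_cb`, `om_right`, `cb_conj`).  Hence `Om h u_M < 1 / ε` (`ε < ‖cb χ b‖`), and
`‖cb χ b‖ ≤ 1` (`good_ge`).  The entries of `u_M` have norm `≤ A`.  `u = f' * g`, `g = xr (ng γ) z` (`fr_peel`), `f' ∈ Ug (Fr (ry γ y))`; `g` commutes with `t`
(`⟨γ, e⟩ = 0`), so `u_M = (t^M f' t^-M) * g`, and `‖z‖ ≤ A'`, the entries of `t^M f' t^-M` have norm `≤ A'` (`fr_bdd`).  Nonidentity entries `(i, j)` of `f'`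
have `⟨wt i, e⟩ - ⟨wt j, e⟩ ≤ -1` (`ug_supp`; the roots in `Fr (ry γ y)` are negative for `y` and different from `ng γ`, so they have `⟨α, e⟩ ≤ -1` by `he`
applied to `ng α`), so `‖f' i j‖ ≤ p ^ (-M) * A' ≤ p ^ (-m')` (`tg_entry`): `f' ∈ Kmg m'`.
`x = b * f' * g * c = b * (g * c) * (c⁻¹ * (g⁻¹ f' g) * c)`, with `g * c ∈ P ∩ Z` and `c⁻¹ * (g⁻¹ f' g) * c ∈ Kmg m` (`kmg_conj`).  So
`‖f x‖ = ‖cb χ b‖ * ‖f ((g * c) * v)‖ ≤ 1 * ε`.  Contradiction.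
PROOF of `ex_exists`: `e = y + ry γ y` (`po_ry`, `pr_rf`, `rf_self`).
-/

namespace Pool.Agent.Lib.MP_f399a8_nt.G

open Matrix Filter Topology

noncomputable section

namespace Ctx

variable {ι X Y : Type*} [Finite ι] [AddCommGroup X] [AddCommGroup Y] {N : ℕ} (D : Ctx ι X Y N)
  {p : ℕ} [Fact p.Prime] {C : Type*} [NormedField C] {χ : ↥(D.Tg p) →* Cˣ} {h : X →+ ℝ} {y e : Y}
  {γ : ι}

/-- control of the support and the size by the parabolic subgroup -/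
def HH (χ : ↥(D.Tg p) →* Cˣ) (y : Y) (γ : ι) (f : D.Gt p → C) : Prop :=
  ∀ x, f x ≠ 0 → ∃ b ∈ D.Bg p, ∃ u ∈ D.Ug p (D.Fr y), ∃ c ∈ D.Pb p y γ, c ∈ D.Kg p ∧
    x = b * u * c ∧ ‖f x‖ ≤ ‖D.cb χ b‖

theorem Pa2_mul (x y : D.Gt p) {a b : ℝ} (ha : 0 ≤ a) (hb : 0 ≤ b)
    (hx : ∀ i j, ‖x.1.1 i j‖ ≤ a) (hy : ∀ i j, ‖y.1.1 i j‖ ≤ b) (i j : Fin N) :
    ‖(x * y).1.1 i j‖ ≤ a * b := by
  rw [D.val_mul, Matrix.mul_apply]
  refine IsUltrametricDist.norm_sum_le_of_forall_le_of_nonneg (mul_nonneg ha hb) (fun k _ => ?_)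
  rw [norm_mul]
  exact mul_le_mul (hx i k) (hy k j) (norm_nonneg _) ha

theorem Pa2_xr_bdd (p : ℕ) [Fact p.Prime] (α : ι) (R : ℝ) : ∃ B : ℝ, 1 ≤ B ∧
    ∀ s : ℚ_[p], ‖s‖ ≤ R → ∀ i j, ‖(D.xr p α s).1.1 i j‖ ≤ B := by
  have hc : Continuous fun s : ℚ_[p] => (fun i j => (D.xr p α s).1.1 i j : Fin N → Fin N → ℚ_[p]) :=
    continuous_pi fun i => continuous_pi fun j => (D.entry_cont i j).comp (D.xr_cont p α)
  obtain ⟨B, hB⟩ := (isCompact_closedBall (0 : ℚ_[p]) R).exists_bound_of_continuousOn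
    hc.continuousOn
  refine ⟨max B 1, le_max_right _ _, fun s hs i j => ?_⟩
  have h1 := hB s (by rw [mem_closedBall_zero_iff]; exact hs)
  have h2 := norm_le_pi_norm (fun i j => (D.xr p α s).1.1 i j : Fin N → Fin N → ℚ_[p]) i
  have h3 := norm_le_pi_norm ((fun i j => (D.xr p α s).1.1 i j : Fin N → Fin N → ℚ_[p]) i) j
  exact (h3.trans (h2.trans h1)).trans (le_max_left _ _)

theorem Pa2_norm_zpow (z : ℤ) : ‖(p : ℚ_[p]) ^ z‖ = (p : ℝ) ^ (-z) := by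
  rw [norm_zpow, Padic.norm_p, _root_.inv_zpow, _root_.zpow_neg]

theorem Pa2_sim_neg (hγ : D.Sim y γ) : D.Sim (-y) (D.ng γ) := by
  refine ⟨?_, fun α β hα hβ he => ?_⟩
  · rw [D.pr_ng, D.pr_neg, neg_neg]
    exact hγ.1
  · refine hγ.2 (D.ng α) (D.ng β) ?_ ?_ ?_
    · rw [D.pr_ng, ← D.pr_neg]
      exact hα
    · rw [D.pr_ng, ← D.pr_neg]
      exact hβ
    · rw [D.rt_ng, D.rt_ng]
      rw [D.rt_ng] at he
      rw [← neg_add, ← he, neg_neg]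

/-- contraction of the bounded elements of `Ug (Fr y)` -/
theorem Pa2_contr {A : ℝ} {a : ℕ} (ha : A ≤ (p : ℝ) ^ a) {x : D.Gt p}
    (hx : x ∈ D.Ug p (D.Fr y)) (hA : ∀ i j, ‖x.1.1 i j‖ ≤ A) :
    (D.cc p (-y) (pp p)) ^ a * x * ((D.cc p (-y) (pp p)) ^ a)⁻¹ ∈ D.Kg p := by
  have hp1 : (1 : ℝ) < p := by exact_mod_cast (Fact.out : p.Prime).one_lt
  have hp0 : (0 : ℝ) < p := by linarith
  rw [D.mem_Kg]
  intro i j
  rw [D.tg_entry]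
  by_cases hij : x.1.1 i j = (1 : Matrix (Fin N) (Fin N) ℚ_[p]) i j
  · by_cases h1 : i = j
    · subst h1
      rw [hij, Matrix.one_apply_eq, sub_self, mul_zero, zpow_zero, mul_one, norm_one]
    · rw [hij, Matrix.one_apply_ne h1, mul_zero, norm_zero]
      exact zero_le_one
  · have h1 : ∀ α ∈ D.Fr y, 0 < D.pr α (-y) := by
      intro α hα
      rw [D.pr_neg]
      have h2 : D.pr α y < 0 := hα.1
      omega
    have h2 := D.ug_supp_y h1 hx hij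
    rw [norm_mul, Pa2_norm_zpow]
    have h3 : (a : ℤ) * 1 ≤ (a : ℤ) * (D.wp i (-y) - D.wp j (-y)) :=
      mul_le_mul_of_nonneg_left (by omega) (Int.natCast_nonneg a)
    calc (p : ℝ) ^ (-((a : ℤ) * (D.wp i (-y) - D.wp j (-y)))) * ‖x.1.1 i j‖
        ≤ (p : ℝ) ^ (-(a : ℤ)) * (p : ℝ) ^ a := by
          refine mul_le_mul (zpow_le_zpow_right₀ hp1.le (by omega)) ((hA i j).trans ha)
            (norm_nonneg _) (by positivity)
      _ = 1 := by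
          rw [_root_.zpow_neg, zpow_natCast, inv_mul_cancel₀ (by positivity)]

theorem Pa2_sub_ob (hy : D.Reg y) (hγ : D.Sim y γ) (h0 : 0 < D.pr γ D.y0) :
    D.Fr (D.ry γ y) ⊆ D.Ob (-y) (D.ng γ) := by
  intro α hα
  obtain ⟨h1, h2⟩ := (D.fr_ry hy hγ h0 α).1 hα
  refine ⟨?_, h2⟩
  rw [D.pr_neg]
  have h3 : D.pr α y < 0 := h1.1
  omega

theorem fr_bdd (p : ℕ) [Fact p.Prime] (hy : D.Reg y) (hγ : D.Sim y γ) (h0 : 0 < D.pr γ D.y0)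
    (A : ℝ) : ∃ A' : ℝ, 1 ≤ A' ∧ ∀ f' ∈ D.Ug p (D.Fr (D.ry γ y)), ∀ z : ℚ_[p],
      (∀ i j, ‖(f' * D.xr p (D.ng γ) z).1.1 i j‖ ≤ A) → ‖z‖ ≤ A' ∧ ∀ i j, ‖f'.1.1 i j‖ ≤ A' := by
  have hp1 : (1 : ℝ) < p := by exact_mod_cast (Fact.out : p.Prime).one_lt
  have hp0 : (0 : ℝ) < p := by linarith
  obtain ⟨a, ha⟩ := pow_unbounded_of_one_lt A hp1
  obtain ⟨B, hB1, hB⟩ := D.Pa2_xr_bdd p (D.ng γ) ((p : ℝ) ^ ((a : ℤ) * D.pr γ y))
  refine ⟨max (max 1 ((p : ℝ) ^ ((a : ℤ) * D.pr γ y))) (max A 0 * B),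
    (le_max_left _ _).trans (le_max_left _ _), fun f' hf' z hz => ?_⟩
  have hy' : D.Reg (-y) := D.reg_neg hy
  have h' : D.Sim (-y) (D.ng γ) := D.Pa2_sim_neg hγ
  have hx := D.fr_mul hy hγ h0 hf' z
  have hK := D.Pa2_contr ha.le hx hz
  have htM : (D.cc p (-y) (pp p)) ^ a ∈ D.Tg p := pow_mem (D.cc_torus p _ _) a
  have hzb : ‖z‖ ≤ (p : ℝ) ^ ((a : ℤ) * D.pr γ y) := by
    have hFr : D.Fr y ⊆ D.Po (-y) := by
      intro α hα
      show 0 < D.pr α (-y)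
      rw [D.pr_neg]
      have h1 : D.pr α y < 0 := hα.1
      omega
    obtain ⟨u', hu', s, hus, hs⟩ := D.ob_fac hy' h'
      (D.ug_mono hFr (D.tg_ug htM hx).1)
    have hs1 := (hs hK).2
    have hcc : (D.cc p (-y) (pp p)) ^ a * D.xr p (D.ng γ) z * ((D.cc p (-y) (pp p)) ^ a)⁻¹ =
        D.xr p (D.ng γ) ((((pp p) ^ (D.pr (D.ng γ) ((a : ℤ) • (-y))) : ℚ_[p]ˣ) : ℚ_[p]) * z) := by
      rw [D.Od1_pow, D.cc_xr]
    have he : ((D.cc p (-y) (pp p)) ^ a * f' * ((D.cc p (-y) (pp p)) ^ a)⁻¹) *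
        D.xr p (D.ng γ) ((((pp p) ^ (D.pr (D.ng γ) ((a : ℤ) • (-y))) : ℚ_[p]ˣ) : ℚ_[p]) * z) =
        u' * D.xr p (D.ng γ) s := by
      rw [← hcc, ← hus]
      group
    have hm : D.ng γ ∈ ({D.ng γ} : Set ι) := Set.mem_singleton _
    have hS : ∀ α ∈ D.Ob (-y) (D.ng γ), 0 < D.pr α (D.ry (D.ng γ) (-y)) := by
      intro α hα
      rw [D.ob_eq hy' h'] at hα
      exact hα.2
    have hT : ∀ α ∈ ({D.ng γ} : Set ι), D.pr α (D.ry (D.ng γ) (-y)) < 0 := by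
      rintro α rfl
      rw [← D.pr_rf, D.rf_self, D.ng_ng, D.pr_neg]
      have := hγ.1
      omega
    have h2 := (D.ug_fac_unique hS hT
      (D.ug_mono (D.Pa2_sub_ob hy hγ h0) (D.tg_ug htM hf').1) hu'
      (D.xr_mem hm _) (D.xr_mem hm _) he).2
    have h3 := D.xr_inj p h2
    have h4 : D.pr (D.ng γ) ((a : ℤ) • (-y)) = (a : ℤ) * D.pr γ y := by
      rw [D.pr_def, D.pa_smul_right, ← D.pr_def, D.pr_ng, D.pr_neg, neg_neg]
    rw [← h3, h4, norm_mul, Od1_norm, _root_.zpow_neg, inv_mul_le_iff₀ (by positivity),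
      mul_one] at hs1
    exact hs1
  refine ⟨hzb.trans ((le_max_right _ _).trans (le_max_left _ _)), fun i j => ?_⟩
  have hf : f' = (f' * D.xr p (D.ng γ) z) * D.xr p (D.ng γ) (-z) := by
    rw [D.xr_neg, mul_inv_cancel_right]
  rw [hf]
  refine (D.Pa2_mul _ _ (le_max_right A 0) (by linarith)
    (fun i j => (hz i j).trans (le_max_left _ _)) (hB (-z) (by rwa [norm_neg])) i j).trans
    (le_max_right _ _)

theorem pi_lim (hs : D.Slope χ h) (hy : D.Reg y) (hg : D.Good h y) (hγ : D.Sim y γ)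
    (h0 : 0 < D.pr γ D.y0) (he : ∀ α ∈ D.Po y, α ≠ γ → 0 < D.pr α e) (heγ : D.pr γ e = 0)
    {f : D.Gt p → C} (hf : D.PS χ f) (hH : D.HH χ y γ f) (hZ : ∀ x ∈ D.Pb p y γ, f x = 0) {ε : ℝ}
    (hε : 0 < ε) : ∃ M0 : ℕ, ∀ M ≥ M0, ∀ k ∈ D.Kg p,
      ‖f (((D.cc p e (pp p)) ^ M)⁻¹ * k * (D.cc p e (pp p)) ^ M)‖ ≤ ε := by
  have hp1 : (1 : ℝ) < p := by exact_mod_cast (Fact.out : p.Prime).one_lt
  have hp0 : (0 : ℝ) < p := by linarith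
  obtain ⟨A, hA⟩ := D.good_proper p hg (1 / ε)
  obtain ⟨A', hA'1, hA'⟩ := D.fr_bdd p hy hγ h0 A
  obtain ⟨B, hB1, hB⟩ := D.Pa2_xr_bdd p (D.ng γ) A'
  obtain ⟨m, hm⟩ := D.unif hf.1 (D.gbdd_compact p B) hε
  obtain ⟨m', hm'⟩ := D.conj_small p B m
  obtain ⟨M0, hM0⟩ : ∃ M0 : ℕ, (p : ℝ) ^ (-(M0 : ℤ)) * A' ≤ (p : ℝ) ^ (-(m' : ℤ)) := by
    obtain ⟨l, hl⟩ := pow_unbounded_of_one_lt A' hp1
    refine ⟨m' + l, ?_⟩
    have h1 : (p : ℝ) ^ (-((m' + l : ℕ) : ℤ)) = (p : ℝ) ^ (-(m' : ℤ)) * ((p : ℝ) ^ l)⁻¹ := by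
      rw [Nat.cast_add, neg_add, zpow_add₀ hp0.ne', _root_.zpow_neg (p : ℝ) (l : ℤ), zpow_natCast]
    rw [h1, mul_assoc]
    refine mul_le_of_le_one_right (by positivity) ?_
    rw [inv_mul_le_one₀ (by positivity)]
    exact hl.le
  refine ⟨M0, fun M hM k hk => ?_⟩
  by_contra hcon
  push Not at hcon
  obtain ⟨t, ht⟩ : ∃ t, t = D.cc p e (pp p) := ⟨_, rfl⟩
  obtain ⟨x, hx⟩ : ∃ x, x = (t ^ M)⁻¹ * k * t ^ M := ⟨_, rfl⟩
  rw [← ht, ← hx] at hcon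
  have hfx : f x ≠ 0 := by
    intro h0
    rw [h0, norm_zero] at hcon
    exact absurd hcon (not_lt.2 hε.le)
  obtain ⟨b, hb, u, hu, c, hc, hcK, hxe, hn⟩ := hH x hfx
  have htT : t ∈ D.Tg p := by
    rw [ht]
    exact D.cc_torus p _ _
  have htM : t ^ M ∈ D.Tg p := pow_mem htT M
  have hk2 : k = (t ^ M * b * (t ^ M)⁻¹) * ((t ^ M * u * (t ^ M)⁻¹) * (t ^ M * c * (t ^ M)⁻¹)) := by
    have h1 : k = t ^ M * x * (t ^ M)⁻¹ := by rw [hx]; group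
    rw [h1, hxe]; group
  have hbB : t ^ M * b * (t ^ M)⁻¹ ∈ D.Bg p :=
    mul_mem (mul_mem (D.tg_bg htM) hb) (inv_mem (D.tg_bg htM))
  have hcM : t ^ M * c * (t ^ M)⁻¹ ∈ D.Kg p := by
    rw [ht]
    refine D.pb_conj hy hγ (fun α hα => ?_) heγ hc hcK M
    by_cases hαγ : α = γ
    · rw [hαγ, heγ]
    · exact (he α hα hαγ).le
  have huM := (D.tg_ug htM hu).1
  obtain ⟨uM, huMd⟩ : ∃ y, y = t ^ M * u * (t ^ M)⁻¹ := ⟨_, rfl⟩
  rw [← huMd] at huM hk2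
  have hom : 1 = ‖D.cb χ b‖ * D.Om h uM := by
    rw [← D.om_kg h hk, hk2, D.om_cb hs hbB, D.om_right h hcM, (D.cb_conj χ htM hb).1]
  have hcbpos : 0 < ‖D.cb χ b‖ := hε.trans (hcon.trans_le hn)
  have hOm1 : 1 ≤ D.Om h uM := D.good_ge hg huM
  have hcb1 : ‖D.cb χ b‖ ≤ 1 := by
    rw [hom]
    exact le_mul_of_one_le_right hcbpos.le hOm1
  have hOmle : D.Om h uM ≤ 1 / ε := by
    rw [le_div_iff₀ hε]
    calc D.Om h uM * ε ≤ D.Om h uM * ‖D.cb χ b‖ :=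
          mul_le_mul_of_nonneg_left (hcon.trans_le hn).le (by linarith)
      _ = 1 := by rw [mul_comm, ← hom]
  have hent := hA uM huM hOmle
  obtain ⟨f', hf', z, hfz⟩ := D.fr_peel hy hγ h0 hu
  have hcomm : t ^ M * D.xr p (D.ng γ) z = D.xr p (D.ng γ) z * t ^ M := by
    have h1 : Commute t (D.xr p (D.ng γ) z) := by
      rw [ht, ← D.io_lo]
      exact D.io_cc heγ (pp p) (S.lo2 z)
    exact (h1.pow_left M).eq
  have hf'' := (D.tg_ug htM hf').1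
  have huM2 : uM = (t ^ M * f' * (t ^ M)⁻¹) * D.xr p (D.ng γ) z := by
    rw [huMd, hfz]
    calc t ^ M * (f' * D.xr p (D.ng γ) z) * (t ^ M)⁻¹
        = t ^ M * f' * (t ^ M)⁻¹ * (t ^ M * D.xr p (D.ng γ) z) * (t ^ M)⁻¹ := by group
      _ = _ := by
          rw [hcomm]
          group
  rw [huM2] at hent
  obtain ⟨hzA, hfA⟩ := hA' _ hf'' z hent
  have hf'K : f' ∈ D.Kmg p m' := by
    rw [D.mem_Kmg]
    intro i j
    by_cases hij : f'.1.1 i j = (1 : Matrix (Fin N) (Fin N) ℚ_[p]) i j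
    · rw [hij, sub_self, norm_zero]
      positivity
    · have h1 : ∀ α ∈ D.Fr (D.ry γ y), 0 < D.pr α (-e) := by
        intro α hα
        obtain ⟨h2, h3⟩ := (D.fr_ry hy hγ h0 α).1 hα
        have h4 : D.pr α y < 0 := h2.1
        have h5 : 0 < D.pr (D.ng α) e := by
          refine he _ ?_ ?_
          · show 0 < D.pr (D.ng α) y
            rw [D.pr_ng]
            omega
          · intro h6
            apply h3
            rw [← h6, D.ng_ng]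
        rw [D.pr_ng] at h5
        rw [D.pr_neg]
        exact h5
      have h2 := D.ug_supp_y h1 hf' hij
      have h3 : D.wp i e < D.wp j e := by
        rw [D.wp_def, D.wp_def, D.pa_neg_right, D.pa_neg_right] at h2
        rw [D.wp_def, D.wp_def]
        omega
      have hne : i ≠ j := by
        rintro rfl
        exact lt_irrefl _ h3
      rw [Matrix.one_apply_ne hne, sub_zero]
      have h4 : f' = (t ^ M)⁻¹ * (t ^ M * f' * (t ^ M)⁻¹) * t ^ M := by group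
      rw [h4, ht, D.tg_entry', norm_mul, Pa2_norm_zpow, ← ht]
      refine le_trans ?_ hM0
      have h5 : (M : ℤ) * 1 ≤ (M : ℤ) * (D.wp j e - D.wp i e) :=
        mul_le_mul_of_nonneg_left (by omega) (Int.natCast_nonneg M)
      refine mul_le_mul (zpow_le_zpow_right₀ hp1.le ?_) (hfA i j) (norm_nonneg _) (by positivity)
      have h6 : (M0 : ℤ) ≤ M := by exact_mod_cast hM
      omega
  have hgB : ∀ i j, ‖(D.xr p (D.ng γ) z).1.1 i j‖ ≤ B := hB z hzA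
  have hgcP : D.xr p (D.ng γ) z * c ∈ D.Pb p y γ := by
    refine mul_mem ?_ hc
    rw [← D.io_lo]
    exact D.io_Pb _
  have hgcB : ∀ i j, ‖(D.xr p (D.ng γ) z * c).1.1 i j‖ ≤ B := by
    intro i j
    have h1 := D.Pa2_mul (D.xr p (D.ng γ) z) c (by linarith : (0 : ℝ) ≤ B) zero_le_one hgB
      ((D.mem_Kg p).1 hcK) i j
    rwa [mul_one] at h1
  have hv : c⁻¹ * ((D.xr p (D.ng γ) z)⁻¹ * f' * D.xr p (D.ng γ) z) * c ∈ D.Kmg p m :=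
    (D.kmg_conj hcK (hm' _ hgB f' hf'K).2).2
  have hfin := hm (D.xr p (D.ng γ) z * c) hgcB _ hv
  rw [hZ _ hgcP, sub_zero] at hfin
  have hxx : x = b * (D.xr p (D.ng γ) z * c *
      (c⁻¹ * ((D.xr p (D.ng γ) z)⁻¹ * f' * D.xr p (D.ng γ) z) * c)) := by
    rw [hxe, hfz]; group
  have : ‖f x‖ ≤ ε := by
    rw [hxx, hf.2 b hb, norm_mul]
    calc ‖D.cb χ b‖ * ‖f (D.xr p (D.ng γ) z * c *
          (c⁻¹ * ((D.xr p (D.ng γ) z)⁻¹ * f' * D.xr p (D.ng γ) z) * c))‖ ≤ 1 * ε :=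
          mul_le_mul hcb1 hfin (norm_nonneg _) zero_le_one
      _ = ε := one_mul ε
  exact absurd hcon (not_lt.2 this)

theorem ex_exists (hy : D.Reg y) (hγ : D.Sim y γ) :
    ∃ e : Y, (∀ α ∈ D.Po y, α ≠ γ → 0 < D.pr α e) ∧ D.pr γ e = 0 := by
  refine ⟨y + D.ry γ y, fun α hα hne => ?_, ?_⟩
  · have h1 : 0 < D.pr α y := hα
    have h2 : 0 < D.pr α (D.ry γ y) := (D.po_ry hy hγ α).2 (Or.inl ⟨h1, hne⟩)
    rw [D.pr_def, D.pa_add_right, ← D.pr_def, ← D.pr_def]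
    omega
  · rw [D.pr_def, D.pa_add_right, ← D.pr_def, ← D.pr_def, ← D.pr_rf, D.rf_self, D.pr_ng,
      add_neg_cancel]

end Ctx

end

end Pool.Agent.Lib.MP_f399a8_nt.G
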