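import Pool.Agent.Lib.MP_f399a8_ntG.Ctx

/-!
# Roots: basic facts

`D.rt, D.co, D.pr, D.ng, D.rf, D.rx, D.ry` are definitions from `Ctx.lean`; unfold them and use the API of
`RootPairing` (Mathlib, `LinearAlgebra/RootSystem/Defs.lean` …; with coefficients `ℤ`, `P.pairingIn ℤ` is
`P.pairing`, see `RootPairing.algebraMap_pairingIn`, and `P.IsCrystallographic` is an instance).

PROOF.
* `rt_inj`, `co_inj`: `P.root`, `P.coroot` are embeddings.  `rt_ng, co_ng, rt_rf, co_rf, rf_rf, rx_rx, ry_ry`: lemmas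
  `root_reflectionPerm`, `coroot_reflectionPerm`, `reflection_apply`, `coreflection_apply`, `reflectionPerm_self`,
  `reflection_same` …  `pr_rf` and `pa_rx`: direct computation
  `⟨x - ⟨x, γ^∨⟩ γ, y - ⟨γ, y⟩ γ^∨⟩ = ⟨x, y⟩` (`⟨γ, γ^∨⟩ = 2`).
* `tors_x`, `tors_y`: `X`, `Y` are torsion-free: if `n • x = 0`, `n ≠ 0`, then `n * ⟨x, y⟩ = 0`, so `⟨x, y⟩ = 0` for all `y`, and
  the pairing is perfect (`P.toLinearMap.IsPerfPair`; `Module.IsReflexive.of_isPerfPair`, `LinearMap.IsPerfPair`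
  gives bijectivity of `X → Dual ℤ Y` and `Y → Dual ℤ X`).  `pa_ext_x, pa_ext_y`: injectivity; `dual_y, dual_x`: surjectivity.
* `prop_eq`: if `a • α = b • β` with `a ≠ 0` or `b ≠ 0` then `α, β` are linearly dependent, so `D.red`
  (`IsReduced.eq_or_eq_neg`) gives `β = α` or `β = - α`.
* `sub_mem`: `RootPairing.root_sub_root_mem_of_pairingIn_pos`.  `pos_symm`: `RootPairing.zero_lt_pairingIn_iff'`.
* `cl_po`: `⟨γ, y⟩ = ⟨α, y⟩ + ⟨β, y⟩` if `γ = α + β`.  The other `cl_*` follow.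
* `double_ne`: if `δ = α + α` then `2 • α = 1 • δ`, `prop_eq` gives `δ = ± α`, impossible (`α ≠ 0`, torsion-free).
-/

namespace Pool.Agent.Lib.MP_f399a8_nt.G

open Matrix

noncomputable section

namespace Ctx

variable {ι X Y : Type*} [Finite ι] [AddCommGroup X] [AddCommGroup Y] {N : ℕ} (D : Ctx ι X Y N)

theorem Rt1_ext_x {x x' : X} (h : ∀ y, D.pa x y = D.pa x' y) : x = x' := by
  apply (LinearMap.IsPerfPair.bijective_left D.P.toLinearMap).1
  refine LinearMap.ext fun y => ?_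
  exact h y

theorem Rt1_ext_y {y y' : Y} (h : ∀ x, D.pa x y = D.pa x y') : y = y' := by
  apply (LinearMap.IsPerfPair.bijective_right D.P.toLinearMap).1
  refine LinearMap.ext fun x => ?_
  exact h x

include D in
theorem Rt1_tors_x {n : ℤ} (hn : n ≠ 0) {x : X} (h : n • x = 0) : x = 0 := by
  apply D.Rt1_ext_x
  intro y
  have h1 : n * D.pa x y = 0 := by
    have h2 : D.pa (n • x) y = n * D.pa x y := by
      unfold pa
      rw [map_smul, LinearMap.smul_apply, smul_eq_mul]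
    rw [← h2, h]
    unfold pa
    rw [map_zero, LinearMap.zero_apply]
  rw [(mul_eq_zero.1 h1).resolve_left hn]
  unfold pa
  rw [map_zero, LinearMap.zero_apply]

include D in
theorem Rt1_tors_y {n : ℤ} (hn : n ≠ 0) {y : Y} (h : n • y = 0) : y = 0 := by
  apply D.Rt1_ext_y
  intro x
  have h1 : n * D.pa x y = 0 := by
    have h2 : D.pa x (n • y) = n * D.pa x y := by
      unfold pa
      rw [map_smul, smul_eq_mul]
    rw [← h2, h]
    unfold pa
    rw [map_zero]
  rw [(mul_eq_zero.1 h1).resolve_left hn]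
  unfold pa
  rw [map_zero]

theorem Rt1_pairing (α β : ι) : D.P.pairingIn ℤ α β = D.pr α (D.co β) := by
  have h := D.P.algebraMap_pairingIn ℤ α β
  rw [Algebra.algebraMap_self, RingHom.id_apply] at h
  rw [h]
  rfl

theorem rt_inj {α β : ι} (h : D.rt α = D.rt β) : α = β := by
  exact D.P.root.injective h

theorem co_inj {α β : ι} (h : D.co α = D.co β) : α = β := by
  exact D.P.coroot.injective h

theorem rt_ne_zero (α : ι) : D.rt α ≠ 0 := by
  exact D.P.ne_zero α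

theorem rt_ng (α : ι) : D.rt (D.ng α) = - D.rt α := by
  unfold rt ng
  rw [RootPairing.root_reflectionPerm, RootPairing.reflection_apply_self]

theorem co_ng (α : ι) : D.co (D.ng α) = - D.co α := by
  unfold co ng
  rw [RootPairing.coroot_reflectionPerm, RootPairing.coreflection_apply_self]

theorem ng_ng (α : ι) : D.ng (D.ng α) = α := by
  apply D.rt_inj
  rw [rt_ng, rt_ng, neg_neg]

theorem ng_ne (α : ι) : D.ng α ≠ α := by
  intro h
  have h1 := D.rt_ng α
  rw [h] at h1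
  have h2 : (2 : ℤ) • D.rt α = 0 := by
    rw [two_smul]
    nth_rewrite 2 [h1]
    rw [add_neg_cancel]
  exact D.rt_ne_zero α (D.Rt1_tors_x two_ne_zero h2)

theorem pr_def (α : ι) (y : Y) : D.pr α y = D.pa (D.rt α) y := rfl

theorem wp_def (i : Fin N) (y : Y) : D.wp i y = D.pa (D.wt i) y := rfl

theorem pa_add_left (x x' : X) (y : Y) : D.pa (x + x') y = D.pa x y + D.pa x' y := by
  unfold pa
  rw [map_add, LinearMap.add_apply]

theorem pa_sub_left (x x' : X) (y : Y) : D.pa (x - x') y = D.pa x y - D.pa x' y := by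
  unfold pa
  rw [map_sub, LinearMap.sub_apply]

theorem pa_neg_left (x : X) (y : Y) : D.pa (-x) y = - D.pa x y := by
  unfold pa
  rw [map_neg, LinearMap.neg_apply]

theorem pa_smul_left (n : ℤ) (x : X) (y : Y) : D.pa (n • x) y = n * D.pa x y := by
  unfold pa
  rw [map_smul, LinearMap.smul_apply, smul_eq_mul]

theorem pa_add_right (x : X) (y y' : Y) : D.pa x (y + y') = D.pa x y + D.pa x y' := by
  unfold pa
  rw [map_add]

theorem pa_sub_right (x : X) (y y' : Y) : D.pa x (y - y') = D.pa x y - D.pa x y' := by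
  unfold pa
  rw [map_sub]

theorem pa_neg_right (x : X) (y : Y) : D.pa x (-y) = - D.pa x y := by
  unfold pa
  rw [map_neg]

theorem pa_smul_right (n : ℤ) (x : X) (y : Y) : D.pa x (n • y) = n * D.pa x y := by
  unfold pa
  rw [map_smul, smul_eq_mul]

theorem pa_zero_left (y : Y) : D.pa 0 y = 0 := by
  unfold pa
  rw [map_zero, LinearMap.zero_apply]

theorem pa_zero_right (x : X) : D.pa x 0 = 0 := by
  unfold pa
  rw [map_zero]

theorem pr_ng (α : ι) (y : Y) : D.pr (D.ng α) y = - D.pr α y := by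
  rw [pr_def, rt_ng, pa_neg_left, ← pr_def]

theorem pr_neg (α : ι) (y : Y) : D.pr α (-y) = - D.pr α y := by
  rw [pr_def, pa_neg_right, ← pr_def]

theorem pr_co_self (α : ι) : D.pr α (D.co α) = 2 := by
  exact D.P.root_coroot_two α

theorem rt_rf (γ α : ι) : D.rt (D.rf γ α) = D.rt α - D.pr α (D.co γ) • D.rt γ := by
  exact (D.P.reflectionPerm_root γ α).symm

theorem rt_rf' (γ α : ι) : D.rt (D.rf γ α) = D.rx γ (D.rt α) := by
  exact D.P.root_reflectionPerm γ α

theorem co_rf (γ α : ι) : D.co (D.rf γ α) = D.ry γ (D.co α) := by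
  exact D.P.coroot_reflectionPerm γ α

theorem rf_rf (γ α : ι) : D.rf γ (D.rf γ α) = α := by
  exact D.P.reflectionPerm_self γ α

theorem rf_self (γ : ι) : D.rf γ γ = D.ng γ := by
  rfl

theorem rf_ng (γ α : ι) : D.rf γ (D.ng α) = D.ng (D.rf γ α) := by
  apply D.rt_inj
  rw [rt_rf, rt_ng, rt_ng, rt_rf, pr_ng, neg_smul]
  abel

theorem rf_ng_left (γ α : ι) : D.rf (D.ng γ) α = D.rf γ α := by
  apply D.rt_inj
  rw [rt_rf, rt_rf, rt_ng, co_ng, pr_neg, neg_smul, smul_neg, neg_neg]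

theorem rx_apply (γ : ι) (x : X) : D.rx γ x = x - D.pa x (D.co γ) • D.rt γ := by
  rfl

theorem ry_apply (γ : ι) (y : Y) : D.ry γ y = y - D.pr γ y • D.co γ := by
  rfl

theorem rx_rx (γ : ι) (x : X) : D.rx γ (D.rx γ x) = x := by
  exact D.P.reflection_same γ x

theorem ry_ry (γ : ι) (y : Y) : D.ry γ (D.ry γ y) = y := by
  exact D.P.coreflection_same γ y

theorem pa_rx' (γ : ι) (x : X) (y : Y) : D.pa (D.rx γ x) y = D.pa x (D.ry γ y) := by
  rw [rx_apply, ry_apply, pa_sub_left, pa_sub_right, pa_smul_left, pa_smul_right, pr_def]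
  ring

theorem pa_rx (γ : ι) (x : X) (y : Y) : D.pa (D.rx γ x) (D.ry γ y) = D.pa x y := by
  rw [pa_rx', ry_ry]

theorem pr_rf (γ α : ι) (y : Y) : D.pr (D.rf γ α) y = D.pr α (D.ry γ y) := by
  rw [pr_def, rt_rf', pa_rx', ← pr_def]

theorem pr_add {α β γ : ι} (h : D.rt γ = D.rt α + D.rt β) (y : Y) :
    D.pr γ y = D.pr α y + D.pr β y := by
  rw [pr_def, h, pa_add_left, ← pr_def, ← pr_def]

include D in
theorem tors_x {n : ℤ} (hn : n ≠ 0) {x : X} (h : n • x = 0) : x = 0 := by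
  exact D.Rt1_tors_x hn h

include D in
theorem tors_y {n : ℤ} (hn : n ≠ 0) {y : Y} (h : n • y = 0) : y = 0 := by
  exact D.Rt1_tors_y hn h

theorem pa_ext_x {x x' : X} (h : ∀ y, D.pa x y = D.pa x' y) : x = x' := by
  exact D.Rt1_ext_x h

theorem pa_ext_y {y y' : Y} (h : ∀ x, D.pa x y = D.pa x y') : y = y' := by
  exact D.Rt1_ext_y h

theorem dual_y (f : X →+ ℤ) : ∃ y : Y, ∀ x, f x = D.pa x y := by
  obtain ⟨y, hy⟩ := (LinearMap.IsPerfPair.bijective_right D.P.toLinearMap).2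
    (f.toIntLinearMap : Module.Dual ℤ X)
  refine ⟨y, fun x => ?_⟩
  have h1 := LinearMap.congr_fun hy x
  exact h1.symm

theorem dual_x (f : Y →+ ℤ) : ∃ x : X, ∀ y, f y = D.pa x y := by
  obtain ⟨x, hx⟩ := (LinearMap.IsPerfPair.bijective_left D.P.toLinearMap).2
    (f.toIntLinearMap : Module.Dual ℤ Y)
  refine ⟨x, fun y => ?_⟩
  have h1 := LinearMap.congr_fun hx y
  exact h1.symm

theorem prop_eq {a b : ℤ} (hab : a ≠ 0 ∨ b ≠ 0) {α β : ι} (h : a • D.rt α = b • D.rt β) :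
    β = α ∨ β = D.ng α := by
  have hli : ¬ LinearIndependent ℤ ![D.P.root α, D.P.root β] := by
    intro hli
    rw [LinearIndependent.pair_iff] at hli
    have h1 := hli a (-b) (by
      have h2 : a • D.P.root α = b • D.P.root β := h
      rw [h2, neg_smul, add_neg_cancel])
    rcases hab with h3 | h3
    · exact h3 h1.1
    · exact h3 (neg_eq_zero.1 h1.2)
  rcases D.red.eq_or_eq_neg α β hli with h1 | h1
  · exact Or.inl (D.rt_inj h1.symm)
  · refine Or.inr (D.rt_inj ?_)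
    rw [rt_ng]
    have h2 : D.rt α = - D.rt β := h1
    rw [h2, neg_neg]

theorem double_ne {α δ : ι} : D.rt δ ≠ D.rt α + D.rt α := by
  intro h
  have h1 : (1 : ℤ) • D.rt δ = (2 : ℤ) • D.rt α := by rw [one_smul, two_smul, h]
  rcases D.prop_eq (Or.inl one_ne_zero) h1 with h2 | h2
  · rw [h2] at h
    exact D.rt_ne_zero δ (left_eq_add.1 h)
  · rw [h2, rt_ng] at h
    have h3 : (3 : ℤ) • D.rt δ = 0 := by
      have h4 : (3 : ℤ) • D.rt δ = D.rt δ + D.rt δ + D.rt δ := by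
        rw [show (3 : ℤ) = 1 + 1 + 1 by norm_num, add_smul, add_smul, one_smul]
      rw [h4]
      nth_rewrite 1 [h]
      abel
    exact D.rt_ne_zero δ (D.Rt1_tors_x three_ne_zero h3)

theorem sub_mem {α γ : ι} (h : 0 < D.pr α (D.co γ)) (h1 : α ≠ γ) :
    ∃ δ, D.rt δ = D.rt α - D.rt γ := by
  have h2 : 0 < D.P.pairingIn ℤ α γ := by
    rw [D.Rt1_pairing]
    exact h
  obtain ⟨δ, hδ⟩ := D.P.root_sub_root_mem_of_pairingIn_pos h2 h1
  exact ⟨δ, hδ⟩

theorem pos_symm {α β : ι} : 0 < D.pr α (D.co β) ↔ 0 < D.pr β (D.co α) := by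
  have h := D.P.zero_lt_pairingIn_iff' ℤ (i := α) (j := β)
  rw [D.Rt1_pairing, D.Rt1_pairing] at h
  exact h

theorem reg_neg {y : Y} (h : D.Reg y) : D.Reg (-y) := by
  intro α
  rw [pr_neg]
  exact neg_ne_zero.2 (h α)

theorem reg_ry {y : Y} (h : D.Reg y) (γ : ι) : D.Reg (D.ry γ y) := by
  intro α
  rw [← pr_rf]
  exact h _

theorem reg_y0 : D.Reg D.y0 := D.reg0

theorem cl_po (y : Y) : D.Cl (D.Po y) := by
  intro α hα β hβ γ hγ
  show 0 < D.pr γ y
  rw [D.pr_add hγ]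
  exact add_pos hα hβ

theorem cl_ne (y : Y) : D.Cl (D.Ne y) := by
  intro α hα β hβ γ hγ
  show D.pr γ y < 0
  rw [D.pr_add hγ]
  exact add_neg hα hβ

theorem cl_inter {S T : Set ι} (hS : D.Cl S) (hT : D.Cl T) : D.Cl (S ∩ T) := by
  intro α hα β hβ γ hγ
  exact ⟨hS α hα.1 β hβ.1 γ hγ, hT α hα.2 β hβ.2 γ hγ⟩

theorem cl_Dr (y : Y) : D.Cl (D.Dr y) := by
  exact D.cl_inter (D.cl_po y) (D.cl_ne D.y0)

theorem cl_Fr (y : Y) : D.Cl (D.Fr y) := by
  exact D.cl_inter (D.cl_ne y) (D.cl_ne D.y0)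

theorem cl_Er (y : Y) : D.Cl (D.Er y) := by
  exact D.cl_inter (D.cl_po y) (D.cl_po D.y0)

end Ctx

end

end Pool.Agent.Lib.MP_f399a8_nt.G
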