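import Pool.Agent.Lib.MP_f399a8_ntG.Rt1

/-!
# Simple roots of a positive system

`D.Sim y γ`: `γ` is positive on the regular `y` and not a sum of two roots positive on `y`.

PROOF.
* `sim_sub`: `δ = α - γ` is a root.  `⟨δ, y⟩ ≠ 0` (`Reg`).  If `⟨δ, y⟩ < 0` then `γ = α + (-δ)` is a sum of two roots which are positive
  on `y` (`ng δ`), contradiction.
* `sim_rf`: let `k = ⟨α, γ^∨⟩` and `s_γ α = α - k γ` (`rt_rf`).  If `k ≤ 0`: `⟨s_γ α, y⟩ = ⟨α, y⟩ - k ⟨γ, y⟩ > 0`.  If `k ≥ 1`, induction on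
  `k` (for all `α`): `δ := α - γ` is a root (`sub_mem`), positive (`sim_sub`), `δ ≠ γ` (`double_ne`).  `k = 1`: `s_γ α = δ`
  (`rt_inj`).  `k ≥ 2`: `⟨δ, γ^∨⟩ = k - 2`, which is `≥ 0` and `< k`, so `δ' := s_γ δ` is positive (by induction, or the first case
  if `k = 2`), `δ' = δ - (k - 2) γ = α - (k - 1) γ`, and `s_γ α = α - k γ = δ' - γ` as roots, `δ' ≠ γ` (otherwise `δ = s_γ γ = - γ` is not
  positive), so `sim_sub` applies to `δ'`.
* `po_ry`: `⟨α, s_γ y⟩ = ⟨s_γ α, y⟩` (`pr_rf`).  If `α = γ` it is `- ⟨γ, y⟩ < 0`; if `α = - γ` positive; if `α` is positive on `y`, `α ≠ γ`: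
  positive by `sim_rf`; if `α` is negative on `y`, `α ≠ - γ`: apply `sim_rf` to `- α`.
* `sim_ng_ry`: `⟨-γ, s_γ y⟩ = ⟨γ, y⟩ > 0`; if `- γ = α + β` with `α, β` positive on `s_γ y`, then
  `γ = s_γ (-γ) = s_γ α + s_γ β`, and `s_γ α, s_γ β` are positive on `y`.
* `ex_sim`: choose, among the finitely many roots with `0 < ⟨α, y⟩` and `0 < ⟨α, y'⟩`, one with minimal `⟨α, y⟩`.  If it
  is `α₁ + α₂` with both positive on `y`, one of them is positive on `y'` and has smaller value on `y`.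
* `sum_sim`: induction on `⟨α, y⟩` (strong induction on the natural number `(⟨α, y⟩).toNat`): if `α` is not simple it is a
  sum of two roots positive on `y` with smaller values.
* `sim_pair`: suppose `⟨α, γ^∨⟩ ≤ 0` for all simple `γ`.  Then `⟨γ, α^∨⟩ ≤ 0` for all simple `γ` (`pos_symm`), so `⟨x, α^∨⟩ ≤ 0` for
  all `x` in the additive monoid generated by the simple roots (`AddSubmonoid.closure_induction`), in particular
  `2 = ⟨α, α^∨⟩ ≤ 0` by `sum_sim`.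
* `pr_rf_lt`: `⟨s_γ α, y⟩ = ⟨α, y⟩ - ⟨α, γ^∨⟩ ⟨γ, y⟩`.
* `dr_ry`, `fr_ry`: from `po_ry` (`γ` is positive for `y0`, so `- γ` is negative for `y0`); note that `Dr`, `Fr` involve the sign on
  `y` or `s_γ y` and the sign on `y0`.
* `ob_eq`: `Ob y γ = Po y ∩ Po (s_γ y)`.  `cl_ob`.
* `abs_*`: `γ` simple for `y`; let `β = - γ`.  If `α ∈ Ob y γ` and `δ = γ + α` or `δ = β + α` is a root then `δ ∈ Ob y γ`: for `γ + α` it is
  positive on `y` and not equal to `γ` (`α ≠ 0`); for `β + α = α - γ`: `sim_sub`, and `δ ≠ γ` by `double_ne`.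
  For `Dr y` and `β` (`γ` positive for `y0`): `δ = β + α` is positive on `y` by `sim_sub` (`α ≠ γ` since `α` is negative for `y0`) and
  negative on `y0`.  For `Fr (s_γ y)` and `β`: `δ = β + α`, both negative for `y0`; `⟨·, s_γ y⟩`: `α` is negative on `s_γ y`, and `β` is
  simple for `s_γ y` (`sim_ng_ry`), so `-δ = -α - β` is positive on `s_γ y` by `sim_sub` (`- α ≠ β`, as otherwise `δ = 0`).
* `abs_dr_sim`, `abs_fr_sim`: here `γ` is also simple for `y0` (`Sim y0 γ`): if `α ∈ Dr y`, `δ = γ + α`: positive on `y`; negative on `y0`: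
  `- δ = (- α) - γ` with `- α` positive on `y0`, `- α ≠ γ` (else `δ = 0`), `sim_sub` for `y0`.  Similarly for `Fr (s_γ y)` (here
  `⟨γ, s_γ y⟩ < 0`, so `δ` is negative on `s_γ y`).
-/

namespace Pool.Agent.Lib.MP_f399a8_nt.G

open Matrix

noncomputable section

namespace Ctx

variable {ι X Y : Type*} [Finite ι] [AddCommGroup X] [AddCommGroup Y] {N : ℕ} (D : Ctx ι X Y N)
  {y : Y} {γ : ι}

private theorem Rt2_pr_rf_eq (γ α : ι) (y : Y) :
    D.pr (D.rf γ α) y = D.pr α y - D.pr α (D.co γ) * D.pr γ y := by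
  rw [D.pr_def, D.rt_rf, D.pa_sub_left, D.pa_smul_left, ← D.pr_def, ← D.pr_def]

theorem sim_sub (hy : D.Reg y) (h : D.Sim y γ) {α δ : ι} (hα : 0 < D.pr α y)
    (hδ : D.rt δ = D.rt α - D.rt γ) : 0 < D.pr δ y := by
  have h1 := hy δ
  by_contra h2
  have h3 : D.pr δ y < 0 := lt_of_le_of_ne (not_lt.1 h2) h1
  have h4 : 0 < D.pr (D.ng δ) y := by rw [D.pr_ng]; omega
  refine h.2 α (D.ng δ) hα h4 ?_
  rw [D.rt_ng, hδ]
  abel

theorem sim_rf (hy : D.Reg y) (h : D.Sim y γ) {α : ι} (hα : 0 < D.pr α y) (h1 : α ≠ γ) :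
    0 < D.pr (D.rf γ α) y := by
  have hg : 0 < D.pr γ y := h.1
  have key : ∀ n : ℕ, ∀ α : ι, 0 < D.pr α y → α ≠ γ → D.pr α (D.co γ) ≤ n →
      0 < D.pr (D.rf γ α) y := by
    intro n
    induction n with
    | zero =>
      intro α hα h1 hk
      rw [Rt2_pr_rf_eq]
      have h2 : D.pr α (D.co γ) * D.pr γ y ≤ 0 :=
        mul_nonpos_of_nonpos_of_nonneg (by simpa using hk) hg.le
      omega
    | succ n ih =>
      intro α hα h1 hk
      rcases le_or_gt (D.pr α (D.co γ)) 0 with h2 | h2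
      · rw [Rt2_pr_rf_eq]
        have h3 : D.pr α (D.co γ) * D.pr γ y ≤ 0 :=
          mul_nonpos_of_nonpos_of_nonneg h2 hg.le
        omega
      · obtain ⟨δ, hδ⟩ := D.sub_mem h2 h1
        have h3 : 0 < D.pr δ y := D.sim_sub hy h hα hδ
        have h4 : δ ≠ γ := by
          intro h5
          rw [h5] at hδ
          refine D.double_ne (α := γ) (δ := α) ?_
          rw [eq_sub_iff_add_eq] at hδ
          exact hδ.symm
        have h5 : D.pr δ (D.co γ) = D.pr α (D.co γ) - 2 := by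
          have h6 : D.rt α = D.rt δ + D.rt γ := by rw [hδ]; abel
          have h7 := D.pr_add h6 (D.co γ)
          rw [D.pr_co_self] at h7
          omega
        have h6 := ih δ h3 h4 (by rw [h5]; push_cast at hk; omega)
        refine D.sim_sub hy h h6 ?_
        rw [D.rt_rf, D.rt_rf, h5, hδ, sub_smul, ofNat_smul_eq_nsmul, two_nsmul]
        abel
  obtain ⟨n, hn⟩ : ∃ n : ℕ, D.pr α (D.co γ) ≤ n := ⟨(D.pr α (D.co γ)).toNat, by omega⟩
  exact key n α hα h1 hn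

theorem po_ry (hy : D.Reg y) (h : D.Sim y γ) (α : ι) :
    0 < D.pr α (D.ry γ y) ↔ (0 < D.pr α y ∧ α ≠ γ) ∨ α = D.ng γ := by
  have hg : 0 < D.pr γ y := h.1
  rw [← D.pr_rf]
  constructor
  · intro h1
    by_cases h2 : α = D.ng γ
    · exact Or.inr h2
    · left
      have h3 : α ≠ γ := by
        rintro rfl
        rw [D.rf_self, D.pr_ng] at h1
        omega
      have h4 : D.rf γ α ≠ γ := by
        intro h5
        apply h2
        have h6 := congrArg (D.rf γ) h5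
        rw [D.rf_rf, D.rf_self] at h6
        exact h6
      have h5 := D.sim_rf hy h h1 h4
      rw [D.rf_rf] at h5
      exact ⟨h5, h3⟩
  · rintro (⟨h1, h2⟩ | h1)
    · exact D.sim_rf hy h h1 h2
    · rw [h1, D.rf_ng, D.rf_self, D.ng_ng]
      exact hg

theorem sim_ng_ry (hy : D.Reg y) (h : D.Sim y γ) : D.Sim (D.ry γ y) (D.ng γ) := by
  refine ⟨(D.po_ry hy h _).2 (Or.inr rfl), ?_⟩
  intro α β hα hβ hab
  rw [← D.pr_rf] at hα hβ
  refine h.2 (D.rf γ α) (D.rf γ β) hα hβ ?_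
  have h1 := D.pr_add hab (D.co γ)
  rw [D.pr_ng, D.pr_co_self] at h1
  have h2 : D.rt (D.rf γ α) + D.rt (D.rf γ β) =
      (D.rt α + D.rt β) - (D.pr α (D.co γ) + D.pr β (D.co γ)) • D.rt γ := by
    rw [D.rt_rf, D.rt_rf, add_smul]
    abel
  rw [h2, ← h1, ← hab, D.rt_ng, neg_smul, ofNat_smul_eq_nsmul, two_nsmul]
  abel

theorem ex_sim {y y' : Y} (h : ∃ α, 0 < D.pr α y ∧ 0 < D.pr α y') :
    ∃ γ, D.Sim y γ ∧ 0 < D.pr γ y' := by
  obtain ⟨α, h1, h2⟩ := h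
  have key : ∀ n : ℕ, ∀ α : ι, 0 < D.pr α y → 0 < D.pr α y' → D.pr α y ≤ n →
      ∃ γ, D.Sim y γ ∧ 0 < D.pr γ y' := by
    intro n
    induction n with
    | zero =>
      intro α h1 h2 h3
      push_cast at h3
      omega
    | succ n ih =>
      intro α h1 h2 h3
      by_cases hs : D.Sim y α
      · exact ⟨α, hs, h2⟩
      · have h4 : ∃ a b, 0 < D.pr a y ∧ 0 < D.pr b y ∧ D.rt α = D.rt a + D.rt b := by
          by_contra h5
          exact hs ⟨h1, fun a b ha hb hab => h5 ⟨a, b, ha, hb, hab⟩⟩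
        obtain ⟨a, b, ha, hb, hab⟩ := h4
        have h5 := D.pr_add hab y
        have h6 := D.pr_add hab y'
        push_cast at h3
        rcases lt_or_ge 0 (D.pr a y') with h7 | h7
        · exact ih a ha h7 (by omega)
        · exact ih b hb (by omega) (by omega)
  obtain ⟨n, hn⟩ : ∃ n : ℕ, D.pr α y ≤ n := ⟨(D.pr α y).toNat, by omega⟩
  exact key n α h1 h2 hn

theorem sum_sim (y : Y) {α : ι} (hα : 0 < D.pr α y) :
    D.rt α ∈ AddSubmonoid.closure {x | ∃ γ, D.Sim y γ ∧ x = D.rt γ} := by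
  have key : ∀ n : ℕ, ∀ α : ι, 0 < D.pr α y → D.pr α y ≤ n →
      D.rt α ∈ AddSubmonoid.closure {x | ∃ γ, D.Sim y γ ∧ x = D.rt γ} := by
    intro n
    induction n with
    | zero =>
      intro α h1 h3
      push_cast at h3
      omega
    | succ n ih =>
      intro α h1 h3
      by_cases hs : D.Sim y α
      · exact AddSubmonoid.subset_closure ⟨α, hs, rfl⟩
      · have h4 : ∃ a b, 0 < D.pr a y ∧ 0 < D.pr b y ∧ D.rt α = D.rt a + D.rt b := by
          by_contra h5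
          exact hs ⟨h1, fun a b ha hb hab => h5 ⟨a, b, ha, hb, hab⟩⟩
        obtain ⟨a, b, ha, hb, hab⟩ := h4
        have h5 := D.pr_add hab y
        push_cast at h3
        rw [hab]
        exact add_mem (ih a ha (by omega)) (ih b hb (by omega))
  obtain ⟨n, hn⟩ : ∃ n : ℕ, D.pr α y ≤ n := ⟨(D.pr α y).toNat, by omega⟩
  exact key n α hα hn

theorem sim_pair (y : Y) {α : ι} (hα : 0 < D.pr α y) : ∃ γ, D.Sim y γ ∧ 0 < D.pr α (D.co γ) := by
  by_contra hcon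
  have h1 : ∀ γ, D.Sim y γ → D.pr γ (D.co α) ≤ 0 := by
    intro γ hγ
    by_contra h2
    exact hcon ⟨γ, hγ, D.pos_symm.1 (not_le.1 h2)⟩
  have h2 : ∀ x ∈ AddSubmonoid.closure {x | ∃ γ, D.Sim y γ ∧ x = D.rt γ},
      D.pa x (D.co α) ≤ 0 := by
    intro x hx
    induction hx using AddSubmonoid.closure_induction with
    | mem x hx =>
      obtain ⟨γ, hγ, rfl⟩ := hx
      exact h1 γ hγ
    | zero => rw [D.pa_zero_left]
    | add x x' _ _ h3 h4 =>
      rw [D.pa_add_left]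
      omega
  have h3 := h2 _ (D.sum_sim y hα)
  rw [← D.pr_def, D.pr_co_self] at h3
  omega

theorem pr_rf_eq (γ α : ι) (y : Y) : D.pr (D.rf γ α) y = D.pr α y - D.pr α (D.co γ) * D.pr γ y := by
  exact Rt2_pr_rf_eq D γ α y

theorem dr_ry (hy : D.Reg y) (h : D.Sim y γ) (h0 : 0 < D.pr γ D.y0) (α : ι) :
    α ∈ D.Dr (D.ry γ y) ↔ α ∈ D.Dr y ∨ α = D.ng γ := by
  have h1 := D.po_ry hy h α
  constructor
  · rintro ⟨h2, h3⟩
    rcases h1.1 h2 with ⟨h4, _⟩ | h4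
    · exact Or.inl ⟨h4, h3⟩
    · exact Or.inr h4
  · rintro (⟨h2, h3⟩ | h2)
    · refine ⟨h1.2 (Or.inl ⟨h2, ?_⟩), h3⟩
      rintro rfl
      omega
    · refine ⟨h1.2 (Or.inr h2), ?_⟩
      rw [h2, D.pr_ng]
      omega

theorem fr_ry (hy : D.Reg y) (h : D.Sim y γ) (h0 : 0 < D.pr γ D.y0) (α : ι) :
    α ∈ D.Fr (D.ry γ y) ↔ α ∈ D.Fr y ∧ α ≠ D.ng γ := by
  have h1 := D.po_ry hy h α
  constructor
  · rintro ⟨h2, h3⟩
    have h4 : ¬ 0 < D.pr α (D.ry γ y) := by omega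
    rw [h1] at h4
    have h5 : α ≠ γ := by
      rintro rfl
      omega
    have h6 : ¬ 0 < D.pr α y := fun h7 => h4 (Or.inl ⟨h7, h5⟩)
    have h7 := hy α
    exact ⟨⟨by omega, h3⟩, fun h8 => h4 (Or.inr h8)⟩
  · rintro ⟨⟨h2, h3⟩, h4⟩
    have h5 : ¬ 0 < D.pr α (D.ry γ y) := by
      rw [h1]
      rintro (⟨h6, _⟩ | h6)
      · omega
      · exact h4 h6
    have h6 := D.reg_ry hy γ α
    exact ⟨by omega, h3⟩

theorem ng_mem_fr (h : D.Sim y γ) (h0 : 0 < D.pr γ D.y0) : D.ng γ ∈ D.Fr y := by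
  have hg : 0 < D.pr γ y := h.1
  refine ⟨?_, ?_⟩
  · rw [D.pr_ng]; omega
  · rw [D.pr_ng]; omega

theorem ob_eq (hy : D.Reg y) (h : D.Sim y γ) : D.Ob y γ = D.Po y ∩ D.Po (D.ry γ y) := by
  have hg : 0 < D.pr γ y := h.1
  ext α
  have h1 := D.po_ry hy h α
  constructor
  · rintro ⟨h2, h3⟩
    exact ⟨h2, h1.2 (Or.inl ⟨h2, h3⟩)⟩
  · rintro ⟨h2, h3⟩
    have h2' : 0 < D.pr α y := h2
    rcases h1.1 h3 with h4 | h4
    · exact h4
    · rw [h4, D.pr_ng] at h2'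
      omega

theorem cl_ob (hy : D.Reg y) (h : D.Sim y γ) : D.Cl (D.Ob y γ) := by
  rw [D.ob_eq hy h]
  exact D.cl_inter (D.cl_po _) (D.cl_po _)

theorem abs_ob (hy : D.Reg y) (h : D.Sim y γ) : D.Abs γ (D.Ob y γ) := by
  have hg : 0 < D.pr γ y := h.1
  rintro α ⟨h1, h2⟩ β hβ
  have h3 := D.pr_add hβ y
  refine ⟨by omega, ?_⟩
  rintro rfl
  exact D.rt_ne_zero α (by simpa using hβ)

theorem abs_ob_ng (hy : D.Reg y) (h : D.Sim y γ) : D.Abs (D.ng γ) (D.Ob y γ) := by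
  rintro α ⟨h1, h2⟩ β hβ
  have h3 : D.rt β = D.rt α - D.rt γ := by
    rw [hβ, D.rt_ng]
    abel
  refine ⟨D.sim_sub hy h h1 h3, ?_⟩
  rintro rfl
  refine D.double_ne (α := β) (δ := α) ?_
  rw [eq_sub_iff_add_eq] at h3
  exact h3.symm

theorem abs_dr (hy : D.Reg y) (h : D.Sim y γ) (h0 : 0 < D.pr γ D.y0) :
    D.Abs (D.ng γ) (D.Dr y) := by
  rintro α ⟨h1, h2⟩ β hβ
  have h3 : D.rt β = D.rt α - D.rt γ := by
    rw [hβ, D.rt_ng]
    abel
  have h4 := D.pr_add hβ D.y0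
  rw [D.pr_ng] at h4
  exact ⟨D.sim_sub hy h h1 h3, by omega⟩

theorem abs_fr (hy : D.Reg y) (h : D.Sim y γ) (h0 : 0 < D.pr γ D.y0) :
    D.Abs (D.ng γ) (D.Fr (D.ry γ y)) := by
  rintro α ⟨h1, h2⟩ β hβ
  have h4 := D.pr_add hβ D.y0
  rw [D.pr_ng] at h4
  have h3 : D.rt (D.ng β) = D.rt (D.ng α) - D.rt (D.ng γ) := by
    rw [D.rt_ng β, D.rt_ng α, hβ]
    abel
  have h5 := D.sim_sub (D.reg_ry hy γ) (D.sim_ng_ry hy h) (α := D.ng α) (δ := D.ng β)
    (by rw [D.pr_ng]; omega) h3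
  rw [D.pr_ng] at h5
  exact ⟨by omega, by omega⟩

theorem abs_dr_sim (hy : D.Reg y) (h : D.Sim y γ) (h0 : D.Sim D.y0 γ) :
    D.Abs γ (D.Dr y) := by
  have hg : 0 < D.pr γ y := h.1
  rintro α ⟨h1, h2⟩ β hβ
  have h3 := D.pr_add hβ y
  have h4 : D.rt (D.ng β) = D.rt (D.ng α) - D.rt γ := by
    rw [D.rt_ng β, D.rt_ng α, hβ]
    abel
  have h5 := D.sim_sub D.reg_y0 h0 (α := D.ng α) (δ := D.ng β) (by rw [D.pr_ng]; omega) h4
  rw [D.pr_ng] at h5
  exact ⟨by omega, by omega⟩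

theorem abs_fr_sim (hy : D.Reg y) (h : D.Sim y γ) (h0 : D.Sim D.y0 γ) :
    D.Abs γ (D.Fr (D.ry γ y)) := by
  have hg : 0 < D.pr γ y := h.1
  rintro α ⟨h1, h2⟩ β hβ
  have h3 := D.pr_add hβ (D.ry γ y)
  have h6 : D.pr γ (D.ry γ y) = - D.pr γ y := by
    rw [← D.pr_rf, D.rf_self, D.pr_ng]
  have h4 : D.rt (D.ng β) = D.rt (D.ng α) - D.rt γ := by
    rw [D.rt_ng β, D.rt_ng α, hβ]
    abel
  have h5 := D.sim_sub D.reg_y0 h0 (α := D.ng α) (δ := D.ng β) (by rw [D.pr_ng]; omega) h4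
  rw [D.pr_ng] at h5
  exact ⟨by omega, by omega⟩

end Ctx

end

end Pool.Agent.Lib.MP_f399a8_nt.G
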