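import Pool.Agent.Lib.MP_f399a8_ntG.Rt2

/-!
# The Weyl group

`D.W` is the subgroup of `Perm ι × (X ≃ₗ[ℤ] X) × (Y ≃ₗ[ℤ] Y)` generated by the triples
`gen γ = (s_γ on the roots, s_γ on X, s_γ on Y)`.

PROOF.
* `w_rt, w_co, w_pa`: `Subgroup.closure_induction` (generators: `rt_rf'`, `co_rf`, `pa_rx`; products; inverses).
  `w_pr`: `⟨w α, w y⟩ = ⟨α, y⟩`.
* `w_ext`: if `w.1 = w'.1` then `w = w'`: the action on `Y` is determined by the one on the coroots (`D.cospan`,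
  `AddSubgroup.closure_induction`, `w_co`), and then the action on `X` by `w_pa` and `pa_ext_x`
  (`⟨w x, w y⟩ = ⟨x, y⟩`, `w` surjective on `Y`).
* `w_finite`: injection to `Perm ι` (finite).
* `w_ext_y`: if `w y' = w' y'` for all `y' : Y` then `w = w'`: action on the coroots, so on `ι` (`co_inj`).
* `w_ry`: `w s_γ w⁻¹ = s_{w γ}`: on `Y`: `w (y - ⟨γ, y⟩ γ^∨) = w y - ⟨w γ, w y⟩ (w γ)^∨`.  In `W`: `w_ext_y`.
* `wl_ex`: every `w` is a product of simple reflections `gen γ`, `Sim y γ`: the reflections generate; for a reflection `gen α`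
  with `α` positive on `y`, induction on `⟨α, y⟩`: if `α` is simple clear; otherwise take `γ` simple with `0 < ⟨α, γ^∨⟩` (`sim_pair`),
  `α ≠ γ`, `β = s_γ α` is positive (`sim_rf`) with smaller value, and `gen α = gen γ * gen β * gen γ` (`w_ry`, `rf_rf`).  If `α` is
  negative: `gen α = gen (ng α)`.  (`wl l` is the product of the list; `gen γ` is its own inverse.)
-/

namespace Pool.Agent.Lib.MP_f399a8_nt.G

open Matrix

noncomputable section

namespace Ctx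

variable {ι X Y : Type*} [Finite ι] [AddCommGroup X] [AddCommGroup Y] {N : ℕ} (D : Ctx ι X Y N)

theorem rx_add (γ : ι) (x x' : X) : D.rx γ (x + x') = D.rx γ x + D.rx γ x' := by
  exact map_add (D.P.reflection γ) x x'

theorem ry_add (γ : ι) (y y' : Y) : D.ry γ (y + y') = D.ry γ y + D.ry γ y' := by
  exact map_add (D.P.coreflection γ) y y'

/-- the reflection as an element of `Perm ι × (X ≃ₗ[ℤ] X) × (Y ≃ₗ[ℤ] Y)` -/
def gen (γ : ι) : Equiv.Perm ι × (X ≃ₗ[ℤ] X) × (Y ≃ₗ[ℤ] Y) :=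
  (D.P.reflectionPerm γ, D.P.reflection γ, D.P.coreflection γ)

/-- the Weyl group -/
def W : Subgroup (Equiv.Perm ι × (X ≃ₗ[ℤ] X) × (Y ≃ₗ[ℤ] Y)) := Subgroup.closure (Set.range D.gen)

theorem gen_mem (γ : ι) : D.gen γ ∈ D.W := Subgroup.subset_closure ⟨γ, rfl⟩

/-- the reflection as an element of the Weyl group -/
def sg (γ : ι) : D.W := ⟨D.gen γ, D.gen_mem γ⟩

/-- action on roots -/
def wr (w : D.W) (α : ι) : ι := w.1.1 α

/-- action on `X` -/
def wx (w : D.W) (x : X) : X := w.1.2.1 x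

/-- action on `Y` -/
def wy (w : D.W) (y : Y) : Y := w.1.2.2 y

theorem wr_one (α : ι) : D.wr 1 α = α := rfl

theorem wx_one (x : X) : D.wx 1 x = x := rfl

theorem wy_one (y : Y) : D.wy 1 y = y := rfl

theorem wr_mul (w w' : D.W) (α : ι) : D.wr (w * w') α = D.wr w (D.wr w' α) := rfl

theorem wx_mul (w w' : D.W) (x : X) : D.wx (w * w') x = D.wx w (D.wx w' x) := rfl

theorem wy_mul (w w' : D.W) (y : Y) : D.wy (w * w') y = D.wy w (D.wy w' y) := rfl

theorem wr_sg (γ α : ι) : D.wr (D.sg γ) α = D.rf γ α := rfl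

theorem wx_sg (γ : ι) (x : X) : D.wx (D.sg γ) x = D.rx γ x := rfl

theorem wy_sg (γ : ι) (y : Y) : D.wy (D.sg γ) y = D.ry γ y := rfl

theorem sg_sg (γ : ι) : D.sg γ * D.sg γ = 1 := by
  refine Subtype.ext (Prod.ext ?_ (Prod.ext ?_ ?_))
  · exact Equiv.ext fun α => D.rf_rf γ α
  · exact LinearEquiv.ext fun x => D.rx_rx γ x
  · exact LinearEquiv.ext fun y => D.ry_ry γ y

theorem sg_ng (γ : ι) : D.sg (D.ng γ) = D.sg γ := by
  refine Subtype.ext (Prod.ext ?_ (Prod.ext ?_ ?_))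
  · exact Equiv.ext fun α => D.rf_ng_left γ α
  · refine LinearEquiv.ext fun x => ?_
    change D.rx (D.ng γ) x = D.rx γ x
    rw [D.rx_apply, D.rx_apply, D.co_ng, D.rt_ng, D.pa_neg_right, neg_smul, smul_neg, neg_neg]
  · refine LinearEquiv.ext fun y => ?_
    change D.ry (D.ng γ) y = D.ry γ y
    rw [D.ry_apply, D.ry_apply, D.co_ng, D.pr_ng, neg_smul, smul_neg, neg_neg]

theorem wx_add (w : D.W) (x x' : X) : D.wx w (x + x') = D.wx w x + D.wx w x' := by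
  exact map_add w.1.2.1 x x'

theorem wy_add (w : D.W) (y y' : Y) : D.wy w (y + y') = D.wy w y + D.wy w y' := by
  exact map_add w.1.2.2 y y'

theorem wx_inv (w : D.W) (x : X) : D.wx w (D.wx w⁻¹ x) = x ∧ D.wx w⁻¹ (D.wx w x) = x := by
  constructor
  · rw [← D.wx_mul, mul_inv_cancel, D.wx_one]
  · rw [← D.wx_mul, inv_mul_cancel, D.wx_one]

theorem wy_inv (w : D.W) (y : Y) : D.wy w (D.wy w⁻¹ y) = y ∧ D.wy w⁻¹ (D.wy w y) = y := by
  constructor
  · rw [← D.wy_mul, mul_inv_cancel, D.wy_one]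
  · rw [← D.wy_mul, inv_mul_cancel, D.wy_one]

theorem wr_inv (w : D.W) (α : ι) : D.wr w (D.wr w⁻¹ α) = α ∧ D.wr w⁻¹ (D.wr w α) = α := by
  constructor
  · rw [← D.wr_mul, mul_inv_cancel, D.wr_one]
  · rw [← D.wr_mul, inv_mul_cancel, D.wr_one]

/-- the triples compatible with the roots, the coroots and the pairing -/
private def Rt3_sub : Subgroup (Equiv.Perm ι × (X ≃ₗ[ℤ] X) × (Y ≃ₗ[ℤ] Y)) where
  carrier := {g | (∀ α, D.rt (g.1 α) = g.2.1 (D.rt α)) ∧ (∀ α, D.co (g.1 α) = g.2.2 (D.co α)) ∧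
    ∀ x y, D.pa (g.2.1 x) (g.2.2 y) = D.pa x y}
  mul_mem' := by
    rintro g h ⟨g1, g2, g3⟩ ⟨h1, h2, h3⟩
    refine ⟨fun α => ?_, fun α => ?_, fun x y => ?_⟩
    · change D.rt (g.1 (h.1 α)) = g.2.1 (h.2.1 (D.rt α))
      rw [g1, h1]
    · change D.co (g.1 (h.1 α)) = g.2.2 (h.2.2 (D.co α))
      rw [g2, h2]
    · change D.pa (g.2.1 (h.2.1 x)) (g.2.2 (h.2.2 y)) = D.pa x y
      rw [g3, h3]
  one_mem' := ⟨fun _ => rfl, fun _ => rfl, fun _ _ => rfl⟩
  inv_mem' := by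
    rintro g ⟨g1, g2, g3⟩
    refine ⟨fun α => ?_, fun α => ?_, fun x y => ?_⟩
    · change D.rt (g.1.symm α) = g.2.1.symm (D.rt α)
      rw [LinearEquiv.eq_symm_apply, ← g1, Equiv.apply_symm_apply]
    · change D.co (g.1.symm α) = g.2.2.symm (D.co α)
      rw [LinearEquiv.eq_symm_apply, ← g2, Equiv.apply_symm_apply]
    · change D.pa (g.2.1.symm x) (g.2.2.symm y) = D.pa x y
      rw [← g3, LinearEquiv.apply_symm_apply, LinearEquiv.apply_symm_apply]

private theorem Rt3_le : D.W ≤ D.Rt3_sub := by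
  unfold W
  rw [Subgroup.closure_le]
  rintro g ⟨γ, rfl⟩
  exact ⟨fun α => D.rt_rf' γ α, fun α => D.co_rf γ α, fun x y => D.pa_rx γ x y⟩

theorem w_rt (w : D.W) (α : ι) : D.rt (D.wr w α) = D.wx w (D.rt α) := by
  exact (D.Rt3_le w.2).1 α

theorem w_co (w : D.W) (α : ι) : D.co (D.wr w α) = D.wy w (D.co α) := by
  exact (D.Rt3_le w.2).2.1 α

theorem w_pa (w : D.W) (x : X) (y : Y) : D.pa (D.wx w x) (D.wy w y) = D.pa x y := by
  exact (D.Rt3_le w.2).2.2 x y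

theorem w_pa' (w : D.W) (x : X) (y : Y) : D.pa (D.wx w x) y = D.pa x (D.wy w⁻¹ y) := by
  rw [← D.w_pa w x (D.wy w⁻¹ y), (D.wy_inv w y).1]

theorem w_pr (w : D.W) (α : ι) (y : Y) : D.pr (D.wr w α) (D.wy w y) = D.pr α y := by
  rw [D.pr_def, D.pr_def, D.w_rt, D.w_pa]

theorem w_pr' (w : D.W) (α : ι) (y : Y) : D.pr (D.wr w α) y = D.pr α (D.wy w⁻¹ y) := by
  rw [D.pr_def, D.pr_def, D.w_rt, D.w_pa']

theorem w_ng (w : D.W) (α : ι) : D.wr w (D.ng α) = D.ng (D.wr w α) := by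
  apply D.rt_inj
  rw [D.w_rt, D.rt_ng, D.rt_ng, D.w_rt]
  exact map_neg w.1.2.1 (D.rt α)

theorem w_ext {w w' : D.W} (h : ∀ α, D.wr w α = D.wr w' α) : w = w' := by
  have hy : ∀ y, D.wy w y = D.wy w' y := by
    intro y
    have hy0 : y ∈ AddSubgroup.closure (Set.range D.P.coroot) := by
      rw [D.cospan]
      exact AddSubgroup.mem_top y
    induction hy0 using AddSubgroup.closure_induction with
    | mem z hz =>
      obtain ⟨α, rfl⟩ := hz
      have h1 := D.w_co w α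
      have h2 := D.w_co w' α
      rw [h α] at h1
      exact h1.symm.trans h2
    | zero => exact (map_zero w.1.2.2).trans (map_zero w'.1.2.2).symm
    | add a b _ _ ha hb => rw [D.wy_add, D.wy_add, ha, hb]
    | neg a _ ha =>
      have h1 : D.wy w (-a) = -D.wy w a := map_neg w.1.2.2 a
      have h2 : D.wy w' (-a) = -D.wy w' a := map_neg w'.1.2.2 a
      rw [h1, h2, ha]
  have hyi : ∀ y, D.wy w⁻¹ y = D.wy w'⁻¹ y := by
    intro y
    have h1 : D.wy w (D.wy w'⁻¹ y) = y := by rw [hy, (D.wy_inv w' y).1]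
    calc D.wy w⁻¹ y = D.wy w⁻¹ (D.wy w (D.wy w'⁻¹ y)) := by rw [h1]
      _ = D.wy w'⁻¹ y := (D.wy_inv w _).2
  have hx : ∀ x, D.wx w x = D.wx w' x := by
    intro x
    apply D.pa_ext_x
    intro y
    rw [D.w_pa', D.w_pa', hyi]
  exact Subtype.ext (Prod.ext (Equiv.ext h) (Prod.ext (LinearEquiv.ext hx) (LinearEquiv.ext hy)))

theorem w_ext_y {w w' : D.W} (h : ∀ y, D.wy w y = D.wy w' y) : w = w' := by
  apply D.w_ext
  intro α
  apply D.co_inj
  rw [D.w_co, D.w_co, h]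

theorem w_ext_x {w w' : D.W} (h : ∀ x, D.wx w x = D.wx w' x) : w = w' := by
  apply D.w_ext
  intro α
  apply D.rt_inj
  rw [D.w_rt, D.w_rt, h]

theorem w_finite : Finite D.W := by
  refine Finite.of_injective (fun w : D.W => w.1.1) (fun w w' h => D.w_ext (fun α => ?_))
  exact congrArg (fun e : Equiv.Perm ι => e α) h

theorem w_sg (w : D.W) (γ : ι) : w * D.sg γ * w⁻¹ = D.sg (D.wr w γ) := by
  apply D.w_ext_y
  intro y
  rw [D.wy_mul, D.wy_mul, D.wy_sg, D.wy_sg, D.ry_apply, D.ry_apply]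
  have h1 : D.wy w (D.wy w⁻¹ y - D.pr γ (D.wy w⁻¹ y) • D.co γ) =
      D.wy w (D.wy w⁻¹ y) - D.pr γ (D.wy w⁻¹ y) • D.wy w (D.co γ) := by
    have h2 := map_sub w.1.2.2 (D.wy w⁻¹ y) (D.pr γ (D.wy w⁻¹ y) • D.co γ)
    have h3 := map_zsmul w.1.2.2 (D.pr γ (D.wy w⁻¹ y)) (D.co γ)
    unfold wy at h2 h3 ⊢
    rw [h2, h3]
  rw [h1, (D.wy_inv w y).1, ← D.w_co, ← D.w_pr']

/-- the product of the reflections in a list of roots -/
def wl (l : List ι) : D.W := (l.map D.sg).prod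

private theorem Rt3_sg_inv (γ : ι) : (D.sg γ)⁻¹ = D.sg γ :=
  inv_eq_of_mul_eq_one_left (D.sg_sg γ)

private theorem Rt3_wl_append (l l' : List ι) : D.wl (l ++ l') = D.wl l * D.wl l' := by
  unfold wl
  rw [List.map_append, List.prod_append]

private theorem Rt3_wl_singleton (γ : ι) : D.wl [γ] = D.sg γ := by
  simp [wl]

private theorem Rt3_wl_inv (l : List ι) : (D.wl l)⁻¹ = D.wl l.reverse := by
  induction l with
  | nil => simp [wl]
  | cons γ l ih =>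
    have h1 : D.wl (γ :: l) = D.sg γ * D.wl l := by simp [wl]
    rw [h1, _root_.mul_inv_rev, ih, Rt3_sg_inv, List.reverse_cons, Rt3_wl_append, Rt3_wl_singleton]

private theorem Rt3_pos (y : Y) (hy : D.Reg y) (n : ℕ) : ∀ α : ι, 0 < D.pr α y →
    (D.pr α y).toNat ≤ n → ∃ l : List ι, (∀ γ ∈ l, D.Sim y γ) ∧ D.sg α = D.wl l := by
  induction n with
  | zero =>
    intro α h1 h2
    omega
  | succ n ih =>
    intro α h1 h2
    by_cases hs : D.Sim y α
    · exact ⟨[α], by simpa using hs, (D.Rt3_wl_singleton α).symm⟩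
    · obtain ⟨γ, hγ, hp⟩ := D.sim_pair y h1
      have hne : α ≠ γ := fun h => hs (h ▸ hγ)
      have h3 := D.sim_rf hy hγ h1 hne
      have h4 := D.pr_rf_eq γ α y
      have h5 : 0 < D.pr α (D.co γ) * D.pr γ y := mul_pos hp hγ.1
      obtain ⟨l, hl, hl2⟩ := ih (D.rf γ α) h3 (by omega)
      refine ⟨γ :: (l ++ [γ]), ?_, ?_⟩
      · intro δ hδ
        rcases List.mem_cons.1 hδ with h | h
        · rw [h]
          exact hγ
        · rcases List.mem_append.1 h with h | h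
          · exact hl δ h
          · rw [List.mem_singleton.1 h]
            exact hγ
      · have h6 := D.w_sg (D.sg γ) (D.rf γ α)
        rw [D.wr_sg, D.rf_rf, Rt3_sg_inv, hl2] at h6
        have h7 : D.wl (γ :: (l ++ [γ])) = D.sg γ * D.wl (l ++ [γ]) := by simp [wl]
        rw [h7, Rt3_wl_append, Rt3_wl_singleton, ← h6, mul_assoc]

private theorem Rt3_all (y : Y) (hy : D.Reg y) (α : ι) :
    ∃ l : List ι, (∀ γ ∈ l, D.Sim y γ) ∧ D.sg α = D.wl l := by
  rcases lt_or_gt_of_ne (hy α) with h | h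
  · have h1 : 0 < D.pr (D.ng α) y := by
      rw [D.pr_ng]
      omega
    obtain ⟨l, hl, hl2⟩ := D.Rt3_pos y hy _ (D.ng α) h1 le_rfl
    exact ⟨l, hl, (D.sg_ng α).symm.trans hl2⟩
  · exact D.Rt3_pos y hy _ α h le_rfl

theorem wl_ex (y : Y) (hy : D.Reg y) (w : D.W) : ∃ l : List ι, (∀ γ ∈ l, D.Sim y γ) ∧ w = D.wl l := by
  obtain ⟨g, hg⟩ := w
  have key : ∀ g : Equiv.Perm ι × (X ≃ₗ[ℤ] X) × (Y ≃ₗ[ℤ] Y), ∀ hg : g ∈ D.W,
      ∃ l : List ι, (∀ γ ∈ l, D.Sim y γ) ∧ (⟨g, hg⟩ : D.W) = D.wl l := by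
    intro g hg
    refine Subgroup.closure_induction
      (p := fun g hg => ∃ l : List ι, (∀ γ ∈ l, D.Sim y γ) ∧ (⟨g, hg⟩ : D.W) = D.wl l)
      ?_ ?_ ?_ ?_ hg
    · rintro _ ⟨α, rfl⟩
      exact D.Rt3_all y hy α
    · exact ⟨[], by simp, rfl⟩
    · rintro a b ha hb ⟨l, hl, hl2⟩ ⟨l', hl', hl2'⟩
      refine ⟨l ++ l', ?_, ?_⟩
      · intro γ hγ
        rcases List.mem_append.1 hγ with h | h
        · exact hl γ h
        · exact hl' γ h
      · rw [Rt3_wl_append, ← hl2, ← hl2']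
        rfl
    · rintro a ha ⟨l, hl, hl2⟩
      refine ⟨l.reverse, ?_, ?_⟩
      · intro γ hγ
        exact hl γ (List.mem_reverse.1 hγ)
      · rw [← Rt3_wl_inv, ← hl2]
        rfl
  exact key g hg

theorem reg_wy {y : Y} (h : D.Reg y) (w : D.W) : D.Reg (D.wy w y) := by
  intro α
  rw [← (D.wr_inv w α).1, D.w_pr]
  exact h _

end Ctx

end

end Pool.Agent.Lib.MP_f399a8_nt.G
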