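import Pool.Agent.Lib.MP_f399a8_ntG.Rt3

/-!
# Coroots: generation by simple coroots, primitivity, the half-sum of the positive roots

PROOF.
* `co_closure`: the subgroup of `Y` generated by the coroots of the roots `γ` with `Sim y γ` is everything: let `H` be this
  subgroup; it is stable under `s_γ`, `γ` simple (`ry_apply`), so under `W` (`wl_ex`); every root is of the form `w γ` with `γ` simple or
  `α = ± …`: by induction on `⟨α, y⟩` as in `wl_ex`: `α = s_γ β`, so `α^∨ = s_γ β^∨ = β^∨ - ⟨γ, β^∨⟩ γ^∨ ∈ H`; then `D.cospan`.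
* `co_prim`: no coroot is divisible by `q ≥ 2` in `Y`.  First let `α` be simple for `y0`.  The coroots of the simple roots are
  linearly independent over `ℤ`: Mathlib: `RootPairing.Base` (for example `RootPairing.nonempty_base`,
  `RootPairing.linearIndepOn_root_baseOf` for `P.flip`, or `Base.linearIndepOn_coroot`).  One possibility: let `b` be any
  base of `P` (`nonempty_base`, `D.red`).  `b.linearIndepOn_coroot`, `Base.span_coroot_support`, `D.cospan`: the simple
  coroots of `b` form a basis of `Y`, so they are primitive.  Every root is conjugate under the Weyl group to a root in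
  `b.support` or its negative (Mathlib, `RootPairing.Base` induction lemmas such as `Base.induction_reflect`/
  `exists_mem_support…`, or by the argument of `wl_ex` for the `y` defined by the base), and reflections are automorphisms of `Y`.
* `rho_*`: let `s : Y →+ ℤ`, `s y = ∑_{β, 0 < ⟨β, y0⟩} ⟨β, y⟩`.  For `α` positive for `y0`: the set of positive `β` is the disjoint union of
  `A = {β : s_α β positive}` and `B = {β : s_α β negative}`.  `s_α` is an involution of `A` and `⟨s_α β, α^∨⟩ = - ⟨β, α^∨⟩`, so the sum of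
  `⟨β, α^∨⟩` over `A` is `0`.  `β ↦ - s_α β` is an involution of `B`, which preserves `⟨β, α^∨⟩`; on `B` `⟨β, α^∨⟩ > 0`
  (`s_α β = β - ⟨β, α^∨⟩ α` is negative); its only fixed point is `α` (`- s_α β = β` means `2 β = ⟨β, α^∨⟩ α`, `prop_eq`), with value `2`.
  So the sum over `B` is `2 +` twice the sum over a set of representatives of the two-element orbits: it is even and
  `≥ 2` (`Finset.sum_involution`-like argument; for the evenness one may use the map to `ZMod 2` and `Finset.sum_involution`,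
  for the bound just positivity of the terms).
  So `s (co α)` is even for all roots `α` (for negative ones use `co_ng`), hence `s y` is even for all `y` (`D.cospan`); the function
  `y ↦ s y / 2` is additive and given by some `ρ : X` (`dual_x`); `2 • ρ = ∑ …` by `pa_ext_x`.
* `rho_sim`: if `α` is simple for `y0` then `B = {α}` (`sim_rf`).
* `rho_unique`: `tors_x`.
-/

namespace Pool.Agent.Lib.MP_f399a8_nt.G

open Matrix

noncomputable section

namespace Ctx

variable {ι X Y : Type*} [Finite ι] [AddCommGroup X] [AddCommGroup Y] {N : ℕ} (D : Ctx ι X Y N)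

/-- coroots of positive roots lie in the group generated by the simple coroots -/
private theorem Rt5_co_pos {y : Y} (hy : D.Reg y) (n : ℕ) : ∀ α, 0 < D.pr α y →
    (D.pr α y).toNat ≤ n → D.co α ∈ AddSubgroup.closure {z | ∃ γ, D.Sim y γ ∧ z = D.co γ} := by
  induction n with
  | zero => intro α h1 h2; omega
  | succ n ih =>
    intro α h1 h2
    obtain ⟨γ, hγ, hp⟩ := D.sim_pair y h1
    by_cases h : α = γ
    · subst h
      exact AddSubgroup.subset_closure
        (show D.co α ∈ {z | ∃ γ, D.Sim y γ ∧ z = D.co γ} from ⟨α, hγ, rfl⟩)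
    · have hb := D.sim_rf hy hγ h1 h
      have hlt : D.pr (D.rf γ α) y < D.pr α y := by
        rw [D.pr_rf_eq]
        have := mul_pos hp hγ.1
        omega
      have hm := ih (D.rf γ α) hb (by omega)
      have e : D.co α = D.co (D.rf γ α) - D.pr γ (D.co (D.rf γ α)) • D.co γ := by
        rw [← D.ry_apply, ← D.co_rf, D.rf_rf]
      rw [e]
      exact AddSubgroup.sub_mem _ hm (AddSubgroup.zsmul_mem _
        (AddSubgroup.subset_closure
          (show D.co γ ∈ {z | ∃ γ, D.Sim y γ ∧ z = D.co γ} from ⟨γ, hγ, rfl⟩)) _)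

theorem co_closure {y : Y} (hy : D.Reg y) :
    AddSubgroup.closure {z | ∃ γ, D.Sim y γ ∧ z = D.co γ} = ⊤ := by
  rw [eq_top_iff, ← D.cospan, AddSubgroup.closure_le]
  rintro z ⟨α, rfl⟩
  show D.co α ∈ AddSubgroup.closure {z | ∃ γ, D.Sim y γ ∧ z = D.co γ}
  rcases lt_or_gt_of_ne (hy α) with h | h
  · have h1 : 0 < D.pr (D.ng α) y := by rw [D.pr_ng]; omega
    have h2 := D.Rt5_co_pos hy _ (D.ng α) h1 le_rfl
    rw [D.co_ng] at h2
    simpa using AddSubgroup.neg_mem _ h2
  · exact D.Rt5_co_pos hy _ α h le_rfl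

open Classical in
/-- the sum of the values of the positive roots -/
private noncomputable def Rt5_s [Fintype ι] (z : Y) : ℤ :=
  ∑ β ∈ Finset.univ.filter (fun β => 0 < D.pr β D.y0), D.pr β z

private theorem Rt5_pr_refl (α β : ι) : D.pr (D.rf α β) (D.co α) = - D.pr β (D.co α) := by
  rw [D.pr_rf_eq, D.pr_co_self]
  ring

open Classical in
private theorem Rt5_sA [Fintype ι] (α : ι) :
    ∑ β ∈ Finset.univ.filter (fun β => 0 < D.pr β D.y0 ∧ 0 < D.pr (D.rf α β) D.y0),
      D.pr β (D.co α) = 0 := by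
  refine Finset.sum_involution (fun β _ => D.rf α β) ?_ ?_ ?_ ?_
  · intro β _
    rw [D.Rt5_pr_refl]
    ring
  · intro β _ h0 h
    apply h0
    have := D.Rt5_pr_refl α β
    rw [h] at this
    omega
  · intro β hβ
    rw [Finset.mem_filter] at hβ ⊢
    rw [D.rf_rf]
    exact ⟨Finset.mem_univ _, hβ.2.2, hβ.2.1⟩
  · intro β _
    exact D.rf_rf α β

open Classical in
private theorem Rt5_split [Fintype ι] (α : ι) : D.Rt5_s (D.co α) =
    ∑ β ∈ Finset.univ.filter (fun β => 0 < D.pr β D.y0 ∧ D.pr (D.rf α β) D.y0 < 0),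
      D.pr β (D.co α) := by
  have h1 : D.Rt5_s (D.co α) =
      ∑ β ∈ Finset.univ.filter (fun β => 0 < D.pr β D.y0 ∧ 0 < D.pr (D.rf α β) D.y0),
        D.pr β (D.co α)
      + ∑ β ∈ Finset.univ.filter (fun β => 0 < D.pr β D.y0 ∧ D.pr (D.rf α β) D.y0 < 0),
        D.pr β (D.co α) := by
    rw [Rt5_s, ← Finset.sum_filter_add_sum_filter_not _ (fun β => 0 < D.pr (D.rf α β) D.y0),
      Finset.filter_filter, Finset.filter_filter]
    congr 1
    refine Finset.sum_congr ?_ fun _ _ => rfl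
    ext β
    simp only [Finset.mem_filter, Finset.mem_univ, true_and, not_lt]
    have := D.reg_y0 (D.rf α β)
    constructor
    · rintro ⟨h, h'⟩
      exact ⟨h, by omega⟩
    · rintro ⟨h, h'⟩
      exact ⟨h, by omega⟩
  rw [h1, D.Rt5_sA, zero_add]

private theorem Rt5_B_pos {α β : ι} (hα : 0 < D.pr α D.y0) (h1 : 0 < D.pr β D.y0)
    (h2 : D.pr (D.rf α β) D.y0 < 0) : 0 < D.pr β (D.co α) := by
  rw [D.pr_rf_eq] at h2
  by_contra h
  push Not at h
  have := mul_nonpos_of_nonpos_of_nonneg h hα.le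
  omega

open Classical in
private theorem Rt5_B_erase [Fintype ι] {α : ι} (hα : 0 < D.pr α D.y0) : D.Rt5_s (D.co α) = 2 +
    ∑ β ∈ (Finset.univ.filter (fun β => 0 < D.pr β D.y0 ∧ D.pr (D.rf α β) D.y0 < 0)).erase α,
      D.pr β (D.co α) := by
  have hm : α ∈ Finset.univ.filter (fun β => 0 < D.pr β D.y0 ∧ D.pr (D.rf α β) D.y0 < 0) := by
    rw [Finset.mem_filter]
    refine ⟨Finset.mem_univ _, hα, ?_⟩
    rw [D.rf_self, D.pr_ng]
    omega
  rw [D.Rt5_split, ← Finset.add_sum_erase _ _ hm, D.pr_co_self]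

open Classical in
private theorem Rt5_ge [Fintype ι] {α : ι} (hα : 0 < D.pr α D.y0) : 2 ≤ D.Rt5_s (D.co α) := by
  rw [D.Rt5_B_erase hα]
  have : 0 ≤ ∑ β ∈ (Finset.univ.filter
      (fun β => 0 < D.pr β D.y0 ∧ D.pr (D.rf α β) D.y0 < 0)).erase α, D.pr β (D.co α) := by
    refine Finset.sum_nonneg fun β hβ => ?_
    have h := Finset.mem_of_mem_erase hβ
    rw [Finset.mem_filter] at h
    exact (D.Rt5_B_pos hα h.2.1 h.2.2).le
  omega

open Classical in
private theorem Rt5_even [Fintype ι] {α : ι} (hα : 0 < D.pr α D.y0) :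
    (2 : ℤ) ∣ D.Rt5_s (D.co α) := by
  rw [D.Rt5_B_erase hα]
  refine dvd_add (dvd_refl _) ?_
  have h2 : ((∑ β ∈ (Finset.univ.filter
      (fun β => 0 < D.pr β D.y0 ∧ D.pr (D.rf α β) D.y0 < 0)).erase α, D.pr β (D.co α) : ℤ)
        : ZMod 2) = 0 := by
    rw [Int.cast_sum]
    refine Finset.sum_involution (fun β _ => D.ng (D.rf α β)) ?_ ?_ ?_ ?_
    · intro β _
      rw [D.pr_ng, D.Rt5_pr_refl, neg_neg]
      exact CharTwo.add_self_eq_zero _
    · intro β hβ _ h
      have hne := Finset.ne_of_mem_erase hβ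
      have hb := Finset.mem_of_mem_erase hβ
      rw [Finset.mem_filter] at hb
      have e1 : D.rt (D.ng (D.rf α β)) = D.rt β := by rw [h]
      rw [D.rt_ng, D.rt_rf] at e1
      have e2 : D.pr β (D.co α) • D.rt α = (2 : ℤ) • D.rt β := by
        rw [two_smul]
        nth_rewrite 1 [← e1]
        abel
      rcases D.prop_eq (Or.inr (by norm_num)) e2 with h3 | h3
      · exact hne h3
      · have h4 := hb.2.1
        rw [h3, D.pr_ng] at h4
        omega
    · intro β hβ
      have hne := Finset.ne_of_mem_erase hβ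
      have hb := Finset.mem_of_mem_erase hβ
      rw [Finset.mem_filter] at hb
      rw [Finset.mem_erase, Finset.mem_filter]
      refine ⟨?_, Finset.mem_univ _, ?_, ?_⟩
      · intro h
        apply hne
        have : D.rf α (D.ng (D.ng (D.rf α β))) = D.rf α (D.ng α) := by rw [h]
        rw [D.ng_ng, D.rf_rf, D.rf_ng, D.rf_self, D.ng_ng] at this
        exact this
      · rw [D.pr_ng]
        omega
      · rw [D.rf_ng, D.rf_rf, D.pr_ng]
        omega
    · intro β _
      rw [D.rf_ng, D.rf_rf, D.ng_ng]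
  exact (ZMod.intCast_zmod_eq_zero_iff_dvd _ 2).1 h2

open Classical in
private theorem Rt5_sim [Fintype ι] {α : ι} (hα : D.Sim D.y0 α) : D.Rt5_s (D.co α) = 2 := by
  rw [D.Rt5_B_erase hα.1]
  have : (Finset.univ.filter
      (fun β => 0 < D.pr β D.y0 ∧ D.pr (D.rf α β) D.y0 < 0)).erase α = ∅ := by
    rw [Finset.eq_empty_iff_forall_notMem]
    intro β hβ
    have hne := Finset.ne_of_mem_erase hβ
    have hb := Finset.mem_of_mem_erase hβ
    rw [Finset.mem_filter] at hb
    have := D.sim_rf D.reg_y0 hα hb.2.1 hne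
    omega
  rw [this, Finset.sum_empty, add_zero]

private theorem Rt5_s_add [Fintype ι] (z z' : Y) :
    D.Rt5_s (z + z') = D.Rt5_s z + D.Rt5_s z' := by
  unfold Rt5_s
  rw [← Finset.sum_add_distrib]
  refine Finset.sum_congr rfl fun β _ => ?_
  rw [D.pr_def, D.pa_add_right]
  rfl

private theorem Rt5_s_neg [Fintype ι] (z : Y) : D.Rt5_s (-z) = - D.Rt5_s z := by
  unfold Rt5_s
  rw [← Finset.sum_neg_distrib]
  refine Finset.sum_congr rfl fun β _ => ?_
  rw [D.pr_neg]

private theorem Rt5_s_even [Fintype ι] (z : Y) : (2 : ℤ) ∣ D.Rt5_s z := by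
  have hz : z ∈ AddSubgroup.closure (Set.range D.P.coroot) := by
    rw [D.cospan]
    exact AddSubgroup.mem_top z
  induction hz using AddSubgroup.closure_induction with
  | mem x hx =>
    obtain ⟨α, rfl⟩ := hx
    show (2 : ℤ) ∣ D.Rt5_s (D.co α)
    rcases lt_or_gt_of_ne (D.reg_y0 α) with h | h
    · have h1 : 0 < D.pr (D.ng α) D.y0 := by rw [D.pr_ng]; omega
      have h2 := D.Rt5_even h1
      rw [D.co_ng, D.Rt5_s_neg] at h2
      exact (dvd_neg).1 h2
    · exact D.Rt5_even h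
  | zero =>
    have : D.Rt5_s (0 : Y) = 0 := by
      have := D.Rt5_s_add 0 0
      rw [add_zero] at this
      omega
    rw [this]
    exact dvd_zero _
  | add x y _ _ hx hy =>
    rw [D.Rt5_s_add]
    exact dvd_add hx hy
  | neg x _ hx =>
    rw [D.Rt5_s_neg]
    exact (dvd_neg).2 hx

private theorem Rt5_rho [Fintype ι] : ∃ ρ : X, ∀ z, 2 * D.pa ρ z = D.Rt5_s z := by
  have hadd : ∀ z z' : Y, D.Rt5_s (z + z') / 2 = D.Rt5_s z / 2 + D.Rt5_s z' / 2 := by
    intro z z'
    rw [D.Rt5_s_add]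
    have h1 := D.Rt5_s_even z
    have h2 := D.Rt5_s_even z'
    omega
  obtain ⟨ρ, hρ⟩ := D.dual_x (AddMonoidHom.mk' (fun z => D.Rt5_s z / 2) hadd)
  refine ⟨ρ, fun z => ?_⟩
  rw [← hρ z]
  have h1 := D.Rt5_s_even z
  show 2 * (D.Rt5_s z / 2) = D.Rt5_s z
  omega

private theorem Rt5_prim [Fintype ι] {q : ℤ} (hq : 2 ≤ q) (n : ℕ) : ∀ α, 0 < D.pr α D.y0 →
    (D.pr α D.y0).toNat ≤ n → ∀ z : Y, D.co α ≠ q • z := by
  induction n with
  | zero => intro α h1 h2; omega
  | succ n ih =>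
    intro α h1 h2 z hz
    obtain ⟨γ, hγ, hp⟩ := D.sim_pair D.y0 h1
    by_cases h : α = γ
    · subst h
      obtain ⟨ρ, hρ⟩ := D.Rt5_rho
      have h3 := hρ (D.co α)
      rw [D.Rt5_sim hγ, hz, D.pa_smul_right] at h3
      have h4 : q * D.pa ρ z = 1 := by linarith
      have h5 : q ∣ 1 := ⟨_, h4.symm⟩
      have := Int.le_of_dvd one_pos h5
      omega
    · have hb := D.sim_rf D.reg_y0 hγ h1 h
      have hlt : D.pr (D.rf γ α) D.y0 < D.pr α D.y0 := by
        rw [D.pr_rf_eq]
        have := mul_pos hp hγ.1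
        omega
      refine ih (D.rf γ α) hb (by omega) (D.ry γ z) ?_
      rw [D.co_rf, hz, D.ry_apply, D.ry_apply, D.pr_def, D.pa_smul_right, smul_sub, mul_smul]
      rfl

theorem co_prim (α : ι) {q : ℤ} (hq : 2 ≤ q) (y : Y) : D.co α ≠ q • y := by
  have := Fintype.ofFinite ι
  rcases lt_or_gt_of_ne (D.reg_y0 α) with h | h
  · have h1 : 0 < D.pr (D.ng α) D.y0 := by rw [D.pr_ng]; omega
    intro hz
    refine D.Rt5_prim hq _ (D.ng α) h1 le_rfl (-y) ?_
    rw [D.co_ng, hz, smul_neg]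
  · exact D.Rt5_prim hq _ α h le_rfl y

/-- `2 ρ` is the sum of the positive roots -/
def IsRho (ρ : X) : Prop := (2 : ℤ) • ρ = ∑ᶠ β ∈ {β | 0 < D.pr β D.y0}, D.rt β

open Classical in
private theorem Rt5_finsum [Fintype ι] : (∑ᶠ β ∈ {β | 0 < D.pr β D.y0}, D.rt β)
    = ∑ β ∈ Finset.univ.filter (fun β => 0 < D.pr β D.y0), D.rt β := by
  have hs : {β | 0 < D.pr β D.y0}
      = ((Finset.univ.filter fun β => 0 < D.pr β D.y0 : Finset ι) : Set ι) := by
    ext
    simp
  rw [hs, finsum_mem_coe_finset]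

private theorem Rt5_pa_sum (s : Finset ι) (z : Y) :
    D.pa (∑ β ∈ s, D.rt β) z = ∑ β ∈ s, D.pr β z := by
  classical
  induction s using Finset.induction_on with
  | empty => simp [D.pa_zero_left]
  | insert a s ha ih => rw [Finset.sum_insert ha, Finset.sum_insert ha, D.pa_add_left, ih]; rfl

private theorem Rt5_isRho [Fintype ι] (ρ : X) :
    D.IsRho ρ ↔ ∀ z, 2 * D.pa ρ z = D.Rt5_s z := by
  unfold IsRho
  rw [D.Rt5_finsum]
  constructor
  · intro h z
    rw [← D.pa_smul_left, h, D.Rt5_pa_sum]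
    rfl
  · intro h
    refine D.pa_ext_x fun z => ?_
    rw [D.pa_smul_left, h, D.Rt5_pa_sum]
    rfl

theorem rho_exists : ∃ ρ, D.IsRho ρ := by
  have := Fintype.ofFinite ι
  obtain ⟨ρ, hρ⟩ := D.Rt5_rho
  exact ⟨ρ, (D.Rt5_isRho ρ).2 hρ⟩

theorem rho_unique {ρ ρ' : X} (h : D.IsRho ρ) (h' : D.IsRho ρ') : ρ = ρ' := by
  have := Fintype.ofFinite ι
  refine D.pa_ext_x fun z => ?_
  have h1 := (D.Rt5_isRho ρ).1 h z
  have h2 := (D.Rt5_isRho ρ').1 h' z
  omega

theorem rho_pos {ρ : X} (h : D.IsRho ρ) {α : ι} (hα : 0 < D.pr α D.y0) : 1 ≤ D.pa ρ (D.co α) := by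
  have := Fintype.ofFinite ι
  have h1 := (D.Rt5_isRho ρ).1 h (D.co α)
  have h2 := D.Rt5_ge hα
  omega

theorem rho_sim {ρ : X} (h : D.IsRho ρ) {α : ι} (hα : D.Sim D.y0 α) : D.pa ρ (D.co α) = 1 := by
  have := Fintype.ofFinite ι
  have h1 := (D.Rt5_isRho ρ).1 h (D.co α)
  rw [D.Rt5_sim hα] at h1
  omega

end Ctx

end

end Pool.Agent.Lib.MP_f399a8_nt.G
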