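import Pool.Agent.Lib.MP_f399a8_ntG.Fb2
import Pool.Agent.Lib.MP_f399a8_ntG.Od2

/-!
# Equal slopes: definitions and basic properties

`DD h y`: the set of the products `n * u`, `IsN w n` with `w` preserving the slopes (`Stb h w`), `u ∈ Ug (Po y)`.  `VV`: functions which are left
equivariant and uniform limits on `DD` of elements of `W`.  `VK … w`: those which vanish on the strata `w'` with larger key.
(The same for `SL_n`: file `MP_f399a8_ntS.TiA`.)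

PROOF.
* `isN_perm`: `det n = 1 ≠ 0`; Leibniz formula (`Matrix.det_apply`, `Finset.exists_ne_zero_of_sum_ne_zero`, `Finset.prod_ne_zero_iff`).
* `dd_mul`: `Ug` is a group.  `dd_one`: `isN_one`, `stb_one`.
* `wtw`: `isN_tg`; the second part is a group identity.
* `wtw_norm`: let `t' = n * τ * n⁻¹ ∈ Tg` and `σ` as in `isN_perm`.  Entry `(σ k, k)` of `t' * n = n * τ` (`t'`, `τ` diagonal: `tg_off`):
  `t' (σ k) (σ k) = τ k k`, since `n (σ k) k ≠ 0`.  So `‖cb χ t'‖ = ∏ i ‖t' i i‖ ^ h (wt i) = ∏ k ‖t' (σ k) (σ k)‖ ^ h (wt (σ k)) = ∏ k ‖τ k k‖ ^ h (wt k)`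
  (`Equiv.prod_comp`; `wt (σ k) = w (wt k)`, `Stb h w`; `Slope`, `tg_bg`).
-/

namespace Pool.Agent.Lib.MP_f399a8_nt.G

open Matrix Filter Topology

noncomputable section

namespace Ctx

variable {ι X Y : Type*} [Finite ι] [AddCommGroup X] [AddCommGroup Y] {N : ℕ} (D : Ctx ι X Y N)

/-- products of representatives of Weyl group elements preserving the slopes and `Ug (Po y)` -/
def DD (p : ℕ) [Fact p.Prime] (h : X →+ ℝ) (y : Y) : Set (D.Gt p) :=
  {x | ∃ (w : D.W) (n u : D.Gt p), D.IsN w n ∧ D.Stb h w ∧ u ∈ D.Ug p (D.Po y) ∧ x = n * u}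

/-- a decreasing combination of the weights -/
def xi : X := ∑ k : Fin N, (((k : ℕ) : ℤ) + 1) • D.wt k

/-- height of a stratum -/
def HS (y : Y) (w : D.W) : ℤ := - D.pa D.xi (D.wy w y)

/-- injective refinement of the height -/
def key (y : Y) (w : D.W) : ℤ :=
  D.HS y w * (Nat.card D.W : ℤ) + (((haveI := D.w_finite; Finite.equivFin D.W w) : ℕ) : ℤ)

variable {p : ℕ} [Fact p.Prime] {C : Type*} [NormedField C]

/-- functions which are uniform limits on `DD` of elements of `W` -/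
structure VV (χ : ↥(D.Tg p) →* Cˣ) (h : X →+ ℝ) (y : Y) (W : Set (D.Gt p → C))
    (φ : D.Gt p → C) : Prop where
  left : ∀ b ∈ D.Bg p, ∀ x, φ (b * x) = D.cb χ b * φ x
  app : ∀ ε : ℝ, 0 < ε → ∃ w ∈ W, ∀ x ∈ D.DD p h y, ‖φ x - w x‖ ≤ ε

/-- elements of `VV` which vanish on the strata with larger key -/
structure VK (χ : ↥(D.Tg p) →* Cˣ) (h : X →+ ℝ) (y : Y) (W : Set (D.Gt p → C)) (w : D.W)
    (φ : D.Gt p → C) : Prop where
  vv : D.VV χ h y W φ
  zero : ∀ (w' : D.W) (n' : D.Gt p), D.IsN w' n' → D.Stb h w' → D.key y w < D.key y w' →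
    ∀ u ∈ D.Ug p (D.Po y), φ (n' * u) = 0

variable {χ : ↥(D.Tg p) →* Cˣ} {h : X →+ ℝ} {y : Y} {w : D.W} {n : D.Gt p}

theorem isN_perm (hn : D.IsN w n) :
    ∃ σ : Equiv.Perm (Fin N), ∀ k, n.1.1 (σ k) k ≠ 0 ∧ D.wt (σ k) = D.wx w (D.wt k) := by
  have hdet : n.1.1.det = 1 := n.1.2
  rw [Matrix.det_apply] at hdet
  have h1 : ∑ σ : Equiv.Perm (Fin N), Equiv.Perm.sign σ • ∏ i, n.1.1 (σ i) i ≠ 0 := by
    rw [hdet]
    exact one_ne_zero
  obtain ⟨σ, -, hσ⟩ := Finset.exists_ne_zero_of_sum_ne_zero h1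
  have h2 : ∏ i, n.1.1 (σ i) i ≠ 0 := by
    intro h3
    rw [h3, smul_zero] at hσ
    exact hσ rfl
  rw [Finset.prod_ne_zero_iff] at h2
  exact ⟨σ, fun k => ⟨h2 k (Finset.mem_univ k), hn.2 _ _ (h2 k (Finset.mem_univ k))⟩⟩

theorem dd_mul {x u : D.Gt p} (hx : x ∈ D.DD p h y) (hu : u ∈ D.Ug p (D.Po y)) :
    x * u ∈ D.DD p h y := by
  obtain ⟨w, n, u0, hn, hst, hu0, rfl⟩ := hx
  exact ⟨w, n, u0 * u, hn, hst, mul_mem hu0 hu, mul_assoc _ _ _⟩

theorem dd_one : (1 : D.Gt p) ∈ D.DD p h y :=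
  ⟨1, 1, 1, D.isN_one, D.stb_one, one_mem _, (mul_one _).symm⟩

theorem wtw (hn : D.IsN w n) {τ : D.Gt p} (hτ : τ ∈ D.Tg p) :
    n * τ * n⁻¹ ∈ D.Tg p ∧ ∀ u : D.Gt p, n * u * τ = (n * τ * n⁻¹) * (n * (τ⁻¹ * u * τ)) := by
  exact ⟨(D.isN_tg hn hτ).1, fun u => by group⟩

theorem wtw_norm (hs : D.Slope χ h) (hst : D.Stb h w) (hn : D.IsN w n) {τ : D.Gt p}
    (hτ : τ ∈ D.Tg p) : ‖D.cb χ (n * τ * n⁻¹)‖ = ‖D.cb χ τ‖ := by
  obtain ⟨σ, hσ⟩ := D.isN_perm hn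
  have ht := (D.isN_tg hn hτ).1
  have hmul : (n * τ * n⁻¹) * n = n * τ := by group
  have hval : (n * τ * n⁻¹).1.1 * n.1.1 = n.1.1 * τ.1.1 := by
    have h1 := congrArg (fun g : D.Gt p => g.1.1) hmul
    exact h1
  have hent : ∀ k, (n * τ * n⁻¹).1.1 (σ k) (σ k) = τ.1.1 k k := by
    intro k
    have h1 := congrFun (congrFun hval (σ k)) k
    rw [Matrix.mul_apply, Matrix.mul_apply, Finset.sum_eq_single (σ k), Finset.sum_eq_single k] at h1
    · rw [mul_comm] at h1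
      exact mul_left_cancel₀ (hσ k).1 h1
    · intro j _ hj
      rw [D.tg_off hτ hj, mul_zero]
    · intro hk
      exact absurd (Finset.mem_univ _) hk
    · intro j _ hj
      rw [D.tg_off ht (Ne.symm hj), zero_mul]
    · intro hk
      exact absurd (Finset.mem_univ _) hk
  rw [hs _ (D.tg_bg ht), hs _ (D.tg_bg hτ), ← Equiv.prod_comp σ]
  refine Finset.prod_congr rfl fun k _ => ?_
  rw [hent k, (hσ k).2, hst]

end Ctx

end

end Pool.Agent.Lib.MP_f399a8_nt.G
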