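import Pool.Agent.Lib.MP_f399a8_ntG.Ta1

/-!
# Equal slopes: stability of `VV` and `VK`

(The same for `SL_n`: file `MP_f399a8_ntS.TiA2`.)

PROOF.
* `vv_of_mem`: take `w = φ` (`hW.isPS`).
* `om_dd`: `Om h x ≤ Om h (t^M x t^-M) = 1` for `M` large (`con_exists`, `con_om` with `M = 0`, `om_lim`).
* `vv_bound`: for `w₀ ∈ W` and `x ∈ DD`: `‖w₀ x‖ ≤ A * Om h x ≤ A`, where `A` bounds `w₀` on `Kg` (`ps_bdd`, `ps_bound`, `om_dd`); then add `ε = 1`.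
* `vk_add`, `vk_smul` (`c = 0` separately), `vk_trans`: `φ' x = φ (x * u)`, `w' x = w₀ (x * u)`, `dd_mul`.
* `vk_diag`: `φ' x = φ (x * τ)`; for `x = n * u ∈ DD`: `φ (x * τ) - w₀ (x * τ) = cb χ (n τ n⁻¹) * (φ - w₀) (n * (τ⁻¹ u τ))` (`wtw`, `tg_bg`, `tg_ug`), norm
  `≤ ‖cb χ τ‖ * ε` (`wtw_norm`).
* `vk_*`: the vanishing conditions are stable because `Ug (Po y)` is a group and by `wtw`.
-/

namespace Pool.Agent.Lib.MP_f399a8_nt.G

open Matrix Filter Topology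

noncomputable section

namespace Ctx

variable {ι X Y : Type*} [Finite ι] [AddCommGroup X] [AddCommGroup Y] {N : ℕ} (D : Ctx ι X Y N)
  {p : ℕ} [Fact p.Prime] {C : Type*} [NormedField C] {χ : ↥(D.Tg p) →* Cˣ} {h : X →+ ℝ} {y : Y}
  {w : D.W} {W : Set (D.Gt p → C)}

theorem vv_of_mem (hW : D.CS χ W) {f : D.Gt p → C} (hf : f ∈ W) : D.VV χ h y W f := by
  refine ⟨(hW.isPS f hf).2, fun ε hε => ⟨f, hf, fun x _ => ?_⟩⟩
  rw [sub_self, norm_zero]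
  exact hε.le

theorem om_dd (hy : D.Srt h y) {x : D.Gt p} (hx : x ∈ D.DD p h y) : D.Om h x ≤ 1 := by
  obtain ⟨w, n, u, hn, hst, hu, rfl⟩ := hx
  obtain ⟨e, he⟩ := D.con_exists h
  obtain ⟨M0, hM⟩ := D.om_lim he hy hn hst hu
  have h1 := D.con_om he (Nat.zero_le M0) (n * u)
  rw [hM M0 le_rfl, pow_zero, one_mul, inv_one, mul_one] at h1
  exact h1

theorem vv_bound (hs : D.Slope χ h) (hy : D.Srt h y) (hW : D.CS χ W)
    {φ : D.Gt p → C} (hφ : D.VV χ h y W φ) :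
    ∃ A : ℝ, 0 < A ∧ ∀ x ∈ D.DD p h y, ‖φ x‖ ≤ A := by
  obtain ⟨w, hw, hw1⟩ := hφ.app 1 one_pos
  obtain ⟨A, hA0, hA⟩ := D.ps_bdd (hW.isPS w hw).1
  refine ⟨1 + A, by linarith, fun x hx => ?_⟩
  have h1 : ‖w x‖ ≤ A * D.Om h x := D.ps_bound hs (hW.isPS w hw) hA x
  have h2 : A * D.Om h x ≤ A * 1 := mul_le_mul_of_nonneg_left (D.om_dd hy hx) hA0.le
  have h3 : ‖φ x‖ ≤ ‖φ x - w x‖ + ‖w x‖ := by
    have h := norm_add_le (φ x - w x) (w x)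
    rwa [sub_add_cancel] at h
  have h4 := hw1 x hx
  linarith

theorem vk_add [IsUltrametricDist C] (hW : D.CS χ W) {φ ψ : D.Gt p → C}
    (hφ : D.VK χ h y W w φ) (hψ : D.VK χ h y W w ψ) : D.VK χ h y W w (fun x => φ x + ψ x) := by
  refine ⟨⟨fun b hb x => ?_, fun ε hε => ?_⟩, fun τ n hw hτ hk u hu => ?_⟩
  · show φ (b * x) + ψ (b * x) = D.cb χ b * (φ x + ψ x)
    rw [hφ.vv.left b hb x, hψ.vv.left b hb x, mul_add]
  · obtain ⟨w1, hw1, h1⟩ := hφ.vv.app ε hε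
    obtain ⟨w2, hw2, h2⟩ := hψ.vv.app ε hε
    refine ⟨fun x => w1 x + w2 x, hW.add w1 hw1 w2 hw2, fun x hx => ?_⟩
    show ‖φ x + ψ x - (w1 x + w2 x)‖ ≤ ε
    rw [add_sub_add_comm]
    exact (IsUltrametricDist.norm_add_le_max _ _).trans (max_le (h1 x hx) (h2 x hx))
  · show φ (n * u) + ψ (n * u) = 0
    rw [hφ.zero τ n hw hτ hk u hu, hψ.zero τ n hw hτ hk u hu, add_zero]

theorem vk_smul (hW : D.CS χ W) (c : C) {φ : D.Gt p → C} (hφ : D.VK χ h y W w φ) :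
    D.VK χ h y W w (fun x => c * φ x) := by
  refine ⟨⟨fun b hb x => ?_, fun ε hε => ?_⟩, fun τ n hw hτ hk u hu => ?_⟩
  · show c * φ (b * x) = D.cb χ b * (c * φ x)
    rw [hφ.vv.left b hb x]
    ring
  · rcases eq_or_ne c 0 with hc | hc
    · refine ⟨fun _ => 0, hW.zero, fun x _ => ?_⟩
      show ‖c * φ x - 0‖ ≤ ε
      rw [hc, zero_mul, sub_zero, norm_zero]
      exact hε.le
    · have hc' : 0 < ‖c‖ := norm_pos_iff.2 hc
      obtain ⟨w1, hw1, h1⟩ := hφ.vv.app (ε / ‖c‖) (div_pos hε hc')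
      refine ⟨fun x => c * w1 x, hW.smul c w1 hw1, fun x hx => ?_⟩
      show ‖c * φ x - c * w1 x‖ ≤ ε
      rw [← mul_sub, norm_mul]
      have h2 := mul_le_mul_of_nonneg_left (h1 x hx) hc'.le
      rwa [mul_div_cancel₀ _ hc'.ne'] at h2
  · show c * φ (n * u) = 0
    rw [hφ.zero τ n hw hτ hk u hu, mul_zero]

theorem Ta2_zero (hW : D.CS χ W) : D.VK χ h y W w (fun _ => (0 : C)) := by
  refine ⟨⟨fun b _ x => (mul_zero _).symm, fun ε hε => ⟨fun _ => 0, hW.zero, fun x _ => ?_⟩⟩,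
    fun τ n _ _ _ u _ => rfl⟩
  show ‖(0 : C) - 0‖ ≤ ε
  rw [sub_zero, norm_zero]
  exact hε.le

theorem vk_sum [IsUltrametricDist C] (hW : D.CS χ W) {κ : Type*} (s : Finset κ)
    (φ : κ → D.Gt p → C) (hφ : ∀ i ∈ s, D.VK χ h y W w (φ i)) :
    D.VK χ h y W w (fun x => ∑ i ∈ s, φ i x) := by
  classical
  induction s using Finset.induction_on with
  | empty =>
    have h1 : (fun x : D.Gt p => ∑ i ∈ (∅ : Finset κ), φ i x) = fun _ => (0 : C) := by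
      funext x
      exact Finset.sum_empty
    rw [h1]
    exact D.Ta2_zero hW
  | insert a s ha ih =>
    have h1 : (fun x : D.Gt p => ∑ i ∈ insert a s, φ i x) =
        fun x => φ a x + (fun x => ∑ i ∈ s, φ i x) x := by
      funext x
      exact Finset.sum_insert ha
    rw [h1]
    exact D.vk_add hW (hφ a (Finset.mem_insert_self _ _))
      (ih fun i hi => hφ i (Finset.mem_insert_of_mem hi))

theorem vk_trans (hW : D.CS χ W) {u : D.Gt p} (hu : u ∈ D.Ug p (D.Po y))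
    {φ : D.Gt p → C} (hφ : D.VK χ h y W w φ) : D.VK χ h y W w (fun x => φ (x * u)) := by
  refine ⟨⟨fun b hb x => ?_, fun ε hε => ?_⟩, fun τ n hw hτ hk u' hu' => ?_⟩
  · show φ (b * x * u) = D.cb χ b * φ (x * u)
    rw [mul_assoc]
    exact hφ.vv.left b hb (x * u)
  · obtain ⟨w1, hw1, h1⟩ := hφ.vv.app ε hε
    exact ⟨fun x => w1 (x * u), hW.trans u w1 hw1, fun x hx => h1 (x * u) (D.dd_mul hx hu)⟩
  · show φ (n * u' * u) = 0
    rw [mul_assoc]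
    exact hφ.zero τ n hw hτ hk (u' * u) (mul_mem hu' hu)

theorem vk_diag (hs : D.Slope χ h) (hW : D.CS χ W) {τ : D.Gt p} (hτ : τ ∈ D.Tg p)
    {φ : D.Gt p → C} (hφ : D.VK χ h y W w φ) : D.VK χ h y W w (fun x => φ (x * τ)) := by
  have hcb : 0 < ‖D.cb χ τ‖ := norm_pos_iff.2 (D.cb_ne_zero χ τ)
  refine ⟨⟨fun b hb x => ?_, fun ε hε => ?_⟩, fun ρ n hn hρ hk u hu => ?_⟩
  · show φ (b * x * τ) = D.cb χ b * φ (x * τ)
    rw [mul_assoc]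
    exact hφ.vv.left b hb (x * τ)
  · obtain ⟨w1, hw1, h1⟩ := hφ.vv.app (ε / ‖D.cb χ τ‖) (div_pos hε hcb)
    refine ⟨fun x => w1 (x * τ), hW.trans τ w1 hw1, fun x hx => ?_⟩
    obtain ⟨ρ, n, u, hn, hρ, hu, rfl⟩ := hx
    show ‖φ (n * u * τ) - w1 (n * u * τ)‖ ≤ ε
    obtain ⟨hD, he⟩ := D.wtw hn hτ
    have hB : n * τ * n⁻¹ ∈ D.Bg p := D.tg_bg hD
    rw [he u, hφ.vv.left _ hB, (hW.isPS w1 hw1).2 _ hB, ← mul_sub, norm_mul,
      D.wtw_norm hs hρ hn hτ]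
    have h2 := mul_le_mul_of_nonneg_left
      (h1 (n * (τ⁻¹ * u * τ)) ⟨ρ, n, τ⁻¹ * u * τ, hn, hρ, (D.tg_ug hτ hu).2, rfl⟩) hcb.le
    rwa [mul_div_cancel₀ _ hcb.ne'] at h2
  · show φ (n * u * τ) = 0
    obtain ⟨hD, he⟩ := D.wtw hn hτ
    have hB : n * τ * n⁻¹ ∈ D.Bg p := D.tg_bg hD
    rw [he u, hφ.vv.left _ hB, hφ.zero ρ n hn hρ hk _ (D.tg_ug hτ hu).2, mul_zero]

end Ctx

end

end Pool.Agent.Lib.MP_f399a8_nt.G
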