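import Pool.Agent.Lib.MP_f399a8_ntG.Ta1

/-!
# Closure relations of the strata, the identity has minimal height

PROOF of `bruhat_ineq`.  `Z = n * u * n'⁻¹ = (b⁻¹ * b') * v`.  Restrict to the rows and columns `≥ i` (index type `{k // i ≤ k}`, `Matrix.submatrix`): with
`c = b⁻¹ * b' ∈ Bg` (`c k l = 0` for `l < k`) and `v.1 ∈ S.U p S.Lo` (`ne_lo`), the submatrix of `Z` is the product of the submatrices of `c` and `v`, upper
triangular with nonzero diagonal (`det c = 1` is the product of the diagonal) and lower triangular with unit diagonal, so its determinant is not zero.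
By the Leibniz formula there is a permutation `ρ` of `{k // i ≤ k}` with `Z k (ρ k) ≠ 0` for all `k`, so there are `a, b` with `n k a ≠ 0`, `u a b ≠ 0`,
`n'⁻¹ b (ρ k) ≠ 0`: `wt k = w (wt a)`, `wt b = w'⁻¹ (wt (ρ k))` (`isN_inv`), and `⟨wt b, y⟩ ≤ ⟨wt a, y⟩` (`ug_supp_y`).  So
`⟨wt (ρ k), w' y⟩ = ⟨wt b, y⟩ ≤ ⟨wt a, y⟩ = ⟨wt k, w y⟩` (`w_pa`, `w_pa'`).  Sum over `k`.  (The same technique as in the proof of `isN_cell` in `Gf4`; for `SL_n`:
`MP_f399a8_ntS.TiB`.)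
PROOF of `hs_eq`: `HS y w = -∑_k (k + 1) ⟨wt k, w y⟩ = -∑_i ∑_{k ≥ i} ⟨wt k, w y⟩` (`k` occurs for `k + 1` values of `i`), so `HS y w ≤ HS y w'`; if equality holds then
all the partial sums agree, and comparing `{k ≥ i}` for consecutive `i` `⟨wt k, w y⟩ = ⟨wt k, w' y⟩` for all `k`, so `w y = w' y` (`wt_ext`, `pa_ext_y`) and
`w = w'` (`w_y_inj`).
`key_lt`, `key_inj`: the last term of the key is `< Nat.card W`.
PROOF of `xi_neg`.  `n = io α w2` (`isN_sg`), `σ` from `isN_perm`: `wt (σ k) = s_α (wt k)`.  `⟨s_α xi, y0⟩ = ∑ (k+1) ⟨wt (σ k), y0⟩ ≥ ∑ (k+1) ⟨wt k, y0⟩` by the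
rearrangement inequality: `f k = ⟨wt k, y0⟩` is antitone by `D.sorted` (`Antivary.sum_mul_le_sum_mul_comp_perm` or `Antivary.sum_smul_le_sum_smul_comp_perm`), with
equality only if `f ∘ σ` is antitone too (`Antivary.sum_mul_eq_sum_mul_comp_perm_iff`-type statement), and then `f ∘ σ = f` (a permuted antitone function
which is antitone is equal to it: `Monotone`/`Antitone` + `List`-sorted argument, or `Tuple.unique_monotone`).  [Alternative for the strictness: if `f ∘ σ ≠ f`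
there are `k < l` with `f (σ k) < f (σ l)`, and swapping increases the sum strictly; so start from the permutation minimizing `∑ (k+1) f (σ k)`.]
Also `s_α xi = xi - ⟨xi, α^∨⟩ α`, so `- ⟨xi, α^∨⟩ ⟨α, y0⟩ ≥ 0` and `⟨xi, α^∨⟩ ≤ 0`.  If it is `0` then equality holds, `⟨s_α (wt k), y0⟩ = ⟨wt k, y0⟩` for all `k`, so
`⟨s_α x, y0⟩ = ⟨x, y0⟩` for all `x` (`wt_ext`), `s_α y0 = y0`, and `⟨α, y0⟩ = 0`: `⟨α, s_α y0⟩ = - ⟨α, y0⟩`.  Contradiction.
PROOF of `hs_one`: let `w` be any element with `Stb h w` for which `⟨xi, w y⟩` is maximal among the finitely many elements with `Stb` (`w_finite`).  For a root `α` with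
`h α = 0`, `0 < ⟨α, y0⟩`: `Stb h (s_α w)` (`stb_sg`, `stb_mul`), `⟨xi, s_α (w y)⟩ = ⟨xi, w y⟩ - ⟨xi, α^∨⟩ ⟨α, w y⟩`, so by maximality and `xi_neg` `⟨α, w y⟩ ≤ 0`, so `< 0`
(`srt_reg`, `reg_wy`): `w⁻¹ α` is negative on `y` and `h (w⁻¹ α) = 0`, so it is positive for `y0` (`srt_neg`).  Hence `w⁻¹` maps `Po y` to `Po y`: `β ∈ Po y` has
`h β < 0`, and then `h (w⁻¹ β) < 0`, or `h β = 0` and `β` is negative for `y0`, and then `α = -β` is as above and `w⁻¹ α = - w⁻¹ β` (`w_ng`) is negative on `y`.  So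
`w⁻¹ = 1` (`w_stab`).  So `1` is the unique maximizer.
PROOF of `adj_exists`: suppose that every `δ ∈ Po y` with `h δ = 0` has `⟨w δ, y0⟩ < 0` (`reg_y0`).  Then `h (w δ) = 0` and `w δ ∈ Po y` by `Srt`.  If `δ ∈ Po y` and
`h δ < 0` then `h (w δ) < 0`, `w δ ∈ Po y`.  So `w = 1` by `w_stab`.
-/

namespace Pool.Agent.Lib.MP_f399a8_nt.G

open Matrix Filter Topology

noncomputable section

namespace Ctx

variable {ι X Y : Type*} [Finite ι] [AddCommGroup X] [AddCommGroup Y] {N : ℕ} (D : Ctx ι X Y N)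
  {p : ℕ} [Fact p.Prime] {h : X →+ ℝ} {y : Y} {w w' : D.W} {n n' : D.Gt p}

theorem Tb1_sum {M : Type*} [AddCommMonoid M] (i : Fin N) (f : Fin N → M) :
    ∑ k ∈ Finset.univ.filter (fun k => i ≤ k), f k = ∑ k : {k : Fin N // i ≤ k}, f k.1 := by
  rw [← Finset.sum_subtype_of_mem (p := fun k => i ≤ k)
    (f := f) (s := Finset.univ.filter (fun m => i ≤ m))
    (fun x hx => (Finset.mem_filter.mp hx).2)]
  refine Finset.sum_congr ?_ fun _ _ => rfl
  ext x
  simp [x.2]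

theorem Tb1_det {c v : SLp p N} (hc : c ∈ S.Bp p N)
    (hv : v ∈ S.U p (S.Lo : Fin N → Fin N → Prop)) (i : Fin N) :
    ((c * v).1.submatrix (fun k : {k : Fin N // i ≤ k} => k.1)
      (fun k : {k : Fin N // i ≤ k} => k.1)).det ≠ 0 := by
  have h1 : (c * v).1.submatrix (fun k : {k : Fin N // i ≤ k} => k.1)
      (fun k : {k : Fin N // i ≤ k} => k.1) =
      c.1.submatrix (fun k : {k : Fin N // i ≤ k} => k.1) (fun k : {k : Fin N // i ≤ k} => k.1) *
      v.1.submatrix (fun k : {k : Fin N // i ≤ k} => k.1)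
        (fun k : {k : Fin N // i ≤ k} => k.1) := by
    ext k l
    show (c.1 * v.1) k.1 l.1 = _
    rw [Matrix.mul_apply, Matrix.mul_apply]
    simp only [Matrix.submatrix_apply]
    rw [← Tb1_sum i (fun m => c.1 k.1 m * v.1 m l.1), Finset.sum_filter]
    refine Finset.sum_congr rfl fun m _ => ?_
    split_ifs with hm
    · rfl
    · have h2 : c.1 k.1 m = 0 := hc k.1 m (lt_of_lt_of_le (not_le.mp hm) k.2)
      rw [h2, zero_mul]
  rw [h1, Matrix.det_mul]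
  refine mul_ne_zero ?_ ?_
  · rw [Matrix.det_of_isUpperTriangular]
    · exact Finset.prod_ne_zero_iff.mpr fun k _ => (S.bp_diag hc).1 k.1
    · intro k l hkl
      exact hc k.1 l.1 hkl
  · rw [Matrix.det_of_isLowerTriangular]
    · refine Finset.prod_ne_zero_iff.mpr fun k _ => ?_
      show v.1 k.1 k.1 ≠ 0
      rw [S.U_diag S.so_Lo hv]
      exact one_ne_zero
    · intro k l hkl
      have hkl' : k.1 < l.1 := hkl
      exact S.U_zero hv (ne_of_lt hkl') (fun h => lt_asymm hkl' h)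

theorem Tb1_entry (hn : D.IsN w n) (hn' : D.IsN w' n') {u : D.Gt p}
    (hu : u ∈ D.Ug p (D.Po y)) (k l : Fin N) (h : (n * u * n'⁻¹).1.1 k l ≠ 0) :
    D.wp l (D.wy w' y) ≤ D.wp k (D.wy w y) := by
  have h1 : ((n.1.1 * u.1.1) * (n'⁻¹).1.1) k l ≠ 0 := h
  rw [Matrix.mul_apply] at h1
  obtain ⟨b, -, hb⟩ := Finset.exists_ne_zero_of_sum_ne_zero h1
  have hb1 := left_ne_zero_of_mul hb
  have hb2 := right_ne_zero_of_mul hb
  rw [Matrix.mul_apply] at hb1
  obtain ⟨a, -, ha⟩ := Finset.exists_ne_zero_of_sum_ne_zero hb1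
  have ha1 := left_ne_zero_of_mul ha
  have ha2 := right_ne_zero_of_mul ha
  have e1 : D.wt k = D.wx w (D.wt a) := hn.2 k a ha1
  have e2 : D.wt b = D.wx w'⁻¹ (D.wt l) := (D.isN_inv hn').2 b l hb2
  have e3 : D.wp b y ≤ D.wp a y := by
    by_cases hab : a = b
    · rw [hab]
    · have h3 : u.1.1 a b ≠ (1 : Matrix (Fin N) (Fin N) ℚ_[p]) a b := by
        rw [Matrix.one_apply_ne hab]
        exact ha2
      exact (D.ug_supp_y (fun α hα => hα) hu h3).le
  have e4 : D.wp l (D.wy w' y) = D.wp b y := by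
    rw [D.wp_def, D.wp_def, e2, D.w_pa', inv_inv]
  have e5 : D.wp k (D.wy w y) = D.wp a y := by
    rw [D.wp_def, D.wp_def, e1, D.w_pa]
  rw [e4, e5]
  exact e3

theorem bruhat_ineq (hn : D.IsN w n) (hn' : D.IsN w' n') {b b' u v : D.Gt p} (hb : b ∈ D.Bg p)
    (hb' : b' ∈ D.Bg p) (hu : u ∈ D.Ug p (D.Po y)) (hv : v ∈ D.Ug p (D.Ne D.y0))
    (he : b * n * u = b' * v * n') (i : Fin N) :
    ∑ k ∈ Finset.univ.filter (fun k => i ≤ k), D.wp k (D.wy w' y) ≤
      ∑ k ∈ Finset.univ.filter (fun k => i ≤ k), D.wp k (D.wy w y) := by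
  have hc : b⁻¹ * b' ∈ D.Bg p := mul_mem (inv_mem hb) hb'
  have hY : n * u * n'⁻¹ = (b⁻¹ * b') * v := by
    have h2 : n * u = b⁻¹ * (b' * v * n') := by rw [← he]; group
    rw [h2]; group
  have hdet := Tb1_det (c := (b⁻¹ * b').1) (v := v.1) hc (D.ne_lo (fun α hα => hα) hv) i
  have hY' : ((b⁻¹ * b').1 * v.1 : SLp p N) = (n * u * n'⁻¹).1 := by
    rw [hY]
    rfl
  rw [hY', Matrix.det_apply] at hdet
  obtain ⟨ρ, _, hρ⟩ := Finset.exists_ne_zero_of_sum_ne_zero hdet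
  have hρ2 : ∏ k : {k : Fin N // i ≤ k}, ((n * u * n'⁻¹).1.1.submatrix
      (fun k : {k : Fin N // i ≤ k} => k.1) (fun k : {k : Fin N // i ≤ k} => k.1)) (ρ k) k ≠ 0 := by
    intro h0
    apply hρ
    rw [h0, smul_zero]
  rw [Finset.prod_ne_zero_iff] at hρ2
  have h3 : ∀ k : {k : Fin N // i ≤ k}, D.wp k.1 (D.wy w' y) ≤ D.wp (ρ k).1 (D.wy w y) := by
    intro k
    exact D.Tb1_entry hn hn' hu (ρ k).1 k.1 (hρ2 k (Finset.mem_univ _))
  rw [Tb1_sum i (fun k => D.wp k (D.wy w' y)), Tb1_sum i (fun k => D.wp k (D.wy w y)),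
    ← Equiv.sum_comp ρ (fun k : {k : Fin N // i ≤ k} => D.wp k.1 (D.wy w y))]
  exact Finset.sum_le_sum fun k _ => h3 k

theorem Tb1_pa_xi (z : Y) : D.pa D.xi z = ∑ k : Fin N, (((k : ℕ) : ℤ) + 1) * D.wp k z := by
  let f : X →+ ℤ := AddMonoidHom.mk' (fun x => D.pa x z) (fun a b => D.pa_add_left a b z)
  have h1 : f D.xi = ∑ k : Fin N, f ((((k : ℕ) : ℤ) + 1) • D.wt k) := map_sum f _ _
  have h2 : f D.xi = D.pa D.xi z := rfl
  rw [← h2, h1]
  refine Finset.sum_congr rfl fun k _ => ?_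
  show D.pa ((((k : ℕ) : ℤ) + 1) • D.wt k) z = _
  rw [D.pa_smul_left, D.wp_def]

theorem Tb1_dbl (f : Fin N → ℤ) : ∑ k : Fin N, (((k : ℕ) : ℤ) + 1) * f k =
    ∑ i : Fin N, ∑ k ∈ Finset.univ.filter (fun k => i ≤ k), f k := by
  have h1 : ∀ i : Fin N, ∑ k ∈ Finset.univ.filter (fun k => i ≤ k), f k =
      ∑ k : Fin N, if i ≤ k then f k else 0 := fun i => Finset.sum_filter _ _
  rw [Finset.sum_congr rfl fun i _ => h1 i, Finset.sum_comm]
  refine Finset.sum_congr rfl fun k _ => ?_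
  rw [← Finset.sum_filter, Finset.sum_const, nsmul_eq_mul]
  have h2 : Finset.univ.filter (fun i : Fin N => i ≤ k) = Finset.Iic k := by
    ext x; simp
  rw [h2, Fin.card_Iic]
  push_cast
  rfl

theorem hs_eq (hy : D.Reg y)
    (hi : ∀ i, ∑ k ∈ Finset.univ.filter (fun k => i ≤ k), D.wp k (D.wy w' y) ≤
      ∑ k ∈ Finset.univ.filter (fun k => i ≤ k), D.wp k (D.wy w y)) :
    D.HS y w < D.HS y w' ∨ w = w' := by
  by_cases h0 : D.HS y w < D.HS y w'
  · exact Or.inl h0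
  right
  have h1 : ∀ i : Fin N, ∑ k ∈ Finset.univ.filter (fun k => i ≤ k), D.wp k (D.wy w' y) =
      ∑ k ∈ Finset.univ.filter (fun k => i ≤ k), D.wp k (D.wy w y) := by
    unfold HS at h0
    rw [D.Tb1_pa_xi, D.Tb1_pa_xi, Tb1_dbl, Tb1_dbl] at h0
    have h3 := Finset.sum_le_sum (s := (Finset.univ : Finset (Fin N))) (fun i _ => hi i)
    have h2 := (Finset.sum_eq_sum_iff_of_le (s := (Finset.univ : Finset (Fin N)))
      (fun i _ => hi i)).mp (le_antisymm h3 (by linarith))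
    exact fun i => h2 i (Finset.mem_univ _)
  have h4 : ∀ (i : Fin N) (f : Fin N → ℤ), ∑ k ∈ Finset.univ.filter (fun k => i ≤ k), f k =
      f i + ∑ k ∈ Finset.univ.filter (fun k => i < k), f k := by
    intro i f
    have h5 : Finset.univ.filter (fun k => i ≤ k) =
        insert i (Finset.univ.filter (fun k => i < k)) := by
      ext x
      simp only [Finset.mem_filter, Finset.mem_univ, true_and, Finset.mem_insert]
      rw [le_iff_eq_or_lt, eq_comm]
    rw [h5, Finset.sum_insert (by simp)]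
  have h3 : ∀ m : ℕ, ∀ i : Fin N, N ≤ (i : ℕ) + m →
      D.wp i (D.wy w' y) = D.wp i (D.wy w y) := by
    intro m
    induction m with
    | zero => intro i hi'; exact absurd i.2 (by omega)
    | succ m ih =>
      intro i hi'
      have h5 := h1 i
      rw [h4, h4] at h5
      have h6 : ∑ k ∈ Finset.univ.filter (fun k => i < k), D.wp k (D.wy w' y) =
          ∑ k ∈ Finset.univ.filter (fun k => i < k), D.wp k (D.wy w y) := by
        refine Finset.sum_congr rfl fun k hk => ?_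
        refine ih k ?_
        have h7 : i < k := (Finset.mem_filter.mp hk).2
        have h8 : (i : ℕ) < (k : ℕ) := h7
        omega
      omega
  have h5 : ∀ i : Fin N, D.pa (D.wt i) (D.wy w y) = D.pa (D.wt i) (D.wy w' y) :=
    fun i => (h3 N i (by omega)).symm
  have h6 : ∀ x, D.pa x (D.wy w y) = D.pa x (D.wy w' y) := by
    intro x
    refine D.wt_ind (q := fun x => D.pa x (D.wy w y) = D.pa x (D.wy w' y)) ?_ h5 ?_ ?_ x
    · show D.pa 0 (D.wy w y) = D.pa 0 (D.wy w' y)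
      rw [D.pa_zero_left, D.pa_zero_left]
    · intro a b ha hb
      show D.pa (a + b) (D.wy w y) = D.pa (a + b) (D.wy w' y)
      rw [D.pa_add_left, D.pa_add_left, ha, hb]
    · intro a ha
      show D.pa (-a) (D.wy w y) = D.pa (-a) (D.wy w' y)
      rw [D.pa_neg_left, D.pa_neg_left, ha]
  exact D.w_y_inj hy (D.pa_ext_y h6)

theorem Tb1_key (y : Y) (w : D.W) : ∃ j : ℤ, 0 ≤ j ∧ j < (Nat.card D.W : ℤ) ∧
    D.key y w = D.HS y w * (Nat.card D.W : ℤ) + j := by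
  haveI := D.w_finite
  refine ⟨((Finite.equivFin D.W w : ℕ) : ℤ), Int.natCast_nonneg _, ?_, rfl⟩
  exact_mod_cast (Finite.equivFin D.W w).2

theorem key_lt (hl : D.HS y w < D.HS y w') : D.key y w < D.key y w' := by
  obtain ⟨j, hj0, hj1, hj⟩ := D.Tb1_key y w
  obtain ⟨j', hj0', hj1', hj'⟩ := D.Tb1_key y w'
  rw [hj, hj']
  have h2 : (D.HS y w + 1) * (Nat.card D.W : ℤ) ≤ D.HS y w' * (Nat.card D.W : ℤ) :=
    mul_le_mul_of_nonneg_right (by omega) (Int.natCast_nonneg _)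
  rw [add_mul, one_mul] at h2
  linarith

theorem key_inj (hl : D.key y w = D.key y w') : w = w' := by
  have h1 : D.HS y w = D.HS y w' := by
    rcases lt_trichotomy (D.HS y w) (D.HS y w') with h2 | h2 | h2
    · exact absurd hl (ne_of_lt (D.key_lt h2))
    · exact h2
    · exact absurd hl.symm (ne_of_lt (D.key_lt h2))
  haveI := D.w_finite
  have h3 : D.HS y w * (Nat.card D.W : ℤ) + ((Finite.equivFin D.W w : ℕ) : ℤ) =
      D.HS y w' * (Nat.card D.W : ℤ) + ((Finite.equivFin D.W w' : ℕ) : ℤ) := hl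
  rw [h1] at h3
  have h4 : ((Finite.equivFin D.W w : ℕ) : ℤ) = ((Finite.equivFin D.W w' : ℕ) : ℤ) :=
    add_left_cancel h3
  exact (Finite.equivFin D.W).injective (Fin.ext (by exact_mod_cast h4))

theorem Tb1_perm (α : ι) : ∃ σ : Equiv.Perm (Fin N), ∀ k, D.wt (σ k) = D.rx α (D.wt k) := by
  haveI : Fact (Nat.Prime 2) := ⟨Nat.prime_two⟩
  obtain ⟨σ, hσ⟩ := D.isN_perm (D.isN_sg (p := 2) α)
  exact ⟨σ, fun k => (hσ k).2⟩

theorem Tb1_anti : Antitone (fun k : Fin N => D.wp k D.y0) := by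
  intro i j hij
  show D.wp j D.y0 ≤ D.wp i D.y0
  by_contra hlt
  have h1 : j < i := D.sorted j i (not_le.1 hlt)
  exact absurd hij (not_le.2 h1)

theorem xi_neg {α : ι} (hα : 0 < D.pr α D.y0) : D.pa D.xi (D.co α) < 0 := by
  obtain ⟨σ, hσ⟩ := D.Tb1_perm α
  have hav : Antivary (fun k : Fin N => (((k : ℕ) : ℤ) + 1)) (fun k : Fin N => D.wp k D.y0) := by
    intro i j hij
    have h1 : j < i := by
      by_contra h2
      exact absurd (D.Tb1_anti (not_lt.1 h2)) (not_le.2 hij)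
    have h2 : (j : ℕ) < (i : ℕ) := h1
    show (((j : ℕ) : ℤ) + 1) ≤ (((i : ℕ) : ℤ) + 1)
    omega
  have e1 : D.pa D.xi D.y0 = ∑ k : Fin N, (((k : ℕ) : ℤ) + 1) * D.wp k D.y0 := D.Tb1_pa_xi D.y0
  have e2 : D.pa D.xi (D.ry α D.y0) = ∑ k : Fin N, (((k : ℕ) : ℤ) + 1) * D.wp (σ k) D.y0 := by
    rw [D.Tb1_pa_xi]
    refine Finset.sum_congr rfl fun k _ => ?_
    rw [D.wp_def, D.wp_def, hσ k, D.pa_rx']
  have e3 : D.pa D.xi (D.ry α D.y0) = D.pa D.xi D.y0 - D.pr α D.y0 * D.pa D.xi (D.co α) := by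
    rw [D.ry_apply, D.pa_sub_right, D.pa_smul_right]
  have h1 := hav.sum_mul_le_sum_mul_comp_perm (σ := σ)
  have h1' : D.pa D.xi D.y0 ≤ D.pa D.xi (D.ry α D.y0) := by
    rw [e1, e2]
    exact h1
  have h2 : D.pr α D.y0 * D.pa D.xi (D.co α) ≤ 0 := by linarith
  have h3 : D.pa D.xi (D.co α) ≤ 0 := by
    by_contra h4
    have h5 := mul_pos hα (not_le.1 h4)
    linarith
  rcases lt_or_eq_of_le h3 with h4 | h4
  · exact h4
  exfalso
  rw [h4, mul_zero, sub_zero] at e3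
  have h5 : ∑ k : Fin N, (((k : ℕ) : ℤ) + 1) * D.wp (σ k) D.y0 =
      ∑ k : Fin N, (((k : ℕ) : ℤ) + 1) * D.wp k D.y0 := by
    rw [← e1, ← e2, e3]
  have h6 : Antivary (fun k : Fin N => (((k : ℕ) : ℤ) + 1))
      ((fun k : Fin N => D.wp k D.y0) ∘ σ) :=
    (hav.sum_mul_eq_sum_mul_comp_perm_iff (σ := σ)).1 h5
  have h7 : Antitone ((fun k : Fin N => D.wp k D.y0) ∘ σ) := by
    intro i j hij
    by_contra hlt
    have h8 := h6 (not_le.1 hlt)
    have h9 : (((j : ℕ) : ℤ) + 1) ≤ (((i : ℕ) : ℤ) + 1) := h8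
    have h10 : (i : ℕ) ≤ (j : ℕ) := hij
    have h11 : i = j := Fin.ext (by omega)
    rw [h11] at hlt
    exact hlt le_rfl
  have h8 : (fun k : Fin N => D.wp k D.y0) ∘ σ =
      (fun k : Fin N => D.wp k D.y0) ∘ (1 : Equiv.Perm (Fin N)) :=
    Tuple.unique_antitone h7 D.Tb1_anti
  have h9 : ∀ k : Fin N, D.pa (D.rx α (D.wt k)) D.y0 = D.pa (D.wt k) D.y0 := by
    intro k
    have h10 := congrFun h8 k
    have h11 : D.wp (σ k) D.y0 = D.wp k D.y0 := h10
    rw [D.wp_def, D.wp_def, hσ k] at h11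
    exact h11
  have h10 : ∀ x, D.pa (D.rx α x) D.y0 = D.pa x D.y0 := by
    intro x
    refine D.wt_ind (q := fun x => D.pa (D.rx α x) D.y0 = D.pa x D.y0) ?_ h9 ?_ ?_ x
    · show D.pa (D.rx α 0) D.y0 = D.pa 0 D.y0
      rw [D.pa_rx', D.pa_zero_left, D.pa_zero_left]
    · intro a b ha hb
      show D.pa (D.rx α (a + b)) D.y0 = D.pa (a + b) D.y0
      rw [D.rx_add, D.pa_add_left, D.pa_add_left, ha, hb]
    · intro a ha
      show D.pa (D.rx α (-a)) D.y0 = D.pa (-a) D.y0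
      rw [D.pa_rx'] at ha
      rw [D.pa_rx', D.pa_neg_left, D.pa_neg_left, ha]
  have h11 := h10 (D.rt α)
  rw [← D.rt_rf', D.rf_self, ← D.pr_def, D.pr_ng, ← D.pr_def] at h11
  omega

theorem Tb1_max (hy : D.Srt h y) (hst : D.Stb h w)
    (hmax : ∀ w' : D.W, D.Stb h w' → D.pa D.xi (D.wy w' y) ≤ D.pa D.xi (D.wy w y)) : w = 1 := by
  have hreg := D.reg_wy (D.srt_reg hy) w
  have hA : ∀ α : ι, h (D.rt α) = 0 → 0 < D.pr α D.y0 → D.pr α (D.wy w y) < 0 := by
    intro α h0 h1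
    have h2 := hmax (D.sg α * w) (D.stb_mul (D.stb_sg h0) hst)
    rw [D.wy_mul, D.wy_sg, D.ry_apply, D.pa_sub_right, D.pa_smul_right] at h2
    have h3 := D.xi_neg h1
    have h4 := hreg α
    by_contra h5
    have h6 : 0 < D.pr α (D.wy w y) := lt_of_le_of_ne (not_lt.1 h5) (Ne.symm h4)
    have h7 := mul_neg_of_pos_of_neg h6 h3
    linarith
  have hB : w⁻¹ = 1 := by
    refine D.w_stab (D.srt_reg hy) fun β hβ => ?_
    rcases (hy β).1 hβ with h1 | ⟨h1, h2⟩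
    · refine (hy _).2 (Or.inl ?_)
      rw [D.w_rt, D.stb_inv hst]
      exact h1
    · rw [D.w_pr', inv_inv]
      have h3 := hA (D.ng β) (by rw [D.rt_ng, map_neg, h1, neg_zero]) (by rw [D.pr_ng]; omega)
      rw [D.pr_ng] at h3
      omega
  exact inv_eq_one.1 hB

theorem hs_one (hy : D.Srt h y) (hst : D.Stb h w) : D.HS y 1 < D.HS y w ∨ w = 1 := by
  haveI := D.w_finite
  obtain ⟨m, hm, hmax⟩ := Set.exists_max_image {w : D.W | D.Stb h w}
    (fun w => D.pa D.xi (D.wy w y)) (Set.toFinite _) ⟨1, D.stb_one⟩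
  have hm1 : m = 1 := D.Tb1_max hy hm (fun w' hw' => hmax w' hw')
  rcases lt_or_ge (D.pa D.xi (D.wy w y)) (D.pa D.xi (D.wy m y)) with h1 | h1
  · left
    unfold HS
    rw [hm1] at h1
    linarith
  · right
    exact D.Tb1_max hy hst (fun w' hw' => (hmax w' hw').trans h1)

theorem adj_exists (hy : D.Srt h y) (hst : D.Stb h w) (h1 : w ≠ 1) :
    ∃ δ, 0 < D.pr δ y ∧ h (D.rt δ) = 0 ∧ 0 < D.pr (D.wr w δ) D.y0 := by
  by_contra hno
  apply h1
  refine D.w_stab (D.srt_reg hy) fun β hβ => ?_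
  have h2 : h (D.rt (D.wr w β)) = h (D.rt β) := by
    rw [D.w_rt]
    exact hst _
  rcases (hy β).1 hβ with h3 | ⟨h3, h4⟩
  · refine (hy _).2 (Or.inl ?_)
    rw [h2]
    exact h3
  · refine (hy _).2 (Or.inr ⟨by rw [h2, h3], ?_⟩)
    have h5 : ¬ 0 < D.pr (D.wr w β) D.y0 := fun h6 => hno ⟨β, hβ, h3, h6⟩
    have h6 := D.reg_y0 (D.wr w β)
    omega

end Ctx

end

end Pool.Agent.Lib.MP_f399a8_nt.G
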