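import Pool.Agent.Lib.MP_f399a8_ntG.Ta1

/-!
# Decomposition of `Ug (Po y)` at a stratum

`Ast y w`: the roots positive on `y` which `w` makes positive for `y0`; `Fst y w`: those which `w` makes negative for `y0`.
(The same for `SL_n`: file `MP_f399a8_ntS.TiC`.)

PROOF.
* `ast_cl`, `fst_cl`: `pr_add`; `rt (wr w γ) = rt (wr w α) + rt (wr w β)` by `w_rt`, `wx_add`.
* `ast_sub`, `fst_sub`: inclusions in `Po y`.  `fst_one`: `wr_one`.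
* `as_fs`: `ug_fac` for `S' = Po y` and `z = wy w⁻¹ y0` (regular: `reg_wy`, `reg_y0`): `0 < pr (wr w α) y0 ↔ 0 < pr α (wy w⁻¹ y0)` (`w_pr'`).
* `as_unique`: `ug_fac_unique` for `z = wy w⁻¹ y0`.
* `as_Bp`: `n * a * n⁻¹ ∈ Ug (wr w '' Ast) ⊆ Ug (Po y0)` (`isN_ug`, `ug_mono`).  `fs_Lo`: similarly.
* `as_left`: `n * (a * z) = (n * a * n⁻¹) * (n * z)` and `cb_ug`, `po_bg`.
* `mon_two`: `isN_quot`.
-/

namespace Pool.Agent.Lib.MP_f399a8_nt.G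

open Matrix Filter Topology

noncomputable section

namespace Ctx

variable {ι X Y : Type*} [Finite ι] [AddCommGroup X] [AddCommGroup Y] {N : ℕ} (D : Ctx ι X Y N)
  {p : ℕ} [Fact p.Prime] {C : Type*} [NormedField C] {y : Y} {w : D.W} {n : D.Gt p}

/-- the roots which are positive on `y` and which `w` makes positive for the Borel subgroup -/
def Ast (y : Y) (w : D.W) : Set ι := {α | 0 < D.pr α y ∧ 0 < D.pr (D.wr w α) D.y0}

/-- the roots which are positive on `y` and which `w` makes negative for the Borel subgroup -/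
def Fst (y : Y) (w : D.W) : Set ι := {α | 0 < D.pr α y ∧ D.pr (D.wr w α) D.y0 < 0}

theorem Tc1_rt {α β γ : ι} (h : D.rt γ = D.rt α + D.rt β) (w : D.W) :
    D.rt (D.wr w γ) = D.rt (D.wr w α) + D.rt (D.wr w β) := by
  rw [D.w_rt, D.w_rt, D.w_rt, h, D.wx_add]

theorem ast_cl (y : Y) (w : D.W) : D.Cl (D.Ast y w) := by
  intro α hα β hβ γ hγ
  refine ⟨?_, ?_⟩
  · rw [D.pr_add hγ]
    exact add_pos hα.1 hβ.1
  · rw [D.pr_add (D.Tc1_rt hγ w)]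
    exact add_pos hα.2 hβ.2

theorem fst_cl (y : Y) (w : D.W) : D.Cl (D.Fst y w) := by
  intro α hα β hβ γ hγ
  refine ⟨?_, ?_⟩
  · rw [D.pr_add hγ]
    exact add_pos hα.1 hβ.1
  · rw [D.pr_add (D.Tc1_rt hγ w)]
    exact add_neg hα.2 hβ.2

theorem ast_sub (y : Y) (w : D.W) : D.Ast y w ⊆ D.Po y := fun _ h => h.1

theorem fst_sub (y : Y) (w : D.W) : D.Fst y w ⊆ D.Po y := fun _ h => h.1

theorem fst_one (y : Y) : D.Fst y 1 = D.Dr y := rfl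

theorem as_fs (w : D.W) {z : D.Gt p} (hz : z ∈ D.Ug p (D.Po y)) :
    ∃ a ∈ D.Ug p (D.Ast y w), ∃ f ∈ D.Ug p (D.Fst y w), z = a * f ∧
      (z ∈ D.Kg p → a ∈ D.Kg p ∧ f ∈ D.Kg p) := by
  obtain ⟨a, ha, f, hf, h1, h2, -⟩ := D.ug_fac (D.cl_po y) (fun α hα => hα) (z := D.wy w⁻¹ D.y0)
    (fun α _ => D.reg_wy D.reg_y0 w⁻¹ α) hz
  refine ⟨a, D.ug_mono ?_ ha, f, D.ug_mono ?_ hf, h1, h2⟩
  · intro α hα
    refine ⟨hα.1, ?_⟩
    rw [D.w_pr']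
    exact hα.2
  · intro α hα
    refine ⟨hα.1, ?_⟩
    rw [D.w_pr']
    exact hα.2

theorem as_unique {a a' f f' : D.Gt p} (ha : a ∈ D.Ug p (D.Ast y w))
    (ha' : a' ∈ D.Ug p (D.Ast y w)) (hf : f ∈ D.Ug p (D.Fst y w))
    (hf' : f' ∈ D.Ug p (D.Fst y w)) (he : a * f = a' * f') : a = a' ∧ f = f' := by
  refine D.ug_fac_unique (z := D.wy w⁻¹ D.y0) ?_ ?_ ha ha' hf hf' he
  · intro α hα
    rw [← D.w_pr']
    exact hα.2
  · intro α hα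
    rw [← D.w_pr']
    exact hα.2

theorem as_Bp (hn : D.IsN w n) {a : D.Gt p} (ha : a ∈ D.Ug p (D.Ast y w)) :
    n * a * n⁻¹ ∈ D.Ug p (D.Po D.y0) := by
  refine D.ug_mono ?_ (D.isN_ug hn ha)
  rintro _ ⟨α, hα, rfl⟩
  exact hα.2

theorem fs_Lo (hn : D.IsN w n) {f : D.Gt p} (hf : f ∈ D.Ug p (D.Fst y w)) :
    n * f * n⁻¹ ∈ D.Ug p (D.Ne D.y0) := by
  refine D.ug_mono ?_ (D.isN_ug hn hf)
  rintro _ ⟨α, hα, rfl⟩
  exact hα.2

theorem as_left {χ : ↥(D.Tg p) →* Cˣ} {φ : D.Gt p → C}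
    (hφ : ∀ b ∈ D.Bg p, ∀ x, φ (b * x) = D.cb χ b * φ x) (hn : D.IsN w n)
    {a : D.Gt p} (ha : a ∈ D.Ug p (D.Ast y w)) (z : D.Gt p) : φ (n * (a * z)) = φ (n * z) := by
  have h1 : n * (a * z) = (n * a * n⁻¹) * (n * z) := by group
  have h2 := D.as_Bp hn ha
  have h3 : ∀ α ∈ D.Po D.y0, 0 < D.pr α D.y0 := fun α hα => hα
  rw [h1, hφ _ (D.po_bg h3 h2), D.cb_ug χ h3 h2, one_mul]

theorem mon_two {n' : D.Gt p} (hn : D.IsN w n) (hn' : D.IsN w n') :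
    ∃ t ∈ D.Tg p, t ∈ D.Kg p ∧ n' = t * n := by
  exact D.isN_quot hn' hn

end Ctx

end

end Pool.Agent.Lib.MP_f399a8_nt.G
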