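import Pool.Agent.Lib.MP_f399a8_ntG.Ta2
import Pool.Agent.Lib.MP_f399a8_ntG.Tb1
import Pool.Agent.Lib.MP_f399a8_ntG.Tc1

/-!
# Vanishing at infinity on a stratum

(The same for `SL_n`: file `MP_f399a8_ntS.TiD`; copy and adapt.)

PROOF of `n_cont`: suppose `b_q * u_q → b * u` with `b_q, b ∈ Bg`, `u_q, u ∈ Ug (Ne y0)`; then `u_q → u`.  Let `y_q = (b u)⁻¹ * (b_q u_q) → 1` and
`y'_q = u * y_q * u⁻¹ → 1`: `b⁻¹ * b_q * (u_q * u⁻¹) = y'_q`.  For every `m ≥ 1`, `q` large, `y'_q ∈ Kmg m`, so `y'_q = b'' * n''` with `n'' ∈ Ug (Ne y0) ∩ Kmg m`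
(`cellG`) and by `bu_uniq` `u_q * u⁻¹ = n''`.  So `u_q * u⁻¹ → 1`.
PROOF of `c0_strat`.  Let `A` bound `f` on `Kg`, and suppose the set is not bounded: there are `u_q ∈ Ug (Fst y w)` (`q : ℕ`) with `δ ≤ ‖f (n * u_q)‖` and some entry
of norm `> q`.  Write `n * u_q = b_q * κ_q` (`iwasawa`); let `r_q = ‖cb χ b_q‖ = Om h (n * u_q) ≤ 1` (`om_dd`), `‖f (n * u_q)‖ = r_q * ‖f κ_q‖`, so
`r_q ≥ δ / A`.  By compactness pass to a subsequence: `κ_q → κ ∈ Kg`, `r_q → r ∈ [δ/A, 1]`.  Let `e` be as in `con_exists`, `t = cc e (pp p)`.  For each `M`: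
`Om h (t^M κ_q t^-M) = Om h (t^M (n u_q) t^-M) / r_q ≤ 1 / r_q` (`cb_conj`, `om_cb`; `n u_q ∈ DD`; `t^M (n u_q) t^-M = n * (t^M u_q t^-M) ∈ DD`: `t^M * n * t^-M = n` by
`stab_e`, `isN_cc`), so `Om h (t^M κ t^-M) ≤ 1 / r` (`om_cont`).  `D2`: `κ = b * n' * u'`, `IsN w' n'`, `Stb h w'`, `u' ∈ Ug (Po y)`.  For `M` large
`Om h (t^M κ t^-M) = ‖cb χ b‖` (`om_lim`, `om_cb`, `cb_conj`), so `‖cb χ b‖ ≤ 1 / r`.  `‖f κ‖ = lim ‖f κ_q‖ ≥ lim δ / r_q = δ / r`, so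
`‖f (n' * u')‖ = ‖f κ‖ / ‖cb χ b‖ ≥ δ`.  By hypothesis not `key y w < key y w'`.
Decompose `u' = a' * f'` (`as_fs` for `w'`): `n' * u' = (n' a' n'⁻¹) * (n' f' n'⁻¹) * n'`, so `κ * n'⁻¹ ∈ Bg * Ug (Ne y0)` (`as_Bp`, `fs_Lo`), and
`κ_q = b_q⁻¹ * n * u_q → κ`.  `κ⁻¹ * κ_q → 1`, so for `q` large `κ_q = κ * z`, `κ_q * n'⁻¹ = (κ * n'⁻¹) * (n' * z * n'⁻¹) ∈ Bg * Ug (Ne y0)` by `cellG` (conjugate the
small element by the `Ug (Ne y0)` part: `b₁ * u₁ * z'' = b₁ * (u₁ z'' u₁⁻¹) * u₁`, `u₁ z'' u₁⁻¹` small, so in `Bg * Ug (Ne y0)`).  So `b_q⁻¹ * n * u_q = b'' * v'' * n'` and by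
`bruhat_ineq`, `hs_eq` (`srt_reg`), `key_lt`: `key y w < key y w'` or `w = w'`.  Hence `w = w'`.  Then by `mon_two` `n' = t' * n`, `κ = b₁ * n * f'` with `b₁ ∈ Bg`,
`f' ∈ Ug (Fst y w)` (absorb `t'` and `a'`), and `b_q⁻¹ * (n u_q n⁻¹) * n → b₁ * (n f' n⁻¹) * n`.  By `n_cont` (`fs_Lo`) `n u_q n⁻¹ → n f' n⁻¹`, so `u_q` converges,
which contradicts the unboundedness.
-/

namespace Pool.Agent.Lib.MP_f399a8_nt.G

open Matrix Filter Topology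

noncomputable section

namespace Ctx

variable {ι X Y : Type*} [Finite ι] [AddCommGroup X] [AddCommGroup Y] {N : ℕ} (D : Ctx ι X Y N)
  {p : ℕ} [Fact p.Prime] {C : Type*} [NormedField C]

theorem Td1_nc {κ : Type*} {F : Filter κ} {b u : D.Gt p} {bs us : κ → D.Gt p}
    (hb : b ∈ D.Bg p) (hu : u ∈ D.Ug p (D.Ne D.y0)) (hbs : ∀ q, bs q ∈ D.Bg p)
    (hus : ∀ q, us q ∈ D.Ug p (D.Ne D.y0))
    (h : Tendsto (fun q => bs q * us q) F (𝓝 (b * u))) : Tendsto us F (𝓝 u) := by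
  have h1 : Tendsto (fun q => b⁻¹ * (bs q * us q) * u⁻¹) F (𝓝 1) := by
    have h2 : Tendsto (fun q => b⁻¹ * (bs q * us q) * u⁻¹) F (𝓝 (b⁻¹ * (b * u) * u⁻¹)) :=
      (tendsto_const_nhds.mul h).mul tendsto_const_nhds
    have h3 : b⁻¹ * (b * u) * u⁻¹ = 1 := by group
    rwa [h3] at h2
  have h4 : Tendsto (fun q => us q * u⁻¹) F (𝓝 1) := by
    rw [tendsto_def]
    intro s hs
    obtain ⟨m, hm⟩ := D.kmg_nhds hs
    have h5 : (D.Kmg p (m + 1) : Set (D.Gt p)) ∈ 𝓝 (1 : D.Gt p) :=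
      (D.kmg_open p (m + 1)).mem_nhds (D.Kmg p (m + 1)).one_mem
    filter_upwards [h1 h5] with q hq
    have hq' : b⁻¹ * (bs q * us q) * u⁻¹ ∈ D.Kmg p (m + 1) := hq
    obtain ⟨b'', hb'', n'', hn'', he, _, hnm⟩ := D.cellG (Nat.le_add_left 1 m) hq'
    have h6 : (b⁻¹ * bs q) * (us q * u⁻¹) = b'' * n'' := by
      rw [← he]; group
    have h7 := (D.bu_uniq (mul_mem (inv_mem hb) (hbs q)) hb''
      (mul_mem (hus q) (inv_mem hu)) hn'' h6).2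
    show us q * u⁻¹ ∈ s
    rw [h7]
    exact hm _ (D.kmg_anti (Nat.le_succ m) hnm)
  have h8 : Tendsto (fun q => us q * u⁻¹ * u) F (𝓝 (1 * u)) := h4.mul tendsto_const_nhds
  simpa using h8

/-- `t^M * n * t^-M = n` for representatives of elements preserving the slopes -/
theorem Td1_tw {h : X →+ ℝ} {e : Y} (hc : D.Con h e) {w : D.W} {n : D.Gt p}
    (hn : D.IsN w n) (hst : D.Stb h w) (M : ℕ) :
    (D.cc p e (pp p)) ^ M * n * ((D.cc p e (pp p)) ^ M)⁻¹ = n := by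
  have h1 : n * D.cc p e (pp p) * n⁻¹ = D.cc p e (pp p) := by
    rw [D.isN_cc hn, D.stab_e hc hst]
  have h2 : Commute n (D.cc p e (pp p)) := by
    show n * D.cc p e (pp p) = D.cc p e (pp p) * n
    exact mul_inv_eq_iff_eq_mul.1 h1
  have h3 : (D.cc p e (pp p)) ^ M * n = n * (D.cc p e (pp p)) ^ M := (h2.pow_right M).eq.symm
  rw [h3, mul_inv_cancel_right]

theorem Td1_dd {h : X →+ ℝ} {e y : Y} (hc : D.Con h e) {w : D.W} {n : D.Gt p}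
    (hn : D.IsN w n) (hst : D.Stb h w) (M : ℕ) {u : D.Gt p} (hu : u ∈ D.Ug p (D.Po y)) :
    (D.cc p e (pp p)) ^ M * (n * u) * ((D.cc p e (pp p)) ^ M)⁻¹ ∈ D.DD p h y := by
  have htM : (D.cc p e (pp p)) ^ M ∈ D.Tg p := pow_mem (D.cc_torus p e (pp p)) M
  refine ⟨w, n, (D.cc p e (pp p)) ^ M * u * ((D.cc p e (pp p)) ^ M)⁻¹, hn, hst,
    (D.tg_ug htM hu).1, ?_⟩
  have h1 := D.Td1_tw hc hn hst M
  calc (D.cc p e (pp p)) ^ M * (n * u) * ((D.cc p e (pp p)) ^ M)⁻¹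
      = ((D.cc p e (pp p)) ^ M * n * ((D.cc p e (pp p)) ^ M)⁻¹) *
        ((D.cc p e (pp p)) ^ M * u * ((D.cc p e (pp p)) ^ M)⁻¹) := by group
    _ = n * ((D.cc p e (pp p)) ^ M * u * ((D.cc p e (pp p)) ^ M)⁻¹) := by rw [h1]

theorem Td1_om {χ : ↥(D.Tg p) →* Cˣ} {h : X →+ ℝ} (hs : D.Slope χ h) {t : D.Gt p}
    (ht : t ∈ D.Tg p) (M : ℕ) {b : D.Gt p} (hb : b ∈ D.Bg p) (x : D.Gt p) :
    D.Om h (t ^ M * (b * x) * (t ^ M)⁻¹) = ‖D.cb χ b‖ * D.Om h (t ^ M * x * (t ^ M)⁻¹) := by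
  have hd : t ^ M ∈ D.Tg p := pow_mem ht M
  have htB : t ^ M ∈ D.Bg p := D.tg_bg hd
  have h1 : t ^ M * (b * x) * (t ^ M)⁻¹ = (t ^ M * b * (t ^ M)⁻¹) * (t ^ M * x * (t ^ M)⁻¹) := by
    group
  rw [h1, D.om_cb hs (mul_mem (mul_mem htB hb) (inv_mem htB)), (D.cb_conj χ hd hb).1]

theorem n_cont {b u : D.Gt p} {bs us : ℕ → D.Gt p} (hb : b ∈ D.Bg p)
    (hu : u ∈ D.Ug p (D.Ne D.y0)) (hbs : ∀ q, bs q ∈ D.Bg p)
    (hus : ∀ q, us q ∈ D.Ug p (D.Ne D.y0))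
    (hl : Tendsto (fun q => bs q * us q) atTop (𝓝 (b * u))) : Tendsto us atTop (𝓝 u) := by
  exact D.Td1_nc hb hu hbs hus hl

theorem c0_strat {χ : ↥(D.Tg p) →* Cˣ} {h : X →+ ℝ} {y : Y} (hs : D.Slope χ h)
    (hy : D.Srt h y) {f : D.Gt p → C} (hf : D.PS χ f)
    {w : D.W} {n : D.Gt p} (hn : D.IsN w n) (hst : D.Stb h w) {δ : ℝ} (hδ : 0 < δ)
    (hz : ∀ (w' : D.W) (n' : D.Gt p), D.IsN w' n' → D.Stb h w' →
      D.key y w < D.key y w' → ∀ u ∈ D.Ug p (D.Po y), ‖f (n' * u)‖ < δ) :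
    ∃ A : ℝ, ∀ u ∈ D.Ug p (D.Fst y w), δ ≤ ‖f (n * u)‖ → ∀ i j, ‖u.1.1 i j‖ ≤ A := by
  by_contra hcon
  push Not at hcon
  obtain ⟨hfc, hfe⟩ := hf
  have hcon' : ∀ q : ℕ, ∃ u ∈ D.Ug p (D.Fst y w), δ ≤ ‖f (n * u)‖ ∧
      ∃ i j, (q : ℝ) < ‖u.1.1 i j‖ := fun q => hcon q
  choose us hus hfs hij using hcon'
  have hord : ∀ q, us q ∈ D.Ug p (D.Po y) := fun q => D.ug_mono (D.fst_sub y w) (hus q)
  have hiw : ∀ q : ℕ, ∃ b ∈ D.Bg p, ∃ k ∈ D.Kg p, n * us q = b * k := fun q => D.iwasawa _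
  choose bs hbs ks hks hbk using hiw
  obtain ⟨A0, hA0, hA⟩ := D.ps_bdd hfc
  obtain ⟨e, hc⟩ := D.con_exists h
  obtain ⟨t, ht⟩ : ∃ t, t = D.cc p e (pp p) := ⟨_, rfl⟩
  have htT : t ∈ D.Tg p := by
    rw [ht]
    exact D.cc_torus p _ _
  have hfk : ∀ q, ‖f (n * us q)‖ = ‖D.cb χ (bs q)‖ * ‖f (ks q)‖ := by
    intro q
    rw [hbk q, hfe _ (hbs q), norm_mul]
  have hr1 : ∀ q, ‖D.cb χ (bs q)‖ ≤ 1 := by
    intro q
    have h1 : D.Om h (n * us q) ≤ 1 :=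
      D.om_dd hy ⟨w, n, us q, hn, hst, hord q, rfl⟩
    rwa [hbk q, D.om_cb hs (hbs q), D.om_kg h (hks q), mul_one] at h1
  have hr2 : ∀ q, δ / A0 ≤ ‖D.cb χ (bs q)‖ := by
    intro q
    rw [div_le_iff₀ hA0]
    calc δ ≤ ‖f (n * us q)‖ := hfs q
      _ = ‖D.cb χ (bs q)‖ * ‖f (ks q)‖ := hfk q
      _ ≤ ‖D.cb χ (bs q)‖ * A0 := mul_le_mul_of_nonneg_left (hA _ (hks q)) (norm_nonneg _)
  -- the ultrafilter limit
  obtain ⟨F, hF, hFn, κ, hκ, hκl, r, hr0, hrl⟩ : ∃ F : Filter ℕ, F ≤ atTop ∧ F.NeBot ∧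
      ∃ κ ∈ D.Kg p, Tendsto ks F (𝓝 κ) ∧ ∃ r : ℝ, 0 < r ∧
        Tendsto (fun q => ‖D.cb χ (bs q)‖) F (𝓝 r) := by
    refine ⟨(hyperfilter ℕ : Filter ℕ), Nat.hyperfilter_le_atTop, inferInstance, ?_⟩
    obtain ⟨κ, hκ, hκl⟩ := (D.kg_compact p).ultrafilter_le_nhds ((hyperfilter ℕ).map ks)
      (by
        rw [Filter.le_principal_iff]
        exact Filter.mem_map.2 (Filter.univ_mem' fun q => hks q))
    obtain ⟨r, hr, hrl⟩ := (isCompact_Icc (a := δ / A0) (b := (1 : ℝ))).ultrafilter_le_nhds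
      ((hyperfilter ℕ).map fun q => ‖D.cb χ (bs q)‖)
      (by
        rw [Filter.le_principal_iff]
        exact Filter.mem_map.2 (Filter.univ_mem' fun q => ⟨hr2 q, hr1 q⟩))
    exact ⟨κ, hκ, hκl, r, lt_of_lt_of_le (div_pos hδ hA0) hr.1, hrl⟩
  have hOm : ∀ M : ℕ, D.Om h (t ^ M * κ * (t ^ M)⁻¹) ≤ r⁻¹ := by
    intro M
    have h1 : ∀ q, ‖D.cb χ (bs q)‖ * D.Om h (t ^ M * ks q * (t ^ M)⁻¹) ≤ 1 := by
      intro q
      rw [← D.Td1_om hs htT M (hbs q), ← hbk q]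
      refine D.om_dd hy ?_
      rw [ht]
      exact D.Td1_dd hc hn hst M (hord q)
    have h2 : Tendsto (fun q => ‖D.cb χ (bs q)‖ * D.Om h (t ^ M * ks q * (t ^ M)⁻¹)) F
        (𝓝 (r * D.Om h (t ^ M * κ * (t ^ M)⁻¹))) := by
      refine hrl.mul ?_
      have h3 : Continuous fun x : D.Gt p => D.Om h (t ^ M * x * (t ^ M)⁻¹) :=
        (D.om_cont p h).comp ((continuous_const.mul continuous_id).mul continuous_const)
      exact (h3.tendsto κ).comp hκl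
    have h4 := le_of_tendsto' h2 h1
    rw [← mul_one r⁻¹, ← div_eq_inv_mul, le_div_iff₀ hr0, mul_comm]
    exact h4
  obtain ⟨b, hb, w', n', hn', hst', u', hu', hκe⟩ := D.D2 hc hy κ r⁻¹ (by rw [← ht]; exact hOm)
  have hcb : ‖D.cb χ b‖ * r ≤ 1 := by
    obtain ⟨M0, hM0⟩ := D.om_lim hc hy hn' hst' hu'
    have h1 := hOm M0
    have h2 := hM0 M0 le_rfl
    rw [← ht] at h2
    rw [hκe, mul_assoc b, D.Td1_om hs htT M0 hb, h2, mul_one] at h1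
    calc ‖D.cb χ b‖ * r ≤ r⁻¹ * r := mul_le_mul_of_nonneg_right h1 hr0.le
      _ = 1 := inv_mul_cancel₀ hr0.ne'
  have hfδ : δ ≤ ‖f (n' * u')‖ := by
    have h1 : Tendsto (fun q => ‖D.cb χ (bs q)‖ * ‖f (ks q)‖) F (𝓝 (r * ‖f κ‖)) :=
      hrl.mul ((hfc.norm.tendsto κ).comp hκl)
    have h2 : δ ≤ r * ‖f κ‖ := ge_of_tendsto' h1 fun q => by rw [← hfk q]; exact hfs q
    have h3 : ‖f κ‖ = ‖D.cb χ b‖ * ‖f (n' * u')‖ := by
      rw [hκe, mul_assoc b, hfe _ hb, norm_mul]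
    calc δ ≤ r * ‖f κ‖ := h2
      _ = (‖D.cb χ b‖ * r) * ‖f (n' * u')‖ := by rw [h3]; ring
      _ ≤ 1 * ‖f (n' * u')‖ := mul_le_mul_of_nonneg_right hcb (norm_nonneg _)
      _ = ‖f (n' * u')‖ := one_mul _
  have hkey : ¬ D.key y w < D.key y w' := fun h =>
    absurd (hz w' n' hn' hst' h u' hu') (not_lt.2 hfδ)
  obtain ⟨a', ha', f', hf', hu'e, _⟩ := D.as_fs w' hu'
  have ha1 : n' * a' * n'⁻¹ ∈ D.Bg p := D.po_bg (fun _ h => h) (D.as_Bp hn' ha')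
  have hf1 : n' * f' * n'⁻¹ ∈ D.Ug p (D.Ne D.y0) := D.fs_Lo hn' hf'
  have hww : w = w' := by
    have h1 : Tendsto (fun q => (n' * f' * n'⁻¹) * (κ * n'⁻¹)⁻¹ * (ks q * n'⁻¹) *
        (n' * f' * n'⁻¹)⁻¹) F (𝓝 1) := by
      have h2 : Tendsto (fun q => (n' * f' * n'⁻¹) * (κ * n'⁻¹)⁻¹ * (ks q * n'⁻¹) *
          (n' * f' * n'⁻¹)⁻¹) F (𝓝 ((n' * f' * n'⁻¹) * (κ * n'⁻¹)⁻¹ * (κ * n'⁻¹) *
          (n' * f' * n'⁻¹)⁻¹)) :=
        (tendsto_const_nhds.mul (hκl.mul tendsto_const_nhds)).mul tendsto_const_nhds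
      have h3 : (n' * f' * n'⁻¹) * (κ * n'⁻¹)⁻¹ * (κ * n'⁻¹) * (n' * f' * n'⁻¹)⁻¹ = 1 := by
        group
      rwa [h3] at h2
    have h5 : (D.Kmg p 1 : Set (D.Gt p)) ∈ 𝓝 (1 : D.Gt p) :=
      (D.kmg_open p 1).mem_nhds (D.Kmg p 1).one_mem
    obtain ⟨q, hq⟩ := (h1.eventually h5).exists
    have hq' : (n' * f' * n'⁻¹) * (κ * n'⁻¹)⁻¹ * (ks q * n'⁻¹) * (n' * f' * n'⁻¹)⁻¹ ∈
      D.Kmg p 1 := hq
    obtain ⟨b'', hb'', n'', hn'', he, _, _⟩ := D.cellG le_rfl hq'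
    have h6 : (bs q)⁻¹ * n * us q =
        (b * (n' * a' * n'⁻¹) * b'') * (n'' * (n' * f' * n'⁻¹)) * n' := by
      have h7 : (bs q)⁻¹ * n * us q = ks q := by
        rw [mul_assoc, hbk q]; group
      have h8 : ks q = (κ * n'⁻¹) * (n' * f' * n'⁻¹)⁻¹ * (b'' * n'') * (n' * f' * n'⁻¹) * n' := by
        rw [← he]; group
      have h9 : κ * n'⁻¹ * (n' * f' * n'⁻¹)⁻¹ = b * (n' * a' * n'⁻¹) := by
        rw [hκe, hu'e]; group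
      rw [h7, h8, h9]
      group
    have h10 := fun i => D.bruhat_ineq hn hn' (inv_mem (hbs q))
      (mul_mem (mul_mem hb ha1) hb'') (hord q)
      (mul_mem hn'' hf1) h6 i
    rcases D.hs_eq (D.srt_reg hy) h10 with h | h
    · exact absurd (D.key_lt h) hkey
    · exact h
  subst hww
  obtain ⟨δ', hδ', _, hwd⟩ := D.mon_two hn hn'
  have hlim : Tendsto (fun q => n * us q * n⁻¹) F (𝓝 (n * f' * n⁻¹)) := by
    refine D.Td1_nc (b := b * (n' * a' * n'⁻¹) * δ') (bs := fun q => (bs q)⁻¹)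
      (mul_mem (mul_mem hb ha1) (D.tg_bg hδ')) (D.fs_Lo hn hf')
      (fun q => inv_mem (hbs q)) (fun q => D.fs_Lo hn (hus q)) ?_
    have h1 : (fun q => (bs q)⁻¹ * (n * us q * n⁻¹)) = fun q => ks q * n⁻¹ := by
      funext q
      rw [hbk q]; group
    have h2 : b * (n' * a' * n'⁻¹) * δ' * (n * f' * n⁻¹) = κ * n⁻¹ := by
      have h3 : b * (n' * a' * n'⁻¹) * δ' * (n * f' * n⁻¹) =
          b * (n' * a' * n'⁻¹) * (δ' * n) * f' * n⁻¹ := by group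
      rw [h3, ← hwd, hκe, hu'e]
      group
    rw [h1, h2]
    exact hκl.mul tendsto_const_nhds
  have hlim2 : Tendsto us F (𝓝 f') := by
    have h1 : Tendsto (fun q => n⁻¹ * (n * us q * n⁻¹) * n) F (𝓝 (n⁻¹ * (n * f' * n⁻¹) * n)) :=
      (tendsto_const_nhds.mul hlim).mul tendsto_const_nhds
    have h2 : (fun q => n⁻¹ * (n * us q * n⁻¹) * n) = us := by
      funext q; group
    have h3 : n⁻¹ * (n * f' * n⁻¹) * n = f' := by group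
    rwa [h2, h3] at h1
  have hent : ∀ i j, ∀ᶠ q in F, ‖(us q).1.1 i j‖ < ‖f'.1.1 i j‖ + 1 := by
    intro i j
    have h1 : Tendsto (fun q => ‖(us q).1.1 i j‖) F (𝓝 ‖f'.1.1 i j‖) :=
      (((D.entry_cont i j).norm).tendsto f').comp hlim2
    exact h1.eventually_lt_const (lt_add_one _)
  have hbig : ∀ i j, ∀ᶠ q : ℕ in F, ‖f'.1.1 i j‖ + 1 < (q : ℝ) := by
    intro i j
    exact (tendsto_natCast_atTop_atTop.eventually_gt_atTop _).filter_mono hF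
  have hall : ∀ᶠ q in F, ∀ i j, ‖(us q).1.1 i j‖ < ‖f'.1.1 i j‖ + 1 ∧
      ‖f'.1.1 i j‖ + 1 < (q : ℝ) :=
    Filter.eventually_all.2 fun i => Filter.eventually_all.2 fun j => (hent i j).and (hbig i j)
  obtain ⟨q, hq⟩ := hall.exists
  obtain ⟨i, j, h⟩ := hij q
  exact absurd ((hq i j).1.trans (hq i j).2) (not_lt.2 h.le)

end Ctx

end

end Pool.Agent.Lib.MP_f399a8_nt.G
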