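import Pool.Agent.Lib.MP_f399a8_ntG.Td1

/-!
# Elements of `VK` on their top stratum

(The same for `SL_n`: file `MP_f399a8_ntS.TiE`; copy and adapt.)

PROOF of `vk_c0`: let `ε > 0`, `w₀ ∈ W` with `‖φ x - w₀ x‖ ≤ ε / 2` on `DD`.  On the strata with larger key `‖w₀ x‖ ≤ ε / 2 < ε`, so `c0_strat` (with `δ = ε`) bounds
`{u ∈ Ug (Fst y w) | ε ≤ ‖w₀ (n * u)‖}`, and `ε ≤ ‖φ (n * u)‖` implies `ε ≤ ‖w₀ (n * u)‖` by the ultrametric inequality (`‖φ - w₀‖ < ε`).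
PROOF of `vk_cont`: `x ↦ φ (n * x)` is on `Ug (Po y)` a uniform limit of the continuous functions `x ↦ w₀ (n * x)` (`TendstoUniformlyOn.continuousOn`, or directly).
PROOF of `vk_complete`: `Φ x := lim φ_k x` for `x ∈ Bg * DD` (Cauchy: for `x = b * y`, `φ_k x = cb χ b * φ_k y`; `C` is complete) and `0` otherwise.  `left`: `Bg * DD` is
stable under `Bg`.  `app`: combine an element `w₀` for `φ_k` with `‖Φ - φ_k‖ ≤ ρ k` on `DD`.
-/

namespace Pool.Agent.Lib.MP_f399a8_nt.G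

open Matrix Filter Topology

noncomputable section

namespace Ctx

variable {ι X Y : Type*} [Finite ι] [AddCommGroup X] [AddCommGroup Y] {N : ℕ} (D : Ctx ι X Y N)
  {p : ℕ} [Fact p.Prime] {C : Type*} [NormedField C] [IsUltrametricDist C]
  {χ : ↥(D.Tg p) →* Cˣ} {h : X →+ ℝ} {y : Y} {w : D.W} {n : D.Gt p} {W : Set (D.Gt p → C)}

omit [IsUltrametricDist C] [NormedField C] in
private theorem Te1_dd {w' : D.W} {n' u : D.Gt p} (hn' : D.IsN w' n') (hst' : D.Stb h w')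
    (hu : u ∈ D.Ug p (D.Po y)) : n' * u ∈ D.DD p h y :=
  ⟨w', n', u, hn', hst', hu, rfl⟩

theorem vk_c0 (hs : D.Slope χ h) (hy : D.Srt h y) (hW : D.CS χ W)
    (hn : D.IsN w n) (hst : D.Stb h w) {φ : D.Gt p → C} (hφ : D.VK χ h y W w φ) :
    D.C0 (D.Fst y w) (fun x => φ (n * x)) := by
  intro ε hε
  obtain ⟨w₀, hw₀, happ⟩ := hφ.vv.app (ε / 2) (half_pos hε)
  obtain ⟨A, hA⟩ := D.c0_strat hs hy (hW.isPS w₀ hw₀) hn hst hε (by
    intro w' n' hn' hst' hk u hu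
    have h1 := happ (n' * u) (D.Te1_dd hn' hst' hu)
    rw [hφ.zero w' n' hn' hst' hk u hu, zero_sub, norm_neg] at h1
    exact lt_of_le_of_lt h1 (half_lt_self hε))
  refine ⟨A, fun x hx hεx => hA x hx ?_⟩
  by_contra hlt
  rw [not_le] at hlt
  have hxo : x ∈ D.Ug p (D.Po y) := D.ug_mono (D.fst_sub y w) hx
  have h1 := happ (n * x) (D.Te1_dd hn hst hxo)
  have h2 : ‖φ (n * x)‖ ≤ max ‖φ (n * x) - w₀ (n * x)‖ ‖w₀ (n * x)‖ := by
    have h3 := IsUltrametricDist.norm_add_le_max (φ (n * x) - w₀ (n * x)) (w₀ (n * x))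
    rwa [sub_add_cancel] at h3
  have h4 : max ‖φ (n * x) - w₀ (n * x)‖ ‖w₀ (n * x)‖ < ε :=
    max_lt (lt_of_le_of_lt h1 (half_lt_self hε)) hlt
  exact absurd (lt_of_le_of_lt (le_trans hεx h2) h4) (lt_irrefl _)

theorem vk_cont (hW : D.CS χ W) (hn : D.IsN w n) (hst : D.Stb h w)
    {φ : D.Gt p → C} (hφ : D.VV χ h y W φ) :
    ContinuousOn (fun x => φ (n * x)) (D.Ug p (D.Po y) : Set (D.Gt p)) := by
  refine continuousOn_of_uniform_approx_of_continuousOn fun u hu => ?_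
  obtain ⟨ε, hε, hεu⟩ := Metric.mem_uniformity_dist.1 hu
  obtain ⟨w₀, hw₀, happ⟩ := hφ.app (ε / 2) (half_pos hε)
  refine ⟨fun x => w₀ (n * x), ?_, fun y' hy' => ?_⟩
  · exact ((hW.isPS w₀ hw₀).1.comp (continuous_const.mul continuous_id)).continuousOn
  · apply hεu
    rw [dist_eq_norm]
    exact lt_of_le_of_lt (happ _ (D.Te1_dd hn hst hy')) (half_lt_self hε)

theorem vk_complete [CompleteSpace C] (hW : D.CS χ W) {φ : ℕ → D.Gt p → C}
    (hφ : ∀ k, D.VK χ h y W w (φ k)) {ρ : ℕ → ℝ} (hρ : Tendsto ρ atTop (𝓝 0))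
    (hc : ∀ k l, k ≤ l → ∀ x ∈ D.DD p h y, ‖φ l x - φ k x‖ ≤ ρ k) :
    ∃ Φ, D.VK χ h y W w Φ ∧ ∀ k, ∀ x ∈ D.DD p h y, ‖Φ x - φ k x‖ ≤ ρ k := by
  classical
  have hcau : ∀ z ∈ D.DD p h y, ∃ L : C, Tendsto (fun k => φ k z) atTop (𝓝 L) := by
    intro z hz
    refine cauchySeq_tendsto_of_complete (cauchySeq_of_le_tendsto_0' ρ ?_ hρ)
    intro k l hkl
    rw [dist_comm, dist_eq_norm]
    exact hc k l hkl z hz
  have hex : ∀ x : D.Gt p, ∃ L : C,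
      ((∃ b ∈ D.Bg p, ∃ z ∈ D.DD p h y, x = b * z) → Tendsto (fun k => φ k x) atTop (𝓝 L)) ∧
      ((¬ ∃ b ∈ D.Bg p, ∃ z ∈ D.DD p h y, x = b * z) → L = 0) := by
    intro x
    by_cases hx : ∃ b ∈ D.Bg p, ∃ z ∈ D.DD p h y, x = b * z
    · obtain ⟨b, hb, z, hz, rfl⟩ := hx
      obtain ⟨L, hL⟩ := hcau z hz
      refine ⟨D.cb χ b * L, fun _ => ?_, fun h' => absurd ⟨b, hb, z, hz, rfl⟩ h'⟩
      have h1 : (fun k => φ k (b * z)) = fun k => D.cb χ b * φ k z := by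
        funext k
        exact (hφ k).vv.left b hb z
      rw [h1]
      exact hL.const_mul _
    · exact ⟨0, fun h' => absurd h' hx, fun _ => rfl⟩
  choose Φ hΦ1 hΦ2 using hex
  have hDD : ∀ x ∈ D.DD p h y, Tendsto (fun k => φ k x) atTop (𝓝 (Φ x)) := fun x hx =>
    hΦ1 x ⟨1, one_mem _, x, hx, (one_mul x).symm⟩
  have hbd : ∀ k, ∀ x ∈ D.DD p h y, ‖Φ x - φ k x‖ ≤ ρ k := by
    intro k x hx
    have h1 : Tendsto (fun l => ‖φ l x - φ k x‖) atTop (𝓝 ‖Φ x - φ k x‖) :=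
      ((hDD x hx).sub_const _).norm
    refine le_of_tendsto h1 ?_
    filter_upwards [eventually_ge_atTop k] with l hl
    exact hc k l hl x hx
  refine ⟨Φ, ⟨⟨?_, ?_⟩, ?_⟩, hbd⟩
  · intro b hb x
    by_cases hx : ∃ b ∈ D.Bg p, ∃ z ∈ D.DD p h y, x = b * z
    · have h1 := hΦ1 x hx
      have h2 : ∃ b' ∈ D.Bg p, ∃ z ∈ D.DD p h y, b * x = b' * z := by
        obtain ⟨b', hb', z, hz, rfl⟩ := hx
        exact ⟨b * b', mul_mem hb hb', z, hz, (mul_assoc b b' z).symm⟩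
      have h3 := hΦ1 (b * x) h2
      have h4 : (fun k => φ k (b * x)) = fun k => D.cb χ b * φ k x := by
        funext k
        exact (hφ k).vv.left b hb x
      rw [h4] at h3
      exact tendsto_nhds_unique h3 (h1.const_mul _)
    · have h2 : ¬ ∃ b' ∈ D.Bg p, ∃ z ∈ D.DD p h y, b * x = b' * z := by
        rintro ⟨b', hb', z, hz, hxy⟩
        refine hx ⟨b⁻¹ * b', mul_mem (inv_mem hb) hb', z, hz, ?_⟩
        rw [mul_assoc, ← hxy, inv_mul_cancel_left]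
      rw [hΦ2 x hx, hΦ2 (b * x) h2, mul_zero]
  · intro ε hε
    obtain ⟨k, hk⟩ := ((hρ.eventually (gt_mem_nhds hε))).exists
    obtain ⟨w₀, hw₀, happ⟩ := (hφ k).vv.app ε hε
    refine ⟨w₀, hw₀, fun x hx => ?_⟩
    have h1 : Φ x - w₀ x = (Φ x - φ k x) + (φ k x - w₀ x) := by ring
    rw [h1]
    exact (IsUltrametricDist.norm_add_le_max _ _).trans
      (max_le ((hbd k x hx).trans hk.le) (happ x hx))
  · intro w' n' hn' hst' hk u hu
    have h1 := hDD (n' * u) (D.Te1_dd hn' hst' hu)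
    have h2 : (fun k => φ k (n' * u)) = fun _ => (0 : C) := by
      funext k
      exact (hφ k).zero w' n' hn' hst' hk u hu
    rw [h2] at h1
    exact tendsto_nhds_unique h1 tendsto_const_nhds

end Ctx

end

end Pool.Agent.Lib.MP_f399a8_nt.G
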