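import Pool.Agent.Lib.MP_f399a8_ntG.Te1
import Pool.Agent.Lib.MP_f399a8_ntG.Fb3

/-!
# Lifting functions from the top stratum with bounds

`SD`: the data of the top stratum: lifts exist, are unique and bounded.  (The same for `SL_n`: file `MP_f399a8_ntS.TiG`; copy and adapt; here functions are only
continuous on `Ug (Fst y w)`.)

PROOF of `vk_surj`.  `S' = Fst y w ⊆ Po y`, `t1 = cc y (pp p) ∈ Tg`.
Let `Z = {ψ | ContinuousOn ψ (Ug S') ∧ ∃ φ, VK φ ∧ ∀ u ∈ Ug S', ψ u = φ (n * u)}`.  `YC S' Z`: `vk_add`, `vk_smul`, `vk_trans` (`Ug S' ⊆ Ug (Po y)`; `ψ (· * u)` is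
continuous on `Ug S'`, which is a group, and it is `φ (n * (x * u))` there).  `hcontr`: for `ψ ∈ Z` with lift `φ`:
`φ' x = (cb χ (n * t1 * n⁻¹))⁻¹ * φ (x * t1)` is in `VK` (`vk_diag`, `vk_smul`) and on `Ug S'` `φ' (n * u) = φ (n * (t1⁻¹ * u * t1)) = ψ (t1⁻¹ u t1)` (`wtw`, `VV.left`,
`tg_bg`); `x ↦ t1⁻¹ * x * t1` maps `Ug S'` to itself (`tg_ug`).  `C0`: `vk_c0` (the values on `Ug S'` agree).  The given nonzero `φ₀` gives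
`Γ x = φ₀ (n * x) ∈ Z` (`vk_cont`, restricted to `Ug S'`), not zero on `Ug S'` by `hne`.  `gam_norm`, then `pg_box` give `F ∈ Z` with `‖F x - iK x‖ ≤ κ` on `Ug S'`
(`κ` from `S.kappa_exists`, `0 < κ < 1`); let `φ_F` be its lift and `C1 > 0` a bound of `‖φ_F‖` on `DD` (`vv_bound`).
One step: for `ψ` continuous on `Ug S'`, `C0 S' ψ`, `‖ψ‖ ≤ B` on `Ug S'`: there is `φ` in `VK` with `‖φ x‖ ≤ C1 * B` on `DD` and `‖ψ u - φ (n * u)‖ ≤ κ * B` on `Ug S'`.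
(`B = 0`: `φ = 0 * φ_F`.)  `scale_in` with `δ = κ * B`: `a`; `ψ' x = ψ ((t1^a)⁻¹ x t1^a)` satisfies the hypotheses of `ac_expl`, which gives `b, S₁` with
`‖ψ' x - ∑ s, ψ' s * F ((t1^b)⁻¹ (x s⁻¹) t1^b)‖ ≤ κ B`.  Substitute `x = t1^a u (t1^a)⁻¹`:
`‖ψ u - ∑ s, ψ' s * F ((t1^b)⁻¹ (t1^a u (t1^a)⁻¹ s⁻¹) t1^b)‖ ≤ κ B`.  The function `φ_s z = c * φ_F (z * (t1^a)⁻¹ * s⁻¹ * t1^b)` with
`c = (cb χ (n * ((t1^a)⁻¹ * t1^b) * n⁻¹))⁻¹` is in `VK` and satisfies `φ_s (n * u) = F ((t1^b)⁻¹ (t1^a u (t1^a)⁻¹ s⁻¹) t1^b)` on `Ug S'`: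
`u (t1^a)⁻¹ s⁻¹ t1^b = ((t1^a)⁻¹ t1^b) * ((t1^b)⁻¹ (t1^a u (t1^a)⁻¹ s⁻¹) t1^b)`, `wtw`.  Its norm on `DD` is `≤ C1`: for `x = n' * u' ∈ DD`,
`x * (t1^a)⁻¹ * s⁻¹ * t1^b = (n' (t1^-a t1^b) n'⁻¹) * (n' * (..))` with `(..) ∈ Ug (Po y)`, and `‖cb χ (n' τ n'⁻¹)‖ = ‖cb χ τ‖ = ‖cb χ (n τ n⁻¹)‖` (`wtw_norm`).  So
`φ = ∑ s, ψ' s * φ_s` has norm `≤ C1 * B` on `DD` (ultrametric).
Iterate: `ψ_0 = ψ`, `ψ_{k+1} x = ψ_k x - φ_k (n * x)` (continuous on `Ug S'`, `C0`, `≤ κ^{k+1} B` on `Ug S'`), with `‖φ_k‖ ≤ C1 κ^k B` on `DD`.  The partial sums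
`∑_{k<m} φ_k` satisfy the hypothesis of `vk_complete` with `ρ m = C1 κ^m B` (ultrametric); the limit `Φ` satisfies `Φ (n * u) = ψ u` on `Ug S'`
(`‖ψ u - ∑_{k<m} φ_k (n * u)‖ ≤ κ^m B`) and `‖Φ‖ ≤ C1 B` (`m = 0`: the empty sum).  (`CompleteSpace C`: finite-dimensional over the complete field `ℚ_[p]`,
`FiniteDimensional.complete ℚ_[p] C`.)
-/

namespace Pool.Agent.Lib.MP_f399a8_nt.G

open Matrix Filter Topology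

noncomputable section

namespace Ctx

variable {ι X Y : Type*} [Finite ι] [AddCommGroup X] [AddCommGroup Y] {N : ℕ} (D : Ctx ι X Y N)
  {p : ℕ} [Fact p.Prime] {C : Type*} [NormedField C]

/-- data of the top stratum: lifts exist, are unique and bounded -/
structure SD (χ : ↥(D.Tg p) →* Cˣ) (h : X →+ ℝ) (y : Y) (W : Set (D.Gt p → C)) (w : D.W)
    (n : D.Gt p) (C1 : ℝ) : Prop where
  isn : D.IsN w n
  stb : D.Stb h w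
  inj : ∀ φ : D.Gt p → C, D.VK χ h y W w φ → (∀ u ∈ D.Ug p (D.Fst y w), φ (n * u) = 0) →
    ∀ x ∈ D.DD p h y, φ x = 0
  surj : ∀ ψ : D.Gt p → C, ContinuousOn ψ (D.Ug p (D.Fst y w) : Set (D.Gt p)) →
    D.C0 (D.Fst y w) ψ → ∀ B : ℝ, 0 ≤ B →
    (∀ u ∈ D.Ug p (D.Fst y w), ‖ψ u‖ ≤ B) → ∃ φ : D.Gt p → C, D.VK χ h y W w φ ∧
      (∀ u ∈ D.Ug p (D.Fst y w), φ (n * u) = ψ u) ∧ ∀ x ∈ D.DD p h y, ‖φ x‖ ≤ C1 * B

theorem Tg1_c0_congr {S' : Set ι} {f g : D.Gt p → C} (hf : D.C0 S' f)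
    (h : ∀ u ∈ D.Ug p S', g u = f u) : D.C0 S' g := by
  intro ε hε
  obtain ⟨A, hA⟩ := hf ε hε
  exact ⟨A, fun x hx hx' => hA x hx (by rwa [← h x hx])⟩

theorem Tg1_c0_sub [IsUltrametricDist C] {S' : Set ι} {f g : D.Gt p → C} (hf : D.C0 S' f)
    (hg : D.C0 S' g) : D.C0 S' (fun x => f x - g x) := by
  intro ε hε
  obtain ⟨A, hA⟩ := hf ε hε
  obtain ⟨A', hA'⟩ := hg ε hε
  refine ⟨max A A', fun x hx hx' i j => ?_⟩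
  have h1 : ‖f x - g x‖ ≤ max ‖f x‖ ‖g x‖ := by
    rw [sub_eq_add_neg]
    refine (IsUltrametricDist.norm_add_le_max _ _).trans ?_
    rw [norm_neg]
  rcases le_max_iff.1 (hx'.trans h1) with h | h
  · exact (hA x hx h i j).trans (le_max_left _ _)
  · exact (hA' x hx h i j).trans (le_max_right _ _)

theorem Tg1_ident {G : Type*} [Group G] (w u A s B : G) :
    w * u * A⁻¹ * s⁻¹ * B =
      (w * (A⁻¹ * B) * w⁻¹) * (w * (B⁻¹ * (A * u * A⁻¹ * s⁻¹) * B)) := by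
  group

theorem Tg1_pow (y : Y) (b : ℕ) : (D.cc p y (pp p)) ^ b ∈ D.Tg p :=
  (D.Tg p).pow_mem (D.cc_torus p y (pp p)) b

theorem Tg1_conj_cont {S' : Set ι} {t : D.Gt p} (ht : t ∈ D.Tg p) {f : D.Gt p → C}
    (hf : ContinuousOn f (D.Ug p S' : Set (D.Gt p))) :
    ContinuousOn (fun x => f (t⁻¹ * x * t)) (D.Ug p S' : Set (D.Gt p)) := by
  have h1 : Continuous (fun x : D.Gt p => t⁻¹ * x * t) :=
    (continuous_const.mul continuous_id).mul continuous_const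
  exact hf.comp h1.continuousOn fun x hx => (D.tg_ug ht hx).2

theorem Tg1_one_step [NormedAlgebra ℚ_[p] C] [IsUltrametricDist C] [FiniteDimensional ℚ_[p] C]
    {χ : ↥(D.Tg p) →* Cˣ} {h : X →+ ℝ} {y : Y} (hs : D.Slope χ h)
    {W : Set (D.Gt p → C)} (hW : D.CS χ W) {w : D.W} {n : D.Gt p} (hn : D.IsN w n)
    (hst : D.Stb h w) {κ : ℝ} (hκ0 : 0 < κ)
    {F φF : D.Gt p → C} (hF : ∀ x ∈ D.Ug p (D.Fst y w), ‖F x - D.iK C x‖ ≤ κ)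
    (hφF : D.VK χ h y W w φF) (hFφ : ∀ u ∈ D.Ug p (D.Fst y w), F u = φF (n * u)) {C1 : ℝ}
    (hC1 : 0 < C1) (hbd : ∀ x ∈ D.DD p h y, ‖φF x‖ ≤ C1) {ψ : D.Gt p → C}
    (hψ : ContinuousOn ψ (D.Ug p (D.Fst y w) : Set (D.Gt p))) (hψ0 : D.C0 (D.Fst y w) ψ)
    {B : ℝ} (hB : 0 < B) (hψB : ∀ u ∈ D.Ug p (D.Fst y w), ‖ψ u‖ ≤ B) :
    ∃ φ : D.Gt p → C, D.VK χ h y W w φ ∧ (∀ x ∈ D.DD p h y, ‖φ x‖ ≤ C1 * B) ∧
      ∀ u ∈ D.Ug p (D.Fst y w), ‖ψ u - φ (n * u)‖ ≤ κ * B := by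
  classical
  have hS := D.fst_cl y w
  have hSy : ∀ α ∈ D.Fst y w, 0 < D.pr α y := fun α hα => hα.1
  have hRO : ∀ {x : D.Gt p}, x ∈ D.Ug p (D.Fst y w) → x ∈ D.Ug p (D.Po y) :=
    fun hx => D.ug_mono (D.fst_sub y w) hx
  obtain ⟨a, ha⟩ := D.scale_in hSy hψ0 (mul_pos hκ0 hB)
  set t1 := D.cc p y (pp p) with ht1
  have hta : t1 ^ a ∈ D.Tg p := D.Tg1_pow y a
  have hψ'c := D.Tg1_conj_cont hta hψ
  obtain ⟨b, S₁, hS₁, hSx⟩ := D.ac_expl hS hSy hκ0 hF hψ'c hB.le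
    (fun x hx => hψB _ (D.tg_ug hta hx).2) (fun x hx hxK => (ha x hx hxK).le)
  rw [← ht1] at hSx
  have htb : t1 ^ b ∈ D.Tg p := D.Tg1_pow y b
  have hDa : (t1 ^ a)⁻¹ ∈ D.Tg p := (D.Tg p).inv_mem hta
  have hDτ : (t1 ^ a)⁻¹ * t1 ^ b ∈ D.Tg p := (D.Tg p).mul_mem hDa htb
  set c : C := (D.cb χ (n * ((t1 ^ a)⁻¹ * t1 ^ b) * n⁻¹))⁻¹ with hc
  have hcne : D.cb χ (n * ((t1 ^ a)⁻¹ * t1 ^ b) * n⁻¹) ≠ 0 := D.cb_ne_zero _ _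
  have hVs : ∀ s ∈ S₁, D.VK χ h y W w
      (fun z => ψ ((t1 ^ a)⁻¹ * s * t1 ^ a) * (c * φF (z * (t1 ^ a)⁻¹ * s⁻¹ * t1 ^ b))) := by
    intro s hsS
    refine D.vk_smul hW _ (D.vk_smul hW c ?_)
    have h1 := D.vk_diag hs hW htb hφF
    have h2 := D.vk_trans hW (hRO ((D.Ug p (D.Fst y w)).inv_mem (hS₁ s hsS).1)) h1
    exact D.vk_diag hs hW hDa h2
  have hmem : ∀ s ∈ S₁, ∀ u ∈ D.Ug p (D.Po y),
      (t1 ^ b)⁻¹ * (t1 ^ a * u * (t1 ^ a)⁻¹ * s⁻¹) * t1 ^ b ∈ D.Ug p (D.Po y) := by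
    intro s hsS u hu
    exact (D.tg_ug htb ((D.Ug p (D.Po y)).mul_mem (D.tg_ug hta hu).1
      (hRO ((D.Ug p (D.Fst y w)).inv_mem (hS₁ s hsS).1)))).2
  have hmem' : ∀ s ∈ S₁, ∀ u ∈ D.Ug p (D.Fst y w),
      (t1 ^ b)⁻¹ * (t1 ^ a * u * (t1 ^ a)⁻¹ * s⁻¹) * t1 ^ b ∈ D.Ug p (D.Fst y w) := by
    intro s hsS u hu
    exact (D.tg_ug htb ((D.Ug p (D.Fst y w)).mul_mem (D.tg_ug hta hu).1
      ((D.Ug p (D.Fst y w)).inv_mem (hS₁ s hsS).1))).2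
  refine ⟨fun z => ∑ s ∈ S₁, ψ ((t1 ^ a)⁻¹ * s * t1 ^ a) *
    (c * φF (z * (t1 ^ a)⁻¹ * s⁻¹ * t1 ^ b)),
    D.vk_sum hW S₁ (fun s z => ψ ((t1 ^ a)⁻¹ * s * t1 ^ a) *
      (c * φF (z * (t1 ^ a)⁻¹ * s⁻¹ * t1 ^ b))) hVs, ?_, ?_⟩
  · intro x hx
    refine IsUltrametricDist.norm_sum_le_of_forall_le_of_nonneg (mul_pos hC1 hB).le ?_
    intro s hsS
    obtain ⟨w', n', u', hn', hst', hu', rfl⟩ := hx
    rw [Tg1_ident n' u' (t1 ^ a) s (t1 ^ b),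
      hφF.vv.left _ (D.tg_bg (D.wtw hn' hDτ).1) _, norm_mul, norm_mul, norm_mul, hc, norm_inv,
      D.wtw_norm hs hst hn hDτ, D.wtw_norm hs hst' hn' hDτ]
    have h1 : ‖D.cb χ ((t1 ^ a)⁻¹ * t1 ^ b)‖ ≠ 0 := norm_ne_zero_iff.2 (D.cb_ne_zero _ _)
    rw [← mul_assoc (‖D.cb χ ((t1 ^ a)⁻¹ * t1 ^ b)‖⁻¹), inv_mul_cancel₀ h1, one_mul,
      mul_comm C1 B]
    refine mul_le_mul (hψB _ (D.tg_ug hta (hS₁ s hsS).1).2) (hbd _ ?_) (norm_nonneg _) hB.le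
    exact ⟨w', n', _, hn', hst', hmem s hsS u' hu', rfl⟩
  · intro u hu
    have h1 := hSx (t1 ^ a * u * (t1 ^ a)⁻¹) (D.tg_ug hta hu).1
    have h2 : (t1 ^ a)⁻¹ * (t1 ^ a * u * (t1 ^ a)⁻¹) * t1 ^ a = u := by group
    have h3 : ∀ s ∈ S₁, ψ ((t1 ^ a)⁻¹ * s * t1 ^ a) *
        F ((t1 ^ b)⁻¹ * (t1 ^ a * u * (t1 ^ a)⁻¹ * s⁻¹) * t1 ^ b) =
        ψ ((t1 ^ a)⁻¹ * s * t1 ^ a) * (c * φF (n * u * (t1 ^ a)⁻¹ * s⁻¹ * t1 ^ b)) := by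
      intro s hsS
      rw [Tg1_ident n u (t1 ^ a) s (t1 ^ b), hφF.vv.left _ (D.tg_bg (D.wtw hn hDτ).1) _,
        ← mul_assoc c, hc, inv_mul_cancel₀ hcne, one_mul, hFφ _ (hmem' s hsS u hu)]
    rw [h2, Finset.sum_congr rfl h3] at h1
    exact h1

theorem Tg1_iter [IsUltrametricDist C] {h : X →+ ℝ} {y : Y} {κ : ℝ} {C1 : ℝ} {B : ℝ}
    (P : ℕ → (D.Gt p → C) → Prop) (hP0 : P 0 (fun _ => 0))
    (hP : ∀ k φ, P k φ → ∃ φ' : D.Gt p → C, P (k + 1) φ' ∧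
      ∀ x ∈ D.DD p h y, ‖φ' x - φ x‖ ≤ C1 * (κ ^ k * B))
    (hmono : ∀ k, C1 * (κ ^ (k + 1) * B) ≤ C1 * (κ ^ k * B))
    (hpos : ∀ k, 0 ≤ C1 * (κ ^ k * B)) :
    ∃ φ : ℕ → D.Gt p → C, φ 0 = (fun _ => 0) ∧ (∀ k, P k (φ k)) ∧
      ∀ k l, k ≤ l → ∀ x ∈ D.DD p h y, ‖φ l x - φ k x‖ ≤ C1 * (κ ^ k * B) := by
  choose! nxt hnxt using hP
  let sq : ℕ → (D.Gt p → C) := fun k => Nat.rec (fun _ => 0) (fun k φ => nxt k φ) k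
  have hsq : ∀ k, P k (sq k) := by
    intro k
    induction k with
    | zero => exact hP0
    | succ k ih => exact (hnxt k _ ih).1
  have hd : ∀ k, ∀ x ∈ D.DD p h y, ‖sq (k + 1) x - sq k x‖ ≤ C1 * (κ ^ k * B) :=
    fun k => (hnxt k _ (hsq k)).2
  have hanti : Antitone fun k : ℕ => C1 * (κ ^ k * B) := antitone_nat_of_succ_le hmono
  refine ⟨sq, rfl, hsq, ?_⟩
  intro k l hkl x hx
  induction l, hkl using Nat.le_induction with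
  | base =>
    rw [sub_self, norm_zero]
    exact hpos k
  | succ l hl ih =>
    have h1 : sq (l + 1) x - sq k x = (sq (l + 1) x - sq l x) + (sq l x - sq k x) := by ring
    rw [h1]
    refine (IsUltrametricDist.norm_add_le_max _ _).trans (max_le ((hd l x hx).trans ?_) ih)
    exact hanti hl

theorem vk_surj [NormedAlgebra ℚ_[p] C] [IsUltrametricDist C] [FiniteDimensional ℚ_[p] C]
    {χ : ↥(D.Tg p) →* Cˣ} {h : X →+ ℝ} {y : Y} (hs : D.Slope χ h) (hy : D.Srt h y)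
    {W : Set (D.Gt p → C)} (hW : D.CS χ W) {w : D.W} {n : D.Gt p} (hn : D.IsN w n)
    (hst : D.Stb h w) {φ₀ : D.Gt p → C} (hφ₀ : D.VK χ h y W w φ₀)
    (hne : ∃ u ∈ D.Ug p (D.Fst y w), φ₀ (n * u) ≠ 0) :
    ∃ C1 : ℝ, ∀ ψ : D.Gt p → C, ContinuousOn ψ (D.Ug p (D.Fst y w) : Set (D.Gt p)) →
      D.C0 (D.Fst y w) ψ → ∀ B : ℝ, 0 ≤ B →
      (∀ u ∈ D.Ug p (D.Fst y w), ‖ψ u‖ ≤ B) → ∃ φ : D.Gt p → C, D.VK χ h y W w φ ∧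
        (∀ u ∈ D.Ug p (D.Fst y w), φ (n * u) = ψ u) ∧ ∀ x ∈ D.DD p h y, ‖φ x‖ ≤ C1 * B := by
  classical
  have hS := D.fst_cl y w
  have hSy : ∀ α ∈ D.Fst y w, 0 < D.pr α y := fun α hα => hα.1
  have hRO : ∀ {x : D.Gt p}, x ∈ D.Ug p (D.Fst y w) → x ∈ D.Ug p (D.Po y) :=
    fun hx => D.ug_mono (D.fst_sub y w) hx
  have hD1 : D.cc p y (pp p) ∈ D.Tg p := D.cc_torus p y (pp p)
  obtain ⟨κ, hκ0, hκ1, hκ⟩ := S.kappa_exists p C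
  have : CompleteSpace C := FiniteDimensional.complete ℚ_[p] C
  have hcn : ∀ φ : D.Gt p → C, D.VK χ h y W w φ →
      ContinuousOn (fun x => φ (n * x)) (D.Ug p (D.Fst y w) : Set (D.Gt p)) :=
    fun φ hφ => (D.vk_cont hW hn hst hφ.vv).mono fun x hx => hRO hx
  let Z : Set (D.Gt p → C) := {ψ | ContinuousOn ψ (D.Ug p (D.Fst y w) : Set (D.Gt p)) ∧
    ∃ φ : D.Gt p → C, D.VK χ h y W w φ ∧ ∀ u ∈ D.Ug p (D.Fst y w), ψ u = φ (n * u)}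
  have hZ : D.YC (D.Fst y w) Z := by
    refine ⟨?_, ?_, ?_⟩
    · rintro f ⟨hf, φ, hφ, hfφ⟩ g ⟨hg, φ', hφ', hgφ⟩
      exact ⟨hf.add hg, _, D.vk_add hW hφ hφ', fun u hu => by
        show f u + g u = _
        rw [hfφ u hu, hgφ u hu]⟩
    · rintro c f ⟨hf, φ, hφ, hfφ⟩
      exact ⟨continuousOn_const.mul hf, _, D.vk_smul hW c hφ, fun u hu => by
        show c * f u = _
        rw [hfφ u hu]⟩
    · rintro u hu - f ⟨hf, φ, hφ, hfφ⟩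
      refine ⟨?_, _, D.vk_trans hW (hRO hu) hφ, fun x hx => ?_⟩
      · have h1 : Continuous (fun x : D.Gt p => x * u) := continuous_id.mul continuous_const
        exact hf.comp h1.continuousOn fun x hx => (D.Ug p (D.Fst y w)).mul_mem hx hu
      · show f (x * u) = φ (n * x * u)
        rw [hfφ _ ((D.Ug p (D.Fst y w)).mul_mem hx hu), mul_assoc]
  have hcontr : ∀ f ∈ Z, (fun x => f ((D.cc p y (pp p))⁻¹ * x * D.cc p y (pp p))) ∈ Z := by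
    rintro f ⟨hf, φ, hφ, hfφ⟩
    refine ⟨D.Tg1_conj_cont hD1 hf, _,
      D.vk_smul hW (D.cb χ (n * D.cc p y (pp p) * n⁻¹))⁻¹ (D.vk_diag hs hW hD1 hφ),
      fun u hu => ?_⟩
    show f ((D.cc p y (pp p))⁻¹ * u * D.cc p y (pp p)) =
      (D.cb χ (n * D.cc p y (pp p) * n⁻¹))⁻¹ * φ (n * u * D.cc p y (pp p))
    rw [hfφ _ (D.tg_ug hD1 hu).2, (D.wtw hn hD1).2 u,
      hφ.vv.left _ (D.tg_bg (D.wtw hn hD1).1) _,
      inv_mul_cancel_left₀ (D.cb_ne_zero χ (n * D.cc p y (pp p) * n⁻¹))]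
  have hcont : ∀ f ∈ Z, ContinuousOn f (D.Ug p (D.Fst y w) : Set (D.Gt p)) :=
    fun f hf => hf.1
  have hC0 : ∀ f ∈ Z, D.C0 (D.Fst y w) f := by
    rintro f ⟨hf, φ, hφ, hfφ⟩
    exact D.Tg1_c0_congr (D.vk_c0 hs hy hW hn hst hφ) hfφ
  have hΓZ : (fun x => φ₀ (n * x)) ∈ Z := ⟨hcn φ₀ hφ₀, φ₀, hφ₀, fun _ _ => rfl⟩
  obtain ⟨Γ', hΓ'Z, hΓ1, hΓ2, hΓ3⟩ := D.gam_norm hS hSy hZ hcontr hcont hC0 hΓZ hne
  obtain ⟨F, ⟨hFc, φF, hφF, hFφ⟩, hF⟩ :=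
    D.pg_box hS hSy hκ hZ hΓ'Z (hcont _ hΓ'Z) hΓ1 hΓ2 hΓ3
  obtain ⟨C1, hC1, hbd⟩ := D.vv_bound hs hy hW hφF.vv
  refine ⟨C1, fun ψ hψ hψ0 B hB hψB => ?_⟩
  have hzero : D.VK χ h y W w (fun _ => (0 : C)) := by
    have h := D.vk_smul hW 0 hφ₀
    simpa using h
  rcases hB.eq_or_lt with hB0 | hBpos
  · refine ⟨fun _ => 0, hzero, fun u hu => ?_, fun x _ => ?_⟩
    · have h1 := hψB u hu
      rw [← hB0] at h1
      exact (norm_le_zero_iff.1 h1).symm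
    · rw [norm_zero]
      positivity
  let P : ℕ → (D.Gt p → C) → Prop := fun k φ => D.VK χ h y W w φ ∧
    ∀ u ∈ D.Ug p (D.Fst y w), ‖ψ u - φ (n * u)‖ ≤ κ ^ k * B
  have hP0 : P 0 (fun _ => 0) := by
    refine ⟨hzero, fun u hu => ?_⟩
    rw [sub_zero, pow_zero, one_mul]
    exact hψB u hu
  have hP : ∀ k φ, P k φ → ∃ φ' : D.Gt p → C, P (k + 1) φ' ∧
      ∀ x ∈ D.DD p h y, ‖φ' x - φ x‖ ≤ C1 * (κ ^ k * B) := by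
    rintro k φ ⟨hφ, hφψ⟩
    have hc : ContinuousOn (fun x => ψ x - φ (n * x))
        (D.Ug p (D.Fst y w) : Set (D.Gt p)) := hψ.sub (hcn φ hφ)
    have h0 : D.C0 (D.Fst y w) (fun x => ψ x - φ (n * x)) :=
      D.Tg1_c0_sub hψ0 (D.vk_c0 hs hy hW hn hst hφ)
    obtain ⟨φ₁, hφ₁, hφ₁b, hφ₁u⟩ := D.Tg1_one_step hs hW hn hst hκ0 hF hφF hFφ hC1 hbd hc h0
      (mul_pos (pow_pos hκ0 k) hBpos) hφψ
    refine ⟨fun x => φ x + φ₁ x, ⟨D.vk_add hW hφ hφ₁, fun u hu => ?_⟩, fun x hx => ?_⟩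
    · have h1 := hφ₁u u hu
      show ‖ψ u - (φ (n * u) + φ₁ (n * u))‖ ≤ κ ^ (k + 1) * B
      rw [← sub_sub, pow_succ', mul_assoc]
      exact h1
    · rw [add_sub_cancel_left]
      exact hφ₁b x hx
  have hpos : ∀ k : ℕ, 0 ≤ C1 * (κ ^ k * B) := fun k => by positivity
  have hmono : ∀ k : ℕ, C1 * (κ ^ (k + 1) * B) ≤ C1 * (κ ^ k * B) := by
    intro k
    have h1 : κ ^ (k + 1) ≤ κ ^ k := pow_le_pow_of_le_one hκ0.le hκ1.le (Nat.le_succ k)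
    exact mul_le_mul_of_nonneg_left (mul_le_mul_of_nonneg_right h1 hB) hC1.le
  obtain ⟨φ, hφ0, hφP, hφD⟩ := D.Tg1_iter P hP0 hP hmono hpos
  have hκlim : Tendsto (fun k : ℕ => κ ^ k) atTop (𝓝 0) :=
    tendsto_pow_atTop_nhds_zero_of_lt_one hκ0.le hκ1
  have hρ : Tendsto (fun k : ℕ => C1 * (κ ^ k * B)) atTop (𝓝 0) := by
    have h := (hκlim.mul_const B).const_mul C1
    simpa using h
  obtain ⟨Φ, hΦ, hΦD⟩ := D.vk_complete hW (fun k => (hφP k).1) hρ hφD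
  refine ⟨Φ, hΦ, fun u hu => ?_, fun x hx => ?_⟩
  · have hwu : n * u ∈ D.DD p h y := ⟨w, n, u, hn, hst, hRO hu, rfl⟩
    have hlim : Tendsto (fun k : ℕ => C1 * (κ ^ k * B) + κ ^ k * B) atTop (𝓝 0) := by
      have h := hρ.add (hκlim.mul_const B)
      simpa using h
    have hle : ∀ k : ℕ, ‖Φ (n * u) - ψ u‖ ≤ C1 * (κ ^ k * B) + κ ^ k * B := by
      intro k
      have h1 : Φ (n * u) - ψ u = (Φ (n * u) - φ k (n * u)) + (φ k (n * u) - ψ u) := by ring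
      rw [h1]
      refine (norm_add_le _ _).trans (add_le_add (hΦD k _ hwu) ?_)
      rw [norm_sub_rev]
      exact (hφP k).2 u hu
    have h2 : ‖Φ (n * u) - ψ u‖ ≤ 0 := ge_of_tendsto' hlim hle
    exact sub_eq_zero.1 (norm_le_zero_iff.1 h2)
  · have h1 := hΦD 0 x hx
    rw [hφ0, sub_zero, pow_zero, one_mul] at h1
    exact h1

end Ctx

end

end Pool.Agent.Lib.MP_f399a8_nt.G
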