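import Pool.Agent.Lib.MP_f399a8_ntG.Tg1

/-!
# Existence of the top stratum

(The same for `SL_n`: file `MP_f399a8_ntS.TiG2`; copy and adapt.)

PROOF.  Let `T` be the finite set (`w_finite`) of the `w` with `Stb h w` for which there is `φ` with `VK … w φ` and `φ x ≠ 0` for some `x ∈ DD`.  It is not empty: take the
`w` with `Stb h w` and maximal key (`1` is `Stb`) and `φ = f (· * x) ∈ W` with `f x ≠ 0` (value at `1 ∈ DD`; the vanishing condition is empty).  Choose `w ∈ T` with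
minimal key, `n` with `IsN w n` (`isN_ex`).
`inj`: let `φ` be `VK … w` with `φ (n * u) = 0` for `u ∈ Ug (Fst y w)`.  Then `φ (n' * u) = 0` for all `n'` with `IsN w n'` and `u ∈ Ug (Po y)` (`as_fs`, `as_left`,
`mon_two`, `VV.left`).  Suppose `φ x ≠ 0` for some `x ∈ DD`.  Let `w'` be the element with `Stb h w'` and maximal key such that `φ (n' * u) ≠ 0` for some `n'` with
`IsN w' n'`, `u ∈ Ug (Po y)`.  Then `key y w' < key y w` (not larger by `VK`, not equal by `key_inj` and the above), and `VK … w' φ`, so `w' ∈ T`, a contradiction to the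
minimality.
`surj`: `vk_surj`; `hne`: `φ₀` with `VK … w φ₀` not zero on `DD`, so by `inj` it is not zero on `n * Ug (Fst y w)`.
-/

namespace Pool.Agent.Lib.MP_f399a8_nt.G

open Matrix Filter Topology

noncomputable section

namespace Ctx

variable {ι X Y : Type*} [Finite ι] [AddCommGroup X] [AddCommGroup Y] {N : ℕ} (D : Ctx ι X Y N)
  {p : ℕ} [Fact p.Prime] {C : Type*} [NormedField C] [NormedAlgebra ℚ_[p] C]
  [IsUltrametricDist C] [FiniteDimensional ℚ_[p] C]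

omit [NormedAlgebra ℚ_[p] C] [IsUltrametricDist C] [FiniteDimensional ℚ_[p] C] in
theorem Tg2_zero {χ : ↥(D.Tg p) →* Cˣ} {φ : D.Gt p → C}
    (hφ : ∀ b ∈ D.Bg p, ∀ x, φ (b * x) = D.cb χ b * φ x) {y : Y} {w : D.W}
    {n n' : D.Gt p} (hn : D.IsN w n) (hn' : D.IsN w n')
    (h : ∀ u ∈ D.Ug p (D.Fst y w), φ (n * u) = 0) {u : D.Gt p} (hu : u ∈ D.Ug p (D.Po y)) :
    φ (n' * u) = 0 := by
  obtain ⟨a, ha, f, hf, rfl, -⟩ := D.as_fs w hu
  obtain ⟨δ, hδ, -, rfl⟩ := D.mon_two hn hn'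
  rw [mul_assoc, hφ δ (D.tg_bg hδ), D.as_left hφ hn ha, h f hf, mul_zero]

omit [NormedAlgebra ℚ_[p] C] [IsUltrametricDist C] [FiniteDimensional ℚ_[p] C] in
theorem Tg2_inj {χ : ↥(D.Tg p) →* Cˣ} {h : X →+ ℝ} {y : Y}
    {W : Set (D.Gt p → C)} {w : D.W} {n : D.Gt p} (hn : D.IsN w n)
    (hmin : ∀ v : D.W, D.Stb h v → (∃ φ : D.Gt p → C, D.VK χ h y W v φ ∧
      ∃ x ∈ D.DD p h y, φ x ≠ 0) → D.key y w ≤ D.key y v)
    {φ : D.Gt p → C} (hφ : D.VK χ h y W w φ) (h0 : ∀ u ∈ D.Ug p (D.Fst y w), φ (n * u) = 0)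
    {x : D.Gt p} (hx : x ∈ D.DD p h y) : φ x = 0 := by
  classical
  have := D.w_finite
  have := Fintype.ofFinite D.W
  by_contra hne
  let P : D.W → Prop := fun v => D.Stb h v ∧ ∃ n' u : D.Gt p, D.IsN v n' ∧
    u ∈ D.Ug p (D.Po y) ∧ φ (n' * u) ≠ 0
  have hPne : (Finset.univ.filter P).Nonempty := by
    obtain ⟨v, w1, u1, hw1, hv, hu1, rfl⟩ := hx
    exact ⟨v, Finset.mem_filter.2 ⟨Finset.mem_univ _, hv, w1, u1, hw1, hu1, hne⟩⟩
  obtain ⟨v, hvP, hmax⟩ := Finset.exists_max_image (Finset.univ.filter P) (D.key y) hPne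
  obtain ⟨-, hv, n', u, hn', hu, hwu⟩ := Finset.mem_filter.1 hvP
  have h1 : ¬ D.key y w < D.key y v := fun hk => hwu (hφ.zero v n' hn' hv hk u hu)
  have h2 : D.key y w ≠ D.key y v := by
    intro hk
    have h3 := D.key_inj hk
    subst h3
    exact hwu (D.Tg2_zero hφ.vv.left hn hn' h0 hu)
  have h3 : D.VK χ h y W v φ := by
    refine ⟨hφ.vv, fun v' n'' hn'' hv' hkey u' hu' => ?_⟩
    by_contra hne'
    have h4 := hmax v' (Finset.mem_filter.2 ⟨Finset.mem_univ _, hv', n'', u', hn'', hu', hne'⟩)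
    omega
  have h4 := hmin v hv ⟨φ, h3, n' * u, ⟨v, n', u, hn', hv, hu, rfl⟩, hwu⟩
  omega

theorem sd_exists {χ : ↥(D.Tg p) →* Cˣ} {h : X →+ ℝ} {y : Y} (hs : D.Slope χ h)
    (hy : D.Srt h y) {W : Set (D.Gt p → C)} (hW : D.CS χ W) (hne : ∃ f ∈ W, ∃ x, f x ≠ 0) :
    ∃ (w : D.W) (n : D.Gt p) (C1 : ℝ), D.SD χ h y W w n C1 := by
  classical
  have := D.w_finite
  have := Fintype.ofFinite D.W
  obtain ⟨f, hf, x, hfx⟩ := hne
  let Q : D.W → Prop := fun v => D.Stb h v ∧ ∃ φ : D.Gt p → C, D.VK χ h y W v φ ∧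
    ∃ x ∈ D.DD p h y, φ x ≠ 0
  have hQne : (Finset.univ.filter Q).Nonempty := by
    obtain ⟨v0, hv0, hmax⟩ := Finset.exists_max_image
      (Finset.univ.filter fun v : D.W => D.Stb h v) (D.key y)
      ⟨1, Finset.mem_filter.2 ⟨Finset.mem_univ _, D.stb_one⟩⟩
    refine ⟨v0, Finset.mem_filter.2 ⟨Finset.mem_univ _, (Finset.mem_filter.1 hv0).2,
      fun z => f (z * x), ⟨D.vv_of_mem hW (hW.trans x f hf), ?_⟩, 1, D.dd_one, ?_⟩⟩
    · intro v n hn hv hkey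
      have h1 := hmax v (Finset.mem_filter.2 ⟨Finset.mem_univ _, hv⟩)
      omega
    · show f (1 * x) ≠ 0
      rwa [one_mul]
  obtain ⟨w, hwQ, hmin⟩ := Finset.exists_min_image (Finset.univ.filter Q) (D.key y) hQne
  obtain ⟨-, hw, φ₀, hφ₀, x₀, hx₀, hne₀⟩ := Finset.mem_filter.1 hwQ
  obtain ⟨n, hn⟩ := D.isN_ex p w
  have hmin' : ∀ v : D.W, D.Stb h v → (∃ φ : D.Gt p → C, D.VK χ h y W v φ ∧
      ∃ x ∈ D.DD p h y, φ x ≠ 0) → D.key y w ≤ D.key y v := fun v hv hv' =>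
    hmin v (Finset.mem_filter.2 ⟨Finset.mem_univ _, hv, hv'⟩)
  have hnew : ∃ u ∈ D.Ug p (D.Fst y w), φ₀ (n * u) ≠ 0 := by
    by_contra hcon
    push Not at hcon
    exact hne₀ (D.Tg2_inj hn hmin' hφ₀ hcon hx₀)
  obtain ⟨C1, hC1⟩ := D.vk_surj hs hy hW hn hw hφ₀ hnew
  exact ⟨w, n, C1, hn, hw, fun φ hφ h0 x hx => D.Tg2_inj hn hmin' hφ h0 hx, hC1⟩

end Ctx

end

end Pool.Agent.Lib.MP_f399a8_nt.G
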