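import Pool.Agent.Lib.MP_f399a8_ntG.Tg1
import Pool.Agent.Lib.MP_f399a8_ntS.TiH

/-!
# No bounded `p`-adic Haar measure

(The same for `SL_n`: file `MP_f399a8_ntS.TiI`; copy and adapt.)

PROOF of `gpow_norm`: `g = 1 + p^m₁`, `m₁ ≥ 2`: `‖g^k - 1‖ = ‖k‖ * p^(-m₁)` for `k ≠ 0` (natural; binomial theorem, or see the proofs of `S.gen_coset2` in `TiH`, `N1`).
PROOF of `nh1`.  Let `Φ` be `VK … w` with `Φ (n * u) = 0` for `u ∈ Ug (Fst y w)`, `‖u c d‖ ≤ δ`, invariant under conjugation by elements of the torus in `Kmg m0`; `B` a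
bound of `‖Φ‖` on `DD` (`vv_bound`).
Let `m₁ ≥ max m0 3` be such that `‖cb χ b - 1‖ ≤ p^(-1)` for `b ∈ Bg ∩ Kmg m₁` (`cb_near`), `g = 1 + p^(m₁)` (a unit).  Since `wt c ≠ wt d` there is `y' : Y` with
`m := ⟨wt c, y'⟩ - ⟨wt d, y'⟩ > 0` (`pa_ext_x`, replace `y'` by `-y'`), `τ = cc y' g ∈ Tg`, in `Kmg m₁` (the entries `g^k - 1`, `k : ℤ`, have norm `≤ p^(-m₁)`).
`(τ * u * τ⁻¹) c d = γ * u c d` with `γ = g^m` (diagonal matrices, `cc_val`).  `‖γ - 1‖ = ‖m‖ * p^(-m₁) = p^(-m₂)` with `m₂ ≥ m₁ ≥ 2` (`gpow_norm`).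
Let `A₀ = cb χ (n τ n⁻¹)`, `A₁ = cb χ (n' τ n'⁻¹)`, `ω = A₁ / A₀`: `n τ n⁻¹, n' τ n'⁻¹ ∈ Tg ∩ Kmg m₁ ⊆ Bg ∩ Kmg m₁` (`kmg_conj`, `isN_K`, `wtw`, `tg_bg`), so
`‖A₀ - 1‖, ‖A₁ - 1‖ ≤ p^(-1)`, `‖A₀‖ = 1` and `‖ω - 1‖ ≤ p^(-1)`.
Fix `e : ℕ`, `P = p^e`, `θ` from `S.theta_exists`.  For `k : ZMod P` let `ψ_k x = if δ < ‖x c d‖ ∧ θ (x c d) = k then Φ (n * x) else 0`.  It is continuous on
`Ug (Fst y w)` (`vk_cont`; the condition is locally constant: `{δ < ‖z‖}` is open and closed and `θ` is locally constant there; `δ > 0`), `C0` and bounded by `B` on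
`Ug (Fst y w)` (`vk_c0`).  On `Ug (Fst y w)`: `∑_k ψ_k u = Φ (n * u)`, and `ψ_{k+1} u = ψ_k (τ⁻¹ u τ)` (`(τ⁻¹ u τ) c d = γ⁻¹ * u c d`, same norm, and
`Φ (n * (τ⁻¹ u τ)) = Φ (n * u)` by invariance; `Kmg m₁ ⊆ Kmg m0`).
Let `Φ₀` be the lift of `ψ_0` (`SD.surj`), `‖Φ₀‖ ≤ C1 * B`.  For `k : ℕ` let `Φ_k x = A₀^(-k) * Φ₀ (x * τ^k)`, in `VK` (`vk_diag`), and `Φ_k (n * u) = ψ_k u` by
induction (`wtw`: `Φ₀ (n * u * τ^k) = cb χ (n τ^k n⁻¹) * Φ₀ (n * (τ^-k u τ^k))`, `cb_mul`).  So `Φ - ∑_{k<P} Φ_k` is in `VK` and vanishes on `n * Ug (Fst y w)`, hence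
on `DD` (`SD.inj`).  At `n' ∈ DD`: `Φ n' = ∑_{k<P} A₀^(-k) * Φ₀ (n' * τ^k) = ∑_{k<P} ω^k * Φ₀ n'` (`n' * τ^k = (n' τ^k n'⁻¹) * n'`).  So `‖Φ n'‖ ≤ p^(-e) * C1 * B`
(`S.geom_small`) for all `e`, `Φ n' = 0`.
-/

namespace Pool.Agent.Lib.MP_f399a8_nt.G

open Matrix Filter Topology

noncomputable section

section

variable {p : ℕ} [Fact p.Prime]

private theorem Ti1_p_one : (1 : ℝ) < p := by
  exact_mod_cast (Fact.out : p.Prime).one_lt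

private theorem Ti1_norm_p : (0 : ℝ) < (p : ℝ)⁻¹ ∧ (p : ℝ)⁻¹ < 1 := by
  have h1 : (1 : ℝ) < p := Ti1_p_one
  exact ⟨inv_pos.2 (zero_lt_one.trans h1), inv_lt_one_of_one_lt₀ h1⟩

private theorem Ti1_norm_le_one {F : Type*} [NormedField F] [IsUltrametricDist F] {x : F}
    (hx : ‖x - 1‖ ≤ 1) : ‖x‖ ≤ 1 := by
  have h := IsUltrametricDist.norm_add_le_max (x - 1) 1
  rw [sub_add_cancel, norm_one] at h
  exact h.trans (max_le hx le_rfl)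

private theorem Ti1_pow_sub {F : Type*} [NormedField F] [IsUltrametricDist F] {x : F}
    (hx : ‖x - 1‖ ≤ 1) (i : ℕ) : ‖x ^ i - 1‖ ≤ ‖x - 1‖ := by
  induction i with
  | zero => simp
  | succ i ih =>
    have e : x ^ (i + 1) - 1 = x * (x ^ i - 1) + (x - 1) := by ring
    rw [e]
    refine (IsUltrametricDist.norm_add_le_max _ _).trans (max_le ?_ le_rfl)
    rw [norm_mul]
    exact (mul_le_of_le_one_left (norm_nonneg _) (Ti1_norm_le_one hx)).trans ih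

private theorem Ti1_sum_eq {F : Type*} [NormedField F] (x : F) (n : ℕ) :
    ∑ i ∈ Finset.range n, x ^ i = (n : F) + ∑ i ∈ Finset.range n, (x ^ i - 1) := by
  rw [Finset.sum_sub_distrib]
  simp

private theorem Ti1_sum_norm {x : ℚ_[p]} {n : ℕ} (hx1 : ‖x - 1‖ ≤ 1)
    (hx : ‖x - 1‖ < ‖(n : ℚ_[p])‖) : ‖∑ i ∈ Finset.range n, x ^ i‖ = ‖(n : ℚ_[p])‖ := by
  have h2 : ‖∑ i ∈ Finset.range n, (x ^ i - 1)‖ ≤ ‖x - 1‖ :=
    IsUltrametricDist.norm_sum_le_of_forall_le_of_nonneg (norm_nonneg _) fun i _ => Ti1_pow_sub hx1 i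
  have h3 : ‖∑ i ∈ Finset.range n, (x ^ i - 1)‖ < ‖(n : ℚ_[p])‖ := lt_of_le_of_lt h2 hx
  rw [Ti1_sum_eq, IsUltrametricDist.norm_add_eq_max_of_norm_ne_norm h3.ne', max_eq_left h3.le]

private theorem Ti1_norm_formula (r : ℕ) : ∀ x : ℚ_[p], ‖x - 1‖ ≤ (p : ℝ) ^ (-2 : ℤ) →
    ‖x ^ r - 1‖ = ‖(r : ℚ_[p])‖ * ‖x - 1‖ := by
  have hp1 := Ti1_p_one (p := p)
  have h21 : (p : ℝ) ^ (-2 : ℤ) < (p : ℝ)⁻¹ := by
    rw [← _root_.zpow_neg_one]
    exact zpow_lt_zpow_right₀ hp1 (by norm_num)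
  have h10 : (p : ℝ)⁻¹ < 1 := inv_lt_one_of_one_lt₀ hp1
  induction r using Nat.recOnMul with
  | zero => intro x _; simp
  | one => intro x _; simp
  | prime q hq =>
    intro x hx
    have hx1 : ‖x - 1‖ ≤ 1 := hx.trans (h21.trans h10).le
    rw [← geom_sum_mul, norm_mul, Ti1_sum_norm hx1]
    rcases eq_or_ne p q with rfl | hpq
    · rw [Padic.norm_p]
      exact lt_of_le_of_lt hx h21
    · rw [Padic.norm_natCast_eq_one_iff.2 ((Nat.coprime_primes Fact.out hq).2 hpq)]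
      exact lt_of_le_of_lt hx (h21.trans h10)
  | mul a b iha ihb =>
    intro x hx
    have hx1 : ‖x - 1‖ ≤ 1 := hx.trans (h21.trans h10).le
    rw [pow_mul, ihb (x ^ a) ((Ti1_pow_sub hx1 a).trans hx), iha x hx, Nat.cast_mul, norm_mul]
    ring

/-- elements close to `1` have norm `1` -/
private theorem Ti1_norm_one {K : Type*} [NormedField K] [IsUltrametricDist K] {x : K}
    (h : ‖x - 1‖ < 1) : ‖x‖ = 1 := by
  have h1 : ‖x - 1‖ < ‖(1 : K)‖ := by rwa [norm_one]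
  have h2 := IsUltrametricDist.norm_add_eq_max_of_norm_ne_norm h1.ne
  rw [sub_add_cancel, max_eq_right h1.le, norm_one] at h2
  exact h2

private theorem Ti1_norm_near {K : Type*} [NormedField K] [IsUltrametricDist K] {x y : K}
    (h : ‖x - y‖ < ‖y‖) : ‖x‖ = ‖y‖ := by
  have h2 := IsUltrametricDist.norm_add_eq_max_of_norm_ne_norm h.ne
  rw [sub_add_cancel, max_eq_right h.le] at h2
  exact h2

private theorem Ti1_zpow_sub {F : Type*} [NormedField F] [IsUltrametricDist F] {x : F}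
    (hx : ‖x - 1‖ < 1) (k : ℤ) : ‖x ^ k - 1‖ ≤ ‖x - 1‖ := by
  have hx1 : ‖x‖ = 1 := Ti1_norm_one hx
  obtain ⟨i, rfl | rfl⟩ := k.eq_nat_or_neg
  · rw [zpow_natCast]
    exact Ti1_pow_sub hx.le i
  · rw [_root_.zpow_neg, zpow_natCast]
    have hxi : x ^ i ≠ 0 := by
      rw [← norm_ne_zero_iff, norm_pow, hx1, one_pow]
      exact one_ne_zero
    have e : (x ^ i)⁻¹ - 1 = -((x ^ i)⁻¹ * (x ^ i - 1)) := by
      field_simp
      ring
    rw [e, norm_neg, norm_mul, norm_inv, norm_pow, hx1, one_pow, inv_one, one_mul]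
    exact Ti1_pow_sub hx.le i

/-- the sets defined by `θ` are open and closed -/
private theorem Ti1_clopen {M : ℕ} {Z : Type*} {θ : ℚ_[p] → Z} (hθ : ∀ y y' : ℚ_[p], y ≠ 0 →
    ‖y' - y‖ ≤ (p : ℝ) ^ (-(M : ℤ)) * ‖y‖ → θ y' = θ y) {δ : ℝ} (hδ : 0 < δ) (k : Z) :
    IsClopen {y : ℚ_[p] | δ < ‖y‖ ∧ θ y = k} := by
  have hp1 : (1 : ℝ) < p := by exact_mod_cast (Fact.out : p.Prime).one_lt
  have hp0 : (0 : ℝ) < p := zero_lt_one.trans hp1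
  have hM1 : (p : ℝ) ^ (-(M : ℤ)) ≤ 1 := zpow_le_one_of_nonpos₀ hp1.le (by simp)
  have hM0 : (0 : ℝ) < (p : ℝ) ^ (-(M : ℤ)) := zpow_pos hp0 _
  have key : ∀ y : ℚ_[p], δ < ‖y‖ → ∀ y' ∈ Metric.ball y ((p : ℝ) ^ (-(M : ℤ)) * ‖y‖),
      ‖y'‖ = ‖y‖ ∧ θ y' = θ y := by
    intro y hy y' hy'
    rw [Metric.mem_ball, dist_eq_norm] at hy'
    have hy0 : y ≠ 0 := by
      rintro rfl
      rw [norm_zero] at hy
      exact lt_irrefl _ (hδ.trans hy)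
    exact ⟨Ti1_norm_near (hy'.trans_le (mul_le_of_le_one_left (norm_nonneg _) hM1)),
      hθ y y' hy0 hy'.le⟩
  have hpos : ∀ y : ℚ_[p], δ < ‖y‖ → 0 < (p : ℝ) ^ (-(M : ℤ)) * ‖y‖ := fun y hy =>
    mul_pos hM0 (hδ.trans hy)
  constructor
  · rw [← isOpen_compl_iff, Metric.isOpen_iff]
    intro y hy
    by_cases h1 : δ < ‖y‖
    · refine ⟨_, hpos y h1, fun y' hy' h2 => hy ⟨h1, ?_⟩⟩
      obtain ⟨-, h3⟩ := key y h1 y' hy'
      rw [← h3]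
      exact h2.2
    · refine ⟨δ, hδ, fun y' hy' h2 => ?_⟩
      rw [Metric.mem_ball, dist_eq_norm] at hy'
      have h3 := IsUltrametricDist.norm_add_le_max (y' - y) y
      rw [sub_add_cancel] at h3
      have h4 : ‖y'‖ ≤ δ := h3.trans (max_le hy'.le (not_lt.1 h1))
      exact absurd h2.1 (not_lt.2 h4)
  · rw [Metric.isOpen_iff]
    intro y hy
    refine ⟨_, hpos y hy.1, fun y' hy' => ?_⟩
    obtain ⟨h2, h3⟩ := key y hy.1 y' hy'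
    refine ⟨?_, ?_⟩
    · rw [h2]
      exact hy.1
    · rw [h3]
      exact hy.2

private theorem Ti1_norm_pm (m : ℕ) : ‖(p : ℚ_[p]) ^ m‖ = (p : ℝ) ^ (-(m : ℤ)) := by
  rw [norm_pow, Padic.norm_p, _root_.zpow_neg, zpow_natCast, inv_pow]

end

theorem gpow_norm {p : ℕ} [Fact p.Prime] {m₁ : ℕ} (hm : 2 ≤ m₁) {k : ℕ} (hk : k ≠ 0) :
    ‖((1 : ℚ_[p]) + (p : ℚ_[p]) ^ m₁) ^ k - 1‖ = ‖(k : ℚ_[p])‖ * (p : ℝ) ^ (-(m₁ : ℤ)) := by
  have h1 : ‖((1 : ℚ_[p]) + (p : ℚ_[p]) ^ m₁) - 1‖ = (p : ℝ) ^ (-(m₁ : ℤ)) := by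
    rw [add_sub_cancel_left, Ti1_norm_pm]
  rw [Ti1_norm_formula k _ (by
    rw [h1]
    exact zpow_le_zpow_right₀ Ti1_p_one.le (by omega)), h1]

namespace Ctx

variable {ι X Y : Type*} [Finite ι] [AddCommGroup X] [AddCommGroup Y] {N : ℕ} (D : Ctx ι X Y N)
  {p : ℕ} [Fact p.Prime] {C : Type*} [NormedField C] [NormedAlgebra ℚ_[p] C]
  [IsUltrametricDist C] [FiniteDimensional ℚ_[p] C]

private theorem Ti1_y {c d : Fin N} (hcd : D.wt c ≠ D.wt d) :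
    ∃ (y' : Y) (k : ℕ), k ≠ 0 ∧ D.wp c y' = D.wp d y' + (k : ℤ) := by
  obtain ⟨y', hy'⟩ : ∃ y', D.pa (D.wt c) y' ≠ D.pa (D.wt d) y' := by
    by_contra h
    push Not at h
    exact hcd (D.pa_ext_x h)
  have hneg : ∀ x : X, D.pa x (-y') = - D.pa x y' := fun x => by
    unfold pa
    rw [map_neg]
  rcases lt_or_gt_of_ne hy' with h | h
  · refine ⟨-y', (D.pa (D.wt d) y' - D.pa (D.wt c) y').toNat, by omega, ?_⟩
    rw [D.wp_def, D.wp_def, hneg, hneg]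
    omega
  · refine ⟨y', (D.pa (D.wt c) y' - D.pa (D.wt d) y').toNat, by omega, ?_⟩
    rw [D.wp_def, D.wp_def]
    omega

/-- the element of the torus -/
private theorem Ti1_tau {c d : Fin N} (hcd : D.wt c ≠ D.wt d) {g : ℚ_[p]} (hg : g ≠ 0) {m : ℕ}
    (hm : 1 ≤ m) (hg1 : ‖g - 1‖ ≤ (p : ℝ) ^ (-(m : ℤ))) :
    ∃ (τ : D.Gt p) (k : ℕ), k ≠ 0 ∧ τ ∈ D.Tg p ∧ τ ∈ D.Kmg p m ∧
      ∀ u : D.Gt p, (τ⁻¹ * u * τ).1.1 c d = (g ^ k)⁻¹ * u.1.1 c d := by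
  obtain ⟨y', k, hk, hyk⟩ := D.Ti1_y hcd
  have hp1 := Ti1_p_one (p := p)
  have hlt : ‖g - 1‖ < 1 := hg1.trans_lt (zpow_lt_one_of_neg₀ hp1 (by omega))
  have hτ : D.cc p y' (Units.mk0 g hg) ∈ D.Tg p := D.cc_torus p y' _
  have hval : ∀ i, (D.cc p y' (Units.mk0 g hg)).1.1 i i = g ^ (D.wp i y') := by
    intro i
    rw [D.cc_val]
    unfold cd
    rw [Matrix.diagonal_apply_eq, Units.val_zpow_eq_zpow_val, Units.val_mk0]
  refine ⟨D.cc p y' (Units.mk0 g hg), k, hk, hτ, ?_, ?_⟩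
  · rw [mem_Kmg]
    intro i j
    by_cases hij : i = j
    · subst hij
      rw [hval, Matrix.one_apply_eq]
      exact (Ti1_zpow_sub hlt _).trans hg1
    · rw [D.tg_off hτ hij, Matrix.one_apply_ne hij, sub_zero, norm_zero]
      positivity
  · intro u
    obtain ⟨z, hz⟩ : ∃ z : D.Gt p, z = (D.cc p y' (Units.mk0 g hg))⁻¹ * u *
      D.cc p y' (Units.mk0 g hg) := ⟨_, rfl⟩
    have h1 : D.cc p y' (Units.mk0 g hg) * z = u * D.cc p y' (Units.mk0 g hg) := by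
      rw [hz]
      group
    have h2 : (D.cc p y' (Units.mk0 g hg) * z).1.1 c d =
        (u * D.cc p y' (Units.mk0 g hg)).1.1 c d := by rw [h1]
    rw [D.val_mul, D.val_mul, Matrix.mul_apply, Matrix.mul_apply,
      Finset.sum_eq_single c (fun j _ hj => by rw [D.tg_off hτ (Ne.symm hj), zero_mul])
        (fun h => absurd (Finset.mem_univ c) h),
      Finset.sum_eq_single d (fun j _ hj => by rw [D.tg_off hτ hj, mul_zero])
        (fun h => absurd (Finset.mem_univ d) h), hval, hval, hyk, zpow_add₀ hg,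
      zpow_natCast] at h2
    rw [← hz]
    have hgd : g ^ (D.wp d y') ≠ 0 := zpow_ne_zero _ hg
    have hgk : g ^ k ≠ 0 := pow_ne_zero _ hg
    rw [eq_inv_mul_iff_mul_eq₀ hgk]
    apply mul_left_cancel₀ hgd
    rw [← mul_assoc, h2]
    exact mul_comm _ _

theorem nh1 {χ : ↥(D.Tg p) →* Cˣ} (hχ : Continuous χ) {h : X →+ ℝ} {y : Y} (hs : D.Slope χ h)
    (hy : D.Srt h y) {W : Set (D.Gt p → C)} (hW : D.CS χ W) {w : D.W} {n : D.Gt p} {C1 : ℝ}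
    (hS : D.SD χ h y W w n C1) {c d : Fin N} (hcd : D.wt c ≠ D.wt d) {δ : ℝ} (hδ : 0 < δ)
    {m0 : ℕ} {Φ : D.Gt p → C} (hΦ : D.VK χ h y W w Φ)
    (hz : ∀ u ∈ D.Ug p (D.Fst y w), ‖u.1.1 c d‖ ≤ δ → Φ (n * u) = 0)
    (hinv : ∀ τ ∈ D.Tg p, τ ∈ D.Kmg p m0 → ∀ u ∈ D.Ug p (D.Fst y w),
      Φ (n * (τ⁻¹ * u * τ)) = Φ (n * u))
    {w' : D.W} {n' : D.Gt p} (hn' : D.IsN w' n') (hst' : D.Stb h w') : Φ n' = 0 := by
  classical
  have hp1 : (1 : ℝ) < p := by exact_mod_cast (Fact.out : p.Prime).one_lt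
  have hp0 : (0 : ℝ) < p := zero_lt_one.trans hp1
  obtain ⟨B, hB0, hB⟩ := D.vv_bound hs hy hW hΦ.vv
  obtain ⟨m', hm'1, hm'⟩ := D.cb_near hχ (Ti1_norm_p (p := p)).1
  set m₁ := max (max m0 3) m' with hm₁
  have hm₁3 : 3 ≤ m₁ := (le_max_right _ _).trans (le_max_left _ _)
  have hm₁0 : m0 ≤ m₁ := (le_max_left _ _).trans (le_max_left _ _)
  have hm₁' : m' ≤ m₁ := le_max_right _ _
  have hpm : ‖(p : ℚ_[p]) ^ m₁‖ = (p : ℝ) ^ (-(m₁ : ℤ)) := Ti1_norm_pm m₁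
  have hpm1 : (p : ℝ) ^ (-(m₁ : ℤ)) < 1 := zpow_lt_one_of_neg₀ hp1 (by omega)
  set g : ℚ_[p] := 1 + (p : ℚ_[p]) ^ m₁ with hg
  have hg1 : ‖g - 1‖ = (p : ℝ) ^ (-(m₁ : ℤ)) := by rw [hg, add_sub_cancel_left, hpm]
  have hgn : ‖g‖ = 1 := Ti1_norm_one (by rw [hg1]; exact hpm1)
  have hg0 : g ≠ 0 := by
    rintro h0
    rw [h0, norm_zero] at hgn
    exact zero_ne_one hgn
  obtain ⟨τ, kk, hkk, hτD, hτK, hτc⟩ := D.Ti1_tau hcd hg0 (by omega : 1 ≤ m₁) hg1.le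
  obtain ⟨m₂, hm₂, hγ⟩ : ∃ m₂ : ℕ, 2 ≤ m₂ ∧ ‖g ^ kk - 1‖ = (p : ℝ) ^ (-(m₂ : ℤ)) := by
    refine ⟨m₁ + padicValNat p kk, by omega, ?_⟩
    have h1 : ‖(kk : ℚ_[p])‖ = (p : ℝ) ^ (-(padicValNat p kk : ℤ)) := by
      rw [Padic.norm_eq_zpow_neg_valuation (Nat.cast_ne_zero.2 hkk), Padic.valuation_natCast]
    rw [hg, gpow_norm (by omega : 2 ≤ m₁) hkk, h1, ← zpow_add₀ hp0.ne']
    congr 1
    push_cast
    ring
  obtain ⟨γ, hγdef⟩ : ∃ γ : ℚ_[p], γ = g ^ kk := ⟨_, rfl⟩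
  rw [← hγdef] at hγ hτc
  have hγn : ‖γ‖ = 1 := by rw [hγdef, norm_pow, hgn, one_pow]
  have hw := hS.isn
  have hwt := hS.stb
  -- the two values
  set A₀ : C := D.cb χ (n * τ * n⁻¹) with hA₀
  set A₁ : C := D.cb χ (n' * τ * n'⁻¹) with hA₁
  have hnear : ∀ {ρ : D.W} {x : D.Gt p}, D.IsN ρ x →
      ‖D.cb χ (x * τ * x⁻¹) - 1‖ ≤ (p : ℝ)⁻¹ := by
    intro ρ x hx
    refine hm' _ (D.tg_bg (D.wtw hx hτD).1) (D.kmg_anti hm₁' ?_)
    exact (D.kmg_conj (D.isN_K hx) hτK).1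
  have hA₀1 := hnear hw
  have hA₁1 := hnear hn'
  rw [← hA₀] at hA₀1
  rw [← hA₁] at hA₁1
  have hA₀n : ‖A₀‖ = 1 := Ti1_norm_one (hA₀1.trans_lt Ti1_norm_p.2)
  have hA₀0 : A₀ ≠ 0 := D.cb_ne_zero χ _
  have hω : ‖A₁ * A₀⁻¹ - 1‖ ≤ (p : ℝ)⁻¹ := by
    have e : A₁ * A₀⁻¹ - 1 = ((A₁ - 1) - (A₀ - 1)) * A₀⁻¹ := by
      field_simp
      ring
    rw [e, norm_mul, norm_inv, hA₀n, inv_one, mul_one, sub_eq_add_neg]
    refine (IsUltrametricDist.norm_add_le_max _ _).trans (max_le hA₁1 ?_)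
    rw [norm_neg]
    exact hA₀1
  -- invariance
  have hτinv : ∀ u ∈ D.Ug p (D.Fst y w), τ⁻¹ * u * τ ∈ D.Ug p (D.Fst y w) := fun u hu =>
    (D.tg_ug hτD hu).2
  have hΦinv : ∀ u ∈ D.Ug p (D.Fst y w), Φ (n * (τ⁻¹ * u * τ)) = Φ (n * u) :=
    hinv τ hτD (D.kmg_anti hm₁0 hτK)
  have hγ0 : γ ≠ 0 := by
    rw [hγdef]
    exact pow_ne_zero _ hg0
  have hfo : ∀ {u : D.Gt p}, u ∈ D.Ug p (D.Fst y w) → u ∈ D.Ug p (D.Po y) := fun hu =>
    D.ug_mono (D.fst_sub y w) hu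
  have hdd : ∀ {u : D.Gt p}, u ∈ D.Ug p (D.Fst y w) → n * u ∈ D.DD p h y := fun hu =>
    ⟨w, n, _, hw, hwt, hfo hu, rfl⟩
  -- the estimate
  have main : ∀ e : ℕ, ‖Φ n'‖ ≤ (p : ℝ) ^ (-(e : ℤ)) * (C1 * B) := by
    intro e
    obtain ⟨θ, hθ1, hθ2⟩ := S.theta_exists hm₂ hγ e
    have hP : NeZero (p ^ e) := ⟨pow_ne_zero _ (Fact.out : p.Prime).ne_zero⟩
    set ψ : ZMod (p ^ e) → D.Gt p → C := fun k x =>
      if δ < ‖x.1.1 c d‖ ∧ θ (x.1.1 c d) = k then Φ (n * x) else 0 with hψ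
    have hcont : ∀ k, ContinuousOn (ψ k) (D.Ug p (D.Fst y w) : Set (D.Gt p)) := by
      intro k
      have hcl : IsClopen {x : D.Gt p | δ < ‖x.1.1 c d‖ ∧ θ (x.1.1 c d) = k} :=
        (Ti1_clopen hθ2 hδ k).preimage (D.entry_cont c d)
      refine ContinuousOn.if ?_ ?_ continuousOn_const
      · intro a ha
        rw [hcl.frontier_eq] at ha
        exact absurd ha.2 (Set.notMem_empty _)
      · exact (D.vk_cont hW hw hwt hΦ.vv).mono fun x hx => hfo hx.1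
    have hC0 : ∀ k, D.C0 (D.Fst y w) (ψ k) := by
      intro k ε hε
      obtain ⟨A, hA⟩ := D.vk_c0 hs hy hW hw hwt hΦ ε hε
      refine ⟨A, fun x hx hεx => hA x hx ?_⟩
      simp only [hψ] at hεx
      by_cases h : δ < ‖x.1.1 c d‖ ∧ θ (x.1.1 c d) = k
      · rwa [if_pos h] at hεx
      · rw [if_neg h, norm_zero] at hεx
        exact absurd hεx (not_le.2 hε)
    have hbd : ∀ k, ∀ u ∈ D.Ug p (D.Fst y w), ‖ψ k u‖ ≤ B := by
      intro k u hu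
      simp only [hψ]
      split_ifs
      · exact hB _ (hdd hu)
      · rw [norm_zero]
        exact hB0.le
    obtain ⟨Φ₀, hΦ₀, hΦ₀U, hΦ₀B⟩ := hS.surj (ψ 0) (hcont 0) (hC0 0) B hB0.le (hbd 0)
    set Φk : ℕ → D.Gt p → C := fun k x => (A₀⁻¹) ^ k * Φ₀ (x * τ ^ k) with hΦk
    have hΦkV : ∀ k, D.VK χ h y W w (Φk k) := fun k =>
      D.vk_smul hW _ (D.vk_diag hs hW ((D.Tg p).pow_mem hτD k) hΦ₀)
    have hΦkU : ∀ k : ℕ, ∀ u ∈ D.Ug p (D.Fst y w), Φk k (n * u) = ψ (k : ZMod (p ^ e)) u := by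
      intro k
      induction k with
      | zero =>
        intro u hu
        rw [hΦk]
        simp only
        rw [pow_zero, pow_zero, mul_one, one_mul, Nat.cast_zero]
        exact hΦ₀U u hu
      | succ k ih =>
        intro u hu
        have e1 : Φk (k + 1) (n * u) = Φk k (n * (τ⁻¹ * u * τ)) := by
          rw [hΦk]
          simp only
          have e2 : n * u * τ ^ (k + 1) = (n * τ * n⁻¹) * (n * (τ⁻¹ * u * τ) * τ ^ k) := by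
            rw [pow_succ' τ k, ← mul_assoc (n * u), (D.wtw hw hτD).2 u, mul_assoc]
          rw [e2, hΦ₀.vv.left _ (D.tg_bg (D.wtw hw hτD).1), ← hA₀, pow_succ, mul_assoc,
            ← mul_assoc A₀⁻¹ A₀, inv_mul_cancel₀ hA₀0, one_mul]
        rw [e1, ih _ (hτinv u hu)]
        simp only [hψ]
        rw [hτc u]
        have hn : ‖γ⁻¹ * u.1.1 c d‖ = ‖u.1.1 c d‖ := by
          rw [norm_mul, norm_inv, hγn, inv_one, one_mul]
        rw [hn, hΦinv u hu]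
        by_cases hδu : δ < ‖u.1.1 c d‖
        · have hy0 : γ⁻¹ * u.1.1 c d ≠ 0 := by
            intro h0
            rw [h0, norm_zero] at hn
            rw [← hn] at hδu
            exact lt_irrefl _ (hδ.trans hδu)
          have h3 := hθ1 _ hy0
          rw [← mul_assoc, mul_inv_cancel₀ hγ0, one_mul] at h3
          have hiff : (δ < ‖u.1.1 c d‖ ∧ θ (γ⁻¹ * u.1.1 c d) = (k : ZMod (p ^ e))) ↔
              (δ < ‖u.1.1 c d‖ ∧ θ (u.1.1 c d) = ((k + 1 : ℕ) : ZMod (p ^ e))) := by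
            rw [h3, Nat.cast_succ, add_left_inj]
          exact if_congr hiff rfl rfl
        · rw [if_neg (fun h => hδu h.1), if_neg (fun h => hδu h.1)]
    have hsumV : D.VK χ h y W w (fun x => Φ x + (-1) * ∑ k ∈ Finset.range (p ^ e), Φk k x) :=
      D.vk_add hW hΦ (D.vk_smul hW _ (D.vk_sum hW _ _ fun k _ => hΦkV k))
    have hsum0 : ∀ u ∈ D.Ug p (D.Fst y w),
        Φ (n * u) + (-1) * ∑ k ∈ Finset.range (p ^ e), Φk k (n * u) = 0 := by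
      intro u hu
      have e1 : ∑ k ∈ Finset.range (p ^ e), Φk k (n * u) = Φ (n * u) := by
        rw [Finset.sum_congr rfl fun k _ => hΦkU k u hu]
        simp only [hψ]
        by_cases hδu : δ < ‖u.1.1 c d‖
        · rw [Finset.sum_eq_single (θ (u.1.1 c d)).val]
          · rw [if_pos ⟨hδu, (ZMod.natCast_zmod_val _).symm⟩]
          · intro k hk hne
            rw [if_neg]
            rintro ⟨-, h5⟩
            apply hne
            rw [h5, ZMod.val_natCast, Nat.mod_eq_of_lt (Finset.mem_range.1 hk)]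
          · intro h5
            exact absurd (Finset.mem_range.2 (ZMod.val_lt _)) h5
        · rw [Finset.sum_eq_zero fun k _ => if_neg fun h => hδu h.1]
          exact (hz u hu (not_lt.1 hδu)).symm
      rw [e1]
      ring
    have hw'D : n' ∈ D.DD p h y := ⟨w', n', 1, hn', hst', one_mem _, (mul_one _).symm⟩
    have hfin := hS.inj _ hsumV hsum0 n' hw'D
    have hτk : ∀ k : ℕ, Φ₀ (n' * τ ^ k) = A₁ ^ k * Φ₀ n' := by
      intro k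
      induction k with
      | zero => rw [pow_zero, pow_zero, mul_one, one_mul]
      | succ k ih =>
        have e2 : n' * τ ^ (k + 1) = (n' * τ * n'⁻¹) * (n' * τ ^ k) := by
          rw [pow_succ' τ k]
          group
        rw [e2, hΦ₀.vv.left _ (D.tg_bg (D.wtw hn' hτD).1), ← hA₁, ih, pow_succ']
        ring
    have e3 : Φ n' = (∑ k ∈ Finset.range (p ^ e), (A₁ * A₀⁻¹) ^ k) * Φ₀ n' := by
      have e4 : Φ n' = ∑ k ∈ Finset.range (p ^ e), Φk k n' := by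
        have := hfin
        linear_combination this
      rw [e4, Finset.sum_mul]
      refine Finset.sum_congr rfl fun k _ => ?_
      rw [hΦk]
      simp only
      rw [hτk k, mul_pow]
      ring
    rw [e3, norm_mul]
    exact mul_le_mul (S.geom_small hω e) (hΦ₀B n' hw'D) (norm_nonneg _) (by positivity)
  -- the limit
  have hlim : Tendsto (fun e : ℕ => (p : ℝ) ^ (-(e : ℤ)) * (C1 * B)) atTop (𝓝 0) := by
    have h1 : Tendsto (fun e : ℕ => ((p : ℝ)⁻¹) ^ e) atTop (𝓝 0) :=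
      tendsto_pow_atTop_nhds_zero_of_lt_one Ti1_norm_p.1.le Ti1_norm_p.2
    have h2 := h1.mul_const (C1 * B)
    rw [zero_mul] at h2
    refine h2.congr fun e => ?_
    rw [inv_pow, _root_.zpow_neg, zpow_natCast]
  have h0 : ‖Φ n'‖ ≤ 0 := ge_of_tendsto' hlim main
  exact norm_le_zero_iff.1 h0

end Ctx

end

end Pool.Agent.Lib.MP_f399a8_nt.G
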