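import Pool.Agent.Lib.MP_f399a8_ntG.Ti1

/-!
# Values at other strata of functions vanishing near the base point

(The same for `SL_n`: file `MP_f399a8_ntS.TiI2`; copy and adapt.)

PROOF of `nh2`.  Let `Φ` be `VK … w`, `Φ (n * u) = 0` for `u ∈ Ug (Fst y w) ∩ Kmg m1`, invariant as before.  Let `δ = p^(-m1)`.  For a finite set `Q` of pairs
`(c, d)` with `wt c ≠ wt d` let `ψ_Q x = if ∀ q ∈ Q, ‖x q.1 q.2‖ ≤ δ then Φ (n * x) else 0` (continuous on `Ug (Fst y w)`: `vk_cont` and the condition is locally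
constant; `C0`, bounded), `Φ_Q` its lift.  Claim: `Φ n' = Φ_Q n'` for all such sets `Q`.  Induction on `Q`: `Q = ∅`: `Φ - Φ_∅` vanishes on the stratum, `SD.inj`.
`Q ∪ {q}`: `Φ_Q - Φ_{Q ∪ {q}}` has the values `if (∀ q' ∈ Q, ‖u q'‖ ≤ δ) ∧ δ < ‖u q‖ then Φ (n u) else 0` on the stratum; `nh1` applies with `(c, d) = q` (conjugation by
elements of the torus in `Kmg m0` does not change the norms of the entries: the diagonal entries have norm `1`, `tg_K`, `kmg_le`).  For `Q` = all pairs with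
`wt c ≠ wt d`, `ψ_Q = 0` on `Ug (Fst y w)`: then `u ∈ Kmg m1`, since for the other pairs `u c d = 1 c d` (`ug_supp_y`: a nonidentity entry has
`⟨wt d, y⟩ < ⟨wt c, y⟩`).  So `Φ_Q` vanishes on `DD` (`SD.inj`), and `n' ∈ DD`.
-/

namespace Pool.Agent.Lib.MP_f399a8_nt.G

open Matrix Filter Topology

noncomputable section

namespace Ctx

variable {ι X Y : Type*} [Finite ι] [AddCommGroup X] [AddCommGroup Y] {N : ℕ} (D : Ctx ι X Y N)
  {p : ℕ} [Fact p.Prime] {C : Type*} [NormedField C] [NormedAlgebra ℚ_[p] C]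
  [IsUltrametricDist C] [FiniteDimensional ℚ_[p] C]

omit [NormedField C] [NormedAlgebra ℚ_[p] C] [IsUltrametricDist C] [FiniteDimensional ℚ_[p] C] in
private theorem Ti2_mem {h : X →+ ℝ} {y : Y} {w : D.W} {n u : D.Gt p}
    (hn : D.IsN w n) (hst : D.Stb h w) (hu : u ∈ D.Ug p (D.Fst y w)) : n * u ∈ D.DD p h y :=
  ⟨w, n, u, hn, hst, D.ug_mono (D.fst_sub y w) hu, rfl⟩

private theorem Ti2_mem1 {h : X →+ ℝ} {y : Y} {w : D.W} {n : D.Gt p}
    (hn : D.IsN w n) (hst : D.Stb h w) : n ∈ D.DD p h y :=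
  ⟨w, n, 1, hn, hst, one_mem _, (mul_one n).symm⟩

private theorem Ti2_conj {τ u : D.Gt p} (hD : τ ∈ D.Tg p) (h1 : ∀ i, ‖τ.1.1 i i‖ = 1)
    (i j : Fin N) : ‖(τ⁻¹ * u * τ).1.1 i j‖ = ‖u.1.1 i j‖ := by
  have h2 : τ * (τ⁻¹ * u * τ) = u * τ := by group
  have h3 : (τ * (τ⁻¹ * u * τ)).1.1 i j = (u * τ).1.1 i j := by rw [h2]
  have h4 : (τ * (τ⁻¹ * u * τ)).1.1 i j = τ.1.1 i i * (τ⁻¹ * u * τ).1.1 i j := by
    rw [D.val_mul p τ, Matrix.mul_apply]
    rw [Finset.sum_eq_single i]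
    · intro k _ hk
      rw [D.tg_off hD (Ne.symm hk), zero_mul]
    · intro h
      exact absurd (Finset.mem_univ _) h
  have h5 : (u * τ).1.1 i j = u.1.1 i j * τ.1.1 j j := by
    rw [D.val_mul p u, Matrix.mul_apply]
    rw [Finset.sum_eq_single j]
    · intro k _ hk
      rw [D.tg_off hD hk, mul_zero]
    · intro h
      exact absurd (Finset.mem_univ _) h
  rw [h4, h5] at h3
  have h6 := congrArg norm h3
  rw [norm_mul, norm_mul, h1, h1, one_mul, mul_one] at h6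
  exact h6

open Classical in
private noncomputable def Ti2_psi (δ : ℝ) (g : D.Gt p → C) (Q : Finset (Fin N × Fin N))
    (x : D.Gt p) : C :=
  if ∀ q ∈ Q, ‖x.1.1 q.1 q.2‖ ≤ δ then g x else 0

omit [NormedAlgebra ℚ_[p] C] [IsUltrametricDist C] [FiniteDimensional ℚ_[p] C] in
private theorem Ti2_cont {δ : ℝ} (hδ : 0 < δ) {g : D.Gt p → C} {T : Set (D.Gt p)}
    (hg : ContinuousOn g T) (Q : Finset (Fin N × Fin N)) : ContinuousOn (D.Ti2_psi δ g Q) T := by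
  classical
  have h1 : IsClopen {x : D.Gt p | ∀ q ∈ Q, ‖x.1.1 q.1 q.2‖ ≤ δ} := by
    have h2 : {x : D.Gt p | ∀ q ∈ Q, ‖x.1.1 q.1 q.2‖ ≤ δ} =
        ⋂ q ∈ Q, (fun x : D.Gt p => x.1.1 q.1 q.2) ⁻¹' (Metric.closedBall 0 δ) := by
      ext x
      simp only [Set.mem_ofPred_eq, Set.mem_iInter, Set.mem_preimage, mem_closedBall_zero_iff]
    rw [h2]
    refine isClopen_biInter_finset fun q _ => ?_
    exact (IsUltrametricDist.isClopen_closedBall _ hδ.ne').preimage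
      ((S.continuous_entry q.1 q.2).comp continuous_subtype_val)
  have h3 : D.Ti2_psi δ g Q = fun x => if ∀ q ∈ Q, ‖x.1.1 q.1 q.2‖ ≤ δ then g x else 0 := by
    funext x
    unfold Ti2_psi
    split_ifs <;> rfl
  rw [h3]
  have h4 : (fun x => if ∀ q ∈ Q, ‖x.1.1 q.1 q.2‖ ≤ δ then g x else 0) =
      Set.indicator {x : D.Gt p | ∀ q ∈ Q, ‖x.1.1 q.1 q.2‖ ≤ δ} g := by
    funext x
    rw [Set.indicator_apply]
    exact if_congr (Iff.rfl) rfl rfl
  rw [h4]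
  intro x hx
  by_cases hxm : x ∈ {x : D.Gt p | ∀ q ∈ Q, ‖x.1.1 q.1 q.2‖ ≤ δ}
  · have h5 : g =ᶠ[nhdsWithin x T] Set.indicator {x : D.Gt p | ∀ q ∈ Q, ‖x.1.1 q.1 q.2‖ ≤ δ} g := by
      filter_upwards [mem_nhdsWithin_of_mem_nhds (h1.isOpen.mem_nhds hxm)] with z hz
      exact (Set.indicator_of_mem (s := {x : D.Gt p | ∀ q ∈ Q, ‖x.1.1 q.1 q.2‖ ≤ δ}) hz g).symm
    exact (hg x hx).congr_of_eventuallyEq h5.symm (Set.indicator_of_mem hxm g)
  · have h5 : Set.indicator {x : D.Gt p | ∀ q ∈ Q, ‖x.1.1 q.1 q.2‖ ≤ δ} g =ᶠ[nhdsWithin x T]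
        fun _ => (0 : C) := by
      filter_upwards [mem_nhdsWithin_of_mem_nhds (h1.compl.isOpen.mem_nhds hxm)] with z hz
      exact Set.indicator_of_notMem (s := {x : D.Gt p | ∀ q ∈ Q, ‖x.1.1 q.1 q.2‖ ≤ δ}) hz g
    exact continuousWithinAt_const.congr_of_eventuallyEq h5 (Set.indicator_of_notMem hxm g)

theorem nh2 {χ : ↥(D.Tg p) →* Cˣ} (hχ : Continuous χ) {h : X →+ ℝ} {y : Y} (hs : D.Slope χ h)
    (hy : D.Srt h y) {W : Set (D.Gt p → C)} (hW : D.CS χ W) {w : D.W} {n : D.Gt p} {C1 : ℝ}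
    (hS : D.SD χ h y W w n C1) {m0 m1 : ℕ} {Φ : D.Gt p → C} (hΦ : D.VK χ h y W w Φ)
    (hz : ∀ u ∈ D.Ug p (D.Fst y w), u ∈ D.Kmg p m1 → Φ (n * u) = 0)
    (hinv : ∀ τ ∈ D.Tg p, τ ∈ D.Kmg p m0 → ∀ u ∈ D.Ug p (D.Fst y w),
      Φ (n * (τ⁻¹ * u * τ)) = Φ (n * u))
    {w' : D.W} {n' : D.Gt p} (hn' : D.IsN w' n') (hst' : D.Stb h w') : Φ n' = 0 := by
  classical
  obtain ⟨A, hA0, hA⟩ := D.vv_bound hs hy hW hΦ.vv
  have hp0 : (0 : ℝ) < p := by exact_mod_cast (Fact.out : p.Prime).pos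
  obtain ⟨δ, hδdef⟩ : ∃ δ : ℝ, δ = (p : ℝ) ^ (-(m1 : ℤ)) := ⟨_, rfl⟩
  have hδ : 0 < δ := by
    rw [hδdef]
    exact _root_.zpow_pos hp0 _
  obtain ⟨g, hgdef⟩ : ∃ g : D.Gt p → C, g = fun x => Φ (n * x) := ⟨_, rfl⟩
  have hgc : ContinuousOn g (D.Ug p (D.Fst y w) : Set (D.Gt p)) := by
    rw [hgdef]
    exact (D.vk_cont hW hS.isn hS.stb hΦ.vv).mono (D.ug_mono (D.fst_sub y w))
  have hgu : ∀ u, g u = Φ (n * u) := by
    intro u
    rw [hgdef]
  have hpsi1 : ∀ (Q : Finset (Fin N × Fin N)) (u : D.Gt p),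
      (∀ q ∈ Q, ‖u.1.1 q.1 q.2‖ ≤ δ) → D.Ti2_psi δ g Q u = Φ (n * u) := by
    intro Q u h
    unfold Ti2_psi
    rw [if_pos h, hgu u]
  have hpsi0 : ∀ (Q : Finset (Fin N × Fin N)) (u : D.Gt p),
      (¬ ∀ q ∈ Q, ‖u.1.1 q.1 q.2‖ ≤ δ) → D.Ti2_psi δ g Q u = 0 := by
    intro Q u h
    unfold Ti2_psi
    rw [if_neg h]
  have hlift : ∀ Q : Finset (Fin N × Fin N), ∃ φ : D.Gt p → C, D.VK χ h y W w φ ∧
      ∀ u ∈ D.Ug p (D.Fst y w), φ (n * u) = D.Ti2_psi δ g Q u := by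
    intro Q
    have hc0 : D.C0 (D.Fst y w) (D.Ti2_psi δ g Q) := by
      intro ε hε
      obtain ⟨A', hA'⟩ := D.vk_c0 hs hy hW hS.isn hS.stb hΦ ε hε
      refine ⟨A', fun x hx hxε => hA' x hx ?_⟩
      by_cases h : ∀ q ∈ Q, ‖x.1.1 q.1 q.2‖ ≤ δ
      · rw [hpsi1 Q x h] at hxε
        exact hxε
      · rw [hpsi0 Q x h, norm_zero] at hxε
        exact absurd hxε (not_le.2 hε)
    have hB : ∀ u ∈ D.Ug p (D.Fst y w), ‖D.Ti2_psi δ g Q u‖ ≤ A := by
      intro u hu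
      by_cases h : ∀ q ∈ Q, ‖u.1.1 q.1 q.2‖ ≤ δ
      · rw [hpsi1 Q u h]
        exact hA _ (D.Ti2_mem hS.isn hS.stb hu)
      · rw [hpsi0 Q u h, norm_zero]
        exact hA0.le
    obtain ⟨φ, h1, h2, -⟩ := hS.surj _ (D.Ti2_cont hδ hgc Q) hc0 A hA0.le hB
    exact ⟨φ, h1, h2⟩
  choose F hF1 hF2 using hlift
  have hw'D : n' ∈ D.DD p h y := D.Ti2_mem1 hn' hst'
  have hdiff : ∀ φ ψ : D.Gt p → C, D.VK χ h y W w φ → D.VK χ h y W w ψ →
      D.VK χ h y W w (fun x => φ x + (-1) * ψ x) := by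
    intro φ ψ h1 h2
    exact D.vk_add hW h1 (D.vk_smul hW (-1) h2)
  have hclaim : ∀ Q : Finset (Fin N × Fin N), (∀ q ∈ Q, D.wt q.1 ≠ D.wt q.2) →
      Φ n' = F Q n' := by
    intro Q
    induction Q using Finset.induction_on with
    | empty =>
      intro _
      have h1 := hS.inj _ (hdiff _ _ hΦ (hF1 ∅)) (by
        intro u hu
        show Φ (n * u) + (-1) * F ∅ (n * u) = 0
        rw [hF2 ∅ u hu, hpsi1 ∅ u (by intro q hq; exact absurd hq (Finset.notMem_empty _))]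
        ring) n' hw'D
      have h2 : Φ n' + (-1) * F ∅ n' = 0 := h1
      linear_combination h2
    | insert q Q hq ih =>
      intro hQ
      have h1 := ih (fun q' hq' => hQ q' (Finset.mem_insert_of_mem hq'))
      rw [h1]
      have hcd : D.wt q.1 ≠ D.wt q.2 := hQ q (Finset.mem_insert_self _ _)
      have hinvQ : ∀ (Q' : Finset (Fin N × Fin N)), ∀ τ ∈ D.Tg p,
          τ ∈ D.Kmg p m0 → ∀ u ∈ D.Ug p (D.Fst y w),
            F Q' (n * (τ⁻¹ * u * τ)) = F Q' (n * u) := by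
        intro Q' τ hτ hτK u hu
        have hu' : τ⁻¹ * u * τ ∈ D.Ug p (D.Fst y w) := (D.tg_ug hτ hu).2
        rw [hF2 Q' u hu, hF2 Q' _ hu']
        have hnn := D.Ti2_conj (u := u) hτ ((D.tg_K hτ).1 (D.kmg_le hτK))
        by_cases h : ∀ q ∈ Q', ‖u.1.1 q.1 q.2‖ ≤ δ
        · have h' : ∀ q ∈ Q', ‖(τ⁻¹ * u * τ).1.1 q.1 q.2‖ ≤ δ := by
            intro q hq
            rw [hnn]
            exact h q hq
          rw [hpsi1 Q' u h, hpsi1 Q' _ h']
          exact hinv τ hτ hτK u hu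
        · have h' : ¬ ∀ q ∈ Q', ‖(τ⁻¹ * u * τ).1.1 q.1 q.2‖ ≤ δ := by
            intro h2
            apply h
            intro q hq
            rw [← hnn]
            exact h2 q hq
          rw [hpsi0 Q' u h, hpsi0 Q' _ h']
      have h2 := D.nh1 (m0 := m0) hχ hs hy hW hS hcd hδ (hdiff _ _ (hF1 Q) (hF1 (insert q Q)))
        (by
          intro u hu huδ
          show F Q (n * u) + (-1) * F (insert q Q) (n * u) = 0
          rw [hF2 Q u hu, hF2 (insert q Q) u hu]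
          by_cases h : ∀ q ∈ Q, ‖u.1.1 q.1 q.2‖ ≤ δ
          · have h' : ∀ q' ∈ insert q Q, ‖u.1.1 q'.1 q'.2‖ ≤ δ := by
              intro q' hq'
              rcases Finset.mem_insert.1 hq' with rfl | hq''
              · exact huδ
              · exact h q' hq''
            rw [hpsi1 Q u h, hpsi1 _ u h']
            ring
          · have h' : ¬ ∀ q' ∈ insert q Q, ‖u.1.1 q'.1 q'.2‖ ≤ δ := by
              intro h2
              exact h fun q' hq' => h2 q' (Finset.mem_insert_of_mem hq')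
            rw [hpsi0 Q u h, hpsi0 _ u h']
            ring)
        (by
          intro τ hτ hτK u hu
          show F Q (n * (τ⁻¹ * u * τ)) + (-1) * F (insert q Q) (n * (τ⁻¹ * u * τ)) =
            F Q (n * u) + (-1) * F (insert q Q) (n * u)
          rw [hinvQ Q τ hτ hτK u hu, hinvQ (insert q Q) τ hτ hτK u hu])
        hn' hst'
      have h3 : F Q n' + (-1) * F (insert q Q) n' = 0 := h2
      linear_combination h3
  have hfin := hclaim (Finset.univ.filter fun q => D.wt q.1 ≠ D.wt q.2)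
    (fun q hq => (Finset.mem_filter.1 hq).2)
  rw [hfin]
  refine hS.inj _ (hF1 _) ?_ n' hw'D
  intro u hu
  rw [hF2 _ u hu]
  by_cases h : ∀ q ∈ Finset.univ.filter (fun q : Fin N × Fin N => D.wt q.1 ≠ D.wt q.2),
      ‖u.1.1 q.1 q.2‖ ≤ δ
  · rw [hpsi1 _ u h]
    refine hz u hu ?_
    rw [D.mem_Kmg]
    intro i j
    rw [← hδdef]
    by_cases hij : D.wt i = D.wt j
    · have h5 : u.1.1 i j = (1 : Matrix (Fin N) (Fin N) ℚ_[p]) i j := by
        by_contra hne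
        have h6 := D.ug_supp_y (y := y) (fun α hα => (D.fst_sub y w) hα) hu hne
        rw [D.wp_def, D.wp_def, hij] at h6
        exact absurd h6 (lt_irrefl _)
      rw [h5, sub_self, norm_zero]
      exact hδ.le
    · have hne : i ≠ j := by
        rintro rfl
        exact hij rfl
      rw [Matrix.one_apply_ne hne, sub_zero]
      exact h (i, j) (Finset.mem_filter.2 ⟨Finset.mem_univ _, hij⟩)
  · rw [hpsi0 _ u h]

end Ctx

end

end Pool.Agent.Lib.MP_f399a8_nt.G
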