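import Pool.Agent.Lib.MP_f399a8_ntG.Ta2
import Pool.Agent.Lib.MP_f399a8_ntG.Tc1

/-!
# Behaviour near a stratum of smaller dimension

`δ` is a root with `0 < pr δ y`, `h (rt δ) = 0`, `β = wr w δ` is positive for `y0`; `n' = n * (io δ w2)⁻¹`.  (The same for `SL_n`: file `MP_f399a8_ntS.TiJ`.)

PROOF of `mon_w2`: `isN_sg`, `isN_inv`, `isN_mul`, `sg_sg` (`(sg δ)⁻¹ = sg δ`), `stb_sg`, `stb_mul`.
PROOF of `p1_rel`: for `z ≠ 0`: `lo2 z = up2 z 1 * (w2)⁻¹ * ux z⁻¹` (2 × 2 computation), so with `z = x⁻¹` (`io_lo`, `io_ux`)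
`n * xr (ng δ) z = (n * io δ (up2 z 1) * n⁻¹) * (n' * xr δ x)`.  `up2_eq`: `io δ (up2 z 1) = cc (co δ) z⁻¹ * xr δ z` (`io_dg`, `io_ux`), and
`n * cc (co δ) x * n⁻¹ = cc (wy w (co δ)) x = cc (co β) x` (`isN_cc`, `w_co`), `n * xr δ z * n⁻¹ = xr β (c z) ∈ Ug (Po y0)` (`isN_xr`, `xr_mem`).  So `cb χ` of
`n * io δ (up2 z 1) * n⁻¹ = cc (co β) x * xr β (c z)` is `cb χ (cc (co β) x)` (`cb_mul`, `cb_ug`, `po_bg`, `tg_bg`, `cc_torus`).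
PROOF of `p1_lim`: let `ε > 0`, `w₀ ∈ W` with `‖φ x - w₀ x‖ ≤ ε` on `DD`.  `w₀` is continuous and `n * xr (ng δ) z → n` for `z → 0` (`xr_cont`, `xr_zero`), so
`‖w₀ (n * xr (ng δ) z) - w₀ n‖ ≤ ε` for `‖z‖ ≤ r`.  For `‖x‖ ≥ 1/r`, `z = x⁻¹`: `w₀ (n * xr (ng δ) z) = cb χ (cc (co β) x) * w₀ (n' * xr δ x)` (`p1_rel` for `w₀`, `hW.isPS`).
`‖cb χ (cc (co β) x)‖ = 1` (`slope_co`, `h (rt β) = h (wx w (rt δ)) = h (rt δ) = 0` by `Stb`, `w_rt`).  `n' * xr δ x ∈ DD` (`mon_w2`, `xr_mem`) and `n ∈ DD`.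
Ultrametric inequality.
-/

namespace Pool.Agent.Lib.MP_f399a8_nt.G

open Matrix Filter Topology

noncomputable section

namespace Ctx

variable {ι X Y : Type*} [Finite ι] [AddCommGroup X] [AddCommGroup Y] {N : ℕ} (D : Ctx ι X Y N)
  {p : ℕ} [Fact p.Prime] {C : Type*} [NormedField C] {χ : ↥(D.Tg p) →* Cˣ} {h : X →+ ℝ} {y : Y}
  {w : D.W} {n : D.Gt p} {δ : ι}

theorem mon_w2 (hδ : h (D.rt δ) = 0) (hn : D.IsN w n) (hst : D.Stb h w) :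
    D.IsN (w * D.sg δ) (n * (D.io p δ (S.w2 p))⁻¹) ∧ D.Stb h (w * D.sg δ) := by
  have h1 : (D.sg δ)⁻¹ = D.sg δ := inv_eq_of_mul_eq_one_left (D.sg_sg δ)
  have h2 := D.isN_inv (D.isN_sg (p := p) δ)
  rw [h1] at h2
  exact ⟨D.isN_mul hn h2, D.stb_mul hst (D.stb_sg hδ)⟩

theorem Tj1_lo2 (x : ℚ_[p]ˣ) : S.lo2 ((x⁻¹ : ℚ_[p]ˣ) : ℚ_[p]) =
    dg2 x * ux ((x⁻¹ : ℚ_[p]ˣ) : ℚ_[p]) * (S.w2 p)⁻¹ * ux (x : ℚ_[p]) := by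
  have h1 : dg2 x * ux ((x⁻¹ : ℚ_[p]ˣ) : ℚ_[p]) =
      S.lo2 ((x⁻¹ : ℚ_[p]ˣ) : ℚ_[p]) * (ux (x : ℚ_[p]))⁻¹ * S.w2 p := by
    have hx : (x : ℚ_[p]) ≠ 0 := Units.ne_zero x
    apply Subtype.ext
    rw [Matrix.SpecialLinearGroup.coe_mul, Matrix.SpecialLinearGroup.coe_mul,
      Matrix.SpecialLinearGroup.coe_mul, Matrix.SpecialLinearGroup.coe_inv]
    simp only [ux, dg2, S.lo2, S.w2, Matrix.adjugate_fin_two_of]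
    ext i j
    fin_cases i <;> fin_cases j <;> simp [Matrix.mul_apply, Fin.sum_univ_two, hx]
  rw [h1]
  group

theorem p1_rel (hβ : 0 < D.pr (D.wr w δ) D.y0) (hn : D.IsN w n) {φ : D.Gt p → C}
    (hφ : ∀ b ∈ D.Bg p, ∀ x, φ (b * x) = D.cb χ b * φ x) (x : ℚ_[p]ˣ) :
    φ (n * D.xr p (D.ng δ) ((x⁻¹ : ℚ_[p]ˣ) : ℚ_[p])) =
      D.cb χ (D.cc p (D.co (D.wr w δ)) x) *
        φ (n * (D.io p δ (S.w2 p))⁻¹ * D.xr p δ (x : ℚ_[p])) := by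
  obtain ⟨c, -, -, hc⟩ := D.isN_xr hn δ
  have h1 : n * D.cc p (D.co δ) x * n⁻¹ = D.cc p (D.co (D.wr w δ)) x := by
    rw [D.isN_cc hn, D.w_co]
  have h2 := hc ((x⁻¹ : ℚ_[p]ˣ) : ℚ_[p])
  have h3 : n * D.xr p (D.ng δ) ((x⁻¹ : ℚ_[p]ˣ) : ℚ_[p]) =
      (D.cc p (D.co (D.wr w δ)) x * D.xr p (D.wr w δ) (c * ((x⁻¹ : ℚ_[p]ˣ) : ℚ_[p]))) *
        (n * (D.io p δ (S.w2 p))⁻¹ * D.xr p δ (x : ℚ_[p])) := by
    rw [← D.io_lo, Tj1_lo2, map_mul, map_mul, map_mul, map_inv, D.io_dg, D.io_ux, D.io_ux,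
      ← h1, ← h2]
    group
  have h4 : D.cc p (D.co (D.wr w δ)) x ∈ D.Bg p := D.tg_bg (D.cc_torus p _ _)
  have h5 : D.xr p (D.wr w δ) (c * ((x⁻¹ : ℚ_[p]ˣ) : ℚ_[p])) ∈ D.Ug p (D.Po D.y0) :=
    D.xr_mem hβ _
  have h6 : D.xr p (D.wr w δ) (c * ((x⁻¹ : ℚ_[p]ˣ) : ℚ_[p])) ∈ D.Bg p :=
    D.po_bg (fun α hα => hα) h5
  rw [h3, hφ _ (mul_mem h4 h6), D.cb_mul χ h4 h6, D.cb_ug χ (fun α hα => hα) h5, mul_one]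

theorem p1_lim [IsUltrametricDist C] (hs : D.Slope χ h) {W : Set (D.Gt p → C)} (hW : D.CS χ W)
    (hδy : 0 < D.pr δ y) (hδ : h (D.rt δ) = 0) (hβ : 0 < D.pr (D.wr w δ) D.y0)
    (hn : D.IsN w n) (hst : D.Stb h w) {φ : D.Gt p → C} (hφ : D.VV χ h y W φ) {ε : ℝ}
    (hε : 0 < ε) : ∃ A : ℝ, ∀ x : ℚ_[p]ˣ, A ≤ ‖(x : ℚ_[p])‖ →
      ‖D.cb χ (D.cc p (D.co (D.wr w δ)) x) *
        φ (n * (D.io p δ (S.w2 p))⁻¹ * D.xr p δ (x : ℚ_[p])) - φ n‖ ≤ ε := by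
  obtain ⟨w₀, hw₀W, hw₀⟩ := hφ.app ε hε
  have hps := hW.isPS w₀ hw₀W
  have hcont : Continuous w₀ := hps.1
  have hleft := hps.2
  have hc2 : Continuous fun z : ℚ_[p] => w₀ (n * D.xr p (D.ng δ) z) :=
    hcont.comp (continuous_const.mul (D.xr_cont p (D.ng δ)))
  have hc3 := (Metric.continuous_iff.1 hc2) 0 ε hε
  obtain ⟨r, hr, hr2⟩ := hc3
  have hmon := D.mon_w2 (h := h) hδ hn hst
  have hnD : n ∈ D.DD p h y := ⟨w, n, 1, hn, hst, one_mem _, (mul_one n).symm⟩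
  refine ⟨2 / r, fun x hx => ?_⟩
  have hx0 : 0 < ‖(x : ℚ_[p])‖ := norm_pos_iff.2 (Units.ne_zero x)
  have hy : dist ((x⁻¹ : ℚ_[p]ˣ) : ℚ_[p]) 0 < r := by
    rw [dist_zero_right, Units.val_inv_eq_inv_val, norm_inv]
    have h1 : 2 ≤ r * ‖(x : ℚ_[p])‖ := by
      rw [div_le_iff₀ hr] at hx
      linarith
    rw [inv_lt_iff_one_lt_mul₀ hx0]
    linarith
  have h1 := hr2 _ hy
  rw [dist_eq_norm] at h1
  have h2 : w₀ (n * D.xr p (D.ng δ) 0) = w₀ n := by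
    rw [D.xr_zero, mul_one]
  rw [h2, D.p1_rel hβ hn hleft x] at h1
  have hzD : n * (D.io p δ (S.w2 p))⁻¹ * D.xr p δ (x : ℚ_[p]) ∈ D.DD p h y :=
    ⟨_, _, _, hmon.1, hmon.2, D.xr_mem hδy _, rfl⟩
  obtain ⟨z, hz⟩ : ∃ z : D.Gt p,
      z = n * (D.io p δ (S.w2 p))⁻¹ * D.xr p δ (x : ℚ_[p]) := ⟨_, rfl⟩
  rw [← hz] at h1 hzD ⊢
  have hnorm : ‖D.cb χ (D.cc p (D.co (D.wr w δ)) x)‖ = 1 := by
    obtain ⟨κ, -, hκ⟩ := D.slope_co (p := p) (C := C) (D.wr w δ)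
    have h3 : h (D.rt (D.wr w δ)) = 0 := by
      rw [D.w_rt]
      exact (hst _).trans hδ
    rw [hκ hs x, h3, mul_zero, Real.rpow_zero]
  have h5 : D.cb χ (D.cc p (D.co (D.wr w δ)) x) * φ z - φ n =
      D.cb χ (D.cc p (D.co (D.wr w δ)) x) * (φ z - w₀ z) +
        ((D.cb χ (D.cc p (D.co (D.wr w δ)) x) * w₀ z - w₀ n) + -(φ n - w₀ n)) := by ring
  rw [h5]
  refine (IsUltrametricDist.norm_add_le_max _ _).trans (max_le ?_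
    ((IsUltrametricDist.norm_add_le_max _ _).trans (max_le h1.le ?_)))
  · rw [norm_mul, hnorm, one_mul]
    exact hw₀ z hzD
  · rw [norm_neg]
    exact hw₀ n hnD

end Ctx

end

end Pool.Agent.Lib.MP_f399a8_nt.G
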