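import Pool.Agent.Lib.MP_f399a8_ntG.Ti2
import Pool.Agent.Lib.MP_f399a8_ntG.Tj1
import Pool.Agent.Lib.MP_f399a8_ntG.Tb1

/-!
# The top stratum is the open one

Let `φ` be `VK … w` with `φ (n * u) = iK u` for `u ∈ Ug (Fst y w)`.  (The same for `SL_n`: file `MP_f399a8_ntS.TiK`; copy and adapt.)

PROOF of `tg_xr_km`: `tg_xr` gives `c` with `t * xr α s * t⁻¹ = xr α (c * s)`; take `s = 1` and a primitive entry `(i, j)` of `E α` (`ef_prim`, `ef_wt`, `xm_one`):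
`t_i * E α i j * t_j⁻¹ = c * E α i j`, so `c = t_i / t_j`, `‖t_i - 1‖, ‖t_j - 1‖ ≤ p^(-m)`, `‖t_j‖ = 1` (`tg_K`, `kmg_le`), so `‖c - 1‖ ≤ p^(-m)`.
PROOF of `ki`: `φ (n * (z * k)) = φ (n * z)` for `z ∈ Ug (Po y)`, `k ∈ Ug (Po y) ∩ Kg`: `z = a * f` (`as_fs`), `f * k = a' * f'`, `φ (n * z) = iK f`,
`φ (n * (z * k)) = φ (n * (a * a' * f')) = iK f'` (`as_left`).  If `f ∈ Kg` then `f * k ∈ Kg`, so `f' ∈ Kg` (`as_fs`).  If `f' ∈ Kg`: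
`a'⁻¹ * f = f' * k⁻¹ ∈ Ug (Po y) ∩ Kg` and by `as_fs` and `as_unique` `f ∈ Kg`.
PROOF of `ti`: `φ (n * (τ⁻¹ * z * τ)) = φ (n * z)` for `τ ∈ Tg ∩ Kg`: with `z = a * f`, `τ⁻¹ z τ = (τ⁻¹ a τ) (τ⁻¹ f τ)` (`tg_ug`), and `τ⁻¹ f τ ∈ Kg ↔ f ∈ Kg`.
PROOF of `shift_zero`: let `g = xr δ x`, `δ ∈ Ast y w`, `Φ z = φ (z * g) - φ z`, `VK` (`vk_trans`, `vk_smul`, `vk_add`).  `Φ n' = 0` by `nh2`:
(hz) there is `m1` with `g⁻¹ * u * g ∈ Kg` for `u ∈ Kmg m1` (`conj_small`); for `u ∈ Ug (Fst y w) ∩ Kmg m1`: `u * g = g * (g⁻¹ * u * g)`, `g ∈ Ug (Ast y w)`, so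
`φ (n * (u * g)) = φ (n * (1 * (g⁻¹ * u * g)))` (`as_left`) `= φ (n * 1) = 1` (`ki`), and `φ (n * u) = iK u = 1` (`kmg_le`).
(hinv) let `m0` be such that `‖x‖ ≤ p^(m0)`, `τ ∈ Tg ∩ Kmg m0`, `u ∈ Ug (Fst y w)`.  `τ⁻¹ * u * τ * g = τ⁻¹ * (u * (τ * g * τ⁻¹)) * τ` and `τ * g * τ⁻¹ = xr δ (c x)`,
`‖c - 1‖ ≤ p^(-m0)` (`tg_xr_km`), `= g * xr δ ((c - 1) x)` (`xr_add`) with `‖(c - 1) x‖ ≤ 1`, so by `ti` and `ki`
`φ (n * (τ⁻¹ u τ * g)) = φ (n * (u * g * k)) = φ (n * (u * g))`, and `φ (n * (τ⁻¹ u τ)) = φ (n * u)` by `ti`.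
PROOF of `sd_one`: suppose `w ≠ 1`.  `adj_exists` gives `δ` with `0 < pr δ y`, `h (rt δ) = 0`, `0 < pr (wr w δ) y0`; `β = wr w δ`.  `SD.surj` for `iK` (`iK_cont`, `C0`,
bound `1`) gives `φ`.  Let `n' = n * (io δ w2)⁻¹` (`mon_w2`), `c = φ n'`.  By `shift_zero` `φ (n' * xr δ x) = c` for all `x`.  `φ n = iK 1 = 1`.  `p1_lim`:
`cb χ (cc (co β) x) * c → 1` for `‖x‖ → ∞`.  So `c ≠ 0`.  For fixed `x₀ : ℚ_[p]ˣ`: `cb χ (cc (co β) (x₀ x)) * c → 1` as well, and it is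
`cb χ (cc (co β) x₀) * (cb χ (cc (co β) x) * c) → cb χ (cc (co β) x₀)` (`cc_mul`, `cb_mul`).  So `cb χ (cc (co β) x₀) = 1` for all `x₀`, which contradicts `hNT` for `β`
(`h (rt β) = h (wx w (rt δ)) = 0`, `w_rt`).
-/

namespace Pool.Agent.Lib.MP_f399a8_nt.G

open Matrix Filter Topology

noncomputable section

namespace Ctx

variable {ι X Y : Type*} [Finite ι] [AddCommGroup X] [AddCommGroup Y] {N : ℕ} (D : Ctx ι X Y N)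
  {p : ℕ} [Fact p.Prime]

theorem tg_xr_km {m : ℕ} {t : D.Gt p} (ht : t ∈ D.Tg p) (htm : t ∈ D.Kmg p m) (α : ι) :
    ∃ c : ℚ_[p], ‖c - 1‖ ≤ (p : ℝ) ^ (-(m : ℤ)) ∧
      ∀ s, t * D.xr p α s * t⁻¹ = D.xr p α (c * s) := by
  obtain ⟨c, -, hc, -⟩ := D.tg_xr ht α
  refine ⟨c, ?_, hc⟩
  obtain ⟨i, j, hij⟩ := D.ef_prim (p := p) α
  have hE : D.Ef p α i j ≠ 0 := by
    intro h0
    rw [h0, norm_zero] at hij
    exact zero_ne_one hij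
  have hwt : D.wt i = D.wt j + D.rt α := by
    rw [D.ef_wt p hE]
    exact add_comm _ _
  have h1 : t * D.xr p α 1 = D.xr p α (c * 1) * t := by
    rw [← hc 1]
    group
  have h2 : (t * D.xr p α 1).1.1 i j = (D.xr p α (c * 1) * t).1.1 i j := by rw [h1]
  have h3 : (t * D.xr p α 1).1.1 i j = t.1.1 i i * D.Ef p α i j := by
    rw [D.val_mul, Matrix.mul_apply, Finset.sum_eq_single i]
    · rw [D.xr_val, D.xm_one p α 1 hwt, one_mul]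
    · intro k _ hk
      rw [D.tg_off ht (Ne.symm hk), zero_mul]
    · intro h
      exact absurd (Finset.mem_univ i) h
  have h4 : (D.xr p α (c * 1) * t).1.1 i j = c * D.Ef p α i j * t.1.1 j j := by
    rw [D.val_mul, Matrix.mul_apply, Finset.sum_eq_single j]
    · rw [D.xr_val, D.xm_one p α (c * 1) hwt, mul_one]
    · intro k _ hk
      rw [D.tg_off ht hk, mul_zero]
    · intro h
      exact absurd (Finset.mem_univ j) h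
  rw [h3, h4] at h2
  have h5 : t.1.1 i i = c * t.1.1 j j := by
    have h6 : t.1.1 i i * D.Ef p α i j = c * t.1.1 j j * D.Ef p α i j := by
      rw [h2]
      ring
    exact mul_right_cancel₀ hE h6
  have hi := (D.mem_Kmg p).1 htm i i
  have hj := (D.mem_Kmg p).1 htm j j
  rw [Matrix.one_apply_eq] at hi hj
  have hjn : ‖t.1.1 j j‖ = 1 := (D.tg_K ht).1 (D.kmg_le htm) j
  have h7 : (c - 1) * t.1.1 j j = (t.1.1 i i - 1) - (t.1.1 j j - 1) := by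
    rw [h5]
    ring
  have h8 : ‖c - 1‖ = ‖(t.1.1 i i - 1) - (t.1.1 j j - 1)‖ := by
    rw [← h7, norm_mul, hjn, mul_one]
  rw [h8]
  rw [sub_eq_add_neg (t.1.1 i i - 1)]
  refine (IsUltrametricDist.norm_add_le_max _ _).trans (max_le hi ?_)
  rw [norm_neg]
  exact hj

variable {C : Type*} [NormedField C] {χ : ↥(D.Tg p) →* Cˣ} {h : X →+ ℝ} {y : Y} {w : D.W}
  {n : D.Gt p}

private theorem Tk1_iK_eq {x z : D.Gt p} (h : x ∈ D.Kg p ↔ z ∈ D.Kg p) :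
    D.iK C x = D.iK C z := by
  classical
  unfold iK
  by_cases hx : x ∈ D.Kg p
  · rw [if_pos hx, if_pos (h.1 hx)]
  · rw [if_neg hx, if_neg (fun hy => hx (h.2 hy))]

private theorem Tk1_iK_pos {x : D.Gt p} (h : x ∈ D.Kg p) : D.iK C x = 1 := by
  classical
  unfold iK
  rw [if_pos h]

private theorem Tk1_iK_neg {x : D.Gt p} (h : x ∉ D.Kg p) : D.iK C x = 0 := by
  classical
  unfold iK
  rw [if_neg h]

private theorem Tk1_fst {u : D.Gt p} (hu : u ∈ D.Ug p (D.Fst y w)) : u ∈ D.Ug p (D.Po y) :=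
  D.ug_mono (D.fst_sub y w) hu

private theorem Tk1_ast {u : D.Gt p} (hu : u ∈ D.Ug p (D.Ast y w)) : u ∈ D.Ug p (D.Po y) :=
  D.ug_mono (D.ast_sub y w) hu

theorem ki (hn : D.IsN w n) {φ : D.Gt p → C}
    (hφ : ∀ b ∈ D.Bg p, ∀ x, φ (b * x) = D.cb χ b * φ x)
    (h1 : ∀ u ∈ D.Ug p (D.Fst y w), φ (n * u) = D.iK C u) {z k : D.Gt p}
    (hz : z ∈ D.Ug p (D.Po y)) (hk : k ∈ D.Ug p (D.Po y)) (hkK : k ∈ D.Kg p) :
    φ (n * (z * k)) = φ (n * z) := by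
  obtain ⟨a, ha, f, hf, hzaf, -⟩ := D.as_fs w hz
  have hfO : f ∈ D.Ug p (D.Po y) := D.Tk1_fst hf
  have hfk : f * k ∈ D.Ug p (D.Po y) := mul_mem hfO hk
  obtain ⟨a', ha', f', hf', hfk', hK'⟩ := D.as_fs w hfk
  have h2 : φ (n * z) = D.iK C f := by
    rw [hzaf, D.as_left hφ hn ha f, h1 f hf]
  have h3 : φ (n * (z * k)) = D.iK C f' := by
    rw [hzaf, mul_assoc a f k, D.as_left hφ hn ha (f * k), hfk', D.as_left hφ hn ha' f', h1 f' hf']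
  rw [h2, h3]
  refine D.Tk1_iK_eq ⟨fun hf'K => ?_, fun hfK => ?_⟩
  · have hy : a'⁻¹ * f = f' * k⁻¹ := by
      have h4 : f = a' * f' * k⁻¹ := by rw [← hfk']; group
      rw [h4]; group
    have hyK : f' * k⁻¹ ∈ D.Kg p := mul_mem hf'K (inv_mem hkK)
    have hyO : f' * k⁻¹ ∈ D.Ug p (D.Po y) := mul_mem (D.Tk1_fst hf') (inv_mem hk)
    obtain ⟨a₁, ha₁, f₁, hf₁, hy₁, hK₁⟩ := D.as_fs w hyO
    have h5 := D.as_unique (inv_mem ha') ha₁ hf hf₁ (hy.trans hy₁)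
    rw [h5.2]
    exact (hK₁ hyK).2
  · exact (hK' (mul_mem hfK hkK)).2

theorem ti (hn : D.IsN w n) {φ : D.Gt p → C}
    (hφ : ∀ b ∈ D.Bg p, ∀ x, φ (b * x) = D.cb χ b * φ x)
    (h1 : ∀ u ∈ D.Ug p (D.Fst y w), φ (n * u) = D.iK C u) {z τ : D.Gt p}
    (hz : z ∈ D.Ug p (D.Po y)) (hτ : τ ∈ D.Tg p) (hτK : τ ∈ D.Kg p) :
    φ (n * (τ⁻¹ * z * τ)) = φ (n * z) := by
  obtain ⟨a, ha, f, hf, hzaf, -⟩ := D.as_fs w hz
  have h2 : φ (n * z) = D.iK C f := by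
    rw [hzaf, D.as_left hφ hn ha f, h1 f hf]
  have h4 : τ⁻¹ * z * τ = (τ⁻¹ * a * τ) * (τ⁻¹ * f * τ) := by rw [hzaf]; group
  have h3 : φ (n * (τ⁻¹ * z * τ)) = D.iK C (τ⁻¹ * f * τ) := by
    rw [h4, D.as_left hφ hn (D.tg_ug hτ ha).2, h1 _ (D.tg_ug hτ hf).2]
  rw [h2, h3]
  refine D.Tk1_iK_eq ⟨fun hK => ?_, fun hK => ?_⟩
  · have h5 : f = τ * (τ⁻¹ * f * τ) * τ⁻¹ := by group
    rw [h5]
    exact mul_mem (mul_mem hτK hK) (inv_mem hτK)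
  · exact mul_mem (mul_mem (inv_mem hτK) hK) hτK

private theorem Tk1_bdd (D : Ctx ι X Y N) (g : D.Gt p) : ∃ A : ℝ, ∀ i j, ‖g.1.1 i j‖ ≤ A := by
  refine ⟨∑ i, ∑ j, ‖g.1.1 i j‖, fun i j => ?_⟩
  have h1 : ‖g.1.1 i j‖ ≤ ∑ j, ‖g.1.1 i j‖ :=
    Finset.single_le_sum (f := fun j => ‖g.1.1 i j‖) (fun _ _ => norm_nonneg _) (Finset.mem_univ j)
  have h2 : ∑ j, ‖g.1.1 i j‖ ≤ ∑ i, ∑ j, ‖g.1.1 i j‖ :=
    Finset.single_le_sum (f := fun i => ∑ j, ‖g.1.1 i j‖)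
      (fun _ _ => Finset.sum_nonneg fun _ _ => norm_nonneg _) (Finset.mem_univ i)
  exact h1.trans h2

variable [NormedAlgebra ℚ_[p] C] [IsUltrametricDist C] [FiniteDimensional ℚ_[p] C]

theorem shift_zero (hχ : Continuous χ) (hs : D.Slope χ h) (hy : D.Srt h y)
    {W : Set (D.Gt p → C)} (hW : D.CS χ W) {C1 : ℝ} (hS : D.SD χ h y W w n C1) {δ : ι}
    (hδ : δ ∈ D.Ast y w) {φ : D.Gt p → C} (hφ : D.VK χ h y W w φ)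
    (h1 : ∀ u ∈ D.Ug p (D.Fst y w), φ (n * u) = D.iK C u)
    {w' : D.W} {n' : D.Gt p} (hn' : D.IsN w' n') (hst' : D.Stb h w') (x : ℚ_[p]) :
    φ (n' * D.xr p δ x) = φ n' := by
  obtain ⟨g, hgdef⟩ : ∃ g : D.Gt p, g = D.xr p δ x := ⟨_, rfl⟩
  rw [← hgdef]
  have hgA : g ∈ D.Ug p (D.Ast y w) := by
    rw [hgdef]
    exact D.xr_mem hδ x
  have hgO : g ∈ D.Ug p (D.Po y) := D.Tk1_ast hgA
  have hΦ : D.VK χ h y W w (fun z => φ (z * g) + (-1) * φ z) :=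
    D.vk_add hW (D.vk_trans hW hgO hφ) (D.vk_smul hW (-1) hφ)
  obtain ⟨A, hA⟩ := D.Tk1_bdd g
  obtain ⟨m', hm'⟩ := D.conj_small p A 0
  have hleft := hφ.vv.left
  have hone : φ (n * 1) = 1 := by
    rw [h1 1 (one_mem _)]
    exact D.Tk1_iK_pos (one_mem _)
  have key := D.nh2 hχ hs hy hW hS (m0 := m') (m1 := m') hΦ ?_ ?_ hn' hst'
  · have h2 : φ (n' * g) + (-1) * φ n' = 0 := key
    have h3 : φ (n' * g) - φ n' = 0 := by rw [← h2]; ring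
    exact sub_eq_zero.1 h3
  · intro u hu hum
    show φ (n * u * g) + (-1) * φ (n * u) = 0
    have hk : g⁻¹ * u * g ∈ D.Ug p (D.Po y) :=
      mul_mem (mul_mem (inv_mem hgO) (D.Tk1_fst hu)) hgO
    have hkK : g⁻¹ * u * g ∈ D.Kg p := D.kmg_le (hm' g hA u hum).2
    have h3 : n * u * g = n * (g * (g⁻¹ * u * g)) := by group
    have h4 : g⁻¹ * u * g = 1 * (g⁻¹ * u * g) := (one_mul _).symm
    rw [h3, D.as_left hleft hS.isn hgA, h4, D.ki hS.isn hleft h1 (one_mem _) hk hkK, hone, h1 u hu,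
      D.Tk1_iK_pos (D.kmg_le hum)]
    ring
  · intro τ hτ hτm u hu
    show φ (n * (τ⁻¹ * u * τ) * g) + (-1) * φ (n * (τ⁻¹ * u * τ)) = φ (n * u * g) + (-1) * φ (n * u)
    have hτK : τ ∈ D.Kg p := D.kmg_le hτm
    have hgτ : τ * g * τ⁻¹ ∈ D.Ug p (D.Po y) := (D.tg_ug hτ hgO).1
    have hz : u * (τ * g * τ⁻¹) ∈ D.Ug p (D.Po y) := mul_mem (D.Tk1_fst hu) hgτ
    have hk : g⁻¹ * (τ * g * τ⁻¹) ∈ D.Ug p (D.Po y) := mul_mem (inv_mem hgO) hgτ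
    have hkK : g⁻¹ * (τ * g * τ⁻¹) ∈ D.Kg p := by
      have h5 : g⁻¹ * (τ * g * τ⁻¹) = (g⁻¹ * τ * g) * τ⁻¹ := by group
      rw [h5]
      exact mul_mem (D.kmg_le (hm' g hA τ hτm).2) (inv_mem hτK)
    have h3 : n * (τ⁻¹ * u * τ) * g = n * (τ⁻¹ * (u * (τ * g * τ⁻¹)) * τ) := by group
    have h4 : u * (τ * g * τ⁻¹) = (u * g) * (g⁻¹ * (τ * g * τ⁻¹)) := by group
    rw [h3, D.ti hS.isn hleft h1 hz hτ hτK, h4,
      D.ki hS.isn hleft h1 (mul_mem (D.Tk1_fst hu) hgO) hk hkK,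
      D.ti hS.isn hleft h1 (D.Tk1_fst hu) hτ hτK, mul_assoc n u g]

theorem sd_one (hχ : Continuous χ) (hs : D.Slope χ h) (hy : D.Srt h y)
    {W : Set (D.Gt p → C)} (hW : D.CS χ W)
    (hNT : ∀ α, 0 < D.pr α D.y0 → h (D.rt α) = 0 →
      ∃ x : ℚ_[p]ˣ, D.cb χ (D.cc p (D.co α) x) ≠ 1)
    {C1 : ℝ} (hS : D.SD χ h y W w n C1) : w = 1 := by
  by_contra hw1
  obtain ⟨δ, hδy, hδh, hβ⟩ := D.adj_exists hy hS.stb hw1
  have hδ : δ ∈ D.Ast y w := ⟨hδy, hβ⟩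
  have hC0 : D.C0 (D.Fst y w) (D.iK C : D.Gt p → C) := by
    intro ε hε
    refine ⟨1, fun x _ hx i j => ?_⟩
    by_contra hcon
    have h2 : x ∉ D.Kg p := fun hK => hcon ((D.mem_Kg p).1 hK i j)
    rw [D.Tk1_iK_neg h2, norm_zero] at hx
    exact absurd hx (not_le.2 hε)
  have hbd : ∀ u ∈ D.Ug p (D.Fst y w), ‖D.iK C u‖ ≤ 1 := by
    intro u _
    by_cases hu : u ∈ D.Kg p
    · rw [D.Tk1_iK_pos hu, norm_one]
    · rw [D.Tk1_iK_neg hu, norm_zero]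
      exact zero_le_one
  obtain ⟨φ, hφ, h1, -⟩ := hS.surj (D.iK C) (D.iK_cont p C).continuousOn hC0 1 zero_le_one hbd
  obtain ⟨hn', hst'⟩ := D.mon_w2 (p := p) hδh hS.isn hS.stb
  obtain ⟨n', hn'def⟩ : ∃ n' : D.Gt p, n' = n * (D.io p δ (S.w2 p))⁻¹ := ⟨_, rfl⟩
  rw [← hn'def] at hn'
  obtain ⟨c, hc⟩ : ∃ c : C, c = φ n' := ⟨_, rfl⟩
  have hsh : ∀ x : ℚ_[p], φ (n' * D.xr p δ x) = c := by
    intro x
    rw [hc]
    exact D.shift_zero hχ hs hy hW hS hδ hφ h1 hn' hst' x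
  have hφn : φ n = 1 := by
    have h2 := h1 1 (one_mem _)
    rw [mul_one, D.Tk1_iK_pos (one_mem _)] at h2
    exact h2
  have hβh : h (D.rt (D.wr w δ)) = 0 := by
    rw [D.w_rt, hS.stb (D.rt δ), hδh]
  obtain ⟨x₀, hx₀⟩ := hNT _ hβ hβh
  have hε0 : 0 < ‖D.cb χ (D.cc p (D.co (D.wr w δ)) x₀) - 1‖ := norm_pos_iff.2 (sub_ne_zero.2 hx₀)
  obtain ⟨ε, hεdef⟩ : ∃ ε : ℝ, ε = ‖D.cb χ (D.cc p (D.co (D.wr w δ)) x₀) - 1‖ := ⟨_, rfl⟩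
  rw [← hεdef] at hε0
  obtain ⟨A, hA⟩ := D.p1_lim hs hW hδy hδh hβ hS.isn hS.stb hφ.vv (ε := ε / 3) (by positivity)
  rw [← hn'def, hφn] at hA
  have hn₀ : ‖D.cb χ (D.cc p (D.co (D.wr w δ)) x₀)‖ = 1 := by
    obtain ⟨κ, -, hκ⟩ := D.slope_co (p := p) (C := C) (D.wr w δ)
    rw [hκ hs x₀, hβh, mul_zero, Real.rpow_zero]
  have hx₀n : 0 < ‖(x₀ : ℚ_[p])‖ := norm_pos_iff.2 x₀.ne_zero
  obtain ⟨z, hz⟩ := NormedField.exists_lt_norm ℚ_[p] (max (max 0 A) (A / ‖(x₀ : ℚ_[p])‖))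
  have hz0 : z ≠ 0 := by
    intro h0
    rw [h0, norm_zero] at hz
    exact absurd ((le_max_left 0 A).trans (le_max_left _ _)) (not_le.2 hz)
  have hzA : A ≤ ‖((Units.mk0 z hz0 : ℚ_[p]ˣ) : ℚ_[p])‖ :=
    ((le_max_right 0 A).trans (le_max_left _ _)).trans hz.le
  have hzA' : A ≤ ‖((x₀ * Units.mk0 z hz0 : ℚ_[p]ˣ) : ℚ_[p])‖ := by
    rw [Units.val_mul, norm_mul]
    have h2 : A / ‖(x₀ : ℚ_[p])‖ ≤ ‖z‖ := (le_max_right _ _).trans hz.le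
    rw [div_le_iff₀ hx₀n] at h2
    rw [mul_comm]
    exact h2
  have h2 := hA _ hzA
  have h3 := hA _ hzA'
  rw [hsh] at h2 h3
  have h4 : D.cb χ (D.cc p (D.co (D.wr w δ)) (x₀ * Units.mk0 z hz0)) =
      D.cb χ (D.cc p (D.co (D.wr w δ)) x₀) *
        D.cb χ (D.cc p (D.co (D.wr w δ)) (Units.mk0 z hz0)) := by
    rw [D.cc_mul, D.cb_mul χ (D.tg_bg (D.cc_torus p _ _)) (D.tg_bg (D.cc_torus p _ _))]
  rw [h4] at h3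
  obtain ⟨P₁, hP₁⟩ : ∃ P₁ : C, P₁ = D.cb χ (D.cc p (D.co (D.wr w δ)) x₀) := ⟨_, rfl⟩
  obtain ⟨Q₁, hQ₁⟩ : ∃ Q₁ : C, Q₁ = D.cb χ (D.cc p (D.co (D.wr w δ)) (Units.mk0 z hz0)) :=
    ⟨_, rfl⟩
  rw [← hP₁] at h3 hn₀ hεdef
  rw [← hQ₁] at h2 h3
  have h5 : P₁ - 1 = (P₁ * Q₁ * c - 1) - P₁ * (Q₁ * c - 1) := by ring
  have h6 : ε ≤ ε / 3 + ε / 3 := by
    calc ε = ‖(P₁ * Q₁ * c - 1) - P₁ * (Q₁ * c - 1)‖ := by rw [hεdef, h5]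
      _ ≤ ‖P₁ * Q₁ * c - 1‖ + ‖P₁ * (Q₁ * c - 1)‖ := norm_sub_le _ _
      _ = ‖P₁ * Q₁ * c - 1‖ + ‖Q₁ * c - 1‖ := by rw [norm_mul, hn₀, one_mul]
      _ ≤ ε / 3 + ε / 3 := add_le_add h3 h2
  linarith

end Ctx

end

end Pool.Agent.Lib.MP_f399a8_nt.G
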