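import Pool.Agent.Lib.MP_f399a8_ntG.Ca4
import Pool.Agent.Lib.MP_f399a8_ntG.Fi1

/-!
# Moving the positive system

(The same for `SL_n`: file `MP_f399a8_ntS.MnA`, theorems `swaps`, `good_sorted`.)

PROOF of `good_sorted`: `α ∈ Fr y` has `⟨α, y⟩ < 0`, so by `srt_neg` `0 < h α`, or `h α = 0` and `0 < ⟨α, y0⟩`, the latter contradicts `α ∈ Fr y`.
PROOF of `swaps`: strong induction on the cardinality of the finite set `Fr y` (for all regular `y` with `Good h y` and `Gf χ y iK ∈ W`).  If `Fr y = ∅`: `final_rev`.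
Otherwise `α ∈ Fr y`, and `ng α` is positive on `y` and for `y0` (`pr_ng`), so `ex_sim` (with `y' = y0`) gives `γ` with `Sim y γ`, `0 < ⟨γ, y0⟩`.  `ry γ y` is regular
(`reg_ry`), `Good` (`good_ry`), `Fr (ry γ y) = Fr y \ {ng γ}` has smaller cardinality (`fr_ry`, `ng_mem_fr`), and `Gf χ (ry γ y) iK ∈ W`: by `z2_lemma` if `Sim y0 γ`
(`hη`), by `y_lemma` otherwise.
-/

namespace Pool.Agent.Lib.MP_f399a8_nt.G

open Matrix Filter Topology

noncomputable section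

namespace Ctx

variable {ι X Y : Type*} [Finite ι] [AddCommGroup X] [AddCommGroup Y] {N : ℕ} (D : Ctx ι X Y N)
  {p : ℕ} [Fact p.Prime] {C : Type*} [NormedField C] {χ : ↥(D.Tg p) →* Cˣ} {h : X →+ ℝ} {y : Y}
  {W : Set (D.Gt p → C)}

/-- no simple coroot gives an algebraic character of non-positive weight -/
def NoLin [NormedAlgebra ℚ_[p] C] (χ : ↥(D.Tg p) →* Cˣ) : Prop := ∀ γ, D.Sim D.y0 γ →
  ¬ ∃ l : ℕ, ∀ x : ℚ_[p]ˣ,
    D.cb χ (D.cc p (D.co γ) x) = (algebraMap ℚ_[p] C (x : ℚ_[p])) ^ (-(l : ℤ))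

theorem good_sorted (hy : D.Srt h y) : D.Good h y := by
  intro α hα
  have h1 : D.pr α y < 0 := hα.1
  have h2 : D.pr α D.y0 < 0 := hα.2
  rcases (D.srt_neg hy α).1 h1 with h3 | h3
  · exact h3
  · exact absurd h3.2 (not_lt.2 h2.le)

theorem swaps [NormedAlgebra ℚ_[p] C] [IsUltrametricDist C] [FiniteDimensional ℚ_[p] C]
    (hχ : Continuous χ) (hs : D.Slope χ h) (hη : D.NoLin χ) (hW : D.CS χ W) (hy : D.Reg y)
    (hg : D.Good h y) (hG : D.Gf χ y (D.iK C) ∈ W) {f : D.Gt p → C} (hf : D.PS χ f) : f ∈ W := by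
  have key : ∀ m : ℕ, ∀ y : Y, (D.Fr y).ncard = m → D.Reg y → D.Good h y →
      D.Gf χ y (D.iK C) ∈ W → f ∈ W := by
    intro m
    induction m using Nat.strong_induction_on with
    | _ m ih =>
      intro y hm hy hg hG
      rcases Set.eq_empty_or_nonempty (D.Fr y) with hF | ⟨α, hα⟩
      · exact D.final_rev hs hy hF hW hG hf
      · have h1 : D.pr α y < 0 := hα.1
        have h2 : D.pr α D.y0 < 0 := hα.2
        obtain ⟨γ, hγ, h0⟩ := D.ex_sim (y := y) (y' := D.y0)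
          ⟨D.ng α, by rw [D.pr_ng]; omega, by rw [D.pr_ng]; omega⟩
        have hG' : D.Gf χ (D.ry γ y) (D.iK C) ∈ W := by
          by_cases h3 : D.Sim D.y0 γ
          · exact D.z2_lemma hχ hs hy hg hγ h3 (hη γ h3) hW hG
          · exact D.y_lemma hχ hs hy hg hγ h0 h3 hW hG
        refine ih (D.Fr (D.ry γ y)).ncard ?_ (D.ry γ y) rfl (D.reg_ry hy γ)
          (D.good_ry hy hg hγ h0) hG'
        rw [← hm]
        refine Set.ncard_lt_ncard ⟨fun β hβ => ((D.fr_ry hy hγ h0 β).1 hβ).1, fun hsub => ?_⟩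
          (Set.toFinite _)
        exact ((D.fr_ry hy hγ h0 _).1 (hsub (D.ng_mem_fr hγ h0))).2 rfl
  exact key _ y rfl hy hg hG

end Ctx

end

end Pool.Agent.Lib.MP_f399a8_nt.G
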