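import Pool.Agent.Lib.MP_f399a8_ntG.Tk1
import Pool.Agent.Lib.MP_f399a8_ntG.Tg2
import Pool.Agent.Lib.MP_f399a8_ntG.Tm1

/-!
# Step 1 in general

(The same for `SL_n`: file `MP_f399a8_ntS.TiM`, theorem `step1_gen`; copy and adapt.)

PROOF of `step1_gen`.  `sd_exists`, `sd_one`: `SD χ h y W 1 n C1`; `n ∈ Tg` (`isN_one_tg`), so `n ∈ Bg` (`tg_bg`).  `G = Gf χ y iK`, `Reg y` (`srt_reg`), `Good h y`
(`good_sorted`).  `Fst y 1 = Dr y` (`fst_one`).  By `SD.surj` there is `φ` in `VK … 1` with `φ (n * u) = cb χ n * iK u`: take `ψ = fun x => cb χ n * iK x` (continuous,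
`C0`, bounded by `‖cb χ n‖`).  So `φ u = iK u` for `u ∈ Ug (Dr y)` (`VV.left`, `cb_ne_zero`), and `G u = iK u` (`gf_eq` with `b = f = 1`).
Claim: `φ x = G x` for all `x ∈ DD`.  `x = n₁ * u`, `IsN w₁ n₁`, `Stb h w₁`, `u ∈ Ug (Po y)`.  If `w₁ ≠ 1` then `HS y 1 < HS y w₁` (`hs_one`), so `key y 1 < key y w₁` and
`φ x = 0` (`VK.zero`); and `G x = 0`: otherwise `n₁ * u = b * f * d` (`gf_ne`), i.e. `1 * n₁ * u = b * (f * d) * 1` with `f * d ∈ Ug (Ne y0)`, and `bruhat_ineq` with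
`IsN 1 1` (`isN_one`) and `hs_eq` give `HS y w₁ < HS y 1` or `w₁ = 1`, a contradiction.  If `w₁ = 1`: `n₁ ∈ Tg ⊆ Bg` (`isN_one_tg`), `u = e * d` (`ed_fac`), `e ∈ Bg`
(`po_bg`); both functions are left `Bg`-equivariant (`gf_left`) and agree at `d`.
So for `ε > 0` there is `w₀ ∈ W` with `‖G x - w₀ x‖ ≤ ε / 2` on `DD` (`VV.app`).  `F = G - w₀` is in the principal series (`gf_ps`, `iK_cont`, `ps_sub`); `star` with
`S₀ = ε / 2` (`e` from `con_exists`, `t = cc e (pp p)`) gives `‖F ((t^M)⁻¹ * k * t^M)‖ ≤ ε` for `k ∈ Kg`, `M ≥ M0`.  `exact_box` with this `e` (for `α ∈ Dr y`: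
`α ∈ Po y`, so `h α < 0` and `0 < ⟨α, e⟩` (`Con.rlt`), or `h α = 0` and `⟨α, e⟩ = 0` (`Con.req`)); `k ↦ w₀ ((t^M)⁻¹ * k * t^M) = cb χ (t^M)⁻¹ * w₀ (k * t^M)` is in `W`.
-/

namespace Pool.Agent.Lib.MP_f399a8_nt.G

open Matrix Filter Topology

noncomputable section

namespace Ctx

variable {ι X Y : Type*} [Finite ι] [AddCommGroup X] [AddCommGroup Y] {N : ℕ} (D : Ctx ι X Y N)
  {p : ℕ} [Fact p.Prime] {C : Type*} [NormedField C] {χ : ↥(D.Tg p) →* Cˣ} {h : X →+ ℝ} {y : Y}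
  {W : Set (D.Gt p → C)}

theorem cs_conj (hW : D.CS χ W) {b : D.Gt p} (hb : b ∈ D.Bg p) (g : D.Gt p) {f : D.Gt p → C}
    (hf : f ∈ W) : (fun x => f (b * x * g)) ∈ W := by
  have h1 := (hW.isPS f hf).2
  have h2 : (fun x => f (b * x * g)) = fun x => D.cb χ b * f (x * g) := by
    funext x
    rw [mul_assoc, h1 b hb]
  rw [h2]
  exact hW.smul _ _ (hW.trans g f hf)

theorem Tm2_gf {d : D.Gt p} (hd : d ∈ D.Ug p (D.Dr y)) :
    D.Gf χ y (D.iK C) d = D.iK C d := by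
  have h2 := D.gf_eq (χ := χ) (D.iK C) (one_mem (D.Bg p)) (one_mem (D.Ug p (D.Fr y))) hd
  rwa [one_mul, one_mul, D.Oa1_one χ, one_mul] at h2

theorem Tm2_one {φ : D.Gt p → C} (hφ : ∀ b ∈ D.Bg p, ∀ x, φ (b * x) = D.cb χ b * φ x)
    (h1 : ∀ d ∈ D.Ug p (D.Dr y), φ d = D.iK C d) {n u : D.Gt p} (hn : D.IsN 1 n)
    (hu : u ∈ D.Ug p (D.Po y)) : φ (n * u) = D.Gf χ y (D.iK C) (n * u) := by
  obtain ⟨e, he, d, hd, rfl, -⟩ := D.ed_fac hu
  have heB : e ∈ D.Bg p := D.po_bg (fun α h => h.2) he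
  have hnB : n ∈ D.Bg p := D.tg_bg (D.isN_one_tg hn)
  rw [hφ n hnB, hφ e heB, h1 d hd, D.gf_left _ hnB, D.gf_left _ heB, D.Tm2_gf hd]

theorem Tm2_zero (hy : D.Srt h y) {w : D.W} (hst : D.Stb h w) (hw1 : w ≠ 1)
    {n u : D.Gt p} (hn : D.IsN w n) (hu : u ∈ D.Ug p (D.Po y)) :
    D.Gf χ y (D.iK C) (n * u) = 0 := by
  by_contra hne
  obtain ⟨b, hb, f, hf, d, hd, hx, -, -⟩ := D.gf_ne hne
  have hn' : f * d ∈ D.Ug p (D.Ne D.y0) :=
    mul_mem (D.ug_mono (fun α h => h.2) hf) (D.ug_mono (fun α h => h.2) hd)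
  have h1 : 1 * n * u = b * (f * d) * 1 := by
    rw [one_mul, mul_one, hx, mul_assoc]
  have h2 := D.hs_eq (w := w) (w' := 1) (D.srt_reg hy)
    (D.bruhat_ineq hn (D.isN_one (p := p)) (one_mem (D.Bg p)) hb hu hn' h1)
  rcases h2 with h2 | h2
  · rcases D.hs_one hy hst with h3 | h3
    · exact absurd h2 (not_lt.2 h3.le)
    · exact hw1 h3
  · exact hw1 h2

theorem Tm2_neg {x : D.Gt p} (hx : x ∉ D.Kg p) : D.iK C x = 0 := by
  classical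
  unfold iK
  rw [if_neg hx]

theorem Tm2_pos {x : D.Gt p} (hx : x ∈ D.Kg p) : D.iK C x = 1 := by
  classical
  unfold iK
  rw [if_pos hx]

theorem step1_gen [NormedAlgebra ℚ_[p] C] [IsUltrametricDist C] [FiniteDimensional ℚ_[p] C]
    (hχ : Continuous χ) (hs : D.Slope χ h) (hy : D.Srt h y) (hW : D.CS χ W)
    (hne : ∃ f ∈ W, ∃ x, f x ≠ 0)
    (hNT : ∀ α, 0 < D.pr α D.y0 → h (D.rt α) = 0 →
      ∃ x : ℚ_[p]ˣ, D.cb χ (D.cc p (D.co α) x) ≠ 1) :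
    D.Gf χ y (D.iK C) ∈ W := by
  obtain ⟨w, n, C1, hS⟩ := D.sd_exists hs hy hW hne
  have hw : w = 1 := D.sd_one hχ hs hy hW hNT hS
  subst hw
  have hnB : n ∈ D.Bg p := D.tg_bg (D.isN_one_tg hS.isn)
  have hC0 : D.C0 (D.Fst y 1) (fun x : D.Gt p => D.cb χ n * D.iK C x) := by
    intro ε hε
    refine ⟨1, fun x _ hx i j => ?_⟩
    by_contra hcon
    have h2 : x ∉ D.Kg p := fun hK => hcon ((D.mem_Kg p).1 hK i j)
    have hx' : ε ≤ ‖D.cb χ n * D.iK C x‖ := hx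
    rw [D.Tm2_neg h2, mul_zero, norm_zero] at hx'
    exact absurd hx' (not_le.2 hε)
  have hbd : ∀ u ∈ D.Ug p (D.Fst y 1), ‖D.cb χ n * D.iK C u‖ ≤ ‖D.cb χ n‖ := by
    intro u _
    by_cases hu : u ∈ D.Kg p
    · rw [D.Tm2_pos hu, mul_one]
    · rw [D.Tm2_neg hu, mul_zero, norm_zero]
      exact norm_nonneg _
  obtain ⟨φ, hφ, h1, -⟩ := hS.surj (fun x : D.Gt p => D.cb χ n * D.iK C x)
    (continuous_const.mul (D.iK_cont p C)).continuousOn hC0 ‖D.cb χ n‖ (norm_nonneg _) hbd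
  have h2 : ∀ d ∈ D.Ug p (D.Dr y), φ d = D.iK C d := by
    intro d hd
    have h3 := h1 d hd
    rw [hφ.vv.left n hnB d] at h3
    exact mul_left_cancel₀ (D.cb_ne_zero χ n) h3
  have h3 : ∀ x ∈ D.DD p h y, φ x = D.Gf χ y (D.iK C) x := by
    rintro x ⟨w, n₁, u, hn₁, hst, hu, rfl⟩
    by_cases hw1 : w = 1
    · subst hw1
      exact D.Tm2_one hφ.vv.left h2 hn₁ hu
    · rw [D.Tm2_zero hy hst hw1 hn₁ hu]
      refine hφ.zero w n₁ hn₁ hst (D.key_lt ?_) u hu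
      rcases D.hs_one hy hst with h4 | h4
      · exact h4
      · exact absurd h4 hw1
  have hg : D.Good h y := D.good_sorted hy
  have hr : D.Reg y := D.srt_reg hy
  obtain ⟨e, he⟩ := D.con_exists h
  refine D.exact_box (e := e) hχ hs hr hg hW (fun α hα => ?_) fun ε hε => ?_
  · rcases (hy α).1 hα.1 with h4 | h4
    · exact (he.rlt α h4).le
    · exact (he.req α h4.1).ge
  obtain ⟨w₀, hw₀, hwε⟩ := hφ.vv.app (ε / 2) (half_pos hε)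
  have hGps : D.PS χ (D.Gf χ y (D.iK C)) :=
    D.gf_ps hχ hs hr hg (D.iK_cont p C).continuousOn (fun d _ hd => D.Tm2_neg hd)
  have hwps := hW.isPS w₀ hw₀
  have hFps : D.PS χ (fun x => D.Gf χ y (D.iK C) x - w₀ x) := D.ps_sub hGps hwps
  obtain ⟨M, hM⟩ := D.star hs he hy hFps (half_pos hε).le
    (fun w n₁ hn₁ hst u hu => by
      have hx : n₁ * u ∈ D.DD p h y := ⟨w, n₁, u, hn₁, hst, hu, rfl⟩
      have h5 := hwε _ hx
      rwa [h3 _ hx] at h5) (half_pos hε)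
  have htT : D.cc p e (pp p) ∈ D.Tg p := D.cc_torus p e (pp p)
  have htB : (D.cc p e (pp p) ^ M)⁻¹ ∈ D.Bg p := inv_mem (pow_mem (D.tg_bg htT) M)
  refine ⟨M, fun k => w₀ ((D.cc p e (pp p) ^ M)⁻¹ * k * D.cc p e (pp p) ^ M),
    D.cs_conj hW htB _ hw₀, ?_⟩
  intro k hk
  have h6 := hM M le_rfl k hk
  rwa [add_halves] at h6

end Ctx

end

end Pool.Agent.Lib.MP_f399a8_nt.G
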