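import Pool.Agent.Lib.MP_f399a8_ntG.Fb3

/-!
# The set `YY` of functions whose contractions approach `W`

`y` is regular with `Good h y` (it will be the reflected one), `t = cc e (pp p)`, `0 ≤ ⟨α, e⟩` for `α ∈ Dr y`.  Write `x_M = (t^M)⁻¹ * x * t^M`.
(The same for `SL_n`: `MP_f399a8_ntS.YlA`.)

PROOF.
* `yy_yc`.  `add`, `smul`: `gf_add`, `gf_smul`; for the sum take the larger `M0` and the sum of the `w`s (ultrametric); for `c = 0` the scalar case is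
  trivial, otherwise use `ε / ‖c‖`.  `trans`: `u ∈ Ug (Dr y) ∩ Kg`, `ψ' = ψ (· * u)`: continuous on `Ug (Dr y)`; for `x ∈ Ug (Dr y)`, `x ∉ Kg`: `x * u ∉ Kg`.
  `Gf ψ' (k_M) = Gf ψ (k_M * u)` (`gf_right`), `k_M * u = (k * (t^M u t^-M))_M` and `u' := t^M * u * (t^M)⁻¹ ∈ Kg` (`tg_in`), so for
  `k' = k * u' ∈ Kg` `‖Gf ψ (k'_M) - w k'‖ ≤ ε`, and `k ↦ w (k * u')` is in `W`.
* `yy_contr`: `ψ' x = ψ (t1⁻¹ * x * t1)`, `t1 = cc y (pp p)`.  Continuous on `Ug (Dr y)` (`tg_ug`).  Support: for `x ∈ Ug (Dr y)`, `z = t1⁻¹ * x * t1 ∈ Ug (Dr y)`; if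
  `z ∈ Kg` then `x = t1 * z * t1⁻¹ ∈ Kg` (`tg_in` with `e = y`, `M = 1`); contrapositive gives `ψ' x = 0` for `x ∉ Kg`.
  `Gf ψ' x = Gf ψ (t1⁻¹ * x * t1) = cb χ t1⁻¹ * Gf ψ (x * t1)` (`gf_conj`, `gf_left`).  For `x = k_M`: `k_M * t1 = (k * t1)_M` (`cc_comm`),
  `k * t1 = b₁ * k₁` (`iwasawa`), `(k * t1)_M = (b₁)_M * (k₁)_M`, `Gf ψ ((k*t1)_M) = cb χ b₁ * Gf ψ ((k₁)_M)` (`cb_conj`) and
  `w (k * t1) = cb χ b₁ * w k₁`.  So the error is at most `‖cb χ t1⁻¹‖ * ‖cb χ b₁‖ * ε`, and `‖cb χ b₁‖ = Om h (k * t1) ≤ B` (`om_cb`, `om_kg`,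
  `om_mul_bdd`).  The element `k ↦ cb χ t1⁻¹ * w (k * t1)` is in `W`.
* `yy_final`: let `ε > 0`.  `ac_K` with `S' = Dr y`, `Z = YY` gives `ψ ∈ YY` with `‖iK x - ψ x‖ ≤ ε` on `Ug (Dr y)`.  For `M ≥ M0` there is `w ∈ W`
  with `‖Gf ψ (k_M) - w k‖ ≤ ε` for `k ∈ Kg`.  `Gf iK (k_M) - Gf ψ (k_M) = Gf φ (k_M) = Gf φ_M k` with `φ = iK - ψ`, `φ_M x = φ (x_M)`
  (`gf_sub`, `gf_conj`).  `φ_M` vanishes on `Ug (Dr y)` outside `Kg`: `x_M ∈ Kg` implies `x ∈ Kg` (`tg_in`, `tg_ug`); it is bounded by `ε` on `Ug (Dr y)`.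
  `gf_norm`: `‖Gf φ_M k‖ ≤ ε`.  So the hypothesis of `exact_box` holds.
-/

namespace Pool.Agent.Lib.MP_f399a8_nt.G

open Matrix Filter Topology

noncomputable section

namespace Ctx

variable {ι X Y : Type*} [Finite ι] [AddCommGroup X] [AddCommGroup Y] {N : ℕ} (D : Ctx ι X Y N)
  {p : ℕ} [Fact p.Prime] {C : Type*} [NormedField C] {χ : ↥(D.Tg p) →* Cˣ} {h : X →+ ℝ} {y e : Y}

/-- functions supported in `Kg` on `Ug (Dr y)` whose contractions approach `W` -/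
def YY (χ : ↥(D.Tg p) →* Cˣ) (y e : Y) (W : Set (D.Gt p → C)) : Set (D.Gt p → C) :=
  {ψ | ContinuousOn ψ (D.Ug p (D.Dr y) : Set (D.Gt p)) ∧
    (∀ x ∈ D.Ug p (D.Dr y), x ∉ D.Kg p → ψ x = 0) ∧
    ∀ ε : ℝ, 0 < ε → ∃ M0 : ℕ, ∀ M ≥ M0, ∃ w ∈ W, ∀ k ∈ D.Kg p,
      ‖D.Gf χ y ψ (((D.cc p e (pp p)) ^ M)⁻¹ * k * (D.cc p e (pp p)) ^ M) - w k‖ ≤ ε}

theorem Ya1_tg (e : Y) (M : ℕ) : (D.cc p e (pp p)) ^ M ∈ D.Tg p :=
  pow_mem (D.cc_torus p e (pp p)) M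

theorem yy_yc [IsUltrametricDist C] (he : ∀ α ∈ D.Dr y, 0 ≤ D.pr α e) {W : Set (D.Gt p → C)}
    (hW : D.CS χ W) : D.YC (D.Dr y) (D.YY χ y e W) := by
  refine ⟨?_, ?_, ?_⟩
  · rintro f ⟨hf1, hf2, hf3⟩ g ⟨hg1, hg2, hg3⟩
    refine ⟨hf1.add hg1, fun x hx hxK => ?_, fun ε hε => ?_⟩
    · show f x + g x = 0
      rw [hf2 x hx hxK, hg2 x hx hxK, add_zero]
    · obtain ⟨M1, h1⟩ := hf3 ε hε
      obtain ⟨M2, h2⟩ := hg3 ε hε
      refine ⟨max M1 M2, fun M hM => ?_⟩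
      obtain ⟨w1, hw1, h1⟩ := h1 M ((le_max_left _ _).trans hM)
      obtain ⟨w2, hw2, h2⟩ := h2 M ((le_max_right _ _).trans hM)
      refine ⟨_, hW.add w1 hw1 w2 hw2, fun k hk => ?_⟩
      rw [D.gf_add, add_sub_add_comm]
      exact (IsUltrametricDist.norm_add_le_max _ _).trans (max_le (h1 k hk) (h2 k hk))
  · rintro c f ⟨hf1, hf2, hf3⟩
    refine ⟨continuousOn_const.mul hf1, fun x hx hxK => ?_, fun ε hε => ?_⟩
    · show c * f x = 0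
      rw [hf2 x hx hxK, mul_zero]
    · obtain ⟨M1, h1⟩ := hf3 (ε / (‖c‖ + 1)) (by positivity)
      refine ⟨M1, fun M hM => ?_⟩
      obtain ⟨w1, hw1, h1⟩ := h1 M hM
      refine ⟨_, hW.smul c w1 hw1, fun k hk => ?_⟩
      rw [D.gf_smul, ← mul_sub, norm_mul]
      have h2 := h1 k hk
      calc ‖c‖ * ‖D.Gf χ y f (((D.cc p e (pp p)) ^ M)⁻¹ * k * (D.cc p e (pp p)) ^ M) - w1 k‖
          ≤ (‖c‖ + 1) * (ε / (‖c‖ + 1)) := by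
            gcongr
            linarith
        _ = ε := by
            field_simp
  · rintro u hu huK ψ ⟨hψ1, hψ2, hψ3⟩
    refine ⟨hψ1.comp (continuous_mul_const u).continuousOn fun x hx => mul_mem hx hu,
      fun x hx hxK => ?_, fun ε hε => ?_⟩
    · refine hψ2 (x * u) (mul_mem hx hu) fun h => hxK ?_
      have h1 := mul_mem h (inv_mem huK)
      rwa [mul_inv_cancel_right] at h1
    · obtain ⟨M1, h1⟩ := hψ3 ε hε
      refine ⟨M1, fun M hM => ?_⟩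
      obtain ⟨w1, hw1, h1⟩ := h1 M hM
      have hu' := D.tg_in he hu huK M
      refine ⟨_, hW.trans ((D.cc p e (pp p)) ^ M * u * ((D.cc p e (pp p)) ^ M)⁻¹) w1 hw1,
        fun k hk => ?_⟩
      rw [← D.gf_right ψ hu]
      have h2 : ((D.cc p e (pp p)) ^ M)⁻¹ * k * (D.cc p e (pp p)) ^ M * u =
          ((D.cc p e (pp p)) ^ M)⁻¹ * (k * ((D.cc p e (pp p)) ^ M * u *
            ((D.cc p e (pp p)) ^ M)⁻¹)) * (D.cc p e (pp p)) ^ M := by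
        group
      rw [h2]
      exact h1 _ (mul_mem hk hu')

theorem yy_contr [IsUltrametricDist C] (hs : D.Slope χ h) {W : Set (D.Gt p → C)}
    (hW : D.CS χ W) {ψ : D.Gt p → C} (hψ : ψ ∈ D.YY χ y e W) :
    (fun x => ψ ((D.cc p y (pp p))⁻¹ * x * D.cc p y (pp p))) ∈ D.YY χ y e W := by
  obtain ⟨hψ1, hψ2, hψ3⟩ := hψ
  have ht1 : D.cc p y (pp p) ∈ D.Tg p := D.cc_torus p y (pp p)
  have ht1B : (D.cc p y (pp p))⁻¹ ∈ D.Bg p := inv_mem (D.tg_bg ht1)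
  refine ⟨hψ1.comp ((continuous_mul_const (D.cc p y (pp p))).comp
    (continuous_const_mul (D.cc p y (pp p))⁻¹)).continuousOn fun x hx => (D.tg_ug ht1 hx).2,
    fun x hx hxK => ?_, fun ε hε => ?_⟩
  · have h1 := (D.tg_ug ht1 hx).2
    refine hψ2 _ h1 fun h => hxK ?_
    have h2 := D.tg_in (e := y) (fun α hα => (show α ∈ D.Dr y from hα).1.le) h1 h 1
    rw [pow_one] at h2
    have h3 : D.cc p y (pp p) * ((D.cc p y (pp p))⁻¹ * x * D.cc p y (pp p)) *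
        (D.cc p y (pp p))⁻¹ = x := by group
    rwa [h3] at h2
  · obtain ⟨B, hB0, hB⟩ := D.om_mul_bdd h (D.cc p y (pp p))
    obtain ⟨M1, h1⟩ := hψ3 (ε / (‖D.cb χ (D.cc p y (pp p))⁻¹‖ * B + 1)) (by positivity)
    refine ⟨M1, fun M hM => ?_⟩
    obtain ⟨w, hw, h1⟩ := h1 M hM
    refine ⟨_, hW.smul (D.cb χ (D.cc p y (pp p))⁻¹) _ (hW.trans (D.cc p y (pp p)) w hw),
      fun k hk => ?_⟩
    have htM : (D.cc p e (pp p)) ^ M ∈ D.Tg p := D.Ya1_tg e M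
    rw [← D.gf_conj ψ ht1, mul_assoc (D.cc p y (pp p))⁻¹, D.gf_left ψ ht1B, ← mul_sub, norm_mul]
    have hc : (D.cc p e (pp p)) ^ M * D.cc p y (pp p) = D.cc p y (pp p) * (D.cc p e (pp p)) ^ M :=
      D.tg_comm htM ht1
    obtain ⟨b, hb, k1, hk1, hbk⟩ := D.iwasawa (k * D.cc p y (pp p))
    have h2 : ((D.cc p e (pp p)) ^ M)⁻¹ * k * (D.cc p e (pp p)) ^ M * D.cc p y (pp p) =
        (((D.cc p e (pp p)) ^ M)⁻¹ * b * (D.cc p e (pp p)) ^ M) *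
          (((D.cc p e (pp p)) ^ M)⁻¹ * k1 * (D.cc p e (pp p)) ^ M) := by
      rw [mul_assoc _ ((D.cc p e (pp p)) ^ M) (D.cc p y (pp p)), hc]
      calc ((D.cc p e (pp p)) ^ M)⁻¹ * k * (D.cc p y (pp p) * (D.cc p e (pp p)) ^ M) =
          ((D.cc p e (pp p)) ^ M)⁻¹ * (k * D.cc p y (pp p)) * (D.cc p e (pp p)) ^ M := by group
        _ = _ := by
          rw [hbk]
          group
    have htMB : (D.cc p e (pp p)) ^ M ∈ D.Bg p := D.tg_bg htM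
    have hbM : ((D.cc p e (pp p)) ^ M)⁻¹ * b * (D.cc p e (pp p)) ^ M ∈ D.Bg p :=
      mul_mem (mul_mem (inv_mem htMB) hb) htMB
    rw [h2, D.gf_left ψ hbM, (D.cb_conj χ htM hb).2, hbk, (hW.isPS w hw).2 b hb, ← mul_sub,
      norm_mul]
    have h3 : ‖D.cb χ b‖ ≤ B := by
      have h4 := D.om_cb hs hb k1
      rw [D.om_kg h hk1, mul_one, ← hbk] at h4
      have h5 := hB k
      rw [D.om_kg h hk, mul_one] at h5
      rwa [h4] at h5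
    have h6 := h1 k1 hk1
    have h7 : (0 : ℝ) < ‖D.cb χ (D.cc p y (pp p))⁻¹‖ * B + 1 := by positivity
    calc ‖D.cb χ (D.cc p y (pp p))⁻¹‖ * (‖D.cb χ b‖ *
          ‖D.Gf χ y ψ (((D.cc p e (pp p)) ^ M)⁻¹ * k1 * (D.cc p e (pp p)) ^ M) - w k1‖)
        ≤ ‖D.cb χ (D.cc p y (pp p))⁻¹‖ *
          (B * (ε / (‖D.cb χ (D.cc p y (pp p))⁻¹‖ * B + 1))) := by gcongr
      _ = (‖D.cb χ (D.cc p y (pp p))⁻¹‖ * B) *
          (ε / (‖D.cb χ (D.cc p y (pp p))⁻¹‖ * B + 1)) := by ring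
      _ ≤ (‖D.cb χ (D.cc p y (pp p))⁻¹‖ * B + 1) *
          (ε / (‖D.cb χ (D.cc p y (pp p))⁻¹‖ * B + 1)) := by
          gcongr
          linarith
      _ = ε := mul_div_cancel₀ _ h7.ne'

theorem yy_final [NormedAlgebra ℚ_[p] C] [IsUltrametricDist C] [FiniteDimensional ℚ_[p] C]
    (hχ : Continuous χ) (hs : D.Slope χ h) (hy : D.Reg y) (hg : D.Good h y)
    (he : ∀ α ∈ D.Dr y, 0 ≤ D.pr α e) {W : Set (D.Gt p → C)} (hW : D.CS χ W)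
    {Γ : D.Gt p → C} (hΓ : Γ ∈ D.YY χ y e W) (hne : ∃ x ∈ D.Ug p (D.Dr y), Γ x ≠ 0) :
    D.Gf χ y (D.iK C) ∈ W := by
  refine D.exact_box hχ hs hy hg hW he fun ε hε => ?_
  obtain ⟨ψ, hψ, hψε⟩ := D.ac_K (D.cl_Dr y) (y := y) (fun α hα => hα.1)
    (Z := D.YY χ y e W) (D.yy_yc he hW) (fun f hf => D.yy_contr hs hW hf) (fun f hf => hf.1)
    (fun f hf => hf.2.1) hΓ hne hε
  obtain ⟨M, hM⟩ := hψ.2.2 ε hε
  obtain ⟨w, hw, h1⟩ := hM M le_rfl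
  have htM : (D.cc p e (pp p)) ^ M ∈ D.Tg p := D.Ya1_tg e M
  refine ⟨M, w, hw, fun k hk => ?_⟩
  rw [← sub_add_sub_cancel _
    (D.Gf χ y ψ (((D.cc p e (pp p)) ^ M)⁻¹ * k * (D.cc p e (pp p)) ^ M)) _]
  refine (IsUltrametricDist.norm_add_le_max _ _).trans (max_le ?_ (h1 k hk))
  rw [← D.gf_sub, D.gf_conj _ htM]
  refine D.gf_norm hs hg ?_ hε.le ?_ hk
  · intro d hd hdK
    have hd1 := (D.tg_ug htM hd).2
    have hd2 : ((D.cc p e (pp p)) ^ M)⁻¹ * d * (D.cc p e (pp p)) ^ M ∉ D.Kg p := by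
      intro h
      have h3 := D.tg_in he hd1 h M
      have h4 : (D.cc p e (pp p)) ^ M * (((D.cc p e (pp p)) ^ M)⁻¹ * d *
          (D.cc p e (pp p)) ^ M) * ((D.cc p e (pp p)) ^ M)⁻¹ = d := by group
      rw [h4] at h3
      exact hdK h3
    have h5 : D.iK C (((D.cc p e (pp p)) ^ M)⁻¹ * d * (D.cc p e (pp p)) ^ M) = 0 := by
      unfold iK
      rw [if_neg hd2]
    rw [hψ.2.1 _ hd1 hd2, sub_zero, h5]
  · intro d hd
    exact hψε _ (D.tg_ug htM hd).2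

end Ctx

end

end Pool.Agent.Lib.MP_f399a8_nt.G
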