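import Pool.Agent.Lib.MP_f399a8_ntG.Fa1

/-!
# Levels in the group of two roots

`S3 α γ`: the roots `i α - j γ` with `i ≥ 1`, `j ≥ 0`.  The level of such a root is `i`.  Throughout `γ` is simple for `y`, `α ≠ γ` is positive on `y`.

PROOF.
* `indep`: `a • α = b • γ` with `(a, b) ≠ (0, 0)` gives `γ = α` or `γ = -α` by `prop_eq`; the second is impossible since both are positive on `y`.
* `s3_po`: let `β = i α - j γ`, `i ≥ 1`.  `β ≠ γ` by `indep`.  Suppose `⟨β, y⟩ < 0` and let `β' = ng β`, positive on `y`.  `β' ≠ γ` by `indep`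
  (`i α = (j - 1) γ`).  So `s_γ β'` and `s_γ α` are positive on `y` (`sim_rf`), but `β' + i α = j γ`, so `⟨s_γ β', y⟩ + i ⟨s_γ α, y⟩ = - j ⟨γ, y⟩ ≤ 0`
  (`pr_rf_eq`: `⟨s_γ x, y⟩` is additive in `x`).  Contradiction.
* `s3_cl`, `s3_abs`: add the coefficients.
* `lev_supp`: by `ug_supp`: `α - j γ = β + x` with `β ∈ S'`, `x` in the monoid generated by the roots in `S'`; every element of the monoid is
  `0` or `i' α - j' γ` with `i' ≥ 1` (`AddSubmonoid.closure_induction`), so if `x ≠ 0`, `α - j γ = i₁ α - j₁ γ` with `i₁ ≥ 2`, contradicting `indep`.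
  So `x = 0`, `rt β = α - j γ`.
* `lev_mul`: `(x₁ * x₂) a b = ∑_k x₁ a k * x₂ k b`.  `wt a ≠ wt b` (`indep`: `α - j γ ≠ 0`), so `a ≠ b`.  If `k ≠ a, b` and both factors are nonzero, then
  by `ug_supp` `wt a - wt k` and `wt k - wt b` are `i α - j γ` with `i ≥ 1` each, the sum has level `≥ 2`, contradicting `indep`.  `k = a`: `x₁ a a = 1`
  (`ug_diag`), `k = b`: `x₂ b b = 1`.
* `e_entry`: `(xm (-γ) z * xm α 1 * xm (-γ) (-z)) a b = ∑_{k l} ...`; a nonzero term has `wt a = wt k - m₁ γ`, `wt k = wt l + m α`, `wt l = wt b - m₂ γ`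
  (`xm_entry_zero`), so `m α - (m₁ + m₂) γ = α - γ` and `m = 1`, `m₁ + m₂ = 1` (`indep`).  So the sum is that of the terms with `(m₁, m₂) = (1, 0)`:
  there `(xm (-γ) z) a k = z E_{-γ} a k` (`xm_one`), `(xm α 1) k l = E_α k l`, `(xm (-γ) (-z)) l b = 1 l b` (`xm_diag`), and `(0, 1)`.  Total
  `z (E_{-γ} E_α) a b - z (E_α E_{-γ}) a b`.  (Both products have entries only at these positions.)  With `ef_add`: `= z c E_δ a b`.
* `d_entry`: similarly `(xm (-γ) (-z) * d * xm (-γ) z) a b` for `d ∈ Ug S'`, `S' ⊆ S3`, `α ∉ S'`: terms `wt a = wt k - m₁ γ`, `wt l = wt b - m₂ γ`; if `k = l` and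
  `d k l = 1` then `α - γ = -(m₁ + m₂) γ`, impossible; otherwise `d k l` is a nonidentity entry (for `k ≠ l`), `wt k - wt l = α - γ + (m₁ + m₂) γ`, of
  level `1`; by `lev_supp`, when `m₁ + m₂ ≥ 1`: it is `α + (m₁ + m₂ - 1) γ = α - j γ` requires `m₁ + m₂ = 1`, `j = 0` and `α ∈ S'` (`rt_inj`), excluded
  [for `m₁ + m₂ ≥ 2` the root `β = α + (m₁ + m₂ - 1) γ` is not of the form `i α - j γ` with `j ≥ 0`, by `indep`].
  So `m₁ = m₂ = 0`, `k = a`, `l = b` (`xm_diag`), value `d a b`.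
-/

namespace Pool.Agent.Lib.MP_f399a8_nt.G

open Matrix

noncomputable section

namespace Ctx

variable {ι X Y : Type*} [Finite ι] [AddCommGroup X] [AddCommGroup Y] {N : ℕ} (D : Ctx ι X Y N)
  {p : ℕ} [Fact p.Prime] {y : Y} {γ α : ι}

/-- the roots `i α - j γ`, `i ≥ 1`, `j ≥ 0` -/
def S3 (α γ : ι) : Set ι :=
  {β | ∃ i j : ℕ, 1 ≤ i ∧ D.rt β = (i : ℤ) • D.rt α - (j : ℤ) • D.rt γ}

theorem indep (hγ : 0 < D.pr γ y) (hα : 0 < D.pr α y) (hne : α ≠ γ) {a b : ℤ}
    (h : a • D.rt α = b • D.rt γ) : a = 0 ∧ b = 0 := by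
  by_contra hab
  have h1 : a ≠ 0 ∨ b ≠ 0 := by
    by_contra h2
    push Not at h2
    exact hab h2
  rcases D.prop_eq h1 h with h2 | h2
  · exact hne h2.symm
  · rw [h2, D.pr_ng] at hγ
    omega

theorem Za0_pr {β : ι} {i j : ℤ} (h : D.rt β = i • D.rt α - j • D.rt γ) (y : Y) :
    D.pr β y = i * D.pr α y - j * D.pr γ y := by
  rw [D.pr_def, h, D.pa_sub_left, D.pa_smul_left, D.pa_smul_left]
  rfl

theorem s3_po (hy : D.Reg y) (hγ : D.Sim y γ) (hα : 0 < D.pr α y) (hne : α ≠ γ) {β : ι}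
    (hβ : β ∈ D.S3 α γ) : 0 < D.pr β y ∧ β ≠ γ := by
  obtain ⟨i, j, hi, hβ⟩ := hβ
  refine ⟨?_, ?_⟩
  · by_contra hneg
    have h1 : D.pr β y < 0 := lt_of_le_of_ne (not_lt.1 hneg) (hy β)
    have h2 : 0 < D.pr (D.ng β) y := by
      rw [D.pr_ng]
      omega
    have h3 : D.ng β ≠ γ := by
      intro h4
      have h5 := D.rt_ng β
      rw [h4, hβ] at h5
      have h6 : (i : ℤ) • D.rt α = ((j : ℤ) - 1) • D.rt γ := by
        rw [sub_smul, one_smul]
        nth_rewrite 2 [h5]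
        abel
      have h7 := (D.indep hγ.1 hα hne h6).1
      omega
    have h4 := D.sim_rf hy hγ h2 h3
    have h5 := D.sim_rf hy hγ hα hne
    rw [D.pr_rf, D.pr_ng] at h4
    rw [D.pr_rf] at h5
    have h6 : D.pr γ (D.ry γ y) = - D.pr γ y := by
      rw [← D.pr_rf, D.rf_self, D.pr_ng]
    have h7 := D.Za0_pr hβ (D.ry γ y)
    rw [h6] at h7
    have h8 : 0 ≤ (j : ℤ) * D.pr γ y := mul_nonneg (by positivity) hγ.1.le
    have h9 : 0 ≤ (i : ℤ) * D.pr α (D.ry γ y) := mul_nonneg (by positivity) h5.le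
    rw [mul_neg] at h7
    omega
  · rintro rfl
    have h6 : (i : ℤ) • D.rt α = ((j : ℤ) + 1) • D.rt β := by
      rw [add_smul, one_smul]
      nth_rewrite 2 [hβ]
      abel
    have h7 := (D.indep hγ.1 hα hne h6).1
    omega

theorem s3_cl : D.Cl (D.S3 α γ) := by
  rintro β₁ ⟨i, j, hi, h1⟩ β₂ ⟨i', j', hi', h2⟩ β h3
  refine ⟨i + i', j + j', by omega, ?_⟩
  rw [h3, h1, h2]
  push_cast
  rw [add_smul, add_smul]
  abel

theorem s3_abs : D.Abs (D.ng γ) (D.S3 α γ) := by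
  rintro β ⟨i, j, hi, h1⟩ β' h2
  refine ⟨i, j + 1, hi, ?_⟩
  rw [h2, h1, D.rt_ng]
  push_cast
  rw [add_smul, one_smul]
  abel

theorem Za0_mon {S' : Set ι} (hS : S' ⊆ D.S3 α γ) {x : X}
    (hx : x ∈ AddSubmonoid.closure (D.rt '' S')) :
    x = 0 ∨ ∃ i j : ℕ, 1 ≤ i ∧ x = (i : ℤ) • D.rt α - (j : ℤ) • D.rt γ := by
  induction hx using AddSubmonoid.closure_induction with
  | mem x hx =>
    obtain ⟨β, hβ, rfl⟩ := hx
    exact Or.inr (hS hβ)
  | zero => exact Or.inl rfl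
  | add x y _ _ hx hy =>
    rcases hx with rfl | ⟨i, j, hi, h1⟩
    · rw [zero_add]
      exact hy
    · rcases hy with rfl | ⟨i', j', hi', h2⟩
      · rw [add_zero]
        exact Or.inr ⟨i, j, hi, h1⟩
      · refine Or.inr ⟨i + i', j + j', by omega, ?_⟩
        rw [h1, h2]
        push_cast
        rw [add_smul, add_smul]
        abel

theorem Za0_lev {S' : Set ι} (hS : S' ⊆ D.S3 α γ) {x : D.Gt p} (hx : x ∈ D.Ug p S')
    {a b : Fin N} (h : x.1.1 a b ≠ (1 : Matrix (Fin N) (Fin N) ℚ_[p]) a b) :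
    ∃ i j : ℕ, 1 ≤ i ∧ D.wt a = D.wt b + ((i : ℤ) • D.rt α - (j : ℤ) • D.rt γ) := by
  obtain ⟨β, hβ, x', hx', h2⟩ := D.ug_supp hx h
  obtain ⟨i₁, j₁, hi₁, h5⟩ := hS hβ
  rcases D.Za0_mon hS hx' with h4 | ⟨i, j', hi, h4⟩
  · exact ⟨i₁, j₁, hi₁, by rw [h2, h4, h5, add_zero]⟩
  · refine ⟨i₁ + i, j₁ + j', by omega, ?_⟩
    rw [h2, h4, h5]
    push_cast
    rw [add_smul, add_smul]
    abel

theorem lev_supp (hγ : 0 < D.pr γ y) (hα : 0 < D.pr α y) (hne : α ≠ γ) {S' : Set ι}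
    (hS : S' ⊆ D.S3 α γ) {x : D.Gt p} (hx : x ∈ D.Ug p S') {a b : Fin N} {j : ℤ}
    (hab : D.wt a = D.wt b + (D.rt α - j • D.rt γ)) (h : x.1.1 a b ≠ 0) :
    ∃ β ∈ S', D.rt β = D.rt α - j • D.rt γ := by
  have hne' : a ≠ b := by
    rintro rfl
    have h1 : D.rt α - j • D.rt γ = 0 := left_eq_add.1 hab
    have h2 : (1 : ℤ) • D.rt α = j • D.rt γ := by
      rw [one_smul]
      exact sub_eq_zero.1 h1
    exact one_ne_zero (D.indep hγ hα hne h2).1
  have h1 : x.1.1 a b ≠ (1 : Matrix (Fin N) (Fin N) ℚ_[p]) a b := by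
    rw [Matrix.one_apply_ne hne']
    exact h
  obtain ⟨β, hβ, x', hx', h2⟩ := D.ug_supp hx h1
  rw [hab] at h2
  have h3 := add_left_cancel h2
  refine ⟨β, hβ, ?_⟩
  rcases D.Za0_mon hS hx' with h4 | ⟨i, j', hi, h4⟩
  · rw [h3, h4, add_zero]
  · exfalso
    obtain ⟨i₁, j₁, hi₁, h5⟩ := hS hβ
    rw [h4, h5] at h3
    have h6 : ((i₁ : ℤ) + i - 1) • D.rt α = ((j₁ : ℤ) + j' - j) • D.rt γ := by
      rw [sub_smul, sub_smul, add_smul, add_smul, one_smul]
      have h7 : D.rt α = (i₁ : ℤ) • D.rt α - (j₁ : ℤ) • D.rt γ +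
          ((i : ℤ) • D.rt α - (j' : ℤ) • D.rt γ) + j • D.rt γ := by
        rw [← h3]
        abel
      nth_rewrite 3 [h7]
      abel
    have h8 := (D.indep hγ hα hne h6).1
    omega

theorem lev_mul (hy : D.Reg y) (hγ : D.Sim y γ) (hα : 0 < D.pr α y) (hne : α ≠ γ)
    {x₁ x₂ : D.Gt p} (h₁ : x₁ ∈ D.Ug p (D.S3 α γ)) (h₂ : x₂ ∈ D.Ug p (D.S3 α γ)) {a b : Fin N}
    {j : ℤ} (hab : D.wt a = D.wt b + (D.rt α - j • D.rt γ)) :
    (x₁ * x₂).1.1 a b = x₁.1.1 a b + x₂.1.1 a b := by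
  have hne' : a ≠ b := by
    rintro rfl
    have h1 : D.rt α - j • D.rt γ = 0 := left_eq_add.1 hab
    have h2 : (1 : ℤ) • D.rt α = j • D.rt γ := by
      rw [one_smul]
      exact sub_eq_zero.1 h1
    exact one_ne_zero (D.indep hγ.1 hα hne h2).1
  have hpos : ∀ β ∈ D.S3 α γ, 0 < D.pr β y := fun β hβ => (D.s3_po hy hγ hα hne hβ).1
  rw [D.val_mul, Matrix.mul_apply, Finset.sum_eq_add a b hne']
  · rw [D.ug_diag hpos h₁, D.ug_diag hpos h₂, one_mul, mul_one, add_comm]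
  · rintro k - ⟨hka, hkb⟩
    by_contra hprod
    have hk1 := left_ne_zero_of_mul hprod
    have hk2 := right_ne_zero_of_mul hprod
    obtain ⟨i, j', hi, h3⟩ := D.Za0_lev subset_rfl h₁ (a := a) (b := k) (by
      rw [Matrix.one_apply_ne hka.symm]
      exact hk1)
    obtain ⟨i', j'', hi', h4⟩ := D.Za0_lev subset_rfl h₂ (a := k) (b := b) (by
      rw [Matrix.one_apply_ne hkb]
      exact hk2)
    rw [h4, hab, add_assoc] at h3
    have h5 := add_left_cancel h3
    have h6 : ((i' : ℤ) + i - 1) • D.rt α = ((j'' : ℤ) + j' - j) • D.rt γ := by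
      rw [sub_smul, sub_smul, add_smul, add_smul, one_smul]
      have h7 : D.rt α = (i' : ℤ) • D.rt α - (j'' : ℤ) • D.rt γ +
          ((i : ℤ) • D.rt α - (j' : ℤ) • D.rt γ) + j • D.rt γ := by
        rw [← h5]
        abel
      nth_rewrite 3 [h7]
      abel
    have h8 := (D.indep hγ.1 hα hne h6).1
    omega
  · exact fun h => absurd (Finset.mem_univ a) h
  · exact fun h => absurd (Finset.mem_univ b) h

theorem e_entry (hγ : 0 < D.pr γ y) (hα : 0 < D.pr α y) (hne : α ≠ γ) {δ : ι}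
    (hδ : D.rt δ = D.rt α - D.rt γ) (p : ℕ) [Fact p.Prime] : ∃ c : ℚ_[p], c ≠ 0 ∧
      ∀ (z : ℚ_[p]) (a b : Fin N), D.wt a = D.wt b + D.rt δ →
        (D.xr p (D.ng γ) z * D.xr p α 1 * (D.xr p (D.ng γ) z)⁻¹).1.1 a b =
          z * c * D.Ef p δ a b := by
  obtain ⟨c, hc, hcE⟩ := D.ef_add p (α := D.ng γ) (β := α) (γ := δ) (by
    rw [hδ, D.rt_ng]
    abel)
  refine ⟨c, hc, fun z a b hab => ?_⟩
  have key : ∀ l k : Fin N, D.xm p (D.ng γ) z a k * D.xm p α 1 k l * D.xm p (D.ng γ) (-z) l b =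
      z * D.Ef p (D.ng γ) a k * D.Ef p α k l * (1 : Matrix (Fin N) (Fin N) ℚ_[p]) l b -
      (1 : Matrix (Fin N) (Fin N) ℚ_[p]) a k * D.Ef p α k l * (z * D.Ef p (D.ng γ) l b) := by
    intro l k
    by_cases c1 : D.wt k = D.wt l + D.rt α
    · by_cases c2 : D.wt a = D.wt k + D.rt (D.ng γ)
      · have h1 : D.wt l = D.wt b := by
          rw [c2, c1, hδ, D.rt_ng] at hab
          have h2 : D.wt l + (D.rt α - D.rt γ) = D.wt b + (D.rt α - D.rt γ) := by
            rw [← hab]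
            abel
          exact add_right_cancel h2
        have h2 : a ≠ k := by
          rintro rfl
          exact D.rt_ne_zero _ (left_eq_add.1 c2)
        rw [D.xm_one p _ _ c2, D.xm_one p _ _ c1, D.xm_diag p _ _ h1, Matrix.one_apply_ne h2]
        ring
      · by_cases c3 : D.wt a = D.wt k
        · have h1 : D.wt l = D.wt b + D.rt (D.ng γ) := by
            rw [c3, c1, hδ] at hab
            rw [D.rt_ng]
            have h2 : D.wt l + D.rt α = (D.wt b + -D.rt γ) + D.rt α := by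
              rw [hab]
              abel
            exact add_right_cancel h2
          have h2 : D.Ef p (D.ng γ) a k = 0 := by
            by_contra h3
            have h4 := D.ef_wt p h3
            rw [add_comm] at h4
            exact c2 h4
          rw [D.xm_diag p _ _ c3, D.xm_one p _ _ c1, D.xm_one p _ _ h1, h2]
          ring
        · have h1 : D.Ef p (D.ng γ) a k = 0 := by
            by_contra h3
            have h4 := D.ef_wt p h3
            rw [add_comm] at h4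
            exact c2 h4
          have h2 : (1 : Matrix (Fin N) (Fin N) ℚ_[p]) a k = 0 := by
            refine Matrix.one_apply_ne ?_
            rintro rfl
            exact c3 rfl
          rw [h1, h2]
          have h3 : D.xm p (D.ng γ) z a k * D.xm p α 1 k l * D.xm p (D.ng γ) (-z) l b = 0 := by
            by_contra h4
            obtain ⟨m₁, e1⟩ := D.Gb3_cases (D.ng γ) z
              (left_ne_zero_of_mul (left_ne_zero_of_mul h4))
            obtain ⟨m₂, e2⟩ := D.Gb3_cases (D.ng γ) (-z) (right_ne_zero_of_mul h4)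
            have h5 : (0 : ℤ) • D.rt α = ((m₁ : ℤ) + m₂ - 1) • D.rt γ := by
              rw [e1, c1, e2, D.rt_ng, hδ] at hab
              rw [zero_smul, sub_smul, add_smul, one_smul]
              have h6 : D.wt b + (D.rt α - D.rt γ) = D.wt b + D.rt α + (m₂ : ℤ) • (-D.rt γ) +
                  (m₁ : ℤ) • (-D.rt γ) := by
                rw [← hab]
                abel
              have h7 : (0 : X) = (D.wt b + D.rt α + (m₂ : ℤ) • (-D.rt γ) +
                  (m₁ : ℤ) • (-D.rt γ)) - (D.wt b + (D.rt α - D.rt γ)) := by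
                rw [h6, sub_self]
              rw [smul_neg, smul_neg] at h7
              have h8 : (m₁ : ℤ) • D.rt γ + (m₂ : ℤ) • D.rt γ - D.rt γ =
                  -((D.wt b + D.rt α + -((m₂ : ℤ) • D.rt γ) + -((m₁ : ℤ) • D.rt γ)) -
                    (D.wt b + (D.rt α - D.rt γ))) := by abel
              rw [h8, ← h7, neg_zero]
            have h6 := (D.indep hγ hα hne h5).2
            rcases Nat.eq_zero_or_pos m₁ with h7 | h7
            · rw [h7] at e1
              simp at e1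
              exact c3 e1
            · have h8 : m₁ = 1 := by omega
              rw [h8] at e1
              simp at e1
              exact c2 e1
          rw [h3]
          ring
    · have h1 : D.Ef p α k l = 0 := by
        by_contra h3
        have h4 := D.ef_wt p h3
        rw [add_comm] at h4
        exact c1 h4
      rw [h1]
      have h3 : D.xm p (D.ng γ) z a k * D.xm p α 1 k l * D.xm p (D.ng γ) (-z) l b = 0 := by
        by_contra h4
        obtain ⟨m₁, e1⟩ := D.Gb3_cases (D.ng γ) z (left_ne_zero_of_mul (left_ne_zero_of_mul h4))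
        obtain ⟨m, e3⟩ := D.Gb3_cases α 1 (right_ne_zero_of_mul (left_ne_zero_of_mul h4))
        obtain ⟨m₂, e2⟩ := D.Gb3_cases (D.ng γ) (-z) (right_ne_zero_of_mul h4)
        have h5 : ((m : ℤ) - 1) • D.rt α = ((m₁ : ℤ) + m₂ - 1) • D.rt γ := by
          rw [e1, e3, e2, D.rt_ng, hδ] at hab
          rw [sub_smul, sub_smul, add_smul, one_smul, one_smul]
          have h7 : (D.wt b + (m₂ : ℤ) • (-D.rt γ) + (m : ℤ) • D.rt α + (m₁ : ℤ) • (-D.rt γ)) -
              (D.wt b + (D.rt α - D.rt γ)) = 0 := by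
            rw [hab, sub_self]
          rw [smul_neg, smul_neg] at h7
          rw [← sub_eq_zero]
          rw [← h7]
          abel
        have h6 := (D.indep hγ hα hne h5).1
        have h7 : m = 1 := by omega
        rw [h7] at e3
        simp at e3
        exact c1 e3
      rw [h3]
      ring
  have h1 : (D.xr p (D.ng γ) z * D.xr p α 1 * (D.xr p (D.ng γ) z)⁻¹).1.1 =
      D.xm p (D.ng γ) z * D.xm p α 1 * D.xm p (D.ng γ) (-z) := by
    rw [← D.xr_neg, D.val_mul, D.val_mul, D.xr_val, D.xr_val, D.xr_val]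
  have h2 : (D.xm p (D.ng γ) z * D.xm p α 1 * D.xm p (D.ng γ) (-z)) a b =
      ((z • D.Ef p (D.ng γ)) * D.Ef p α * (1 : Matrix (Fin N) (Fin N) ℚ_[p]) -
        (1 : Matrix (Fin N) (Fin N) ℚ_[p]) * D.Ef p α * (z • D.Ef p (D.ng γ))) a b := by
    rw [Matrix.sub_apply, Matrix.mul_apply, Matrix.mul_apply, Matrix.mul_apply,
      ← Finset.sum_sub_distrib]
    refine Finset.sum_congr rfl fun l _ => ?_
    rw [Matrix.mul_apply, Matrix.mul_apply, Matrix.mul_apply, Finset.sum_mul, Finset.sum_mul,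
      Finset.sum_mul, ← Finset.sum_sub_distrib]
    refine Finset.sum_congr rfl fun k _ => ?_
    rw [key l k]
    rfl
  rw [h1, h2, mul_one, one_mul, Matrix.smul_mul, Matrix.mul_smul, ← smul_sub, hcE]
  rw [Matrix.smul_apply, Matrix.smul_apply, smul_eq_mul, smul_eq_mul, mul_assoc]

theorem d_entry (hγ : 0 < D.pr γ y) (hα : 0 < D.pr α y) (hne : α ≠ γ) {δ : ι}
    (hδ : D.rt δ = D.rt α - D.rt γ) {S' : Set ι} (hS : S' ⊆ D.S3 α γ) (hα' : α ∉ S')
    {d : D.Gt p} (hd : d ∈ D.Ug p S') (z : ℚ_[p]) {a b : Fin N}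
    (hab : D.wt a = D.wt b + D.rt δ) :
    ((D.xr p (D.ng γ) z)⁻¹ * d * D.xr p (D.ng γ) z).1.1 a b = d.1.1 a b := by
  have key : ∀ l k : Fin N, D.xm p (D.ng γ) (-z) a k * d.1.1 k l * D.xm p (D.ng γ) z l b =
      (1 : Matrix (Fin N) (Fin N) ℚ_[p]) a k * d.1.1 k l *
        (1 : Matrix (Fin N) (Fin N) ℚ_[p]) l b := by
    intro l k
    by_cases c1 : D.wt a = D.wt k ∧ D.wt l = D.wt b
    · rw [D.xm_diag p _ _ c1.1, D.xm_diag p _ _ c1.2]
    · have h1 : (1 : Matrix (Fin N) (Fin N) ℚ_[p]) a k * d.1.1 k l *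
          (1 : Matrix (Fin N) (Fin N) ℚ_[p]) l b = 0 := by
        by_contra h2
        have h3 := left_ne_zero_of_mul (left_ne_zero_of_mul h2)
        have h4 := right_ne_zero_of_mul h2
        have h5 : a = k := by
          by_contra h6
          exact h3 (Matrix.one_apply_ne h6)
        have h6 : l = b := by
          by_contra h7
          exact h4 (Matrix.one_apply_ne h7)
        exact c1 ⟨by rw [h5], by rw [h6]⟩
      rw [h1]
      by_contra h4
      obtain ⟨m₁, e1⟩ := D.Gb3_cases (D.ng γ) (-z) (left_ne_zero_of_mul (left_ne_zero_of_mul h4))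
      obtain ⟨m₂, e2⟩ := D.Gb3_cases (D.ng γ) z (right_ne_zero_of_mul h4)
      have h2 := right_ne_zero_of_mul (left_ne_zero_of_mul h4)
      have h3 : D.wt k = D.wt l + (D.rt α - (1 - ((m₁ : ℤ) + m₂)) • D.rt γ) := by
        have h5 : D.wt k + (m₁ : ℤ) • D.rt (D.ng γ) = D.wt b + D.rt δ := by rw [← e1, hab]
        rw [D.rt_ng, smul_neg, hδ] at h5
        rw [D.rt_ng, smul_neg] at e2
        rw [e2, sub_smul, add_smul, one_smul]
        have h6 : D.wt k = D.wt b + (D.rt α - D.rt γ) + (m₁ : ℤ) • D.rt γ := by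
          rw [← h5]
          abel
        rw [h6]
        abel
      obtain ⟨β, hβ, h5⟩ := D.lev_supp hγ hα hne hS hd h3 h2
      obtain ⟨i, j, hi, h6⟩ := hS hβ
      rw [h6] at h5
      have h7 : ((i : ℤ) - 1) • D.rt α = ((j : ℤ) - (1 - ((m₁ : ℤ) + m₂))) • D.rt γ := by
        rw [sub_smul, sub_smul (j : ℤ), one_smul]
        rw [← sub_eq_zero] at h5 ⊢
        rw [← h5]
        abel
      obtain ⟨h8, h9⟩ := D.indep hγ hα hne h7
      have hm : m₁ = 0 ∨ 1 ≤ m₁ := by omega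
      have hm' : m₂ = 0 ∨ 1 ≤ m₂ := by omega
      by_cases h10 : m₁ + m₂ = 0
      · have h11 : m₁ = 0 := by omega
        have h12 : m₂ = 0 := by omega
        rw [h11] at e1
        rw [h12] at e2
        simp at e1 e2
        exact c1 ⟨e1, e2⟩
      · have h11 : j = 0 := by omega
        have h12 : i = 1 := by omega
        rw [h11, h12] at h6
        simp at h6
        have h13 := D.rt_inj h6
        rw [h13] at hβ
        exact hα' hβ
  have h1 : ((D.xr p (D.ng γ) z)⁻¹ * d * D.xr p (D.ng γ) z).1.1 =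
      D.xm p (D.ng γ) (-z) * d.1.1 * D.xm p (D.ng γ) z := by
    rw [← D.xr_neg, D.val_mul, D.val_mul, D.xr_val, D.xr_val]
  have h2 : (D.xm p (D.ng γ) (-z) * d.1.1 * D.xm p (D.ng γ) z) a b =
      ((1 : Matrix (Fin N) (Fin N) ℚ_[p]) * d.1.1 * (1 : Matrix (Fin N) (Fin N) ℚ_[p])) a b := by
    rw [Matrix.mul_apply, Matrix.mul_apply]
    refine Finset.sum_congr rfl fun l _ => ?_
    rw [Matrix.mul_apply, Matrix.mul_apply, Finset.sum_mul, Finset.sum_mul]
    exact Finset.sum_congr rfl fun k _ => key l k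
  rw [h1, h2, mul_one, one_mul]

end Ctx

end

end Pool.Agent.Lib.MP_f399a8_nt.G
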