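import Pool.Agent.Lib.MP_f399a8_ntG.Za0
import Pool.Agent.Lib.MP_f399a8_ntG.Fa2

/-!
# The element `e` (`γ` simple for `y`, positive but not simple for `y0`)

PROOF of `ze_exists`.  Since `γ` is not simple for `y0` there are `α₁, α₂`, positive for `y0`, with `γ = α₁ + α₂`.  Not both are positive on `y`
(`Sim y γ`), not both are negative on `y` (the sum is positive), so up to exchanging them `0 < ⟨α₁, y⟩`, `⟨α₂, y⟩ < 0`.  `α₁ ≠ γ`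
(`α₂ ≠ 0`).  Let `δ = ng α₂`: `rt δ = rt α₁ - rt γ`, positive on `y`, negative for `y0`.  `e = xr α₁ 1`: in `Ug (Ez y γ)` and `Kg` (`xr_K`).  With
`g = xr (ng γ) z`: `e' := g * e * g⁻¹ ∈ Ug S3`, `S3 = D.S3 α₁ γ` (`ug_norm` with `δ = ng γ`: `s3_cl`, `s3_abs`, `s3_po`, `ng γ ∉ S3` by `s3_po`).  By
`ug_fac` (`z = y0`) `e' = e₁ * d₁`, `e₁ ∈ Ug (S3 ∩ Po y0)`, `d₁ ∈ Ug (S3 ∩ Ne y0)`.  For `(a, b)` with `wt a = wt b + rt δ`: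
`e' a b = e₁ a b + d₁ a b` (`lev_mul`, `j = 1`), `e₁ a b = 0` (`lev_supp` with `S' = S3 ∩ Po y0`: it would give `δ ∈ Po y0`), and `e' a b = z c E_δ a b`
(`e_entry`).  So `d₁ a b = z c E_δ a b`.  `d' := g⁻¹ * d₁ * g ∈ Ug (S3 ∩ Ne y0)` (`ug_norm'`), `d' a b = d₁ a b` (`d_entry`, `α₁ ∉ Ne y0`).  At a primitive
entry of `E_δ` (`ef_prim`, `ef_wt`) `‖d' a b‖ = ‖z‖ ‖c‖`, so `d' ∉ Kg` if `‖z‖ > A := max 1 ‖c‖⁻¹`.  `S3 ∩ Ne y0 ⊆ Dr y`.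
`g * e = e' * g = e₁ * g * d'`, `e₁ ∈ Bg` (`po_bg`), `g ∈ Ug (Fr y)` (`ng_mem_fr`), `d' ∈ Ug (Dr y)`: `Gf χ y iK (g * e) = cb χ e₁ * iK d' = 0` (`gf_eq`).
-/

namespace Pool.Agent.Lib.MP_f399a8_nt.G

open Matrix Filter Topology

noncomputable section

namespace Ctx

variable {ι X Y : Type*} [Finite ι] [AddCommGroup X] [AddCommGroup Y] {N : ℕ} (D : Ctx ι X Y N)
  {p : ℕ} [Fact p.Prime] {C : Type*} [NormedField C] {y : Y} {γ : ι}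

/-- `Er y` without `γ` -/
def Ez (y : Y) (γ : ι) : Set ι := {α | α ∈ D.Er y ∧ α ≠ γ}

theorem ez_ob : D.Ez y γ ⊆ D.Ob y γ := fun _ h => ⟨h.1.1, h.2⟩

theorem Za1_pair (hy : D.Reg y) (hγ : D.Sim y γ) (h0 : 0 < D.pr γ D.y0)
    (hns : ¬ D.Sim D.y0 γ) : ∃ α₁ α₂ : ι, 0 < D.pr α₁ D.y0 ∧ 0 < D.pr α₂ D.y0 ∧
      D.rt γ = D.rt α₁ + D.rt α₂ ∧ 0 < D.pr α₁ y ∧ D.pr α₂ y < 0 := by
  have h1 : ∃ α β, 0 < D.pr α D.y0 ∧ 0 < D.pr β D.y0 ∧ D.rt γ = D.rt α + D.rt β := by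
    by_contra h2
    refine hns ⟨h0, fun α β hα hβ h3 => h2 ⟨α, β, hα, hβ, h3⟩⟩
  obtain ⟨α, β, hα, hβ, h2⟩ := h1
  have h3 := D.pr_add h2 y
  have h4 := hγ.1
  have h5 : ¬ (0 < D.pr α y ∧ 0 < D.pr β y) := fun h6 => hγ.2 α β h6.1 h6.2 h2
  have h6 := hy α
  have h7 := hy β
  rcases lt_or_gt_of_ne h6 with h8 | h8
  · refine ⟨β, α, hβ, hα, ?_, ?_, h8⟩
    · rw [h2, add_comm]
    · omega
  · rcases lt_or_gt_of_ne h7 with h9 | h9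
    · exact ⟨α, β, hα, hβ, h2, h8, h9⟩
    · exact absurd ⟨h8, h9⟩ h5

theorem ze_exists (C : Type*) [NormedField C] (p : ℕ) [Fact p.Prime] (hy : D.Reg y)
    (hγ : D.Sim y γ) (h0 : 0 < D.pr γ D.y0) (hns : ¬ D.Sim D.y0 γ) :
    ∃ e ∈ D.Ug p (D.Ez y γ), e ∈ D.Kg p ∧ ∃ A : ℝ, 1 ≤ A ∧ ∀ (χ : ↥(D.Tg p) →* Cˣ) (z : ℚ_[p]),
      A < ‖z‖ → D.Gf χ y (D.iK C) (D.xr p (D.ng γ) z * e) = 0 := by
  obtain ⟨α, α₂, hα0, hα₂0, hsum, hα, hα₂⟩ := D.Za1_pair hy hγ h0 hns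
  have hδ : D.rt (D.ng α₂) = D.rt α - D.rt γ := by
    rw [D.rt_ng, hsum]
    abel
  have hδ0 : D.pr (D.ng α₂) D.y0 < 0 := by
    rw [D.pr_ng]
    omega
  have hne : α ≠ γ := by
    rintro rfl
    exact D.rt_ne_zero α₂ (left_eq_add.1 hsum)
  have hpos : ∀ β ∈ D.S3 α γ, 0 < D.pr β y := fun β hβ => (D.s3_po hy hγ hα hne hβ).1
  have hγS : D.ng (D.ng γ) ∉ D.S3 α γ := by
    rw [D.ng_ng]
    exact fun h => (D.s3_po hy hγ hα hne h).2 rfl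
  have hαS : α ∈ D.S3 α γ := ⟨1, 0, le_rfl, by simp⟩
  obtain ⟨c, hc, hce⟩ := D.e_entry hγ.1 hα hne hδ p
  refine ⟨D.xr p α 1, D.xr_mem (show α ∈ D.Ez y γ from ⟨⟨hα, hα0⟩, hne⟩) 1, (D.xr_K p).2 (by rw [norm_one]),
    max 1 ‖c‖⁻¹, le_max_left _ _, fun χ z hz => ?_⟩
  have he' : D.xr p (D.ng γ) z * D.xr p α 1 * (D.xr p (D.ng γ) z)⁻¹ ∈ D.Ug p (D.S3 α γ) :=
    D.ug_norm D.s3_cl hpos D.s3_abs hγS z (D.xr_mem hαS 1)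
  obtain ⟨e₁, he₁, d₁, hd₁, hed⟩ := D.ug_fac0 D.s3_cl hpos (z := D.y0)
    (fun β _ => D.reg_y0 β) he'
  have hclN : D.Cl (D.S3 α γ ∩ D.Ne D.y0) := D.cl_inter D.s3_cl (D.cl_ne _)
  have habN : D.Abs (D.ng γ) (D.S3 α γ ∩ D.Ne D.y0) := by
    rintro β ⟨hβ, hβ'⟩ β' h
    refine ⟨D.s3_abs β hβ β' h, ?_⟩
    show D.pr β' D.y0 < 0
    have h2 : D.pr β D.y0 < 0 := hβ'
    rw [D.pr_add h, D.pr_ng]
    omega
  have hd' : (D.xr p (D.ng γ) z)⁻¹ * d₁ * D.xr p (D.ng γ) z ∈ D.Ug p (D.S3 α γ ∩ D.Ne D.y0) :=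
    D.ug_norm' hclN (fun β hβ => hpos β hβ.1) habN (fun h => hγS h.1) z hd₁
  have hαN : α ∉ D.S3 α γ ∩ D.Ne D.y0 := fun h => absurd h.2 (not_lt.2 hα0.le)
  have hK : (D.xr p (D.ng γ) z)⁻¹ * d₁ * D.xr p (D.ng γ) z ∉ D.Kg p := by
    intro hK
    obtain ⟨a, b, hab⟩ := D.ef_prim p (D.ng α₂)
    have h1 : D.wt a = D.wt b + D.rt (D.ng α₂) := by
      have h2 : D.Ef p (D.ng α₂) a b ≠ 0 := by
        intro h3
        rw [h3, norm_zero] at hab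
        exact zero_ne_one hab
      rw [D.ef_wt p h2, add_comm]
    have h1' : D.wt a = D.wt b + (D.rt α - (1 : ℤ) • D.rt γ) := by
      rw [h1, hδ, one_smul]
    have h2 := D.d_entry hγ.1 hα hne hδ Set.inter_subset_left hαN hd₁ z h1
    have h3 := hce z a b h1
    rw [hed, D.lev_mul hy hγ hα hne (D.ug_mono Set.inter_subset_left he₁)
      (D.ug_mono Set.inter_subset_left hd₁) h1'] at h3
    have h4 : e₁.1.1 a b = 0 := by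
      by_contra h5
      obtain ⟨β, hβ, h6⟩ := D.lev_supp hγ.1 hα hne Set.inter_subset_left he₁ h1' h5
      rw [one_smul, ← hδ] at h6
      have h7 := D.rt_inj h6
      have h8 : 0 < D.pr β D.y0 := hβ.2
      rw [h7] at h8
      omega
    rw [h4, zero_add] at h3
    have h5 := (D.mem_Kg p).1 hK a b
    rw [h2, h3, norm_mul, norm_mul, hab, mul_one] at h5
    have h6 : ‖c‖⁻¹ < ‖z‖ := (le_max_right _ _).trans_lt hz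
    have h7 : 0 < ‖c‖ := norm_pos_iff.2 hc
    have h8 : 1 < ‖z‖ * ‖c‖ := by
      rw [inv_lt_iff_one_lt_mul₀ h7] at h6
      linarith
    linarith
  have hsub : D.S3 α γ ∩ D.Ne D.y0 ⊆ D.Dr y := fun β hβ => ⟨hpos β hβ.1, hβ.2⟩
  have hmul : D.xr p (D.ng γ) z * D.xr p α 1 =
      e₁ * D.xr p (D.ng γ) z * ((D.xr p (D.ng γ) z)⁻¹ * d₁ * D.xr p (D.ng γ) z) := by
    have h1 : D.xr p (D.ng γ) z * D.xr p α 1 = e₁ * d₁ * D.xr p (D.ng γ) z := by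
      rw [← hed]
      group
    rw [h1]
    group
  rw [hmul, D.gf_eq _ (D.po_bg (fun β hβ => hβ.2) he₁) (D.xr_mem (D.ng_mem_fr hγ h0) z)
    (D.ug_mono hsub hd')]
  have h1 : D.iK C ((D.xr p (D.ng γ) z)⁻¹ * d₁ * D.xr p (D.ng γ) z) = 0 := by
    unfold iK
    rw [if_neg hK]
  rw [h1, mul_zero]

end Ctx

end

end Pool.Agent.Lib.MP_f399a8_nt.G
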