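import Pool.Agent.Lib.MP_f399a8_ntG.Za1
import Pool.Agent.Lib.MP_f399a8_ntG.Pa1

/-!
# The function `f0`

`f0 x = G (x * e) - G x` with `G = Gf χ y iK` and `e ∈ Ug (Ez y γ) ∩ Kg`.  Write `g_z = xr (ng γ) z`.  (The same for `SL_n`: `MP_f399a8_ntS.ZfA`.)

PROOF of `f0_left`: `gf_left`.
PROOF of `f0_zero`.  Let `d ∈ Ug (Dr y)`, `‖z‖ ≤ 1`, `x = d * g_z`.
`G x`: `x = g_z * (g_z⁻¹ * d * g_z)`, `g_z ∈ Ug (Fr y)` (`ng_mem_fr`), `d' := g_z⁻¹ * d * g_z ∈ Ug (Dr y)` (`ug_norm'`, `abs_dr`, `cl_Dr`; `γ ∉ Dr y`), so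
`G x = iK d' = iK d` (`g_z ∈ Kg`, `xr_K`).
`G (x * e)`: `x * e = d * e' * g_z` with `e' := g_z * e * g_z⁻¹`.  `e ∈ Ug (Ob y γ)` (`ez_ob`), so `e' ∈ Ug (Ob y γ) ∩ Kg` (`ob_io`, `io_lo`),
`d * e' ∈ Ug (Po y)` and by `ed_fac` `d * e' = e₁ * d₁`, `e₁ ∈ Ug (Er y)`, `d₁ ∈ Ug (Dr y)`, integral if `d * e'` is.
`x * e = e₁ * g_z * (g_z⁻¹ * d₁ * g_z)`, so `G (x * e) = iK (g_z⁻¹ * d₁ * g_z) = iK d₁` (`gf_eq`, `cb_ug`, `po_bg`).  `d ∈ Kg → d₁ ∈ Kg` by `ed_fac`.  Conversely if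
`d₁ ∈ Kg`: `e₁⁻¹ * d = d₁ * e'⁻¹ ∈ Kg`; `kp_er` with `b = e₁⁻¹` (in `Bg` and `Bt y`) gives `d ∈ Kg`.  So `iK d₁ = iK d` and `f0 x = 0`.
PROOF of `f0_ne`: `G (g_z) = iK 1 = 1` (`g_z ∈ Ug (Fr y)`), `G (g_z * e) = 0` by hypothesis.
-/

namespace Pool.Agent.Lib.MP_f399a8_nt.G

open Matrix Filter Topology

noncomputable section

namespace Ctx

variable {ι X Y : Type*} [Finite ι] [AddCommGroup X] [AddCommGroup Y] {N : ℕ} (D : Ctx ι X Y N)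
  {p : ℕ} [Fact p.Prime] {C : Type*} [NormedField C] {χ : ↥(D.Tg p) →* Cˣ} {y : Y} {γ : ι}

/-- the difference of the box function and its translate -/
def f0 (χ : ↥(D.Tg p) →* Cˣ) (y : Y) (e : D.Gt p) (x : D.Gt p) : C :=
  D.Gf χ y (D.iK C) (x * e) - D.Gf χ y (D.iK C) x

theorem f0_left (e : D.Gt p) {b : D.Gt p} (hb : b ∈ D.Bg p) (x : D.Gt p) :
    D.f0 χ y e (b * x) = D.cb χ b * D.f0 χ y e x := by
  unfold f0
  rw [mul_assoc, D.gf_left _ hb, D.gf_left _ hb]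
  ring

theorem f0_zero (hy : D.Reg y) (hγ : D.Sim y γ) (h0 : 0 < D.pr γ D.y0) {e : D.Gt p}
    (he : e ∈ D.Ug p (D.Ez y γ)) (heK : e ∈ D.Kg p) {d : D.Gt p} (hd : d ∈ D.Ug p (D.Dr y))
    {z : ℚ_[p]} (hz : ‖z‖ ≤ 1) : D.f0 χ y e (d * D.xr p (D.ng γ) z) = 0 := by
  obtain ⟨g, hg⟩ : ∃ g, g = D.xr p (D.ng γ) z := ⟨_, rfl⟩
  have hgK : g ∈ D.Kg p := by
    rw [hg]
    exact (D.xr_K p).2 hz
  have hgF : g ∈ D.Ug p (D.Fr y) := by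
    rw [hg]
    exact D.xr_mem (D.ng_mem_fr hγ h0) z
  have hgio : D.io p γ (S.lo2 z) = g := by
    rw [hg]
    exact D.io_lo p γ z
  have hnorm : ∀ x ∈ D.Ug p (D.Dr y), g⁻¹ * x * g ∈ D.Ug p (D.Dr y) := by
    intro x hx
    rw [hg]
    refine D.ug_norm' (D.cl_Dr y) (y := y) (fun α hα => hα.1) (D.abs_dr hy hγ h0) ?_ z hx
    rw [D.ng_ng]
    intro h1
    have h2 : D.pr γ D.y0 < 0 := h1.2
    omega
  have hindc : ∀ x : D.Gt p, D.iK C (g⁻¹ * x * g) = D.iK C x := by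
    intro x
    unfold iK
    have h1 : g⁻¹ * x * g ∈ D.Kg p ↔ x ∈ D.Kg p := by
      rw [Subgroup.mul_mem_cancel_right _ hgK, Subgroup.mul_mem_cancel_left _ (inv_mem hgK)]
    by_cases hx : x ∈ D.Kg p
    · rw [if_pos hx, if_pos (h1.mpr hx)]
    · rw [if_neg hx, if_neg fun h2 => hx (h1.mp h2)]
  have hG1 : D.Gf χ y (D.iK C) (d * g) = D.iK C d := by
    have h1 : d * g = 1 * g * (g⁻¹ * d * g) := by group
    rw [h1, D.gf_eq _ (one_mem _) hgF (hnorm d hd), hindc,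
      D.cb_ug χ (S' := D.Po D.y0) (fun α hα => hα) (one_mem _), one_mul]
  obtain ⟨e', he'⟩ : ∃ e', e' = g * e * g⁻¹ := ⟨_, rfl⟩
  have he'O : e' ∈ D.Ug p (D.Ob y γ) := by
    have h1 := (D.ob_io hy hγ (S.lo2 z) (D.ug_mono D.ez_ob he)).1
    rw [hgio] at h1
    rw [he']
    exact h1
  have he'K : e' ∈ D.Kg p := by
    rw [he']
    exact mul_mem (mul_mem hgK heK) (inv_mem hgK)
  have hde : d * e' ∈ D.Ug p (D.Po y) :=
    mul_mem (D.ug_mono (fun α hα => hα.1) hd) (D.ug_mono (fun α hα => hα.1) he'O)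
  obtain ⟨e₁, he₁, d₁, hd₁, hed, hK⟩ := D.ed_fac hde
  have hG2 : D.Gf χ y (D.iK C) (d * g * e) = D.iK C d₁ := by
    have h1 : d * g * e = e₁ * g * (g⁻¹ * d₁ * g) := by
      calc d * g * e = (d * (g * e * g⁻¹)) * g := by group
        _ = (e₁ * d₁) * g := by rw [← he', hed]
        _ = _ := by group
    rw [h1, D.gf_eq _ (D.po_bg (S' := D.Er y) (fun α hα => hα.2) he₁) hgF (hnorm d₁ hd₁), hindc,
      D.cb_ug χ (S' := D.Er y) (fun α hα => hα.2) he₁, one_mul]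
  have hiff : d ∈ D.Kg p ↔ d₁ ∈ D.Kg p := by
    constructor
    · intro h1
      exact (hK (mul_mem h1 he'K)).2
    · intro h1
      have h2 : e₁⁻¹ * d = d₁ * e'⁻¹ := by
        have h3 : d = e₁ * d₁ * e'⁻¹ := by
          rw [← hed]
          group
        rw [h3]
        group
      have h4 : e₁⁻¹ * d ∈ D.Kg p := by
        rw [h2]
        exact mul_mem h1 (inv_mem he'K)
      exact (D.kp_er hy (inv_mem (D.po_bg (S' := D.Er y) (fun α hα => hα.2) he₁))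
        (inv_mem (D.po_Bt (D.ug_mono (fun α hα => hα.1) he₁))) hd h4).2
  unfold f0
  rw [← hg, hG2, hG1]
  unfold iK
  by_cases h1 : d ∈ D.Kg p
  · rw [if_pos h1, if_pos (hiff.mp h1), sub_self]
  · rw [if_neg h1, if_neg fun h2 => h1 (hiff.mpr h2), sub_self]

theorem f0_ne (hγ : D.Sim y γ) (h0 : 0 < D.pr γ D.y0) {e : D.Gt p} {A : ℝ}
    (hz : ∀ z : ℚ_[p], A < ‖z‖ → D.Gf χ y (D.iK C) (D.xr p (D.ng γ) z * e) = 0)
    {z : ℚ_[p]} (hz1 : A < ‖z‖) : D.f0 χ y e (D.xr p (D.ng γ) z) = -1 := by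
  unfold f0
  have h1 : D.Gf χ y (D.iK C) (D.xr p (D.ng γ) z) = 1 := by
    have h2 : D.xr p (D.ng γ) z = (1 : D.Gt p) * D.xr p (D.ng γ) z * 1 := by
      rw [one_mul, mul_one]
    rw [h2, D.gf_eq _ (one_mem _) (D.xr_mem (D.ng_mem_fr hγ h0) z) (one_mem _),
      D.cb_ug χ (S' := D.Po D.y0) (fun α hα => hα) (one_mem _), one_mul]
    unfold iK
    rw [if_pos (one_mem _)]
  rw [hz z hz1, h1, zero_sub]

end Ctx

end

end Pool.Agent.Lib.MP_f399a8_nt.G
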