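import Pool.Agent.Lib.MP_f399a8_ntG.Za2
import Pool.Agent.Lib.MP_f399a8_ntG.Pa2

/-!
# The function `f1`

`f1 x = f0 (x * io γ w2)`.  Write `g_z = xr (ng γ) z = io γ (lo2 z)`, `w = io γ w2`, `G = Gf χ y iK`.  (The same for `SL_n`: `MP_f399a8_ntS.ZfB`.)

PROOF.
* `f1_big`: let `‖z‖ ≥ 1`, `x = d * g_z`.  `x * w = d * io γ (up2 z 1) * g_{-1/z}` (`S.lo_w`).  `s := d * io γ (up2 z 1) ∈ Bt y` (`dr_Bt`, `up_Bt`),
  `s = b' * d'` (`bt_split`), so `f1 x = f0 (b' * (d' * g_{-1/z})) = cb χ b' * f0 (d' * g_{-1/z}) = 0` (`f0_left`, `f0_zero`, `‖-1/z‖ ≤ 1`).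
* `f1_ne`: let `q = p ^ k`, `k` with `A < p ^ k`, take `u = g_{-q}` (in `Ug (Dr (ry γ y))`: `dr_ry`, `xr_mem`): `u * w = io γ (up2 (-q) 1) * g_{1/q}` and
  `f1 u = cb χ (io γ (up2 ..)) * f0 (g_{1/q}) = - cb χ (..) ≠ 0` (`f0_ne`, `cb_ne_zero`; `io γ (up2 ..) ∈ Bg` since `γ` is positive for `y0`: `up2_eq`,
  `po_bg`, `tg_bg`).
* `f1_supp`: let `u ∈ Ug (Dr (ry γ y))`, `u ∉ Kg`, `u = d * g_z` (`dr_peel`).  If `‖z‖ ≥ 1` use `f1_big`.  If `‖z‖ < 1`: `d ∉ Kg` (`dr_mul_K`).  Claim: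
  `G (u * g) = 0` for `g = w * e` and `g = w` (both are in `Kg` and in the parabolic subgroup `P = Pb y γ`).  Suppose `x = u * g`, `G x ≠ 0`:
  `x = b * f * d₂` (`gf_ne`) with `iK d₂ ≠ 0`, so `d₂ ∈ Kg`.  `x ∈ P` (`dr_ry_Pb`).  `pb_split`: if `x = b₃ * d₃ * w` then `d₃ * w = (b₃⁻¹ * b) * (f * d₂)`
  contradicts `dw_notin`.  If `x = b₃ * d₃ * g_{z₃}` then `x = b₃ * g_{z₃} * d₄` with `d₄ = g_{z₃}⁻¹ * d₃ * g_{z₃} ∈ Ug (Dr y)` (`ug_norm'`, `abs_dr`), and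
  `cell_uniq` gives `b = b₃`, `f = g_{z₃}`, `d₂ = d₄`.  By `S.lo2_iwa` `g_{z₃} = io γ (up2 ..) * io γ k₅`, so `u = x * g⁻¹ = b₆ * k₆` with
  `b₆ = b₃ * io γ (up2 ..) ∈ Bg`, `k₆ = io γ k₅ * d₂ * g⁻¹ ∈ Kg ∩ P`.  So `d = b₆ * k₇`, `k₇ = k₆ * g_z⁻¹ ∈ Kg ∩ P` (`‖z‖ ≤ 1`).
  `b₆⁻¹ = k₇ * d⁻¹ ∈ Bg ∩ P`, so it is in `Bt y` (`pb_Bp`), and `b₆⁻¹ * d = k₇ ∈ Kg`, so `d ∈ Kg` by `kp_er`.  Contradiction.
* `f1_norm`: `gf_norm` with `A = 1` (`‖iK‖ ≤ 1`) for `k * (w * e)` and `k * w` in `Kg`, ultrametric inequality.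
* `f1_HH`: if `f1 x ≠ 0`, one of the two terms `G (x * g)`, `g ∈ {w * e, w}`, has norm `≥ ‖f1 x‖ > 0` (ultrametric); `x * g = b * f * d` with
  `d ∈ Ug (Dr y) ∩ Kg`, `‖G (x * g)‖ = ‖cb χ b‖`; `c = d * g⁻¹ ∈ Pb ∩ Kg` (`e ∈ Ug (Ob y γ) ⊆ Ug (Po y)`).
-/

namespace Pool.Agent.Lib.MP_f399a8_nt.G

open Matrix Filter Topology

noncomputable section

namespace Ctx

variable {ι X Y : Type*} [Finite ι] [AddCommGroup X] [AddCommGroup Y] {N : ℕ} (D : Ctx ι X Y N)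
  {p : ℕ} [Fact p.Prime] {C : Type*} [NormedField C] {χ : ↥(D.Tg p) →* Cˣ} {h : X →+ ℝ} {y : Y}
  {γ : ι}

/-- the translate of `f0` by the Weyl element -/
def f1 (χ : ↥(D.Tg p) →* Cˣ) (y : Y) (γ : ι) (e : D.Gt p) (x : D.Gt p) : C :=
  D.f0 χ y e (x * D.io p γ (S.w2 p))

private theorem Za3_sub {C : Type*} [NormedField C] [IsUltrametricDist C] (a b : C) :
    ‖a - b‖ ≤ max ‖a‖ ‖b‖ := by
  rw [sub_eq_add_neg]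
  refine (IsUltrametricDist.norm_add_le_max _ _).trans ?_
  rw [norm_neg]

private theorem Za3_iK_ne {ι X Y : Type*} [Finite ι] [AddCommGroup X] [AddCommGroup Y] {N : ℕ}
    (D : Ctx ι X Y N) {p : ℕ} [Fact p.Prime] {C : Type*} [NormedField C] {d : D.Gt p}
    (h : D.iK C d ≠ 0) : d ∈ D.Kg p := by
  by_contra hd
  exact h (by unfold iK; rw [if_neg hd])

private theorem Za3_iK_one {ι X Y : Type*} [Finite ι] [AddCommGroup X] [AddCommGroup Y] {N : ℕ}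
    (D : Ctx ι X Y N) {p : ℕ} [Fact p.Prime] {C : Type*} [NormedField C] {d : D.Gt p}
    (h : d ∈ D.Kg p) : D.iK C d = 1 := by
  unfold iK; rw [if_pos h]

private theorem Za3_iK_norm {ι X Y : Type*} [Finite ι] [AddCommGroup X] [AddCommGroup Y] {N : ℕ}
    (D : Ctx ι X Y N) {p : ℕ} [Fact p.Prime] {C : Type*} [NormedField C] (d : D.Gt p) :
    ‖D.iK C d‖ ≤ 1 := by
  unfold iK
  split_ifs
  · rw [norm_one]
  · rw [norm_zero]; exact zero_le_one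

private theorem Za3_ePb {ι X Y : Type*} [Finite ι] [AddCommGroup X] [AddCommGroup Y] {N : ℕ}
    (D : Ctx ι X Y N) {p : ℕ} [Fact p.Prime] {y : Y} {γ : ι} {e : D.Gt p}
    (he : e ∈ D.Ug p (D.Ez y γ)) : e ∈ D.Pb p y γ :=
  D.bt_Pb (D.po_Bt (D.ug_mono (fun _ h => h.1.1) he))

private theorem Za3_up_Bg {ι X Y : Type*} [Finite ι] [AddCommGroup X] [AddCommGroup Y] {N : ℕ}
    (D : Ctx ι X Y N) {p : ℕ} [Fact p.Prime] {γ : ι} (h0 : 0 < D.pr γ D.y0)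
    {a : ℚ_[p]} (ha : a ≠ 0) (c : ℚ_[p]) : D.io p γ (S.up2 a ha c) ∈ D.Bg p := by
  rw [up2_eq, map_mul, D.io_dg, D.io_ux]
  refine mul_mem (D.tg_bg (D.cc_torus p _ _)) ?_
  refine D.po_bg (S' := {γ}) ?_ (D.xr_mem (Set.mem_singleton γ) _)
  intro α hα
  rw [Set.mem_singleton_iff] at hα
  rw [hα]
  exact h0

private theorem Za3_zero {ι X Y : Type*} [Finite ι] [AddCommGroup X] [AddCommGroup Y] {N : ℕ}
    (D : Ctx ι X Y N) {p : ℕ} [Fact p.Prime] {C : Type*} [NormedField C]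
    {χ : ↥(D.Tg p) →* Cˣ} {y : Y} {γ : ι} (hy : D.Reg y) (hγ : D.Sim y γ)
    (h0 : 0 < D.pr γ D.y0) {d : D.Gt p} (hd : d ∈ D.Ug p (D.Dr y)) (hdK : d ∉ D.Kg p)
    {z : ℚ_[p]} (hz : ‖z‖ ≤ 1) {g : D.Gt p} (hgK : g ∈ D.Kg p) (hgP : g ∈ D.Pb p y γ) :
    D.Gf χ y (D.iK C) (d * D.xr p (D.ng γ) z * g) = 0 := by
  by_contra hne
  obtain ⟨b, hb, f, hf, d₂, hd₂, hx, hψ, -⟩ := D.gf_ne hne
  have hd₂K : d₂ ∈ D.Kg p := Za3_iK_ne D hψ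
  have hdP : d ∈ D.Pb p y γ := D.bt_Pb (D.dr_Bt hd)
  have hd₂P : d₂ ∈ D.Pb p y γ := D.bt_Pb (D.dr_Bt hd₂)
  have hzP : D.xr p (D.ng γ) z ∈ D.Pb p y γ := by
    rw [← D.io_lo]
    exact D.io_Pb _
  have hzK : D.xr p (D.ng γ) z ∈ D.Kg p := (D.xr_K p).2 hz
  have hyP : d * D.xr p (D.ng γ) z * g ∈ D.Pb p y γ := mul_mem (mul_mem hdP hzP) hgP
  obtain ⟨b₃, hb₃, -, d₃, hd₃, hy₃⟩ := D.pb_split hy hγ hyP
  rcases hy₃ with ⟨z₃, hy₃⟩ | hy₃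
  · have hd₄ : (D.xr p (D.ng γ) z₃)⁻¹ * d₃ * D.xr p (D.ng γ) z₃ ∈ D.Ug p (D.Dr y) := by
      refine D.ug_norm' (D.cl_Dr y) (y := y) (fun α hα => hα.1) (D.abs_dr hy hγ h0) ?_ z₃ hd₃
      rw [D.ng_ng]
      intro h
      have h1 : D.pr γ D.y0 < 0 := h.2
      omega
    have hcell : b * f * d₂ = b₃ * D.xr p (D.ng γ) z₃ *
        ((D.xr p (D.ng γ) z₃)⁻¹ * d₃ * D.xr p (D.ng γ) z₃) := by
      rw [← hx, hy₃]; group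
    obtain ⟨hbb, hff, -⟩ := D.cell_uniq hb hb₃ hf (D.xr_mem (D.ng_mem_fr hγ h0) z₃) hd₂ hd₄ hcell
    obtain ⟨a, ha, c, k₅, hk₅, hlo2⟩ := S.lo2_iwa z₃
    have hf2 : f = D.io p γ (S.up2 a ha c) * D.io p γ k₅ := by
      rw [hff, ← D.io_lo, hlo2, map_mul]
    have hb₆ : b * D.io p γ (S.up2 a ha c) ∈ D.Bg p := mul_mem hb (Za3_up_Bg D h0 ha c)
    have hk₇K : D.io p γ k₅ * d₂ * g⁻¹ * (D.xr p (D.ng γ) z)⁻¹ ∈ D.Kg p :=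
      mul_mem (mul_mem (mul_mem ((D.io_K p).2 hk₅) hd₂K) (inv_mem hgK)) (inv_mem hzK)
    have hk₇P : D.io p γ k₅ * d₂ * g⁻¹ * (D.xr p (D.ng γ) z)⁻¹ ∈ D.Pb p y γ :=
      mul_mem (mul_mem (mul_mem (D.io_Pb _) hd₂P) (inv_mem hgP)) (inv_mem hzP)
    have hdk : (b * D.io p γ (S.up2 a ha c))⁻¹ * d =
        D.io p γ k₅ * d₂ * g⁻¹ * (D.xr p (D.ng γ) z)⁻¹ := by
      have h1 : d = b * f * d₂ * g⁻¹ * (D.xr p (D.ng γ) z)⁻¹ := by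
        rw [← hx]; group
      conv_lhs => rw [h1, hf2]
      group
    have hb₇ : (b * D.io p γ (S.up2 a ha c))⁻¹ ∈ D.Pb p y γ := by
      have h1 : (b * D.io p γ (S.up2 a ha c))⁻¹ =
          D.io p γ k₅ * d₂ * g⁻¹ * (D.xr p (D.ng γ) z)⁻¹ * d⁻¹ := by
        rw [← hdk]; group
      rw [h1]
      exact mul_mem hk₇P (inv_mem hdP)
    refine hdK (D.kp_er hy (inv_mem hb₆) (D.pb_Bp hy hγ h0 (inv_mem hb₆) hb₇) hd ?_).2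
    rw [hdk]
    exact hk₇K
  · refine D.dw_notin hy hγ h0 hd₃ (b := b₃⁻¹ * b) (u := f * d₂) (mul_mem (inv_mem hb₃) hb)
      (mul_mem (D.ug_mono (fun α hα => hα.2) hf) (D.ug_mono (fun α hα => hα.2) hd₂)) ?_
    have h1 : b * f * d₂ = b₃ * d₃ * D.io p γ (S.w2 p) := by rw [← hx, hy₃]
    calc d₃ * D.io p γ (S.w2 p) = b₃⁻¹ * (b₃ * d₃ * D.io p γ (S.w2 p)) := by group
      _ = b₃⁻¹ * b * (f * d₂) := by rw [← h1]; group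

theorem f1_left (e : D.Gt p) {b : D.Gt p} (hb : b ∈ D.Bg p) (x : D.Gt p) :
    D.f1 χ y γ e (b * x) = D.cb χ b * D.f1 χ y γ e x := by
  unfold f1
  rw [mul_assoc]
  exact D.f0_left e hb _

theorem f1_big (hy : D.Reg y) (hγ : D.Sim y γ) (h0 : 0 < D.pr γ D.y0) {e : D.Gt p}
    (he : e ∈ D.Ug p (D.Ez y γ)) (heK : e ∈ D.Kg p) {d : D.Gt p} (hd : d ∈ D.Ug p (D.Dr y))
    {z : ℚ_[p]} (hz : 1 ≤ ‖z‖) : D.f1 χ y γ e (d * D.xr p (D.ng γ) z) = 0 := by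
  have hz0 : z ≠ 0 := by
    rintro rfl
    rw [norm_zero] at hz
    linarith
  unfold f1
  have h1 : d * D.xr p (D.ng γ) z * D.io p γ (S.w2 p) =
      d * D.io p γ (S.up2 z hz0 1) * D.xr p (D.ng γ) (-z⁻¹) := by
    rw [← D.io_lo, ← D.io_lo, mul_assoc, ← map_mul, S.lo_w hz0, map_mul, ← mul_assoc]
  obtain ⟨b', hb', -, d', hd', hs⟩ := D.bt_split (mul_mem (D.dr_Bt hd) (D.up_Bt hγ hz0 1))
  rw [h1, hs, mul_assoc, D.f0_left e hb', D.f0_zero hy hγ h0 he heK hd', mul_zero]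
  rw [norm_neg, norm_inv]
  exact inv_le_one_of_one_le₀ hz

theorem f1_ne (hy : D.Reg y) (hγ : D.Sim y γ) (h0 : 0 < D.pr γ D.y0) {e : D.Gt p} {A : ℝ}
    (hz : ∀ z : ℚ_[p], A < ‖z‖ → D.Gf χ y (D.iK C) (D.xr p (D.ng γ) z * e) = 0) :
    ∃ u ∈ D.Ug p (D.Dr (D.ry γ y)), D.f1 χ y γ e u ≠ 0 := by
  have hp1 : (1 : ℝ) < (p : ℝ) := by exact_mod_cast (Fact.out : p.Prime).one_lt
  obtain ⟨k, hk⟩ := pow_unbounded_of_one_lt A hp1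
  have hp0 : ((p : ℚ_[p]) ^ k) ≠ 0 := by
    refine pow_ne_zero k ?_
    exact_mod_cast (Fact.out : p.Prime).ne_zero
  have hq : (-((p : ℚ_[p]) ^ k)) ≠ 0 := neg_ne_zero.mpr hp0
  refine ⟨D.xr p (D.ng γ) (-((p : ℚ_[p]) ^ k)), ?_, ?_⟩
  · exact D.xr_mem ((D.dr_ry hy hγ h0 (D.ng γ)).2 (Or.inr rfl)) _
  unfold f1
  rw [← D.io_lo, ← map_mul, S.lo_w hq, map_mul, D.f0_left e (Za3_up_Bg D h0 hq 1), D.io_lo,
    D.f0_ne hγ h0 hz]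
  · exact mul_ne_zero (D.cb_ne_zero _ _) (neg_ne_zero.mpr one_ne_zero)
  · rw [norm_neg, norm_inv, norm_neg, norm_pow, Padic.norm_p, inv_pow, inv_inv]
    exact hk

theorem f1_supp (hy : D.Reg y) (hγ : D.Sim y γ) (h0 : 0 < D.pr γ D.y0) {e : D.Gt p}
    (he : e ∈ D.Ug p (D.Ez y γ)) (heK : e ∈ D.Kg p) {u : D.Gt p}
    (hu : u ∈ D.Ug p (D.Dr (D.ry γ y))) (huK : u ∉ D.Kg p) : D.f1 χ y γ e u = 0 := by
  obtain ⟨d, hd, z, hdz, -⟩ := D.dr_peel hy hγ h0 hu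
  subst hdz
  rcases le_or_gt 1 ‖z‖ with hz | hz
  · exact D.f1_big hy hγ h0 he heK hd hz
  · have hdK : d ∉ D.Kg p := fun hdK => huK ((D.dr_mul_K hy hγ h0 hd z).1.mpr ⟨hdK, hz.le⟩)
    have hwK : D.io p γ (S.w2 p) ∈ D.Kg p := D.io_w_K p γ
    have hwP : D.io p γ (S.w2 p) ∈ D.Pb p y γ := D.io_Pb _
    unfold f1 f0
    rw [Za3_zero D hy hγ h0 hd hdK hz.le hwK hwP, mul_assoc _ _ e,
      Za3_zero D hy hγ h0 hd hdK hz.le (mul_mem hwK heK) (mul_mem hwP (Za3_ePb D he)), sub_zero]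

theorem f1_norm [IsUltrametricDist C] (hs : D.Slope χ h) (hg : D.Good h y)
    {e : D.Gt p} (heK : e ∈ D.Kg p) {k : D.Gt p} (hk : k ∈ D.Kg p) :
    ‖D.f1 χ y γ e k‖ ≤ 1 := by
  have hwK : D.io p γ (S.w2 p) ∈ D.Kg p := D.io_w_K p γ
  have h1 : ∀ k ∈ D.Kg p, ‖D.Gf χ y (D.iK C) k‖ ≤ 1 := fun k hk =>
    D.gf_norm hs hg (fun d _ hd => by unfold iK; rw [if_neg hd]) zero_le_one
      (fun d _ => Za3_iK_norm D d) hk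
  unfold f1 f0
  exact (Za3_sub _ _).trans
    (max_le (h1 _ (mul_mem (mul_mem hk hwK) heK)) (h1 _ (mul_mem hk hwK)))

theorem f1_HH [IsUltrametricDist C] (hy : D.Reg y) (hγ : D.Sim y γ) {e : D.Gt p}
    (he : e ∈ D.Ug p (D.Ez y γ)) (heK : e ∈ D.Kg p) : D.HH χ y γ (D.f1 χ y γ e) := by
  intro x hx
  have hwK : D.io p γ (S.w2 p) ∈ D.Kg p := D.io_w_K p γ
  have hwP : D.io p γ (S.w2 p) ∈ D.Pb p y γ := D.io_Pb _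
  have key : ∀ g : D.Gt p, g ∈ D.Kg p → g ∈ D.Pb p y γ →
      ‖D.f1 χ y γ e x‖ ≤ ‖D.Gf χ y (D.iK C) (x * g)‖ →
      ∃ b ∈ D.Bg p, ∃ u ∈ D.Ug p (D.Fr y), ∃ c ∈ D.Pb p y γ, c ∈ D.Kg p ∧
        x = b * u * c ∧ ‖D.f1 χ y γ e x‖ ≤ ‖D.cb χ b‖ := by
    intro g hgK hgP hle
    have hne : D.Gf χ y (D.iK C) (x * g) ≠ 0 := by
      intro h0
      rw [h0, norm_zero] at hle
      exact hx (norm_le_zero_iff.mp hle)
    obtain ⟨b, hb, f, hf, d, hd, hxg, hψ, hv⟩ := D.gf_ne hne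
    have hdK := Za3_iK_ne D hψ
    refine ⟨b, hb, f, hf, d * g⁻¹, mul_mem (D.bt_Pb (D.dr_Bt hd)) (inv_mem hgP),
      mul_mem hdK (inv_mem hgK), ?_, ?_⟩
    · rw [← mul_assoc, ← hxg]; group
    · rw [hv, Za3_iK_one D hdK, mul_one] at hle
      exact hle
  have hmax : ‖D.f1 χ y γ e x‖ ≤ max ‖D.Gf χ y (D.iK C) (x * (D.io p γ (S.w2 p) * e))‖
      ‖D.Gf χ y (D.iK C) (x * D.io p γ (S.w2 p))‖ := by
    unfold f1 f0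
    rw [← mul_assoc]
    exact Za3_sub _ _
  rcases le_max_iff.mp hmax with h1 | h1
  · exact key _ (mul_mem hwK heK) (mul_mem hwP (Za3_ePb D he)) h1
  · exact key _ hwK hwP h1

end Ctx

end

end Pool.Agent.Lib.MP_f399a8_nt.G
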